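import Pool.Agent.Lib.MP_b6f35e_al.KN.Spec

/-!
# MP_b6f35e_al, KN, module ACK (helper77): acyclic complexes contribute nothing
-/

set_option autoImplicit false

namespace Pool.Agent.Lib.MPb6f35e.KN

open Matrix
open Pool.Agent.Lib.MP8a3537.UV (emb res lres SuppIn)

namespace ACKM

section ringlemmas

variable {B : Type} [Ring B] {p e Γ μ E E' : B}

/-- the relations between the matrices. -/
structure Rel (p e Γ μ E E' : B) : Prop where
  pe : p * e = e
  ep : e * p = e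
  ee : e * e = 0
  pG : p * Γ = Γ
  Gp : Γ * p = Γ
  hG : Γ * e + e * Γ = p
  pm : p * μ = μ
  mp : μ * p = μ
  me : μ * e = e * μ
  Ep : E * p = p * E
  E'p : E' * p = p * E'
  Em : E * μ = μ * E
  E'm : E' * μ = μ * E'
  EG : E * Γ = Γ * E'
  E'G : E' * Γ = Γ * E
  Ee : E * e = e * E'
  E'e : E' * e = e * E
  nil : IsNilpotent μ

namespace Rel

theorem symm (h : Rel p e Γ μ E E') : Rel p e Γ μ E' E :=
  ⟨h.pe, h.ep, h.ee, h.pG, h.Gp, h.hG, h.pm, h.mp, h.me, h.E'p, h.Ep, h.E'm, h.Em, h.E'G, h.EG,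
    h.E'e, h.Ee, h.nil⟩

variable (h : Rel p e Γ μ E E')
include h

theorem Ge : Γ * e = p - e * Γ := by rw [← h.hG]; abel

theorem eG : e * Γ = p - Γ * e := by rw [← h.hG]; abel

theorem pi_idem : (e * Γ) * (e * Γ) = e * Γ := by
  calc (e * Γ) * (e * Γ) = e * (Γ * e) * Γ := by simp only [mul_assoc]
    _ = e * (p - e * Γ) * Γ := by rw [h.Ge]
    _ = (e * p) * Γ - (e * e) * Γ * Γ := by noncomm_ring
    _ = e * Γ := by rw [h.ep, h.ee]; noncomm_ring

theorem pi'_idem : (Γ * e) * (Γ * e) = Γ * e := by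
  calc (Γ * e) * (Γ * e) = Γ * (e * Γ) * e := by simp only [mul_assoc]
    _ = Γ * (p - Γ * e) * e := by rw [h.eG]
    _ = (Γ * p) * e - Γ * Γ * (e * e) := by noncomm_ring
    _ = Γ * e := by rw [h.Gp, h.ee]; noncomm_ring

theorem pi'_pi : (Γ * e) * (e * Γ) = 0 := by
  calc (Γ * e) * (e * Γ) = Γ * (e * e) * Γ := by simp only [mul_assoc]
    _ = 0 := by rw [h.ee]; noncomm_ring

theorem pi_pi' : (e * Γ) * (Γ * e) = 0 := by
  calc (e * Γ) * (Γ * e) = (e * Γ) * (p - e * Γ) := by rw [h.Ge]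
    _ = e * (Γ * p) - (e * Γ) * (e * Γ) := by noncomm_ring
    _ = 0 := by rw [h.Gp, h.pi_idem]; noncomm_ring

theorem sum : e * Γ + Γ * e = p := by rw [← h.hG]; abel

/-- `E` commutes with `π`. -/
theorem E_pi : E * (e * Γ) = (e * Γ) * E := by
  rw [← mul_assoc, h.Ee, mul_assoc, h.E'G, mul_assoc]

theorem E_pi' : E * (Γ * e) = (Γ * e) * E := by
  rw [← mul_assoc, h.EG, mul_assoc, h.E'e, mul_assoc]

theorem pi'_m_pi : (Γ * e) * μ * (e * Γ) = 0 := by
  calc (Γ * e) * μ * (e * Γ) = Γ * (e * μ) * e * Γ := by simp only [mul_assoc]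
    _ = Γ * (μ * e) * e * Γ := by rw [h.me]
    _ = Γ * μ * (e * e) * Γ := by simp only [mul_assoc]
    _ = 0 := by rw [h.ee]; noncomm_ring

theorem pi'_Em_pi : (Γ * e) * (E * μ) * (e * Γ) = 0 := by
  calc (Γ * e) * (E * μ) * (e * Γ) = ((Γ * e) * E) * μ * (e * Γ) := by simp only [mul_assoc]
    _ = (E * (Γ * e)) * μ * (e * Γ) := by rw [h.E_pi']
    _ = E * ((Γ * e) * μ * (e * Γ)) := by simp only [mul_assoc]
    _ = 0 := by rw [h.pi'_m_pi, mul_zero]

theorem p_Em : (e * Γ + Γ * e) * (E * μ) = E * μ := by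
  rw [h.sum, ← mul_assoc, ← h.Ep, mul_assoc, h.pm]

theorem Em_p : (E * μ) * (e * Γ + Γ * e) = E * μ := by
  rw [h.sum, mul_assoc, h.mp]

theorem nilE : IsNilpotent (E * μ) :=
  Commute.isNilpotent_mul_left (show Commute E μ from h.Em) h.nil

theorem Em_pi : (E * μ) * (e * Γ) = (e * Γ) * (E * μ) * (e * Γ) := by
  have h1 : (e * Γ + Γ * e) * (E * μ) * (e * Γ) = (E * μ) * (e * Γ) := by rw [h.p_Em]
  rw [← h1, add_mul, add_mul, h.pi'_Em_pi, add_zero]

theorem pow_pi (m : ℕ) : ((e * Γ) * (E * μ) * (e * Γ)) ^ (m + 1) = (E * μ) ^ (m + 1) * (e * Γ) := by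
  rw [← h.Em_pi]
  induction m with
  | zero => simp
  | succ m ih =>
    rw [pow_succ, ih]
    calc (E * μ) ^ (m + 1) * (e * Γ) * ((E * μ) * (e * Γ)) =
        (E * μ) ^ (m + 1) * ((e * Γ) * (E * μ) * (e * Γ)) := by simp only [mul_assoc]
      _ = (E * μ) ^ (m + 1) * ((E * μ) * (e * Γ)) := by rw [← h.Em_pi]
      _ = (E * μ) ^ (m + 1 + 1) * (e * Γ) := by rw [pow_succ (E * μ) (m + 1)]; simp only [mul_assoc]

theorem nil_pi : IsNilpotent ((e * Γ) * (E * μ) * (e * Γ)) := by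
  obtain ⟨m, hm⟩ := h.nilE
  refine ⟨m + 1, ?_⟩
  rw [h.pow_pi, pow_succ, hm]
  noncomm_ring

/-- the matrix after `swap`. -/
theorem swapped : Γ * ((e * Γ) * (E * μ) * e) = (Γ * e) * (E' * μ) * (Γ * e) := by
  have h1 : (Γ * e) * μ = (Γ * e) * μ * (Γ * e) := by
    have h2 : (Γ * e) * μ * (e * Γ + Γ * e) = (Γ * e) * μ := by
      rw [h.sum, mul_assoc, h.mp]
    rw [mul_add, h.pi'_m_pi, zero_add] at h2
    exact h2.symm
  calc Γ * ((e * Γ) * (E * μ) * e) = (Γ * e) * (Γ * E) * (μ * e) := by simp only [mul_assoc]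
    _ = (Γ * e) * (E' * Γ) * (e * μ) := by rw [h.E'G, h.me]
    _ = ((Γ * e) * E') * (Γ * e) * μ := by simp only [mul_assoc]
    _ = (E' * (Γ * e)) * (Γ * e) * μ := by rw [h.symm.E_pi']
    _ = E' * ((Γ * e) * (Γ * e)) * μ := by simp only [mul_assoc]
    _ = E' * ((Γ * e) * μ) := by rw [h.pi'_idem]; simp only [mul_assoc]
    _ = E' * ((Γ * e) * μ * (Γ * e)) := by rw [← h1]
    _ = (E' * (Γ * e)) * μ * (Γ * e) := by simp only [mul_assoc]
    _ = ((Γ * e) * E') * μ * (Γ * e) := by rw [h.symm.E_pi']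
    _ = _ := by simp only [mul_assoc]

end Rel

end ringlemmas

section main

variable {A K : Type} [Ring A] [AddCommGroup K] {κ : ∀ (ι : Type) [Fintype ι], Matrix ι ι A → K}
  {ι : Type} [Fintype ι] [DecidableEq ι] {p e Γ μ E E' : Matrix ι ι A}

theorem half (hκ : KF κ)
    (h4 : ∀ (ι : Type) [Fintype ι] [DecidableEq ι] (π π' ν : Matrix ι ι A), π * π = π →
      π' * π' = π' → π * π' = 0 → π' * π = 0 → (π + π') * ν = ν → ν * (π + π') = ν →
      π' * ν * π = 0 → IsNilpotent ν → κ ι (1 + ν) = κ ι (1 + π * ν * π) + κ ι (1 + π' * ν * π'))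
    (h : Rel p e Γ μ E E') :
    κ ι (1 + E * μ) = κ ι (1 + (Γ * e) * (E' * μ) * (Γ * e)) +
      κ ι (1 + (Γ * e) * (E * μ) * (Γ * e)) := by
  rw [h4 ι (e * Γ) (Γ * e) (E * μ) h.pi_idem h.pi'_idem h.pi_pi' h.pi'_pi h.p_Em h.Em_p
    h.pi'_Em_pi h.nilE]
  congr 1
  have h1 : (e * Γ) * (E * μ) * (e * Γ) = ((e * Γ) * (E * μ) * e) * Γ := by
    simp only [mul_assoc]
  have hu : IsUnit (1 + (e * Γ) * (E * μ) * (e * Γ)) := h.nil_pi.isUnit_one_add
  rw [h1] at hu ⊢
  rw [hκ.swap ι ι _ Γ hu, h.swapped]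

theorem whole (hκ : KF κ)
    (h4 : ∀ (ι : Type) [Fintype ι] [DecidableEq ι] (π π' ν : Matrix ι ι A), π * π = π →
      π' * π' = π' → π * π' = 0 → π' * π = 0 → (π + π') * ν = ν → ν * (π + π') = ν →
      π' * ν * π = 0 → IsNilpotent ν → κ ι (1 + ν) = κ ι (1 + π * ν * π) + κ ι (1 + π' * ν * π'))
    (h : Rel p e Γ μ E E') : κ ι (1 + E * μ) = κ ι (1 + E' * μ) := by
  rw [half hκ h4 h, half hκ h4 h.symm, add_comm]

end main

section diag

variable {A I J : Type} [Ring A] [Fintype I] [DecidableEq I]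

theorem diag_comm (P Q : I → Prop) [DecidablePred P] [DecidablePred Q] (M : Matrix I I A)
    (h : ∀ i j, M i j ≠ 0 → (P i ↔ Q j)) :
    (Matrix.diagonal fun i => if P i then (1 : A) else 0) * M =
      M * Matrix.diagonal fun i => if Q i then (1 : A) else 0 := by
  ext i j
  rw [Matrix.diagonal_mul, Matrix.mul_diagonal]
  by_cases h0 : M i j = 0
  · rw [h0, mul_zero, zero_mul]
  · by_cases h1 : P i
    · rw [if_pos h1, if_pos ((h i j h0).1 h1), one_mul, mul_one]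
    · rw [if_neg h1, if_neg fun h2 => h1 ((h i j h0).2 h2), zero_mul, mul_zero]

omit [Fintype I] in
theorem one_sub_diag (P : I → Prop) [DecidablePred P] :
    (1 : Matrix I I A) - (Matrix.diagonal fun i => if P i then (1 : A) else 0) =
      Matrix.diagonal fun i => if ¬ P i then (1 : A) else 0 := by
  rw [← Matrix.diagonal_one, Matrix.diagonal_sub]
  congr 1
  funext i
  by_cases h : P i <;> simp [h]

end diag

end ACKM

open ACKM in
theorem specACK (hKCL : SpecKCL) : SpecACK := by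
  intro R G K _ _ _ κ hκ L X C μ Γ hNS hΓd hpΓ hΓp hΓ
  obtain ⟨-, -, -, h4⟩ := hKCL (MonoidAlgebra R G) K κ hκ
  have hem : ∀ (M N : Matrix C.I C.I (MonoidAlgebra R L)),
      em L (M * N) = em L M * em L N := fun M N => Matrix.map_mul
  have hne : ∀ (M : Matrix C.I C.I (MonoidAlgebra R L)) (i j : C.I),
      (em L M : Matrix C.I C.I (MonoidAlgebra R G)) i j ≠ 0 → M i j ≠ 0 := by
    intro M i j h h0
    apply h
    show emb R L (M i j) = 0
    rw [h0, map_zero]
  have hE : Ev C (MonoidAlgebra R G) =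
      Matrix.diagonal fun i => if Even (C.deg i) then (1 : MonoidAlgebra R G) else 0 := rfl
  have hE' : 1 - Ev C (MonoidAlgebra R G) =
      Matrix.diagonal fun i => if ¬ Even (C.deg i) then (1 : MonoidAlgebra R G) else 0 := by
    rw [hE, one_sub_diag]
  have hrel : Rel (em L C.p) (em L C.e) (em L Γ) μ (Ev C (MonoidAlgebra R G))
      (1 - Ev C (MonoidAlgebra R G)) := by
    have d0 : ∀ M : Matrix C.I C.I (MonoidAlgebra R G), (∀ i j, M i j ≠ 0 → C.deg i = C.deg j) →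
        Ev C (MonoidAlgebra R G) * M = M * Ev C (MonoidAlgebra R G) ∧
        (1 - Ev C (MonoidAlgebra R G)) * M = M * (1 - Ev C (MonoidAlgebra R G)) := by
      intro M hM
      rw [hE', hE]
      constructor
      · exact diag_comm _ _ M fun i j h => by rw [hM i j h]
      · exact diag_comm _ _ M fun i j h => by rw [hM i j h]
    have d1 : ∀ M : Matrix C.I C.I (MonoidAlgebra R G),
        (∀ i j, M i j ≠ 0 → (Even (C.deg i) ↔ ¬ Even (C.deg j))) →
        Ev C (MonoidAlgebra R G) * M = M * (1 - Ev C (MonoidAlgebra R G)) ∧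
        (1 - Ev C (MonoidAlgebra R G)) * M = M * Ev C (MonoidAlgebra R G) := by
      intro M hM
      rw [hE', hE]
      constructor
      · exact diag_comm _ _ M hM
      · refine diag_comm _ _ M fun i j h => ?_
        rw [hM i j h, not_not]
    have hp := d0 (em L C.p) fun i j h => C.hp i j (hne _ i j h)
    have hμ := d0 μ hNS.dg
    have he := d1 (em L C.e) fun i j h => by
      rw [C.he i j (hne _ i j h), Nat.even_add_one]
    have hG := d1 (em L Γ) fun i j h => by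
      rw [hΓd i j (hne _ i j h), Nat.even_add_one, not_not]
    refine ⟨?_, ?_, ?_, ?_, ?_, ?_, hNS.pm, hNS.mp, hNS.ch, hp.1, hp.2, hμ.1, hμ.2, hG.1, hG.2,
      he.1, he.2, hNS.nil⟩
    · rw [← hem, C.pe]
    · rw [← hem, C.ep]
    · rw [← hem, C.ee]
      funext i j
      exact map_zero (emb R L)
    · rw [← hem, hpΓ]
    · rw [← hem, hΓp]
    · rw [← hem, ← hem, ← hΓ]
      exact (Matrix.map_add (emb R L) (fun a b => map_add _ a b) _ _).symm
  have := whole hκ h4 hrel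
  show κ C.I (1 + Ev C (MonoidAlgebra R G) * μ) - κ C.I (1 + (1 - Ev C (MonoidAlgebra R G)) * μ) = 0
  rw [this, sub_self]

end Pool.Agent.Lib.MPb6f35e.KN
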