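import Pool.Agent.Lib.MP_b6f35e_al.KN.Spec

/-!
# Vanishing of Waldhausen's Nil classes, module BAS: the base theorem (MP_b6f35e_al, folder KN)
-/

set_option autoImplicit false

namespace Pool.Agent.Lib.MPb6f35e.KN

open Matrix
open Pool.Agent.Lib.MP8a3537.UV (emb res lres SuppIn)

namespace BASM

/-- `N` steps. -/
theorem steps (h0 : SpecST0) (hS : SpecSTP) (R G K : Type) [Ring R] [Group G] [AddCommGroup K]
    (κ : ∀ (ι : Type) [Fintype ι], Matrix ι ι (MonoidAlgebra R G) → K) (hκ : KF κ)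
    (L : Subgroup G) (X Y : Set G) (hTD : TD1 L X Y) (hreg : RegCoh (MonoidAlgebra R L))
    (ι : Type) [Fintype ι] [DecidableEq ι] (ν : Matrix ι ι (MonoidAlgebra R G))
    (hν : SuppIn X ν) (hn : IsNilpotent ν) (N : ℕ) : HasSt κ L X ν N := by
  induction N with
  | zero => exact h0 R G K κ hκ L X ι ν hν hn
  | succ j ih => exact hS R G K κ hκ L X Y hTD hreg ι ν hν j ih

end BASM

/-- BAS. -/
theorem specBAS (hST0 : SpecST0) (hSTP : SpecSTP) (hCTK : SpecCTK) (hACK : SpecACK) :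
    SpecBAS := by
  intro R G K _ _ _ κ hκ L X Y hTD hreg ι _ _ ν hν hn
  obtain ⟨N, hN⟩ := hn
  obtain ⟨C, μ, b, pi, hst, hts⟩ :=
    BASM.steps hST0 hSTP R G K κ hκ L X Y hTD hreg ι ν hν ⟨N, hN⟩ N
  have htop : Kj L ν N = ⊤ := by
    refine eq_top_iff.mpr fun c _ => ?_
    rw [mem_Kj, hN, vecMul_zero]
  have hsub : Subsingleton ((ι → MonoidAlgebra R L) ⧸ Kj L ν N) :=
    Submodule.Quotient.subsingleton_iff.mpr htop
  obtain ⟨Γ, h1, h2, h3, h4⟩ := hCTK (MonoidAlgebra R L) C _ pi hsub hst.rs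
  rw [← hts]
  exact hACK R G K κ hκ L X C μ Γ hst.ns h1 h2 h3 h4

end Pool.Agent.Lib.MPb6f35e.KN
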