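import Pool.Agent.Lib.MP_b6f35e_al.KN.Spec
import Pool.Agent.Lib.MP_8a3537_gt.UV.TRE

/-!
# The tree assembly map in degree 1 is onto: Specs (MP_b6f35e_al, folder KN, part W)

`R` a ring, `G` acts on the tree `T`, every edge is a translate of `{v, w}`, no element exchanges `v`
and `w`. `A = R[G]`. THEOREM W: if all classes `[1 + ν]` of Waldhausen's nilpotent matrices vanish
(Theorem K), then `K_1(A)` is generated by the classes of glued matrices (`IsGl`).

Geometric language. Rows `x : I → A` live on the edges: the coefficient of `x i` at `g` is at the edge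
`g {v, w}`. Rows `z : J → A` live on the vertices: the coefficient of `z j` at `g` is at `g (c j)`. `T - {v, w}`
has two parts, `Tw = Br T v w` (with `w`) and `Tv = Br T w v` (with `v`). `Hv G v w` = the elements `g` with
`g {v, w} = {v, w}`, `EB G T v w` = those with `g {v, w}` in `Tw`, `EB G T w v` = those with `g {v, w}` in `Tv`.
All statements for `(v, w)` may be applied to `(w, v)` (the hypotheses are symmetric).

Form of the modules: as in `Spec.lean` (`theorem specXXX`, namespace `Pool.Agent.Lib.MPb6f35e.KN`, own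
lemmas in `XXXM`); files `KN/XXX.lean` import `KN/SpecW.lean` (and `UV/RES.lean` if useful).
-/

namespace Pool.Agent.Lib.MPb6f35e.KN

open Matrix
open Pool.Agent.Lib.MP8a3537.UV (emb res lres SuppIn)
open Pool.Agent.Lib.MP8a3537.UV.TREAux (Br)
open Pool.Agent.Lib.MP8a3537.RO (Bi dc Kg cut cutM)
open Pool.Agent.Lib.MP8a3537.ROK (TM)

section Defs

variable {R G V I J : Type} [Ring R] [Group G] [MulAction G V]

/-- The elements which fix both vertices. -/
def Hv (G : Type) {V : Type} [Group G] [MulAction G V] (x y : V) : Set G :=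
  {g | g • x = x ∧ g • y = y}

/-- The elements which move the edge `{x, y}` into the part of `y`. -/
def EB (G : Type) {V : Type} [Group G] [MulAction G V] (T : SimpleGraph V) (x y : V) : Set G :=
  {g | g • x ∈ Br T x y ∧ g • y ∈ Br T x y}

/-- The elements which move the edge `{x, y}` to another edge at `y`. -/
def LB (G : Type) {V : Type} [Group G] [MulAction G V] (x y : V) : Set G :=
  {g | (g • y = y ∧ g • x ≠ x) ∨ (g • x = y ∧ g • y ≠ x)}

/-- The part of the row `x` with support in `U`. -/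
noncomputable def cr (U : Set G) (x : I → MonoidAlgebra R G) : I → MonoidAlgebra R G :=
  fun i => cut U (x i)

/-- The row `x` has support in `U`. -/
def lcE (U : Set G) (x : I → MonoidAlgebra R G) : Prop := ∀ i g, (x i).coeff g ≠ 0 → g ∈ U

/-- The row `z` lives on the vertices in `W`. -/
def lcV (c : J → V) (W : Set V) (z : J → MonoidAlgebra R G) : Prop :=
  ∀ j g, (z j).coeff g ≠ 0 → g • c j ∈ W

/-- The number of the nonzero coefficients of a row. -/
def sz [Fintype I] (x : I → MonoidAlgebra R G) : ℕ := ∑ i, (x i).coeff.support.card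

/-- `d` is a tree matrix with inverse `D`. -/
structure TMx [Fintype I] [DecidableEq I] [Fintype J] [DecidableEq J] (v w : V) (c : J → V)
    (d : Matrix I J (MonoidAlgebra R G)) (D : Matrix J I (MonoidAlgebra R G)) : Prop where
  loc : ∀ i j g, (d i j).coeff g ≠ 0 → g • c j = v ∨ g • c j = w
  dD : d * D = 1
  Dd : D * d = 1

/-- The rows `u` on the edges of `{x, y} ∪ Ty` such that `u d` lives on `x`. -/
def KK [Fintype I] (T : SimpleGraph V) (x y : V) (c : J → V)
    (d : Matrix I J (MonoidAlgebra R G)) : Set (I → MonoidAlgebra R G) :=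
  {u | lcE (Hv G x y ∪ EB G T x y) u ∧ lcV c {x} (u ᵥ* d)}

/-- The part of `d` which lives on the vertex `x`. -/
noncomputable def dat (x : V) (c : J → V) (d : Matrix I J (MonoidAlgebra R G)) :
    Matrix I J (MonoidAlgebra R G) := Matrix.of fun i j => cut {g | g • c j = x} (d i j)

/-- The idempotent matrix `π`. -/
noncomputable def Pm [Fintype J] (x y : V) (c : J → V) (d : Matrix I J (MonoidAlgebra R G))
    (D : Matrix J I (MonoidAlgebra R G)) : Matrix I I (MonoidAlgebra R G) :=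
  cutM (Hv G x y) (dat x c d * D)

/-- The matrix of the lifts. -/
noncomputable def Nm [Fintype J] (T : SimpleGraph V) (x y : V) (c : J → V)
    (d : Matrix I J (MonoidAlgebra R G)) (D : Matrix J I (MonoidAlgebra R G)) :
    Matrix I I (MonoidAlgebra R G) := cutM (Hv G x y ∪ EB G T x y) (dat x c d * D)

/-- The matrix `ν`. -/
noncomputable def nuM [Fintype J] (T : SimpleGraph V) (v w : V) (c : J → V)
    (d : Matrix I J (MonoidAlgebra R G)) (D : Matrix J I (MonoidAlgebra R G)) :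
    Matrix I I (MonoidAlgebra R G) :=
  cutM (LB G v w) (Nm T v w c d D) + cutM (LB G w v) (Nm T w v c d D)

/-- The hypotheses on the tree. -/
structure TrH (G : Type) {V : Type} [Group G] [MulAction G V] (T : SimpleGraph V) (v w : V) :
    Prop where
  tree : T.IsTree
  act : ∀ (g : G) (x y : V), T.Adj x y → T.Adj (g • x) (g • y)
  adj : T.Adj v w
  inv : ∀ g : G, ¬ (g • v = w ∧ g • w = v)
  one : ∀ x y : V, T.Adj x y → ∃ g : G, (g • v = x ∧ g • w = y) ∨ (g • v = y ∧ g • w = x)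

/-- The invertible matrix `B` is glued: there are an idempotent matrix `π` over `R[G_v ∩ G_w]` and
vertices `c j ∈ {v, w}` such that the entries `(i, j)` of `π B` (of `(1 - π) B`) are supported in
`{g | g (c j) = v}` (in `{g | g (c j) = w}`). -/
def IsGl {ι : Type} [Fintype ι] [DecidableEq ι] (v w : V) (B : Matrix ι ι (MonoidAlgebra R G)) :
    Prop :=
  ∃ (π : Matrix ι ι (MonoidAlgebra R G)) (c : ι → V),
    (∀ i j g, (π i j).coeff g ≠ 0 → g • v = v ∧ g • w = w) ∧ π * π = π ∧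
    (∀ j, c j = v ∨ c j = w) ∧ (∀ i j g, ((π * B) i j).coeff g ≠ 0 → g • c j = v) ∧
    ∀ i j g, (((1 - π) * B) i j).coeff g ≠ 0 → g • c j = w

end Defs

/-- **TRW** (size 250): the geometry of the edges.

PROOF. `TREAux` (`UV/TRE.lean`): `br_or`, `br_unique`, `br_sub`, `smul_Br`, `mem_self`, `not_mem`. (0) If `x ∈ Tv`, `y ∈ Tw` are
adjacent then `x = v`, `y = w`: with `a = dist x v`, `dist x w = a + 1`, `dist y w = b`, `dist y v = b + 1`, `|a - b - 1| = 1` and
`|a + 1 - b| = 1` (`IsTree.dist_eq_dist_add_one_of_adj`), so `b = a`, and the four point condition (`ROK/FPT`, `TM.four`) for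
`dist x w + dist y v ≤ max (dist x v + dist y w) (dist x y + dist v w)` gives `2 a + 2 ≤ max (2 a) 2`, `a = 0`. (1) `g v`, `g w` are adjacent;
both in `Tw`: `EB v w`; both in `Tv`: `EB w v`; one in each: by (0) `g v = v`, `g w = w` or `g v = w`, `g w = v` (excluded).
(2) `v ∉ Br T v w`; `Br v w` and `Br w v` are disjoint. (3) `h ∈ Hv`: `h Br T v w = Br T v w`, `(g h) v = g v`. (4) One of the
ends `u` of `g {v, w}` is not `w`, let `u'` be the other end. Let `x'` be the neighbour of `w` with `u ∈ Br w x'` (first edge of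
a path from `w` to `u`); `x' ≠ v` because `u ∈ Tw`. By `one` there is `k` with `k w = w`, `k v = x'` (so `k v ≠ v`) or `k v = w`, `k w = x'`; so
`k ∈ LB v w`. By (1) for `k⁻¹ g`: if `k w = w` then `k⁻¹ u ∈ Br w v`, so `k⁻¹ g ∉ EB v w`; if `k v = w` then `k⁻¹ u ∈ Br v w`, so
`k⁻¹ g ∉ EB w v`. (5) `k w = w`, `k v ≠ v`: `k Br w v = Br w (k v) ⊆ Br v w` (`br_sub`), `k w = w ∈ Br v w`; `k v = w`, `k w ≠ v`: `k Br v w =
Br w (k w) ⊆ Br v w`. (7) the same. (6) the edge `g {v, w}` has an end in `Br w x1` and is contained in `{w} ∪ Br w x1`, `x1 = k v` or `k w`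
(the end of `k {v, w}` different from `w`); the same with `k'`, `x2`. So `x1 = x2` (`br_unique`; `w ∉ Br w x2`), so `k⁻¹ k'` maps
`{v, w}` to itself, it fixes both vertices (`inv`). -/
def SpecTRW : Prop :=
  ∀ (G V : Type) [Group G] [MulAction G V] (T : SimpleGraph V) (v w : V), TrH G T v w →
    (∀ g : G, g ∈ Hv G v w ∨ g ∈ EB G T v w ∨ g ∈ EB G T w v) ∧
    (∀ g ∈ EB G T v w, g ∉ Hv G v w ∧ g ∉ EB G T w v) ∧
    (∀ h ∈ Hv G v w, ∀ g : G, (g ∈ EB G T v w → h * g ∈ EB G T v w ∧ g * h ∈ EB G T v w) ∧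
      (g ∈ LB G v w → h * g ∈ LB G v w ∧ g * h ∈ LB G v w)) ∧
    (∀ g ∈ EB G T v w, ∃ k ∈ LB G v w,
      (k • w = w → k⁻¹ * g ∈ Hv G v w ∪ EB G T w v) ∧
      (k • w ≠ w → k⁻¹ * g ∈ Hv G v w ∪ EB G T v w)) ∧
    (∀ k ∈ LB G v w, ∀ g : G, (k • w = w → g ∈ Hv G v w ∪ EB G T w v → k * g ∈ EB G T v w) ∧
      (k • w ≠ w → g ∈ Hv G v w ∪ EB G T v w → k * g ∈ EB G T v w)) ∧
    (∀ k ∈ LB G v w, ∀ k' ∈ LB G v w, ∀ g : G,
      ((k • w = w ∧ k⁻¹ * g ∈ Hv G v w ∪ EB G T w v) ∨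
        (k • w ≠ w ∧ k⁻¹ * g ∈ Hv G v w ∪ EB G T v w)) →
      ((k' • w = w ∧ k'⁻¹ * g ∈ Hv G v w ∪ EB G T w v) ∨
        (k' • w ≠ w ∧ k'⁻¹ * g ∈ Hv G v w ∪ EB G T v w)) → k⁻¹ * k' ∈ Hv G v w) ∧
    (∀ k ∈ LB G v w, (k • w = w → ∀ u ∈ Br T w v, k • u ∈ Br T v w) ∧
      (k • w ≠ w → k • v = w ∧ ∀ u ∈ Br T v w, k • u ∈ Br T v w))

/-- **SPL** (size 280, dep `SpecTRW`): the splitting.

PROOF. (L) If `lcE U x` and `a v, a w ∈ W` for `a ∈ U` then `lcV c W (x ᵥ* d)` (`loc`: `(a b) (c j) = a (b (c j)) ∈ {a v, a w}`). `cr` is additive,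
`x = cr U x + cr Uᶜ x`. `P = dat v c d * D`, `Q = dat w c d * D`: `P + Q = d D = 1` (`dat v + dat w = d`, `v ≠ w`), so (1) (`Hv G w v` and
`Hv G v w` are the same set). (2) `P i ᵥ* d = (dat v c d) i` (`D d = 1`) lives on `v`. Let `a = cr (Hv ∪ EB v w) (P i)`, `b = cr (EB w v) (P i)`,
`P i = a + b` (TRW (1), (2)). On `Tw`: `P i ᵥ* d` and `b ᵥ* d` vanish, so `a ᵥ* d` vanishes. On `Tv`: `a = cr Hv a + cr (EB v w) a`, the second
lives on `Tw`, the first on `{v, w}` (`Hv`): so `a ᵥ* d` lives on `v`. (U) UNIQUENESS: `y ∈ KK v w`, `z ∈ KK w v`, `cr Hv y + cr Hv z = 0` ⟹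
`y = 0`, `z = 0`: `u = y - cr (EB w v) z`. On `Tw`: `y d` lives on `v`, `cr (EB w v) z d` on `Tv`: `u d` vanishes. On `Tv`:
`y = cr Hv y + cr (EB v w) y`, the second lives on `Tw`; so `u d = (cr Hv y) d - (cr (EB w v) z) d = - (z d)` there, and `z d` lives on
`w ∉ Tv`: `u d` vanishes. So `u = u d D = 0`; the sets `Hv`, `EB v w`, `EB w v` are disjoint: `cr Hv y = 0`, `cr (EB v w) y = 0`,
`cr (EB w v) z = 0`, `cr Hv z = 0`. (3) Let `y ∈ KK v w`, `x = cr Hv y`. `x ᵥ* Nm T v w .. ∈ KK v w` (linear combination of its rows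
with coefficients supported in `Hv`, which preserves everything) with `cr Hv (x ᵥ* Nm T v w ..) = x ᵥ* π1`; the same for `(w, v)`.
`x π1 + x π2 = x`, so `y - x N1 ∈ KK v w` and `- x N2 ∈ KK w v` have `cr Hv` with sum `0`: (U) gives `y = x N1`, `x N2 = 0`, so
`x π2 = 0`, `x π1 = x`. (4): cutting twice. -/
def SpecSPL : Prop :=
  ∀ (R G V : Type) [Ring R] [Group G] [MulAction G V] (T : SimpleGraph V) (v w : V), TrH G T v w →
    ∀ (I J : Type) [Fintype I] [DecidableEq I] [Fintype J] [DecidableEq J] (c : J → V)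
    (d : Matrix I J (MonoidAlgebra R G)) (D : Matrix J I (MonoidAlgebra R G)), TMx v w c d D →
    Pm v w c d D + Pm w v c d D = 1 ∧
    (∀ i, Nm T v w c d D i ∈ KK T v w c d) ∧
    (∀ y ∈ KK T v w c d, cr (Hv G v w) y ᵥ* Nm T v w c d D = y ∧
      cr (Hv G v w) y ᵥ* Nm T w v c d D = 0 ∧
      cr (Hv G v w) y ᵥ* Pm v w c d D = cr (Hv G v w) y ∧
      cr (Hv G v w) y ᵥ* Pm w v c d D = 0) ∧
    cutM (Hv G v w) (Nm T v w c d D) = Pm v w c d D

/-- **BRD** (size 300, deps `SpecTRW`, `SpecSPL`): decomposition along the branches.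

PROOF. For `k ∈ LB v w` put `F k = Hv ∪ EB w v` if `k w = w`, `F k = Hv ∪ EB v w` otherwise (then `k v = w`), and
`y_k = cr {g | k⁻¹ g ∈ F k} y`, `η k = single k⁻¹ 1 • y_k`. CLAIM: `η k ∈ KK w v` if `k w = w`, `∈ KK v w` otherwise. The support is in
`F k`. Let `B = k Tv` (`k w = w`) resp. `B = k Tw`; `B ⊆ Tw`, `v ∉ B` (TRW (7)). `y_k d` lives on `B ∪ {w}` (SPL (L)). On `B`: `y d`
vanishes (it lives on `v`), and `(y - y_k) d` vanishes on `B`: if `g` is in the support of `y - y_k` and `g v ∈ B` or `g w ∈ B` then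
`k⁻¹ g v ∈ Tv` resp. `Tw` .. so by TRW (1), (2) `k⁻¹ g ∈ F k`, contradiction. So `y_k d` lives on `w`, and `η k d` on `k⁻¹ w`, which is `w`
if `k w = w`, `v` otherwise. `Q` = a set of representatives of the cosets `k Hv` with `k ∈ LB v w` in the support of an entry of
`y` (`Hv` is the subgroup `stabilizer v ⊓ stabilizer w`; the representatives are in `LB` by TRW (3)). `y = cr Hv y + ∑_{q ∈ Q} y_q`: the
sets `q F q` are disjoint (TRW (6)), contained in `EB v w` (TRW (5)), and if `g ∈ EB v w` is in the support of `y` then by TRW (4)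
`g ∈ k F k` for some `k ∈ LB`, so `y_k ≠ 0`, `η k = cr Hv (η k) ᵥ* N` (SPL (3)), so `cr Hv (η k) ≠ 0`: the support of `y` meets `k Hv`, so
`k Hv = q Hv`, `q ∈ Q`, `q F q = k F k`. `cr (LB) y = ∑ single q 1 • cr Hv (η q)`: `LB v w` is the union of the `k Hv`, and
`single q 1 • cr Hv (η q) = cr (q Hv) y` (note `LB v w ⊆ EB v w`, TRW (5) with `g = 1`). `sz (η q) = sz y_q ≤ sz y - sz (cr Hv y)` and
`cr Hv y ≠ 0` since `y = cr Hv y ᵥ* N ≠ 0`. -/
def SpecBRD : Prop :=
  ∀ (R G V : Type) [Ring R] [Group G] [MulAction G V] (T : SimpleGraph V) (v w : V), TrH G T v w →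
    ∀ (I J : Type) [Fintype I] [DecidableEq I] [Fintype J] [DecidableEq J] (c : J → V)
    (d : Matrix I J (MonoidAlgebra R G)) (D : Matrix J I (MonoidAlgebra R G)), TMx v w c d D →
    ∀ y ∈ KK T v w c d, ∃ (Q : Finset G) (η : G → I → MonoidAlgebra R G),
      (∀ q ∈ Q, q ∈ LB G v w ∧ (q • w = w → η q ∈ KK T w v c d) ∧
        (q • w ≠ w → η q ∈ KK T v w c d) ∧ sz (η q) < sz y) ∧
      y = cr (Hv G v w) y + ∑ q ∈ Q, (MonoidAlgebra.single q 1 : MonoidAlgebra R G) • η q ∧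
      cr (LB G v w) y =
        ∑ q ∈ Q, (MonoidAlgebra.single q 1 : MonoidAlgebra R G) • cr (Hv G v w) (η q)

/-- **NUE** (size 280, deps `SpecTRW`, `SpecSPL`, `SpecBRD`): the nilpotent matrix.

PROOF. Write `N1 = Nm T v w ..`, `N2 = Nm T w v ..`, `π1 = Pm v w ..`, `π2 = Pm w v ..`, `N = N1 + N2`, `ν = nuM ..`. SPL (3) for the rows of `N1`
(`cr Hv (N1 i) = π1 i` by SPL (4)): `π1 N1 = N1`, `π1 N2 = 0`, `π1 π1 = π1`, `π1 π2 = 0`; for `(w, v)`: `π2 N2 = N2`, `π2 N1 = 0`, `π2 π2 = π2`,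
`π2 π1 = 0`. (a) For `y ∈ KK v w`: `y = cr Hv y + cr (LB v w) y ᵥ* N`: BRD, and `η q = cr Hv (η q) ᵥ* N` (SPL (3), `(w, v)` if `q w = w`). The row
`N1 i`: `N1 = π1 + cutM (LB v w) N1 * N`; the same for `N2`; sum: `N = 1 + ν N`. (b) Left multiplication by an `Hv`-supported
element commutes with `cut (LB ..)` (TRW (3)). So for `y ∈ KK v w`, `x = cr Hv y`: `x ν = cr (LB v w) (x N1) + cr (LB w v) (x N2) =
cr (LB v w) y = ∑ single q 1 • cr Hv (η q)`. Nilpotency: `cr Hv y ᵥ* ν ^ (sz y) = 0` for `y` in `KK v w` or `KK w v`, by strong induction on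
`sz y` (`sz y = 0`: `y = 0`). Apply it to the rows of `N1`, `N2`: `π1 ν^m = 0 = π2 ν^m`, `m` the maximum of the sizes, so `ν^m = 0`. (c) `π1 ν =
cutM (LB v w) N1` by (b) (`π1 N1 = N1`, `π1 N2 = 0`), its row `i` is `∑ single q 1 • cr Hv (η q)` (`y = N1 i`). Times `π2`: the terms with
`q w ≠ w` vanish, the others are unchanged and supported in `q Hv`, `q w = w`, `q v ≠ v`: in `Let true false`. Times `π1`: the terms
with `q w ≠ w` remain: `q v = w`, `q w ≠ v`: `Let true true`. For `π2 ν` use `(w, v)`: `q v = v`, `q w ≠ w`: `Let false true` (times `π1`);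
`q w = v`, `q v ≠ w`: `Let false false` (times `π2`). -/
def SpecNUE : Prop :=
  ∀ (R G V : Type) [Ring R] [Group G] [MulAction G V] (T : SimpleGraph V) (v w : V), TrH G T v w →
    ∀ (I J : Type) [Fintype I] [DecidableEq I] [Fintype J] [DecidableEq J] (c : J → V)
    (d : Matrix I J (MonoidAlgebra R G)) (D : Matrix J I (MonoidAlgebra R G)), TMx v w c d D →
    (Pm v w c d D * Pm v w c d D = Pm v w c d D ∧ Pm w v c d D * Pm w v c d D = Pm w v c d D ∧
      Pm v w c d D * Pm w v c d D = 0 ∧ Pm w v c d D * Pm v w c d D = 0) ∧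
    (Pm v w c d D * (Nm T v w c d D + Nm T w v c d D) = Nm T v w c d D ∧
      Pm w v c d D * (Nm T v w c d D + Nm T w v c d D) = Nm T w v c d D) ∧
    Nm T v w c d D + Nm T w v c d D =
      1 + nuM T v w c d D * (Nm T v w c d D + Nm T w v c d D) ∧
    IsNilpotent (nuM T v w c d D) ∧
    SuppIn (Let G v w true true) (Pm v w c d D * nuM T v w c d D * Pm v w c d D) ∧
    SuppIn (Let G v w true false) (Pm v w c d D * nuM T v w c d D * Pm w v c d D) ∧
    SuppIn (Let G v w false true) (Pm w v c d D * nuM T v w c d D * Pm v w c d D) ∧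
    SuppIn (Let G v w false false) (Pm w v c d D * nuM T v w c d D * Pm w v c d D)

/-- **DEC** (size 180, deps `SpecSPL`, `SpecNUE`): a tree matrix has the class of a glued matrix.

PROOF. Notation of NUE. `1 - ν` is a unit and `(1 - ν) N = 1`, so `N = (1 - ν)⁻¹`. `B = N d`, `D' = D (1 - ν)`, `d = (1 - ν) B`, so
`κ d = κ (1 - ν) + κ B`. `κ (1 - ν) = 0`: `x = fromCols π1 π2`, `y = fromRows π1 π2`: `x y = π1 + π2 = 1`, so `1 - ν = 1 + x (y (-ν))`, swap:
`κ (1 + (y (-ν)) x)`, and `- y ν x = - fromBlocks (π1 ν π1) (π1 ν π2) (π2 ν π1) (π2 ν π2)` is typed with `τ = Sum.elim (fun _ => true) (fun _ => false)` and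
nilpotent (`(y ν x)^m = y ν^m x`, `m ≥ 1`): hypothesis. `π = π1`: `π1 B = N1 d` lives on `v` (SPL (2)), `1 - π1 = π2`, `π2 B = N2 d` lives on `w`. -/
def SpecDEC : Prop :=
  ∀ (R G V K : Type) [Ring R] [Group G] [MulAction G V] [AddCommGroup K]
    (κ : ∀ (ι : Type) [Fintype ι], Matrix ι ι (MonoidAlgebra R G) → K), KF κ →
    ∀ (T : SimpleGraph V) (v w : V), TrH G T v w →
    (∀ (ι : Type) [Fintype ι] [DecidableEq ι] (τ : ι → Bool)
      (ν : Matrix ι ι (MonoidAlgebra R G)), Ty (Let G v w) τ ν → IsNilpotent ν →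
      κ ι (1 + ν) = 0) →
    ∀ (I : Type) [Fintype I] [DecidableEq I] (c : I → V) (d D : Matrix I I (MonoidAlgebra R G)),
    (∀ j, c j = v ∨ c j = w) → TMx v w c d D →
    ∃ B : Matrix I I (MonoidAlgebra R G), IsUnit B ∧ IsGl v w B ∧ κ I d = κ I B

/-- **HIG** (size 280, dep `SpecKCL`): Higman's trick.

PROOF. Say `V(Θ)` if `κ ι M ∈ N` for all units `M` with support in `Θ`. (a) `V(Θ)`, `1 ∈ Θ` ⟹ `V(Θ Θ)`: write `M = X Y` where `X`
(`ι × ρ`), `Y` (`ρ × ι`) have support in `Θ`: `ρ` = the type of the triples `(i, j, u)`, `u` in the support of `M i j`, `u = a b`,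
`X i (i, j, u) = single a (coefficient)`, `Y (i, j, u) j = single b 1`. `L = fromBlocks 0 (-X) Y 1` has support in `Θ` (`1 ∈ Θ`);
`fromBlocks 1 X 0 1 * L = fromBlocks (X Y) 0 Y 1`, so `L` is a unit and `κ M = κ L` (KCL (2), (3), (1)). (b) `V(Θ)`, `1 ∈ Θ` ⟹
`V(Θ ∪ Θ⁻¹)`: `M = M0 + X E⁻¹ Y`, `M0 = cutM Θ M`, `ρ` = the triples `(i, j, u)`, `u ∉ Θ` in the support of `M i j`, `u = a⁻¹`, `a ∈ Θ`;
`E = diagonal (single a 1)`, `X i (i, j, u) = single 1 (coefficient)`, `Y (i, j, u) j = 1`. `L = fromBlocks M0 (-X) Y E` has support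
in `Θ`, `fromBlocks 1 (X E⁻¹) 0 1 * L = fromBlocks M 0 Y E`, so `κ M + κ E = κ L`, and `κ E ∈ N` (`E` is a unit with support in `Θ`). (c) By
(a), (b) and induction `V(Θ_k)`, `Θ_0 = Θ`, `Θ_(k+1) = (Θ_k ∪ Θ_k⁻¹) (Θ_k ∪ Θ_k⁻¹)`; `Θ_k ⊆ Θ_(k+1)` and the union of the `Θ_k` is the
subgroup generated by `Θ`; the support of `M` is finite. -/
def SpecHIG : Prop :=
  ∀ (R G K : Type) [Ring R] [Group G] [AddCommGroup K]
    (κ : ∀ (ι : Type) [Fintype ι], Matrix ι ι (MonoidAlgebra R G) → K), KF κ →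
    ∀ (N : AddSubgroup K) (Θ : Set G), (1 : G) ∈ Θ → Subgroup.closure Θ = ⊤ →
    (∀ (ι : Type) [Fintype ι] [DecidableEq ι] (M : Matrix ι ι (MonoidAlgebra R G)), IsUnit M →
      SuppIn Θ M → κ ι M ∈ N) →
    ∀ (ι : Type) [Fintype ι] [DecidableEq ι] (M : Matrix ι ι (MonoidAlgebra R G)), IsUnit M →
      κ ι M ∈ N

/-- The elements `g` such that `g {v, w}` meets `{v, w}`. -/
def Sg (G : Type) {V : Type} [Group G] [MulAction G V] (v w : V) : Set G :=
  {g | (g • v = v ∨ g • v = w) ∨ (g • w = v ∨ g • w = w)}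

/-- **GEN** (size 150): generation.

PROOF. Let `g ∈ G`. CLAIM for all vertices `x`, by induction on `dist v x`: every `g` with `g v = x` or `g w = x` is in the subgroup
`P` generated by `Sg`. `x = v`: `g ∈ Sg`. Otherwise let `x'` be the neighbour of `x` with `dist v x' < dist v x`; by `one` there is `k` with
`k {v, w} = {x', x}`; `k ∈ P` by the claim for `x'`. `k⁻¹ x ∈ {v, w}`, so `k⁻¹ g` maps `v` or `w` to `v` or `w`: `k⁻¹ g ∈ Sg`. -/
def SpecGEN : Prop :=
  ∀ (G V : Type) [Group G] [MulAction G V] (T : SimpleGraph V) (v w : V), TrH G T v w →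
    Subgroup.closure (Sg G v w) = ⊤

/-- **TMX** (size 130, dep `SpecKCL`): tree matrices.

PROOF. `M1 = cutM {g | g • v = v ∨ g • v = w} M`, `M2 = M - M1` (support in `{g | g • w = v ∨ g • w = w}`), `d = fromBlocks M1 M2 (-1) 1`,
`c = Sum.elim (fun _ => v) (fun _ => w)`. `d * fromBlocks 1 0 1 1 = fromBlocks M M2 0 1 =: U`, a unit; so `d` is a unit (a left and a
right inverse: `fromBlocks 1 0 1 1 * U⁻¹`), `κ d = κ M` (KCL (2), (3), (1)). `loc`: the entries `∓1` are supported at `1`. -/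
def SpecTMX : Prop :=
  ∀ (R G V K : Type) [Ring R] [Group G] [MulAction G V] [AddCommGroup K]
    (κ : ∀ (ι : Type) [Fintype ι], Matrix ι ι (MonoidAlgebra R G) → K), KF κ →
    ∀ (v w : V) (ι : Type) [Fintype ι] [DecidableEq ι] (M : Matrix ι ι (MonoidAlgebra R G)),
    IsUnit M → SuppIn (Sg G v w) M →
    ∃ (c : ι ⊕ ι → V) (d D : Matrix (ι ⊕ ι) (ι ⊕ ι) (MonoidAlgebra R G)),
      (∀ j, c j = v ∨ c j = w) ∧ TMx v w c d D ∧ κ (ι ⊕ ι) d = κ ι M

/-- **FNW** (size 150, deps `SpecDEC`, `SpecHIG`, `SpecGEN`, `SpecTMX`): for every function `κ` like `K_1` for which the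
classes of the nilpotent matrices vanish, all classes are sums of classes of glued matrices.

PROOF. `N` = the additive subgroup generated by the `κ ι B`, `B` a glued unit. HIG with `Θ = Sg G v w` (`1 ∈ Sg`, GEN): it is enough to
consider units `M` with support in `Sg`. TMX, DEC. -/
def SpecFNW : Prop :=
  ∀ (R G V K : Type) [Ring R] [Group G] [MulAction G V] [AddCommGroup K]
    (κ : ∀ (ι : Type) [Fintype ι], Matrix ι ι (MonoidAlgebra R G) → K), KF κ →
    ∀ (T : SimpleGraph V) (v w : V), TrH G T v w →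
    (∀ (ι : Type) [Fintype ι] [DecidableEq ι] (τ : ι → Bool)
      (ν : Matrix ι ι (MonoidAlgebra R G)), Ty (Let G v w) τ ν → IsNilpotent ν →
      κ ι (1 + ν) = 0) →
    ∀ N : AddSubgroup K,
    (∀ (ι : Type) [Fintype ι] [DecidableEq ι] (B : Matrix ι ι (MonoidAlgebra R G)), IsUnit B →
      IsGl v w B → κ ι B ∈ N) →
    ∀ (ι : Type) [Fintype ι] [DecidableEq ι] (M : Matrix ι ι (MonoidAlgebra R G)), IsUnit M →
      κ ι M ∈ N

end Pool.Agent.Lib.MPb6f35e.KN
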