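import Pool.Agent.Lib.MP_b6f35e_al.KN.Good
import Pool.Agent.Lib.MP_b6f35e_al.KN.SpecW

/-! The tree assembly map is onto in degree 1: the statement for `K_1` (helper23). -/

namespace Pool.Agent.Lib.MPb6f35e.KN

open Matrix
open Pool.Agent.Lib.MP8a3537.UV (emb res lres SuppIn)
open Pool.Agent.Lib.MP8a3537.ROK (TM)

/-- THEOREM W. `G` acts on a tree without inversions, every edge is a translate of `{v, w}`, and the
segments of length `2` are good (this is needed only for segments through `{v, w}`). Then `K_1(R[G])` is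
generated by the classes of glued matrices. -/
def SpecMainW : Prop :=
  ∀ (R G V : Type) [Ring R] [Group G] [MulAction G V] (T : SimpleGraph V) (v w : V),
    TrH G T v w →
    (∀ s t, ∀ g ∈ Let G v w s t, Gd R G T.dist (en v w s).1 (g • (en v w t).2)) →
    AddSubgroup.closure {x : D1.Grp (D1.RelA (MonoidAlgebra R G)) |
      ∃ (n : ℕ) (B : (Matrix (Fin n) (Fin n) (MonoidAlgebra R G))ˣ),
        IsGl v w B.val ∧ x = D1.cls (D1.RelA (MonoidAlgebra R G)) ⟨n, B⟩} = ⊤

namespace GlueM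

/-- The group is generated by the classes. -/
theorem closure_cls {α : Type} (r : FreeAbelianGroup α → Prop) (N : AddSubgroup (D1.Grp r))
    (h : ∀ a : α, D1.cls r a ∈ N) : N = ⊤ := by
  rw [eq_top_iff]
  intro x hx
  clear hx
  obtain ⟨y, rfl⟩ := QuotientAddGroup.mk_surjective x
  induction y using FreeAbelianGroup.induction_on with
  | zero => exact N.zero_mem
  | of a => exact h a
  | neg a ha => exact N.neg_mem ha
  | add a b ha hb => exact N.add_mem ha hb

/-- A function like `K_1` does not change under reindexing. -/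
theorem kf_reindex {A K : Type} [Ring A] [AddCommGroup K]
    {κ : ∀ (ι : Type) [Fintype ι], Matrix ι ι A → K} (hκ : KF κ) {ι ι' : Type} [Fintype ι]
    [DecidableEq ι] [Fintype ι'] [DecidableEq ι'] (e : ι' ≃ ι) (M : Matrix ι ι A) (hM : IsUnit M) :
    κ ι M = κ ι' (M.submatrix e e) := by
  have h1 : ((M - 1).submatrix id e) * ((1 : Matrix ι ι A).submatrix e id) = M - 1 := by
    rw [Matrix.submatrix_mul_equiv, Matrix.mul_one, Matrix.submatrix_id_id]
  have h2 : ((1 : Matrix ι ι A).submatrix e id) * ((M - 1).submatrix id e) =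
      (M - 1).submatrix e e := by
    have := Matrix.submatrix_mul_equiv (1 : Matrix ι ι A) (M - 1) e (Equiv.refl ι) e
    rw [Matrix.one_mul] at this
    exact this
  have h3 : IsUnit (1 + ((M - 1).submatrix id e) * ((1 : Matrix ι ι A).submatrix e id)) := by
    rw [h1, add_sub_cancel]
    exact hM
  have h4 := hκ.swap ι ι' _ _ h3
  rw [h1, h2, add_sub_cancel] at h4
  rw [h4]
  congr 1
  ext i j
  rw [Matrix.add_apply, Matrix.submatrix_apply, Matrix.submatrix_apply, Matrix.sub_apply]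
  rcases eq_or_ne i j with rfl | hij
  · simp
  · simp [hij, e.injective.ne hij]

theorem isUnit_submatrix {A : Type} [Ring A] {ι ι' : Type} [Fintype ι] [DecidableEq ι]
    [Fintype ι'] [DecidableEq ι'] (e : ι' ≃ ι) (M : Matrix ι ι A) (hM : IsUnit M) :
    IsUnit (M.submatrix e e) := by
  obtain ⟨u, rfl⟩ := hM
  refine ⟨⟨u.val.submatrix e e, u.inv.submatrix e e, ?_, ?_⟩, rfl⟩
  · rw [Matrix.submatrix_mul_equiv, u.val_inv, Matrix.submatrix_one_equiv]
  · rw [Matrix.submatrix_mul_equiv, u.inv_val, Matrix.submatrix_one_equiv]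

theorem isGl_submatrix {R G V : Type} [Ring R] [Group G] [MulAction G V] {ι ι' : Type} [Fintype ι]
    [DecidableEq ι] [Fintype ι'] [DecidableEq ι'] {v w : V} (e : ι' ≃ ι)
    (B : Matrix ι ι (MonoidAlgebra R G)) (hB : IsGl v w B) : IsGl v w (B.submatrix e e) := by
  obtain ⟨π, c, h1, h2, h3, h4, h5⟩ := hB
  have e1 : (1 : Matrix ι' ι' (MonoidAlgebra R G)) - π.submatrix e e = (1 - π).submatrix e e := by
    rw [Matrix.submatrix_sub, Pi.sub_apply, Pi.sub_apply, Matrix.submatrix_one_equiv]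
  refine ⟨π.submatrix e e, fun j => c (e j), fun i j g hg => h1 _ _ g hg, ?_, fun j => h3 _, ?_, ?_⟩
  · rw [Matrix.submatrix_mul_equiv, h2]
  · intro i j g hg
    rw [Matrix.submatrix_mul_equiv] at hg
    exact h4 _ _ g hg
  · intro i j g hg
    rw [e1, Matrix.submatrix_mul_equiv] at hg
    exact h5 _ _ g hg

end GlueM

open GlueM GoodM in
theorem mainW (hKIN : SpecKIN) (hELK : SpecELK) (hBLT : SpecBLT) (hBGE : SpecBGE)
    (hEGE : SpecEGE) (hETD : SpecETD) (hBAS : SpecBAS) (hFNW : SpecFNW) : SpecMainW := by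
  intro R G V _ _ _ T v w hT hgd
  obtain ⟨κ, hκ, hκu⟩ := hKIN (MonoidAlgebra R G)
  have hTM : TM G (V := V) T.dist :=
    Pool.Agent.Lib.MP8a3537.ROK.specFPT G V T hT.tree hT.act
  obtain ⟨Y, hY⟩ := hETD G V T v w hT.tree hT.act hT.adj hT.inv
  have hgeo := hEGE G V T v w hT.tree hT.act hT.adj hT.inv
  have hvan : ∀ s t, ∀ g ∈ Let G v w s t, Van κ (BL (MulAction.stabilizer G v ⊓
      MulAction.stabilizer G w) (Let G v w) s t g) := by
    intro s t g hg
    obtain ⟨h1, -, -⟩ := hBGE G V Bool T.dist hTM _ _ _ _ hgeo s t g hg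
    exact van_of_gd hELK hBLT hBGE hBAS hκ hTM (hgd s t g hg) _ _ _
      (hBLT G Bool _ _ Y hY s t g hg) h1
  have hnil : ∀ (ι : Type) [Fintype ι] [DecidableEq ι] (τ : ι → Bool)
      (ν : Matrix ι ι (MonoidAlgebra R G)), Ty (Let G v w) τ ν → IsNilpotent ν →
      κ ι (1 + ν) = 0 := fun ι _ _ τ ν h1 h2 =>
    hELK R G _ Bool κ hκ _ _ Y hY hvan ι τ ν h1 h2
  refine closure_cls _ _ fun a => ?_
  obtain ⟨n, u⟩ := a
  rw [← hκu n u]
  refine hFNW R G V _ κ hκ T v w hT hnil _ ?_ (Fin n) u.val u.isUnit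
  intro ι _ _ B hB hgl
  have e : Fin (Fintype.card ι) ≃ ι := (Fintype.equivFin ι).symm
  rw [kf_reindex hκ e B hB]
  obtain ⟨b, hb⟩ := isUnit_submatrix e B hB
  rw [← hb, hκu]
  refine AddSubgroup.subset_closure ⟨_, b, ?_, rfl⟩
  rw [hb]
  exact isGl_submatrix e B hgl

end Pool.Agent.Lib.MPb6f35e.KN
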