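import Pool.Agent.Lib.MP_b6f35e_al.KN.SpecL
import Pool.Agent.Lib.MP_b6f35e_al.KN.GlueMain

/-! Block diagonal matrices (helper96). -/

namespace Pool.Agent.Lib.MPb6f35e.KN

open Matrix

namespace BDKM

/-- The equivalence for the induction. -/
def eqv (ι Z : Type) : (ι × Z) ⊕ ι ≃ ι × Option Z where
  toFun := Sum.elim (fun p => (p.1, some p.2)) (fun i => (i, none))
  invFun p := match p.2 with
    | none => Sum.inr p.1
    | some z => Sum.inl (p.1, z)
  left_inv x := by rcases x with ⟨i, z⟩ | i <;> rfl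
  right_inv x := by rcases x with ⟨i, _ | z⟩ <;> rfl

/-- Block diagonal matrices of units are units. -/
theorem isUnit_bd {A : Type} [Ring A] {ι Z : Type} [Fintype ι] [DecidableEq ι] [Fintype Z]
    [DecidableEq Z] (M : Matrix ι ι A) (hM : IsUnit M) :
    IsUnit (Matrix.of fun (x y : ι × Z) => if x.2 = y.2 then M x.1 y.1 else 0) := by
  have h1 : (Matrix.of fun (x y : ι × Z) => if x.2 = y.2 then M x.1 y.1 else 0) =
      Matrix.blockDiagonalRingHom ι Z A (fun _ => M) := by
    ext ⟨i, z⟩ ⟨j, z'⟩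
    simp [Matrix.blockDiagonalRingHom, Matrix.blockDiagonal_apply]
  rw [h1]
  exact (Pi.isUnit_iff.2 fun _ => hM).map _

end BDKM

theorem specBDK (hKCL : SpecKCL) : SpecBDK := by
  intro A K _ _ κ hκ ι Z _ _ hZ hdZ M hM
  obtain ⟨k1, k2, -, -⟩ := hKCL A K κ hκ
  refine Fintype.induction_empty_option (P := fun (Z : Type) (_ : Fintype Z) =>
    ∀ (_ : DecidableEq Z), κ (ι × Z) (Matrix.of fun x y => if x.2 = y.2 then M x.1 y.1 else 0) =
      Fintype.card Z • κ ι M) ?_ ?_ ?_ Z hdZ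
  · intro α β hβ e h hdβ
    letI : Fintype α := Fintype.ofEquiv β e.symm
    classical
    have h1 := h inferInstance
    rw [GlueM.kf_reindex hκ ((Equiv.refl ι).prodCongr e) _ (BDKM.isUnit_bd M hM)]
    have h2 : (Matrix.of fun (x y : ι × β) => if x.2 = y.2 then M x.1 y.1 else 0).submatrix
        ((Equiv.refl ι).prodCongr e) ((Equiv.refl ι).prodCongr e) =
        Matrix.of fun (x y : ι × α) => if x.2 = y.2 then M x.1 y.1 else 0 := by
      ext ⟨i, z⟩ ⟨j, z'⟩
      simp
    rw [h2, h1, Fintype.card_congr e]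
  · intro hd
    have h1 : (Matrix.of fun (x y : ι × PEmpty) => if x.2 = y.2 then M x.1 y.1 else 0) = 1 := by
      ext ⟨i, z⟩
      exact z.elim
    rw [h1, k1]
    simp
  · intro α hα h hd
    classical
    have h1 := h inferInstance
    rw [GlueM.kf_reindex hκ (BDKM.eqv ι α) _ (BDKM.isUnit_bd M hM)]
    have h2 : (Matrix.of fun (x y : ι × Option α) => if x.2 = y.2 then M x.1 y.1 else 0).submatrix
        (BDKM.eqv ι α) (BDKM.eqv ι α) =
        Matrix.fromBlocks (Matrix.of fun (x y : ι × α) => if x.2 = y.2 then M x.1 y.1 else 0)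
          0 0 M := by
      ext x y
      rcases x with ⟨i, z⟩ | i <;> rcases y with ⟨j, z'⟩ | j <;> simp [BDKM.eqv]
    rw [h2, k2 _ _ _ _ _ (BDKM.isUnit_bd M hM) hM, h1, Fintype.card_option, succ_nsmul]

end Pool.Agent.Lib.MPb6f35e.KN
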