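import Pool.Agent.Lib.MP_b6f35e_al.KN.Spec
import Pool.Agent.Lib.MP_8a3537_gt.ROK.TFA

/-! Module BGE (helper40): the geometry of the block. -/

namespace Pool.Agent.Lib.MPb6f35e.KN

open Pool.Agent.Lib.MP8a3537.RO (dc Kg mem_Kg)
open Pool.Agent.Lib.MP8a3537.ROK (TM specTFA)

namespace BGEM

variable {G V S : Type} [Group G] [MulAction G V] {d : V → V → ℕ}

theorem btw_smul (hd : TM G d) (g : G) {p q r : V} (h : Btw d p q r) :
    Btw d (g • p) (g • q) (g • r) := by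
  unfold Btw at h ⊢
  rw [hd.iso, hd.iso, hd.iso]
  exact h

theorem btw_fix (hd : TM G d) {g : G} {p q r : V} (h : Btw d p q r) (hp : g • p = p)
    (hr : g • r = r) : g • q = q :=
  (specTFA G V d hd).1 g p q r h hp hr

theorem btw_two (hd : TM G d) {x1 x2 u u' : V} (hne : x1 ≠ x2) (h1 : Btw d x1 x2 u)
    (h2 : Btw d x2 x1 u') : d u u' = d u x2 + d x2 x1 + d x1 u' :=
  (specTFA G V d hd).2.1 x1 x2 u u' hne h1 h2

theorem btw_ext (hd : TM G d) {x1 x2 y u : V} (h1 : Btw d x1 x2 y) (h2 : Btw d x1 y u) :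
    Btw d x1 x2 u :=
  (specTFA G V d hd).2.2 x1 x2 y u h1 h2

theorem btw_end (hd : TM G d) (p q : V) : Btw d p q q := by
  unfold Btw
  rw [(hd.d0 q q).2 rfl, add_zero]

variable {H : Subgroup G} {Z : S → S → Set G} {p q : S → V}

/-- (W), first half. -/
theorem wo_p (hd : TM G d) (hG : GeoK d H Z p q) {Z' : S → S → Set G}
    (hZ : ∀ a b, Z' a b ⊆ Z a b) {a b : S} {w : G} (hw : Wo H Z' a b w) :
    ∀ r, Btw d (p b) (q b) r → Btw d (p a) (q a) (w • r) := by
  induction hw with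
  | @base h hh =>
    intro r hr
    obtain ⟨h1, h2⟩ := (hG.st a _).1 hh
    have := btw_smul hd h hr
    rwa [h1, h2] at this
  | snoc _ hx ih =>
    intro r hr
    rw [mul_smul]
    exact ih _ (hG.dp _ _ _ (hZ _ _ hx) r hr)

/-- (W), second half. -/
theorem wo_m (hd : TM G d) (hG : GeoK d H Z p q) {Z' : S → S → Set G}
    (hZ : ∀ a b, Z' a b ⊆ Z a b) {a b : S} {w : G} (hw : Wo H Z' a b w) :
    ∀ r, Btw d (q a) (p a) r → Btw d (q b) (p b) (w⁻¹ • r) := by
  induction hw with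
  | @base h hh =>
    intro r hr
    obtain ⟨h1, h2⟩ := (hG.st a _).1 (H.inv_mem hh)
    have := btw_smul hd h⁻¹ hr
    rwa [h1, h2] at this
  | snoc _ hx ih =>
    intro r hr
    rw [mul_inv_rev, mul_smul]
    exact hG.dm _ _ _ (hZ _ _ hx) _ (ih r hr)

/-- (NF). -/
theorem nfw (hd : TM G d) (hG : GeoK d H Z p q) {Z' : S → S → Set G}
    (hZ : ∀ a b, Z' a b ⊆ Z a b) {a c b : S} {x w : G} (hx : x ∈ Z a c) (hw : Wo H Z' c b w) :
    ¬ ((x * w) • p b = p a ∧ (x * w) • q b = q a) := by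
  rintro ⟨h1, h2⟩
  have e1 : w • p b = x⁻¹ • p a := by
    rw [← h1, mul_smul, inv_smul_smul]
  have m1 : Btw d (q c) (p c) (w • p b) := by
    rw [e1]
    exact hG.dm _ _ _ hx _ (btw_end hd _ _)
  have m2 : Btw d (p c) (q c) (w • q b) := wo_p hd hG hZ hw _ (btw_end hd _ _)
  have h3 := btw_two hd (hG.ne c) m2 m1
  have h4 : d (w • q b) (w • p b) = d (q c) (p c) := by
    rw [hd.iso, hd.cm (q b), hd.cm (q c)]
    exact hG.len b c
  have h5 : w • q b = q c := (hd.d0 _ _).1 (by omega)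
  have h6 : w • p b = p c := ((hd.d0 _ _).1 (by omega)).symm
  refine hG.nf a c x hx ⟨?_, ?_⟩
  · rw [← h6, ← mul_smul, h1]
  · rw [← h5, ← mul_smul, h2]

end BGEM

open BGEM in
theorem specBGE : SpecBGE := by
  intro G V S _ _ d hd H Z p q hG s t g hg
  have hZ : ∀ a b, Za H Z s t g a b ⊆ Z a b := fun a b x hx => hx.1
  -- (*)
  have hs : Btw d (p s) (q s) (g • q t) := hG.dp _ _ _ hg _ (btw_end hd _ _)
  -- (**)
  have hss : Btw d (q t) (p t) (g⁻¹ • p s) := hG.dm _ _ _ hg _ (btw_end hd _ _)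
  have hss' : Btw d (g • q t) (g • p t) (p s) := by
    have := btw_smul hd g hss
    rwa [smul_inv_smul] at this
  have hlt : d (p s) (q s) < d (p s) (g • q t) := by
    have h1 : d (p s) (g • q t) = d (p s) (q s) + d (q s) (g • q t) := hs
    have h2 : d (g • q t) (p s) = d (g • q t) (g • p t) + d (g • p t) (p s) := hss'
    have h3 : d (g • q t) (g • p t) = d (p s) (q s) := by
      rw [hd.iso, hd.cm (q t)]
      exact hG.len t s
    have h4 := hd.cm (g • q t) (p s)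
    by_contra hcon
    have h5 : q s = g • q t := (hd.d0 _ _).1 (by omega)
    have h6 : g • p t = p s := (hd.d0 _ _).1 (by omega)
    exact hG.nf s t g hg ⟨h6, h5.symm⟩
  have hpos : 0 < d (p s) (q s) := by
    rcases Nat.eq_zero_or_pos (d (p s) (q s)) with h | h
    · exact absurd ((hd.d0 _ _).1 h) (hG.ne s)
    · exact h
  -- the stabilizer
  have hst : ∀ x : G, x ∈ Kg H g ↔ x • p s = p s ∧ x • (g • q t) = g • q t := by
    intro x
    rw [mem_Kg]
    constructor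
    · rintro ⟨h1, h2⟩
      refine ⟨((hG.st s x).1 h1).1, ?_⟩
      have h3 := ((hG.st t _).1 h2).2
      rw [mul_smul, mul_smul, inv_smul_eq_iff] at h3
      exact h3
    · rintro ⟨h1, h2⟩
      have h3 : x • q s = q s := btw_fix hd hs h1 h2
      have h4 : x • (g • p t) = g • p t := btw_fix hd hss' h2 h1
      refine ⟨(hG.st s x).2 ⟨h1, h3⟩, (hG.st t _).2 ⟨?_, ?_⟩⟩
      · rw [mul_smul, mul_smul, h4, inv_smul_smul]
      · rw [mul_smul, mul_smul, h2, inv_smul_smul]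
  refine ⟨?_, hs, hlt⟩
  constructor
  · -- ne
    intro _ h
    have h' : p s = g • q t := h
    rw [← h', (hd.d0 _ _).2 rfl] at hlt
    exact Nat.not_lt_zero _ hlt
  · -- len
    intro _ _
    rfl
  · -- st
    intro _ x
    exact hst x
  · -- dp
    rintro _ _ x ⟨w, hw, rfl⟩ r hr
    have hr' : Btw d (p s) (g • q t) r := hr
    have h1 : Btw d (p s) (q s) r := btw_ext hd hs hr'
    have h2 : Btw d (p t) (q t) (w • r) := wo_p hd hG hZ hw r h1
    have h3 := btw_two hd (hG.ne t) h2 hss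
    have h4 : d (q t) (g⁻¹ • p s) = d (q t) (p t) + d (p t) (g⁻¹ • p s) := hss
    have h5 : Btw d (g⁻¹ • p s) (q t) (w • r) := by
      unfold Btw
      rw [hd.cm (g⁻¹ • p s) (w • r), hd.cm (g⁻¹ • p s) (q t), hd.cm (q t) (w • r)]
      omega
    have h6 := btw_smul hd g h5
    rw [smul_inv_smul, smul_smul] at h6
    exact h6
  · -- dm
    rintro _ _ x ⟨w, hw, rfl⟩ r hr
    have hr' : Btw d (g • q t) (p s) r := hr
    have h1 : Btw d (q t) (g⁻¹ • p s) (g⁻¹ • r) := by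
      have := btw_smul hd g⁻¹ hr'
      rwa [inv_smul_smul] at this
    have h2 : Btw d (q t) (p t) (g⁻¹ • r) := btw_ext hd hss h1
    have h3 : Btw d (q s) (p s) (w⁻¹ • (g⁻¹ • r)) := wo_m hd hG hZ hw _ h2
    have h4 := btw_two hd (hG.ne s) hs h3
    have h5 : d (p s) (g • q t) = d (p s) (q s) + d (q s) (g • q t) := hs
    show Btw d (g • q t) (p s) ((g * w)⁻¹ • r)
    rw [mul_inv_rev, mul_smul]
    unfold Btw
    have c1 := hd.cm (g • q t) (q s)
    have c2 := hd.cm (q s) (p s)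
    have c3 := hd.cm (g • q t) (p s)
    omega
  · -- nf
    rintro _ _ x ⟨w, hw, rfl⟩ h
    have h' : (g * w) • p s = p s ∧ (g * w) • (g • q t) = g • q t := h
    have h1 : g * w ∈ H := ((mem_Kg H g _).1 ((hst _).2 h')).1
    obtain ⟨h2, h3⟩ := (hG.st s _).1 h1
    exact nfw hd hG hZ hg hw ⟨h2, h3⟩

end Pool.Agent.Lib.MPb6f35e.KN
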