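import Pool.Agent.Lib.MP_b6f35e_al.KN.SpecC

/-!
# KN, module BHS: `K_0` from `K_1`
-/

namespace Pool.Agent.Lib.MPb6f35e.KN

open Matrix
open Pool.Agent.Lib.MP8a3537.UV (emb res lres SuppIn)

namespace BHSM

/-! ### Stably free idempotent matrices -/

theorem stf_map {S S' : Type} [Ring S] [Ring S'] (ψ : S →+* S') {ι : Type} [Fintype ι]
    [DecidableEq ι] {p : Matrix ι ι S} (h : StF p) : StF (p.map ψ) := by
  obtain ⟨r, s, x, y, hxy, hyx⟩ := h
  refine ⟨r, s, x.map ψ, y.map ψ, ?_, ?_⟩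
  · rw [← Matrix.map_mul, hxy, fromBlocks_map]
    congr 1
    · ext i j; simp
    · ext i j; simp
    · ext i j
      simp [Matrix.one_apply, apply_ite ψ]
  · rw [← Matrix.map_mul, hyx]
    ext i j
    simp [Matrix.one_apply, apply_ite ψ]

section Lin

variable {S : Type} [Ring S] {ι κ : Type} [Fintype ι] [DecidableEq ι]

/-- The matrix of a linear map of rows. -/
def lmat (f : (ι → S) →ₗ[S] (κ → S)) : Matrix ι κ S := of fun i j => f (Pi.single i 1) j

theorem vecMul_lmat (f : (ι → S) →ₗ[S] (κ → S)) (v : ι → S) : v ᵥ* lmat f = f v := by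
  funext j
  have hv : v = ∑ i, v i • (Pi.single i (1 : S) : ι → S) := by
    funext k
    simp [Finset.sum_apply, Pi.single_apply]
  conv_rhs => rw [hv, map_sum]
  simp only [map_smul, Finset.sum_apply, Pi.smul_apply, smul_eq_mul]
  rfl

theorem ext_vecMul {M N : Matrix ι κ S} (h : ∀ v : ι → S, v ᵥ* M = v ᵥ* N) : M = N := by
  ext i j
  have := congrFun (h (Pi.single i 1)) j
  simpa using this

end Lin

theorem stf_of_equiv {S : Type} [Ring S] {ι : Type} [Fintype ι] [DecidableEq ι] {p : Matrix ι ι S}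
    (hp : p * p = p) {r s : ℕ}
    (e : (LinearMap.range (Matrix.vecMulLinear p) × (Fin r → S)) ≃ₗ[S] (Fin s → S)) : StF p := by
  classical
  let π : (ι → S) →ₗ[S] LinearMap.range (Matrix.vecMulLinear p) :=
    (Matrix.vecMulLinear p).rangeRestrict
  let F : ((ι ⊕ Fin r) → S) →ₗ[S] (Fin s → S) :=
    e.toLinearMap ∘ₗ (LinearMap.prod (π ∘ₗ LinearMap.funLeft S S Sum.inl)
      (LinearMap.funLeft S S Sum.inr))
  let G : (Fin s → S) →ₗ[S] ((ι ⊕ Fin r) → S) :=
    { toFun := fun w => Sum.elim ((e.symm w).1 : ι → S) (e.symm w).2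
      map_add' := by
        intro a b
        funext i
        rcases i with i | i <;> simp
      map_smul' := by
        intro a b
        funext i
        rcases i with i | i <;> simp }
  have hπ : ∀ z : LinearMap.range (Matrix.vecMulLinear p), π (z : ι → S) = z := by
    rintro ⟨z, y, rfl⟩
    apply Subtype.ext
    show (y ᵥ* p) ᵥ* p = y ᵥ* p
    rw [vecMul_vecMul, hp]
  refine ⟨r, s, lmat F, lmat G, ?_, ?_⟩
  · refine ext_vecMul fun v => ?_
    rw [← vecMul_vecMul, vecMul_lmat, vecMul_lmat]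
    have h1 : e.symm (F v) = (π (v ∘ Sum.inl), v ∘ Sum.inr) := by
      show e.symm (e _) = _
      rw [LinearEquiv.symm_apply_apply]
      rfl
    show Sum.elim ((e.symm (F v)).1 : ι → S) (e.symm (F v)).2 = _
    rw [h1]
    have h2 : v = Sum.elim (v ∘ Sum.inl) (v ∘ Sum.inr) := by
      funext i
      rcases i with i | i <;> rfl
    conv_rhs => rw [h2, vecMul_fromBlocks]
    rw [Sum.elim_comp_inl, Sum.elim_comp_inr]
    simp
    rfl
  · refine ext_vecMul fun w => ?_
    rw [← vecMul_vecMul, vecMul_lmat, vecMul_lmat, vecMul_one]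
    show e (π ((G w) ∘ Sum.inl), (G w) ∘ Sum.inr) = w
    have h1 : (G w) ∘ Sum.inl = ((e.symm w).1 : ι → S) := rfl
    have h2 : (G w) ∘ Sum.inr = (e.symm w).2 := rfl
    rw [h1, h2, hπ, Prod.mk.eta, LinearEquiv.apply_symm_apply]

/-! ### The group `H × Z^(m+1)` -/

section Grp

variable (H : Type) [Group H] (m : ℕ)

/-- The last coordinate. -/
def del : H × Zm (m + 1) →* Multiplicative ℤ where
  toFun g := Multiplicative.ofAdd (Multiplicative.toAdd g.2 (Fin.last m))
  map_one' := rfl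
  map_mul' _ _ := rfl

/-- The last basis vector. -/
def tt : H × Zm (m + 1) := (1, Multiplicative.ofAdd (Pi.single (Fin.last m) 1))

theorem del_tt : del H m (tt H m) = Multiplicative.ofAdd 1 := by
  show Multiplicative.ofAdd ((Pi.single (Fin.last m) (1 : ℤ) : Fin (m + 1) → ℤ) (Fin.last m)) = _
  rw [Pi.single_eq_same]

theorem tt_comm (g : H × Zm (m + 1)) : tt H m * g = g * tt H m := by
  refine Prod.ext ?_ ?_
  · show 1 * g.1 = g.1 * 1
    rw [one_mul, mul_one]
  · exact mul_comm _ _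

/-- Forget the last coordinate. -/
def pr : (del H m).ker →* H × Zm m where
  toFun g := (g.1.1, Multiplicative.ofAdd fun i => Multiplicative.toAdd g.1.2 (Fin.castSucc i))
  map_one' := rfl
  map_mul' _ _ := rfl

/-- Extend by zero. -/
def inj : H × Zm m →* (del H m).ker where
  toFun g := ⟨(g.1, Multiplicative.ofAdd
    (Fin.snoc (α := fun _ => ℤ) (Multiplicative.toAdd g.2) 0 : Fin (m + 1) → ℤ)), by
      show Multiplicative.ofAdd ((Fin.snoc (α := fun _ => ℤ) (Multiplicative.toAdd g.2) 0 :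
        Fin (m + 1) → ℤ) (Fin.last m)) = 1
      rw [Fin.snoc_last]
      rfl⟩
  map_one' := by
    refine Subtype.ext (Prod.ext rfl ?_)
    apply Multiplicative.toAdd.injective
    funext i
    refine Fin.lastCases ?_ (fun j => ?_) i
    · show (Fin.snoc (α := fun _ => ℤ) _ 0 : Fin (m + 1) → ℤ) (Fin.last m) = 0
      rw [Fin.snoc_last]
    · show (Fin.snoc (α := fun _ => ℤ) _ 0 : Fin (m + 1) → ℤ) (Fin.castSucc j) = 0
      rw [Fin.snoc_castSucc]
      rfl
  map_mul' := by
    intro a b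
    refine Subtype.ext (Prod.ext rfl ?_)
    apply Multiplicative.toAdd.injective
    funext i
    refine Fin.lastCases ?_ (fun j => ?_) i
    · show (Fin.snoc (α := fun _ => ℤ) _ 0 : Fin (m + 1) → ℤ) (Fin.last m) =
        (Fin.snoc (α := fun _ => ℤ) _ 0 : Fin (m + 1) → ℤ) (Fin.last m) +
        (Fin.snoc (α := fun _ => ℤ) _ 0 : Fin (m + 1) → ℤ) (Fin.last m)
      rw [Fin.snoc_last, Fin.snoc_last, Fin.snoc_last]
      rfl
    · show (Fin.snoc (α := fun _ => ℤ) _ 0 : Fin (m + 1) → ℤ) (Fin.castSucc j) =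
        (Fin.snoc (α := fun _ => ℤ) _ 0 : Fin (m + 1) → ℤ) (Fin.castSucc j) +
        (Fin.snoc (α := fun _ => ℤ) _ 0 : Fin (m + 1) → ℤ) (Fin.castSucc j)
      rw [Fin.snoc_castSucc, Fin.snoc_castSucc, Fin.snoc_castSucc]
      rfl

theorem pr_inj (g : H × Zm m) : pr H m (inj H m g) = g := by
  refine Prod.ext rfl ?_
  apply Multiplicative.toAdd.injective
  funext i
  show (Fin.snoc (α := fun _ => ℤ) _ 0 : Fin (m + 1) → ℤ) (Fin.castSucc i) = _
  rw [Fin.snoc_castSucc]

theorem inj_pr (g : (del H m).ker) : inj H m (pr H m g) = g := by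
  refine Subtype.ext (Prod.ext rfl ?_)
  apply Multiplicative.toAdd.injective
  funext i
  refine Fin.lastCases ?_ (fun j => ?_) i
  · show (Fin.snoc (α := fun _ => ℤ) _ 0 : Fin (m + 1) → ℤ) (Fin.last m) = _
    rw [Fin.snoc_last]
    have h : del H m (g : H × Zm (m + 1)) = 1 := g.2
    exact (congrArg Multiplicative.toAdd h).symm
  · show (Fin.snoc (α := fun _ => ℤ) _ 0 : Fin (m + 1) → ℤ) (Fin.castSucc j) = _
    rw [Fin.snoc_castSucc]
    rfl

end Grp

section Ring

variable {R : Type} [Ring R]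

theorem mapDomain_eq_self {M N : Type} [Monoid M] [Monoid N] (f : M →* N) (g : N →* M)
    (s : MonoidAlgebra R M) (h : ∀ a, s.coeff a ≠ 0 → g (f a) = a) :
    MonoidAlgebra.mapDomainRingHom R g (MonoidAlgebra.mapDomainRingHom R f s) = s := by
  have h1 : MonoidAlgebra.mapDomainRingHom R g (MonoidAlgebra.mapDomainRingHom R f s) =
      MonoidAlgebra.mapDomainRingHom R (g.comp f) s := by
    rw [MonoidAlgebra.mapDomainRingHom_comp]
    rfl
  rw [h1]
  show MonoidAlgebra.ofCoeff (Finsupp.mapDomain (g.comp f) s.coeff) = s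
  have h2 : Finsupp.mapDomain (g.comp f) s.coeff = Finsupp.mapDomain id s.coeff := by
    refine Finsupp.mapDomain_congr fun a ha => ?_
    exact h a (Finsupp.mem_support_iff.1 ha)
  rw [h2, Finsupp.mapDomain_id]

end Ring

end BHSM

theorem specBHS (hKPR : SpecKPR) (hIND : SpecIND) (hQUN : SpecQUN) (hQGR : SpecQGR)
    (hQPP : SpecQPP) (hDGK : SpecDGK) : SpecBHS := by
  intro R H _ _ hS hP m ι _ _ p hp
  let Γ : Type := H × Zm (m + 1)
  let δ : Γ →* Multiplicative ℤ := BHSM.del H m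
  let t : Γ := BHSM.tt H m
  have ht : δ t = Multiplicative.ofAdd 1 := BHSM.del_tt H m
  have htc : ∀ g : Γ, t * g = g * t := BHSM.tt_comm H m
  obtain ⟨K, instK, cl, hcl⟩ := hKPR (MonoidAlgebra R δ.ker)
  obtain ⟨φ, hφ⟩ := hIND R Γ δ t ht K cl hcl
  -- all classes vanish
  have hzero : ∀ (ι : Type) [Fintype ι] [DecidableEq ι] (M : Matrix ι ι (MonoidAlgebra R Γ)),
      IsUnit M → φ ι M = 0 := by
    have h := hP (m + 1) K φ hφ.1 ⊥ ?_ ?_
    · intro ι _ _ M hM
      exact (AddSubgroup.mem_bot).1 (h ι M hM)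
    · intro ι _ _ M hM hsu
      rw [AddSubgroup.mem_bot]
      refine hQUN R Γ δ t ht K cl hcl φ hφ (MonoidHom.fst H (Zm (m + 1))).ker rfl ?_ ι M hM ?_
      · intro n E hE hEE
        -- `E` comes from `R[Z^m]`
        let α : (BHSM.del H m).ker →* Zm m := (MonoidHom.snd H (Zm m)).comp (BHSM.pr H m)
        let β : Zm m →* (BHSM.del H m).ker := (BHSM.inj H m).comp (MonoidHom.inr H (Zm m))
        have h1 : StF (E.map (MonoidAlgebra.mapDomainRingHom R α)) := by
          refine hS m (Fin n) _ ?_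
          rw [← Matrix.map_mul, hEE]
        have h2 := BHSM.stf_map (MonoidAlgebra.mapDomainRingHom R β) h1
        have h3 : (E.map (MonoidAlgebra.mapDomainRingHom R α)).map
            (MonoidAlgebra.mapDomainRingHom R β) = E := by
          ext1 i j
          rw [Matrix.map_apply, Matrix.map_apply]
          refine BHSM.mapDomain_eq_self α β (E i j) fun a ha => ?_
          have h4 : (a : Γ).1 = 1 := hE i j a ha
          have h5 : ((1 : H), (BHSM.pr H m a).2) = BHSM.pr H m a := Prod.ext h4.symm rfl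
          show BHSM.inj H m ((1 : H), (BHSM.pr H m a).2) = a
          rw [h5, BHSM.inj_pr]
        rwa [h3] at h2
      · intro i j g hg
        exact hsu i j g hg
    · intro ι _ _ f
      refine hDGK (MonoidAlgebra R Γ) K φ hφ.1 ⊥ {a | ∃ g : Γ, a = MonoidAlgebra.single g 1}
        ?_ ?_ ι (fun i => MonoidAlgebra.single (f i) 1) fun i => ⟨f i, rfl⟩
      · rintro _ ⟨g, rfl⟩
        refine ⟨⟨MonoidAlgebra.single g 1, MonoidAlgebra.single g⁻¹ 1, ?_, ?_⟩, rfl⟩
        · rw [MonoidAlgebra.single_mul_single, mul_inv_cancel, one_mul, MonoidAlgebra.one_def]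
        · rw [MonoidAlgebra.single_mul_single, inv_mul_cancel, one_mul, MonoidAlgebra.one_def]
      · rintro _ ⟨g, rfl⟩
        rw [AddSubgroup.mem_bot]
        exact hQGR R Γ δ K cl hcl φ hφ g
  -- the matrix `p'`
  let ψ : MonoidAlgebra R (H × Zm m) →+* MonoidAlgebra R δ.ker :=
    MonoidAlgebra.mapDomainRingHom R (BHSM.inj H m)
  let χ : MonoidAlgebra R δ.ker →+* MonoidAlgebra R (H × Zm m) :=
    MonoidAlgebra.mapDomainRingHom R (BHSM.pr H m)
  let p' : Matrix ι ι (MonoidAlgebra R δ.ker) := p.map ψ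
  have hp' : p' * p' = p' := by
    show p.map ψ * p.map ψ = p.map ψ
    rw [← Matrix.map_mul, hp]
  obtain ⟨hu, hval⟩ := hQPP R Γ δ t ht htc K cl hcl φ hφ ι p' hp'
  have h0 : cl (LinearMap.range (Matrix.vecMulLinear p')) = 0 := by
    rw [← hval]
    exact hzero ι _ hu
  have hfin : Module.Finite (MonoidAlgebra R δ.ker) (LinearMap.range (Matrix.vecMulLinear p')) :=
    Module.Finite.range _
  have hproj : Module.Projective (MonoidAlgebra R δ.ker)
      (LinearMap.range (Matrix.vecMulLinear p')) := by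
    refine Module.Projective.of_split (LinearMap.range (Matrix.vecMulLinear p')).subtype
      (Matrix.vecMulLinear p').rangeRestrict ?_
    ext1 ⟨z, y, hy⟩
    apply Subtype.ext
    subst hy
    show (y ᵥ* p') ᵥ* p' = y ᵥ* p'
    rw [vecMul_vecMul, hp']
  obtain ⟨r, s, ⟨e⟩⟩ := hcl.zero _ hfin hproj h0
  have h1 : StF p' := BHSM.stf_of_equiv hp' e
  have h2 := BHSM.stf_map χ h1
  have h3 : p'.map χ = p := by
    ext1 i j
    show χ (ψ (p i j)) = p i j
    exact BHSM.mapDomain_eq_self (BHSM.inj H m) (BHSM.pr H m) (p i j)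
      fun a _ => BHSM.pr_inj H m a
  rwa [h3] at h2

end Pool.Agent.Lib.MPb6f35e.KN
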