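import Pool.Agent.Lib.MP_b6f35e_al.KN.Spec

/-!
# BLT: the block of typed data is again data
-/

namespace Pool.Agent.Lib.MPb6f35e.KN

open Pool.Agent.Lib.MP8a3537.RO (Bi dc Kg cut)

namespace BLTM

variable {G S : Type} [Group G] {H : Subgroup G} {Z : S → S → Set G} {Y : S → Set G}

theorem mem_Kg {g x : G} : x ∈ Kg H g ↔ x ∈ H ∧ g⁻¹ * x * g ∈ H := by
  unfold Kg
  rw [Subgroup.mem_inf, Subgroup.mem_comap]
  simp

theorem za_right (hTD : TD H Z Y) {s t : S} {g : G} {a b : S} {x h : G} (hh : h ∈ H)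
    (hx : x ∈ Za H Z s t g a b) : x * h ∈ Za H Z s t g a b := by
  refine ⟨hTD.zh a b h hh x hx.1, ?_⟩
  rintro ⟨h1, h2, h3, hh3, h4, hh4, h5⟩
  refine hx.2 ⟨h1, h2, h3, hh3, h4 * h⁻¹, H.mul_mem hh4 (H.inv_mem hh), ?_⟩
  rw [← mul_assoc, ← h5, mul_inv_cancel_right]

theorem wo_right (hTD : TD H Z Y) {s t : S} {g : G} {a b : S} {w h : G} (hh : h ∈ H)
    (hw : Wo H (Za H Z s t g) a b w) : Wo H (Za H Z s t g) a b (w * h) := by
  cases hw with
  | base h0 => exact Wo.base (H.mul_mem h0 hh)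
  | snoc hw1 hx =>
    rw [mul_assoc]
    exact Wo.snoc hw1 (za_right hTD hh hx)

theorem wo_left {s t : S} {g : G} {a b : S} {w h : G} (hh : h ∈ H)
    (hw : Wo H (Za H Z s t g) a b w) : Wo H (Za H Z s t g) a b (h * w) := by
  induction hw with
  | base h0 => exact Wo.base (H.mul_mem hh h0)
  | snoc _ hx ih =>
    rw [← mul_assoc]
    exact Wo.snoc ih hx

theorem wo_Y (hTD : TD H Z Y) {s t : S} {g : G} {a b : S} {w : G}
    (hw : Wo H (Za H Z s t g) a b w) {y : G} (hy : y ∈ Y a) : y * w ∈ Y b := by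
  induction hw with
  | base h0 => exact hTD.yh a _ h0 y hy
  | snoc _ hx ih =>
    rw [← mul_assoc]
    exact hTD.yz _ _ _ ih _ hx.1

theorem uq_gen (hTD : TD H Z Y) {s t : S} {g : G} (hg : g ∈ Z s t) {b : S} {w : G}
    (hw : Wo H (Za H Z s t g) t b w) :
    ∀ w', Wo H (Za H Z s t g) t b w' → ∀ y ∈ Y s, ∀ y' ∈ Y s, y * (g * w) = y' * (g * w') →
      w' * w⁻¹ ∈ H ∧ g * (w' * w⁻¹) * g⁻¹ ∈ H := by
  induction hw with
  | @base h hh =>
    intro w' hw' y hy y' hy' he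
    cases hw' with
    | base hh' =>
      refine ⟨H.mul_mem hh' (H.inv_mem hh), ?_⟩
      have h1 := (hTD.uq s s t y hy (g * h) (hTD.zh s t h hh g hg) y' hy' (g * w')
        (hTD.zh s t w' hh' g hg) he).2
      have h2 : g * (w' * h⁻¹) * g⁻¹ = g * w' * (g * h)⁻¹ := by group
      rw [h2]
      exact h1
    | @snoc c _ w1 x' hw1 hx' =>
      exfalso
      have h1 : y' * g * w1 ∈ Y c := wo_Y hTD hw1 (hTD.yz s t y' hy' g hg)
      have h2 : y * (g * h) = y' * g * w1 * x' := by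
        rw [he]
        group
      obtain ⟨h3, h4⟩ := hTD.uq s c t y hy (g * h) (hTD.zh s t h hh g hg) _ h1 x' hx'.1 h2
      refine hx'.2 ⟨h3.symm, rfl, x' * (g * h)⁻¹, h4, h, hh, ?_⟩
      group
  | @snoc c b w1 x hw1 hx ih =>
    intro w' hw' y hy y' hy' he
    have h1 : y * g * w1 ∈ Y c := wo_Y hTD hw1 (hTD.yz s t y hy g hg)
    cases hw' with
    | base hh' =>
      exfalso
      have h2 : y * g * w1 * x = y' * (g * w') := by
        rw [← he]
        group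
      obtain ⟨h3, h4⟩ := hTD.uq c s t _ h1 x hx.1 y' hy' (g * w') (hTD.zh s t w' hh' g hg) h2
      refine hx.2 ⟨h3, rfl, (g * w' * x⁻¹)⁻¹, H.inv_mem h4, w', hh', ?_⟩
      group
    | @snoc c' _ w1' x' hw1' hx' =>
      have h1' : y' * g * w1' ∈ Y c' := wo_Y hTD hw1' (hTD.yz s t y' hy' g hg)
      have h2 : y * g * w1 * x = y' * g * w1' * x' := by
        have : y * (g * (w1 * x)) = y * g * w1 * x := by group
        rw [← this, he]
        group
      obtain ⟨h3, h4⟩ := hTD.uq c c' b _ h1 x hx.1 _ h1' x' hx'.1 h2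
      subst h3
      have h5 : y * (g * w1) = y' * (g * (w1' * (x' * x⁻¹))) := by
        have h6 : y * g * w1 = y' * g * w1' * x' * x⁻¹ := by
          rw [← h2, mul_inv_cancel_right]
        calc y * (g * w1) = y * g * w1 := by group
          _ = y' * g * w1' * x' * x⁻¹ := h6
          _ = y' * (g * (w1' * (x' * x⁻¹))) := by group
      have h6 := ih (w1' * (x' * x⁻¹)) (wo_right hTD h4 hw1') y hy y' hy' h5
      have h7 : w1' * (x' * x⁻¹) * w1⁻¹ = w1' * x' * (w1 * x)⁻¹ := by group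
      rw [h7] at h6
      exact h6

end BLTM

open BLTM in
theorem specBLT : SpecBLT := by
  intro G S _ H Z Y hTD s t g hg
  refine ⟨?_, ?_, ?_, ?_, ?_, ?_⟩
  · rintro - - h hh x ⟨w, hw, rfl⟩
    obtain ⟨-, h2⟩ := mem_Kg.1 hh
    refine ⟨g⁻¹ * h * g * w, wo_left h2 hw, ?_⟩
    group
  · rintro - - h hh x ⟨w, hw, rfl⟩
    refine ⟨w * h, wo_right hTD (mem_Kg.1 hh).1 hw, ?_⟩
    group
  · intro _ h hh y hy
    exact hTD.yh s h (mem_Kg.1 hh).1 y hy
  · intro _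
    exact hTD.one s
  · rintro - - y hy x ⟨w, hw, rfl⟩
    show y * (g * w) ∈ Y s
    rw [← mul_assoc]
    exact wo_Y hTD hw (hTD.yz s t y hy g hg)
  · rintro - - - y hy x ⟨w, hw, rfl⟩ y' hy' x' ⟨w', hw', rfl⟩ he
    refine ⟨rfl, ?_⟩
    obtain ⟨h1, h2⟩ := uq_gen hTD hg hw w' hw' y hy y' hy' he
    have e1 : g * w' * (g * w)⁻¹ = g * (w' * w⁻¹) * g⁻¹ := by group
    rw [mem_Kg, e1]
    refine ⟨h2, ?_⟩
    have e2 : g⁻¹ * (g * (w' * w⁻¹) * g⁻¹) * g = w' * w⁻¹ := by group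
    rw [e2]
    exact h1

end Pool.Agent.Lib.MPb6f35e.KN
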