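import Pool.Agent.Lib.MP_b6f35e_al.KN.SpecW

/-!
# Decomposition along the branches (module BRD)
-/

namespace Pool.Agent.Lib.MPb6f35e.KN

open Matrix
open Pool.Agent.Lib.MP8a3537.UV (emb res lres SuppIn)
open Pool.Agent.Lib.MP8a3537.UV.TREAux (Br)
open Pool.Agent.Lib.MP8a3537.RO (Bi dc Kg cut cutM cut_coeff)
open Pool.Agent.Lib.MP8a3537.ROK (TM)

namespace BRDM

section Alg

variable {R G : Type} [Ring R] [Group G]

theorem coeff_mul_ne (x y : MonoidAlgebra R G) (g : G) (h : (x * y).coeff g ≠ 0) :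
    ∃ u v, x.coeff u ≠ 0 ∧ y.coeff v ≠ 0 ∧ u * v = g := by
  classical
  have := MonoidAlgebra.support_coeff_mul_subset x y (Finsupp.mem_support_iff.2 h)
  obtain ⟨u, hu, v, hv, e⟩ := Finset.mem_mul.1 this
  exact ⟨u, v, Finsupp.mem_support_iff.1 hu, Finsupp.mem_support_iff.1 hv, e⟩

omit [Group G] in
theorem sum_coeff {ι : Type} (s : Finset ι) (f : ι → MonoidAlgebra R G) (g : G) :
    (∑ i ∈ s, f i).coeff g = ∑ i ∈ s, (f i).coeff g := by
  rw [MonoidAlgebra.coeff_sum, Finsupp.finsetSum_apply]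

theorem vecMul_ne {I J : Type} [Fintype I] (x : I → MonoidAlgebra R G)
    (M : Matrix I J (MonoidAlgebra R G)) (j : J) (g : G) (hg : ((x ᵥ* M) j).coeff g ≠ 0) :
    ∃ i u v, (x i).coeff u ≠ 0 ∧ (M i j).coeff v ≠ 0 ∧ u * v = g := by
  have e : (x ᵥ* M) j = ∑ i, x i * M i j := rfl
  rw [e, sum_coeff] at hg
  obtain ⟨i, -, hi⟩ := Finset.exists_ne_zero_of_sum_ne_zero hg
  obtain ⟨u, v, hu, hv, e⟩ := coeff_mul_ne _ _ _ hi
  exact ⟨i, u, v, hu, hv, e⟩

theorem single_mul_coeff (k g : G) (x : MonoidAlgebra R G) :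
    ((MonoidAlgebra.single k 1 : MonoidAlgebra R G) * x).coeff g = x.coeff (k⁻¹ * g) := by
  rw [MonoidAlgebra.coeff_single_mul_apply, one_mul]

theorem smul_vecMul' {I J : Type} [Fintype I] (a : MonoidAlgebra R G) (x : I → MonoidAlgebra R G)
    (M : Matrix I J (MonoidAlgebra R G)) (j : J) :
    ((fun i => a * x i) ᵥ* M) j = a * (x ᵥ* M) j := by
  change ∑ i, a * x i * M i j = a * ∑ i, x i * M i j
  rw [Finset.mul_sum]
  exact Finset.sum_congr rfl fun i _ => mul_assoc _ _ _

end Alg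

section Rows

variable {R G V I J : Type} [Ring R] [Group G] [MulAction G V]

theorem lc_vecMul [Fintype I] {v w : V} {c : J → V} {d : Matrix I J (MonoidAlgebra R G)}
    (hloc : ∀ i j g, (d i j).coeff g ≠ 0 → g • c j = v ∨ g • c j = w)
    (x : I → MonoidAlgebra R G) (W : Set V)
    (h : ∀ i a, (x i).coeff a ≠ 0 → a • v ∈ W ∧ a • w ∈ W) : lcV c W (x ᵥ* d) := by
  intro j g hg
  obtain ⟨i, u, b, hu, hb, rfl⟩ := vecMul_ne _ _ _ _ hg
  rw [mul_smul]
  rcases hloc i j b hb with e | e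
  · rw [e]; exact (h i u hu).1
  · rw [e]; exact (h i u hu).2

/-- The translate of the part of `y` in `k F`. -/
noncomputable def eta (F : Set G) (k : G) (y : I → MonoidAlgebra R G) : I → MonoidAlgebra R G :=
  fun i => cut F ((MonoidAlgebra.single k⁻¹ 1 : MonoidAlgebra R G) * y i)

theorem eta_in (F : Set G) (k : G) (y : I → MonoidAlgebra R G) (i : I) (g : G) (h : g ∈ F) :
    (eta F k y i).coeff g = (y i).coeff (k * g) := by
  unfold eta
  rw [cut_coeff, if_pos h, single_mul_coeff, inv_inv]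

theorem eta_out (F : Set G) (k : G) (y : I → MonoidAlgebra R G) (i : I) (g : G) (h : g ∉ F) :
    (eta F k y i).coeff g = 0 := by
  unfold eta
  rw [cut_coeff, if_neg h]

omit [Group G] in
theorem cr_in (U : Set G) (y : I → MonoidAlgebra R G) (i : I) (g : G) (h : g ∈ U) :
    (cr U y i).coeff g = (y i).coeff g := by
  show (cut U (y i)).coeff g = _
  rw [cut_coeff, if_pos h]

omit [Group G] in
theorem cr_out (U : Set G) (y : I → MonoidAlgebra R G) (i : I) (g : G) (h : g ∉ U) :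
    (cr U y i).coeff g = 0 := by
  show (cut U (y i)).coeff g = _
  rw [cut_coeff, if_neg h]

theorem Hv_comm (a b : V) : Hv G a b = Hv G b a := by
  ext g
  exact and_comm

theorem claim [Fintype I] {T : SimpleGraph V} {v w : V} {c : J → V}
    {d : Matrix I J (MonoidAlgebra R G)}
    (hloc : ∀ i j g, (d i j).coeff g ≠ 0 → g • c j = v ∨ g • c j = w) (a b : V)
    (hab : (a = v ∧ b = w) ∨ (a = w ∧ b = v)) (hadj : T.Adj a b) (k : G) (hka : k • a = w)
    (hB : ∀ u ∈ Br T a b, k • u ∈ Br T v w)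
    (tri : ∀ g : G, g ∈ Hv G a b ∨ g ∈ EB G T a b ∨ g ∈ EB G T b a)
    (y : I → MonoidAlgebra R G) (hy : lcV c {v} (y ᵥ* d)) :
    eta (Hv G a b ∪ EB G T a b) k y ∈ KK T a b c d := by
  set F := Hv G a b ∪ EB G T a b with hF
  have hloc' : ∀ i j g, (d i j).coeff g ≠ 0 → g • c j = a ∨ g • c j = b := by
    intro i j g hg
    rcases hab with ⟨rfl, rfl⟩ | ⟨rfl, rfl⟩
    · exact hloc i j g hg
    · exact (hloc i j g hg).symm
  refine ⟨?_, ?_⟩
  · intro i g hg
    by_contra hn
    exact hg (eta_out _ _ _ _ _ hn)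
  · intro j g hg
    set yk : I → MonoidAlgebra R G :=
      fun i => (MonoidAlgebra.single k 1 : MonoidAlgebra R G) * eta F k y i with hyk
    have hc0 : ∀ i g, (yk i).coeff g = (eta F k y i).coeff (k⁻¹ * g) := by
      intro i g
      rw [hyk]
      simp only
      rw [single_mul_coeff]
    have hc1 : ∀ i g, k⁻¹ * g ∈ F → (yk i).coeff g = (y i).coeff g := by
      intro i g hm
      rw [hc0, eta_in _ _ _ _ _ hm, mul_inv_cancel_left]
    have hc2 : ∀ i g, k⁻¹ * g ∉ F → (yk i).coeff g = 0 := by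
      intro i g hm
      rw [hc0, eta_out _ _ _ _ _ hm]
    have h1 : ((yk ᵥ* d) j).coeff (k * g) ≠ 0 := by
      rw [hyk, smul_vecMul', single_mul_coeff, inv_mul_cancel_left]
      exact hg
    have h2 : lcV c ({w} ∪ {u | k⁻¹ • u ∈ Br T a b}) (yk ᵥ* d) := by
      refine lc_vecMul hloc' yk _ ?_
      intro i u hu
      have hm : k⁻¹ * u ∈ F := by
        by_contra hn
        exact hu (hc2 _ _ hn)
      rcases hm with hm | hm
      · have e1 : k⁻¹ • u • a = a := by rw [← mul_smul]; exact hm.1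
        have e2 : k⁻¹ • u • b = b := by rw [← mul_smul]; exact hm.2
        refine ⟨Or.inl ?_, Or.inr ?_⟩
        · rw [inv_smul_eq_iff] at e1
          rw [e1]
          exact hka
        · show k⁻¹ • u • b ∈ Br T a b
          rw [e2]
          exact Pool.Agent.Lib.MP8a3537.UV.TREAux.mem_self hadj
      · refine ⟨Or.inr ?_, Or.inr ?_⟩
        · show k⁻¹ • u • a ∈ Br T a b
          rw [← mul_smul]; exact hm.1
        · show k⁻¹ • u • b ∈ Br T a b
          rw [← mul_smul]; exact hm.2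
    have h3 : lcV c {u | k⁻¹ • u ∉ Br T a b} ((fun i => y i - yk i) ᵥ* d) := by
      refine lc_vecMul hloc' _ _ ?_
      intro i u hu
      have hu' : (y i).coeff u - (yk i).coeff u ≠ 0 := by
        have : (y i - yk i).coeff u = (y i).coeff u - (yk i).coeff u := by simp
        rw [← this]
        exact hu
      have hm : k⁻¹ * u ∉ F := by
        intro hm
        rw [hc1 _ _ hm, sub_self] at hu'
        exact hu' rfl
      have hE : k⁻¹ * u ∈ EB G T b a := by
        rcases tri (k⁻¹ * u) with h | h | h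
        · exact absurd (Or.inl h) hm
        · exact absurd (Or.inr h) hm
        · exact h
      have hd : ∀ z, z ∈ Br T b a → z ∉ Br T a b := by
        intro z hz hz'
        rw [Pool.Agent.Lib.MP8a3537.UV.TREAux.mem_Br] at hz hz'
        omega
      refine ⟨?_, ?_⟩
      · show k⁻¹ • u • a ∉ Br T a b
        rw [← mul_smul]
        exact hd _ hE.2
      · show k⁻¹ • u • b ∉ Br T a b
        rw [← mul_smul]
        exact hd _ hE.1
    have hkg : (k * g) • c j = w := by
      rcases h2 j (k * g) h1 with h | h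
      · exact h
      · exfalso
        have hu : (k * g) • c j ∈ Br T v w := by
          have := hB _ h
          rwa [smul_inv_smul] at this
        have e1 : ((y ᵥ* d) j).coeff (k * g) = 0 := by
          by_contra hn
          have : (k * g) • c j = v := hy j (k * g) hn
          rw [this] at hu
          exact Pool.Agent.Lib.MP8a3537.UV.TREAux.not_mem v w hu
        have e2 : (((fun i => y i - yk i) ᵥ* d) j).coeff (k * g) = 0 := by
          by_contra hn
          exact h3 j (k * g) hn h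
        have e3 : ((fun i => y i - yk i) ᵥ* d) j = (y ᵥ* d) j - (yk ᵥ* d) j := by
          have : (fun i => y i - yk i) = y - yk := rfl
          rw [this, Matrix.sub_vecMul]
          rfl
        rw [e3] at e2
        have e4 : ((y ᵥ* d) j - (yk ᵥ* d) j).coeff (k * g) =
            ((y ᵥ* d) j).coeff (k * g) - ((yk ᵥ* d) j).coeff (k * g) := by simp
        rw [e4, e1, zero_sub, neg_eq_zero] at e2
        exact h1 e2
    show g • c j = a
    rw [mul_smul] at hkg
    have : k • g • c j = k • a := by rw [hkg, hka]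
    exact smul_left_cancel k this

theorem TrH_symm {T : SimpleGraph V} {v w : V} (h : TrH G T v w) : TrH G T w v where
  tree := h.tree
  act := h.act
  adj := h.adj.symm
  inv := fun g hg => h.inv g ⟨hg.2, hg.1⟩
  one := fun x y hxy => by
    obtain ⟨g, hg⟩ := h.one x y hxy
    rcases hg with hg | hg
    · exact ⟨g, Or.inr ⟨hg.2, hg.1⟩⟩
    · exact ⟨g, Or.inl ⟨hg.2, hg.1⟩⟩

theorem TMx_symm [Fintype I] [DecidableEq I] [Fintype J] [DecidableEq J] {v w : V} {c : J → V}
    {d : Matrix I J (MonoidAlgebra R G)} {D : Matrix J I (MonoidAlgebra R G)}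
    (h : TMx v w c d D) : TMx w v c d D where
  loc := fun i j g hg => (h.loc i j g hg).symm
  dD := h.dD
  Dd := h.Dd

open Classical in
/-- The set `F k`. -/
noncomputable def Fk (G : Type) {V : Type} [Group G] [MulAction G V] (T : SimpleGraph V) (v w : V)
    (k : G) : Set G :=
  if k • w = w then Hv G w v ∪ EB G T w v else Hv G v w ∪ EB G T v w

theorem mem_Fk (T : SimpleGraph V) (v w : V) (k g : G) :
    g ∈ Fk G T v w k ↔ (k • w = w ∧ g ∈ Hv G v w ∪ EB G T w v) ∨
      (k • w ≠ w ∧ g ∈ Hv G v w ∪ EB G T v w) := by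
  unfold Fk
  split_ifs with h
  · rw [Hv_comm w v]
    constructor
    · intro hg
      exact Or.inl ⟨h, hg⟩
    · rintro (hg | hg)
      · exact hg.2
      · exact absurd h hg.1
  · constructor
    · intro hg
      exact Or.inr ⟨h, hg⟩
    · rintro (hg | hg)
      · exact absurd hg.1 h
      · exact hg.2

theorem smul_row (k : G) (x : I → MonoidAlgebra R G) (i : I) (g : G) :
    (((MonoidAlgebra.single k 1 : MonoidAlgebra R G) • x) i).coeff g = (x i).coeff (k⁻¹ * g) :=
  single_mul_coeff k g (x i)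

theorem sum_row (Q : Finset G) (x : G → I → MonoidAlgebra R G) (i : I) (g : G) :
    ((∑ q ∈ Q, (MonoidAlgebra.single q 1 : MonoidAlgebra R G) • x q) i).coeff g =
      ∑ q ∈ Q, (x q i).coeff (q⁻¹ * g) := by
  rw [Finset.sum_apply, sum_coeff]
  exact Finset.sum_congr rfl fun q _ => smul_row q (x q) i g

end Rows

end BRDM

theorem specBRD (hTRW : SpecTRW) (hSPL : SpecSPL) : SpecBRD := by
  intro R G V _ _ _ T v w hT I J _ _ _ _ c d D hTM y hy
  classical
  obtain ⟨r1, r2, r3, r4, r5, r6, r7⟩ := hTRW G V T v w hT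
  obtain ⟨-, -, r3', -, -, -, -⟩ := hTRW G V T w v (BRDM.TrH_symm hT)
  have hHc : Hv G w v = Hv G v w := BRDM.Hv_comm w v
  have tri2 : ∀ g : G, g ∈ Hv G w v ∨ g ∈ EB G T w v ∨ g ∈ EB G T v w := by
    intro g
    rw [hHc]
    rcases r1 g with h | h | h
    · exact Or.inl h
    · exact Or.inr (Or.inr h)
    · exact Or.inr (Or.inl h)
  let F : G → Set G := BRDM.Fk G T v w
  let η : G → I → MonoidAlgebra R G := fun k => BRDM.eta (F k) k y
  have hk1 : ∀ k ∈ LB G v w, k • w = w → η k ∈ KK T w v c d := by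
    intro k hk hkw
    have e : F k = Hv G w v ∪ EB G T w v := if_pos hkw
    show BRDM.eta (F k) k y ∈ _
    rw [e]
    exact BRDM.claim hTM.loc w v (Or.inr ⟨rfl, rfl⟩) hT.adj.symm k hkw ((r7 k hk).1 hkw) tri2 y hy.2
  have hk2 : ∀ k ∈ LB G v w, k • w ≠ w → η k ∈ KK T v w c d := by
    intro k hk hkw
    have e : F k = Hv G v w ∪ EB G T v w := if_neg hkw
    show BRDM.eta (F k) k y ∈ _
    rw [e]
    exact BRDM.claim hTM.loc v w (Or.inl ⟨rfl, rfl⟩) hT.adj k ((r7 k hk).2 hkw).1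
      ((r7 k hk).2 hkw).2 r1 y hy.2
  -- (A)
  have hA : ∀ k ∈ LB G v w, ∀ g, k⁻¹ * g ∈ F k → g ∈ EB G T v w := by
    intro k hk g hg
    rcases (BRDM.mem_Fk T v w k _).1 hg with ⟨h1, h2⟩ | ⟨h1, h2⟩
    · have := (r5 k hk (k⁻¹ * g)).1 h1 h2
      rwa [mul_inv_cancel_left] at this
    · have := (r5 k hk (k⁻¹ * g)).2 h1 h2
      rwa [mul_inv_cancel_left] at this
  -- (C)
  have hC : ∀ k ∈ LB G v w, ∀ k' ∈ LB G v w, ∀ g, k⁻¹ * g ∈ F k → k'⁻¹ * g ∈ F k' →
      k⁻¹ * k' ∈ Hv G v w := by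
    intro k hk k' hk' g hg hg'
    exact r6 k hk k' hk' g ((BRDM.mem_Fk T v w k _).1 hg) ((BRDM.mem_Fk T v w k' _).1 hg')
  -- the subgroup
  let Hs : Subgroup G := MulAction.stabilizer G v ⊓ MulAction.stabilizer G w
  have hHs : ∀ g, g ∈ Hs ↔ g ∈ Hv G v w := by
    intro g
    rw [Subgroup.mem_inf, MulAction.mem_stabilizer_iff, MulAction.mem_stabilizer_iff]
    exact Iff.rfl
  -- (D)
  have hD1 : ∀ k ∈ LB G v w, ∀ h ∈ Hv G v w, k * h ∈ LB G v w := by
    intro k hk h hh
    exact ((r3 h hh k).2 hk).2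
  have hD2 : ∀ k ∈ LB G v w, ∀ h ∈ Hv G v w, ∀ g, k⁻¹ * g ∈ F k → (k * h)⁻¹ * g ∈ F (k * h) := by
    intro k hk h hh g hg
    have hi : h⁻¹ ∈ Hv G v w := (hHs _).1 (Hs.inv_mem ((hHs _).2 hh))
    have hi' : h⁻¹ ∈ Hv G w v := by rw [hHc]; exact hi
    have e : (k * h)⁻¹ * g = h⁻¹ * (k⁻¹ * g) := by group
    have e2 : (k * h) • w = k • w := by rw [mul_smul, hh.2]
    rw [e]
    refine (BRDM.mem_Fk T v w _ _).2 ?_
    rw [e2]
    rcases (BRDM.mem_Fk T v w k _).1 hg with ⟨h1, h2⟩ | ⟨h1, h2⟩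
    · refine Or.inl ⟨h1, ?_⟩
      rcases h2 with h2 | h2
      · exact Or.inl ((hHs _).1 (Hs.mul_mem ((hHs _).2 hi) ((hHs _).2 h2)))
      · exact Or.inr ((r3' _ hi' _).1 h2).1
    · refine Or.inr ⟨h1, ?_⟩
      rcases h2 with h2 | h2
      · exact Or.inl ((hHs _).1 (Hs.mul_mem ((hHs _).2 hi) ((hHs _).2 h2)))
      · exact Or.inr ((r3 _ hi _).1 h2).1
  have hHF : ∀ k, ∀ h ∈ Hv G v w, h ∈ F k := by
    intro k h hh
    refine (BRDM.mem_Fk T v w _ _).2 ?_
    by_cases hk : k • w = w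
    · exact Or.inl ⟨hk, Or.inl hh⟩
    · exact Or.inr ⟨hk, Or.inl hh⟩
  -- (G)
  have hG : ∀ k ∈ LB G v w, η k ≠ 0 → ∃ i, ∃ h ∈ Hv G v w, (y i).coeff (k * h) ≠ 0 := by
    intro k hk hne
    by_contra hcon
    push Not at hcon
    have h0 : cr (Hv G v w) (η k) = 0 := by
      funext i
      ext g
      by_cases hg : g ∈ Hv G v w
      · rw [BRDM.cr_in _ _ _ _ hg]
        show (BRDM.eta (F k) k y i).coeff g = _
        rw [BRDM.eta_in _ _ _ _ _ (hHF k g hg), hcon i g hg]
        rfl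
      · rw [BRDM.cr_out _ _ _ _ hg]
        rfl
    apply hne
    by_cases hkw : k • w = w
    · have := ((hSPL R G V T w v (BRDM.TrH_symm hT) I J c d D (BRDM.TMx_symm hTM)).2.2.1
        (η k) (hk1 k hk hkw)).1
      rw [hHc, h0, Matrix.zero_vecMul] at this
      exact this.symm
    · have := ((hSPL R G V T v w hT I J c d D hTM).2.2.1 (η k) (hk2 k hk hkw)).1
      rw [h0, Matrix.zero_vecMul] at this
      exact this.symm
  -- the representatives
  let Sup : Finset G := (Finset.univ : Finset I).biUnion fun i => (y i).coeff.support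
  let S' : Finset G := Sup.filter fun g => g ∈ LB G v w
  let rep : G → G := fun g => (QuotientGroup.mk g : G ⧸ Hs).out
  have hS' : ∀ g, g ∈ S' ↔ (∃ i, (y i).coeff g ≠ 0) ∧ g ∈ LB G v w := by
    intro g
    show g ∈ Finset.filter _ _ ↔ _
    rw [Finset.mem_filter, Finset.mem_biUnion]
    constructor
    · rintro ⟨⟨i, -, hi⟩, h⟩
      exact ⟨⟨i, Finsupp.mem_support_iff.1 hi⟩, h⟩
    · rintro ⟨⟨i, hi⟩, h⟩
      exact ⟨⟨i, Finset.mem_univ _, Finsupp.mem_support_iff.2 hi⟩, h⟩
  have hrep : ∀ g, ∃ h ∈ Hv G v w, rep g = g * h := by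
    intro g
    obtain ⟨h, hh⟩ := QuotientGroup.mk_out_eq_mul Hs g
    exact ⟨h, (hHs _).1 h.2, hh⟩
  let Q : Finset G := S'.image rep
  have hQL : ∀ q ∈ Q, q ∈ LB G v w := by
    intro q hq
    obtain ⟨s, hs, rfl⟩ := Finset.mem_image.1 hq
    obtain ⟨h, hh, e⟩ := hrep s
    rw [e]
    exact hD1 s ((hS' s).1 hs).2 h hh
  have hQu : ∀ q ∈ Q, ∀ q' ∈ Q, q⁻¹ * q' ∈ Hv G v w → q = q' := by
    intro q hq q' hq' h
    obtain ⟨s, hs, rfl⟩ := Finset.mem_image.1 hq
    obtain ⟨s', hs', rfl⟩ := Finset.mem_image.1 hq'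
    have e : (QuotientGroup.mk (rep s) : G ⧸ Hs) = QuotientGroup.mk (rep s') :=
      QuotientGroup.eq.2 ((hHs _).2 h)
    have e1 : (QuotientGroup.mk (rep s) : G ⧸ Hs) = QuotientGroup.mk s := Quotient.out_eq _
    have e2 : (QuotientGroup.mk (rep s') : G ⧸ Hs) = QuotientGroup.mk s' := Quotient.out_eq _
    rw [e1, e2] at e
    show (QuotientGroup.mk s : G ⧸ Hs).out = (QuotientGroup.mk s' : G ⧸ Hs).out
    rw [e]
  refine ⟨Q, η, ?_, ?_, ?_⟩
  · intro q hq
    have hqL := hQL q hq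
    refine ⟨hqL, hk1 q hqL, hk2 q hqL, ?_⟩
    -- `y` is not zero
    have hy0 : ∃ i0, ∃ g0 ∈ Hv G v w, (y i0).coeff g0 ≠ 0 := by
      by_contra hcon
      push Not at hcon
      have h0 : cr (Hv G v w) y = 0 := by
        funext i
        ext g
        by_cases hg : g ∈ Hv G v w
        · rw [BRDM.cr_in _ _ _ _ hg, hcon i g hg]
          rfl
        · rw [BRDM.cr_out _ _ _ _ hg]
          rfl
      have := ((hSPL R G V T v w hT I J c d D hTM).2.2.1 y hy).1
      rw [h0, Matrix.zero_vecMul] at this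
      obtain ⟨s, hs, -⟩ := Finset.mem_image.1 hq
      obtain ⟨⟨i, hi⟩, -⟩ := (hS' s).1 hs
      rw [← this] at hi
      exact hi rfl
    obtain ⟨i0, g0, hg0, hne⟩ := hy0
    have hle : ∀ i, (η q i).coeff.support.card ≤
        ((y i).coeff.support.filter fun g => g ∉ Hv G v w).card := by
      intro i
      refine Finset.card_le_card_of_injOn (fun g => q * g) ?_ ?_
      · intro g hg
        have hg' : (BRDM.eta (F q) q y i).coeff g ≠ 0 := Finsupp.mem_support_iff.1 hg
        have hF : g ∈ F q := by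
          by_contra hn
          exact hg' (BRDM.eta_out _ _ _ _ _ hn)
        rw [BRDM.eta_in _ _ _ _ _ hF] at hg'
        refine Finset.mem_coe.2 (Finset.mem_filter.2 ⟨Finsupp.mem_support_iff.2 hg', ?_⟩)
        refine (r2 _ (hA q hqL _ ?_)).1
        rw [inv_mul_cancel_left]
        exact hF
      · intro a _ b _ hab
        exact mul_left_cancel hab
    unfold sz
    refine Finset.sum_lt_sum (fun i _ => (hle i).trans (Finset.card_filter_le _ _)) ?_
    refine ⟨i0, Finset.mem_univ _, lt_of_le_of_lt (hle i0) (Finset.card_lt_card ?_)⟩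
    exact Finset.filter_ssubset.2 ⟨g0, Finsupp.mem_support_iff.2 hne, fun h => h hg0⟩
  · funext i
    ext g
    have e0 : ((cr (Hv G v w) y + ∑ q ∈ Q, (MonoidAlgebra.single q 1 : MonoidAlgebra R G) • η q)
        i).coeff g = (cr (Hv G v w) y i).coeff g +
        ∑ q ∈ Q, (η q i).coeff (q⁻¹ * g) := by
      rw [← BRDM.sum_row, Pi.add_apply]
      simp
    rw [e0]
    by_cases h0 : (y i).coeff g = 0
    · have e1 : (cr (Hv G v w) y i).coeff g = 0 := by
        by_cases hg : g ∈ Hv G v w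
        · rw [BRDM.cr_in _ _ _ _ hg, h0]
        · rw [BRDM.cr_out _ _ _ _ hg]
      have e2 : ∑ q ∈ Q, (η q i).coeff (q⁻¹ * g) = 0 := by
        refine Finset.sum_eq_zero fun q hq => ?_
        show (BRDM.eta (F q) q y i).coeff _ = 0
        by_cases hF : q⁻¹ * g ∈ F q
        · rw [BRDM.eta_in _ _ _ _ _ hF, mul_inv_cancel_left, h0]
        · exact BRDM.eta_out _ _ _ _ _ hF
      rw [h0, e1, e2, add_zero]
    · rcases hy.1 i g h0 with hg | hg
      · have e2 : ∑ q ∈ Q, (η q i).coeff (q⁻¹ * g) = 0 := by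
          refine Finset.sum_eq_zero fun q hq => ?_
          show (BRDM.eta (F q) q y i).coeff _ = 0
          refine BRDM.eta_out _ _ _ _ _ fun hF => ?_
          exact (r2 g (hA q (hQL q hq) g hF)).1 hg
        rw [e2, add_zero, BRDM.cr_in _ _ _ _ hg]
      · rw [BRDM.cr_out _ _ _ _ (r2 g hg).1, zero_add]
        obtain ⟨k, hk, hk1', hk2'⟩ := r4 g hg
        have hkF : k⁻¹ * g ∈ F k := by
          refine (BRDM.mem_Fk T v w _ _).2 ?_
          by_cases hkw : k • w = w
          · exact Or.inl ⟨hkw, hk1' hkw⟩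
          · exact Or.inr ⟨hkw, hk2' hkw⟩
        have hne : η k ≠ 0 := by
          intro h
          have h1 : (BRDM.eta (F k) k y i).coeff (k⁻¹ * g) = 0 := by
            have : BRDM.eta (F k) k y = 0 := h
            rw [this]
            rfl
          rw [BRDM.eta_in _ _ _ _ _ hkF, mul_inv_cancel_left] at h1
          exact h0 h1
        obtain ⟨i', h, hh, hne'⟩ := hG k hk hne
        obtain ⟨h', hh', e⟩ := hrep (k * h)
        have hqQ : rep (k * h) ∈ Q :=
          Finset.mem_image_of_mem _ ((hS' _).2 ⟨⟨i', hne'⟩, hD1 k hk h hh⟩)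
        have hqF : (rep (k * h))⁻¹ * g ∈ F (rep (k * h)) := by
          rw [e]
          exact hD2 _ (hD1 k hk h hh) h' hh' g (hD2 k hk h hh g hkF)
        rw [Finset.sum_eq_single_of_mem _ hqQ]
        · show _ = (BRDM.eta (F _) _ y i).coeff _
          rw [BRDM.eta_in _ _ _ _ _ hqF, mul_inv_cancel_left]
        · intro q hq hqne
          show (BRDM.eta (F q) q y i).coeff _ = 0
          refine BRDM.eta_out _ _ _ _ _ fun hF => hqne ?_
          exact hQu q hq _ hqQ (hC q (hQL q hq) _ (hQL _ hqQ) g hF hqF)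
  · funext i
    ext g
    rw [BRDM.sum_row]
    have hterm : ∀ q ∈ Q, (cr (Hv G v w) (η q) i).coeff (q⁻¹ * g) ≠ 0 →
        q⁻¹ * g ∈ Hv G v w ∧ (y i).coeff g ≠ 0 := by
      intro q hq hne
      have hm : q⁻¹ * g ∈ Hv G v w := by
        by_contra hn
        exact hne (BRDM.cr_out _ _ _ _ hn)
      rw [BRDM.cr_in _ _ _ _ hm] at hne
      have hne' : (BRDM.eta (F q) q y i).coeff (q⁻¹ * g) ≠ 0 := hne
      rw [BRDM.eta_in _ _ _ _ _ (hHF q _ hm), mul_inv_cancel_left] at hne'
      exact ⟨hm, hne'⟩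
    by_cases h0 : (y i).coeff g = 0
    · have e1 : (cr (LB G v w) y i).coeff g = 0 := by
        by_cases hg : g ∈ LB G v w
        · rw [BRDM.cr_in _ _ _ _ hg, h0]
        · rw [BRDM.cr_out _ _ _ _ hg]
      rw [e1]
      symm
      refine Finset.sum_eq_zero fun q hq => ?_
      by_contra hn
      exact (hterm q hq hn).2 h0
    · by_cases hg : g ∈ LB G v w
      · rw [BRDM.cr_in _ _ _ _ hg]
        obtain ⟨h, hh, e⟩ := hrep g
        have hqQ : rep g ∈ Q := Finset.mem_image_of_mem _ ((hS' _).2 ⟨⟨i, h0⟩, hg⟩)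
        have hm : (rep g)⁻¹ * g ∈ Hv G v w := by
          have : (rep g)⁻¹ * g = h⁻¹ := by rw [e]; group
          rw [this]
          exact (hHs _).1 (Hs.inv_mem ((hHs _).2 hh))
        rw [Finset.sum_eq_single_of_mem _ hqQ]
        · rw [BRDM.cr_in _ _ _ _ hm]
          show _ = (BRDM.eta (F _) _ y i).coeff _
          rw [BRDM.eta_in _ _ _ _ _ (hHF _ _ hm), mul_inv_cancel_left]
        · intro q hq hqne
          by_contra hn
          have hq' := (hterm q hq hn).1
          refine hqne (hQu q hq _ hqQ ?_)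
          have : q⁻¹ * rep g = (q⁻¹ * g) * ((rep g)⁻¹ * g)⁻¹ := by group
          rw [this]
          exact (hHs _).1 (Hs.mul_mem ((hHs _).2 hq') (Hs.inv_mem ((hHs _).2 hm)))
      · rw [BRDM.cr_out _ _ _ _ hg]
        symm
        refine Finset.sum_eq_zero fun q hq => ?_
        by_contra hn
        apply hg
        have := hD1 q (hQL q hq) _ (hterm q hq hn).1
        rwa [mul_inv_cancel_left] at this

end Pool.Agent.Lib.MPb6f35e.KN
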