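import Pool.Agent.Lib.MP_b6f35e_al.KN.SpecW

/-!
# The vanishing of Whitehead groups and amalgams: Specs (MP_b6f35e_al, folder KN, part C)

`Zm m = Z^m`. THEOREM C. Let `R` be a ring such that all idempotent matrices over the rings `R[Z^m]` are
stably free (`SFR R`). Let `WhR R G` be the statement: for all `m` the group `K_1(R[G × Z^m])` is generated
by `K_1(R[Z^m])` and the elements of `G × Z^m` (for `R = Z`: `Wh(G × Z^m) = 0` for all `m`, this is the
Farrell-Jones conjecture in the degrees `≤ 1` if `G` is torsionfree). If `G` acts on a tree as in part W,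
`WhR` holds for `G_v`, `G_w` and `G_v ∩ G_w`, and the rings `R[(G_x ∩ G_y) × Z^m]` are regular coherent for
all long segments `[x, y]`, then `WhR R G`, and all idempotent matrices over `R[G × Z^m]` are stably free.

Form of the modules: as in `Spec.lean`; files `KN/XXX.lean` import `KN/SpecC.lean` (and landed files:
`UV/RES.lean`, `KN/KCL.lean` ..).
-/

namespace Pool.Agent.Lib.MPb6f35e.KN

open Matrix
open Pool.Agent.Lib.MP8a3537.UV (emb res lres SuppIn)
open Pool.Agent.Lib.MP8a3537.RO (Bi dc Kg cut cutM)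

/-! ### Definitions -/

/-- The idempotent matrix `p` is stably free: its image plus a free module is free. -/
def StF {S : Type} [Ring S] {ι : Type} [Fintype ι] [DecidableEq ι] (p : Matrix ι ι S) : Prop :=
  ∃ (r s : ℕ) (x : Matrix (ι ⊕ Fin r) (Fin s) S) (y : Matrix (Fin s) (ι ⊕ Fin r) S),
    x * y = fromBlocks p 0 0 1 ∧ y * x = 1

/-- The same over `R[H]`. -/
def StFin {R G : Type} [Ring R] [Group G] (H : Set G) {ι : Type} [Fintype ι] [DecidableEq ι]
    (p : Matrix ι ι (MonoidAlgebra R G)) : Prop :=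
  ∃ (r s : ℕ) (x : Matrix (ι ⊕ Fin r) (Fin s) (MonoidAlgebra R G))
    (y : Matrix (Fin s) (ι ⊕ Fin r) (MonoidAlgebra R G)),
    SuppIn H x ∧ SuppIn H y ∧ x * y = fromBlocks p 0 0 1 ∧ y * x = 1

/-- The group `Z^m`. -/
abbrev Zm (m : ℕ) : Type := Multiplicative (Fin m → ℤ)

/-- All idempotent matrices over the rings `R[Z^m]` are stably free. -/
def SFR (R : Type) [Ring R] : Prop :=
  ∀ (m : ℕ) (ι : Type) [Fintype ι] [DecidableEq ι] (p : Matrix ι ι (MonoidAlgebra R (Zm m))),
    p * p = p → StF p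

/-- All idempotent matrices over the rings `R[G × Z^m]` are stably free. -/
def StR (R G : Type) [Ring R] [Group G] : Prop :=
  ∀ (m : ℕ) (ι : Type) [Fintype ι] [DecidableEq ι]
    (p : Matrix ι ι (MonoidAlgebra R (G × Zm m))), p * p = p → StF p

/-- For all `m` the group `K_1(R[G × Z^m])` is generated by the image of `K_1(R[Z^m])` and the classes of
the elements of `G × Z^m`. -/
def WhR (R G : Type) [Ring R] [Group G] : Prop :=
  ∀ m : ℕ, AddSubgroup.closure
    ({x : D1.Grp (D1.RelA (MonoidAlgebra R (G × Zm m))) |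
      ∃ (n : ℕ) (u : (Matrix (Fin n) (Fin n) (MonoidAlgebra R (G × Zm m)))ˣ),
        (∀ i j g, (u.val i j).coeff g ≠ 0 → g.1 = 1) ∧ x = D1.cls _ ⟨n, u⟩} ∪
      {x | ∃ (u : (Matrix (Fin 1) (Fin 1) (MonoidAlgebra R (G × Zm m)))ˣ) (g : G × Zm m),
        u.val 0 0 = MonoidAlgebra.single g 1 ∧ x = D1.cls _ ⟨1, u⟩}) = ⊤

/-- The same for all functions like `K_1`. -/
def PrK (R G : Type) [Ring R] [Group G] : Prop :=
  ∀ (m : ℕ) (K : Type) [AddCommGroup K]
    (κ : ∀ (ι : Type) [Fintype ι], Matrix ι ι (MonoidAlgebra R (G × Zm m)) → K), KF κ →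
    ∀ N : AddSubgroup K,
    (∀ (ι : Type) [Fintype ι] [DecidableEq ι] (M : Matrix ι ι (MonoidAlgebra R (G × Zm m))),
      IsUnit M → SuppIn {g | g.1 = 1} M → κ ι M ∈ N) →
    (∀ (ι : Type) [Fintype ι] [DecidableEq ι] (f : ι → G × Zm m),
      κ ι (Matrix.diagonal fun i => MonoidAlgebra.single (f i) 1) ∈ N) →
    ∀ (ι : Type) [Fintype ι] [DecidableEq ι] (M : Matrix ι ι (MonoidAlgebra R (G × Zm m))),
      IsUnit M → κ ι M ∈ N

/-! ### Part 1: from glued matrices to the vertex groups -/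

/-- **RKF** (size 180, dep `SpecKCL`): classes of rectangular invertible matrices.

PROOF. `E : A → A`, `E = MonoidAlgebra.mapDomainRingHom R (1 : G →* G)`, is a ring homomorphism whose values are supported in `{1}`;
`E (E a) = E a`. If `x` (`ι × ι'`) has the two-sided inverse `x'` put `rk x = mk (κ ι (x * E x'))` (`E` entrywise; `x'` is unique; choose it with
`Classical`), otherwise `0`. `x E x'` is a unit with inverse `E x x'`. mul: `x y E(y') E(x') = (x E x') (E x (y E y') E x')`, and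
`κ (E x Z E x') = κ Z` for the unit `Z = y E y'` by `swap` (`E x Z E x' = 1 + (E x (Z - 1)) E x'`, `E x' E x = 1`). sq: `κ (M E(M⁻¹)) =
κ M + κ (E M⁻¹)`, the last is in `N`. sub: `x E x'` has support in `P`. blk: KCL (2). -/
def SpecRKF : Prop :=
  ∀ (R G K : Type) [Ring R] [Group G] [AddCommGroup K]
    (κ : ∀ (ι : Type) [Fintype ι], Matrix ι ι (MonoidAlgebra R G) → K), KF κ →
    ∀ N : AddSubgroup K,
    (∀ (ι : Type) [Fintype ι] [DecidableEq ι] (M : Matrix ι ι (MonoidAlgebra R G)), IsUnit M →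
      SuppIn {1} M → κ ι M ∈ N) →
    ∃ rk : ∀ (ι ι' : Type) [Fintype ι] [Fintype ι'], Matrix ι ι' (MonoidAlgebra R G) → K ⧸ N,
      (∀ (ι ι' ι'' : Type) [Fintype ι] [DecidableEq ι] [Fintype ι'] [DecidableEq ι'] [Fintype ι'']
        [DecidableEq ι''] (x : Matrix ι ι' (MonoidAlgebra R G)) (x' : Matrix ι' ι (MonoidAlgebra R G))
        (y : Matrix ι' ι'' (MonoidAlgebra R G)) (y' : Matrix ι'' ι' (MonoidAlgebra R G)),
        x * x' = 1 → x' * x = 1 → y * y' = 1 → y' * y = 1 →
        rk ι ι'' (x * y) = rk ι ι' x + rk ι' ι'' y) ∧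
      (∀ (ι : Type) [Fintype ι] [DecidableEq ι] (M : Matrix ι ι (MonoidAlgebra R G)), IsUnit M →
        rk ι ι M = QuotientAddGroup.mk (κ ι M)) ∧
      (∀ P : Subgroup G, (∀ (ι : Type) [Fintype ι] [DecidableEq ι]
        (M : Matrix ι ι (MonoidAlgebra R G)), IsUnit M → SuppIn (P : Set G) M → κ ι M ∈ N) →
        ∀ (ι ι' : Type) [Fintype ι] [DecidableEq ι] [Fintype ι'] [DecidableEq ι']
        (x : Matrix ι ι' (MonoidAlgebra R G)) (x' : Matrix ι' ι (MonoidAlgebra R G)),
        x * x' = 1 → x' * x = 1 → SuppIn (P : Set G) x → rk ι ι' x = 0) ∧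
      (∀ (ι ι' ρ ρ' : Type) [Fintype ι] [DecidableEq ι] [Fintype ι'] [DecidableEq ι'] [Fintype ρ]
        [DecidableEq ρ] [Fintype ρ'] [DecidableEq ρ'] (x : Matrix ι ι' (MonoidAlgebra R G))
        (x' : Matrix ι' ι (MonoidAlgebra R G)) (y : Matrix ρ ρ' (MonoidAlgebra R G))
        (y' : Matrix ρ' ρ (MonoidAlgebra R G)),
        x * x' = 1 → x' * x = 1 → y * y' = 1 → y' * y = 1 →
        rk (ι ⊕ ρ) (ι' ⊕ ρ') (fromBlocks x 0 0 y) = rk ι ι' x + rk ρ ρ' y)

/-- **STG** (size 320, deps `SpecKCL`, `SpecRKF`): glued matrices with stably free parts.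

PROOF. Let `π`, `c` be the data of the glued unit `B` (`IsGl`), `A = R[G]`. `hs` for `π` and `1 - π`: `x1 y1 = π ⊕ 1_(r1)`, `y1 x1 = 1_(s1)`,
`x2 y2 = (1 - π) ⊕ 1_(r2)`, `y2 x2 = 1_(s2)`, all over `R[Hv]`. `ι' = ι ⊕ (Fin r1 ⊕ Fin r2)`, `B' = fromBlocks B 0 0 1`,
`π' = π ⊕ 1 ⊕ 0`, `c' = c` on `ι`, `v` on `Fin r1`, `w` on `Fin r2`: `B'` is glued with `π'`, `c'`. Extend `x1`, `x2` by zero rows and
`y1`, `y2` by zero columns to `ι'`: `x1 y1 = π'`, `x2 y2 = 1 - π'`. `x = fromCols x1 x2`, `y = fromRows y1 y2`: `x y = 1`; `y1 = y1 π'`, `x2 = (1 - π') x2`, so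
`y1 x2 = 0`, `y2 x1 = 0`, `y x = 1`. `B'' = y B'` (rows `Fin s1 ⊕ Fin s2`, columns `ι'`), invertible; the entries of the rows `Fin s1`
(`y1 B' = y1 (π' B')`) are supported in `Hv {g | g (c' j) = v} = {g | g (c' j) = v}`, those of the rows `Fin s2` in `{g | g (c' j) = w}`.
RKF (the hypothesis for `{1}` is contained in that for the stabilizer of `v`): `rk x = 0` (sub with `P = stabilizer v`), so `rk B' = rk B''`.
Claim `rk B'' = 0`; then `κ B' ∈ N` (sq), `κ B = κ B'` (KCL (2), (1)). CASE A: no `g` with `g v = w`. With `J1 = {j | c' j = v}`,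
`J2 = {j | c' j = w}` (every `c' j` is `v` or `w`) and the equivalence `ι' ≃ J1 ⊕ J2` (a permutation matrix, over `R`: `rk = 0` by (sub)) `B''`
becomes `fromBlocks B1 0 0 B2` with `B1` over the stabilizer of `v` (`g v = v`), `B2` over that of `w`, both invertible (compare
the blocks of the two products with the inverse): (blk), (sub). CASE B: `t v = w`. Let `D1 = diagonal` on the rows: `1` on
`Fin s1`, `single t⁻¹ 1` on `Fin s2`; `D2 = diagonal` on the columns: `1` if `c' j = v`, `single t 1` otherwise. `D1 B'' D2` is supported in the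
stabilizer of `v`, so `rk = 0` (sub), and `rk D1 = rk D2 = 0` by (sq) and the hypothesis on diagonal matrices. -/
def SpecSTG : Prop :=
  ∀ (R G V K : Type) [Ring R] [Group G] [MulAction G V] [AddCommGroup K]
    (κ : ∀ (ι : Type) [Fintype ι], Matrix ι ι (MonoidAlgebra R G) → K), KF κ →
    ∀ (v w : V) (N : AddSubgroup K), v ≠ w →
    (∀ (ι : Type) [Fintype ι] [DecidableEq ι] (M : Matrix ι ι (MonoidAlgebra R G)), IsUnit M →
      SuppIn {g | g • v = v} M → κ ι M ∈ N) →
    (∀ (ι : Type) [Fintype ι] [DecidableEq ι] (M : Matrix ι ι (MonoidAlgebra R G)), IsUnit M →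
      SuppIn {g | g • w = w} M → κ ι M ∈ N) →
    (∀ (ι : Type) [Fintype ι] [DecidableEq ι] (f : ι → G),
      κ ι (Matrix.diagonal fun i => MonoidAlgebra.single (f i) 1) ∈ N) →
    (∀ (ι : Type) [Fintype ι] [DecidableEq ι] (p : Matrix ι ι (MonoidAlgebra R G)),
      SuppIn (Hv G v w) p → p * p = p → StFin (Hv G v w) p) →
    ∀ (ι : Type) [Fintype ι] [DecidableEq ι] (B : Matrix ι ι (MonoidAlgebra R G)), IsUnit B →
      IsGl v w B → κ ι B ∈ N

/-- **PSB** (size 180): `PrK` for a subgroup.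

PROOF. `φ : R[P × Z^m] → R[G × Z^m]` the ring homomorphism `MonoidAlgebra.mapDomainRingHom` of the injective group homomorphism
`(a, z) ↦ (a, z)`. `κ' ι M = κ ι (M.map φ)` is a `KF` on `R[P × Z^m]` (`Matrix.map_mul`, units are mapped to units,
`(1 + x y).map φ = 1 + x.map φ * y.map φ`). `PrK R P` for `κ'`, `N`: the two hypotheses hold. A unit `M` with support in
`{g | g.1 ∈ P}`: its inverse has the same support (the part of `M⁻¹` supported in this subgroup is also an inverse), so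
`M = M'.map φ` with a unit `M'` (`φ` is injective with image the elements with this support; cf. `RESAux.emb_lift`). -/
def SpecPSB : Prop :=
  ∀ (R G : Type) [Ring R] [Group G] (P : Subgroup G), PrK R P →
    ∀ (m : ℕ) (K : Type) [AddCommGroup K]
    (κ : ∀ (ι : Type) [Fintype ι], Matrix ι ι (MonoidAlgebra R (G × Zm m)) → K), KF κ →
    ∀ N : AddSubgroup K,
    (∀ (ι : Type) [Fintype ι] [DecidableEq ι] (M : Matrix ι ι (MonoidAlgebra R (G × Zm m))),
      IsUnit M → SuppIn {g | g.1 = 1} M → κ ι M ∈ N) →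
    (∀ (ι : Type) [Fintype ι] [DecidableEq ι] (f : ι → G × Zm m),
      κ ι (Matrix.diagonal fun i => MonoidAlgebra.single (f i) 1) ∈ N) →
    ∀ (ι : Type) [Fintype ι] [DecidableEq ι] (M : Matrix ι ι (MonoidAlgebra R (G × Zm m))),
      IsUnit M → SuppIn {g | g.1 ∈ P} M → κ ι M ∈ N

/-- **SSB** (size 120): `StR` for a subgroup.

PROOF. As in PSB: `p = p'.map φ` with `p' * p' = p'` over `R[P × Z^m]` (`φ` injective); apply `φ` to the matrices for `p'`. -/
def SpecSSB : Prop :=
  ∀ (R G : Type) [Ring R] [Group G] (P : Subgroup G), StR R P →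
    ∀ (m : ℕ) (ι : Type) [Fintype ι] [DecidableEq ι] (p : Matrix ι ι (MonoidAlgebra R (G × Zm m))),
      SuppIn {g | g.1 ∈ P} p → p * p = p → StFin {g : G × Zm m | g.1 ∈ P} p

/-- **RCX** (size 150): regular coherence is invariant under isomorphisms of rings.

PROOF. Let `e : S ≃+* S'`. An `S'`-module `M` becomes an `S`-module by `Module.compHom M e.toRingHom`. Finitely presented, finite,
projective modules correspond (e.g. `M` as an `S`-module: use semilinear equivalences; or transport along `e`: for finitely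
presented: `M ≅ S'^n / (finitely generated)`), surjections and kernels too: `FPres S n M` for the restricted module implies
`FPres S' n M` by induction on `n` (an `S`-module `F` becomes an `S'`-module by `e.symm`). -/
def SpecRCX : Prop :=
  ∀ (S S' : Type) [Ring S] [Ring S'], (S ≃+* S') → RegCoh S → RegCoh S'

/-! ### Part 2: `K_0` from `K_1` (Bass, Heller, Swan) -/

/-- **KFI** (size 120): a criterion for `KF`.

PROOF. swap: on `ι ⊕ ι'` let `L = fromBlocks 1 0 y 1`, `U = fromBlocks 1 (-x) 0 1`, `a = 1 + x y`, `d = 1 + y x` (a unit with inverse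
`1 - y a⁻¹ x`). `L * fromBlocks 1 (-x) 0 d = fromBlocks a (-x) 0 1 * L`; `fromBlocks 1 (-x) 0 d = fromBlocks 1 0 0 d * U`;
`fromBlocks a (-x) 0 1 = U * fromBlocks a 0 0 1`. So `κ d = κ a` (cancel `κ L`, `κ U`). -/
def SpecKFI : Prop :=
  ∀ (A K : Type) [Ring A] [AddCommGroup K] (κ : ∀ (ι : Type) [Fintype ι], Matrix ι ι A → K),
    (∀ (ι : Type) [Fintype ι] [DecidableEq ι] (a b : Matrix ι ι A), IsUnit a → IsUnit b →
      κ ι (a * b) = κ ι a + κ ι b) →
    (∀ (ι ι' : Type) [Fintype ι] [DecidableEq ι] [Fintype ι'] [DecidableEq ι'] (a : Matrix ι ι A)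
      (d : Matrix ι' ι' A), IsUnit a → IsUnit d →
      κ (ι ⊕ ι') (fromBlocks a 0 0 1) = κ ι a ∧ κ (ι ⊕ ι') (fromBlocks 1 0 0 d) = κ ι' d) → KF κ

/-- **DGK** (size 100, dep `SpecKCL`): diagonal matrices.

PROOF. Induction on `card ι`: reindex `ι ≃ ι' ⊕ Fin 1` (or `Option`), KCL (2); a `KF` is invariant under reindexing
(`GlueM.kf_reindex` in `KN/GlueMain.lean`). -/
def SpecDGK : Prop :=
  ∀ (A K : Type) [Ring A] [AddCommGroup K] (κ : ∀ (ι : Type) [Fintype ι], Matrix ι ι A → K), KF κ →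
    ∀ (N : AddSubgroup K) (U : Set A), (∀ a ∈ U, IsUnit a) →
    (∀ a ∈ U, κ (Fin 1) (Matrix.diagonal fun _ => a) ∈ N) →
    ∀ (ι : Type) [Fintype ι] [DecidableEq ι] (f : ι → A), (∀ i, f i ∈ U) →
      κ ι (Matrix.diagonal f) ∈ N

/-- A function like the class in `K_0(S)` modulo the free modules. -/
structure ClP (S K : Type) [Ring S] [AddCommGroup K]
    (cl : ∀ (P : Type) [AddCommGroup P] [Module S P], K) : Prop where
  iso : ∀ (P P' : Type) [AddCommGroup P] [Module S P] [AddCommGroup P'] [Module S P'],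
    Nonempty (P ≃ₗ[S] P') → cl P = cl P'
  add : ∀ (P P' : Type) [AddCommGroup P] [Module S P] [AddCommGroup P'] [Module S P'],
    Module.Finite S P → Module.Projective S P → Module.Finite S P' → Module.Projective S P' →
    cl (P × P') = cl P + cl P'
  free : ∀ n : ℕ, cl (Fin n → S) = 0
  zero : ∀ (P : Type) [AddCommGroup P] [Module S P], Module.Finite S P → Module.Projective S P →
    cl P = 0 → ∃ r s : ℕ, Nonempty ((P × (Fin r → S)) ≃ₗ[S] (Fin s → S))

/-- **KPR** (size 280): the group `K_0(S)` modulo the free modules.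

PROOF. Let `α = Σ n, {p : Matrix (Fin n) (Fin n) S // p * p = p}` (a type in `Type`), `M(n, p)` = the range of `x ↦ x ᵥ* p`, a finitely
generated projective module, and every such module is isomorphic to one of them (`Module.Finite`, projective: a section
of a surjection `S^n → P`). `K` = the quotient of `α` by `a ~ b` iff `M a × S^r ≃ M b × S^s` for some `r`, `s`. Addition by block sums
(`M (a ⊕ b) ≃ M a × M b`), zero = class of `n = 0`, negative: class of `1 - p` (`M p × M (1 - p) ≃ S^n`). `cl P` = the class of any `a` with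
`M a ≃ P` if `P` is finitely generated projective, `0` otherwise. (Any other construction is allowed.) -/
def SpecKPR : Prop :=
  ∀ (S : Type) [Ring S], ∃ (K : Type) (_ : AddCommGroup K)
    (cl : ∀ (P : Type) [AddCommGroup P] [Module S P], K), ClP S K cl

/-- The quotient `Y / X` of two submodules (`X ≤ Y`). -/
abbrev Qt {S M : Type} [Ring S] [AddCommGroup M] [Module S M] (Y X : Submodule S M) : Type :=
  ↥Y ⧸ X.submoduleOf Y

/-- **EXA** (size 150): quotients of submodules.

PROOF. (1) The sequence `Y/X → Z/X → Z/Y` is exact, `Y/X → Z/X` injective, `Z/Y` projective: a section gives the isomorphism.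
(2) `f` induces `Y → f Y` bijective, mapping `X` onto `f X`. (3) from (1): `Module.Finite.prod` etc. -/
def SpecEXA : Prop :=
  ∀ (S : Type) [Ring S],
    (∀ (M : Type) [AddCommGroup M] [Module S M] (X Y Z : Submodule S M), X ≤ Y → Y ≤ Z →
      Module.Projective S (Qt Z Y) → Nonempty (Qt Z X ≃ₗ[S] (Qt Z Y × Qt Y X))) ∧
    (∀ (M M' : Type) [AddCommGroup M] [Module S M] [AddCommGroup M'] [Module S M']
      (f : M →ₗ[S] M') (X Y : Submodule S M), Function.Injective f → X ≤ Y →
      Nonempty (Qt Y X ≃ₗ[S] Qt (Y.map f) (X.map f)))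

section Lattices

variable (R : Type) {Γ : Type} [Ring R] [Group Γ]

/-- The rows over `R[Γ]`, as a left module over `R[Λ]`. -/
def Rw (_Λ : Subgroup Γ) (ι : Type) : Type := ι → MonoidAlgebra R Γ

noncomputable instance (Λ : Subgroup Γ) (ι : Type) : AddCommGroup (Rw R Λ ι) :=
  inferInstanceAs (AddCommGroup (ι → MonoidAlgebra R Γ))

noncomputable instance (Λ : Subgroup Γ) (ι : Type) :
    Module (MonoidAlgebra R Λ) (Rw R Λ ι) :=
  Module.compHom (ι → MonoidAlgebra R Γ) (emb R Λ)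

/-- The rows supported in the degrees `≥ N`. -/
def lat (δ : Γ →* Multiplicative ℤ) (ι : Type) (N : ℤ) :
    Submodule (MonoidAlgebra R δ.ker) (Rw R δ.ker ι) where
  carrier := {x | ∀ (i : ι) (g : Γ), MonoidAlgebra.coeff (x i) g ≠ 0 → N ≤ (δ g).toAdd}
  add_mem' := by
    intro a b ha hb i g hg
    by_contra hN
    have h1 : MonoidAlgebra.coeff (a i) g = 0 := by
      by_contra h
      exact hN (ha i g h)
    have h2 : MonoidAlgebra.coeff (b i) g = 0 := by
      by_contra h
      exact hN (hb i g h)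
    apply hg
    show MonoidAlgebra.coeff (a i + b i) g = 0
    rw [MonoidAlgebra.coeff_add, Finsupp.add_apply, h1, h2, add_zero]
  zero_mem' := by
    intro i g hg
    exact absurd rfl hg
  smul_mem' := by
    intro s x hx i g hg
    by_contra hN
    apply hg
    show MonoidAlgebra.coeff (emb R δ.ker s * x i) g = 0
    induction s using MonoidAlgebra.induction_linear with
    | zero => rw [map_zero, zero_mul]; rfl
    | add a b ha hb =>
      rw [map_add, add_mul, MonoidAlgebra.coeff_add, Finsupp.add_apply]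
      have h1 : MonoidAlgebra.coeff (emb R δ.ker a * x i) g = 0 := by
        by_contra h
        exact h (ha h)
      have h2 : MonoidAlgebra.coeff (emb R δ.ker b * x i) g = 0 := by
        by_contra h
        exact h (hb h)
      rw [h1, h2, add_zero]
    | single h r =>
      have e : emb R δ.ker (MonoidAlgebra.single h r) = MonoidAlgebra.single (h : Γ) r := by
        simp [emb]
      rw [e, MonoidAlgebra.coeff_single_mul_apply]
      have h1 : MonoidAlgebra.coeff (x i) ((h : Γ)⁻¹ * g) = 0 := by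
        by_contra h2
        apply hN
        have h3 := hx i _ h2
        have h4 : δ (h : Γ) = 1 := h.2
        rwa [map_mul, map_inv, h4, inv_one, one_mul] at h3
      rw [h1, mul_zero]

/-- Right multiplication by the matrix `M`. -/
noncomputable def rmul {Λ : Subgroup Γ} {ι ι' : Type} [Fintype ι]
    (M : Matrix ι ι' (MonoidAlgebra R Γ)) :
    Rw R Λ ι →ₗ[MonoidAlgebra R Λ] Rw R Λ ι' where
  toFun x := (show ι → MonoidAlgebra R Γ from x) ᵥ* M
  map_add' x y := add_vecMul _ _ _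
  map_smul' s x := by
    funext j
    show ∑ i, (emb R Λ s * (show ι → MonoidAlgebra R Γ from x) i) * M i j =
      emb R Λ s * ∑ i, (show ι → MonoidAlgebra R Γ from x) i * M i j
    rw [Finset.mul_sum]
    exact Finset.sum_congr rfl fun i _ => mul_assoc _ _ _

end Lattices

/-- **LA1** (size 180; imports `UV/RES.lean`): the quotients of the lattices.

PROOF. `S = R[δ.ker]`. The map `lat a → (ι × Fin (b - a) → S)`, `x ↦ ((i, k) ↦ lres δ.ker (t ^ (a + k)) (x i))` is linear
(`RESAux.lres_emb_mul`), surjective (`s ↦ ∑_k emb (s (i, k)) * single (t ^ (a + k)) 1`), its kernel is `lat b` (`δ g = a + k` iff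
`g = h t ^ (a + k)` with `h ∈ δ.ker`). -/
def SpecLA1 : Prop :=
  ∀ (R Γ : Type) [Ring R] [Group Γ] (δ : Γ →* Multiplicative ℤ) (t : Γ),
    δ t = Multiplicative.ofAdd 1 → ∀ (ι : Type) [Fintype ι] (a b : ℤ), a ≤ b →
    ∃ n : ℕ, Nonempty (Qt (lat R δ ι a) (lat R δ ι b) ≃ₗ[MonoidAlgebra R δ.ker]
      (Fin n → MonoidAlgebra R δ.ker))

/-- **LA2** (size 320; imports `UV/RES.lean`): the quotients for an invertible matrix.

PROOF. Let `z_(≥ N) = cut {g | N ≤ δ g}` (entrywise), `X = (lat N).map (rmul M)`. `e : lat a → lat a`, `e x = x - (x M')_(≥ N) M`: linear,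
`e x ∈ lat a` (hypothesis). `ker e = X`: if `e x = 0` then `x ∈ X`; if `x = z M`, `z ∈ lat N`, then `x M' = z`, `e x = 0`. So `e` is idempotent
and `Qt (lat a) X ≃ range e`. Choose `b ≥ a` with `b + δ g ≥ N` for all `g` in the supports of `M'`: for `x ∈ lat b`
`x M' ∈ lat N`, so `e x = 0`. Let `σ : S^W → lat a`, `π : lat a → S^W`, `W = ι × Fin (b - a)`, be the maps of LA1 (`σ s` =
`∑_k emb (s (i, k)) * single (t ^ (a + k)) 1`, `π x = lres ..`): `π σ = 1`, `x - σ (π x) ∈ lat b`, so `e σ π = e`. `E` = the matrix of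
`π e σ` (reindexed to `Fin n`), `E E = E` because `π e σ π e σ = π e e σ`; `range (π e σ) ≃ range e` (`e σ` is inverse to `π`:
`e σ (π e x) = e e x = e x`). If `M`, `M'` are supported in `Γ0 ∋ t`: `σ (basis vector) = single (t ^ (a + k)) 1` at `i`, so its image under `e` is
supported in `Γ0`, and `lres δ.ker (t ^ (a + l))` of such an element has its support in `Γ0`. -/
def SpecLA2 : Prop :=
  ∀ (R Γ : Type) [Ring R] [Group Γ] (δ : Γ →* Multiplicative ℤ) (t : Γ),
    δ t = Multiplicative.ofAdd 1 → ∀ (ι : Type) [Fintype ι] [DecidableEq ι]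
    (M M' : Matrix ι ι (MonoidAlgebra R Γ)), M * M' = 1 → M' * M = 1 → ∀ N a : ℤ,
    (lat R δ ι N).map (rmul R M) ≤ lat R δ ι a →
    ∃ (n : ℕ) (E : Matrix (Fin n) (Fin n) (MonoidAlgebra R δ.ker)), E * E = E ∧
      Nonempty (Qt (lat R δ ι a) ((lat R δ ι N).map (rmul R M)) ≃ₗ[MonoidAlgebra R δ.ker]
        LinearMap.range (Matrix.vecMulLinear E)) ∧
      ∀ Γ0 : Subgroup Γ, t ∈ Γ0 → SuppIn (Γ0 : Set Γ) M → SuppIn (Γ0 : Set Γ) M' →
        ∀ i j h, (E i j).coeff h ≠ 0 → (h : Γ) ∈ Γ0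

/-- `φ` is the index function. -/
def IsInd {R Γ K : Type} [Ring R] [Group Γ] [AddCommGroup K] (δ : Γ →* Multiplicative ℤ)
    (cl : ∀ (P : Type) [AddCommGroup P] [Module (MonoidAlgebra R δ.ker) P], K)
    (φ : ∀ (ι : Type) [Fintype ι], Matrix ι ι (MonoidAlgebra R Γ) → K) : Prop :=
  KF φ ∧ ∀ (ι : Type) [Fintype ι] [DecidableEq ι] (M : Matrix ι ι (MonoidAlgebra R Γ)), IsUnit M →
    ∀ N a : ℤ, (lat R δ ι N).map (rmul R M) ≤ lat R δ ι a →
      φ ι M = cl (Qt (lat R δ ι a) ((lat R δ ι N).map (rmul R M)))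

/-- **IND** (size 320, deps `SpecEXA`, `SpecLA1`, `SpecLA2`, `SpecKFI`): the index.

PROOF. For a unit `M` put `Q N a = Qt (lat a) ((lat N) M)` for the pairs with `(lat N) M ≤ lat a` (for each `N` all small `a` are allowed); it is
finitely generated projective (LA2: the range of an idempotent matrix). `cl (Q N a)` does not depend on `N`, `a`: `a' ≤ a`: EXA (1)
for `(lat N) M ≤ lat a ≤ lat a'` (`lat a' / lat a` is free of finite rank, LA1) and `add`, `free`; `N ≤ N'`: EXA (1) for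
`(lat N') M ≤ (lat N) M ≤ lat a` and EXA (2) (`(lat N) M / (lat N') M ≃ lat N / lat N'`, `rmul M` is injective). `φ ι M` = this value (`0` if `M` is not a unit).
`mul`: choose `N`, `a`, `b` with `(lat N) M1 ≤ lat a`, `(lat a) M2 ≤ lat b`: EXA (1) for `(lat N) M1 M2 ≤ (lat a) M2 ≤ lat b` and EXA (2) for
`rmul M2`: `cl = cl (Qt (lat b) ((lat a) M2)) + cl (Qt (lat a) ((lat N) M1))`. Blocks: `lat` for `ι ⊕ ι'` is the product, for `M ⊕ 1` and `a ≤ N`
the quotient is `Q N a × lat a / lat N`: `add`, `free`. The same for `1 ⊕ M`. KFI. -/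
def SpecIND : Prop :=
  ∀ (R Γ : Type) [Ring R] [Group Γ] (δ : Γ →* Multiplicative ℤ) (t : Γ),
    δ t = Multiplicative.ofAdd 1 → ∀ (K : Type) [AddCommGroup K]
    (cl : ∀ (P : Type) [AddCommGroup P] [Module (MonoidAlgebra R δ.ker) P], K),
    ClP (MonoidAlgebra R δ.ker) K cl →
    ∃ φ : ∀ (ι : Type) [Fintype ι], Matrix ι ι (MonoidAlgebra R Γ) → K, IsInd δ cl φ

/-- **QUN** (size 180, dep `SpecLA2`): the index of a matrix over a subgroup.

PROOF. The inverse `M'` of `M` is supported in `Γ0` (its part supported in `Γ0` is also an inverse). For `N = 0` and `a` small enough LA2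
gives `E` with entries in `Γ0`; `StF E` by hypothesis: `x y = E ⊕ 1_r`, `y x = 1_s` give `range E × S^r ≃ S^s`, so
`cl (range E) + 0 = 0`; `iso`. -/
def SpecQUN : Prop :=
  ∀ (R Γ : Type) [Ring R] [Group Γ] (δ : Γ →* Multiplicative ℤ) (t : Γ),
    δ t = Multiplicative.ofAdd 1 → ∀ (K : Type) [AddCommGroup K]
    (cl : ∀ (P : Type) [AddCommGroup P] [Module (MonoidAlgebra R δ.ker) P], K),
    ClP (MonoidAlgebra R δ.ker) K cl →
    ∀ φ : ∀ (ι : Type) [Fintype ι], Matrix ι ι (MonoidAlgebra R Γ) → K, IsInd δ cl φ →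
    ∀ Γ0 : Subgroup Γ, t ∈ Γ0 →
    (∀ (n : ℕ) (E : Matrix (Fin n) (Fin n) (MonoidAlgebra R δ.ker)),
      (∀ i j h, (E i j).coeff h ≠ 0 → (h : Γ) ∈ Γ0) → E * E = E → StF E) →
    ∀ (ι : Type) [Fintype ι] [DecidableEq ι] (M : Matrix ι ι (MonoidAlgebra R Γ)), IsUnit M →
      SuppIn (Γ0 : Set Γ) M → φ ι M = 0

/-- **QGR** (size 80): the index of a group element.

PROOF. `N = 0`, `a = δ g`: `(lat 0) g = lat (δ g)`, so the quotient has one element, `cl = cl (Fin 0 → S) = 0`. -/
def SpecQGR : Prop :=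
  ∀ (R Γ : Type) [Ring R] [Group Γ] (δ : Γ →* Multiplicative ℤ) (K : Type) [AddCommGroup K]
    (cl : ∀ (P : Type) [AddCommGroup P] [Module (MonoidAlgebra R δ.ker) P], K),
    ClP (MonoidAlgebra R δ.ker) K cl →
    ∀ φ : ∀ (ι : Type) [Fintype ι], Matrix ι ι (MonoidAlgebra R Γ) → K, IsInd δ cl φ →
    ∀ g : Γ, φ (Fin 1) (Matrix.diagonal fun _ => MonoidAlgebra.single g 1) = 0

/-- **QPP** (size 220; imports `UV/RES.lean`): the index of `1 - p + t p`.

PROOF. `M = 1 - em p + single t 1 • em p` is a unit with inverse `1 - em p + single t⁻¹ 1 • em p` (`t` is central). `(lat 0) M ≤ lat 0`. The map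
`ψ : lat 0 → S^ι`, `ψ x = (fun i => lres δ.ker 1 (x i)) ᵥ* p` (the part in degree `0`, times `p`) is linear with range `range p`
and kernel `(lat 0) M`: `x M⁻¹ = x (1 - p) + t⁻¹ x p` is in `lat 0` iff `x p ∈ lat 1` iff `ψ x = 0`. -/
def SpecQPP : Prop :=
  ∀ (R Γ : Type) [Ring R] [Group Γ] (δ : Γ →* Multiplicative ℤ) (t : Γ),
    δ t = Multiplicative.ofAdd 1 → (∀ g : Γ, t * g = g * t) → ∀ (K : Type) [AddCommGroup K]
    (cl : ∀ (P : Type) [AddCommGroup P] [Module (MonoidAlgebra R δ.ker) P], K),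
    ClP (MonoidAlgebra R δ.ker) K cl →
    ∀ φ : ∀ (ι : Type) [Fintype ι], Matrix ι ι (MonoidAlgebra R Γ) → K, IsInd δ cl φ →
    ∀ (ι : Type) [Fintype ι] [DecidableEq ι] (p : Matrix ι ι (MonoidAlgebra R δ.ker)), p * p = p →
      IsUnit (1 - em δ.ker p + (MonoidAlgebra.single t 1 : MonoidAlgebra R Γ) • em δ.ker p) ∧
      φ ι (1 - em δ.ker p + (MonoidAlgebra.single t 1 : MonoidAlgebra R Γ) • em δ.ker p) =
        cl (LinearMap.range (Matrix.vecMulLinear p))

/-- **BHS** (size 280, deps `SpecKPR`, `SpecIND`, `SpecQUN`, `SpecQGR`, `SpecQPP`, `SpecDGK`): `K_0` from `K_1`.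

PROOF. Let `p` be an idempotent matrix over `R[H × Z^m]`. `Γ = H × Zm (m + 1)`, `δ (h, z) = z (last)`, `t = (1, e_last)` (central),
`δ.ker ≅ H × Zm m` (`(h, z) ↦ (h, z extended by 0)`); let `p'` be the matrix over `R[δ.ker]` which corresponds to `p`. KPR for
`S = R[δ.ker]`, IND: `φ`. `PrK R H` for `m + 1`, `κ = φ`, `N = ⊥`: (i) QUN with `Γ0 = {g | g.1 = 1}` (a subgroup, `t ∈ Γ0`): an idempotent matrix
over `R[δ.ker]` with support in `Γ0` comes from `R[Zm m]` (the elements of `δ.ker ∩ Γ0` are the `(1, z)`, `z (last) = 0`), `SFR`.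
(ii) diagonal matrices: DGK with `U = {single g 1}`, QGR. So `φ = 0` on all units, so by QPP `cl (range p') = 0`; `zero` gives
`range p' × S^r ≃ S^s`, so matrices `x`, `y` with `x y = p' ⊕ 1_r`, `y x = 1_s`: `StF p'`, and `StF p` by the isomorphism. -/
def SpecBHS : Prop :=
  ∀ (R H : Type) [Ring R] [Group H], SFR R → PrK R H → StR R H

/-- **PEQ** (size 220, deps `SpecKCL`, `SpecKIN`, `SpecDGK`): the two forms of the property.

PROOF. (→) For a `KF` `κ` the map `⟨n, u⟩ ↦ κ (Fin n) u` respects `RelA`: `mul`; `block`: KCL (2) and `GlueM.kf_reindex` (`finSumFinEquiv`). So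
there is a homomorphism `D1.Grp .. → K` which maps the two sets of generators into `N`; so `κ (Fin n) u ∈ N` for all `u`; general
index types by `kf_reindex`. (←) `κ` of KIN, `N` = the closure: a unit `M` with support in `{g | g.1 = 1}` over `ι` is reindexed to `Fin n`;
diagonal matrices: DGK. Then all `cls ⟨n, u⟩` are in `N`: `GlueM.closure_cls`. -/
def SpecPEQ : Prop :=
  ∀ (R G : Type) [Ring R] [Group G], WhR R G ↔ PrK R G

/-- THEOREM C. -/
def SpecCLO : Prop :=
  ∀ (R G V : Type) [Ring R] [Group G] [MulAction G V] (T : SimpleGraph V) (v w : V) (k : ℕ),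
    TrH G T v w → SFR R → WhR R ↥(MulAction.stabilizer G v) → WhR R ↥(MulAction.stabilizer G w) →
    WhR R ↥(MulAction.stabilizer G v ⊓ MulAction.stabilizer G w) →
    (∀ (m : ℕ) (x y : V), k ≤ T.dist x y → T.dist x y = T.dist x v + 1 + T.dist w y →
      RegCoh (MonoidAlgebra R
        (↥(MulAction.stabilizer G x ⊓ MulAction.stabilizer G y) × Zm m))) →
    WhR R G ∧ StR R G

end Pool.Agent.Lib.MPb6f35e.KN
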