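import Pool.Agent.Lib.MP_b6f35e_al.KN.Good
import Pool.Agent.Lib.MP_b6f35e_al.KN.SpecC

/-! Module CLO (helper23): the closure theorem for the vanishing of Whitehead groups. -/

namespace Pool.Agent.Lib.MPb6f35e.KN

open Matrix
open Pool.Agent.Lib.MP8a3537.UV (emb res lres SuppIn)
open Pool.Agent.Lib.MP8a3537.ROK (TM)

namespace CloM

/-- Long segments are good, so the segments of length two are good. -/
theorem gd_of_seg (hBGE : SpecBGE) (hEGE : SpecEGE) {R G V : Type} [Ring R] [Group G]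
    [MulAction G V] {T : SimpleGraph V} {v w : V} {k : ℕ} (hT : TrH G T v w)
    (hk : ∀ x y : V, k ≤ T.dist x y → T.dist x y = T.dist x v + 1 + T.dist w y →
      RegCoh (MonoidAlgebra R ↥(MulAction.stabilizer G x ⊓ MulAction.stabilizer G y))) :
    ∀ s t, ∀ g ∈ Let G v w s t, Gd R G T.dist (en v w s).1 (g • (en v w t).2) := by
  intro s t g hg
  have hTM : TM G (V := V) T.dist :=
    Pool.Agent.Lib.MP8a3537.ROK.specFPT G V T hT.tree hT.act
  have hd : T.dist v w = 1 := SimpleGraph.dist_eq_one_iff_adj.mpr hT.adj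
  have hgeo := hEGE G V T v w hT.tree hT.act hT.adj hT.inv
  obtain ⟨-, h2, -⟩ := hBGE G V Bool T.dist hTM _ _ _ _ hgeo s t g hg
  let P : V → V → Prop := fun x y =>
    T.dist x y = T.dist x v + 1 + T.dist w y ∨ T.dist x y = T.dist x w + 1 + T.dist v y
  have hPe : ∀ x y z, P x y → Btw T.dist x y z → P x z := by
    intro x y z hP hB
    have hB' : T.dist x z = T.dist x y + T.dist y z := hB
    rcases hP with hP | hP
    · left
      have t1 := hTM.tri w y z
      have t2 := hTM.tri x v z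
      have t3 := hTM.tri v w z
      omega
    · right
      have t1 := hTM.tri v y z
      have t2 := hTM.tri x w z
      have t3 := hTM.tri w v z
      have t4 := hTM.cm w v
      omega
  refine GoodM.gd_of_long hTM (P := P) k hPe ?_ k _ _ (Nat.le_add_left _ _) (hPe _ _ _ ?_ h2)
  · intro x y hxy hP
    rcases hP with hP | hP
    · exact hk x y hxy hP
    · have h1 : T.dist y x = T.dist y v + 1 + T.dist w x := by
        rw [T.dist_comm (u := y) (v := x), T.dist_comm (u := y) (v := v),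
          T.dist_comm (u := w) (v := x), hP]
        omega
      have h3 := hk y x (by rw [T.dist_comm]; exact hxy) h1
      rw [inf_comm]
      exact h3
  · cases s
    · right
      show T.dist w v = T.dist w w + 1 + T.dist v v
      rw [SimpleGraph.dist_self, SimpleGraph.dist_self, T.dist_comm, hd]
    · left
      show T.dist v w = T.dist v v + 1 + T.dist w w
      rw [SimpleGraph.dist_self, SimpleGraph.dist_self, hd]

/-- The classes of the nilpotent matrices vanish, for all functions like `K_1`. -/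
theorem nil_of_gd (hELK : SpecELK) (hBLT : SpecBLT) (hBGE : SpecBGE) (hEGE : SpecEGE)
    (hETD : SpecETD) (hBAS : SpecBAS) {R G V K : Type} [Ring R] [Group G] [MulAction G V]
    [AddCommGroup K] {κ : ∀ (ι : Type) [Fintype ι], Matrix ι ι (MonoidAlgebra R G) → K}
    (hκ : KF κ) {T : SimpleGraph V} {v w : V} (hT : TrH G T v w)
    (hgd : ∀ s t, ∀ g ∈ Let G v w s t, Gd R G T.dist (en v w s).1 (g • (en v w t).2)) :
    ∀ (ι : Type) [Fintype ι] [DecidableEq ι] (τ : ι → Bool)
      (ν : Matrix ι ι (MonoidAlgebra R G)), Ty (Let G v w) τ ν → IsNilpotent ν →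
      κ ι (1 + ν) = 0 := by
  intro ι _ _ τ ν h1 h2
  have hTM : TM G (V := V) T.dist :=
    Pool.Agent.Lib.MP8a3537.ROK.specFPT G V T hT.tree hT.act
  obtain ⟨Y, hY⟩ := hETD G V T v w hT.tree hT.act hT.adj hT.inv
  have hgeo := hEGE G V T v w hT.tree hT.act hT.adj hT.inv
  have hvan : ∀ s t, ∀ g ∈ Let G v w s t, Van κ (BL (MulAction.stabilizer G v ⊓
      MulAction.stabilizer G w) (Let G v w) s t g) := by
    intro s t g hg
    obtain ⟨h1, -, -⟩ := hBGE G V Bool T.dist hTM _ _ _ _ hgeo s t g hg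
    exact GoodM.van_of_gd hELK hBLT hBGE hBAS hκ hTM (hgd s t g hg) _ _ _
      (hBLT G Bool _ _ Y hY s t g hg) h1
  exact hELK R G K Bool κ hκ _ _ Y hY hvan ι τ ν h1 h2

/-- The stabilizers in `G × Z^m`. -/
def stEquiv {G V : Type} [Group G] [MulAction G V] (Z : Type) [Group Z] [MulAction (G × Z) V]
    (hact : ∀ (g : G × Z) (x : V), g • x = g.1 • x) (x y : V) :
    (↥(MulAction.stabilizer G x ⊓ MulAction.stabilizer G y) × Z) ≃*
      ↥(MulAction.stabilizer (G × Z) x ⊓ MulAction.stabilizer (G × Z) y) where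
  toFun a := ⟨(a.1.val, a.2), by
    obtain ⟨⟨g, hg⟩, z⟩ := a
    rw [Subgroup.mem_inf, MulAction.mem_stabilizer_iff, MulAction.mem_stabilizer_iff] at hg ⊢
    rw [hact, hact]
    exact hg⟩
  invFun b := (⟨b.val.1, by
    obtain ⟨⟨g, z⟩, hg⟩ := b
    rw [Subgroup.mem_inf, MulAction.mem_stabilizer_iff, MulAction.mem_stabilizer_iff] at hg ⊢
    rw [hact, hact] at hg
    exact hg⟩, b.val.2)
  left_inv _ := rfl
  right_inv _ := rfl
  map_mul' _ _ := rfl

end CloM

open CloM in
theorem specCLO (hELK : SpecELK) (hBLT : SpecBLT) (hBGE : SpecBGE) (hEGE : SpecEGE)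
    (hETD : SpecETD) (hBAS : SpecBAS) (hFNW : SpecFNW) (hPEQ : SpecPEQ) (hPSB : SpecPSB)
    (hSSB : SpecSSB) (hBHS : SpecBHS) (hSTG : SpecSTG) (hRCX : SpecRCX) : SpecCLO := by
  intro R G V _ _ _ T v w k hT hSF hWv hWw hWe hreg
  have pv := (hPEQ _ _).1 hWv
  have pw := (hPEQ _ _).1 hWw
  have se : StR R ↥(MulAction.stabilizer G v ⊓ MulAction.stabilizer G w) :=
    hBHS _ _ hSF ((hPEQ _ _).1 hWe)
  have hP : PrK R G := by
    intro m K _ κ hκ N hN1 hN2
    letI act : MulAction (G × Zm m) V := MulAction.compHom V (MonoidHom.fst G (Zm m))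
    have hact : ∀ (g : G × Zm m) (x : V), g • x = g.1 • x := fun _ _ => rfl
    have hT' : TrH (G × Zm m) T v w := by
      refine ⟨hT.tree, fun g x y h => hT.act g.1 x y h, hT.adj, fun g => hT.inv g.1, ?_⟩
      intro x y h
      obtain ⟨g, hg⟩ := hT.one x y h
      exact ⟨(g, 1), hg⟩
    have hgd := gd_of_seg (R := R) (k := k) hBGE hEGE hT' (fun x y h1 h2 =>
      hRCX _ _ (MonoidAlgebra.mapDomainRingEquiv R (stEquiv (Zm m) hact x y)) (hreg m x y h1 h2))
    have hnil := nil_of_gd hELK hBLT hBGE hEGE hETD hBAS hκ hT' hgd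
    refine hFNW R (G × Zm m) V K κ hκ T v w hT' hnil N ?_
    intro ι _ _ B hB hgl
    refine hSTG R (G × Zm m) V K κ hκ v w N hT.adj.ne ?_ ?_ hN2 ?_ ι B hB hgl
    · intro ι _ _ M hM hS
      exact hPSB R G (MulAction.stabilizer G v) pv m K κ hκ N hN1 hN2 ι M hM hS
    · intro ι _ _ M hM hS
      exact hPSB R G (MulAction.stabilizer G w) pw m K κ hκ N hN1 hN2 ι M hM hS
    · intro ι _ _ p hp hpp
      exact hSSB R G (MulAction.stabilizer G v ⊓ MulAction.stabilizer G w) se m ι p hp hpp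
  exact ⟨(hPEQ _ _).2 hP, hBHS _ _ hSF hP⟩

end Pool.Agent.Lib.MPb6f35e.KN
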