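import Pool.Agent.Lib.MP_b6f35e_al.KN.VGL
import Pool.Agent.Lib.MP_b6f35e_al.KN.CLO
import Pool.Agent.Lib.MP_8a3537_gt.ROK.TFA

/-! Module CLL (helper23): Theorem L from its modules. -/

namespace Pool.Agent.Lib.MPb6f35e.KN

open Matrix
open Pool.Agent.Lib.MP8a3537.UV (emb res lres SuppIn)
open Pool.Agent.Lib.MP8a3537.ROK (TM)

namespace CllM

/-- The line condition in `G × Z^m`. -/
theorem lnV_of (hDGR : SpecDGR) (hLIN : SpecLIN) {R G V : Type} [Ring R] [Group G] [MulAction G V]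
    {d : V → V → ℕ} (hTM : TM G d) (m : ℕ) [MulAction (G × Zm m) V]
    (hact : ∀ (g : G × Zm m) (x : V), g • x = g.1 • x) {x y : V} (hxy : x ≠ y) (u : G × Zm m)
    (c1 : u.1 • x ≠ x) (c2 : Btw d x y (u.1 • y)) (c3 : Btw d x (u.1 • x) (u.1 • y))
    (hu : u.1 ∈ StL (MulAction.stabilizer G x ⊓ MulAction.stabilizer G y))
    (hP : PrK R ↥(lnG (MulAction.stabilizer G x ⊓ MulAction.stabilizer G y) u.1)) :
    LnV R (MulAction.stabilizer (G × Zm m) x ⊓ MulAction.stabilizer (G × Zm m) y) u := by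
  intro K _ κ hκ ι _ _ ν hν hnil
  obtain ⟨deg, h1, h2⟩ := hDGR G V d hTM x y u.1 hxy c1 c2 c3 hu
  refine hLIN R G _ deg hP m K κ hκ ι ν ?_ hnil
  intro i j g hg
  obtain ⟨h, hh, e⟩ := hν i j g hg
  rw [Subgroup.mem_inf, MulAction.mem_stabilizer_iff, MulAction.mem_stabilizer_iff, hact, hact]
    at hh
  have hK : h.1 ∈ MulAction.stabilizer G x ⊓ MulAction.stabilizer G y := by
    rw [Subgroup.mem_inf, MulAction.mem_stabilizer_iff, MulAction.mem_stabilizer_iff]
    exact hh
  have m1 : u.1 ∈ lnG (MulAction.stabilizer G x ⊓ MulAction.stabilizer G y) u.1 :=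
    Subgroup.subset_closure (Or.inr rfl)
  have m2 : h.1 ∈ lnG (MulAction.stabilizer G x ⊓ MulAction.stabilizer G y) u.1 :=
    Subgroup.subset_closure (Or.inl hK)
  refine ⟨⟨u.1, m1⟩ * ⟨h.1, m2⟩, ?_, ?_⟩
  · rw [map_mul, h2 _ rfl, h1 _ hK, mul_one]
  · rw [e]
    rfl

/-- Stabilizers in `G`, the strict inclusion. -/
theorem stab_lt {G V : Type} [Group G] [MulAction G V] {d : V → V → ℕ} (hTM : TM G d) {x y : V}
    (g : G) (c2 : Btw d x y (g • y)) (c3 : Btw d x (g • x) (g • y))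
    (hg : g ∉ StL (MulAction.stabilizer G x ⊓ MulAction.stabilizer G y)) :
    MulAction.stabilizer G x ⊓ MulAction.stabilizer G (g • y) <
      MulAction.stabilizer G x ⊓ MulAction.stabilizer G y := by
  have tfa := (Pool.Agent.Lib.MP8a3537.ROK.specTFA G V d hTM).1
  have hle : MulAction.stabilizer G x ⊓ MulAction.stabilizer G (g • y) ≤
      MulAction.stabilizer G x ⊓ MulAction.stabilizer G y := by
    intro h hh
    rw [Subgroup.mem_inf, MulAction.mem_stabilizer_iff, MulAction.mem_stabilizer_iff] at hh ⊢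
    exact ⟨hh.1, tfa h x y (g • y) c2 hh.1 hh.2⟩
  refine lt_of_le_of_ne hle fun e => hg ?_
  intro h hh
  rw [← e] at hh
  have hh' := hh
  rw [Subgroup.mem_inf, MulAction.mem_stabilizer_iff, MulAction.mem_stabilizer_iff] at hh' ⊢
  have h3 : h • (g • x) = g • x := tfa h x (g • x) (g • y) c3 hh'.1 hh'.2
  constructor
  · rw [mul_smul, mul_smul, h3, inv_smul_smul]
  · rw [mul_smul, mul_smul, hh'.2, inv_smul_smul]

/-- All segments are good. -/
theorem gdL_all (hDGR : SpecDGR) (hLIN : SpecLIN) (hPEQ : SpecPEQ) (hRCX : SpecRCX)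
    {R G V : Type} [Ring R] [Group G] [MulAction G V] {d : V → V → ℕ} (hTM : TM G d)
    (hln : ∀ (x y : V) (g : G), x ≠ y → g • x ≠ x → d x (g • y) = d x y + d y (g • y) →
      d x (g • y) = d x (g • x) + d (g • x) (g • y) →
      (∀ h ∈ MulAction.stabilizer G x ⊓ MulAction.stabilizer G y,
        g⁻¹ * h * g ∈ MulAction.stabilizer G x ⊓ MulAction.stabilizer G y) →
      WhR R ↥(lnG (MulAction.stabilizer G x ⊓ MulAction.stabilizer G y) g) ∨
      ∀ m : ℕ, RegCoh (MonoidAlgebra R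
        (↥(MulAction.stabilizer G x ⊓ MulAction.stabilizer G y) × Zm m)))
    (m : ℕ)
    (hch : ∀ (x : V) (y : ℕ → V),
      (∀ i, d x (y (i + 1)) = d x (y i) + d (y i) (y (i + 1))) →
      (∀ i, MulAction.stabilizer G x ⊓ MulAction.stabilizer G (y (i + 1)) <
        MulAction.stabilizer G x ⊓ MulAction.stabilizer G (y i)) →
      ∃ i, RegCoh (MonoidAlgebra R
        (↥(MulAction.stabilizer G x ⊓ MulAction.stabilizer G (y i)) × Zm m)))
    [MulAction (G × Zm m) V] (hact : ∀ (g : G × Zm m) (x : V), g • x = g.1 • x) (x y : V)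
    (hxy : x ≠ y) : GdL R (G × Zm m) d x y := by
  have toG : ∀ y : V, RegCoh (MonoidAlgebra R
      (↥(MulAction.stabilizer G x ⊓ MulAction.stabilizer G y) × Zm m)) →
      GdL R (G × Zm m) d x y := fun y h =>
    GdL.reg (hRCX _ _ (MonoidAlgebra.mapDomainRingEquiv R (CloM.stEquiv (Zm m) hact x y)) h)
  have stS : ∀ (y : V) (g : G × Zm m),
      g ∈ StL (MulAction.stabilizer (G × Zm m) x ⊓ MulAction.stabilizer (G × Zm m) y) ↔
      g.1 ∈ StL (MulAction.stabilizer G x ⊓ MulAction.stabilizer G y) := by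
    intro y g
    constructor
    · intro h a ha
      have h1 : (a, (1 : Zm m)) ∈
          MulAction.stabilizer (G × Zm m) x ⊓ MulAction.stabilizer (G × Zm m) y := by
        rw [Subgroup.mem_inf, MulAction.mem_stabilizer_iff, MulAction.mem_stabilizer_iff] at ha ⊢
        rw [hact, hact]
        exact ha
      have h2 := h _ h1
      rw [Subgroup.mem_inf, MulAction.mem_stabilizer_iff, MulAction.mem_stabilizer_iff, hact,
        hact] at h2
      rw [Subgroup.mem_inf, MulAction.mem_stabilizer_iff, MulAction.mem_stabilizer_iff]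
      exact h2
    · intro h a ha
      have h1 : a.1 ∈ MulAction.stabilizer G x ⊓ MulAction.stabilizer G y := by
        rw [Subgroup.mem_inf, MulAction.mem_stabilizer_iff, MulAction.mem_stabilizer_iff] at ha ⊢
        rw [hact, hact] at ha
        exact ha
      have h2 := h _ h1
      rw [Subgroup.mem_inf, MulAction.mem_stabilizer_iff, MulAction.mem_stabilizer_iff, hact,
        hact]
      rw [Subgroup.mem_inf, MulAction.mem_stabilizer_iff, MulAction.mem_stabilizer_iff] at h2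
      exact h2
  have key : ∀ z : {z : V // x ≠ z ∧ ¬ GdL R (G × Zm m) d x z},
      ∃ z' : {z : V // x ≠ z ∧ ¬ GdL R (G × Zm m) d x z},
        d x z'.1 = d x z.1 + d z.1 z'.1 ∧
        MulAction.stabilizer G x ⊓ MulAction.stabilizer G z'.1 <
          MulAction.stabilizer G x ⊓ MulAction.stabilizer G z.1 := by
    rintro ⟨z, hz, hn⟩
    by_contra hcon
    refine hn (GdL.step ?_ ?_)
    · intro g c1 c2 c3 hg
      rw [hact] at c1 c2 c3
      rw [hact] at c3
      have hg' := (stS z g).1 hg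
      rcases hln x z g.1 hz c1 c2 c3 hg' with h | h
      · exact lnV_of hDGR hLIN hTM m hact hz g c1 c2 c3 hg' ((hPEQ _ _).1 h)
      · exact absurd (toG z (h m)) hn
    · intro g c1 c2 c3 hg
      by_contra hn'
      rw [hact] at c1 c2 c3 hn'
      rw [hact] at c3
      have hg' : g.1 ∉ StL (MulAction.stabilizer G x ⊓ MulAction.stabilizer G z) :=
        fun h => hg ((stS z g).2 h)
      have hne : x ≠ g.1 • z := by
        intro e
        have h0 : d x (g.1 • z) = 0 := (hTM.d0 _ _).2 e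
        have h1 : d x z = 0 := by
          have : d x (g.1 • z) = d x z + d z (g.1 • z) := c2
          omega
        exact hz ((hTM.d0 _ _).1 h1)
      exact hcon ⟨⟨g.1 • z, hne, hn'⟩, c2, stab_lt hTM g.1 c2 c3 hg'⟩
  by_contra hn
  choose f hf1 hf2 using key
  let s : ℕ → {z : V // x ≠ z ∧ ¬ GdL R (G × Zm m) d x z} := fun n => f^[n] ⟨y, hxy, hn⟩
  have hs : ∀ n, s (n + 1) = f (s n) := fun n => Function.iterate_succ_apply' f n _
  obtain ⟨i, hi⟩ := hch x (fun n => (s n).1) (fun n => by rw [hs n]; exact hf1 _)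
    (fun n => by rw [hs n]; exact hf2 _)
  exact (s i).2.2 (toG _ hi)

end CllM

open CloM CllM VGLM in
theorem specCLL (hELK : SpecELK) (hBLT : SpecBLT) (hBGE : SpecBGE) (hEGE : SpecEGE)
    (hETD : SpecETD) (hBAS : SpecBAS) (hFNW : SpecFNW) (hPEQ : SpecPEQ) (hPSB : SpecPSB)
    (hSSB : SpecSSB) (hBHS : SpecBHS) (hSTG : SpecSTG) (hRCX : SpecRCX) (hELU : SpecELU)
    (hLZE : SpecLZE) (hWRD : SpecWRD) (hLIN : SpecLIN) (hDGR : SpecDGR) : SpecCLL := by
  intro R G V _ _ _ T v w hT hSF hWv hWw hWe hln hch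
  have pv := (hPEQ _ _).1 hWv
  have pw := (hPEQ _ _).1 hWw
  have se : StR R ↥(MulAction.stabilizer G v ⊓ MulAction.stabilizer G w) :=
    hBHS _ _ hSF ((hPEQ _ _).1 hWe)
  have hTM : TM G (V := V) T.dist :=
    Pool.Agent.Lib.MP8a3537.ROK.specFPT G V T hT.tree hT.act
  have hP : PrK R G := by
    intro m K _ κ hκ N hN1 hN2
    let act : MulAction (G × Zm m) V := MulAction.compHom V (MonoidHom.fst G (Zm m))
    have hact : ∀ (g : G × Zm m) (x : V), g • x = g.1 • x := fun _ _ => rfl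
    have hT' : TrH (G × Zm m) T v w := by
      refine ⟨hT.tree, fun g x y h => hT.act g.1 x y h, hT.adj, fun g => hT.inv g.1, ?_⟩
      intro x y h
      obtain ⟨g, hg⟩ := hT.one x y h
      exact ⟨(g, 1), hg⟩
    have hgd : ∀ x y : V, x ≠ y → GdL R (G × Zm m) T.dist x y := fun x y hxy =>
      gdL_all hDGR hLIN hPEQ hRCX hTM hln m (hch m) hact x y hxy
    have hnil := nil_of_gdL hELK hELU hLZE hWRD hBLT hBGE hEGE hETD hBAS hκ hT' hgd
    refine hFNW R (G × Zm m) V K κ hκ T v w hT' hnil N ?_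
    intro ι _ _ B hB hgl
    refine hSTG R (G × Zm m) V K κ hκ v w N hT.adj.ne ?_ ?_ hN2 ?_ ι B hB hgl
    · intro ι _ _ M hM hS
      exact hPSB R G (MulAction.stabilizer G v) pv m K κ hκ N hN1 hN2 ι M hM hS
    · intro ι _ _ M hM hS
      exact hPSB R G (MulAction.stabilizer G w) pw m K κ hκ N hN1 hN2 ι M hM hS
    · intro ι _ _ p hp hpp
      exact hSSB R G (MulAction.stabilizer G v ⊓ MulAction.stabilizer G w) se m ι p hp hpp
  exact ⟨(hPEQ _ _).2 hP, hBHS _ _ hSF hP⟩

end Pool.Agent.Lib.MPb6f35e.KN
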