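import Pool.Agent.Lib.MP_b6f35e_al.KN.CLL

/-! Module CLM (helper23): Theorem L, for the edge group only the projective modules matter. -/

namespace Pool.Agent.Lib.MPb6f35e.KN

open Matrix
open Pool.Agent.Lib.MP8a3537.UV (emb res lres SuppIn)
open Pool.Agent.Lib.MP8a3537.ROK (TM)

/-- THEOREM L, final form. -/
def SpecCLM : Prop :=
  ∀ (R G V : Type) [Ring R] [Group G] [MulAction G V] (T : SimpleGraph V) (v w : V),
    TrH G T v w → WhR R ↥(MulAction.stabilizer G v) → WhR R ↥(MulAction.stabilizer G w) →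
    StR R ↥(MulAction.stabilizer G v ⊓ MulAction.stabilizer G w) →
    (∀ (x y : V) (g : G), x ≠ y → g • x ≠ x → T.dist x (g • y) = T.dist x y + T.dist y (g • y) →
      T.dist x (g • y) = T.dist x (g • x) + T.dist (g • x) (g • y) →
      (∀ h ∈ MulAction.stabilizer G x ⊓ MulAction.stabilizer G y,
        g⁻¹ * h * g ∈ MulAction.stabilizer G x ⊓ MulAction.stabilizer G y) →
      WhR R ↥(lnG (MulAction.stabilizer G x ⊓ MulAction.stabilizer G y) g) ∨
      ∀ m : ℕ, RegCoh (MonoidAlgebra R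
        (↥(MulAction.stabilizer G x ⊓ MulAction.stabilizer G y) × Zm m))) →
    (∀ (m : ℕ) (x : V) (y : ℕ → V),
      (∀ i, T.dist x (y (i + 1)) = T.dist x (y i) + T.dist (y i) (y (i + 1))) →
      (∀ i, MulAction.stabilizer G x ⊓ MulAction.stabilizer G (y (i + 1)) <
        MulAction.stabilizer G x ⊓ MulAction.stabilizer G (y i)) →
      ∃ i, RegCoh (MonoidAlgebra R
        (↥(MulAction.stabilizer G x ⊓ MulAction.stabilizer G (y i)) × Zm m))) →
    WhR R G ∧ StR R G

namespace ClmM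

/-- Stably free idempotent matrices under homomorphisms of rings. -/
theorem stF_map {S S' : Type} [Ring S] [Ring S'] (f : S →+* S') {ι : Type} [Fintype ι]
    [DecidableEq ι] {p : Matrix ι ι S} (h : StF p) : StF (p.map f) := by
  obtain ⟨r, s, x, y, h1, h2⟩ := h
  refine ⟨r, s, x.map f, y.map f, ?_, ?_⟩
  · rw [← Matrix.map_mul, h1, Matrix.fromBlocks_map]
    congr 1
    · exact Matrix.map_zero _ (map_zero f)
    · exact Matrix.map_zero _ (map_zero f)
    · exact Matrix.map_one _ (map_zero f) (map_one f)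
  · rw [← Matrix.map_mul, h2]
    exact Matrix.map_one _ (map_zero f) (map_one f)

/-- `StR` for a group implies `SFR`. -/
theorem sfr_of_stR {R H : Type} [Ring R] [Group H] (h : StR R H) : SFR R := by
  intro m ι _ _ p hp
  let a : MonoidAlgebra R (Zm m) →+* MonoidAlgebra R (H × Zm m) :=
    MonoidAlgebra.mapDomainRingHom R (MonoidHom.inr H (Zm m))
  let b : MonoidAlgebra R (H × Zm m) →+* MonoidAlgebra R (Zm m) :=
    MonoidAlgebra.mapDomainRingHom R (MonoidHom.snd H (Zm m))
  have hab : ∀ x, b (a x) = x := by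
    intro x
    have e : b.comp a = RingHom.id _ := by
      show (MonoidAlgebra.mapDomainRingHom R (MonoidHom.snd H (Zm m))).comp
        (MonoidAlgebra.mapDomainRingHom R (MonoidHom.inr H (Zm m))) = RingHom.id _
      rw [← MonoidAlgebra.mapDomainRingHom_comp, MonoidHom.snd_comp_inr]
      exact MonoidAlgebra.mapDomainRingHom_id
    exact congrArg (fun f : MonoidAlgebra R (Zm m) →+* MonoidAlgebra R (Zm m) => f x) e
  have h1 : StF ((p.map a).map b) :=
    stF_map b (h m ι (p.map a) (by rw [← Matrix.map_mul, hp]))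
  have h2 : (p.map a).map b = p := by
    ext1 i j
    exact hab _
  rwa [h2] at h1

end ClmM

open CloM CllM VGLM ClmM in
theorem specCLM (hELK : SpecELK) (hBLT : SpecBLT) (hBGE : SpecBGE) (hEGE : SpecEGE)
    (hETD : SpecETD) (hBAS : SpecBAS) (hFNW : SpecFNW) (hPEQ : SpecPEQ) (hPSB : SpecPSB)
    (hSSB : SpecSSB) (hBHS : SpecBHS) (hSTG : SpecSTG) (hRCX : SpecRCX) (hELU : SpecELU)
    (hLZE : SpecLZE) (hWRD : SpecWRD) (hLIN : SpecLIN) (hDGR : SpecDGR) : SpecCLM := by
  intro R G V _ _ _ T v w hT hWv hWw se hln hch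
  have pv := (hPEQ _ _).1 hWv
  have pw := (hPEQ _ _).1 hWw
  have hTM : TM G (V := V) T.dist :=
    Pool.Agent.Lib.MP8a3537.ROK.specFPT G V T hT.tree hT.act
  have hP : PrK R G := by
    intro m K _ κ hκ N hN1 hN2
    let act : MulAction (G × Zm m) V := MulAction.compHom V (MonoidHom.fst G (Zm m))
    have hact : ∀ (g : G × Zm m) (x : V), g • x = g.1 • x := fun _ _ => rfl
    have hT' : TrH (G × Zm m) T v w := by
      refine ⟨hT.tree, fun g x y h => hT.act g.1 x y h, hT.adj, fun g => hT.inv g.1, ?_⟩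
      intro x y h
      obtain ⟨g, hg⟩ := hT.one x y h
      exact ⟨(g, 1), hg⟩
    have hgd : ∀ x y : V, x ≠ y → GdL R (G × Zm m) T.dist x y := fun x y hxy =>
      gdL_all hDGR hLIN hPEQ hRCX hTM hln m (hch m) hact x y hxy
    have hnil := nil_of_gdL hELK hELU hLZE hWRD hBLT hBGE hEGE hETD hBAS hκ hT' hgd
    refine hFNW R (G × Zm m) V K κ hκ T v w hT' hnil N ?_
    intro ι _ _ B hB hgl
    refine hSTG R (G × Zm m) V K κ hκ v w N hT.adj.ne ?_ ?_ hN2 ?_ ι B hB hgl
    · intro ι _ _ M hM hS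
      exact hPSB R G (MulAction.stabilizer G v) pv m K κ hκ N hN1 hN2 ι M hM hS
    · intro ι _ _ M hM hS
      exact hPSB R G (MulAction.stabilizer G w) pw m K κ hκ N hN1 hN2 ι M hM hS
    · intro ι _ _ p hp hpp
      exact hSSB R G (MulAction.stabilizer G v ⊓ MulAction.stabilizer G w) se m ι p hp hpp
  exact ⟨(hPEQ _ _).2 hP, hBHS _ _ (sfr_of_stR se) hP⟩

end Pool.Agent.Lib.MPb6f35e.KN
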