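import Pool.Agent.Lib.MP_b6f35e_al.KN.Spec

set_option autoImplicit false

/-!
# KN, module CNK: the cone resolves the quotient (helper21)
-/

namespace Pool.Agent.Lib.MPb6f35e.KN

open Matrix

namespace CNKM

variable {S : Type} [Ring S]

theorem exists_of_vecMul {I J : Type} [Fintype I] {v : I → S} {M : Matrix I J S} {i : J}
    (h : (v ᵥ* M) i ≠ 0) : ∃ j, v j ≠ 0 ∧ M j i ≠ 0 := by
  by_contra hc
  push Not at hc
  apply h
  show ∑ j, v j * M j i = 0
  refine Finset.sum_eq_zero fun j _ => ?_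
  by_cases hv : v j = 0
  · rw [hv, zero_mul]
  · rw [hc j hv, mul_zero]

variable {C D : PC S} {f : Matrix D.I C.I S} (hf : CM D C f)

theorem vp (x : C.I ⊕ D.I → S) :
    @Matrix.vecMul (cone D C f hf).I (cone D C f hf).I S _ (cone D C f hf).fI x
      (cone D C f hf).p = Sum.elim ((x ∘ Sum.inl) ᵥ* C.p) ((x ∘ Sum.inr) ᵥ* D.p) := by
  have h : x ᵥ* fromBlocks C.p 0 0 D.p =
      Sum.elim ((x ∘ Sum.inl) ᵥ* C.p) ((x ∘ Sum.inr) ᵥ* D.p) := by
    rw [vecMul_fromBlocks]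
    simp
  exact h

theorem ve (x : C.I ⊕ D.I → S) :
    @Matrix.vecMul (cone D C f hf).I (cone D C f hf).I S _ (cone D C f hf).fI x
      (cone D C f hf).e =
      Sum.elim ((x ∘ Sum.inl) ᵥ* C.e + (x ∘ Sum.inr) ᵥ* f) (-((x ∘ Sum.inr) ᵥ* D.e)) := by
  have h : x ᵥ* fromBlocks C.e 0 f (-D.e) =
      Sum.elim ((x ∘ Sum.inl) ᵥ* C.e + (x ∘ Sum.inr) ᵥ* f) (-((x ∘ Sum.inr) ᵥ* D.e)) := by
    rw [vecMul_fromBlocks]
    simp [vecMul_neg]
  exact h

theorem elim_eq {I J : Type} {a : I → S} {b : J → S} {x : I ⊕ J → S}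
    (h : Sum.elim a b = x) : a = x ∘ Sum.inl ∧ b = x ∘ Sum.inr := by
  subst h
  exact ⟨rfl, rfl⟩

end CNKM

open CNKM

theorem specCNK : SpecCNK := by
  intro S _ C D N Q _ _ _ _ θ pi rho f hf hθ hpi hrho hcomp
  have hcomp0 : ∀ x, θ (pi (x ᵥ* f)) = 0 := by
    intro x
    rw [hcomp]
    exact (rho x).2
  refine ⟨(θ ∘ₗ pi) ∘ₗ (LinearMap.funLeft S S (Sum.inl : C.I → C.I ⊕ D.I)), fun x => rfl,
    ?_, ?_, ?_, ?_, ?_, ?_⟩
  · -- low
    intro x h
    show θ (pi (x ∘ Sum.inl)) = 0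
    rw [hpi.low (x ∘ Sum.inl) (fun i hi => h (Sum.inl i) hi), map_zero]
  · -- pip
    intro x
    have h1 := vp hf x
    show θ (pi ((@Matrix.vecMul (cone D C f hf).I (cone D C f hf).I S _ (cone D C f hf).fI x
      (cone D C f hf).p) ∘ (Sum.inl : C.I → C.I ⊕ D.I))) = θ (pi (x ∘ Sum.inl))
    rw [h1]
    show θ (pi ((x ∘ Sum.inl) ᵥ* C.p)) = _
    rw [hpi.pip]
  · -- surj
    intro y
    obtain ⟨n, rfl⟩ := hθ y
    obtain ⟨x, rfl⟩ := hpi.surj n
    exact ⟨Sum.elim x 0, rfl⟩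
  · -- zero
    intro x
    have h1 := ve hf x
    show θ (pi ((@Matrix.vecMul (cone D C f hf).I (cone D C f hf).I S _ (cone D C f hf).fI x
      (cone D C f hf).e) ∘ (Sum.inl : C.I → C.I ⊕ D.I))) = 0
    rw [h1]
    show θ (pi ((x ∘ Sum.inl) ᵥ* C.e + (x ∘ Sum.inr) ᵥ* f)) = 0
    rw [map_add, hpi.zero, zero_add, hcomp0]
  · -- ker
    intro x hx hxp hx0
    obtain ⟨x1, hx1d⟩ : ∃ x1 : C.I → S, x1 = fun i => x (Sum.inl i) := ⟨_, rfl⟩
    have hx0' : θ (pi x1) = 0 := by rw [hx1d]; exact hx0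
    have hp1 : x1 ᵥ* C.p = x1 := by
      rw [hx1d]
      exact (elim_eq ((vp hf x).symm.trans hxp)).1
    have hx2 : (fun i : D.I => x (Sum.inr i)) = 0 := by
      funext i
      by_contra h
      have h1 : D.deg i + 1 = 0 := hx (Sum.inr i) h
      omega
    have hx1 : ∀ i : C.I, x1 i ≠ 0 → C.deg i = 0 := by
      intro i h
      rw [hx1d] at h
      exact hx (Sum.inl i) h
    obtain ⟨w, hw⟩ := hrho.surj ⟨pi x1, hx0'⟩
    obtain ⟨w0, hw0⟩ : ∃ w0 : D.I → S, w0 = fun i => if D.deg i = 0 then w i else 0 := ⟨_, rfl⟩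
    have hw0d : ∀ i, w0 i ≠ 0 → D.deg i = 0 := by
      intro i h
      by_contra hd
      apply h
      rw [hw0]
      exact if_neg hd
    have hrw0 : rho w0 = rho w := by
      have h1 : rho (w - w0) = 0 := by
        apply hrho.low
        intro i hi
        have h2 : w0 i = w i := by
          rw [hw0]
          exact if_pos hi
        rw [Pi.sub_apply, h2, sub_self]
      rw [map_sub, sub_eq_zero] at h1
      exact h1.symm
    obtain ⟨y2, hy2⟩ : ∃ y2 : D.I → S, y2 = w0 ᵥ* D.p := ⟨_, rfl⟩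
    have hy2r : rho y2 = ⟨pi x1, hx0'⟩ := by
      rw [hy2, hrho.pip, hrw0, hw]
    have hy2d : ∀ i, y2 i ≠ 0 → D.deg i = 0 := by
      intro i h
      rw [hy2] at h
      obtain ⟨j, hj1, hj2⟩ := exists_of_vecMul h
      rw [← D.hp j i hj2]
      exact hw0d j hj1
    have hy2p : y2 ᵥ* D.p = y2 := by
      rw [hy2, vecMul_vecMul, D.pp]
    have hy2e : y2 ᵥ* D.e = 0 := by
      funext i
      by_contra h
      obtain ⟨j, hj1, hj2⟩ := exists_of_vecMul h
      have h1 := hy2d j hj1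
      have h2 := D.he j i hj2
      omega
    obtain ⟨y1, hy1d, hy1p, hy1e⟩ := hpi.ker (x1 - y2 ᵥ* f) (by
      intro i h
      by_contra hd
      apply h
      have h1 : x1 i = 0 := by
        by_contra h1
        exact hd (hx1 i h1)
      have h2 : (y2 ᵥ* f) i = 0 := by
        by_contra h2
        obtain ⟨j, hj1, hj2⟩ := exists_of_vecMul h2
        exact hd (by rw [← hf.dg j i hj2]; exact hy2d j hj1)
      rw [Pi.sub_apply, h1, h2, sub_self]) (by
      rw [sub_vecMul, hp1, vecMul_vecMul, hf.fp]) (by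
      rw [map_sub, hcomp, hy2r, sub_self])
    refine ⟨Sum.elim y1 y2, ?_, ?_, ?_⟩
    · rintro (i | i) h
      · exact hy1d i h
      · show D.deg i + 1 = 1
        rw [hy2d i h]
    · rw [vp hf]
      show Sum.elim (y1 ᵥ* C.p) (y2 ᵥ* D.p) = Sum.elim y1 y2
      rw [hy1p, hy2p]
    · rw [ve hf]
      show Sum.elim (y1 ᵥ* C.e + y2 ᵥ* f) (-(y2 ᵥ* D.e)) = x
      rw [hy1e, hy2e, sub_add_cancel, neg_zero, ← hx2, hx1d]
      exact Sum.elim_comp_inl_inr x
  · -- ex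
    intro q hq x hx hxp hxe
    obtain ⟨x1, hx1d⟩ : ∃ x1 : C.I → S, x1 = fun i => x (Sum.inl i) := ⟨_, rfl⟩
    obtain ⟨x2, hx2d⟩ : ∃ x2 : D.I → S, x2 = fun i => x (Sum.inr i) := ⟨_, rfl⟩
    have hp1 : x1 ᵥ* C.p = x1 := by
      rw [hx1d]
      exact (elim_eq ((vp hf x).symm.trans hxp)).1
    have hp2 : x2 ᵥ* D.p = x2 := by
      rw [hx2d]
      exact (elim_eq ((vp hf x).symm.trans hxp)).2
    have he1' : x1 ᵥ* C.e + x2 ᵥ* f = 0 := by
      rw [hx1d, hx2d]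
      exact (elim_eq ((ve hf x).symm.trans hxe)).1
    have he2' : x2 ᵥ* D.e = 0 := by
      have h : -(x2 ᵥ* D.e) = 0 := by
        rw [hx2d]
        exact (elim_eq ((ve hf x).symm.trans hxe)).2
      exact neg_eq_zero.1 h
    have hx1 : ∀ i : C.I, x1 i ≠ 0 → C.deg i = q := by
      intro i h
      rw [hx1d] at h
      exact hx (Sum.inl i) h
    have hx2 : ∀ i : D.I, x2 i ≠ 0 → D.deg i + 1 = q := by
      intro i h
      rw [hx2d] at h
      exact hx (Sum.inr i) h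
    have hnp : (-x2) ᵥ* D.p = -x2 := by
      rw [neg_vecMul, hp2]
    obtain ⟨y2, hy2d, hy2p, hy2e⟩ : ∃ y2 : D.I → S, (∀ i, y2 i ≠ 0 → D.deg i = q) ∧
        y2 ᵥ* D.p = y2 ∧ y2 ᵥ* D.e = -x2 := by
      rcases Nat.eq_or_lt_of_le hq with h1 | h1
      · obtain ⟨y2, h2, h3, h4⟩ := hrho.ker (-x2) (by
          intro i hi
          have h5 := hx2 i (fun h => hi (by rw [Pi.neg_apply, h, neg_zero]))
          omega) hnp (by
          rw [map_neg, neg_eq_zero]
          apply Subtype.ext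
          rw [← hcomp, eq_neg_of_add_eq_zero_right he1', map_neg, hpi.zero, neg_zero]
          rfl)
        exact ⟨y2, fun i hi => by rw [h2 i hi]; exact h1, h3, h4⟩
      · obtain ⟨y2, h2, h3, h4⟩ := hrho.ex (q - 1) (by omega) (-x2) (by
          intro i hi
          have h5 := hx2 i (fun h => hi (by rw [Pi.neg_apply, h, neg_zero]))
          omega) hnp (by rw [neg_vecMul, he2', neg_zero])
        exact ⟨y2, fun i hi => by rw [h2 i hi]; omega, h3, h4⟩
    obtain ⟨y1, hy1d, hy1p, hy1e⟩ := hpi.ex q hq (x1 - y2 ᵥ* f) (by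
      intro i h
      by_contra hd
      apply h
      have h1 : x1 i = 0 := by
        by_contra h1
        exact hd (hx1 i h1)
      have h2 : (y2 ᵥ* f) i = 0 := by
        by_contra h2
        obtain ⟨j, hj1, hj2⟩ := exists_of_vecMul h2
        exact hd (by rw [← hf.dg j i hj2]; exact hy2d j hj1)
      rw [Pi.sub_apply, h1, h2, sub_self]) (by
      rw [sub_vecMul, hp1, vecMul_vecMul, hf.fp]) (by
      rw [sub_vecMul, vecMul_vecMul, ← hf.ef, ← vecMul_vecMul, hy2e, neg_vecMul, sub_neg_eq_add,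
        he1'])
    refine ⟨Sum.elim y1 y2, ?_, ?_, ?_⟩
    · rintro (i | i) h
      · exact hy1d i h
      · show D.deg i + 1 = q + 1
        rw [hy2d i h]
    · rw [vp hf]
      show Sum.elim (y1 ᵥ* C.p) (y2 ᵥ* D.p) = Sum.elim y1 y2
      rw [hy1p, hy2p]
    · rw [ve hf]
      show Sum.elim (y1 ᵥ* C.e + y2 ᵥ* f) (-(y2 ᵥ* D.e)) = x
      rw [hy1e, hy2e, sub_add_cancel, neg_neg, hx1d, hx2d]
      exact Sum.elim_comp_inl_inr x

end Pool.Agent.Lib.MPb6f35e.KN
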