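import Pool.Agent.Lib.MP_b6f35e_al.KN.Spec

/-!
# KN, module COK: kernels of maps of finitely presented modules over regular coherent rings
-/

namespace Pool.Agent.Lib.MPb6f35e.KN

open Matrix

namespace COKM

variable {S : Type} [Ring S]

/-- Modules with a finite resolution are finitely presented. -/
theorem fp_of_FPres : ∀ (n : ℕ) (M : Type) [AddCommGroup M] [Module S M], FPres S n M →
    Module.FinitePresentation S M := by
  intro n
  induction n with
  | zero =>
    intro M _ _ h
    obtain ⟨h1, h2⟩ := h
    exact Module.finitePresentation_of_projective S M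
  | succ n ih =>
    intro M _ _ h
    obtain ⟨F, hF1, hF2, f, h1, h2, h3, h4⟩ := h
    have h5 := ih (LinearMap.ker f) h4
    have h6 : Module.FinitePresentation S F := Module.finitePresentation_of_projective S F
    exact Module.finitePresentation_of_surjective f h3
      (Module.Finite.iff_fg.1 (inferInstance : Module.Finite S (LinearMap.ker f)))

/-- The kernel of a surjection of a finitely generated projective module onto a module with a finite
resolution. -/
theorem ker_proj (n : ℕ) (Q : Type) [AddCommGroup Q] [Module S Q] (hQ : FPres S n Q)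
    (F : Type) [AddCommGroup F] [Module S F] [Module.Finite S F] [Module.Projective S F]
    (f : F →ₗ[S] Q) (hf : Function.Surjective f) :
    Module.FinitePresentation S (LinearMap.ker f) := by
  have hFP : Module.FinitePresentation S F := Module.finitePresentation_of_projective S F
  cases n with
  | zero =>
    obtain ⟨h1, h2⟩ := hQ
    exact Module.finitePresentation_of_projective_of_exact (LinearMap.ker f).subtype f
      (Submodule.injective_subtype _) hf (LinearMap.exact_subtype_ker_map f)
  | succ n =>
    obtain ⟨F', hF1, hF2, f', h1, h2, h3, h4⟩ := hQ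
    have h5 : Module.FinitePresentation S (LinearMap.ker f') := fp_of_FPres n _ h4
    let P : Submodule S (F × F') := LinearMap.eqLocus (f ∘ₗ LinearMap.fst S F F')
      (f' ∘ₗ LinearMap.snd S F F')
    have memP : ∀ z : F × F', z ∈ P ↔ f z.1 = f' z.2 := fun z => Iff.rfl
    let p1 : P →ₗ[S] F := LinearMap.fst S F F' ∘ₗ P.subtype
    let p2 : P →ₗ[S] F' := LinearMap.snd S F F' ∘ₗ P.subtype
    have s1 : Function.Surjective p1 := by
      intro x
      obtain ⟨y, hy⟩ := h3 (f x)
      exact ⟨⟨(x, y), (memP _).2 hy.symm⟩, rfl⟩
    have s2 : Function.Surjective p2 := by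
      intro y
      obtain ⟨x, hx⟩ := hf (f' y)
      exact ⟨⟨(x, y), (memP _).2 hx⟩, rfl⟩
    -- the kernel of `p1`
    let e : LinearMap.ker f' →ₗ[S] LinearMap.ker p1 :=
      { toFun := fun y => ⟨⟨(0, y.1), (memP _).2 (by rw [map_zero]; exact y.2.symm)⟩, rfl⟩
        map_add' := by
          intro a b
          apply Subtype.ext
          apply Subtype.ext
          exact Prod.ext (add_zero (0 : F)).symm rfl
        map_smul' := by
          intro c a
          apply Subtype.ext
          apply Subtype.ext
          exact Prod.ext (smul_zero c).symm rfl }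
    have he : Function.Bijective e := by
      constructor
      · intro a b hab
        apply Subtype.ext
        exact congrArg (fun z : LinearMap.ker p1 => z.1.1.2) hab
      · rintro ⟨⟨⟨x, y⟩, hxy⟩, hx⟩
        have hx0 : x = 0 := hx
        subst hx0
        have hy : f' y = 0 := by
          have := (memP _).1 hxy
          simpa using this.symm
        exact ⟨⟨y, hy⟩, rfl⟩
    have h6 : Module.FinitePresentation S (LinearMap.ker p1) :=
      Module.FinitePresentation.of_equiv (R := S) (M := ↥(LinearMap.ker f'))
        (N := ↥(LinearMap.ker p1)) (LinearEquiv.ofBijective e he)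
    have h7 : Module.FinitePresentation S P := Module.finitePresentation_of_ker p1 s1
    let i : LinearMap.ker f →ₗ[S] P :=
      { toFun := fun x => ⟨(x.1, 0), (memP _).2 (by rw [map_zero]; exact x.2)⟩
        map_add' := by
          intro a b
          apply Subtype.ext
          exact Prod.ext rfl (add_zero (0 : F')).symm
        map_smul' := by
          intro c a
          apply Subtype.ext
          exact Prod.ext rfl (smul_zero c).symm }
    have hi : Function.Injective i := by
      intro a b hab
      apply Subtype.ext
      exact congrArg (fun z : P => z.1.1) hab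
    have hex : Function.Exact i p2 := by
      rintro ⟨⟨x, y⟩, hxy⟩
      constructor
      · intro hy
        have hy0 : y = 0 := hy
        subst hy0
        have hx : f x = 0 := by
          have := (memP _).1 hxy
          simpa using this
        exact ⟨⟨x, hx⟩, rfl⟩
      · rintro ⟨z, hz⟩
        have : y = 0 := (congrArg (fun z : P => z.1.2) hz).symm
        exact this
    exact Module.finitePresentation_of_projective_of_exact i p2 hi s2 hex

/-- The kernel of a surjection of finitely presented modules. -/
theorem ker_surj (hS : RegCoh S) (M Q : Type) [AddCommGroup M] [Module S M] [AddCommGroup Q]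
    [Module S Q] (g : M →ₗ[S] Q) (hg : Function.Surjective g)
    (hM : Module.FinitePresentation S M) (hQ : Module.FinitePresentation S Q) :
    Module.FinitePresentation S (LinearMap.ker g) := by
  obtain ⟨m, π, hπ⟩ := Module.Finite.exists_fin' S M
  obtain ⟨n1, h1⟩ := hS M hM
  obtain ⟨n2, h2⟩ := hS Q hQ
  have k1 := ker_proj n1 M h1 (Fin m → S) π hπ
  have k2 := ker_proj n2 Q h2 (Fin m → S) (g ∘ₗ π) (hg.comp hπ)
  let r : LinearMap.ker (g ∘ₗ π) →ₗ[S] LinearMap.ker g :=
    LinearMap.restrict π (fun x hx => hx)
  have hr : Function.Surjective r := by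
    rintro ⟨y, hy⟩
    obtain ⟨x, hx⟩ := hπ y
    refine ⟨⟨x, ?_⟩, Subtype.ext hx⟩
    show g (π x) = 0
    rw [hx]
    exact hy
  let e : LinearMap.ker π →ₗ[S] LinearMap.ker r :=
    { toFun := fun y => ⟨⟨y.1, show g (π y.1) = 0 by
          rw [show π y.1 = 0 from y.2, map_zero]⟩, Subtype.ext y.2⟩
      map_add' := fun a b => rfl
      map_smul' := fun c a => rfl }
  have he : Function.Surjective e := by
    rintro ⟨⟨x, hx⟩, hx2⟩
    have h3 : π x = 0 := congrArg Subtype.val hx2
    exact ⟨⟨x, h3⟩, rfl⟩
  have hfin : Module.Finite S (LinearMap.ker r) := Module.Finite.of_surjective e he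
  exact Module.finitePresentation_of_surjective r hr (Module.Finite.iff_fg.1 hfin)

end COKM

open COKM in
theorem specCOK : SpecCOK := by
  intro S _ hS M N _ _ _ _ f hM hN
  have hfin : Module.Finite S (LinearMap.range f) := Module.Finite.range f
  have hq : Module.FinitePresentation S (N ⧸ LinearMap.range f) :=
    Module.finitePresentation_of_surjective (LinearMap.range f).mkQ
      (Submodule.mkQ_surjective _) (by rw [Submodule.ker_mkQ]; exact Module.Finite.iff_fg.1 hfin)
  have hk := ker_surj hS N (N ⧸ LinearMap.range f) (LinearMap.range f).mkQ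
    (Submodule.mkQ_surjective _) hN hq
  have hr : Module.FinitePresentation S (LinearMap.range f) := by
    have e : LinearMap.ker (LinearMap.range f).mkQ ≃ₗ[S] LinearMap.range f :=
      LinearEquiv.ofEq _ _ (Submodule.ker_mkQ _)
    exact Module.FinitePresentation.of_equiv e
  have hk2 := ker_surj hS M (LinearMap.range f) f.rangeRestrict f.surjective_rangeRestrict hM hr
  have e2 : LinearMap.ker f.rangeRestrict ≃ₗ[S] LinearMap.ker f :=
    LinearEquiv.ofEq _ _ (LinearMap.ker_rangeRestrict f)
  exact Module.FinitePresentation.of_equiv e2

end Pool.Agent.Lib.MPb6f35e.KN
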