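import Pool.Agent.Lib.MP_b6f35e_al.KN.Spec

/-!
# Vanishing of Waldhausen's Nil classes, module CTK: a contraction (MP_b6f35e_al, folder KN)
-/

set_option autoImplicit false

namespace Pool.Agent.Lib.MPb6f35e.KN

open Matrix

/-- CTK. -/
theorem specCTK (hNHT : SpecNHT) : SpecCTK := by
  intro S _ C N _ _ pi hN hR
  obtain ⟨Γ, _, h2, h3, h4, h5⟩ := hNHT S ⊤ C.I C.I C.deg C.p C.e C.deg C.p C.e C.p C.hp C.he C.pp
    C.pe C.ep C.ee (fun _ _ _ _ => ⟨trivial, trivial⟩) (fun _ _ => trivial) C.hp C.pp C.pp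
    (C.ep.trans C.pe.symm)
    (by
      intro q hq z _ hz hzp hze
      obtain ⟨y, hy1, hy2, hy3⟩ := hR.ex q hq z hz hzp hze
      exact ⟨y, fun _ => trivial, hy1, hy2, hy3⟩)
    (by
      intro i hi
      have hrow : C.p i ᵥ* C.p = C.p i := by
        have h := congrFun C.pp i
        exact h
      obtain ⟨y, hy1, hy2, hy3⟩ := hR.ker (C.p i) (fun j hj => (C.hp i j hj).symm.trans hi) hrow
        (Subsingleton.elim _ _)
      exact ⟨y, fun _ => trivial, hy1, hy2, hy3⟩)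
  exact ⟨Γ, h2, h3, h4, h5⟩

end Pool.Agent.Lib.MPb6f35e.KN
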