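import Pool.Agent.Lib.MP_b6f35e_al.KN.SpecL

/-! Module CYK (helper23): cyclic matrices. -/ 

namespace Pool.Agent.Lib.MPb6f35e.KN

open Matrix

namespace CYHM

variable {A : Type} [Ring A]

/-- powers of a strictly increasing matrix -/
theorem pow_rk {J : Type} [Fintype J] [DecidableEq J] (r : J → ℕ) (U : Matrix J J A)
    (hU : ∀ i j, U i j ≠ 0 → r i < r j) : ∀ (k : ℕ) (i j : J), (U ^ k) i j ≠ 0 → r i + k ≤ r j := by
  intro k
  induction k with
  | zero =>
    intro i j h
    rw [pow_zero] at h
    by_cases hij : i = j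
    · rw [hij]; omega
    · exact absurd (Matrix.one_apply_ne hij) h
  | succ k ih =>
    intro i j h
    rw [pow_succ, Matrix.mul_apply] at h
    obtain ⟨q, -, hq⟩ := Finset.exists_ne_zero_of_sum_ne_zero h
    have h1 := ih i q (left_ne_zero_of_mul hq)
    have h2 := hU q j (right_ne_zero_of_mul hq)
    omega

theorem nil_rk {J : Type} [Fintype J] [DecidableEq J] (r : J → ℕ) (U : Matrix J J A)
    (hU : ∀ i j, U i j ≠ 0 → r i < r j) (b : ℕ) (hb : ∀ j, r j < b) : U ^ b = 0 := by
  ext i j
  by_contra h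
  have := pow_rk r U hU b i j h
  have := hb j
  omega

theorem kappa_rk {K : Type} [AddCommGroup K] {κ : ∀ (ι : Type) [Fintype ι], Matrix ι ι A → K}
    (hκ : KF κ) (hKCL : SpecKCL) {J : Type} [Fintype J] [DecidableEq J] (r : J → ℕ) :
    ∀ (b : ℕ) (U : Matrix J J A), (∀ i j, U i j ≠ 0 → r i < r j ∧ r j < b) → κ J (1 + U) = 0 := by
  obtain ⟨k1, -, -, k4⟩ := hKCL A K κ hκ
  intro b
  induction b with
  | zero =>
    intro U hU
    have : U = 0 := by
      ext i j
      by_contra h
      exact absurd (hU i j h).2 (Nat.not_lt_zero _)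
    rw [this, add_zero]
    exact k1 J
  | succ b ih =>
    intro U hU
    let π : Matrix J J A := Matrix.diagonal fun i => if r i < b then 1 else 0
    let π' : Matrix J J A := Matrix.diagonal fun i => if r i < b then 0 else 1
    have hs : π + π' = 1 := by
      rw [← Matrix.diagonal_one]
      show Matrix.diagonal _ + Matrix.diagonal _ = _
      rw [Matrix.diagonal_add]
      congr 1
      funext i
      by_cases h : r i < b <;> simp [h]
    have hπU : π' * U = 0 := by
      ext i j
      show (Matrix.diagonal (fun i => if r i < b then (0 : A) else 1) * U) i j = 0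
      rw [Matrix.diagonal_mul]
      by_cases h : r i < b
      · simp [h]
      · have : U i j = 0 := by
          by_contra h'
          have := hU i j h'
          omega
        rw [this, mul_zero]
    have h := k4 J π π' U ?_ ?_ ?_ ?_ (by rw [hs, one_mul]) (by rw [hs, mul_one])
      (by rw [hπU, zero_mul]) ⟨b + 1, nil_rk (fun i => r i ⊓ b) U (fun i j h => by
        have := hU i j h
        simp only [lt_inf_iff, inf_lt_iff]
        omega) (b + 1) (fun j => by have : r j ⊓ b ≤ b := inf_le_right; omega)⟩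
    · rw [h, hπU, zero_mul, add_zero, k1 J, add_zero]
      refine ih _ fun i j hij => ?_
      have e : (π * U * π) i j = (if r i < b then 1 else 0) * U i j * (if r j < b then 1 else 0) := by
        show (Matrix.diagonal (fun i => if r i < b then (1 : A) else 0) * U *
          Matrix.diagonal (fun i => if r i < b then (1 : A) else 0)) i j = _
        rw [Matrix.mul_diagonal, Matrix.diagonal_mul]
      rw [e] at hij
      have h1 : U i j ≠ 0 := right_ne_zero_of_mul (left_ne_zero_of_mul hij)
      have h2 := hU i j h1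
      by_cases h3 : r j < b
      · exact ⟨h2.1, h3⟩
      · simp [h3] at hij
    · show Matrix.diagonal _ * Matrix.diagonal _ = Matrix.diagonal _
      rw [Matrix.diagonal_mul_diagonal]
      congr 1
      funext i
      by_cases h : r i < b <;> simp [h]
    · show Matrix.diagonal _ * Matrix.diagonal _ = Matrix.diagonal _
      rw [Matrix.diagonal_mul_diagonal]
      congr 1
      funext i
      by_cases h : r i < b <;> simp [h]
    · show Matrix.diagonal _ * Matrix.diagonal _ = 0
      rw [Matrix.diagonal_mul_diagonal, ← Matrix.diagonal_zero]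
      congr 1
      funext i
      by_cases h : r i < b <;> simp [h]
    · show Matrix.diagonal _ * Matrix.diagonal _ = 0
      rw [Matrix.diagonal_mul_diagonal, ← Matrix.diagonal_zero]
      congr 1
      funext i
      by_cases h : r i < b <;> simp [h]

variable {ι : Type} [Fintype ι] [DecidableEq ι]

/-- the cyclic matrix -/
def Cy (n : ℕ) (ν : Matrix ι ι A) : Matrix (ι × ZMod n) (ι × ZMod n) A :=
  Matrix.of fun x y => if y.2 = x.2 + 1 then ν x.1 y.1 else 0

def Up (n : ℕ) (ν : Matrix ι ι A) : Matrix (ι × ZMod n) (ι × ZMod n) A :=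
  Matrix.of fun x y => if x.2 ≠ -1 ∧ y.2 = x.2 + 1 then ν x.1 y.1 else 0

def Co (n : ℕ) (ν : Matrix ι ι A) : Matrix (ι × ZMod n) (ι × ZMod n) A :=
  Matrix.of fun x y => if x.2 = -1 ∧ y.2 = 0 then ν x.1 y.1 else 0

theorem cy_eq (n : ℕ) (ν : Matrix ι ι A) : Cy n ν = Up n ν + Co n ν := by
  ext x y
  simp only [Cy, Up, Co, Matrix.of_apply, Matrix.add_apply]
  by_cases h1 : x.2 = -1
  · by_cases h2 : y.2 = x.2 + 1
    · have : y.2 = 0 := by rw [h2, h1]; ring
      simp [h1, this]
    · have : y.2 ≠ 0 := fun h => h2 (by rw [h, h1]; ring)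
      simp [h1, this]
  · by_cases h2 : y.2 = x.2 + 1 <;> simp [h1, h2]

variable (n : ℕ) [NeZero n]

theorem cy_pow (ν : Matrix ι ι A) (k : ℕ) : Cy n ν ^ k =
    Matrix.of fun x y : ι × ZMod n => if y.2 = x.2 + (k : ZMod n) then (ν ^ k) x.1 y.1 else 0 := by
  induction k with
  | zero =>
    ext x y
    rw [pow_zero, Matrix.of_apply, Nat.cast_zero, add_zero, pow_zero, Matrix.one_apply,
      Matrix.one_apply]
    by_cases h : x = y
    · rw [h]; simp
    · rw [if_neg h]
      by_cases h2 : y.2 = x.2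
      · rw [if_pos h2, if_neg]
        exact fun h1 => h (Prod.ext h1 h2.symm)
      · rw [if_neg h2]
  | succ k ih =>
    ext x y
    rw [pow_succ, ih, Matrix.mul_apply, Fintype.sum_prod_type, Matrix.of_apply, pow_succ,
      Matrix.mul_apply]
    simp only [Matrix.of_apply, Cy]
    have hc : ∀ q : ι, (∑ c : ZMod n, (if c = x.2 + (k : ZMod n) then (ν ^ k) x.1 q else 0) *
        (if y.2 = c + 1 then ν q y.1 else 0)) =
        if y.2 = x.2 + ((k + 1 : ℕ) : ZMod n) then (ν ^ k) x.1 q * ν q y.1 else 0 := by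
      intro q
      rw [Finset.sum_eq_single (x.2 + (k : ZMod n))]
      · have e : x.2 + (k : ZMod n) + 1 = x.2 + ((k + 1 : ℕ) : ZMod n) := by push_cast; ring
        rw [if_pos rfl, e]
        split_ifs <;> simp
      · intro c _ hc
        rw [if_neg hc, zero_mul]
      · intro h; exact absurd (Finset.mem_univ _) h
    rw [Finset.sum_congr rfl fun q _ => hc q]
    by_cases h : y.2 = x.2 + ((k + 1 : ℕ) : ZMod n)
    · simp only [if_pos h]
    · simp only [if_neg h, Finset.sum_const_zero]

/-- the projection to block 0 -/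
def yP (A ι : Type) [Ring A] [DecidableEq ι] (n : ℕ) : Matrix ι (ι × ZMod n) A :=
  Matrix.of fun i x => if x = (i, 0) then 1 else 0

theorem yU (ν : Matrix ι ι A) (k : ℕ) (hk : k < n) : yP A ι n * Up n ν ^ k =
    Matrix.of fun i (x : ι × ZMod n) => if x.2 = (k : ZMod n) then (ν ^ k) i x.1 else 0 := by
  induction k with
  | zero =>
    ext i x
    rw [pow_zero, Matrix.mul_one, Matrix.of_apply, pow_zero, Nat.cast_zero, Matrix.one_apply]
    show (if x = (i, 0) then (1 : A) else 0) = _
    obtain ⟨a, b⟩ := x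
    by_cases h1 : a = i <;> by_cases h2 : b = 0 <;> simp [Prod.ext_iff, h1, h2, eq_comm]
  | succ k ih =>
    have hne : ((k : ℕ) : ZMod n) ≠ -1 := by
      intro h
      have h1 : ((k + 1 : ℕ) : ZMod n) = 0 := by push_cast; rw [h]; ring
      rw [ZMod.natCast_eq_zero_iff] at h1
      exact absurd (Nat.le_of_dvd (Nat.succ_pos k) h1) (by omega)
    ext i x
    rw [pow_succ, ← Matrix.mul_assoc, ih (by omega), Matrix.mul_apply, Fintype.sum_prod_type,
      Matrix.of_apply, pow_succ, Matrix.mul_apply]
    simp only [Matrix.of_apply, Up]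
    have hc : ∀ q : ι, (∑ c : ZMod n, (if c = (k : ZMod n) then (ν ^ k) i q else 0) *
        (if c ≠ -1 ∧ x.2 = c + 1 then ν q x.1 else 0)) =
        if x.2 = ((k + 1 : ℕ) : ZMod n) then (ν ^ k) i q * ν q x.1 else 0 := by
      intro q
      rw [Finset.sum_eq_single (k : ZMod n)]
      · have e : (k : ZMod n) + 1 = ((k + 1 : ℕ) : ZMod n) := by push_cast; ring
        rw [if_pos rfl, e]
        by_cases h : x.2 = ((k + 1 : ℕ) : ZMod n)
        · rw [if_pos ⟨hne, h⟩, if_pos h]
        · rw [if_neg fun h' => h h'.2, if_neg h, mul_zero]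
      · intro c _ hc
        rw [if_neg hc, zero_mul]
      · intro h; exact absurd (Finset.mem_univ _) h
    rw [Finset.sum_congr rfl fun q _ => hc q]
    by_cases h : x.2 = ((k + 1 : ℕ) : ZMod n)
    · simp only [if_pos h]
    · simp only [if_neg h, Finset.sum_const_zero]

end CYHM

open CYHM in
theorem specCYH (hKCL : SpecKCL) : SpecCYK := by
  intro A K _ _ κ hκ ι _ _ ν n _ hn hν
  obtain ⟨k1, -, -, -⟩ := hKCL A K κ hκ
  show κ (ι × ZMod n) (1 + Cy n ν) = 0
  set U := Up n ν with hUd
  set C := Co n ν with hCd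
  have hval : ∀ a : ZMod n, a ≠ -1 → (a + 1).val = a.val + 1 := by
    intro a ha
    have h1 : a.val + 1 < n := by
      have h2 := ZMod.val_lt a
      by_contra h3
      have h4 : a.val + 1 = n := by omega
      apply ha
      have h5 : ((a.val + 1 : ℕ) : ZMod n) = 0 := by rw [h4]; exact ZMod.natCast_self n
      rw [Nat.cast_add, ZMod.natCast_zmod_val, Nat.cast_one] at h5
      exact eq_neg_of_add_eq_zero_left h5
    rw [ZMod.val_add, ZMod.val_one'' (by omega), Nat.mod_eq_of_lt h1]
  have hUr : ∀ x y : ι × ZMod n, U x y ≠ 0 → x.2.val < y.2.val ∧ y.2.val < n := by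
    intro x y h
    have h' : ¬ ¬ (x.2 ≠ -1 ∧ y.2 = x.2 + 1) := fun hn => h (by
      show (if x.2 ≠ -1 ∧ y.2 = x.2 + 1 then ν x.1 y.1 else 0) = 0
      rw [if_neg hn])
    obtain ⟨h1, h2⟩ := not_not.1 h'
    refine ⟨?_, ZMod.val_lt _⟩
    rw [h2, hval _ h1]
    omega
  have hUn : U ^ n = 0 := nil_rk (fun x : ι × ZMod n => x.2.val) U (fun i j h => (hUr i j h).1) n
    fun j => ZMod.val_lt _
  have hU0 : κ (ι × ZMod n) (1 + U) = 0 := kappa_rk hκ hKCL (fun x => x.2.val) n U hUr
  have hCy : Cy n ν ^ n = 0 := by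
    rw [cy_pow, hν]
    ext x y
    simp
  have u1 : IsUnit (1 + U) := IsNilpotent.isUnit_one_add ⟨n, hUn⟩
  have u2 : IsUnit (1 + Cy n ν) := IsNilpotent.isUnit_one_add ⟨n, hCy⟩
  let W := Wn n U
  have hW : (1 + U) * W = 1 := by
    have h1 := (Commute.one_left (-U)).geom_sum₂_mul n
    have h2 := mul_neg_geom_sum (-U) n
    have h3 : (-U) ^ n = 0 := by rw [neg_pow, hUn, mul_zero]
    rw [h3, sub_zero, sub_neg_eq_add] at h2
    exact h2
  have hf : 1 + Cy n ν = (1 + U) * (1 + W * C) := by
    rw [mul_add, mul_one, ← mul_assoc, hW, one_mul, cy_eq, add_assoc]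
  have u3 : IsUnit (1 + W * C) := by
    rw [hf] at u2
    obtain ⟨a, ha⟩ := u1
    obtain ⟨b, hb⟩ := u2
    rw [← ha] at hb
    refine ⟨a⁻¹ * b, ?_⟩
    rw [Units.val_mul, hb, ← mul_assoc, Units.inv_mul, one_mul]
  have hCy' : C * ((yP A ι n)ᵀ * yP A ι n) = C := by
    ext x z
    rw [Matrix.mul_apply]
    have e : ∀ c : ι × ZMod n, ((yP A ι n)ᵀ * yP A ι n) c z =
        if c.2 = 0 ∧ z = c then 1 else 0 := by
      intro c
      rw [Matrix.mul_apply]
      simp only [yP, Matrix.transpose_apply, Matrix.of_apply]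
      rw [Finset.sum_eq_single c.1]
      · obtain ⟨c1, c2⟩ := c
        by_cases h1 : c2 = 0
        · subst h1
          by_cases h2 : z = (c1, 0) <;> simp [h2]
        · have : ((c1, c2) : ι × ZMod n) ≠ (c1, 0) := fun h => h1 (congrArg Prod.snd h)
          simp [h1]
      · intro i _ hi
        rw [if_neg (fun h => hi (by rw [h])), zero_mul]
      · intro h; exact absurd (Finset.mem_univ _) h
    rw [Finset.sum_eq_single z]
    · rw [e]
      by_cases h : z.2 = 0
      · simp [h]
      · have : C x z = 0 := by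
          show (if x.2 = -1 ∧ z.2 = 0 then ν x.1 z.1 else 0) = 0
          rw [if_neg fun h' => h h'.2]
        rw [this, zero_mul]
    · intro c _ hc
      rw [e, if_neg fun h => hc h.2.symm, mul_zero]
    · intro h; exact absurd (Finset.mem_univ _) h
  have h4 : W * C = (W * C * (yP A ι n)ᵀ) * yP A ι n := by
    rw [Matrix.mul_assoc, Matrix.mul_assoc, hCy']
  have h5 : yP A ι n * (W * C * (yP A ι n)ᵀ) = 0 := by
    have e1 : yP A ι n * W * C = 0 := by
      show yP A ι n * (∑ i ∈ Finset.range n, (-U) ^ i) * C = 0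
      rw [Matrix.mul_sum, Matrix.sum_mul]
      refine Finset.sum_eq_zero fun k hk => ?_
      have hk' : k < n := Finset.mem_range.1 hk
      have e2 : (-U) ^ k = (-1 : Matrix (ι × ZMod n) (ι × ZMod n) A) ^ k * U ^ k := neg_pow U k
      have e3 : yP A ι n * U ^ k * C = 0 := by
        rw [yU n ν k hk']
        ext i x
        rw [Matrix.mul_apply, Fintype.sum_prod_type]
        simp only [Matrix.of_apply, Matrix.zero_apply]
        have hc : ∀ q : ι, (∑ c : ZMod n, (if c = (k : ZMod n) then (ν ^ k) i q else 0) *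
            C (q, c) x) = if (k : ZMod n) = -1 ∧ x.2 = 0 then (ν ^ k) i q * ν q x.1 else 0 := by
          intro q
          rw [Finset.sum_eq_single (k : ZMod n)]
          · rw [if_pos rfl]
            show (ν ^ k) i q * (if (k : ZMod n) = -1 ∧ x.2 = 0 then ν q x.1 else 0) = _
            split_ifs <;> simp
          · intro c _ hc
            rw [if_neg hc, zero_mul]
          · intro h; exact absurd (Finset.mem_univ _) h
        rw [Finset.sum_congr rfl fun q _ => hc q]
        by_cases h : (k : ZMod n) = -1 ∧ x.2 = 0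
        · simp only [if_pos h]
          rw [← Matrix.mul_apply, ← pow_succ]
          have h6 : ((k + 1 : ℕ) : ZMod n) = 0 := by push_cast; rw [h.1]; ring
          rw [ZMod.natCast_eq_zero_iff] at h6
          have h7 := Nat.le_of_dvd (Nat.succ_pos k) h6
          have h8 : k + 1 = n := by omega
          rw [h8, hν]
          rfl
        · simp only [if_neg h, Finset.sum_const_zero]
      rcases neg_one_pow_eq_or (Matrix (ι × ZMod n) (ι × ZMod n) A) k with h | h
      · rw [e2, h, one_mul]
        exact e3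
      · rw [e2, h, neg_mul, one_mul, Matrix.mul_neg, Matrix.neg_mul, e3, neg_zero]
    rw [← Matrix.mul_assoc, ← Matrix.mul_assoc, e1, Matrix.zero_mul]
  rw [hf, hκ.mul _ _ _ u1 u3, hU0, zero_add, h4]
  rw [hκ.swap _ _ _ _ (by rw [← h4]; exact u3), h5, add_zero]
  exact k1 ι

end Pool.Agent.Lib.MPb6f35e.KN
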