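import Pool.Agent.Lib.MP_b6f35e_al.KN.SpecL

/-! # Folder KN, module CYK: cyclic matrices -/

namespace Pool.Agent.Lib.MPb6f35e.KN

open Matrix

namespace CYKM

section Upper

variable {A K J : Type} [Ring A] [AddCommGroup K] [Fintype J] [DecidableEq J]

/-- the entries of the powers of a strictly increasing matrix -/
theorem pow_ne {r : J → ℕ} {U : Matrix J J A} (hU : ∀ i j, U i j ≠ 0 → r i < r j) (k : ℕ) :
    ∀ i j, (U ^ k) i j ≠ 0 → r i + k ≤ r j := by
  induction k with
  | zero =>
    intro i j h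
    rw [pow_zero] at h
    by_cases hij : i = j
    · rw [hij]; rfl
    · exact absurd (Matrix.one_apply_ne hij) h
  | succ k ih =>
    intro i j h
    rw [pow_succ, Matrix.mul_apply] at h
    obtain ⟨l, -, hl⟩ := Finset.exists_ne_zero_of_sum_ne_zero h
    have h1 := ih i l (left_ne_zero_of_mul hl)
    have h2 := hU l j (right_ne_zero_of_mul hl)
    omega

theorem pow_zero' {r : J → ℕ} {U : Matrix J J A} (hU : ∀ i j, U i j ≠ 0 → r i < r j) {n : ℕ}
    (hr : ∀ j, r j < n) : U ^ n = 0 := by
  ext i j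
  by_contra h
  have h1 := pow_ne hU n i j h
  have h2 := hr j
  omega

/-- strictly increasing matrices have trivial class -/
theorem upper (hKCL : SpecKCL) {κ : ∀ (ι : Type) [Fintype ι], Matrix ι ι A → K} (hκ : KF κ)
    {r : J → ℕ} {n : ℕ} (hr : ∀ j, r j < n) (b : ℕ) :
    ∀ U : Matrix J J A, (∀ i j, U i j ≠ 0 → r i < r j ∧ r j < b) → κ J (1 + U) = 0 := by
  obtain ⟨k1, -, -, k4⟩ := hKCL A K κ hκ
  induction b with
  | zero =>
    intro U hU
    have h0 : U = 0 := by
      ext i j
      by_contra h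
      exact absurd (hU i j h).2 (Nat.not_lt_zero _)
    rw [h0, add_zero]
    exact k1 J
  | succ b ih =>
    intro U hU
    set π : Matrix J J A := Matrix.diagonal fun i => if r i < b then 1 else 0 with hπ
    set π' : Matrix J J A := Matrix.diagonal fun i => if r i < b then 0 else 1 with hπ'
    have e1 : π + π' = 1 := by
      rw [hπ, hπ', Matrix.diagonal_add, ← Matrix.diagonal_one]
      congr 1
      funext i
      split_ifs <;> simp
    have e2 : π' * U = 0 := by
      ext i j
      rw [hπ', Matrix.diagonal_mul, Matrix.zero_apply]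
      split_ifs with h
      · rw [zero_mul]
      · rw [one_mul]
        by_contra hne
        have := hU i j hne
        omega
    have e3 : π * π = π := by
      rw [hπ, Matrix.diagonal_mul_diagonal]
      congr 1
      funext i
      split_ifs <;> simp
    have e4 : π' * π' = π' := by
      rw [hπ', Matrix.diagonal_mul_diagonal]
      congr 1
      funext i
      split_ifs <;> simp
    have e5 : π * π' = 0 := by
      rw [hπ, hπ', Matrix.diagonal_mul_diagonal, ← Matrix.diagonal_zero]
      congr 1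
      funext i
      split_ifs <;> simp
    have e6 : π' * π = 0 := by
      rw [hπ, hπ', Matrix.diagonal_mul_diagonal, ← Matrix.diagonal_zero]
      congr 1
      funext i
      split_ifs <;> simp
    have hnil : IsNilpotent U := ⟨n, pow_zero' (fun i j h => (hU i j h).1) hr⟩
    rw [k4 J π π' U e3 e4 e5 e6 (by rw [e1, one_mul]) (by rw [e1, mul_one])
      (by rw [e2, zero_mul]) hnil, e2, zero_mul, add_zero, k1 J, add_zero]
    apply ih
    intro i j h
    have h1 : (π * U * π) i j = (if r i < b then 1 else 0) * U i j * (if r j < b then 1 else 0) := by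
      rw [hπ, Matrix.mul_diagonal, Matrix.diagonal_mul]
    rw [h1] at h
    have h2 : r j < b := by
      by_contra h3
      rw [if_neg h3, mul_zero] at h
      exact h rfl
    have h3 : U i j ≠ 0 := by
      intro h4
      rw [h4, mul_zero, zero_mul] at h
      exact h rfl
    exact ⟨(hU i j h3).1, h2⟩

end Upper

section Cyc

variable {A ι : Type} [Ring A] [Fintype ι] [DecidableEq ι] {n : ℕ} [NeZero n]

/-- the cyclic matrix -/
def Tc (n : ℕ) (ν : Matrix ι ι A) : Matrix (ι × ZMod n) (ι × ZMod n) A :=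
  Matrix.of fun x y => if y.2 = x.2 + 1 then ν x.1 y.1 else 0

/-- the upper part -/
def Uc (n : ℕ) (ν : Matrix ι ι A) : Matrix (ι × ZMod n) (ι × ZMod n) A :=
  Matrix.of fun x y => if y.2.val = x.2.val + 1 then ν x.1 y.1 else 0

/-- the lower part -/
def Cc (n : ℕ) (ν : Matrix ι ι A) : Matrix (ι × ZMod n) (ι × ZMod n) A :=
  Matrix.of fun x y => if x.2.val + 1 = n ∧ y.2 = 0 then ν x.1 y.1 else 0

theorem val_succ (hn : 2 ≤ n) (a : ZMod n) : (a + 1).val = (a.val + 1) % n := by
  have : Fact (1 < n) := ⟨hn⟩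
  rw [ZMod.val_add, ZMod.val_one]

theorem Tc_eq (hn : 2 ≤ n) (ν : Matrix ι ι A) : Tc n ν = Uc n ν + Cc n ν := by
  ext ⟨i, a⟩ ⟨j, b⟩
  have ha := ZMod.val_lt a
  have hb := ZMod.val_lt b
  have hs := val_succ hn a
  simp only [Tc, Uc, Cc, Matrix.of_apply, Matrix.add_apply]
  by_cases h1 : a.val + 1 = n
  · have h2 : a + 1 = 0 := by
      rw [← ZMod.val_eq_zero, hs, h1, Nat.mod_self]
    rw [h2, if_neg (by omega : ¬ b.val = a.val + 1), zero_add]
    by_cases h3 : b = 0
    · rw [if_pos h3, if_pos ⟨h1, h3⟩]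
    · rw [if_neg h3, if_neg (fun h => h3 h.2)]
  · rw [if_neg (fun h : a.val + 1 = n ∧ b = 0 => h1 h.1), add_zero]
    have h2 : (a + 1).val = a.val + 1 := by
      rw [hs, Nat.mod_eq_of_lt (by omega)]
    by_cases h3 : b = a + 1
    · rw [if_pos h3, if_pos (by rw [h3, h2])]
    · rw [if_neg h3, if_neg]
      intro h4
      apply h3
      apply ZMod.val_injective n
      rw [h2, h4]

theorem Tc_pow (ν : Matrix ι ι A) (k : ℕ) :
    ∀ x z, (Tc n ν ^ k) x z = if z.2 = x.2 + k then (ν ^ k) x.1 z.1 else 0 := by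
  induction k with
  | zero =>
    rintro ⟨i, a⟩ ⟨j, b⟩
    rw [pow_zero, pow_zero, Nat.cast_zero, add_zero, Matrix.one_apply, Matrix.one_apply]
    by_cases h1 : b = a
    · by_cases h2 : i = j
      · rw [if_pos (by rw [h1, h2]), if_pos h1, if_pos h2]
      · rw [if_neg (fun h => h2 (congrArg Prod.fst h)), if_pos h1, if_neg h2]
    · rw [if_neg (fun h => h1 (congrArg Prod.snd h).symm), if_neg h1]
  | succ k ih =>
    rintro ⟨i, a⟩ ⟨j, b⟩
    rw [pow_succ, Matrix.mul_apply, Fintype.sum_prod_type]
    have h1 : ∀ l : ι, ∑ c : ZMod n, (Tc n ν ^ k) (i, a) (l, c) * Tc n ν (l, c) (j, b) =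
        if b = a + ((k + 1 : ℕ) : ZMod n) then (ν ^ k) i l * ν l j else 0 := by
      intro l
      rw [Finset.sum_eq_single (a + (k : ZMod n))]
      · rw [ih, if_pos rfl]
        simp only [Tc, Matrix.of_apply]
        push_cast
        rw [← add_assoc]
        split_ifs with h
        · rfl
        · rw [mul_zero]
      · intro c _ hc
        rw [ih, if_neg hc, zero_mul]
      · intro h
        exact absurd (Finset.mem_univ _) h
    rw [Finset.sum_congr rfl fun l _ => h1 l]
    split_ifs with h
    · rw [pow_succ, Matrix.mul_apply]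
    · rw [Finset.sum_const_zero]

theorem Uc_pow (ν : Matrix ι ι A) (k : ℕ) :
    ∀ x z, (Uc n ν ^ k) x z = if z.2.val = x.2.val + k then (ν ^ k) x.1 z.1 else 0 := by
  induction k with
  | zero =>
    rintro ⟨i, a⟩ ⟨j, b⟩
    rw [pow_zero, pow_zero, add_zero, Matrix.one_apply, Matrix.one_apply]
    by_cases h1 : b = a
    · by_cases h2 : i = j
      · rw [if_pos (by rw [h1, h2]), if_pos (by rw [h1]), if_pos h2]
      · rw [if_neg (fun h => h2 (congrArg Prod.fst h)), if_pos (by rw [h1]), if_neg h2]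
    · rw [if_neg (fun h => h1 (congrArg Prod.snd h).symm),
        if_neg (fun h => h1 (ZMod.val_injective n h))]
  | succ k ih =>
    rintro ⟨i, a⟩ ⟨j, b⟩
    have hb := ZMod.val_lt b
    rw [pow_succ, Matrix.mul_apply, Fintype.sum_prod_type]
    have h1 : ∀ l : ι, ∑ c : ZMod n, (Uc n ν ^ k) (i, a) (l, c) * Uc n ν (l, c) (j, b) =
        if b.val = a.val + (k + 1) then (ν ^ k) i l * ν l j else 0 := by
      intro l
      split_ifs with h
      · have h2 : (((a.val + k : ℕ) : ZMod n)).val = a.val + k :=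
          ZMod.val_cast_of_lt (by omega)
        rw [Finset.sum_eq_single ((a.val + k : ℕ) : ZMod n)]
        · rw [ih, if_pos h2]
          simp only [Uc, Matrix.of_apply]
          rw [if_pos (by rw [h2, h]; ring)]
        · intro c _ hc
          rw [ih, if_neg, zero_mul]
          intro h3
          apply hc
          apply ZMod.val_injective n
          rw [h2]
          exact h3
        · intro h
          exact absurd (Finset.mem_univ _) h
      · refine Finset.sum_eq_zero fun c _ => ?_
        rw [ih]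
        simp only [Uc, Matrix.of_apply]
        split_ifs with h3 h4
        · exfalso
          apply h
          rw [h4, h3]
          ring
        · rw [mul_zero]
        · rw [zero_mul]
        · rw [zero_mul]
    rw [Finset.sum_congr rfl fun l _ => h1 l]
    split_ifs with h
    · rw [pow_succ, Matrix.mul_apply]
    · rw [Finset.sum_const_zero]

theorem UC_zero (ν : Matrix ι ι A) (hν : ν ^ n = 0) (k : ℕ) (i j : ι) :
    (Uc n ν ^ k * Cc n ν) (i, 0) (j, 0) = 0 := by
  rw [Matrix.mul_apply, Fintype.sum_prod_type]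
  by_cases hk : k + 1 = n
  · have h2 : (((k : ℕ) : ZMod n)).val = k := ZMod.val_cast_of_lt (by omega)
    have h1 : ∀ l : ι, ∑ c : ZMod n, (Uc n ν ^ k) (i, 0) (l, c) * Cc n ν (l, c) (j, 0) =
        (ν ^ k) i l * ν l j := by
      intro l
      rw [Finset.sum_eq_single ((k : ℕ) : ZMod n)]
      · rw [Uc_pow, if_pos (by rw [h2, ZMod.val_zero, zero_add])]
        simp only [Cc, Matrix.of_apply]
        rw [if_pos ⟨by rw [h2, hk], trivial⟩]
      · intro c _ hc
        rw [Uc_pow, if_neg, zero_mul]
        intro h3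
        apply hc
        apply ZMod.val_injective n
        rw [h2]
        simpa [ZMod.val_zero] using h3
      · intro h
        exact absurd (Finset.mem_univ _) h
    rw [Finset.sum_congr rfl fun l _ => h1 l, ← Matrix.mul_apply, ← pow_succ, hk, hν]
    rfl
  · refine Finset.sum_eq_zero fun l _ => Finset.sum_eq_zero fun c _ => ?_
    rw [Uc_pow]
    simp only [Cc, Matrix.of_apply, ZMod.val_zero, zero_add]
    split_ifs with h3 h4
    · exfalso
      apply hk
      rw [← h3]
      exact h4.1
    · rw [mul_zero]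
    · rw [zero_mul]
    · rw [zero_mul]

end Cyc

end CYKM

open CYKM in
/-- **CYK** -/
theorem specCYK (hKCL : SpecKCL) : SpecCYK := by
  intro A K _ _ κ hκ ι _ _ ν n _ hn hν
  obtain ⟨k1, -, -, -⟩ := hKCL A K κ hκ
  show κ (ι × ZMod n) (1 + Tc n ν) = 0
  have hT : IsUnit (1 + Tc n ν) := by
    apply IsNilpotent.isUnit_one_add
    refine ⟨n, ?_⟩
    ext x z
    rw [Tc_pow, hν]
    simp
  have hU0 : ∀ x y, Uc n ν x y ≠ 0 → x.2.val < y.2.val := by
    intro x y h
    simp only [Uc, Matrix.of_apply] at h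
    have h1 : y.2.val = x.2.val + 1 := by
      by_contra h2
      rw [if_neg h2] at h
      exact h rfl
    omega
  have hUn : Uc n ν ^ n = 0 :=
    pow_zero' (r := fun x : ι × ZMod n => x.2.val) hU0 (fun x => ZMod.val_lt x.2)
  have hκU : κ (ι × ZMod n) (1 + Uc n ν) = 0 :=
    upper hKCL hκ (r := fun x : ι × ZMod n => x.2.val) (fun x => ZMod.val_lt x.2) n _
      fun x y h => ⟨hU0 x y h, ZMod.val_lt y.2⟩
  set V : Matrix (ι × ZMod n) (ι × ZMod n) A := ∑ i ∈ Finset.range n, (-Uc n ν) ^ i with hV
  have hnegn : (-Uc n ν) ^ n = 0 := by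
    rw [neg_pow, hUn, mul_zero]
  have hV1 : (1 + Uc n ν) * V = 1 := by
    have := mul_neg_geom_sum (-Uc n ν) n
    rw [hnegn, sub_zero, sub_neg_eq_add] at this
    exact this
  have hV2 : V * (1 + Uc n ν) = 1 := by
    have := geom_sum_mul_neg (-Uc n ν) n
    rw [hnegn, sub_zero, sub_neg_eq_add] at this
    exact this
  have hUu : IsUnit (1 + Uc n ν) := ⟨⟨_, V, hV1, hV2⟩, rfl⟩
  have hVu : IsUnit V := ⟨⟨V, _, hV2, hV1⟩, rfl⟩
  have hfac : 1 + Tc n ν = (1 + Uc n ν) * (1 + V * Cc n ν) := by
    rw [mul_add, mul_one, ← mul_assoc, hV1, one_mul, Tc_eq hn, add_assoc]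
  have hVC : 1 + V * Cc n ν = V * (1 + Tc n ν) := by
    rw [hfac, ← mul_assoc, hV2, one_mul]
  have hVCu : IsUnit (1 + V * Cc n ν) := by
    rw [hVC]
    exact hVu.mul hT
  set y : Matrix ι (ι × ZMod n) A := Matrix.of fun i z => if (i, (0 : ZMod n)) = z then 1 else 0
    with hy
  set y' : Matrix (ι × ZMod n) ι A := Matrix.of fun z j => if z = (j, (0 : ZMod n)) then 1 else 0
    with hy'
  have hCy : V * Cc n ν = (V * Cc n ν * y') * y := by
    rw [Matrix.mul_assoc, Matrix.mul_assoc]
    congr 1
    ext x ⟨j, b⟩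
    rw [← Matrix.mul_assoc, Matrix.mul_apply]
    have h1 : ∀ l : ι, (Cc n ν * y') x l = Cc n ν x (l, 0) := by
      intro l
      rw [Matrix.mul_apply]
      simp only [hy', Matrix.of_apply, mul_ite, mul_one, mul_zero]
      rw [Finset.sum_ite_eq' Finset.univ (l, (0 : ZMod n))]
      rw [if_pos (Finset.mem_univ _)]
    simp only [h1, hy, Matrix.of_apply, mul_ite, mul_one, mul_zero]
    by_cases hb : b = 0
    · rw [Finset.sum_eq_single j]
      · rw [if_pos (by rw [hb]), hb]
      · intro l _ hl
        rw [if_neg]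
        intro h
        exact hl (congrArg Prod.fst h)
      · intro h
        exact absurd (Finset.mem_univ _) h
    · rw [Finset.sum_eq_zero]
      · simp only [Cc, Matrix.of_apply]
        rw [if_neg (fun h => hb h.2)]
      · intro l _
        rw [if_neg]
        intro h
        exact hb (congrArg Prod.snd h).symm
  have hzero : y * (V * Cc n ν * y') = 0 := by
    ext i j
    have h1 : (y * (V * Cc n ν * y')) i j = (V * Cc n ν) (i, 0) (j, 0) := by
      rw [Matrix.mul_apply]
      simp only [hy, Matrix.of_apply, ite_mul, one_mul, zero_mul]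
      rw [Finset.sum_ite_eq Finset.univ (i, (0 : ZMod n)), if_pos (Finset.mem_univ _),
        Matrix.mul_apply]
      simp only [hy', Matrix.of_apply, mul_ite, mul_one, mul_zero]
      rw [Finset.sum_ite_eq' Finset.univ (j, (0 : ZMod n)), if_pos (Finset.mem_univ _)]
    rw [h1, hV, Finset.sum_mul, Matrix.sum_apply]
    refine Finset.sum_eq_zero fun k _ => ?_
    rcases Nat.even_or_odd k with he | ho
    · rw [he.neg_pow, UC_zero ν hν]
    · rw [ho.neg_pow, neg_mul, Matrix.neg_apply, UC_zero ν hν, neg_zero]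
  rw [hfac, hκ.mul _ _ _ hUu hVCu, hκU, zero_add, hCy]
  rw [hCy] at hVCu
  rw [hκ.swap _ _ _ _ hVCu, hzero, add_zero]
  exact k1 ι

end Pool.Agent.Lib.MPb6f35e.KN
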