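import Pool.Agent.Lib.MP_b6f35e_al.KN.SpecW

namespace Pool.Agent.Lib.MPb6f35e.KN

open Matrix
open Pool.Agent.Lib.MP8a3537.UV (SuppIn)
open Pool.Agent.Lib.MP8a3537.RO (cut cutM cut_coeff)

namespace DECM

variable {R G V : Type} [Ring R] [Group G] [MulAction G V]

theorem TrH.symm {T : SimpleGraph V} {v w : V} (h : TrH G T v w) : TrH G T w v where
  tree := h.tree
  act := h.act
  adj := h.adj.symm
  inv := fun g hg => h.inv g ⟨hg.2, hg.1⟩
  one := by
    intro x y hxy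
    obtain ⟨g, hg⟩ := h.one x y hxy
    rcases hg with hg | hg
    · exact ⟨g, Or.inr ⟨hg.2, hg.1⟩⟩
    · exact ⟨g, Or.inl ⟨hg.2, hg.1⟩⟩

theorem TMx.symm {I J : Type} [Fintype I] [DecidableEq I] [Fintype J] [DecidableEq J] {v w : V}
    {c : J → V} {d : Matrix I J (MonoidAlgebra R G)} {D : Matrix J I (MonoidAlgebra R G)}
    (h : TMx v w c d D) : TMx w v c d D where
  loc := fun i j g hg => (h.loc i j g hg).symm
  dD := h.dD
  Dd := h.Dd

omit [Group G] in
theorem coeff_neg_ne (x : MonoidAlgebra R G) (g : G) (h : (-x).coeff g ≠ 0) : x.coeff g ≠ 0 := by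
  intro h0
  apply h
  rw [MonoidAlgebra.coeff_neg]
  rw [Finsupp.neg_apply, h0, neg_zero]

theorem pow_conj {A : Type} [Ring A] {I J : Type} [Fintype I] [DecidableEq I] [Fintype J]
    [DecidableEq J] (x : Matrix I J A) (y : Matrix J I A) (ν : Matrix I I A) (h : x * y = 1) :
    ∀ m : ℕ, (y * ν * x) ^ (m + 1) = y * ν ^ (m + 1) * x := by
  intro m
  induction m with
  | zero => rw [zero_add, pow_one, pow_one]
  | succ m ih =>
    rw [pow_succ, ih, pow_succ ν (m + 1)]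
    calc y * ν ^ (m + 1) * x * (y * ν * x) = y * ν ^ (m + 1) * (x * y) * (ν * x) := by
          simp only [Matrix.mul_assoc]
      _ = y * (ν ^ (m + 1) * ν) * x := by
          rw [h, Matrix.mul_one]
          simp only [Matrix.mul_assoc]

end DECM

open DECM in
theorem specDEC (hSPL : SpecSPL) (hNUE : SpecNUE) : SpecDEC := by
  classical
  intro R G V K _ _ _ _ κ hκ T v w hT hnil I _ _ c d D hc hD
  obtain ⟨s1, s2, -, -⟩ := hSPL R G V T v w hT I I c d D hD
  obtain ⟨-, s2', -, -⟩ := hSPL R G V T w v (TrH.symm hT) I I c d D (TMx.symm hD)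
  obtain ⟨⟨n1, n2, n3, n4⟩, ⟨n5, n6⟩, n7, ⟨m, hm⟩, t1, t2, t3, t4⟩ :=
    hNUE R G V T v w hT I I c d D hD
  set π1 := Pm v w c d D with hπ1
  set π2 := Pm w v c d D with hπ2
  set N1 := Nm T v w c d D with hN1
  set N2 := Nm T w v c d D with hN2
  set ν := nuM T v w c d D with hν
  have hN : (1 - ν) * (N1 + N2) = 1 := by
    rw [sub_mul, one_mul]
    exact sub_eq_of_eq_add n7
  have hu : IsUnit (1 - ν) := IsNilpotent.isUnit_one_sub ⟨m, hm⟩
  have huN : IsUnit (N1 + N2) := by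
    obtain ⟨u, hu'⟩ := hu
    rw [← hu'] at hN
    have h1 : N1 + N2 = (↑(u⁻¹) : Matrix I I (MonoidAlgebra R G)) := by
      calc N1 + N2 = (↑(u⁻¹) * ↑u) * (N1 + N2) := by rw [Units.inv_mul, one_mul]
        _ = ↑(u⁻¹) := by rw [mul_assoc, hN, mul_one]
    rw [h1]
    exact Units.isUnit _
  have hud : IsUnit d := ⟨⟨d, D, hD.dD, hD.Dd⟩, rfl⟩
  have huB : IsUnit ((N1 + N2) * d) := huN.mul hud
  have hxy : Matrix.fromCols π1 π2 * Matrix.fromRows π1 π2 = 1 := by
    rw [Matrix.fromCols_mul_fromRows, n1, n2, s1]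
  have hz : κ I (1 - ν) = 0 := by
    have e1 : 1 - ν = 1 + Matrix.fromCols π1 π2 * (Matrix.fromRows π1 π2 * (-ν)) := by
      rw [← Matrix.mul_assoc, hxy, one_mul, sub_eq_add_neg]
    rw [e1]
    rw [hκ.swap I (I ⊕ I) _ _ (by rw [← e1]; exact hu)]
    have e2 : Matrix.fromRows π1 π2 * (-ν) * Matrix.fromCols π1 π2 =
        -(Matrix.fromBlocks (π1 * ν * π1) (π1 * ν * π2) (π2 * ν * π1) (π2 * ν * π2)) := by
      rw [Matrix.mul_neg, Matrix.neg_mul, Matrix.fromRows_mul, Matrix.fromRows_mul_fromCols]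
    refine hnil (I ⊕ I) (Sum.elim (fun _ => true) (fun _ => false)) _ ?_ ?_
    · rw [e2]
      rintro (i | i) (j | j) g hg
      · exact t1 i j g (coeff_neg_ne _ _ hg)
      · exact t2 i j g (coeff_neg_ne _ _ hg)
      · exact t3 i j g (coeff_neg_ne _ _ hg)
      · exact t4 i j g (coeff_neg_ne _ _ hg)
    · refine ⟨m + 1, ?_⟩
      rw [pow_conj _ _ _ hxy m, neg_pow, pow_succ ν m, hm, zero_mul, mul_zero, Matrix.mul_zero,
        Matrix.zero_mul]
  have hsum : 1 - π1 = π2 := by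
    rw [← s1, add_sub_cancel_left]
  refine ⟨(N1 + N2) * d, huB, ⟨π1, c, ?_, n1, hc, ?_, ?_⟩, ?_⟩
  · intro i j g hg
    have h1 : π1 i j = cut (Hv G v w) ((dat v c d * D) i j) := rfl
    rw [h1, cut_coeff] at hg
    split_ifs at hg with h2
    · exact h2
    · exact absurd rfl hg
  · intro i j g hg
    rw [← Matrix.mul_assoc, n5] at hg
    exact (s2 i).2 j g hg
  · intro i j g hg
    rw [hsum, ← Matrix.mul_assoc, n6] at hg
    exact (s2' i).2 j g hg
  · have h1 : d = (1 - ν) * ((N1 + N2) * d) := by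
      rw [← Matrix.mul_assoc, hN, Matrix.one_mul]
    calc κ I d = κ I ((1 - ν) * ((N1 + N2) * d)) := by rw [← h1]
      _ = κ I (1 - ν) + κ I ((N1 + N2) * d) := hκ.mul I _ _ hu huB
      _ = κ I ((N1 + N2) * d) := by rw [hz, zero_add]

end Pool.Agent.Lib.MPb6f35e.KN
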