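import Pool.Agent.Lib.MP_b6f35e_al.KN.SpecC
import Pool.Agent.Lib.MP_b6f35e_al.KN.GlueMain

set_option autoImplicit false

/-!
# MP_b6f35e_al, KN part C: module DGK (helper49), diagonal matrices
-/

namespace Pool.Agent.Lib.MPb6f35e.KN

open Matrix

namespace DGKM

variable {A K : Type} [Ring A] [AddCommGroup K]

theorem isUnit_diag {ι : Type} [Fintype ι] [DecidableEq ι] (f : ι → A) (hf : ∀ i, IsUnit (f i)) :
    IsUnit (Matrix.diagonal f) := by
  choose u hu using hf
  refine ⟨⟨Matrix.diagonal f, Matrix.diagonal fun i => ((u i)⁻¹ : Aˣ).val, ?_, ?_⟩, rfl⟩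
  · rw [Matrix.diagonal_mul_diagonal, ← Matrix.diagonal_one]
    congr 1
    funext i
    rw [← hu i, Units.mul_inv]
  · rw [Matrix.diagonal_mul_diagonal, ← Matrix.diagonal_one]
    congr 1
    funext i
    rw [← hu i, Units.inv_mul]

theorem fin_diag (hKCL : SpecKCL) (κ : ∀ (ι : Type) [Fintype ι], Matrix ι ι A → K) (hκ : KF κ)
    (N : AddSubgroup K) (U : Set A) (hU : ∀ a ∈ U, IsUnit a)
    (h1 : ∀ a ∈ U, κ (Fin 1) (Matrix.diagonal fun _ => a) ∈ N) (n : ℕ) (f : Fin n → A)
    (hf : ∀ i, f i ∈ U) : κ (Fin n) (Matrix.diagonal f) ∈ N := by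
  obtain ⟨k1, k2, -, -⟩ := hKCL A K κ hκ
  induction n with
  | zero =>
    have h : Matrix.diagonal f = 1 := Subsingleton.elim _ _
    rw [h, k1]
    exact N.zero_mem
  | succ n ih =>
    have hun : IsUnit (Matrix.diagonal f) := isUnit_diag f fun i => hU _ (hf i)
    have h2 := GlueM.kf_reindex hκ (finSumFinEquiv : Fin n ⊕ Fin 1 ≃ Fin (n + 1))
      (Matrix.diagonal f) hun
    have h3 : (Matrix.diagonal f).submatrix (finSumFinEquiv : Fin n ⊕ Fin 1 ≃ Fin (n + 1))
        (finSumFinEquiv : Fin n ⊕ Fin 1 ≃ Fin (n + 1)) =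
        Matrix.fromBlocks (Matrix.diagonal fun i : Fin n => f (finSumFinEquiv (Sum.inl i))) 0 0
          (Matrix.diagonal fun i : Fin 1 => f (finSumFinEquiv (Sum.inr i))) := by
      rw [Matrix.submatrix_diagonal_equiv, Matrix.fromBlocks_diagonal]
      congr 1
      funext i
      rcases i with i | i <;> rfl
    rw [h2, h3, k2 (Fin n) (Fin 1) _ 0 _ (isUnit_diag _ fun i => hU _ (hf _))
      (isUnit_diag _ fun i => hU _ (hf _))]
    refine N.add_mem (ih _ fun i => hf _) ?_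
    have h4 : (Matrix.diagonal fun i : Fin 1 => f (finSumFinEquiv (Sum.inr i))) =
        Matrix.diagonal fun _ : Fin 1 => f (finSumFinEquiv (Sum.inr (0 : Fin 1))) := by
      congr 1
      funext i
      rw [Subsingleton.elim i 0]
    rw [h4]
    exact h1 _ (hf _)

end DGKM

open DGKM in
theorem specDGK (hKCL : SpecKCL) : SpecDGK := by
  intro A K _ _ κ hκ N U hU h1 ι _ _ f hf
  rw [GlueM.kf_reindex hκ (Fintype.equivFin ι).symm (Matrix.diagonal f)
    (isUnit_diag f fun i => hU _ (hf i)), Matrix.submatrix_diagonal_equiv]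
  exact fin_diag hKCL κ hκ N U hU h1 _ _ fun i => hf _

end Pool.Agent.Lib.MPb6f35e.KN
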