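import Pool.Agent.Lib.MP_b6f35e_al.KN.SpecL
import Pool.Agent.Lib.MP_8a3537_gt.ROK.TFA

/-!
# MP_b6f35e_al, folder KN, part L: DGR, the degree on the group of a line
-/

set_option autoImplicit false

namespace Pool.Agent.Lib.MPb6f35e.KN

open Pool.Agent.Lib.MP8a3537.ROK (TM)

namespace DGRM

variable {G V : Type} [Group G] [MulAction G V]

theorem fixn (K : Subgroup G) (g : G) (y : V) (hst : ∀ h ∈ K, g⁻¹ * h * g ∈ K)
    (hK : ∀ h ∈ K, h • y = y) (n : ℕ) : ∀ h ∈ K, h • (g ^ n • y) = g ^ n • y := by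
  induction n with
  | zero =>
    intro h hh
    rw [pow_zero, one_smul]
    exact hK h hh
  | succ n ih =>
    intro h hh
    have h1 := ih _ (hst h hh)
    have h2 : h • (g ^ (n + 1) • y) = g • ((g⁻¹ * h * g) • (g ^ n • y)) := by
      rw [pow_succ', smul_smul, smul_smul, smul_smul]
      congr 1
      group
    rw [h2, h1, smul_smul, ← pow_succ']

/-- `p g^n y = g^(n + c) y` for all large `n` -/
def E (g : G) (y : V) (p : G) (c : ℤ) : Prop :=
  ∃ n0 : ℤ, ∀ n : ℤ, n0 ≤ n → p • (g ^ n • y) = g ^ (n + c) • y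

theorem E.mul {g : G} {y : V} {p p' : G} {c c' : ℤ} (h : E g y p c) (h' : E g y p' c') :
    E g y (p * p') (c + c') := by
  obtain ⟨n0, h⟩ := h
  obtain ⟨n1, h'⟩ := h'
  refine ⟨max n1 (n0 - c'), fun n hn => ?_⟩
  rw [mul_smul, h' n (le_trans (le_max_left _ _) hn), h (n + c') (by
    have := le_trans (le_max_right _ _) hn
    linarith)]
  congr 2
  ring

theorem E.inv {g : G} {y : V} {p : G} {c : ℤ} (h : E g y p c) : E g y p⁻¹ (-c) := by
  obtain ⟨n0, h⟩ := h
  refine ⟨n0 + c, fun n hn => ?_⟩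
  have h1 := h (n - c) (by linarith)
  rw [sub_add_cancel] at h1
  rw [← h1, inv_smul_smul, ← sub_eq_add_neg]

theorem E.uniq {g : G} {y : V} {p : G} {c c' : ℤ} (h : E g y p c) (h' : E g y p c')
    (hinj : ∀ a b : ℤ, g ^ a • y = g ^ b • y → a = b) : c = c' := by
  obtain ⟨n0, h⟩ := h
  obtain ⟨n1, h'⟩ := h'
  have h1 := h (max n0 n1) (le_max_left _ _)
  have h2 := h' (max n0 n1) (le_max_right _ _)
  have h3 := hinj _ _ (h1.symm.trans h2)
  linarith

end DGRM

open DGRM

theorem specDGR : SpecDGR := by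
  intro G V _ _ d hd x y g hxy hgx hb1 hb2 hst
  obtain ⟨-, t2, t3⟩ := Pool.Agent.Lib.MP8a3537.ROK.specTFA G V d hd
  have hd0 : ∀ z : V, d z z = 0 := fun z => (hd.d0 z z).2 rfl
  unfold Btw at hb1 hb2
  have hne : g • y ≠ g • x := fun h => hxy (MulAction.injective g h).symm
  -- step (1)
  have s1 : ∀ r : V, d x r = d x y + d y r →
      d x (g • r) = d x (g • x) + d x r ∧ d x (g • r) = d x y + d y (g • r) := by
    intro r hr
    have e1 : d (g • x) (g • r) = d x r := hd.iso g x r
    have e2 : d (g • x) (g • y) = d x y := hd.iso g x y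
    have e3 : d (g • y) (g • r) = d y r := hd.iso g y r
    have h1 := t2 (g • y) (g • x) x (g • r) hne (by
      rw [hd.cm (g • y) x, hd.cm (g • y) (g • x), hd.cm (g • x) x, hb2]
      ring) (by rw [e1, e2, e3, hr])
    have h2 := t3 x y (g • y) (g • r) hb1 (by rw [h1, hb2])
    refine ⟨?_, h2⟩
    rw [h1, e2, e3, hr]
    ring
  have s2 : ∀ n : ℕ, d x (g ^ n • y) = n * d x (g • x) + d x y ∧
      d x (g ^ n • y) = d x y + d y (g ^ n • y) := by
    intro n
    induction n with
    | zero =>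
      rw [pow_zero, one_smul]
      constructor
      · simp
      · rw [hd0, add_zero]
    | succ n ih =>
      have h1 := s1 _ ih.2
      rw [smul_smul, ← pow_succ'] at h1
      refine ⟨?_, h1.2⟩
      rw [h1.1, ih.1]
      ring
  have hpos : 0 < d x (g • x) := Nat.pos_of_ne_zero fun h => hgx ((hd.d0 _ _).1 h).symm
  have s3 : ∀ n : ℕ, g ^ n • y = y → n = 0 := by
    intro n hn
    have h1 := (s2 n).1
    rw [hn] at h1
    have h2 : n * d x (g • x) = 0 := by omega
    rcases Nat.mul_eq_zero.1 h2 with h | h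
    · exact h
    · omega
  have hinj : ∀ a b : ℤ, g ^ a • y = g ^ b • y → a = b := by
    intro a b hab
    have h1 : g ^ (a - b) • y = y := by
      rw [sub_eq_add_neg, add_comm, zpow_add, mul_smul, hab, smul_smul, ← zpow_add,
        neg_add_cancel, zpow_zero, one_smul]
    rcases le_total 0 (a - b) with h | h
    · obtain ⟨n, hn⟩ := Int.eq_ofNat_of_zero_le h
      rw [hn, zpow_natCast] at h1
      have := s3 n h1
      omega
    · obtain ⟨n, hn⟩ := Int.eq_ofNat_of_zero_le (neg_nonneg.2 h)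
      have h2 : g ^ n • y = y := by
        have h3 : g ^ (-(a - b)) • y = y := by
          conv_lhs => rw [← h1]
          rw [smul_smul, ← zpow_add, neg_add_cancel, zpow_zero, one_smul]
        rwa [hn, zpow_natCast] at h3
      have := s3 n h2
      omega
  set K : Subgroup G := MulAction.stabilizer G x ⊓ MulAction.stabilizer G y with hK
  have hKy : ∀ h ∈ K, h • y = y := by
    intro h hh
    exact (Subgroup.mem_inf.1 hh).2
  have eK : ∀ h ∈ K, E g y h 0 := by
    intro h hh
    refine ⟨0, fun n hn => ?_⟩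
    obtain ⟨m, rfl⟩ := Int.eq_ofNat_of_zero_le hn
    rw [add_zero]
    have h1 := fixn K g y hst hKy m h hh
    rwa [← zpow_natCast] at h1
  have eg : E g y g 1 := by
    refine ⟨0, fun n _ => ?_⟩
    rw [smul_smul]
    congr 1
    rw [add_comm, zpow_add, zpow_one]
  have e1 : E g y (1 : G) 0 := eK 1 K.one_mem
  have ex : ∀ p ∈ lnG K g, ∃ c : ℤ, E g y p c := by
    intro p hp
    unfold lnG at hp
    induction hp using Subgroup.closure_induction with
    | mem p hp =>
      rcases hp with hp | hp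
      · exact ⟨0, eK p hp⟩
      · rw [Set.mem_singleton_iff] at hp
        subst hp
        exact ⟨1, eg⟩
    | one => exact ⟨0, e1⟩
    | mul a b _ _ ha hb =>
      obtain ⟨c, hc⟩ := ha
      obtain ⟨c', hc'⟩ := hb
      exact ⟨c + c', hc.mul hc'⟩
    | inv a _ ha =>
      obtain ⟨c, hc⟩ := ha
      exact ⟨-c, hc.inv⟩
  choose c hc using fun p : ↥(lnG K g) => ex p p.2
  refine ⟨MonoidHom.mk' (fun p => Multiplicative.ofAdd (c p)) ?_, ?_, ?_⟩
  · intro a b
    rw [← ofAdd_add]
    congr 1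
    exact (hc (a * b)).uniq ((hc a).mul (hc b)) hinj
  · intro h hh
    have h1 : c h = 0 := (hc h).uniq (eK h hh) hinj
    show Multiplicative.ofAdd (c h) = 1
    rw [h1, ofAdd_zero]
  · intro h hh
    have h1 : c h = 1 := (hc h).uniq (by rw [hh]; exact eg) hinj
    show Multiplicative.ofAdd (c h) = Multiplicative.ofAdd 1
    rw [h1]

end Pool.Agent.Lib.MPb6f35e.KN
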