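import Pool.Agent.Lib.MP_b6f35e_al.KN.Stmt
import Pool.Agent.Lib.MP_8a3537_gt.ROK.Defs

/-!
# Vanishing of Waldhausen's Nil classes: definitions (MP_b6f35e_al, folder KN)

Conventions: `S = R[L]`, `A = R[G]`; left modules, rows `x ᵥ* M`; the letters of type `(a, b)` lead from
`a` to `b`, words are read from the left to the right.
-/

namespace Pool.Agent.Lib.MPb6f35e.KN

open Matrix
open Pool.Agent.Lib.MP8a3537.UV (emb res lres SuppIn)
open Pool.Agent.Lib.MP8a3537.RO (Bi dc Kg cut)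
open Pool.Agent.Lib.MP8a3537.ROK (TM)

/-! ### Letters and words -/

section Groups

variable {G S : Type} [Group G]

/-- Typed data: `Z a b` are the letters of type `(a, b)`; the last letter of a product `y x`,
`y ∈ Y a`, `x ∈ Z a b`, is unique up to `H`. -/
structure TD (H : Subgroup G) (Z : S → S → Set G) (Y : S → Set G) : Prop where
  hz : ∀ a b, ∀ h ∈ H, ∀ x ∈ Z a b, h * x ∈ Z a b
  zh : ∀ a b, ∀ h ∈ H, ∀ x ∈ Z a b, x * h ∈ Z a b
  yh : ∀ a, ∀ h ∈ H, ∀ y ∈ Y a, y * h ∈ Y a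
  one : ∀ a, (1 : G) ∈ Y a
  yz : ∀ a b, ∀ y ∈ Y a, ∀ x ∈ Z a b, y * x ∈ Y b
  uq : ∀ a a' b, ∀ y ∈ Y a, ∀ x ∈ Z a b, ∀ y' ∈ Y a', ∀ x' ∈ Z a' b, y * x = y' * x' →
    a = a' ∧ x' * x⁻¹ ∈ H

/-- Data with one type. -/
abbrev TD1 (L : Subgroup G) (X Y : Set G) : Prop :=
  TD (S := Unit) L (fun _ _ => X) (fun _ => Y)

/-- Words from `a`. -/
inductive Wo (H : Subgroup G) (Z : S → S → Set G) (a : S) : S → G → Prop
  | base {h : G} : h ∈ H → Wo H Z a a h
  | snoc {b c : S} {w x : G} : Wo H Z a b w → x ∈ Z b c → Wo H Z a c (w * x)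

/-- The letters without those of type `(s, t)` in `H g H`. -/
def Za (H : Subgroup G) (Z : S → S → Set G) (s t : S) (g : G) (a b : S) : Set G :=
  {x | x ∈ Z a b ∧ ¬ (a = s ∧ b = t ∧ x ∈ dc H g)}

/-- The letters of the block: `g` times a word from `t` to `s` which avoids `H g H` at `(s, t)`. -/
def BL (H : Subgroup G) (Z : S → S → Set G) (s t : S) (g : G) : Set G :=
  {x | ∃ w, Wo H (Za H Z s t g) t s w ∧ x = g * w}

/-- The products of `j` letters of `X`. -/
def Xw (L : Subgroup G) (X : Set G) : ℕ → Set G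
  | 0 => {x | x ∈ L}
  | j + 1 => {x | ∃ w ∈ Xw L X j, ∃ y ∈ X, x = w * y}

end Groups

/-! ### Geometry -/

section Geometry

variable {G V S : Type} [Group G] [MulAction G V]

/-- `q` is between `p` and `r`. -/
def Btw (d : V → V → ℕ) (p q r : V) : Prop := d p r = d p q + d q r

/-- The ends of typed data. -/
structure GeoK (d : V → V → ℕ) (H : Subgroup G) (Z : S → S → Set G) (p q : S → V) : Prop where
  ne : ∀ a, p a ≠ q a
  len : ∀ a b, d (p a) (q a) = d (p b) (q b)
  st : ∀ a, ∀ g : G, g ∈ H ↔ g • p a = p a ∧ g • q a = q a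
  dp : ∀ a b, ∀ x ∈ Z a b, ∀ r, Btw d (p b) (q b) r → Btw d (p a) (q a) (x • r)
  dm : ∀ a b, ∀ x ∈ Z a b, ∀ r, Btw d (q a) (p a) r → Btw d (q b) (p b) (x⁻¹ • r)
  nf : ∀ a b, ∀ x ∈ Z a b, ¬ (x • p b = p a ∧ x • q b = q a)

/-- The ends of data with one type. -/
abbrev Geo1 (d : V → V → ℕ) (L : Subgroup G) (X : Set G) (p q : V) : Prop :=
  GeoK (S := Unit) d L (fun _ _ => X) (fun _ => p) (fun _ => q)

end Geometry

/-! ### Functions like `K_1` -/

/-- A function on the square matrices with the properties of the class in `K_1`. -/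
structure KF {A K : Type} [Ring A] [AddCommGroup K]
    (κ : ∀ (ι : Type) [Fintype ι], Matrix ι ι A → K) : Prop where
  mul : ∀ (ι : Type) [Fintype ι] [DecidableEq ι] (a b : Matrix ι ι A), IsUnit a → IsUnit b →
    κ ι (a * b) = κ ι a + κ ι b
  swap : ∀ (ι ι' : Type) [Fintype ι] [DecidableEq ι] [Fintype ι'] [DecidableEq ι']
    (x : Matrix ι ι' A) (y : Matrix ι' ι A), IsUnit (1 + x * y) →
    κ ι (1 + x * y) = κ ι' (1 + y * x)

section Van

variable {R G K : Type} [Ring R] [Group G] [AddCommGroup K]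

/-- `κ (1 + ν) = 0` for all nilpotent matrices `ν` with support in `X`. -/
def Van (κ : ∀ (ι : Type) [Fintype ι], Matrix ι ι (MonoidAlgebra R G) → K) (X : Set G) : Prop :=
  ∀ (ι : Type) [Fintype ι] [DecidableEq ι] (ν : Matrix ι ι (MonoidAlgebra R G)),
    SuppIn X ν → IsNilpotent ν → κ ι (1 + ν) = 0

end Van

section Typed

variable {R G S ι : Type} [Ring R]

/-- The entry `(i, j)` is supported in `Z (τ i) (τ j)`. -/
def Ty (Z : S → S → Set G) (τ : ι → S) (ν : Matrix ι ι (MonoidAlgebra R G)) : Prop :=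
  ∀ i j g, (ν i j).coeff g ≠ 0 → g ∈ Z (τ i) (τ j)

/-- The part of `ν` whose entry `(i, j)` is supported in `c (τ i) (τ j)`. -/
noncomputable def pt (τ : ι → S) (c : S → S → Set G) (ν : Matrix ι ι (MonoidAlgebra R G)) :
    Matrix ι ι (MonoidAlgebra R G) := Matrix.of fun i j => cut (c (τ i) (τ j)) (ν i j)

/-- The set `H g H` at `(s, t)`. -/
def cs [Group G] (H : Subgroup G) (s t : S) (g : G) (a b : S) : Set G :=
  {x | a = s ∧ b = t ∧ x ∈ dc H g}

/-- The complement of `cs`. -/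
def cc [Group G] (H : Subgroup G) (s t : S) (g : G) (a b : S) : Set G :=
  {x | ¬ (a = s ∧ b = t ∧ x ∈ dc H g)}

end Typed

/-- `∑_{i < N} (-ν)^i`, the inverse of `1 + ν` if `ν^N = 0`. -/
def Wn {A ι : Type} [Ring A] [Fintype ι] [DecidableEq ι] (N : ℕ) (ν : Matrix ι ι A) :
    Matrix ι ι A := ∑ i ∈ Finset.range N, (-ν) ^ i

/-! ### Complexes -/

/-- A bounded complex of finitely generated projective left `S`-modules: `C_k` is the set of the rows
`x` of degree `k` with `x p = x`, the differential is `x ↦ x e`. -/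
structure PC (S : Type) [Ring S] where
  I : Type
  fI : Fintype I
  dI : DecidableEq I
  deg : I → ℕ
  p : Matrix I I S
  e : Matrix I I S
  hp : ∀ i j, p i j ≠ 0 → deg i = deg j
  he : ∀ i j, e i j ≠ 0 → deg i = deg j + 1
  pp : p * p = p
  pe : p * e = e
  ep : e * p = e
  ee : e * e = 0

attribute [instance] PC.fI PC.dI

section Complexes

variable {S : Type} [Ring S]

/-- `C` is a resolution of `N`. -/
structure Rs (C : PC S) {N : Type} [AddCommGroup N] [Module S N] (pi : (C.I → S) →ₗ[S] N) :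
    Prop where
  low : ∀ x : C.I → S, (∀ i, C.deg i = 0 → x i = 0) → pi x = 0
  pip : ∀ x, pi (x ᵥ* C.p) = pi x
  surj : Function.Surjective pi
  zero : ∀ x, pi (x ᵥ* C.e) = 0
  ker : ∀ x : C.I → S, (∀ i, x i ≠ 0 → C.deg i = 0) → x ᵥ* C.p = x → pi x = 0 →
    ∃ y : C.I → S, (∀ i, y i ≠ 0 → C.deg i = 1) ∧ y ᵥ* C.p = y ∧ y ᵥ* C.e = x
  ex : ∀ q, 1 ≤ q → ∀ x : C.I → S, (∀ i, x i ≠ 0 → C.deg i = q) → x ᵥ* C.p = x →
    x ᵥ* C.e = 0 → ∃ y : C.I → S, (∀ i, y i ≠ 0 → C.deg i = q + 1) ∧ y ᵥ* C.p = y ∧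
      y ᵥ* C.e = x

/-- `f` is a chain map `D → C` (of degree `0`). -/
structure CM (D C : PC S) (f : Matrix D.I C.I S) : Prop where
  dg : ∀ i j, f i j ≠ 0 → D.deg i = C.deg j
  pf : D.p * f = f
  fp : f * C.p = f
  ef : D.e * f = f * C.e

/-- The mapping cone of `f : D → C`. -/
def cone (D C : PC S) (f : Matrix D.I C.I S) (hf : CM D C f) : PC S where
  I := C.I ⊕ D.I
  fI := inferInstance
  dI := inferInstance
  deg := Sum.elim C.deg fun i => D.deg i + 1
  p := fromBlocks C.p 0 0 D.p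
  e := fromBlocks C.e 0 f (-D.e)
  hp := by
    rintro (i | i) (j | j) h
    · exact C.hp i j h
    · exact absurd rfl h
    · exact absurd rfl h
    · exact congrArg (· + 1) (D.hp i j h)
  he := by
    rintro (i | i) (j | j) h
    · exact C.he i j h
    · exact absurd rfl h
    · exact congrArg (· + 1) (hf.dg i j h)
    · refine congrArg (· + 1) (D.he i j fun h' => h ?_)
      show (-D.e) i j = 0
      rw [Matrix.neg_apply, h', neg_zero]
  pp := by
    rw [fromBlocks_multiply]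
    simp [C.pp, D.pp]
  pe := by
    rw [fromBlocks_multiply]
    simp [C.pe, D.pe, hf.pf]
  ep := by
    rw [fromBlocks_multiply]
    simp [C.ep, D.ep, hf.fp]
  ee := by
    rw [fromBlocks_multiply]
    simp [C.ee, D.ee, hf.ef]

end Complexes

/-! ### Complexes with a nilpotent endomorphism over `R[G]` -/

section Nil

variable {R G : Type} [Ring R] [Group G]

/-- The matrix `M` over `R[L]` as a matrix over `R[G]`. -/
noncomputable abbrev em (L : Subgroup G) {ι ι' : Type} (M : Matrix ι ι' (MonoidAlgebra R L)) :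
    Matrix ι ι' (MonoidAlgebra R G) := M.map (emb R L)

/-- The row `c` over `R[L]` as a row over `R[G]`. -/
noncomputable abbrev er (L : Subgroup G) {ι : Type} (c : ι → MonoidAlgebra R L) :
    ι → MonoidAlgebra R G := fun i => emb R L (c i)

/-- The component of the row `z` at the left coset `t L`. -/
noncomputable abbrev rs (L : Subgroup G) (t : G) {ι : Type} (z : ι → MonoidAlgebra R G) :
    ι → MonoidAlgebra R L := fun i => res L t (z i)

/-- `μ` is a nilpotent endomorphism of the complex `A ⊗ C` with support in `X`. -/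
structure NS (L : Subgroup G) (X : Set G) (C : PC (MonoidAlgebra R L))
    (μ : Matrix C.I C.I (MonoidAlgebra R G)) : Prop where
  dg : ∀ i j, μ i j ≠ 0 → C.deg i = C.deg j
  su : SuppIn X μ
  pm : em L C.p * μ = μ
  mp : μ * em L C.p = μ
  ch : μ * em L C.e = em L C.e * μ
  nil : IsNilpotent μ

/-- The diagonal matrix with entry `1` in even degrees, `0` in odd degrees. -/
def Ev {S : Type} [Ring S] (C : PC S) (A : Type) [Ring A] : Matrix C.I C.I A :=
  Matrix.diagonal fun i => if Even (C.deg i) then 1 else 0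

/-- The alternating sum of the `κ (1 + μ_k)`. -/
def ts {S A K : Type} [Ring S] [Ring A] [AddCommGroup K]
    (κ : ∀ (ι : Type) [Fintype ι], Matrix ι ι A → K) (C : PC S) (μ : Matrix C.I C.I A) : K :=
  κ C.I (1 + Ev C A * μ) - κ C.I (1 + (1 - Ev C A) * μ)

variable {ι : Type} [Fintype ι] [DecidableEq ι]

/-- The submodule `{c | c ν^j = 0}` of `S^ι`. -/
noncomputable def Kj (L : Subgroup G) (ν : Matrix ι ι (MonoidAlgebra R G)) (j : ℕ) :
    Submodule (MonoidAlgebra R L) (ι → MonoidAlgebra R L) where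
  carrier := {c | er L c ᵥ* ν ^ j = 0}
  add_mem' := by
    intro a b ha hb
    have h : er L (a + b) = er L a + er L b := by
      funext i
      exact map_add _ _ _
    show er L (a + b) ᵥ* ν ^ j = 0
    rw [h, add_vecMul, show er L a ᵥ* ν ^ j = 0 from ha, show er L b ᵥ* ν ^ j = 0 from hb, add_zero]
  zero_mem' := by
    have h : er L (0 : ι → MonoidAlgebra R L) = 0 := by
      funext i
      exact map_zero _
    show er L (0 : ι → MonoidAlgebra R L) ᵥ* ν ^ j = 0
    rw [h, zero_vecMul]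
  smul_mem' := by
    intro s a ha
    have h : er L (s • a) = emb R L s • er L a := by
      funext i
      exact map_mul _ _ _
    show er L (s • a) ᵥ* ν ^ j = 0
    rw [h, smul_vecMul, show er L a ᵥ* ν ^ j = 0 from ha, smul_zero]

theorem mem_Kj (L : Subgroup G) (ν : Matrix ι ι (MonoidAlgebra R G)) (j : ℕ)
    (c : ι → MonoidAlgebra R L) : c ∈ Kj L ν j ↔ er L c ᵥ* ν ^ j = 0 := Iff.rfl

theorem Kj_le (L : Subgroup G) (ν : Matrix ι ι (MonoidAlgebra R G)) (j : ℕ) :
    Kj L ν j ≤ Kj L ν (j + 1) := by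
  intro c hc
  rw [mem_Kj] at hc ⊢
  rw [pow_succ, ← vecMul_vecMul, hc, zero_vecMul]

/-- The map `S^ι / K_j → S^ι / K_(j+1)`. -/
noncomputable abbrev th (L : Subgroup G) (ν : Matrix ι ι (MonoidAlgebra R G)) (j : ℕ) :
    ((ι → MonoidAlgebra R L) ⧸ Kj L ν j) →ₗ[MonoidAlgebra R L]
      ((ι → MonoidAlgebra R L) ⧸ Kj L ν (j + 1)) := Submodule.factor (Kj_le L ν j)

/-- The state after `j` steps. -/
structure IsSt (L : Subgroup G) (X : Set G) (ν : Matrix ι ι (MonoidAlgebra R G)) (j : ℕ)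
    (C : PC (MonoidAlgebra R L)) (μ : Matrix C.I C.I (MonoidAlgebra R G))
    (b : Matrix ι C.I (MonoidAlgebra R L))
    (pi : (C.I → MonoidAlgebra R L) →ₗ[MonoidAlgebra R L]
      ((ι → MonoidAlgebra R L) ⧸ Kj L ν j)) : Prop where
  ns : NS L X C μ
  rs : Rs C pi
  dg : ∀ i j, b i j ≠ 0 → C.deg j = 0
  bp : b * C.p = b
  bm : em L b * μ = ν * em L b
  bc : ∀ c : ι → MonoidAlgebra R L, pi (c ᵥ* b) = Submodule.Quotient.mk c

/-- There is a state after `j` steps with `ts = κ (1 + ν)`. -/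
def HasSt {K : Type} [AddCommGroup K]
    (κ : ∀ (ι : Type) [Fintype ι], Matrix ι ι (MonoidAlgebra R G) → K) (L : Subgroup G) (X : Set G)
    (ν : Matrix ι ι (MonoidAlgebra R G)) (j : ℕ) : Prop :=
  ∃ (C : PC (MonoidAlgebra R L)) (μ : Matrix C.I C.I (MonoidAlgebra R G))
    (b : Matrix ι C.I (MonoidAlgebra R L))
    (pi : (C.I → MonoidAlgebra R L) →ₗ[MonoidAlgebra R L] ((ι → MonoidAlgebra R L) ⧸ Kj L ν j)),
    IsSt L X ν j C μ b pi ∧ ts κ C μ = κ ι (1 + ν)

end Nil

end Pool.Agent.Lib.MPb6f35e.KN
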