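import Pool.Agent.Lib.MP_b6f35e_al.KN.Spec
import Pool.Agent.Lib.MP_8a3537_gt.ROK.TRG

/-! Module EGE (helper72): the geometry of an edge. -/

namespace Pool.Agent.Lib.MPb6f35e.KN

open Pool.Agent.Lib.MP8a3537.ROK.TRGAux (br_iff)
open Pool.Agent.Lib.MP8a3537.UV.TREAux (Br smul_Br br_sub)

namespace EGEM

variable {G V : Type} [Group G] [MulAction G V] {T : SimpleGraph V} {v w : V}

theorem adj_en (ha : T.Adj v w) (a : Bool) : T.Adj (en v w a).1 (en v w a).2 := by
  cases a
  · exact ha.symm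
  · exact ha

theorem fwd (hT : T.IsTree) (hG : ∀ (g : G) (x y : V), T.Adj x y → T.Adj (g • x) (g • y))
    {p q p' q' r : V} {x : G} (h : T.Adj p q) (h' : T.Adj p' q') (h1 : x • p' = q)
    (h2 : x • q' ≠ p) (hr : r ∈ Br T p' q') : x • r ∈ Br T p q := by
  have hau : T.Adj q (x • q') := by
    have := hG x p' q' h'
    rwa [h1] at this
  have := smul_Br hT hG x hr
  rw [h1] at this
  exact br_sub hT h.symm hau h2 this

end EGEM

open EGEM in
theorem specEGE : SpecEGE := by
  intro G V _ _ T v w hT hG ha hinv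
  refine ⟨fun a => (adj_en ha a).ne, ?_, ?_, ?_, ?_, ?_⟩
  · intro a b
    show T.dist _ _ = T.dist _ _
    rw [SimpleGraph.dist_eq_one_iff_adj.mpr (adj_en ha a),
      SimpleGraph.dist_eq_one_iff_adj.mpr (adj_en ha b)]
  · intro a g
    rw [Subgroup.mem_inf, MulAction.mem_stabilizer_iff, MulAction.mem_stabilizer_iff]
    cases a
    · exact and_comm
    · exact Iff.rfl
  · intro a b x hx r hr
    exact (br_iff hT (adj_en ha a)).mpr
      (fwd hT hG (adj_en ha a) (adj_en ha b) hx.1 hx.2 ((br_iff hT (adj_en ha b)).mp hr))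
  · intro a b x hx r hr
    refine (br_iff hT (adj_en ha b).symm).mpr
      (fwd hT hG (adj_en ha b).symm (adj_en ha a).symm ?_ ?_
        ((br_iff hT (adj_en ha a).symm).mp hr))
    · rw [inv_smul_eq_iff]
      exact hx.1.symm
    · intro e
      rw [inv_smul_eq_iff] at e
      exact hx.2 e.symm
  · intro a b x hx h
    exact (adj_en ha a).ne (h.1.symm.trans hx.1)

end Pool.Agent.Lib.MPb6f35e.KN
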