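import Pool.Agent.Lib.MP_b6f35e_al.KN.Spec

namespace Pool.Agent.Lib.MPb6f35e.KN

open Matrix

namespace ELAM

variable {A : Type} [Ring A] {ι : Type} [Fintype ι] [DecidableEq ι]

/-- The additive subgroup generated by the products of at least `k` factors `a`, `b`. -/
def E (a b : Matrix ι ι A) (k : ℕ) : AddSubgroup (Matrix ι ι A) :=
  AddSubgroup.closure {P | ∃ l : List (Matrix ι ι A), (∀ m ∈ l, m = a ∨ m = b) ∧ k ≤ l.length ∧
    P = l.prod}

theorem E_prod (a b : Matrix ι ι A) (k : ℕ) (l : List (Matrix ι ι A))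
    (h : ∀ m ∈ l, m = a ∨ m = b) (hk : k ≤ l.length) : l.prod ∈ E a b k :=
  AddSubgroup.subset_closure ⟨l, h, hk, rfl⟩

theorem E_mul {a b : Matrix ι ι A} {k l : ℕ} {u v : Matrix ι ι A} (hu : u ∈ E a b k)
    (hv : v ∈ E a b l) : u * v ∈ E a b (k + l) := by
  unfold E at hu
  induction hu using AddSubgroup.closure_induction with
  | mem u hu =>
    obtain ⟨l1, h1, hk1, rfl⟩ := hu
    unfold E at hv
    induction hv using AddSubgroup.closure_induction with
    | mem v hv =>
      obtain ⟨l2, h2, hk2, rfl⟩ := hv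
      rw [← List.prod_append]
      refine E_prod a b _ _ ?_ ?_
      · intro m hm
        rcases List.mem_append.1 hm with hm | hm
        · exact h1 m hm
        · exact h2 m hm
      · rw [List.length_append]
        omega
    | zero =>
      rw [mul_zero]
      exact AddSubgroup.zero_mem _
    | add x y _ _ hx hy =>
      rw [mul_add]
      exact AddSubgroup.add_mem _ hx hy
    | neg x _ hx =>
      rw [mul_neg]
      exact AddSubgroup.neg_mem _ hx
  | zero =>
    rw [zero_mul]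
    exact AddSubgroup.zero_mem _
  | add x y _ _ hx hy =>
    rw [add_mul]
    exact AddSubgroup.add_mem _ hx hy
  | neg x _ hx =>
    rw [neg_mul]
    exact AddSubgroup.neg_mem _ hx

theorem E_mono {a b : Matrix ι ι A} {k l : ℕ} (h : k ≤ l) {u : Matrix ι ι A} (hu : u ∈ E a b l) :
    u ∈ E a b k := by
  refine AddSubgroup.closure_mono ?_ hu
  rintro P ⟨l1, h1, h2, h3⟩
  exact ⟨l1, h1, h.trans h2, h3⟩

theorem E_zero {a b : Matrix ι ι A} {N : ℕ}
    (hl : ∀ l : List (Matrix ι ι A), (∀ m ∈ l, m = a ∨ m = b) → N ≤ l.length → l.prod = 0)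
    {u : Matrix ι ι A} (hu : u ∈ E a b N) : u = 0 := by
  have h : E a b N ≤ ⊥ := by
    refine (AddSubgroup.closure_le _).2 ?_
    rintro P ⟨l1, h1, h2, rfl⟩
    exact (AddSubgroup.mem_bot).2 (hl l1 h1 h2)
  exact (AddSubgroup.mem_bot).1 (h hu)

theorem E_one (a b : Matrix ι ι A) : (1 : Matrix ι ι A) ∈ E a b 0 :=
  E_prod a b 0 [] (fun _ hm => absurd hm List.not_mem_nil) (Nat.zero_le _)

theorem E_pow {a b : Matrix ι ι A} {k : ℕ} {u : Matrix ι ι A} (hu : u ∈ E a b k) :
    ∀ n, u ^ n ∈ E a b (n * k) := by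
  intro n
  induction n with
  | zero =>
    rw [pow_zero, Nat.zero_mul]
    exact E_one a b
  | succ n ih =>
    rw [pow_succ, Nat.succ_mul]
    exact E_mul ih hu

theorem E_a (a b : Matrix ι ι A) : a ∈ E a b 1 := by
  have h := E_prod a b 1 [a] (fun m hm => Or.inl (List.mem_singleton.1 hm)) le_rfl
  rwa [List.prod_singleton] at h

theorem E_b (a b : Matrix ι ι A) : b ∈ E a b 1 := by
  have h := E_prod a b 1 [b] (fun m hm => Or.inr (List.mem_singleton.1 hm)) le_rfl
  rwa [List.prod_singleton] at h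

theorem E_W (a b : Matrix ι ι A) (N : ℕ) : Wn N a ∈ E a b 0 := by
  refine AddSubgroup.sum_mem _ fun i _ => ?_
  have h := E_pow (AddSubgroup.neg_mem _ (E_a a b)) i
  exact E_mono (Nat.zero_le _) h

end ELAM

open ELAM in
theorem specELA : SpecELA := by
  intro A K _ _ κ hκ ι ρ _ _ _ _ ν0 νc x y z N hc hl
  have h0 : ν0 ^ N = 0 := by
    have h := E_zero hl (E_mono (by omega) (E_pow (E_a ν0 νc) N))
    exact h
  set W := Wn N ν0 with hW
  have hWE : W ∈ E ν0 νc 0 := E_W ν0 νc N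
  have hW1 : (1 + ν0) * W = 1 := by
    have h := mul_neg_geom_sum (-ν0) N
    rw [neg_pow, h0, mul_zero, sub_zero, sub_neg_eq_add] at h
    exact h
  have hW2 : W * (1 + ν0) = 1 := by
    have h := geom_sum_mul_neg (-ν0) N
    rw [neg_pow, h0, mul_zero, sub_zero, sub_neg_eq_add] at h
    exact h
  have hcW : (νc * W) ^ N = 0 :=
    E_zero hl (E_mono (by omega) (E_pow (E_mul (E_b ν0 νc) hWE) N))
  have hWc : (W * νc) ^ N = 0 :=
    E_zero hl (E_mono (by omega) (E_pow (E_mul hWE (E_b ν0 νc)) N))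
  have hn : ∀ k : ℕ, (y * z * W * x) ^ (k + 1) = y * z * W * (νc * W) ^ k * x := by
    intro k
    induction k with
    | zero => rw [pow_zero, zero_add, pow_one, Matrix.mul_one]
    | succ k ih =>
      rw [pow_succ, ih, pow_succ, hc]
      simp only [Matrix.mul_assoc]
  refine ⟨⟨N, h0⟩, ⟨N + 1, ?_⟩, ?_⟩
  · rw [hn, hcW, Matrix.mul_zero, Matrix.zero_mul]
  · have hu1 : IsUnit (1 + ν0) := ⟨⟨1 + ν0, W, hW1, hW2⟩, rfl⟩
    have hu2 : IsUnit (1 + W * νc) := IsNilpotent.isUnit_one_add ⟨N, hWc⟩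
    have e1 : 1 + (ν0 + νc) = (1 + ν0) * (1 + W * νc) := by
      rw [mul_add, mul_one, ← mul_assoc, hW1, one_mul, add_assoc]
    have e2 : W * νc = (W * x) * (y * z) := by
      rw [hc]
      simp only [Matrix.mul_assoc]
    have e3 : y * z * W * x = (y * z) * (W * x) := by
      simp only [Matrix.mul_assoc]
    rw [e1, hκ.mul ι _ _ hu1 hu2, e3]
    congr 1
    rw [e2]
    refine hκ.swap ι ρ _ _ ?_
    rw [← e2]
    exact hu2

end Pool.Agent.Lib.MPb6f35e.KN
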