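import Pool.Agent.Lib.MP_b6f35e_al.KN.Spec

set_option autoImplicit false

/-!
# MP_b6f35e_al, KN: module ELK (helper49), all letters are removed
-/

namespace Pool.Agent.Lib.MPb6f35e.KN

open Matrix
open Pool.Agent.Lib.MP8a3537.UV (emb res lres SuppIn)
open Pool.Agent.Lib.MP8a3537.RO (Bi dc Kg cut cut_coeff)

namespace ELKM

section Sets

variable {G S : Type} [Group G]

theorem dc_self (H : Subgroup G) (g : G) : g ∈ dc H g :=
  ⟨1, H.one_mem, 1, H.one_mem, by simp⟩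

theorem dc_left {H : Subgroup G} {g h x : G} (hh : h ∈ H) (hx : x ∈ dc H g) : h * x ∈ dc H g := by
  obtain ⟨a, ha, b, hb, rfl⟩ := hx
  exact ⟨h * a, H.mul_mem hh ha, b, hb, by group⟩

theorem dc_right {H : Subgroup G} {g h x : G} (hh : h ∈ H) (hx : x ∈ dc H g) : x * h ∈ dc H g := by
  obtain ⟨a, ha, b, hb, rfl⟩ := hx
  exact ⟨a, ha, b * h, H.mul_mem hb hh, by group⟩

theorem bi_cs (H : Subgroup G) (s t : S) (g : G) (a b : S) : Bi H (cs H s t g a b) :=
  ⟨fun _ hh _ hx => ⟨hx.1, hx.2.1, dc_left hh hx.2.2⟩,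
    fun _ hh _ hx => ⟨hx.1, hx.2.1, dc_right hh hx.2.2⟩⟩

theorem bi_cc (H : Subgroup G) (s t : S) (g : G) (a b : S) : Bi H (cc H s t g a b) := by
  refine ⟨fun h hh x hx h' => hx ⟨h'.1, h'.2.1, ?_⟩, fun h hh x hx h' => hx ⟨h'.1, h'.2.1, ?_⟩⟩
  · have h1 := dc_left (H.inv_mem hh) h'.2.2
    rwa [inv_mul_cancel_left] at h1
  · have h1 := dc_right (H.inv_mem hh) h'.2.2
    rwa [mul_inv_cancel_right] at h1

end Sets

section Parts

variable {R G S ι : Type} [Ring R]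

open Classical in
theorem pt_coeff (τ : ι → S) (c : S → S → Set G) (ν : Matrix ι ι (MonoidAlgebra R G)) (i j : ι)
    (x : G) : (pt τ c ν i j).coeff x = if x ∈ c (τ i) (τ j) then (ν i j).coeff x else 0 :=
  cut_coeff _ _ _

theorem pt_ne {τ : ι → S} {c : S → S → Set G} {ν : Matrix ι ι (MonoidAlgebra R G)} {i j : ι}
    {x : G} (h : (pt τ c ν i j).coeff x ≠ 0) : x ∈ c (τ i) (τ j) ∧ (ν i j).coeff x ≠ 0 := by
  classical
  rw [pt_coeff] at h
  by_cases hx : x ∈ c (τ i) (τ j)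
  · rw [if_pos hx] at h
    exact ⟨hx, h⟩
  · rw [if_neg hx] at h
    exact absurd rfl h

theorem pt_sum [Group G] (H : Subgroup G) (s t : S) (g : G) (τ : ι → S)
    (ν : Matrix ι ι (MonoidAlgebra R G)) : pt τ (cc H s t g) ν + pt τ (cs H s t g) ν = ν := by
  classical
  refine Matrix.ext fun i j => ?_
  ext x
  rw [Matrix.add_apply, MonoidAlgebra.coeff_add, Finsupp.add_apply, pt_coeff, pt_coeff]
  by_cases h : x ∈ cs H s t g (τ i) (τ j)
  · have h' : x ∉ cc H s t g (τ i) (τ j) := fun hc => hc h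
    rw [if_pos h, if_neg h', zero_add]
  · have h' : x ∈ cc H s t g (τ i) (τ j) := h
    rw [if_neg h, if_pos h', add_zero]

/-- the number of letters. -/
noncomputable def ms [Fintype ι] (ν : Matrix ι ι (MonoidAlgebra R G)) : ℕ :=
  ∑ i, ∑ j, (ν i j).coeff.support.card

theorem ms_lt [Group G] [Fintype ι] (H : Subgroup G) (g : G) (τ : ι → S)
    (ν : Matrix ι ι (MonoidAlgebra R G)) (i0 j0 : ι) (h : (ν i0 j0).coeff g ≠ 0) :
    ms (pt τ (cc H (τ i0) (τ j0) g) ν) < ms ν := by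
  have hsub : ∀ i j, (pt τ (cc H (τ i0) (τ j0) g) ν i j).coeff.support ⊆
      (ν i j).coeff.support := by
    intro i j x hx
    rw [Finsupp.mem_support_iff] at hx ⊢
    exact (pt_ne hx).2
  refine Finset.sum_lt_sum (fun i _ => Finset.sum_le_sum fun j _ => Finset.card_le_card (hsub i j))
    ⟨i0, Finset.mem_univ _, ?_⟩
  refine Finset.sum_lt_sum (fun j _ => Finset.card_le_card (hsub i0 j))
    ⟨j0, Finset.mem_univ _, ?_⟩
  refine Finset.card_lt_card (Finset.ssubset_iff_subset_ne.2 ⟨hsub i0 j0, ?_⟩)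
  intro heq
  have h1 : g ∈ (ν i0 j0).coeff.support := Finsupp.mem_support_iff.2 h
  rw [← heq, Finsupp.mem_support_iff] at h1
  exact (pt_ne h1).1 ⟨rfl, rfl, dc_self H g⟩

theorem list_pt (τ : ι → S) (ν a b : Matrix ι ι (MonoidAlgebra R G)) (P : (S → S → Set G) → Prop)
    (ca cb : S → S → Set G) (ha : pt τ ca ν = a) (hb : pt τ cb ν = b) (hPa : P ca) (hPb : P cb)
    (l : List (Matrix ι ι (MonoidAlgebra R G))) (hl : ∀ m ∈ l, m = a ∨ m = b) :
    ∃ l' : List (S → S → Set G), (∀ c ∈ l', P c) ∧ l'.length = l.length ∧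
      (l'.map fun c => pt τ c ν) = l := by
  induction l with
  | nil => exact ⟨[], by simp, rfl, rfl⟩
  | cons m l ih =>
    obtain ⟨l', h1, h2, h3⟩ := ih fun m' hm' => hl m' (List.mem_cons_of_mem _ hm')
    rcases hl m List.mem_cons_self with hm | hm
    · refine ⟨ca :: l', ?_, ?_, ?_⟩
      · intro c hc
        rcases List.mem_cons.1 hc with rfl | hc
        · exact hPa
        · exact h1 c hc
      · rw [List.length_cons, List.length_cons, h2]
      · rw [List.map_cons, h3, ha, hm]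
    · refine ⟨cb :: l', ?_, ?_, ?_⟩
      · intro c hc
        rcases List.mem_cons.1 hc with rfl | hc
        · exact hPb
        · exact h1 c hc
      · rw [List.length_cons, List.length_cons, h2]
      · rw [List.map_cons, h3, hb, hm]

end Parts

end ELKM

open ELKM in
theorem specELK (hKCL : SpecKCL) (hJNK : SpecJNK) (hELA : SpecELA) (hFAK : SpecFAK)
    (hSUK : SpecSUK) : SpecELK := by
  intro R G K S _ _ _ κ hκ H Z Y hTD hvan ι _ _ τ ν hTy hnil
  have hone := (hKCL (MonoidAlgebra R G) K κ hκ).1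
  obtain ⟨n, hn⟩ : ∃ n, ms ν = n := ⟨_, rfl⟩
  induction n using Nat.strong_induction_on generalizing ν with
  | _ n ih =>
    by_cases h0 : ν = 0
    · rw [h0, add_zero]
      exact hone ι
    obtain ⟨i0, j0, g, hg⟩ : ∃ i0 j0 g, (ν i0 j0).coeff g ≠ 0 := by
      by_contra hcon
      push Not at hcon
      refine h0 (Matrix.ext fun i j => ?_)
      ext x
      exact hcon i j x
    obtain ⟨N, hN⟩ := hnil
    have hsum := pt_sum H (τ i0) (τ j0) g τ ν
    have hTy0 : Ty (Za H Z (τ i0) (τ j0) g) τ (pt τ (cc H (τ i0) (τ j0) g) ν) := by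
      intro i j x hx
      exact ⟨hTy i j x (pt_ne hx).2, (pt_ne hx).1⟩
    have hTy1 : Ty Z τ (pt τ (cc H (τ i0) (τ j0) g) ν) := fun i j x hx => (hTy0 i j x hx).1
    obtain ⟨ρ, fρ, dρ, x, y, z, hxyz, hx, hy, hz⟩ := hFAK R G S H (τ i0) (τ j0) g ι τ ν
    have hl : ∀ l : List (Matrix ι ι (MonoidAlgebra R G)),
        (∀ m ∈ l, m = pt τ (cc H (τ i0) (τ j0) g) ν ∨ m = pt τ (cs H (τ i0) (τ j0) g) ν) →
        N ≤ l.length → l.prod = 0 := by
      intro l hl hlen
      obtain ⟨l', h1, h2, h3⟩ := list_pt τ ν _ _ (fun c => ∀ a b, Bi H (c a b))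
        (cc H (τ i0) (τ j0) g) (cs H (τ i0) (τ j0) g) rfl rfl (bi_cc H _ _ g) (bi_cs H _ _ g) l hl
      rw [← h3]
      exact hJNK R G S H Z Y hTD ι τ ν hTy N hN l' h1 (h2 ▸ hlen)
    obtain ⟨hn0, hn1, heq⟩ := hELA (MonoidAlgebra R G) K κ hκ ι ρ _ _ x y z N hxyz hl
    have hsup := hSUK R G S H Z Y hTD (τ i0) (τ j0) g ι ρ τ _ x y z N hTy0 hx hy hz
    have hz0 := hvan (τ i0) (τ j0) g (hTy i0 j0 g hg) ρ _ hsup hn1
    have hih := ih (ms (pt τ (cc H (τ i0) (τ j0) g) ν))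
      (by rw [← hn]; exact ms_lt H g τ ν i0 j0 hg) _ hTy1 hn0 rfl
    rw [hsum] at heq
    rw [heq, hih, hz0, add_zero]

end Pool.Agent.Lib.MPb6f35e.KN
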