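import Pool.Agent.Lib.MP_b6f35e_al.KN.SpecL
import Pool.Agent.Lib.MP_b6f35e_al.KN.ELK

set_option autoImplicit false

/-!
# MP_b6f35e_al, KN: module ELU (helper54), elimination of the unstable letters
-/

namespace Pool.Agent.Lib.MPb6f35e.KN

open Matrix
open Pool.Agent.Lib.MP8a3537.UV (emb res lres SuppIn)
open Pool.Agent.Lib.MP8a3537.RO (Bi dc Kg cut cut_coeff)

open ELKM in
theorem specELU (hKCL : SpecKCL) (hJNK : SpecJNK) (hELA : SpecELA) (hFAK : SpecFAK)
    (hSUK : SpecSUK) : SpecELU := by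
  intro R G K _ _ _ κ hκ L X Y hTD hvan hst ι _ _ ν hS hnil
  have _ := hKCL
  obtain ⟨n, hn⟩ : ∃ n, ms ν = n := ⟨_, rfl⟩
  induction n using Nat.strong_induction_on generalizing ν with
  | _ n ih =>
    by_cases h0 : ∀ i j x, (ν i j).coeff x ≠ 0 → x ∈ StL L
    · exact hst ι ν (fun i j x hx => ⟨hS i j x hx, h0 i j x hx⟩) hnil
    obtain ⟨i0, j0, g, hg, hgn⟩ : ∃ i0 j0 g, (ν i0 j0).coeff g ≠ 0 ∧ g ∉ StL L := by
      by_contra hcon
      push Not at hcon
      exact h0 hcon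
    obtain ⟨N, hN⟩ := hnil
    have hTy : Ty (fun _ _ : Unit => X) (fun _ : ι => ()) ν := hS
    have hsum := pt_sum L () () g (fun _ : ι => ()) ν
    have hTy0 : Ty (Za L (fun _ _ : Unit => X) () () g) (fun _ : ι => ())
        (pt (fun _ : ι => ()) (cc L () () g) ν) := by
      intro i j x hx
      exact ⟨hTy i j x (pt_ne hx).2, (pt_ne hx).1⟩
    have hTy1 : SuppIn X (pt (fun _ : ι => ()) (cc L () () g) ν) :=
      fun i j x hx => (hTy0 i j x hx).1
    obtain ⟨ρ, fρ, dρ, x, y, z, hxyz, hx, hy, hz⟩ :=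
      hFAK R G Unit L () () g ι (fun _ : ι => ()) ν
    have hl : ∀ l : List (Matrix ι ι (MonoidAlgebra R G)),
        (∀ m ∈ l, m = pt (fun _ : ι => ()) (cc L () () g) ν ∨
          m = pt (fun _ : ι => ()) (cs L () () g) ν) →
        N ≤ l.length → l.prod = 0 := by
      intro l hl hlen
      obtain ⟨l', h1, h2, h3⟩ := list_pt (fun _ : ι => ()) ν _ _ (fun c => ∀ a b, Bi L (c a b))
        (cc L () () g) (cs L () () g) rfl rfl (bi_cc L _ _ g) (bi_cs L _ _ g) l hl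
      rw [← h3]
      exact hJNK R G Unit L (fun _ _ => X) (fun _ => Y) hTD ι (fun _ : ι => ()) ν hTy N hN l' h1
        (h2 ▸ hlen)
    obtain ⟨hn0, hn1, heq⟩ := hELA (MonoidAlgebra R G) K κ hκ ι ρ _ _ x y z N hxyz hl
    have hsup := hSUK R G Unit L (fun _ _ => X) (fun _ => Y) hTD () () g ι ρ (fun _ : ι => ()) _
      x y z N hTy0 hx hy hz
    have hz0 := hvan g (hS i0 j0 g hg) hgn ρ _ hsup hn1
    have hih := ih (ms (pt (fun _ : ι => ()) (cc L () () g) ν))
      (by rw [← hn]; exact ms_lt L g (fun _ : ι => ()) ν i0 j0 hg) _ hTy1 hn0 rfl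
    rw [hsum] at heq
    rw [heq, hih, hz0, add_zero]

end Pool.Agent.Lib.MPb6f35e.KN
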