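import Pool.Agent.Lib.MP_b6f35e_al.KN.Spec
import Pool.Agent.Lib.MP_8a3537_gt.UV.TRE

/-! Module ETD (helper40): the typed data of an edge. -/

namespace Pool.Agent.Lib.MPb6f35e.KN

open Pool.Agent.Lib.MP8a3537.UV.TREAux (Br smul_Br br_sub br_unique mem_self not_mem YY YY_one YY_mul)

namespace ETDM

variable {G V : Type} [Group G] [MulAction G V] {T : SimpleGraph V} {v w : V}

theorem adj_en (ha : T.Adj v w) (a : Bool) : T.Adj (en v w a).1 (en v w a).2 := by
  cases a
  · exact ha.symm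
  · exact ha

/-- The sets `Y a`. -/
def Yf (G : Type) {V : Type} [Group G] [MulAction G V] (T : SimpleGraph V) (v w : V) (a : Bool) :
    Set G := {y | y⁻¹ ∈ YY G T (en v w a).2 (en v w a).1}

theorem memH (h : G) : h ∈ (MulAction.stabilizer G v ⊓ MulAction.stabilizer G w) ↔
    h • v = v ∧ h • w = w := by
  rw [Subgroup.mem_inf, MulAction.mem_stabilizer_iff, MulAction.mem_stabilizer_iff]

theorem fix {h : G} (hv : h • v = v) (hw : h • w = w) (a : Bool) :
    h • (en v w a).1 = (en v w a).1 ∧ h • (en v w a).2 = (en v w a).2 := by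
  cases a
  · exact ⟨hw, hv⟩
  · exact ⟨hv, hw⟩

theorem of_fix {h : G} (a : Bool) (h1 : h • (en v w a).1 = (en v w a).1)
    (h2 : h • (en v w a).2 = (en v w a).2) : h • v = v ∧ h • w = w := by
  cases a
  · exact ⟨h2, h1⟩
  · exact ⟨h1, h2⟩

/-- The image of the two vertices. -/
theorem img (hT : T.IsTree) (hG : ∀ (g : G) (x y : V), T.Adj x y → T.Adj (g • x) (g • y))
    {p q c : V} (ha : T.Adj q p) {x y : G} (hx : x • q = c) (hy : y ∈ YY G T q p) :
    T.Adj c (x • p) ∧ (x * y) • p ∈ Br T c (x • p) ∧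
      ((x * y) • q ∈ Br T c (x • p) ∨ (x * y) • q = c) := by
  obtain ⟨h1, h2⟩ := hy
  refine ⟨?_, ?_, ?_⟩
  · have := hG x q p ha
    rwa [hx] at this
  · have := smul_Br hT hG x h1
    rwa [hx, smul_smul] at this
  · rcases h2 with h2 | h2
    · left
      have := smul_Br hT hG x h2
      rwa [hx, smul_smul] at this
    · right
      rw [mul_smul, h2, hx]

end ETDM

open ETDM in
theorem specETD : SpecETD := by
  intro G V _ _ T v w hT hG ha hinv
  refine ⟨Yf G T v w, ?_⟩
  constructor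
  · -- hz
    intro a b h hh x hx
    rw [memH] at hh
    obtain ⟨f1, f2⟩ := fix hh.1 hh.2 a
    refine ⟨?_, fun e => hx.2 ?_⟩
    · rw [mul_smul, hx.1, f2]
    · rw [mul_smul] at e
      have := congrArg (fun z => h⁻¹ • z) e
      simp only [inv_smul_smul] at this
      rw [this, inv_smul_eq_iff, f1]
  · -- zh
    intro a b h hh x hx
    rw [memH] at hh
    obtain ⟨f1, f2⟩ := fix hh.1 hh.2 b
    refine ⟨?_, ?_⟩
    · rw [mul_smul, f1, hx.1]
    · rw [mul_smul, f2]
      exact hx.2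
  · -- yh
    intro a h hh y hy
    rw [memH] at hh
    obtain ⟨f1, f2⟩ := fix hh.1 hh.2 a
    show (y * h)⁻¹ ∈ YY G T (en v w a).2 (en v w a).1
    rw [mul_inv_rev]
    refine YY_mul hT hG ?_ ?_ hy
    · rw [inv_smul_eq_iff, f2]
    · rw [inv_smul_eq_iff, f1]
  · -- one
    intro a
    show (1 : G)⁻¹ ∈ YY G T (en v w a).2 (en v w a).1
    rw [inv_one]
    exact YY_one (adj_en ha a).symm
  · -- yz
    intro a b y hy x hx
    show (y * x)⁻¹ ∈ YY G T (en v w b).2 (en v w b).1
    rw [mul_inv_rev]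
    have hx1 : x⁻¹ • (en v w a).2 = (en v w b).1 := by
      rw [inv_smul_eq_iff, hx.1]
    have hx2 : x⁻¹ • (en v w a).1 ≠ (en v w b).2 := by
      intro e
      rw [inv_smul_eq_iff] at e
      exact hx.2 e.symm
    obtain ⟨i1, i2, i3⟩ := img hT hG (adj_en ha a).symm hx1 hy
    have hsub := br_sub hT (adj_en ha b) i1 hx2
    have k1 : (x⁻¹ * y⁻¹) • (en v w a).1 ∈ Br T (en v w b).2 (en v w b).1 := hsub i2
    have k2 : (x⁻¹ * y⁻¹) • (en v w a).2 ∈ Br T (en v w b).2 (en v w b).1 := by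
      rcases i3 with i3 | i3
      · exact hsub i3
      · rw [i3]
        exact mem_self (adj_en ha b).symm
    have k : (x⁻¹ * y⁻¹) • v ∈ Br T (en v w b).2 (en v w b).1 ∧
        (x⁻¹ * y⁻¹) • w ∈ Br T (en v w b).2 (en v w b).1 := by
      cases a
      · exact ⟨k2, k1⟩
      · exact ⟨k1, k2⟩
    cases b
    · exact ⟨k.2, Or.inl k.1⟩
    · exact ⟨k.1, Or.inl k.2⟩
  · -- uq
    intro a a' b y hy x hx y' hy' x' hx' e
    have e' : x⁻¹ * y⁻¹ = x'⁻¹ * y'⁻¹ := by
      rw [← mul_inv_rev, ← mul_inv_rev, e]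
    have hx1 : x⁻¹ • (en v w a).2 = (en v w b).1 := by
      rw [inv_smul_eq_iff, hx.1]
    have hx1' : x'⁻¹ • (en v w a').2 = (en v w b).1 := by
      rw [inv_smul_eq_iff, hx'.1]
    obtain ⟨i1, i2, i3⟩ := img hT hG (adj_en ha a).symm hx1 hy
    obtain ⟨j1, j2, j3⟩ := img hT hG (adj_en ha a').symm hx1' hy'
    by_cases haa : a = a'
    · subst haa
      refine ⟨rfl, ?_⟩
      rw [← e'] at j2
      have e3 := br_unique hT i1 j1 i2 j2
      rw [memH]
      apply of_fix a
      · rw [mul_smul, e3, smul_inv_smul]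
      · rw [mul_smul, hx1, ← hx1', smul_inv_smul]
    · exfalso
      have hs : (en v w a').1 = (en v w a).2 ∧ (en v w a').2 = (en v w a).1 := by
        cases a <;> cases a' <;> first | exact absurd rfl haa | exact ⟨rfl, rfl⟩
      obtain ⟨s1, s2⟩ := hs
      rw [s1] at j1 j2 j3
      rw [s2] at hx1'
      rw [← e'] at j2
      have e3 : x⁻¹ • (en v w a).1 = x'⁻¹ • (en v w a).2 := by
        rcases i3 with i3 | i3
        · exact br_unique hT i1 j1 i3 j2
        · exfalso
          rw [i3] at j2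
          exact not_mem _ _ j2
      have g1 : (x' * x⁻¹) • (en v w a).1 = (en v w a).2 := by
        rw [mul_smul, e3, smul_inv_smul]
      have g2 : (x' * x⁻¹) • (en v w a).2 = (en v w a).1 := by
        rw [mul_smul, hx1, ← hx1', smul_inv_smul]
      apply hinv (x' * x⁻¹)
      cases a
      · exact ⟨g2, g1⟩
      · exact ⟨g1, g2⟩

end Pool.Agent.Lib.MPb6f35e.KN
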