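import Pool.Agent.Lib.MP_b6f35e_al.KN.SpecC

/-! # folder KN: quotients of submodules (EXA) -/

set_option autoImplicit false

namespace Pool.Agent.Lib.MPb6f35e.KN

namespace EXAM

variable {S M : Type} [Ring S] [AddCommGroup M] [Module S M]

theorem split (X Y Z : Submodule S M) (hXY : X ≤ Y) (hYZ : Y ≤ Z)
    (hP : Module.Projective S (Qt Z Y)) : Nonempty (Qt Z X ≃ₗ[S] (Qt Z Y × Qt Y X)) := by
  have h1 : X.submoduleOf Z ≤ Y.submoduleOf Z := fun z hz => hXY hz
  have h2 : X.submoduleOf Y ≤ (X.submoduleOf Z).comap (Submodule.inclusion hYZ) := fun z hz => hz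
  obtain ⟨p, hp⟩ : ∃ p : Qt Z X →ₗ[S] Qt Z Y, p = Submodule.factor h1 := ⟨_, rfl⟩
  obtain ⟨j, hj⟩ : ∃ j : Qt Y X →ₗ[S] Qt Z X,
      j = Submodule.mapQ (X.submoduleOf Y) (X.submoduleOf Z) (Submodule.inclusion hYZ) h2 :=
    ⟨_, rfl⟩
  have hps : Function.Surjective p := by
    intro w
    induction w using Submodule.Quotient.induction_on with
    | _ w => exact ⟨Submodule.Quotient.mk w, by rw [hp]; rfl⟩
  obtain ⟨s, hs⟩ := Module.projective_lifting_property p LinearMap.id hps
  have hs' : ∀ u, p (s u) = u := fun u => LinearMap.congr_fun hs u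
  have hpj : ∀ v, p (j v) = 0 := by
    intro v
    induction v using Submodule.Quotient.induction_on with
    | _ v =>
      rw [hp, hj]
      show Submodule.Quotient.mk (Submodule.inclusion hYZ v) = (0 : Qt Z Y)
      rw [Submodule.Quotient.mk_eq_zero]
      exact v.2
  have hji : ∀ v, j v = 0 → v = 0 := by
    intro v
    induction v using Submodule.Quotient.induction_on with
    | _ v =>
      intro h
      rw [hj] at h
      change Submodule.Quotient.mk (Submodule.inclusion hYZ v) = (0 : Qt Z X) at h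
      rw [Submodule.Quotient.mk_eq_zero] at h ⊢
      exact h
  have hex : ∀ w, p w = 0 → ∃ v, j v = w := by
    intro w
    induction w using Submodule.Quotient.induction_on with
    | _ w =>
      intro h
      rw [hp] at h
      change (Submodule.Quotient.mk w : Qt Z Y) = 0 at h
      rw [Submodule.Quotient.mk_eq_zero] at h
      exact ⟨Submodule.Quotient.mk ⟨w.1, h⟩, by rw [hj]; rfl⟩
  refine ⟨(LinearEquiv.ofBijective (LinearMap.coprod s j) ⟨?_, ?_⟩).symm⟩
  · rw [injective_iff_map_eq_zero]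
    rintro ⟨u, v⟩ h
    rw [LinearMap.coprod_apply] at h
    have h3 : u = 0 := by
      have := congrArg p h
      rw [map_add, hs', hpj, add_zero, map_zero] at this
      exact this
    subst h3
    have h4 : v = 0 := hji v (by simpa using h)
    rw [h4]
    rfl
  · intro w
    obtain ⟨v, hv⟩ := hex (w - s (p w)) (by rw [map_sub, hs', sub_self])
    exact ⟨(p w, v), by rw [LinearMap.coprod_apply, hv]; exact add_sub_cancel _ _⟩

theorem im {M' : Type} [AddCommGroup M'] [Module S M'] (f : M →ₗ[S] M') (X Y : Submodule S M)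
    (hf : Function.Injective f) (hXY : X ≤ Y) :
    Nonempty (Qt Y X ≃ₗ[S] Qt (Y.map f) (X.map f)) := by
  refine ⟨Submodule.Quotient.equiv _ _ (Submodule.equivMapOfInjective f hf Y) ?_⟩
  ext ⟨w, hw⟩
  constructor
  · rintro ⟨y, hy, e⟩
    refine ⟨y.1, hy, ?_⟩
    exact congrArg Subtype.val e
  · rintro ⟨x, hx, e⟩
    refine ⟨⟨x, hXY hx⟩, hx, ?_⟩
    exact Subtype.ext e

end EXAM

/-- **EXA** -/
theorem specEXA : SpecEXA := fun _ _ =>
  ⟨fun _ _ _ X Y Z hXY hYZ hP => EXAM.split X Y Z hXY hYZ hP,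
    fun _ _ _ _ _ _ f X Y hf hXY => EXAM.im f X Y hf hXY⟩

end Pool.Agent.Lib.MPb6f35e.KN
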