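import Pool.Agent.Lib.MP_b6f35e_al.KN.Spec

namespace Pool.Agent.Lib.MPb6f35e.KN

open Matrix
open Pool.Agent.Lib.MP8a3537.UV (SuppIn)
open Pool.Agent.Lib.MP8a3537.RO (dc cut cut_coeff)

namespace FAKM

variable {R G : Type} [Ring R]

theorem sum_single (x : MonoidAlgebra R G) :
    ∑ u : {u : G // u ∈ x.coeff.support}, MonoidAlgebra.single u.1 (x.coeff u.1) = x := by
  classical
  rw [Finset.sum_coe_sort x.coeff.support (fun u => MonoidAlgebra.single u (x.coeff u))]
  ext y
  rw [MonoidAlgebra.coeff_sum, Finsupp.finsetSum_apply]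
  simp only [MonoidAlgebra.coeff_single, Finsupp.single_apply]
  rw [Finset.sum_ite_eq']
  split_ifs with h
  · rfl
  · exact (Finsupp.notMem_support_iff.1 h).symm

end FAKM

open FAKM in
theorem specFAK : SpecFAK := by
  classical
  intro R G S _ _ H s t g ι _ _ τ ν
  set νc := pt τ (cs H s t g) ν with hνc
  have hc : ∀ i j u, (νc i j).coeff u ≠ 0 → τ i = s ∧ τ j = t ∧ u ∈ dc H g := by
    intro i j u hu
    have h1 : νc i j = cut (cs H s t g (τ i) (τ j)) (ν i j) := rfl
    rw [h1, cut_coeff] at hu
    split_ifs at hu with h2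
    · exact h2
    · exact absurd rfl hu
  let ρ : Type := Σ p : ι × ι, {u : G // u ∈ (νc p.1 p.2).coeff.support}
  have hk : ∀ k : ρ, ∃ h ∈ H, ∃ h' ∈ H, k.2.1 = h * g * h' ∧ τ k.1.1 = s ∧ τ k.1.2 = t := by
    intro k
    obtain ⟨h1, h2, h3⟩ := hc k.1.1 k.1.2 k.2.1 (Finsupp.mem_support_iff.1 k.2.2)
    obtain ⟨h, hh, h', hh', e⟩ := h3
    exact ⟨h, hh, h', hh', e, h1, h2⟩
  choose h hh h' hh' he hs ht using hk
  refine ⟨ρ, inferInstance, inferInstance,
    Matrix.of fun i k => if k.1.1 = i then
      MonoidAlgebra.single (h k) ((νc k.1.1 k.1.2).coeff k.2.1) else 0,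
    Matrix.diagonal fun _ => MonoidAlgebra.single g 1,
    Matrix.of fun k j => if k.1.2 = j then MonoidAlgebra.single (h' k) 1 else 0, ?_, ?_, ?_, ?_⟩
  · ext i j : 1
    rw [Matrix.mul_apply]
    simp only [Matrix.mul_diagonal, Matrix.of_apply]
    have e1 : ∀ k : ρ, (if k.1.1 = i then
        MonoidAlgebra.single (h k) ((νc k.1.1 k.1.2).coeff k.2.1) else 0) *
        MonoidAlgebra.single g (1 : R) *
        (if k.1.2 = j then MonoidAlgebra.single (h' k) (1 : R) else 0) =
        if k.1 = (i, j) then
          MonoidAlgebra.single k.2.1 ((νc k.1.1 k.1.2).coeff k.2.1) else 0 := by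
      intro k
      by_cases h1 : k.1.1 = i
      · by_cases h2 : k.1.2 = j
        · rw [if_pos h1, if_pos h2, if_pos (Prod.ext h1 h2), MonoidAlgebra.single_mul_single,
            MonoidAlgebra.single_mul_single, mul_one, mul_one, ← he k]
        · rw [if_neg h2, mul_zero, if_neg]
          intro h3
          exact h2 (congrArg Prod.snd h3)
      · rw [if_neg h1, zero_mul, zero_mul, if_neg]
        intro h3
        exact h1 (congrArg Prod.fst h3)
    rw [Finset.sum_congr rfl fun k _ => e1 k, Fintype.sum_sigma]
    rw [Finset.sum_eq_single (i, j)]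
    · simp only [if_true]
      exact (sum_single (νc i j)).symm
    · intro p _ hp
      refine Finset.sum_eq_zero fun u _ => ?_
      exact if_neg hp
    · intro h0
      exact absurd (Finset.mem_univ _) h0
  · intro i k u hu
    rw [Matrix.of_apply] at hu
    split_ifs at hu with h1
    · rw [MonoidAlgebra.coeff_single, Finsupp.single_apply] at hu
      split_ifs at hu with h2
      · refine ⟨?_, ?_⟩
        · rw [← h2]
          exact hh k
        · rw [← h1]
          exact hs k
      · exact absurd rfl hu
    · exact absurd rfl hu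
  · intro i j u hu
    rw [Matrix.diagonal_apply] at hu
    split_ifs at hu with h1
    · rw [MonoidAlgebra.coeff_single, Finsupp.single_apply] at hu
      split_ifs at hu with h2
      · exact h2.symm
      · exact absurd rfl hu
    · exact absurd rfl hu
  · intro k j u hu
    rw [Matrix.of_apply] at hu
    split_ifs at hu with h1
    · rw [MonoidAlgebra.coeff_single, Finsupp.single_apply] at hu
      split_ifs at hu with h2
      · refine ⟨?_, ?_⟩
        · rw [← h2]
          exact hh' k
        · rw [← h1]
          exact ht k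
      · exact absurd rfl hu
    · exact absurd rfl hu

end Pool.Agent.Lib.MPb6f35e.KN
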