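import Pool.Agent.Lib.MP_b6f35e_al.KN.Spec
import Pool.Agent.Lib.MP_8a3537_gt.ROK.FPT

/-! Module FIN (helper23): the theorem from its parts. -/

namespace Pool.Agent.Lib.MPb6f35e.KN

open Matrix
open Pool.Agent.Lib.MP8a3537.UV (emb res lres SuppIn)
open Pool.Agent.Lib.MP8a3537.RO (Bi dc Kg cut)
open Pool.Agent.Lib.MP8a3537.ROK (TM)

namespace FINM

/-- The segment from `x` to `y` contains the edge. -/
def P {V : Type} (d : V → V → ℕ) (v w x y : V) : Prop :=
  d x y = d x v + 1 + d w y ∨ d x y = d x w + 1 + d v y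

theorem P_ext {G V : Type} [Group G] [MulAction G V] {d : V → V → ℕ} (h : TM G d) {v w : V}
    (h1 : d v w = 1) {x y z : V} (hP : P d v w x y) (hB : Btw d x y z) : P d v w x z := by
  unfold Btw at hB
  rcases hP with hP | hP
  · left
    have t1 := h.tri w y z
    have t2 := h.tri x v z
    have t3 := h.tri v w z
    omega
  · right
    have t1 := h.tri v y z
    have t2 := h.tri x w z
    have t3 := h.tri w v z
    have t4 := h.cm w v
    omega

end FINM

open FINM in
theorem specFIN (hKIN : SpecKIN) (hELK : SpecELK) (hBLT : SpecBLT) (hBGE : SpecBGE)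
    (hEGE : SpecEGE) (hETD : SpecETD) (hINK : SpecINK) (hBAS : SpecBAS) : SpecFIN := by
  intro R G V _ _ _ T v w k hT hG hvw hinv hk n τ ν hν hnil u hu
  obtain ⟨κ, hκ, hκu⟩ := hKIN (MonoidAlgebra R G)
  have hTM : TM G (V := V) T.dist := Pool.Agent.Lib.MP8a3537.ROK.specFPT G V T hT hG
  have hd : T.dist v w = 1 := SimpleGraph.dist_eq_one_iff_adj.mpr hvw
  obtain ⟨Y, hY⟩ := hETD G V T v w hT hG hvw hinv
  have hgeo := hEGE G V T v w hT hG hvw hinv
  have hbase : ∀ (L : Subgroup G) (X Y : Set G) (p q : V), TD1 L X Y → Geo1 T.dist L X p q →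
      k ≤ T.dist p q → P T.dist v w p q → Van κ X := by
    intro L X Y p q hTD hg hkp hP
    have hL : L = MulAction.stabilizer G p ⊓ MulAction.stabilizer G q := by
      ext g
      rw [Subgroup.mem_inf, MulAction.mem_stabilizer_iff, MulAction.mem_stabilizer_iff]
      exact hg.st () g
    have hreg : RegCoh (MonoidAlgebra R ↥(MulAction.stabilizer G p ⊓ MulAction.stabilizer G q)) := by
      rcases hP with hP | hP
      · exact hk p q hkp hP
      · have h1 : T.dist q p = T.dist q v + 1 + T.dist w p := by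
          rw [T.dist_comm (u := q) (v := p), T.dist_comm (u := q) (v := v),
            T.dist_comm (u := w) (v := p), hP]
          omega
        have h2 := hk q p (by rw [T.dist_comm]; exact hkp) h1
        rw [inf_comm]
        exact h2
    subst hL
    exact hBAS R G _ κ hκ _ X Y hTD hreg
  have hvan : ∀ s t, ∀ g ∈ Let G v w s t, Van κ (BL (MulAction.stabilizer G v ⊓
      MulAction.stabilizer G w) (Let G v w) s t g) := by
    intro s t g hg
    obtain ⟨h1, h2, -⟩ := hBGE G V Bool T.dist hTM _ _ _ _ hgeo s t g hg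
    refine hINK R G _ V κ T.dist hκ hTM (P T.dist v w) k (fun x y z => P_ext hTM hd) hbase _ _
      _ _ _ (hBLT G Bool _ _ Y hY s t g hg) h1 (P_ext hTM hd ?_ h2)
    cases s
    · right
      show T.dist w v = T.dist w w + 1 + T.dist v v
      rw [SimpleGraph.dist_self, SimpleGraph.dist_self, T.dist_comm, hd]
    · left
      show T.dist v w = T.dist v v + 1 + T.dist w w
      rw [SimpleGraph.dist_self, SimpleGraph.dist_self, hd]
  have h0 := hELK R G _ Bool κ hκ _ _ Y hY hvan (Fin n) τ ν hν hnil
  rw [← hκu n u, hu]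
  exact h0

end Pool.Agent.Lib.MPb6f35e.KN
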