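import Pool.Agent.Lib.MP_b6f35e_al.KN.Spec
import Pool.Agent.Lib.MP_8a3537_gt.UV.RES

/-!
# FLX: exactness over `R[G]` with supports
-/

namespace Pool.Agent.Lib.MPb6f35e.KN

open Matrix
open Pool.Agent.Lib.MP8a3537.UV (emb res lres SuppIn RESAux.res_sum RESAux.res_mul_emb RESAux.decomp
  RESAux.exists_of_coeff_sum_ne RESAux.mem_of_emb_ne RESAux.res_zero RESAux.eq_zero_of_res res_coeff)

namespace FLXM

variable {R G : Type} [Ring R] [Group G] (L : Subgroup G)

theorem rs_vecMul {I J : Type} [Fintype I] (t : G) (z : I → MonoidAlgebra R G)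
    (M : Matrix I J (MonoidAlgebra R L)) : rs L t (z ᵥ* em L M) = (rs L t z) ᵥ* M := by
  funext j
  simp only [rs, em, Matrix.vecMul, dotProduct, Matrix.map_apply]
  rw [RESAux.res_sum]
  exact Finset.sum_congr rfl fun k _ => RESAux.res_mul_emb L t _ _

theorem rs_zero {I : Type} (t : G) : rs L t (0 : I → MonoidAlgebra R G) = 0 := by
  funext j
  exact RESAux.res_zero L t

theorem exists_coeff {I : Type} (t : G) (z : I → MonoidAlgebra R G) (i : I)
    (h : rs L t z i ≠ 0) : ∃ h' : L, (z i).coeff (t * h') ≠ 0 := by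
  by_contra hc
  push Not at hc
  apply h
  ext h'
  simpa [rs, res_coeff] using hc h'

/-- Assemble a row over `R[G]` from its components. -/
theorem assemble {I : Type} [Fintype I] (X : Set G) (hX : ∀ h ∈ L, ∀ x ∈ X, x * h ∈ X)
    (dg : I → ℕ) (d : ℕ) (p e : Matrix I I (MonoidAlgebra R L)) (z : I → MonoidAlgebra R G)
    (hz : ∀ i g, (z i).coeff g ≠ 0 → g ∈ X)
    (hT : ∀ t, ∃ θ : I → MonoidAlgebra R L, (∀ i, θ i ≠ 0 → dg i = d) ∧ θ ᵥ* p = θ ∧
      θ ᵥ* e = rs L t z) :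
    ∃ y : I → MonoidAlgebra R G, (∀ i g, (y i).coeff g ≠ 0 → g ∈ X ∧ dg i = d) ∧
      y ᵥ* em L p = y ∧ y ᵥ* em L e = z := by
  classical
  have hT' : ∀ q : G ⧸ L, ∃ θ : I → MonoidAlgebra R L, (∀ i, θ i ≠ 0 → dg i = d) ∧ θ ᵥ* p = θ ∧
      θ ᵥ* e = rs L q.out z ∧ (rs L q.out z = 0 → θ = 0) := by
    intro q
    by_cases h0 : rs L q.out z = 0
    · refine ⟨0, fun i h => absurd rfl h, by simp, by rw [h0]; simp, fun _ => rfl⟩
    · obtain ⟨θ, h1, h2, h3⟩ := hT q.out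
      exact ⟨θ, h1, h2, h3, fun h => absurd h h0⟩
  choose Θ hΘ1 hΘ2 hΘ3 hΘ4 using hT'
  obtain ⟨Q, hQ⟩ : ∃ Q : Finset (G ⧸ L), ∀ i g, (z i).coeff g ≠ 0 → (g : G ⧸ L) ∈ Q := by
    refine ⟨Finset.univ.biUnion fun i : I =>
      (z i).coeff.support.image (fun g : G => (QuotientGroup.mk g : G ⧸ L)), fun i g hg => ?_⟩
    rw [Finset.mem_biUnion]
    exact ⟨i, Finset.mem_univ _, Finset.mem_image_of_mem _ (Finsupp.mem_support_iff.2 hg)⟩
  have key : ∀ (M : Matrix I I (MonoidAlgebra R L)) (j : I),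
      ((fun i => ∑ q ∈ Q, MonoidAlgebra.single q.out 1 * emb R L (Θ q i)) ᵥ* em L M) j =
        ∑ q ∈ Q, MonoidAlgebra.single q.out 1 * emb R L ((Θ q ᵥ* M) j) := by
    intro M j
    simp only [Matrix.vecMul, dotProduct, em, Matrix.map_apply, Finset.sum_mul]
    rw [Finset.sum_comm]
    refine Finset.sum_congr rfl fun q _ => ?_
    rw [map_sum, Finset.mul_sum]
    refine Finset.sum_congr rfl fun k _ => ?_
    rw [map_mul, mul_assoc]
  refine ⟨fun i => ∑ q ∈ Q, MonoidAlgebra.single q.out 1 * emb R L (Θ q i), ?_, ?_, ?_⟩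
  · intro i g hg
    obtain ⟨q, _, hq⟩ := RESAux.exists_of_coeff_sum_ne _ _ _ hg
    rw [MonoidAlgebra.coeff_single_mul_apply, one_mul] at hq
    have hmem := RESAux.mem_of_emb_ne L _ _ hq
    have hne : Θ q i ≠ 0 := by
      intro h0
      apply hq
      rw [h0]
      simp
    refine ⟨?_, hΘ1 q i hne⟩
    have hne2 : rs L q.out z ≠ 0 := fun h => hne (by rw [hΘ4 q h]; rfl)
    obtain ⟨i', hi'⟩ : ∃ i', rs L q.out z i' ≠ 0 := by
      by_contra hc
      push Not at hc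
      exact hne2 (funext hc)
    obtain ⟨h', hx⟩ := exists_coeff L q.out z i' hi'
    have hxX := hz i' _ hx
    have := hX ((h' : G)⁻¹ * (q.out⁻¹ * g)) (L.mul_mem (L.inv_mem h'.2) hmem) _ hxX
    simpa [mul_assoc] using this
  · funext j
    rw [key p j]
    exact Finset.sum_congr rfl fun q _ => by rw [hΘ2 q]
  · funext j
    rw [key e j]
    have h1 := RESAux.decomp L (fun q : G ⧸ L => q.out) (fun q => QuotientGroup.out_eq' q) (z j) Q
      (fun g hg => hQ j g hg)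
    rw [h1]
    refine Finset.sum_congr rfl fun q _ => ?_
    rw [hΘ3 q]

end FLXM

theorem specFLX : SpecFLX := by
  intro R G _ _ L X hX C N _ _ pi hRs
  constructor
  · intro q hq z hz hzp hze
    refine FLXM.assemble L X hX C.deg (q + 1) C.p C.e z (fun i g h => (hz i g h).1) ?_
    intro t
    refine hRs.ex q hq (rs L t z) ?_ ?_ ?_
    · intro i hi
      obtain ⟨h', hx⟩ := FLXM.exists_coeff L t z i hi
      exact (hz i _ hx).2
    · rw [← FLXM.rs_vecMul, hzp]
    · rw [← FLXM.rs_vecMul, hze, FLXM.rs_zero]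
  · intro z hz hzp hpi
    refine FLXM.assemble L X hX C.deg 1 C.p C.e z (fun i g h => (hz i g h).1) ?_
    intro t
    refine hRs.ker (rs L t z) ?_ ?_ (hpi t)
    · intro i hi
      obtain ⟨h', hx⟩ := FLXM.exists_coeff L t z i hi
      exact (hz i _ hx).2
    · rw [← FLXM.rs_vecMul, hzp]

end Pool.Agent.Lib.MPb6f35e.KN
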