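import Pool.Agent.Lib.MP_b6f35e_al.KN.SpecW

/-! Module FNW (helper23): glued matrices generate. -/

namespace Pool.Agent.Lib.MPb6f35e.KN

open Matrix
open Pool.Agent.Lib.MP8a3537.UV (emb res lres SuppIn)

theorem specFNW (hDEC : SpecDEC) (hHIG : SpecHIG) (hGEN : SpecGEN) (hTMX : SpecTMX) :
    SpecFNW := by
  intro R G V K _ _ _ _ κ hκ T v w hT hnil N hN ι _ _ M hM
  refine hHIG R G K κ hκ N (Sg G v w) (Or.inl (Or.inl (one_smul G v))) (hGEN G V T v w hT) ?_ ι M hM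
  intro ι' _ _ M' hM' hS
  obtain ⟨c, d, D, hc, htm, hd⟩ := hTMX R G V K κ hκ v w ι' M' hM' hS
  obtain ⟨B, hB, hgl, hdB⟩ := hDEC R G V K κ hκ T v w hT hnil _ c d D hc htm
  rw [← hd, hdB]
  exact hN _ B hB hgl

end Pool.Agent.Lib.MPb6f35e.KN
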