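import Pool.Agent.Lib.MP_b6f35e_al.KN.SpecW

namespace Pool.Agent.Lib.MPb6f35e.KN

namespace GENM

variable {G V : Type} [Group G] [MulAction G V]

theorem nbr (T : SimpleGraph V) (hc : T.Connected) (v x : V) (n : ℕ) (h : T.dist v x ≤ n + 1) :
    x = v ∨ ∃ x', T.Adj x' x ∧ T.dist v x' ≤ n := by
  obtain ⟨p, hp⟩ := hc.exists_walk_length_eq_dist x v
  cases p with
  | nil => exact Or.inl rfl
  | cons hadj q =>
    rename_i x'
    refine Or.inr ⟨x', hadj.symm, ?_⟩
    have h1 : T.dist x' v ≤ q.length := SimpleGraph.dist_le q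
    rw [SimpleGraph.Walk.length_cons] at hp
    rw [SimpleGraph.dist_comm] at h h1
    omega

theorem key (T : SimpleGraph V) (v w : V) (h : TrH G T v w) :
    ∀ (n : ℕ) (x : V), T.dist v x ≤ n → ∀ g : G, (g • v = x ∨ g • w = x) →
      g ∈ Subgroup.closure (Sg G v w) := by
  have hc : T.Connected := h.tree.connected
  have base : ∀ g : G, (g • v = v ∨ g • w = v) → g ∈ Subgroup.closure (Sg G v w) := by
    intro g hg
    refine Subgroup.subset_closure ?_
    rcases hg with hg | hg
    · exact Or.inl (Or.inl hg)
    · exact Or.inr (Or.inl hg)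
  intro n
  induction n with
  | zero =>
    intro x hx g hg
    have hxv : v = x := (hc.dist_eq_zero_iff).1 (Nat.le_zero.1 hx)
    subst hxv
    exact base g hg
  | succ n ih =>
    intro x hx g hg
    rcases nbr T hc v x n hx with rfl | ⟨x', hadj, hd⟩
    · exact base g hg
    · obtain ⟨k, hk⟩ := h.one x' x hadj
      have hkP : k ∈ Subgroup.closure (Sg G v w) := by
        refine ih x' hd k ?_
        rcases hk with hk | hk
        · exact Or.inl hk.1
        · exact Or.inr hk.2
      have hkx : k⁻¹ • x = v ∨ k⁻¹ • x = w := by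
        rcases hk with hk | hk
        · exact Or.inr (by rw [← hk.2, inv_smul_smul])
        · exact Or.inl (by rw [← hk.1, inv_smul_smul])
      have hS : k⁻¹ * g ∈ Sg G v w := by
        rcases hg with hg | hg
        · refine Or.inl ?_
          rw [mul_smul, hg]
          exact hkx
        · refine Or.inr ?_
          rw [mul_smul, hg]
          exact hkx
      have h2 := Subgroup.mul_mem _ hkP (Subgroup.subset_closure hS)
      rwa [mul_inv_cancel_left] at h2

end GENM

theorem specGEN : SpecGEN := by
  intro G V _ _ T v w h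
  refine (Subgroup.eq_top_iff' _).2 fun g => ?_
  exact GENM.key T v w h (T.dist v (g • v)) (g • v) le_rfl g (Or.inl rfl)

end Pool.Agent.Lib.MPb6f35e.KN
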