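import Pool.Agent.Lib.MP_b6f35e_al.KN.Spec
import Pool.Agent.Lib.MP_8a3537_gt.ROK.FPT

/-! Module Good (helper23): the theorem with good segments. -/

namespace Pool.Agent.Lib.MPb6f35e.KN

open Matrix
open Pool.Agent.Lib.MP8a3537.UV (emb res lres SuppIn)
open Pool.Agent.Lib.MP8a3537.RO (Bi dc Kg cut)
open Pool.Agent.Lib.MP8a3537.ROK (TM)

/-- Good segments: `[x, y]` is good if `R[G_x ∩ G_y]` is regular coherent, or if `[x, g y]` is good
for all `g` with `g x ≠ x` such that `y` and `g x` are on `[x, g y]`. -/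
inductive Gd (R G : Type) {V : Type} [Ring R] [Group G] [MulAction G V] (d : V → V → ℕ) :
    V → V → Prop
  | reg {x y : V} :
      RegCoh (MonoidAlgebra R ↥(MulAction.stabilizer G x ⊓ MulAction.stabilizer G y)) →
      Gd R G d x y
  | step {x y : V} : (∀ g : G, g • x ≠ x → d x (g • y) = d x y + d y (g • y) →
      d x (g • y) = d x (g • x) + d (g • x) (g • y) → Gd R G d x (g • y)) → Gd R G d x y

/-- THEOREM K, general form: the segments of length `2` which consist of `{v, w}` and a translate of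
`{v, w}` are good. -/
def SpecMainG : Prop :=
  ∀ (R G V : Type) [Ring R] [Group G] [MulAction G V] (T : SimpleGraph V) (v w : V),
    T.IsTree → (∀ (g : G) (x y : V), T.Adj x y → T.Adj (g • x) (g • y)) → T.Adj v w →
    (∀ g : G, ¬ (g • v = w ∧ g • w = v)) →
    (∀ s t, ∀ g ∈ Let G v w s t, Gd R G T.dist (en v w s).1 (g • (en v w t).2)) →
    NilTrivial R G v w

namespace GoodM

/-- A long enough segment is good. -/
theorem gd_of_long {R G V : Type} [Ring R] [Group G] [MulAction G V] {d : V → V → ℕ} (h : TM G d)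
    {P : V → V → Prop} (k : ℕ) (hP : ∀ x y z, P x y → Btw d x y z → P x z)
    (hk : ∀ x y : V, k ≤ d x y → P x y →
      RegCoh (MonoidAlgebra R ↥(MulAction.stabilizer G x ⊓ MulAction.stabilizer G y))) :
    ∀ (m : ℕ) (x y : V), k ≤ d x y + m → P x y → Gd R G d x y := by
  intro m
  induction m with
  | zero => exact fun x y hxy hp => Gd.reg (hk x y (by simpa using hxy) hp)
  | succ m ih =>
    intro x y hxy hp
    refine Gd.step fun g hg h1 h2 => ih x (g • y) ?_ (hP x y _ hp h1)
    have h3 : d x (g • x) ≠ 0 := fun e => hg ((h.d0 _ _).1 e).symm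
    have h4 := h.iso g x y
    omega

/-- The induction over the good segments. -/
theorem van_of_gd (hELK : SpecELK) (hBLT : SpecBLT) (hBGE : SpecBGE) (hBAS : SpecBAS)
    {R G K V : Type} [Ring R] [Group G] [AddCommGroup K] [MulAction G V]
    {κ : ∀ (ι : Type) [Fintype ι], Matrix ι ι (MonoidAlgebra R G) → K} {d : V → V → ℕ}
    (hκ : KF κ) (hTM : TM G d) {p q : V} (h : Gd R G d p q) :
    ∀ (L : Subgroup G) (X Y : Set G), TD1 L X Y → Geo1 d L X p q → Van κ X := by
  induction h with
  | @reg y hreg =>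
    intro L X Y hTD hg
    have hL : L = MulAction.stabilizer G p ⊓ MulAction.stabilizer G y := by
      ext g
      rw [Subgroup.mem_inf, MulAction.mem_stabilizer_iff, MulAction.mem_stabilizer_iff]
      exact hg.st () g
    subst hL
    exact hBAS R G K κ hκ _ X Y hTD hreg
  | @step y hs ih =>
    intro L X Y hTD hg ι _ _ ν hν hnil
    refine hELK R G K Unit κ hκ L (fun _ _ => X) (fun _ => Y) hTD ?_ ι (fun _ => ()) ν
      (fun i j g hgg => hν i j g hgg) hnil
    intro s t g hgX
    obtain ⟨h1, h2, h3⟩ := hBGE G V Unit d hTM L (fun _ _ => X) (fun _ => p) (fun _ => y) hg s t g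
      hgX
    have b1 : d p (g • y) = d p y + d y (g • y) := h2
    have b2 : d p (g • y) = d p (g • p) + d (g • p) (g • y) := by
      have h4 : d y (g⁻¹ • p) = d y p + d p (g⁻¹ • p) :=
        hg.dm () () g hgX p (by
          show d y p = d y p + d p p
          rw [(hTM.d0 p p).2 rfl, add_zero])
      have e1 : d (g • y) p = d y (g⁻¹ • p) := by
        have := hTM.iso g y (g⁻¹ • p)
        rwa [smul_inv_smul] at this
      have e2 : d (g • p) p = d p (g⁻¹ • p) := by
        have := hTM.iso g p (g⁻¹ • p)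
        rwa [smul_inv_smul] at this
      have e3 := hTM.iso g p y
      have e4 := hTM.cm p (g • y)
      have e5 := hTM.cm p (g • p)
      have e6 := hTM.cm p y
      omega
    refine ih g ?_ b1 b2 _ _ _ (hBLT G Unit L (fun _ _ => X) (fun _ => Y) hTD s t g hgX) h1
    intro e
    rw [e, (hTM.d0 p p).2 rfl] at b2
    have h5 := hTM.iso g p y
    rw [e] at h5
    have h6 : d y (g • y) = 0 := by omega
    exact hg.nf () () g hgX ⟨e, ((hTM.d0 _ _).1 h6).symm⟩

end GoodM

open GoodM in
theorem mainG (hKIN : SpecKIN) (hELK : SpecELK) (hBLT : SpecBLT) (hBGE : SpecBGE)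
    (hEGE : SpecEGE) (hETD : SpecETD) (hBAS : SpecBAS) : SpecMainG := by
  intro R G V _ _ _ T v w hT hG hvw hinv hgd n τ ν hν hnil u hu
  obtain ⟨κ, hκ, hκu⟩ := hKIN (MonoidAlgebra R G)
  have hTM : TM G (V := V) T.dist := Pool.Agent.Lib.MP8a3537.ROK.specFPT G V T hT hG
  obtain ⟨Y, hY⟩ := hETD G V T v w hT hG hvw hinv
  have hgeo := hEGE G V T v w hT hG hvw hinv
  have hvan : ∀ s t, ∀ g ∈ Let G v w s t, Van κ (BL (MulAction.stabilizer G v ⊓
      MulAction.stabilizer G w) (Let G v w) s t g) := by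
    intro s t g hg
    obtain ⟨h1, -, -⟩ := hBGE G V Bool T.dist hTM _ _ _ _ hgeo s t g hg
    exact van_of_gd hELK hBLT hBGE hBAS hκ hTM (hgd s t g hg) _ _ _
      (hBLT G Bool _ _ Y hY s t g hg) h1
  have h0 := hELK R G _ Bool κ hκ _ _ Y hY hvan (Fin n) τ ν hν hnil
  rw [← hκu n u, hu]
  exact h0

end Pool.Agent.Lib.MPb6f35e.KN
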