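import Pool.Agent.Lib.MP_b6f35e_al.KN.Spec

/-!
# KN, module KCL: consequences of the axioms
-/

namespace Pool.Agent.Lib.MPb6f35e.KN

open Matrix

namespace KCLM

section units

variable {A : Type} [Ring A] {ι ι' : Type} [Fintype ι] [DecidableEq ι] [Fintype ι']
  [DecidableEq ι']

theorem unit_diag {a : Matrix ι ι A} (ha : IsUnit a) :
    IsUnit (fromBlocks a 0 0 1 : Matrix (ι ⊕ ι') (ι ⊕ ι') A) := by
  obtain ⟨u, rfl⟩ := ha
  refine ⟨⟨fromBlocks u.val 0 0 1, fromBlocks u.inv 0 0 1, ?_, ?_⟩, rfl⟩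
  · rw [fromBlocks_multiply]
    simp
  · rw [fromBlocks_multiply]
    simp

theorem unit_upper (b : Matrix ι ι' A) {d : Matrix ι' ι' A} (hd : IsUnit d) :
    IsUnit (fromBlocks 1 b 0 d : Matrix (ι ⊕ ι') (ι ⊕ ι') A) := by
  obtain ⟨u, rfl⟩ := hd
  have h1 : u.val * u.inv = 1 := u.val_inv
  have h2 : u.inv * u.val = 1 := u.inv_val
  refine ⟨⟨fromBlocks 1 b 0 u.val, fromBlocks 1 (-(b * u.inv)) 0 u.inv, ?_, ?_⟩, rfl⟩
  · rw [fromBlocks_multiply, h1]
    simp
  · have h3 : b * u.inv * u.val = b := by rw [Matrix.mul_assoc, h2, Matrix.mul_one]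
    have h4 : -(b * u.inv) * u.val = -b := by rw [Matrix.neg_mul, h3]
    rw [fromBlocks_multiply, h4, h2]
    simp

theorem unit_lower (c : Matrix ι' ι A) {d : Matrix ι' ι' A} (hd : IsUnit d) :
    IsUnit (fromBlocks 1 0 c d : Matrix (ι ⊕ ι') (ι ⊕ ι') A) := by
  obtain ⟨u, rfl⟩ := hd
  have h1 : u.val * u.inv = 1 := u.val_inv
  have h2 : u.inv * u.val = 1 := u.inv_val
  refine ⟨⟨fromBlocks 1 0 c u.val, fromBlocks 1 0 (-(u.inv * c)) u.inv, ?_, ?_⟩, rfl⟩
  · have h3 : u.val * (u.inv * c) = c := by rw [← Matrix.mul_assoc, h1, Matrix.one_mul]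
    have h4 : u.val * -(u.inv * c) = -c := by rw [Matrix.mul_neg, h3]
    rw [fromBlocks_multiply, h4, h1]
    simp
  · rw [fromBlocks_multiply, h2]
    simp

end units

section kappa

variable {A K : Type} [Ring A] [AddCommGroup K]
  {κ : ∀ (ι : Type) [Fintype ι], Matrix ι ι A → K}

theorem k_one (h : KF κ) (ι : Type) [Fintype ι] [DecidableEq ι] :
    κ ι (1 : Matrix ι ι A) = 0 := by
  have h1 := h.mul ι (1 : Matrix ι ι A) 1 isUnit_one isUnit_one
  rw [mul_one] at h1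
  have h2 : κ ι (1 : Matrix ι ι A) + 0 = κ ι (1 : Matrix ι ι A) + κ ι (1 : Matrix ι ι A) := by
    rw [add_zero]
    exact h1
  exact (add_left_cancel h2).symm

theorem swp (h : KF κ) {ι ι' : Type} [Fintype ι] [DecidableEq ι] [Fintype ι'] [DecidableEq ι']
    (x : Matrix ι ι' A) (y : Matrix ι' ι A) {a : Matrix ι ι A} {b : Matrix ι' ι' A}
    (ha : 1 + x * y = a) (hb : 1 + y * x = b) (hu : IsUnit a) : κ ι a = κ ι' b := by
  subst ha
  subst hb
  exact h.swap ι ι' x y hu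

theorem k_diag (h : KF κ) (ι ι' : Type) [Fintype ι] [DecidableEq ι] [Fintype ι']
    [DecidableEq ι'] (a : Matrix ι ι A) (ha : IsUnit a) :
    κ (ι ⊕ ι') (fromBlocks a 0 0 1) = κ ι a := by
  refine swp h (fromRows (a - 1) 0) (fromCols 1 0) ?_ ?_ (unit_diag ha)
  · rw [fromRows_mul_fromCols, ← fromBlocks_one, fromBlocks_add]
    simp
  · rw [fromCols_mul_fromRows]
    simp

theorem k_upper (h : KF κ) (ι ι' : Type) [Fintype ι] [DecidableEq ι] [Fintype ι']
    [DecidableEq ι'] (b : Matrix ι ι' A) (d : Matrix ι' ι' A) (hd : IsUnit d) :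
    κ (ι ⊕ ι') (fromBlocks 1 b 0 d) = κ ι' d := by
  refine swp h (fromRows b (d - 1)) (fromCols 0 1) ?_ ?_ (unit_upper b hd)
  · rw [fromRows_mul_fromCols, ← fromBlocks_one, fromBlocks_add]
    simp
  · rw [fromCols_mul_fromRows]
    simp

theorem k_lower (h : KF κ) (ι ι' : Type) [Fintype ι] [DecidableEq ι] [Fintype ι']
    [DecidableEq ι'] (c : Matrix ι' ι A) (d : Matrix ι' ι' A) (hd : IsUnit d) :
    κ (ι ⊕ ι') (fromBlocks 1 0 c d) = κ ι' d := by
  refine swp h (fromRows 0 1) (fromCols c (d - 1)) ?_ ?_ (unit_lower c hd)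
  · rw [fromRows_mul_fromCols, ← fromBlocks_one, fromBlocks_add]
    simp
  · rw [fromCols_mul_fromRows]
    simp

theorem k_two (h : KF κ) (ι ι' : Type) [Fintype ι] [DecidableEq ι] [Fintype ι']
    [DecidableEq ι'] (a : Matrix ι ι A) (b : Matrix ι ι' A) (d : Matrix ι' ι' A)
    (ha : IsUnit a) (hd : IsUnit d) :
    κ (ι ⊕ ι') (fromBlocks a b 0 d) = κ ι a + κ ι' d := by
  have e : (fromBlocks a b 0 d : Matrix (ι ⊕ ι') (ι ⊕ ι') A)
      = fromBlocks 1 b 0 d * fromBlocks a 0 0 1 := by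
    rw [fromBlocks_multiply]
    simp
  rw [e, h.mul (ι ⊕ ι') _ _ (unit_upper b hd) (unit_diag ha), k_upper h ι ι' b d hd,
    k_diag h ι ι' a ha, add_comm]

theorem k_three (h : KF κ) (ι ι' : Type) [Fintype ι] [DecidableEq ι] [Fintype ι']
    [DecidableEq ι'] (a : Matrix ι ι A) (c : Matrix ι' ι A) (d : Matrix ι' ι' A)
    (ha : IsUnit a) (hd : IsUnit d) :
    κ (ι ⊕ ι') (fromBlocks a 0 c d) = κ ι a + κ ι' d := by
  have e : (fromBlocks a 0 c d : Matrix (ι ⊕ ι') (ι ⊕ ι') A)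
      = fromBlocks a 0 0 1 * fromBlocks 1 0 c d := by
    rw [fromBlocks_multiply]
    simp
  rw [e, h.mul (ι ⊕ ι') _ _ (unit_diag ha) (unit_lower c hd), k_lower h ι ι' c d hd,
    k_diag h ι ι' a ha]

theorem k_four (h : KF κ) (ι : Type) [Fintype ι] [DecidableEq ι] (p q ν : Matrix ι ι A)
    (hpp : p * p = p) (hqq : q * q = q) (h1 : (p + q) * ν = ν) (h2 : ν * (p + q) = ν)
    (h0 : q * ν * p = 0) (hn : IsNilpotent ν) :
    κ ι (1 + ν) = κ ι (1 + p * ν * p) + κ ι (1 + q * ν * q) := by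
  have hp : p * ν * p = ν * p := by
    have h3 : (p + q) * ν * p = ν * p := by rw [h1]
    rw [add_mul, add_mul, h0, add_zero] at h3
    exact h3
  have hq : q * ν * q = q * ν := by
    have h3 : q * (ν * (p + q)) = q * ν := by rw [h2]
    rw [mul_add, mul_add, ← mul_assoc, ← mul_assoc, h0, zero_add] at h3
    exact h3
  have pp : ∀ m : ℕ, (ν * p) ^ (m + 1) = ν ^ (m + 1) * p := by
    intro m
    induction m with
    | zero => rw [zero_add, pow_one, pow_one]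
    | succ m ih =>
      rw [pow_succ, ih]
      calc ν ^ (m + 1) * p * (ν * p) = ν ^ (m + 1) * (p * ν * p) := by
            simp only [mul_assoc]
        _ = ν ^ (m + 1) * (ν * p) := by rw [hp]
        _ = ν ^ (m + 1 + 1) * p := by rw [pow_succ ν (m + 1), mul_assoc]
  have qq : ∀ m : ℕ, (q * ν) ^ (m + 1) = q * ν ^ (m + 1) := by
    intro m
    induction m with
    | zero => rw [zero_add, pow_one, pow_one]
    | succ m ih =>
      rw [pow_succ', ih]
      calc q * ν * (q * ν ^ (m + 1)) = (q * ν * q) * ν ^ (m + 1) := by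
            simp only [mul_assoc]
        _ = q * ν * ν ^ (m + 1) := by rw [hq]
        _ = q * ν ^ (m + 1 + 1) := by rw [pow_succ' ν (m + 1), mul_assoc]
  have np : IsNilpotent (p * ν * p) := by
    obtain ⟨m, hm⟩ := hn
    refine ⟨m + 1, ?_⟩
    rw [hp, pp m, pow_succ, hm, zero_mul, zero_mul]
  have nq : IsNilpotent (q * ν * q) := by
    obtain ⟨m, hm⟩ := hn
    refine ⟨m + 1, ?_⟩
    rw [hq, qq m, pow_succ, hm, zero_mul, mul_zero]
  have e2 : (1 : Matrix (ι ⊕ ι) (ι ⊕ ι) A) + fromBlocks (p * ν * p) (p * ν * q) 0 (q * ν * q)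
      = fromBlocks (1 + p * ν * p) (p * ν * q) 0 (1 + q * ν * q) := by
    rw [← fromBlocks_one, fromBlocks_add]
    simp
  have h3 : κ ι (1 + ν) = κ (ι ⊕ ι) (fromBlocks (1 + p * ν * p) (p * ν * q) 0
      (1 + q * ν * q)) := by
    refine swp h (fromCols p q) (fromRows (p * ν) (q * ν)) ?_ ?_ hn.isUnit_one_add
    · rw [fromCols_mul_fromRows, ← mul_assoc, ← mul_assoc, hpp, hqq, ← add_mul, h1]
    · rw [fromRows_mul_fromCols, h0, e2]
  rw [h3, k_two h ι ι _ _ _ np.isUnit_one_add nq.isUnit_one_add]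

end kappa

end KCLM

theorem specKCL : SpecKCL := by
  intro A K _ _ κ h
  refine ⟨?_, ?_, ?_, ?_⟩
  · intro ι _ _
    exact KCLM.k_one h ι
  · intro ι ι' _ _ _ _ a b d ha hd
    exact KCLM.k_two h ι ι' a b d ha hd
  · intro ι ι' _ _ _ _ a c d ha hd
    exact KCLM.k_three h ι ι' a c d ha hd
  · intro ι _ _ p q ν hpp hqq _ _ h1 h2 h0 hn
    exact KCLM.k_four h ι p q ν hpp hqq h1 h2 h0 hn

end Pool.Agent.Lib.MPb6f35e.KN
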