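import Pool.Agent.Lib.MP_b6f35e_al.KN.SpecW
import Pool.Agent.Lib.MP_b6f35e_al.KN.KCL

/-!
# KN, module HIG: Higman's trick
-/

namespace Pool.Agent.Lib.MPb6f35e.KN

open Matrix
open Pool.Agent.Lib.MP8a3537.UV (SuppIn)

namespace HIGM

/-- The elements `a e⁻¹ b`. -/
def nx {G : Type} [Group G] (Θ : Set G) : Set G :=
  {u | ∃ a ∈ Θ, ∃ e ∈ Θ, ∃ b ∈ Θ, u = a * e⁻¹ * b}

/-- The iterates. -/
def it {G : Type} [Group G] (Θ : Set G) : ℕ → Set G
  | 0 => Θ
  | k + 1 => nx (it Θ k)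

section grp

variable {G : Type} [Group G]

theorem sub_nx {Θ : Set G} (h1 : (1 : G) ∈ Θ) : Θ ⊆ nx Θ := by
  intro u hu
  exact ⟨u, hu, 1, h1, 1, h1, by simp⟩

theorem one_it {Θ : Set G} (h1 : (1 : G) ∈ Θ) : ∀ k, (1 : G) ∈ it Θ k
  | 0 => h1
  | k + 1 => sub_nx (one_it h1 k) (one_it h1 k)

theorem it_mono {Θ : Set G} (h1 : (1 : G) ∈ Θ) : Monotone (it Θ) :=
  monotone_nat_of_le_succ fun k => sub_nx (one_it h1 k)

theorem mem_it {Θ : Set G} (h1 : (1 : G) ∈ Θ) (hc : Subgroup.closure Θ = ⊤) (g : G) :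
    ∃ k, g ∈ it Θ k := by
  have hg : g ∈ Subgroup.closure Θ := by
    rw [hc]
    exact Subgroup.mem_top g
  induction hg using Subgroup.closure_induction with
  | mem x hx => exact ⟨0, hx⟩
  | one => exact ⟨0, h1⟩
  | mul x y _ _ hx hy =>
    obtain ⟨k, hk⟩ := hx
    obtain ⟨l, hl⟩ := hy
    refine ⟨max k l + 1, x, it_mono h1 (le_max_left k l) hk, 1, one_it h1 _, y,
      it_mono h1 (le_max_right k l) hl, by simp⟩
  | inv x _ hx =>
    obtain ⟨k, hk⟩ := hx
    exact ⟨k + 1, 1, one_it h1 _, x, hk, 1, one_it h1 _, by simp⟩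

end grp

section step

variable {R G K : Type} [Ring R] [Group G] [AddCommGroup K]
  {κ : ∀ (ι : Type) [Fintype ι], Matrix ι ι (MonoidAlgebra R G) → K}

theorem key (h : KF κ) {ι ρ : Type} [Fintype ι] [DecidableEq ι] [Fintype ρ] [DecidableEq ρ]
    (M : Matrix ι ι (MonoidAlgebra R G)) (X : Matrix ι ρ (MonoidAlgebra R G))
    (Y : Matrix ρ ι (MonoidAlgebra R G)) (E E' : Matrix ρ ρ (MonoidAlgebra R G))
    (hM : IsUnit M) (h1 : E * E' = 1) (h2 : E' * E = 1) (hX : X * E' * Y = M) :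
    IsUnit (fromBlocks 0 (-X) Y E : Matrix (ι ⊕ ρ) (ι ⊕ ρ) (MonoidAlgebra R G)) ∧
    κ (ι ⊕ ρ) (fromBlocks 0 (-X) Y E) = κ ι M + κ ρ E := by
  have hE : IsUnit E := ⟨⟨E, E', h1, h2⟩, rfl⟩
  have hP : IsUnit (fromBlocks 1 (-(X * E')) 0 1 :
      Matrix (ι ⊕ ρ) (ι ⊕ ρ) (MonoidAlgebra R G)) := KCLM.unit_upper _ isUnit_one
  have hD : IsUnit (fromBlocks M 0 0 1 : Matrix (ι ⊕ ρ) (ι ⊕ ρ) (MonoidAlgebra R G)) :=
    KCLM.unit_diag hM
  have hL : IsUnit (fromBlocks 1 0 Y E : Matrix (ι ⊕ ρ) (ι ⊕ ρ) (MonoidAlgebra R G)) :=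
    KCLM.unit_lower Y hE
  have hQ : IsUnit (fromBlocks M 0 Y E : Matrix (ι ⊕ ρ) (ι ⊕ ρ) (MonoidAlgebra R G)) := by
    have e : (fromBlocks M 0 Y E : Matrix (ι ⊕ ρ) (ι ⊕ ρ) (MonoidAlgebra R G))
        = fromBlocks M 0 0 1 * fromBlocks 1 0 Y E := by
      rw [fromBlocks_multiply]
      simp
    rw [e]
    exact hD.mul hL
  have e : (fromBlocks 0 (-X) Y E : Matrix (ι ⊕ ρ) (ι ⊕ ρ) (MonoidAlgebra R G))
      = fromBlocks 1 (-(X * E')) 0 1 * fromBlocks M 0 Y E := by
    rw [fromBlocks_multiply, Matrix.neg_mul, Matrix.neg_mul, hX, Matrix.mul_assoc, h2]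
    simp
  have hK := specKCL (MonoidAlgebra R G) K κ h
  refine ⟨by rw [e]; exact hP.mul hQ, ?_⟩
  rw [e, h.mul _ _ _ hP hQ, hK.2.1 ι ρ 1 _ 1 isUnit_one isUnit_one, hK.1, hK.1,
    hK.2.2.1 ι ρ M Y E hM hE]
  simp

theorem step (h : KF κ) (N : AddSubgroup K) (Θ : Set G) (h1 : (1 : G) ∈ Θ)
    (hV : ∀ (ι : Type) [Fintype ι] [DecidableEq ι] (M : Matrix ι ι (MonoidAlgebra R G)),
      IsUnit M → SuppIn Θ M → κ ι M ∈ N) :
    ∀ (ι : Type) [Fintype ι] [DecidableEq ι] (M : Matrix ι ι (MonoidAlgebra R G)),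
      IsUnit M → SuppIn (nx Θ) M → κ ι M ∈ N := by
  classical
  intro ι _ _ M hM hS
  -- choice of the factors
  have hch : ∀ u : G, ∃ t : G × G × G, t.1 ∈ Θ ∧ t.2.1 ∈ Θ ∧ t.2.2 ∈ Θ ∧
      (u ∈ nx Θ → u = t.1 * t.2.1⁻¹ * t.2.2) := by
    intro u
    by_cases hu : u ∈ nx Θ
    · obtain ⟨a, ha, e, he, b, hb, hab⟩ := hu
      exact ⟨(a, e, b), ha, he, hb, fun _ => hab⟩
    · exact ⟨(1, 1, 1), h1, h1, h1, fun h' => absurd h' hu⟩
  choose t ht1 ht2 ht3 ht4 using hch
  let ρ : Type := Σ p : ι × ι, ↥((M p.1 p.2).coeff.support)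
  let X : Matrix ι ρ (MonoidAlgebra R G) := Matrix.of fun i r =>
    if r.1.1 = i then MonoidAlgebra.single (t r.2.1).1 ((M r.1.1 r.1.2).coeff r.2.1) else 0
  let Y : Matrix ρ ι (MonoidAlgebra R G) := Matrix.of fun r j =>
    if r.1.2 = j then MonoidAlgebra.single (t r.2.1).2.2 1 else 0
  let E : Matrix ρ ρ (MonoidAlgebra R G) :=
    Matrix.diagonal fun r => MonoidAlgebra.single (t r.2.1).2.1 1
  let E' : Matrix ρ ρ (MonoidAlgebra R G) :=
    Matrix.diagonal fun r => MonoidAlgebra.single (t r.2.1).2.1⁻¹ 1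
  have hE1 : E * E' = 1 := by
    show Matrix.diagonal _ * Matrix.diagonal _ = 1
    rw [Matrix.diagonal_mul_diagonal, ← Matrix.diagonal_one]
    congr 1
    funext r
    rw [MonoidAlgebra.single_mul_single, mul_inv_cancel, one_mul]
    rfl
  have hE2 : E' * E = 1 := by
    show Matrix.diagonal _ * Matrix.diagonal _ = 1
    rw [Matrix.diagonal_mul_diagonal, ← Matrix.diagonal_one]
    congr 1
    funext r
    rw [MonoidAlgebra.single_mul_single, inv_mul_cancel, one_mul]
    rfl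
  have hX : X * E' * Y = M := by
    refine Matrix.ext fun i j => ?_
    rw [Matrix.mul_apply]
    have e1 : ∀ r : ρ, (X * E') i r * Y r j
        = if r.1 = (i, j) then MonoidAlgebra.single r.2.1 ((M i j).coeff r.2.1) else 0 := by
      rintro ⟨⟨i', j'⟩, u, hu⟩
      have e2 : (X * E') i ⟨⟨i', j'⟩, u, hu⟩
          = (if i' = i then MonoidAlgebra.single (t u).1 ((M i' j').coeff u) else 0)
            * MonoidAlgebra.single (t u).2.1⁻¹ 1 :=
        Matrix.mul_diagonal (fun r : ρ => MonoidAlgebra.single (t r.2.1).2.1⁻¹ (1 : R)) X i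
          ⟨⟨i', j'⟩, u, hu⟩
      have e3 : Y ⟨⟨i', j'⟩, u, hu⟩ j
          = if j' = j then MonoidAlgebra.single (t u).2.2 1 else 0 := rfl
      rw [e2, e3]
      by_cases hi : i' = i
      · by_cases hj : j' = j
        · subst hi
          subst hj
          have hu' : u ∈ nx Θ := hS i' j' u (Finsupp.mem_support_iff.mp hu)
          rw [if_pos rfl, if_pos rfl, if_pos rfl, MonoidAlgebra.single_mul_single,
            MonoidAlgebra.single_mul_single, mul_one, mul_one, ← ht4 u hu']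
        · rw [if_neg hj, mul_zero, if_neg]
          intro h'
          exact hj (congrArg Prod.snd h')
      · rw [if_neg hi, zero_mul, zero_mul, if_neg]
        intro h'
        exact hi (congrArg Prod.fst h')
    rw [Finset.sum_congr rfl fun r _ => e1 r, Fintype.sum_sigma,
      Finset.sum_eq_single (i, j)]
    · simp only [if_true]
      rw [Finset.sum_coe_sort ((M i j).coeff.support)
        (fun u => MonoidAlgebra.single u ((M i j).coeff u))]
      exact MonoidAlgebra.sum_coeff_single (M i j)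
    · intro p _ hp
      simp [hp]
    · intro h'
      exact absurd (Finset.mem_univ _) h'
  obtain ⟨hu, hk⟩ := key h M X Y E E' hM hE1 hE2 hX
  have hEs : SuppIn Θ E := by
    intro r s g hg
    by_cases hrs : r = s
    · subst hrs
      have : E r r = MonoidAlgebra.single (t r.2.1).2.1 1 := Matrix.diagonal_apply_eq _ _
      rw [this, MonoidAlgebra.coeff_single, Finsupp.single_apply] at hg
      split_ifs at hg with h'
      · rw [← h']
        exact ht2 _
      · exact absurd rfl hg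
    · have : E r s = 0 := Matrix.diagonal_apply_ne _ hrs
      rw [this] at hg
      exact absurd rfl hg
  have hLs : SuppIn Θ (fromBlocks 0 (-X) Y E : Matrix (ι ⊕ ρ) (ι ⊕ ρ) (MonoidAlgebra R G)) := by
    rintro (i | r) (j | s) g hg
    · exact absurd rfl hg
    · rw [fromBlocks_apply₁₂, Matrix.neg_apply, MonoidAlgebra.coeff_neg, Finsupp.neg_apply,
        neg_ne_zero] at hg
      have : X i s = if s.1.1 = i then
          MonoidAlgebra.single (t s.2.1).1 ((M s.1.1 s.1.2).coeff s.2.1) else 0 := rfl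
      rw [this] at hg
      split_ifs at hg with h'
      · rw [MonoidAlgebra.coeff_single, Finsupp.single_apply] at hg
        split_ifs at hg with h''
        · rw [← h'']
          exact ht1 _
        · exact absurd rfl hg
      · exact absurd rfl hg
    · rw [fromBlocks_apply₂₁] at hg
      have : Y r j = if r.1.2 = j then MonoidAlgebra.single (t r.2.1).2.2 1 else 0 := rfl
      rw [this] at hg
      split_ifs at hg with h'
      · rw [MonoidAlgebra.coeff_single, Finsupp.single_apply] at hg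
        split_ifs at hg with h''
        · rw [← h'']
          exact ht3 _
        · exact absurd rfl hg
      · exact absurd rfl hg
    · rw [fromBlocks_apply₂₂] at hg
      exact hEs r s g hg
  have h3 := hV (ι ⊕ ρ) _ hu hLs
  rw [hk] at h3
  have h4 : κ ρ E ∈ N := hV ρ E ⟨⟨E, E', hE1, hE2⟩, rfl⟩ hEs
  exact (AddSubgroup.add_mem_cancel_right N h4).mp h3

end step

end HIGM

open HIGM in
/-- **HIG**. -/
theorem specHIG (_hKCL : SpecKCL) : SpecHIG := by
  classical
  intro R G K _ _ _ κ h N Θ h1 hc hV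
  have hk : ∀ k, ∀ (ι : Type) [Fintype ι] [DecidableEq ι]
      (M : Matrix ι ι (MonoidAlgebra R G)), IsUnit M → SuppIn (it Θ k) M → κ ι M ∈ N := by
    intro k
    induction k with
    | zero => exact hV
    | succ k ih => exact step h N (it Θ k) (one_it h1 k) ih
  intro ι _ _ M hM
  choose k hkk using fun g : G => mem_it h1 hc g
  let S : Finset G := Finset.univ.biUnion fun i : ι => Finset.univ.biUnion fun j : ι =>
    (M i j).coeff.support
  refine hk (S.sup k) ι M hM ?_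
  intro i j g hg
  have hgS : g ∈ S := by
    simp only [S, Finset.mem_biUnion, Finset.mem_univ, true_and]
    exact ⟨i, j, Finsupp.mem_support_iff.mpr hg⟩
  exact it_mono h1 (Finset.le_sup (f := k) hgS) (hkk g)

end Pool.Agent.Lib.MPb6f35e.KN
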