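import Pool.Agent.Lib.MP_b6f35e_al.KN.Spec
import Pool.Agent.Lib.MP_8a3537_gt.UV.RES

/-!
# HTK: the homotopy with support
-/

namespace Pool.Agent.Lib.MPb6f35e.KN

open Matrix
open Pool.Agent.Lib.MP8a3537.UV (emb res lres SuppIn RESAux.mem_of_emb_ne)

namespace HTKM

variable {R G : Type} [Ring R] [Group G]

theorem coeff_mul_ne (x y : MonoidAlgebra R G) (g : G) (h : (x * y).coeff g ≠ 0) :
    ∃ a b, x.coeff a ≠ 0 ∧ y.coeff b ≠ 0 ∧ a * b = g := by
  classical
  have := MonoidAlgebra.support_coeff_mul_subset x y (Finsupp.mem_support_iff.2 h)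
  obtain ⟨u, hu, v, hv, e⟩ := Finset.mem_mul.1 this
  exact ⟨u, v, Finsupp.mem_support_iff.1 hu, Finsupp.mem_support_iff.1 hv, e⟩

/-- The elements with support in `X`. -/
def QX (R : Type) {G : Type} [Ring R] [Group G] (X : Set G) : AddSubgroup (MonoidAlgebra R G) where
  carrier := {a | ∀ g, a.coeff g ≠ 0 → g ∈ X}
  add_mem' := by
    intro a b ha hb g hg
    by_contra hX
    apply hg
    have h1 : a.coeff g = 0 := by
      by_contra h
      exact hX (ha g h)
    have h2 : b.coeff g = 0 := by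
      by_contra h
      exact hX (hb g h)
    rw [MonoidAlgebra.coeff_add, Finsupp.add_apply, h1, h2, add_zero]
  zero_mem' := by
    intro g hg
    exact absurd (by simp) hg
  neg_mem' := by
    intro a ha g hg
    refine ha g fun h => hg ?_
    rw [MonoidAlgebra.coeff_neg, Finsupp.neg_apply, h, neg_zero]

theorem emb_mul_mem (L : Subgroup G) (X : Set G) (hL : ∀ h ∈ L, ∀ x ∈ X, h * x ∈ X)
    (s : MonoidAlgebra R L) (a : MonoidAlgebra R G) (ha : a ∈ QX R X) :
    emb R L s * a ∈ QX R X := by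
  intro g hg
  obtain ⟨x, y, hx, hy, rfl⟩ := coeff_mul_ne _ _ _ hg
  exact hL x (RESAux.mem_of_emb_ne L s x hx) y (ha y hy)

theorem em_mul (L : Subgroup G) {I J K : Type} [Fintype J] (M : Matrix I J (MonoidAlgebra R L))
    (N : Matrix J K (MonoidAlgebra R L)) :
    (em L M * em L N : Matrix I K (MonoidAlgebra R G)) = em L (M * N) :=
  (Matrix.map_mul (f := emb R L)).symm

theorem em_ne (L : Subgroup G) {I J : Type} (M : Matrix I J (MonoidAlgebra R L)) (i : I) (j : J)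
    (h : (em L M : Matrix I J (MonoidAlgebra R G)) i j ≠ 0) : M i j ≠ 0 := by
  intro h0
  apply h
  show emb R L (M i j) = 0
  rw [h0, map_zero]

theorem ne_of_coeff (a : MonoidAlgebra R G) (g : G) (h : a.coeff g ≠ 0) : a ≠ 0 := by
  rintro rfl
  exact h (by simp)

theorem ex_coeff (a : MonoidAlgebra R G) (h : a ≠ 0) : ∃ g, a.coeff g ≠ 0 := by
  by_contra hc
  push Not at hc
  apply h
  ext g
  rw [hc g]
  simp

theorem ex_ne {A I J K : Type} [Ring A] [Fintype J] (M : Matrix I J A) (N : Matrix J K A) (i : I)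
    (k : K) (h : (M * N) i k ≠ 0) : ∃ j, M i j ≠ 0 ∧ N j k ≠ 0 := by
  rw [Matrix.mul_apply] at h
  obtain ⟨j, -, hj⟩ := Finset.exists_ne_zero_of_sum_ne_zero h
  exact ⟨j, left_ne_zero_of_mul hj, right_ne_zero_of_mul hj⟩

end HTKM

open HTKM in
theorem specHTK (hFLX : SpecFLX) (hNHT : SpecNHT) : SpecHTK := by
  intro R G _ _ L X hL hR C D N _ _ pi hRs f hf μ hμ h0
  obtain ⟨hF1, hF2⟩ := hFLX R G L X hR C N pi hRs
  have hφQ : ∀ i j, (em L f * μ) i j ∈ QX R X := by
    intro i j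
    rw [Matrix.mul_apply]
    refine AddSubgroup.sum_mem _ fun k _ => ?_
    exact emb_mul_mem L X hL _ _ fun g hg => hμ.su k j g hg
  have hφd : ∀ i j, (em L f * μ) i j ≠ 0 → D.deg i = C.deg j := by
    intro i j h
    obtain ⟨k, h1, h2⟩ := ex_ne _ _ _ _ h
    exact (hf.dg i k (em_ne L f i k h1)).trans (hμ.dg k j h2)
  obtain ⟨h, hh1, hh2, hh3, hh4, hh5⟩ := hNHT (MonoidAlgebra R G) (QX R X) D.I C.I D.deg
    (em L D.p) (em L D.e) C.deg (em L C.p) (em L C.e) (em L f * μ)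
    (fun i j hij => D.hp i j (em_ne L _ i j hij))
    (fun i j hij => D.he i j (em_ne L _ i j hij))
    (by rw [em_mul, D.pp]) (by rw [em_mul, D.pe]) (by rw [em_mul, D.ep])
    (by rw [em_mul, D.ee]; exact Matrix.map_zero _ (map_zero _))
    (fun i j a ha => ⟨emb_mul_mem L X hL _ _ ha, emb_mul_mem L X hL _ _ ha⟩)
    hφQ hφd
    (by rw [← Matrix.mul_assoc, em_mul, hf.pf])
    (by rw [Matrix.mul_assoc, hμ.mp])
    (by rw [← Matrix.mul_assoc, em_mul, hf.ef, ← em_mul, Matrix.mul_assoc, Matrix.mul_assoc, hμ.ch])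
    (by
      intro q hq z hzQ hzd hzp hze
      obtain ⟨y, hy1, hy2, hy3⟩ := hF1 q hq z
        (fun i g hg => ⟨hzQ i g hg, hzd i (ne_of_coeff _ g hg)⟩) hzp hze
      refine ⟨y, fun i g hg => (hy1 i g hg).1, fun i hi => ?_, hy2, hy3⟩
      obtain ⟨g, hg⟩ := ex_coeff _ hi
      exact (hy1 i g hg).2)
    (by
      intro i hi
      obtain ⟨y, hy1, hy2, hy3⟩ := hF2 ((em L f * μ) i)
        (fun j g hg => ⟨hφQ i j g hg, ((hφd i j (ne_of_coeff _ g hg)).symm.trans hi)⟩)
        (by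
          have : (em L f * μ) * em L C.p = em L f * μ := by rw [Matrix.mul_assoc, hμ.mp]
          exact congrFun this i)
        (h0 i hi)
      refine ⟨y, fun j g hg => (hy1 j g hg).1, fun j hj => ?_, hy2, hy3⟩
      obtain ⟨g, hg⟩ := ex_coeff _ hj
      exact (hy1 j g hg).2)
  exact ⟨h, fun i j g hg => hh1 i j g hg, hh2, hh3, hh4, hh5⟩

end Pool.Agent.Lib.MPb6f35e.KN
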