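import Pool.Agent.Lib.MP_b6f35e_al.KN.SpecC
import Pool.Agent.Lib.MP_8a3537_gt.UV.RES

/-! # The index (IND) -/

namespace Pool.Agent.Lib.MPb6f35e.KN

open Matrix
open Pool.Agent.Lib.MP8a3537.UV (emb res lres SuppIn)
open Pool.Agent.Lib.MP8a3537.RO (Bi dc Kg cut cutM)

namespace INDM

section Lat

variable {R Γ : Type} [Ring R] [Group Γ] (δ : Γ →* Multiplicative ℤ) {ι ι' : Type}

theorem lat_anti {a b : ℤ} (h : a ≤ b) : lat R δ ι b ≤ lat R δ ι a :=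
  fun _ hx i g hg => h.trans (hx i g hg)

theorem mul_ne {x y : MonoidAlgebra R Γ} {g : Γ} (h : (x * y).coeff g ≠ 0) :
    ∃ g1 g2, x.coeff g1 ≠ 0 ∧ y.coeff g2 ≠ 0 ∧ g = g1 * g2 := by
  rw [MonoidAlgebra.coeff_mul_apply_left] at h
  obtain ⟨a, ha, h2⟩ := Finset.exists_ne_zero_of_sum_ne_zero h
  refine ⟨a, a⁻¹ * g, Finsupp.mem_support_iff.1 ha, ?_, by group⟩
  intro h3
  apply h2
  simp [h3]

theorem exists_low [Fintype ι] (M : Matrix ι ι (MonoidAlgebra R Γ)) (N : ℤ) :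
    ∃ a : ℤ, (lat R δ ι N).map (rmul R M) ≤ lat R δ ι a := by
  classical
  obtain ⟨c, hc⟩ := Finset.bddBelow ((Finset.univ.biUnion fun ij : ι × ι =>
    (M ij.1 ij.2).coeff.support).image fun g : Γ => (δ g).toAdd)
  refine ⟨N + c, ?_⟩
  rintro _ ⟨x, hx, rfl⟩ j g hg
  have hg' : (∑ i, (show ι → MonoidAlgebra R Γ from x) i * M i j).coeff g ≠ 0 := hg
  obtain ⟨i, _, hi⟩ := Pool.Agent.Lib.MP8a3537.UV.RESAux.exists_of_coeff_sum_ne _ _ _ hg'
  obtain ⟨g1, g2, h1, h2, rfl⟩ := mul_ne hi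
  have e1 : N ≤ (δ g1).toAdd := hx i g1 h1
  have e2 : c ≤ (δ g2).toAdd := hc (Finset.mem_coe.2 (Finset.mem_image_of_mem _
    (Finset.mem_biUnion.2 ⟨(i, j), Finset.mem_univ _, Finsupp.mem_support_iff.2 h2⟩)))
  rw [map_mul, toAdd_mul]
  exact add_le_add e1 e2

theorem rmul_mul [Fintype ι] (M M' : Matrix ι ι (MonoidAlgebra R Γ)) :
    rmul R (Λ := δ.ker) (M * M') = (rmul R (Λ := δ.ker) M').comp (rmul R M) := by
  refine LinearMap.ext fun x => ?_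
  exact (Matrix.vecMul_vecMul (show ι → MonoidAlgebra R Γ from x) M M').symm

theorem rmul_one [Fintype ι] [DecidableEq ι] :
    rmul R (Λ := δ.ker) (1 : Matrix ι ι (MonoidAlgebra R Γ)) = LinearMap.id := by
  refine LinearMap.ext fun x => ?_
  exact Matrix.vecMul_one (show ι → MonoidAlgebra R Γ from x)

theorem rmul_inj [Fintype ι] [DecidableEq ι] {M M' : Matrix ι ι (MonoidAlgebra R Γ)}
    (h : M * M' = 1) : Function.Injective (rmul R (Λ := δ.ker) M) := by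
  have h1 : (rmul R (Λ := δ.ker) M').comp (rmul R M) = LinearMap.id := by
    rw [← rmul_mul, h, rmul_one]
  intro x y hxy
  have h2 := congrArg (rmul R (Λ := δ.ker) M') hxy
  have h3 := LinearMap.congr_fun h1 x
  have h4 := LinearMap.congr_fun h1 y
  rw [LinearMap.comp_apply, LinearMap.id_apply] at h3 h4
  rw [← h3, ← h4, h2]

end Lat

section Prod

variable {S M M1 M2 : Type} [Ring S] [AddCommGroup M] [Module S M] [AddCommGroup M1] [Module S M1]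
  [AddCommGroup M2] [Module S M2]

theorem qprod (X Y : Submodule S M) (X1 Y1 : Submodule S M1) (X2 Y2 : Submodule S M2)
    (p1 : M →ₗ[S] M1) (p2 : M →ₗ[S] M2) (hs : ∀ z1 z2, ∃ z, p1 z = z1 ∧ p2 z = z2)
    (hY : ∀ z, z ∈ Y ↔ p1 z ∈ Y1 ∧ p2 z ∈ Y2) (hX : ∀ z, z ∈ X ↔ p1 z ∈ X1 ∧ p2 z ∈ X2) :
    Nonempty (Qt Y X ≃ₗ[S] (Qt Y1 X1 × Qt Y2 X2)) := by
  let f1 : ↥Y →ₗ[S] ↥Y1 := (p1.comp Y.subtype).codRestrict Y1 fun z => ((hY z.1).1 z.2).1
  let f2 : ↥Y →ₗ[S] ↥Y2 := (p2.comp Y.subtype).codRestrict Y2 fun z => ((hY z.1).1 z.2).2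
  let ψ : ↥Y →ₗ[S] (Qt Y1 X1 × Qt Y2 X2) :=
    LinearMap.prod ((X1.submoduleOf Y1).mkQ.comp f1) ((X2.submoduleOf Y2).mkQ.comp f2)
  have hsur : Function.Surjective ψ := by
    rintro ⟨q1, q2⟩
    obtain ⟨y1, rfl⟩ := Submodule.mkQ_surjective _ q1
    obtain ⟨y2, rfl⟩ := Submodule.mkQ_surjective _ q2
    obtain ⟨z, h1, h2⟩ := hs y1.1 y2.1
    have hz : z ∈ Y := (hY z).2 ⟨by rw [h1]; exact y1.2, by rw [h2]; exact y2.2⟩
    refine ⟨⟨z, hz⟩, ?_⟩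
    have e1 : f1 ⟨z, hz⟩ = y1 := Subtype.ext h1
    have e2 : f2 ⟨z, hz⟩ = y2 := Subtype.ext h2
    show ((X1.submoduleOf Y1).mkQ (f1 ⟨z, hz⟩), (X2.submoduleOf Y2).mkQ (f2 ⟨z, hz⟩)) = _
    rw [e1, e2]
  have hker : LinearMap.ker ψ = X.submoduleOf Y := by
    ext z
    rw [LinearMap.mem_ker]
    show ((X1.submoduleOf Y1).mkQ (f1 z), (X2.submoduleOf Y2).mkQ (f2 z)) = 0 ↔ _
    rw [Prod.mk_eq_zero, Submodule.mkQ_apply, Submodule.mkQ_apply, Submodule.Quotient.mk_eq_zero,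
      Submodule.Quotient.mk_eq_zero]
    show p1 z.1 ∈ X1 ∧ p2 z.1 ∈ X2 ↔ z.1 ∈ X
    rw [hX]
  exact ⟨(Submodule.quotEquivOfEq _ _ hker.symm).trans (LinearMap.quotKerEquivOfSurjective ψ hsur)⟩

end Prod

section Blocks

variable {R Γ : Type} [Ring R] [Group Γ] (δ : Γ →* Multiplicative ℤ) {ι ι' : Type}

/-- restriction of the rows -/
def rs (f : ι' → ι) : Rw R δ.ker ι →ₗ[MonoidAlgebra R δ.ker] Rw R δ.ker ι' where
  toFun x := fun i => (show ι → MonoidAlgebra R Γ from x) (f i)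
  map_add' _ _ := rfl
  map_smul' _ _ := rfl

theorem blk [Fintype ι] [Fintype ι'] (a : Matrix ι ι (MonoidAlgebra R Γ))
    (d : Matrix ι' ι' (MonoidAlgebra R Γ)) (N c : ℤ) :
    Nonempty (Qt (lat R δ (ι ⊕ ι') c) ((lat R δ (ι ⊕ ι') N).map (rmul R (fromBlocks a 0 0 d)))
      ≃ₗ[MonoidAlgebra R δ.ker]
      (Qt (lat R δ ι c) ((lat R δ ι N).map (rmul R a)) ×
        Qt (lat R δ ι' c) ((lat R δ ι' N).map (rmul R d)))) := by
  refine qprod _ _ _ _ _ _ (rs δ Sum.inl) (rs δ Sum.inr) ?_ ?_ ?_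
  · intro z1 z2
    exact ⟨Sum.elim z1 z2, rfl, rfl⟩
  · intro z
    constructor
    · intro h
      exact ⟨fun i g hg => h (Sum.inl i) g hg, fun i g hg => h (Sum.inr i) g hg⟩
    · rintro ⟨h1, h2⟩ (i | i) g hg
      · exact h1 i g hg
      · exact h2 i g hg
  · intro z
    have key : ∀ x : ι ⊕ ι' → MonoidAlgebra R Γ, x ᵥ* (fromBlocks a 0 0 d) =
        Sum.elim ((fun i => x (Sum.inl i)) ᵥ* a) ((fun i => x (Sum.inr i)) ᵥ* d) := by
      intro x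
      rw [Matrix.vecMul_fromBlocks]
      simp only [Matrix.vecMul_zero, add_zero, zero_add]
      rfl
    constructor
    · rintro ⟨x, hx, rfl⟩
      have e := key x
      refine ⟨⟨rs δ Sum.inl x, fun i g hg => hx (Sum.inl i) g hg, ?_⟩,
        ⟨rs δ Sum.inr x, fun i g hg => hx (Sum.inr i) g hg, ?_⟩⟩
      · funext j
        exact (congrFun e (Sum.inl j)).symm
      · funext j
        exact (congrFun e (Sum.inr j)).symm
    · rintro ⟨⟨x1, h1, e1⟩, ⟨x2, h2, e2⟩⟩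
      refine ⟨Sum.elim x1 x2, ?_, ?_⟩
      · rintro (i | i) g hg
        · exact h1 i g hg
        · exact h2 i g hg
      · have e := key (Sum.elim x1 x2)
        have e1' : (show ι → MonoidAlgebra R Γ from x1) ᵥ* a =
          fun i => (show ι ⊕ ι' → MonoidAlgebra R Γ from z) (Sum.inl i) := e1
        have e2' : (show ι' → MonoidAlgebra R Γ from x2) ᵥ* d =
          fun i => (show ι ⊕ ι' → MonoidAlgebra R Γ from z) (Sum.inr i) := e2
        show (Sum.elim x1 x2 : ι ⊕ ι' → MonoidAlgebra R Γ) ᵥ* (fromBlocks a 0 0 d) = z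
        rw [e]
        funext j
        rcases j with j | j
        · exact congrFun e1' j
        · exact congrFun e2' j

end Blocks

section Cl

variable {R Γ : Type} [Ring R] [Group Γ] (δ : Γ →* Multiplicative ℤ) {t : Γ}
  (ht : δ t = Multiplicative.ofAdd 1) {K : Type} [AddCommGroup K]
  {cl : ∀ (P : Type) [AddCommGroup P] [Module (MonoidAlgebra R δ.ker) P], K}
  (hcl : ClP (MonoidAlgebra R δ.ker) K cl) (hEXA : SpecEXA) (hLA1 : SpecLA1) (hLA2 : SpecLA2)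

include ht hLA1 in
theorem lat_proj (ι : Type) [Fintype ι] {a b : ℤ} (h : a ≤ b) :
    Module.Finite (MonoidAlgebra R δ.ker) (Qt (lat R δ ι a) (lat R δ ι b)) ∧
    Module.Projective (MonoidAlgebra R δ.ker) (Qt (lat R δ ι a) (lat R δ ι b)) := by
  obtain ⟨n, ⟨e⟩⟩ := hLA1 R Γ δ t ht ι a b h
  exact ⟨Module.Finite.equiv e.symm, Module.Projective.of_equiv e.symm⟩

include ht hcl hLA1 in
theorem lat_cl (ι : Type) [Fintype ι] {a b : ℤ} (h : a ≤ b) :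
    cl (Qt (lat R δ ι a) (lat R δ ι b)) = 0 := by
  obtain ⟨n, ⟨e⟩⟩ := hLA1 R Γ δ t ht ι a b h
  rw [hcl.iso _ _ ⟨e⟩]
  exact hcl.free n

include ht hLA2 in
theorem Q_proj (ι : Type) [Fintype ι] [DecidableEq ι] {M M' : Matrix ι ι (MonoidAlgebra R Γ)}
    (h : M * M' = 1) (h' : M' * M = 1) {N a : ℤ}
    (hN : (lat R δ ι N).map (rmul R M) ≤ lat R δ ι a) :
    Module.Finite (MonoidAlgebra R δ.ker) (Qt (lat R δ ι a) ((lat R δ ι N).map (rmul R M))) ∧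
    Module.Projective (MonoidAlgebra R δ.ker)
      (Qt (lat R δ ι a) ((lat R δ ι N).map (rmul R M))) := by
  obtain ⟨n, E, hE, ⟨e⟩, -⟩ := hLA2 R Γ δ t ht ι M M' h h' N a hN
  have hf : Module.Finite (MonoidAlgebra R δ.ker) (LinearMap.range (Matrix.vecMulLinear E)) :=
    Module.Finite.range _
  have hp : Module.Projective (MonoidAlgebra R δ.ker)
      (LinearMap.range (Matrix.vecMulLinear E)) := by
    refine Module.Projective.of_split (LinearMap.range (Matrix.vecMulLinear E)).subtype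
      (Matrix.vecMulLinear E).rangeRestrict ?_
    refine LinearMap.ext fun z => ?_
    obtain ⟨z, x, rfl⟩ := z
    refine Subtype.ext ?_
    show (x ᵥ* E) ᵥ* E = x ᵥ* E
    rw [Matrix.vecMul_vecMul, hE]
  exact ⟨Module.Finite.equiv e.symm, Module.Projective.of_equiv e.symm⟩

include ht hcl hEXA hLA1 hLA2 in
theorem step_a (ι : Type) [Fintype ι] [DecidableEq ι] {M M' : Matrix ι ι (MonoidAlgebra R Γ)}
    (h : M * M' = 1) (h' : M' * M = 1) {N a a' : ℤ}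
    (hN : (lat R δ ι N).map (rmul R M) ≤ lat R δ ι a) (ha : a' ≤ a) :
    cl (Qt (lat R δ ι a') ((lat R δ ι N).map (rmul R M))) =
      cl (Qt (lat R δ ι a) ((lat R δ ι N).map (rmul R M))) := by
  obtain ⟨e⟩ := (hEXA (MonoidAlgebra R δ.ker)).1 (Rw R δ.ker ι) _ _ _ hN (lat_anti δ ha)
    (lat_proj δ ht hLA1 ι ha).2
  rw [hcl.iso _ _ ⟨e⟩, hcl.add _ _ (lat_proj δ ht hLA1 ι ha).1 (lat_proj δ ht hLA1 ι ha).2
    (Q_proj δ ht hLA2 ι h h' hN).1 (Q_proj δ ht hLA2 ι h h' hN).2,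
    lat_cl δ ht hcl hLA1 ι ha, zero_add]

include ht hcl hEXA hLA1 hLA2 in
theorem step_N (ι : Type) [Fintype ι] [DecidableEq ι] {M M' : Matrix ι ι (MonoidAlgebra R Γ)}
    (h : M * M' = 1) (h' : M' * M = 1) {N N' a : ℤ}
    (hN : (lat R δ ι N).map (rmul R M) ≤ lat R δ ι a) (hh : N ≤ N') :
    cl (Qt (lat R δ ι a) ((lat R δ ι N').map (rmul R M))) =
      cl (Qt (lat R δ ι a) ((lat R δ ι N).map (rmul R M))) := by
  have hle : (lat R δ ι N').map (rmul R M) ≤ (lat R δ ι N).map (rmul R M) :=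
    Submodule.map_mono (lat_anti (R := R) δ hh)
  obtain ⟨e⟩ := (hEXA (MonoidAlgebra R δ.ker)).1 (Rw R δ.ker ι) _ _ _ hle hN
    (Q_proj δ ht hLA2 ι h h' hN).2
  obtain ⟨e2⟩ := (hEXA (MonoidAlgebra R δ.ker)).2 (Rw R δ.ker ι) (Rw R δ.ker ι) (rmul R M)
    (lat R δ ι N') (lat R δ ι N) (rmul_inj δ h) (lat_anti δ hh)
  have hp := lat_proj (R := R) δ ht hLA1 ι hh
  have := hp.1
  have := hp.2
  rw [hcl.iso _ _ ⟨e⟩, hcl.add _ _ (Q_proj δ ht hLA2 ι h h' hN).1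
    (Q_proj δ ht hLA2 ι h h' hN).2 (Module.Finite.equiv e2) (Module.Projective.of_equiv e2),
    ← hcl.iso _ _ ⟨e2⟩, lat_cl δ ht hcl hLA1 ι hh, add_zero]

include ht hcl hEXA hLA1 hLA2 in
theorem indep (ι : Type) [Fintype ι] [DecidableEq ι] {M M' : Matrix ι ι (MonoidAlgebra R Γ)}
    (h : M * M' = 1) (h' : M' * M = 1) {N a N' a' : ℤ}
    (hN : (lat R δ ι N).map (rmul R M) ≤ lat R δ ι a)
    (hN' : (lat R δ ι N').map (rmul R M) ≤ lat R δ ι a') :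
    cl (Qt (lat R δ ι a) ((lat R δ ι N).map (rmul R M))) =
      cl (Qt (lat R δ ι a') ((lat R δ ι N').map (rmul R M))) := by
  have h1 : (lat R δ ι N).map (rmul R M) ≤ lat R δ ι (min a a') :=
    hN.trans (lat_anti δ (min_le_left _ _))
  have h2 : (lat R δ ι N').map (rmul R M) ≤ lat R δ ι (min a a') :=
    hN'.trans (lat_anti δ (min_le_right _ _))
  rw [← step_a δ ht hcl hEXA hLA1 hLA2 ι h h' hN (min_le_left a a'),
    ← step_a δ ht hcl hEXA hLA1 hLA2 ι h h' hN' (min_le_right a a'),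
    ← step_N δ ht hcl hEXA hLA1 hLA2 ι h h' h1 (le_max_left N N'),
    ← step_N δ ht hcl hEXA hLA1 hLA2 ι h h' h2 (le_max_right N N')]

open Classical in
/-- the index -/
noncomputable def ph (cl : ∀ (P : Type) [AddCommGroup P] [Module (MonoidAlgebra R δ.ker) P], K)
    (ι : Type) [Fintype ι] (M : Matrix ι ι (MonoidAlgebra R Γ)) : K :=
  if h : ∃ v : K, ∀ N a : ℤ, (lat R δ ι N).map (rmul R M) ≤ lat R δ ι a →
    v = cl (Qt (lat R δ ι a) ((lat R δ ι N).map (rmul R M))) then h.choose else 0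

include ht hcl hEXA hLA1 hLA2 in
theorem ph_eq (ι : Type) [Fintype ι] [DecidableEq ι] {M : Matrix ι ι (MonoidAlgebra R Γ)}
    (hM : IsUnit M) {N a : ℤ} (hN : (lat R δ ι N).map (rmul R M) ≤ lat R δ ι a) :
    ph δ cl ι M = cl (Qt (lat R δ ι a) ((lat R δ ι N).map (rmul R M))) := by
  obtain ⟨u, rfl⟩ := hM
  have hex : ∃ v : K, ∀ N a : ℤ, (lat R δ ι N).map (rmul R u.val) ≤ lat R δ ι a →
      v = cl (Qt (lat R δ ι a) ((lat R δ ι N).map (rmul R u.val))) :=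
    ⟨_, fun N' a' h' => indep δ ht hcl hEXA hLA1 hLA2 ι u.mul_inv u.inv_mul hN h'⟩
  unfold ph
  rw [dif_pos hex]
  exact hex.choose_spec N a hN

include ht hcl hEXA hLA1 hLA2 in
theorem ph_mul (ι : Type) [Fintype ι] [DecidableEq ι] (M1 M2 : Matrix ι ι (MonoidAlgebra R Γ))
    (h1 : IsUnit M1) (h2 : IsUnit M2) :
    ph δ cl ι (M1 * M2) = ph δ cl ι M1 + ph δ cl ι M2 := by
  obtain ⟨a, ha⟩ := exists_low δ M1 0
  obtain ⟨b, hb⟩ := exists_low δ M2 a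
  obtain ⟨u1, hu1⟩ := h1
  obtain ⟨u2, hu2⟩ := h2
  have hX : (lat R δ ι 0).map (rmul R (M1 * M2)) =
      ((lat R δ ι 0).map (rmul R M1)).map (rmul R M2) := by
    rw [rmul_mul, Submodule.map_comp]
  have hle : ((lat R δ ι 0).map (rmul R M1)).map (rmul R M2) ≤ (lat R δ ι a).map (rmul R M2) :=
    Submodule.map_mono ha
  have hN : (lat R δ ι 0).map (rmul R (M1 * M2)) ≤ lat R δ ι b := by
    rw [hX]
    exact hle.trans hb
  have m1 : M1 * u1⁻¹.val = 1 := by rw [← hu1]; exact u1.mul_inv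
  have m1' : u1⁻¹.val * M1 = 1 := by rw [← hu1]; exact u1.inv_mul
  have m2 : M2 * u2⁻¹.val = 1 := by rw [← hu2]; exact u2.mul_inv
  have m2' : u2⁻¹.val * M2 = 1 := by rw [← hu2]; exact u2.inv_mul
  rw [ph_eq δ ht hcl hEXA hLA1 hLA2 ι (M := M1 * M2) (by
      rw [← hu1, ← hu2]; exact (u1 * u2).isUnit) hN,
    ph_eq δ ht hcl hEXA hLA1 hLA2 ι (M := M1) ⟨u1, hu1⟩ ha,
    ph_eq δ ht hcl hEXA hLA1 hLA2 ι (M := M2) ⟨u2, hu2⟩ hb, hX]
  have hp2 := Q_proj δ ht hLA2 ι m2 m2' hb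
  have hp1 := Q_proj δ ht hLA2 ι m1 m1' ha
  obtain ⟨e⟩ := (hEXA (MonoidAlgebra R δ.ker)).1 (Rw R δ.ker ι) _ _ _ hle hb hp2.2
  obtain ⟨e2⟩ := (hEXA (MonoidAlgebra R δ.ker)).2 (Rw R δ.ker ι) (Rw R δ.ker ι) (rmul R M2)
    ((lat R δ ι 0).map (rmul R M1)) (lat R δ ι a) (rmul_inj δ m2) ha
  have := hp1.1
  have := hp1.2
  rw [hcl.iso _ _ ⟨e⟩, hcl.add _ _ hp2.1 hp2.2 (Module.Finite.equiv e2)
    (Module.Projective.of_equiv e2), ← hcl.iso _ _ ⟨e2⟩, add_comm]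

include ht hcl hEXA hLA1 hLA2 in
theorem ph_one (ι : Type) [Fintype ι] [DecidableEq ι] :
    ph δ cl ι (1 : Matrix ι ι (MonoidAlgebra R Γ)) = 0 := by
  have h := ph_mul δ ht hcl hEXA hLA1 hLA2 ι 1 1 isUnit_one isUnit_one
  rw [mul_one] at h
  exact left_eq_add.1 h

include ht hcl hEXA hLA1 hLA2 in
theorem ph_blk (ι ι' : Type) [Fintype ι] [DecidableEq ι] [Fintype ι'] [DecidableEq ι']
    (a : Matrix ι ι (MonoidAlgebra R Γ)) (d : Matrix ι' ι' (MonoidAlgebra R Γ))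
    (ha : IsUnit a) (hd : IsUnit d) :
    ph δ cl (ι ⊕ ι') (fromBlocks a 0 0 d) = ph δ cl ι a + ph δ cl ι' d := by
  obtain ⟨c1, h1⟩ := exists_low δ a 0
  obtain ⟨c2, h2⟩ := exists_low δ d 0
  obtain ⟨c3, h3⟩ := exists_low δ (fromBlocks a 0 0 d) 0
  obtain ⟨u, hu⟩ := ha
  obtain ⟨w, hw⟩ := hd
  have m1 : a * u⁻¹.val = 1 := by rw [← hu]; exact u.mul_inv
  have m1' : u⁻¹.val * a = 1 := by rw [← hu]; exact u.inv_mul
  have m2 : d * w⁻¹.val = 1 := by rw [← hw]; exact w.mul_inv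
  have m2' : w⁻¹.val * d = 1 := by rw [← hw]; exact w.inv_mul
  have hU : IsUnit (fromBlocks a 0 0 d) := by
    refine ⟨⟨fromBlocks a 0 0 d, fromBlocks u⁻¹.val 0 0 w⁻¹.val, ?_, ?_⟩, rfl⟩
    · rw [Matrix.fromBlocks_multiply, m1, m2]
      simp [Matrix.fromBlocks_one]
    · rw [Matrix.fromBlocks_multiply, m1', m2']
      simp [Matrix.fromBlocks_one]
  have h1' := h1.trans (lat_anti δ (min_le_left c1 (min c2 c3)))
  have h2' := h2.trans (lat_anti δ ((min_le_right c1 (min c2 c3)).trans (min_le_left c2 c3)))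
  have h3' := h3.trans (lat_anti δ ((min_le_right c1 (min c2 c3)).trans (min_le_right c2 c3)))
  rw [ph_eq δ ht hcl hEXA hLA1 hLA2 (ι ⊕ ι') hU h3',
    ph_eq δ ht hcl hEXA hLA1 hLA2 ι (M := a) ⟨u, hu⟩ h1',
    ph_eq δ ht hcl hEXA hLA1 hLA2 ι' (M := d) ⟨w, hw⟩ h2']
  have p1 := Q_proj δ ht hLA2 ι m1 m1' h1'
  have p2 := Q_proj δ ht hLA2 ι' m2 m2' h2'
  rw [hcl.iso _ _ (blk δ a d 0 _), hcl.add _ _ p1.1 p1.2 p2.1 p2.2]

end Cl

end INDM

theorem specIND (hEXA : SpecEXA) (hLA1 : SpecLA1) (hLA2 : SpecLA2) (hKFI : SpecKFI) :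
    SpecIND := by
  intro R Γ _ _ δ t ht K _ cl hcl
  refine ⟨fun ι _ M => INDM.ph δ cl ι M, ?_, ?_⟩
  · refine hKFI (MonoidAlgebra R Γ) K _ ?_ ?_
    · intro ι _ _ a b ha hb
      exact INDM.ph_mul δ ht hcl hEXA hLA1 hLA2 ι a b ha hb
    · intro ι ι' _ _ _ _ a d ha hd
      constructor
      · show INDM.ph δ cl (ι ⊕ ι') (fromBlocks a 0 0 1) = INDM.ph δ cl ι a
        rw [INDM.ph_blk δ ht hcl hEXA hLA1 hLA2 ι ι' a 1 ha isUnit_one,
          INDM.ph_one δ ht hcl hEXA hLA1 hLA2 ι', add_zero]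
      · show INDM.ph δ cl (ι ⊕ ι') (fromBlocks 1 0 0 d) = INDM.ph δ cl ι' d
        rw [INDM.ph_blk δ ht hcl hEXA hLA1 hLA2 ι ι' 1 d isUnit_one hd,
          INDM.ph_one δ ht hcl hEXA hLA1 hLA2 ι, zero_add]
  · intro ι _ _ M hM N a hN
    exact INDM.ph_eq δ ht hcl hEXA hLA1 hLA2 ι hM hN

end Pool.Agent.Lib.MPb6f35e.KN
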