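import Pool.Agent.Lib.MP_b6f35e_al.KN.Spec

/-! Module INK (helper93): induction on the distance. -/

namespace Pool.Agent.Lib.MPb6f35e.KN

open Matrix
open Pool.Agent.Lib.MP8a3537.UV (emb res lres SuppIn)
open Pool.Agent.Lib.MP8a3537.RO (Bi dc Kg cut)
open Pool.Agent.Lib.MP8a3537.ROK (TM)

theorem specINK (hELK : SpecELK) (hBLT : SpecBLT) (hBGE : SpecBGE) : SpecINK := by
  intro R G K V _ _ _ _ κ d hκ hTM P k hP hbase
  have key : ∀ (m : ℕ) (L : Subgroup G) (X Y : Set G) (p q : V), k ≤ d p q + m → TD1 L X Y →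
      Geo1 d L X p q → P p q → Van κ X := by
    intro m
    induction m with
    | zero =>
      intro L X Y p q hk hTD hg hPp
      exact hbase L X Y p q hTD hg (by simpa using hk) hPp
    | succ m ih =>
      intro L X Y p q hk hTD hg hPp ι _ _ ν hν hnil
      refine hELK R G K Unit κ hκ L (fun _ _ => X) (fun _ => Y) hTD ?_ ι (fun _ => ()) ν
        (fun i j g hgg => hν i j g hgg) hnil
      intro s t g hgX
      obtain ⟨h1, h2, h3⟩ := hBGE G V Unit d hTM L (fun _ _ => X) (fun _ => p) (fun _ => q) hg s t g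
        hgX
      refine ih _ _ _ p (g • q) ?_ (hBLT G Unit L (fun _ _ => X) (fun _ => Y) hTD s t g hgX) h1
        (hP _ _ _ hPp h2)
      have h4 : d p q < d p (g • q) := h3
      omega
  intro L X Y p q hTD hg hPp
  exact key k L X Y p q (by omega) hTD hg hPp

end Pool.Agent.Lib.MPb6f35e.KN
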