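import Pool.Agent.Lib.MP_b6f35e_al.KN.Spec
import Pool.Agent.Lib.MP_8a3537_gt.RO.JNT

/-!
# MP_b6f35e_al, KN: module JNK (helper58), joint nilpotency
-/

namespace Pool.Agent.Lib.MPb6f35e.KN

open Matrix
open Pool.Agent.Lib.MP8a3537.UV (emb res lres SuppIn)
open Pool.Agent.Lib.MP8a3537.RO (Bi dc Kg cut cut_coeff)
open Pool.Agent.Lib.MP8a3537.RO.JNTAux (cut_zero cut_sum supp_mul cut_mul)

namespace JNKM

variable {R G : Type} [Ring R]

theorem cut_one [Group G] (W : Set G) (h : (1 : G) ∈ W) : cut W (1 : MonoidAlgebra R G) = 1 := by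
  classical
  ext g
  rw [cut_coeff]
  split_ifs with hg
  · rfl
  · rw [MonoidAlgebra.one_def, MonoidAlgebra.coeff_single_apply, if_neg]
    rintro rfl
    exact hg h

end JNKM

open JNKM in
theorem specJNK : SpecJNK := by
  classical
  intro R G S _ _ H Z Y hTD ι _ _ τ ν hTy N hN l hl hlen
  -- supports of the powers
  have hpow : ∀ k i j g, ((ν ^ k) i j).coeff g ≠ 0 → g ∈ Y (τ j) := by
    intro k
    induction k with
    | zero =>
      intro i j g hg
      rw [pow_zero, Matrix.one_apply] at hg
      have h2 : g = 1 := by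
        by_contra hg1
        apply hg
        split_ifs
        · rw [MonoidAlgebra.one_def, MonoidAlgebra.coeff_single_apply, if_neg (fun h => hg1 h.symm)]
        · simp
      rw [h2]
      exact hTD.one _
    | succ k ih =>
      intro i j g hg
      rw [pow_succ, Matrix.mul_apply] at hg
      have h3 : ∃ q, (((ν ^ k) i q) * (ν q j)).coeff g ≠ 0 := by
        by_contra h4
        push Not at h4
        apply hg
        rw [MonoidAlgebra.coeff_sum, Finsupp.finset_sum_apply]
        exact Finset.sum_eq_zero fun q _ => h4 q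
      obtain ⟨q, hq⟩ := h3
      obtain ⟨x, y, hx, hy, rfl⟩ := supp_mul _ _ _ hq
      exact hTD.yz _ _ _ (ih _ _ _ hx) _ (hTy _ _ _ hy)
  -- the claim
  have claim : ∀ l : List (S → S → Set G), (∀ c ∈ l, ∀ a b, Bi H (c a b)) →
      ∃ W : S → S → Set G, (∀ a b, ∀ h ∈ H, ∀ w ∈ W a b, w * h ∈ W a b) ∧
        ∀ i j, (l.map fun c => pt τ c ν).prod i j = cut (W (τ i) (τ j)) ((ν ^ l.length) i j) := by
    intro l
    induction l using List.reverseRecOn with
    | nil =>
      intro _
      refine ⟨fun _ _ => {h | h ∈ H}, fun _ _ h hh w hw => H.mul_mem hw hh, fun i j => ?_⟩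
      rw [List.map_nil, List.prod_nil, List.length_nil, pow_zero, Matrix.one_apply]
      split_ifs
      · exact (cut_one _ H.one_mem).symm
      · exact (cut_zero _).symm
    | append_singleton l c ih =>
      intro hl
      obtain ⟨W, hW, hP⟩ := ih fun c' hc' => hl c' (List.mem_append_left _ hc')
      have hc : ∀ a b, Bi H (c a b) := hl c (List.mem_append_right _ (List.mem_singleton_self c))
      refine ⟨fun a b' => {z | ∃ b, ∃ w ∈ W a b, ∃ x ∈ c b b', w ∈ Y b ∧ x ∈ Z b b' ∧ z = w * x},
        ?_, ?_⟩
      · rintro a b' h hh z ⟨b, w, hw, x, hx, hwY, hxZ, rfl⟩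
        exact ⟨b, w, hw, x * h, (hc b b').2 h hh x hx, hwY, hTD.zh b b' h hh x hxZ,
          mul_assoc _ _ _⟩
      · intro i j
        rw [List.map_append, List.prod_append, List.map_singleton, List.prod_singleton,
          List.length_append, List.length_singleton, pow_succ, Matrix.mul_apply, Matrix.mul_apply,
          cut_sum]
        refine Finset.sum_congr rfl fun q _ => ?_
        have key := (cut_mul (W (τ i) (τ q)) (c (τ q) (τ j))
          {z | ∃ b, ∃ w ∈ W (τ i) b, ∃ x ∈ c b (τ j), w ∈ Y b ∧ x ∈ Z b (τ j) ∧ z = w * x}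
          ((ν ^ l.length) i q) (ν q j) True (by
            intro x y hx hy
            have hxY := hpow _ _ _ _ hx
            have hyZ := hTy _ _ _ hy
            constructor
            · rintro ⟨b, w, hw, x', hx', hwY, hx'Z, he⟩
              obtain ⟨hb, hH⟩ := hTD.uq _ _ _ x hxY y hyZ w hwY x' hx'Z he
              subst hb
              refine ⟨trivial, ?_, ?_⟩
              · have h1 := hW _ _ _ hH w hw
                have h2 : w * (x' * y⁻¹) = x := by
                  rw [← mul_assoc, ← he]; group
                rwa [h2] at h1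
              · have h1 := (hc _ _).1 _ (H.inv_mem hH) x' hx'
                have h2 : (x' * y⁻¹)⁻¹ * x' = y := by group
                rwa [h2] at h1
            · rintro ⟨-, h1, h2⟩
              exact ⟨τ q, x, h1, y, h2, hxY, hyZ, rfl⟩)).1 trivial
        rw [key, hP i q]
        rfl
  obtain ⟨W, _, hP⟩ := claim l hl
  ext1 i j
  rw [hP i j, pow_eq_zero_of_le hlen hN]
  exact cut_zero _

end Pool.Agent.Lib.MPb6f35e.KN
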