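import Pool.Agent.Lib.MP_b6f35e_al.KN.SpecC

/-!
# Module KFI: a criterion for `KF`
-/

namespace Pool.Agent.Lib.MPb6f35e.KN

open Matrix

namespace KFIM

variable {A : Type} [Ring A] {ι ι' : Type} [Fintype ι] [DecidableEq ι] [Fintype ι'] [DecidableEq ι']

theorem isUnit_of_two {n : Type} [Fintype n] [DecidableEq n] {M M' : Matrix n n A}
    (h : M * M' = 1) (h' : M' * M = 1) : IsUnit M :=
  ⟨⟨M, M', h, h'⟩, rfl⟩

theorem unit_low (y : Matrix ι' ι A) :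
    IsUnit (fromBlocks (1 : Matrix ι ι A) 0 y (1 : Matrix ι' ι' A)) := by
  refine isUnit_of_two (M' := fromBlocks 1 0 (-y) 1) ?_ ?_
  · rw [fromBlocks_multiply]
    simp
  · rw [fromBlocks_multiply]
    simp

theorem unit_up (x : Matrix ι ι' A) :
    IsUnit (fromBlocks (1 : Matrix ι ι A) x 0 (1 : Matrix ι' ι' A)) := by
  refine isUnit_of_two (M' := fromBlocks 1 (-x) 0 1) ?_ ?_
  · rw [fromBlocks_multiply]
    simp
  · rw [fromBlocks_multiply]
    simp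

theorem unit_diag {a : Matrix ι ι A} {d : Matrix ι' ι' A} (ha : IsUnit a) (hd : IsUnit d) :
    IsUnit (fromBlocks a 0 0 d) := by
  obtain ⟨u, rfl⟩ := ha
  obtain ⟨v, rfl⟩ := hd
  refine isUnit_of_two (M' := fromBlocks ↑u⁻¹ 0 0 ↑v⁻¹) ?_ ?_
  · rw [fromBlocks_multiply]
    simp
  · rw [fromBlocks_multiply]
    simp

/-- `1 + y x` is a unit if `1 + x y` is one. -/
theorem unit_swap (x : Matrix ι ι' A) (y : Matrix ι' ι A) (h : IsUnit (1 + x * y)) :
    IsUnit (1 + y * x) := by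
  obtain ⟨u, hu⟩ := h
  have h1 : (1 + x * y) * (↑u⁻¹ : Matrix ι ι A) = 1 := by rw [← hu]; simp
  have h2 : (↑u⁻¹ : Matrix ι ι A) * (1 + x * y) = 1 := by rw [← hu]; simp
  refine isUnit_of_two (M' := 1 - y * (↑u⁻¹ : Matrix ι ι A) * x) ?_ ?_
  · have h3 : y * x * (y * (↑u⁻¹ : Matrix ι ι A) * x) =
        y * (x * y * (↑u⁻¹ : Matrix ι ι A)) * x := by
      simp only [Matrix.mul_assoc]
    have h4 : x * y * (↑u⁻¹ : Matrix ι ι A) = 1 - (↑u⁻¹ : Matrix ι ι A) := by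
      rw [Matrix.add_mul, Matrix.one_mul] at h1
      rw [← h1]
      abel
    rw [Matrix.mul_sub, Matrix.mul_one, Matrix.add_mul, Matrix.one_mul, h3, h4, Matrix.mul_sub,
      Matrix.sub_mul, Matrix.mul_one]
    abel
  · have h3 : y * (↑u⁻¹ : Matrix ι ι A) * x * (y * x) =
        y * ((↑u⁻¹ : Matrix ι ι A) * (x * y)) * x := by
      simp only [Matrix.mul_assoc]
    have h4 : (↑u⁻¹ : Matrix ι ι A) * (x * y) = 1 - (↑u⁻¹ : Matrix ι ι A) := by
      rw [Matrix.mul_add, Matrix.mul_one] at h2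
      rw [← h2]
      abel
    rw [Matrix.sub_mul, Matrix.one_mul, Matrix.mul_add, Matrix.mul_one, h3, h4, Matrix.mul_sub,
      Matrix.sub_mul, Matrix.mul_one]
    abel

end KFIM

open KFIM in
/-- KFI: a criterion for `KF`. -/
theorem kfi : SpecKFI := by
  intro A K _ _ κ hmul hblk
  refine ⟨hmul, ?_⟩
  intro ι ι' _ _ _ _ x y ha
  have hd : IsUnit (1 + y * x) := unit_swap x y ha
  have hL : IsUnit (fromBlocks (1 : Matrix ι ι A) 0 y (1 : Matrix ι' ι' A)) := unit_low y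
  have hU : IsUnit (fromBlocks (1 : Matrix ι ι A) (-x) 0 (1 : Matrix ι' ι' A)) := unit_up (-x)
  have hD : IsUnit (fromBlocks (1 : Matrix ι ι A) 0 0 (1 + y * x)) :=
    unit_diag isUnit_one hd
  have hA : IsUnit (fromBlocks (1 + x * y) 0 0 (1 : Matrix ι' ι' A)) :=
    unit_diag ha isUnit_one
  have e1 : fromBlocks (1 : Matrix ι ι A) 0 y (1 : Matrix ι' ι' A) *
      (fromBlocks (1 : Matrix ι ι A) 0 0 (1 + y * x) *
        fromBlocks (1 : Matrix ι ι A) (-x) 0 (1 : Matrix ι' ι' A)) =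
      (fromBlocks (1 : Matrix ι ι A) (-x) 0 (1 : Matrix ι' ι' A) *
        fromBlocks (1 + x * y) 0 0 (1 : Matrix ι' ι' A)) *
        fromBlocks (1 : Matrix ι ι A) 0 y (1 : Matrix ι' ι' A) := by
    simp only [fromBlocks_multiply]
    congr 1 <;> simp
  have e2 := congrArg (κ (ι ⊕ ι')) e1
  rw [hmul _ _ _ hL (hD.mul hU), hmul _ _ _ hD hU, hmul _ _ _ (hU.mul hA) hL,
    hmul _ _ _ hU hA, (hblk ι ι' _ _ ha hd).1, (hblk ι ι' _ _ ha hd).2] at e2
  have e3 : κ ι (1 + x * y) - κ ι' (1 + y * x) = 0 := by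
    have := sub_eq_zero.2 e2
    rw [← neg_eq_zero, ← this]
    abel
  exact sub_eq_zero.1 e3

end Pool.Agent.Lib.MPb6f35e.KN
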