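import Pool.Agent.Lib.MP_b6f35e_al.KN.Spec
import Pool.Agent.Lib.MP_8a3537_gt.UV.RES

/-!
# KFP: the kernel of `S^ι / K_j → S^ι / K_(j+1)` is finitely presented (MP_b6f35e_al, folder KN)
-/

namespace Pool.Agent.Lib.MPb6f35e.KN

open Matrix
open Pool.Agent.Lib.MP8a3537.UV (emb res lres SuppIn)
open Pool.Agent.Lib.MP8a3537.UV

namespace KFPM

variable {R G : Type} [Ring R] [Group G] (L : Subgroup G) {ι : Type} [Fintype ι]

/-- The components of `er c ᵥ* M`. -/
theorem lres_vecMul {κ : Type} (M : Matrix ι κ (MonoidAlgebra R G)) (c : ι → MonoidAlgebra R L)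
    (t : G) (j : κ) : lres L t ((er L c ᵥ* M) j) = (c ᵥ* M.map (lres L t)) j := by
  simp only [Matrix.vecMul, dotProduct, Matrix.map_apply]
  rw [RESAux.lres_sum]
  exact Finset.sum_congr rfl fun i _ => RESAux.lres_emb_mul L t _ _

/-- The support of `er c ᵥ* M` is in the same right cosets. -/
theorem supp_vecMul {κ : Type} (M : Matrix ι κ (MonoidAlgebra R G))
    (c : ι → MonoidAlgebra R L) (Q : Finset (G ⧸ L))
    (hQ : ∀ i j g, (M i j).coeff g ≠ 0 → ((g⁻¹ : G) : G ⧸ L) ∈ Q) (j : κ) (g : G)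
    (hg : ((er L c ᵥ* M) j).coeff g ≠ 0) : ((g⁻¹ : G) : G ⧸ L) ∈ Q := by
  have hl : lres L g ((er L c ᵥ* M) j) ≠ 0 := by
    intro h0
    apply hg
    have := congrArg (fun z => z.coeff 1) h0
    simpa [lres_coeff] using this
  rw [lres_vecMul] at hl
  simp only [Matrix.vecMul, dotProduct, Matrix.map_apply] at hl
  obtain ⟨i, _, hi⟩ := Finset.exists_ne_zero_of_sum_ne_zero hl
  have hi2 : lres L g (M i j) ≠ 0 := by
    intro h0
    exact hi (by rw [h0, mul_zero])
  have hex : ∃ h : L, (lres L g (M i j)).coeff h ≠ 0 := by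
    by_contra hc
    push Not at hc
    exact hi2 (by ext h; simpa using hc h)
  obtain ⟨h, hh⟩ := hex
  rw [lres_coeff] at hh
  have h1 := hQ i j _ hh
  have h2 : (((((h : L) : G) * g)⁻¹ : G) : G ⧸ L) = ((g⁻¹ : G) : G ⧸ L) := by
    rw [QuotientGroup.eq]
    simp
  rwa [h2] at h1

/-- The kernel of `c ↦ er c ᵥ* M` is the kernel of a linear map to a finite free module. -/
theorem exists_map {κ : Type} [Fintype κ] (M : Matrix ι κ (MonoidAlgebra R G)) :
    ∃ (Q : Finset (G ⧸ L)) (F : (ι → MonoidAlgebra R L) →ₗ[MonoidAlgebra R L]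
      (Q → κ → MonoidAlgebra R L)), ∀ c, F c = 0 ↔ er L c ᵥ* M = 0 := by
  classical
  obtain ⟨Q, hQ⟩ := RESAux.exists_lcosets L M
  refine ⟨Q, LinearMap.pi fun q => (M.map (lres L (q.1.out)⁻¹)).vecMulLinear, fun c => ?_⟩
  constructor
  · intro h
    funext j
    have h1 := RESAux.ldecomp L ((er L c ᵥ* M) j) Q (fun g hg => supp_vecMul L M c Q hQ j g hg)
    rw [h1]
    refine Finset.sum_eq_zero fun q hq => ?_
    have h2 := congrFun (congrFun h ⟨q, hq⟩) j
    have h3 : lres L (q.out)⁻¹ ((er L c ᵥ* M) j) = 0 := by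
      rw [lres_vecMul]
      exact h2
    rw [h3, map_zero, zero_mul]
  · intro h
    funext q j
    show (c ᵥ* M.map (lres L (q.1.out)⁻¹)) j = 0
    rw [← lres_vecMul, h]
    exact RESAux.lres_zero L _

end KFPM

/-- **KFP**. -/
theorem specKFP (hCOK : SpecCOK) : SpecKFP := by
  intro R G _ _ L ι _ _ ν j hreg
  have key : ∀ j : ℕ, Module.FinitePresentation (MonoidAlgebra R L)
      ((ι → MonoidAlgebra R L) ⧸ Kj L ν j) := by
    intro j
    obtain ⟨Q, F, hF⟩ := KFPM.exists_map L (ν ^ j)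
    have hk : LinearMap.ker F = Kj L ν j := by
      ext c
      rw [LinearMap.mem_ker, hF, mem_Kj]
    have h1 : Module.FinitePresentation (MonoidAlgebra R L) (ι → MonoidAlgebra R L) :=
      Module.finitePresentation_of_projective _ _
    have h2 : Module.FinitePresentation (MonoidAlgebra R L) (Q → ι → MonoidAlgebra R L) :=
      Module.finitePresentation_of_projective _ _
    have h3 := hCOK (MonoidAlgebra R L) hreg _ _ F h1 h2
    rw [hk] at h3
    refine Module.finitePresentation_of_surjective (Kj L ν j).mkQ (Submodule.mkQ_surjective _) ?_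
    rw [Submodule.ker_mkQ]
    exact (Module.Finite.iff_fg).1 inferInstance
  exact hCOK (MonoidAlgebra R L) hreg _ _ (th L ν j) (key j) (key (j + 1))

end Pool.Agent.Lib.MPb6f35e.KN
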