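import Pool.Agent.Lib.MP_b6f35e_al.KN.Spec

/-!
# KN, module KIN: the class in `K_1` is a function with the properties `KF`
-/

namespace Pool.Agent.Lib.MPb6f35e.KN

open Matrix

namespace KINM

section base

variable {A : Type} [Ring A]

/-- The class of an invertible matrix. -/
noncomputable def cl {n : ℕ} (u : (Matrix (Fin n) (Fin n) A)ˣ) : D1.Grp (D1.RelA A) :=
  D1.cls (D1.RelA A) ⟨n, u⟩

theorem rel_zero (x y z : D1.GenA A)
    (h : D1.RelA A (FreeAbelianGroup.of x - FreeAbelianGroup.of y - FreeAbelianGroup.of z)) :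
    D1.cls (D1.RelA A) x = D1.cls (D1.RelA A) y + D1.cls (D1.RelA A) z := by
  have h1 : (QuotientAddGroup.mk (FreeAbelianGroup.of x - FreeAbelianGroup.of y -
      FreeAbelianGroup.of z) : FreeAbelianGroup (D1.GenA A) ⧸
        AddSubgroup.closure {y | D1.RelA A y}) = 0 :=
    (QuotientAddGroup.eq_zero_iff _).2 (AddSubgroup.subset_closure h)
  have h2 : D1.cls (D1.RelA A) x - D1.cls (D1.RelA A) y - D1.cls (D1.RelA A) z = 0 := h1
  rw [sub_sub, sub_eq_zero] at h2
  exact h2

theorem cl_mul {n : ℕ} (a b : (Matrix (Fin n) (Fin n) A)ˣ) : cl (a * b) = cl a + cl b :=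
  rel_zero _ _ _ (D1.RelA.mul n a b)

theorem cl_block {m n : ℕ} (a : (Matrix (Fin m) (Fin m) A)ˣ) (b : (Matrix (Fin n) (Fin n) A)ˣ)
    (x : Matrix (Fin m) (Fin n) A) (c : (Matrix (Fin (m + n)) (Fin (m + n)) A)ˣ)
    (h : c.val = D1.block a.val x b.val) : cl c = cl a + cl b :=
  rel_zero _ _ _ (D1.RelA.block m n a b x c h)

theorem cl_conj {n : ℕ} (p u : (Matrix (Fin n) (Fin n) A)ˣ) : cl (p * u * p⁻¹) = cl u := by
  have h1 : cl (p * u * p⁻¹ * p) = cl (p * u * p⁻¹) + cl p := cl_mul _ _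
  rw [inv_mul_cancel_right, cl_mul] at h1
  have h2 : cl p + cl u = cl p + cl (p * u * p⁻¹) := by
    rw [h1, add_comm]
  exact (add_left_cancel h2).symm

open Classical in
/-- The class of a matrix with indices in `Fin n`, `0` if it is not invertible. -/
noncomputable def ff {n : ℕ} (M : Matrix (Fin n) (Fin n) A) : D1.Grp (D1.RelA A) :=
  if h : IsUnit M then cl h.unit else 0

theorem ff_val {n : ℕ} (u : (Matrix (Fin n) (Fin n) A)ˣ) : ff u.val = cl u := by
  unfold ff
  rw [dif_pos u.isUnit]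
  congr 1
  ext1
  rfl

theorem ff_not {n : ℕ} {M : Matrix (Fin n) (Fin n) A} (h : ¬ IsUnit M) : ff M = 0 := by
  unfold ff
  rw [dif_neg h]

/-- Reindexing of units. -/
def ru {ι ι' : Type} [Fintype ι] [DecidableEq ι] [Fintype ι'] [DecidableEq ι'] (e : ι' ≃ ι)
    (u : (Matrix ι ι A)ˣ) : (Matrix ι' ι' A)ˣ :=
  ⟨u.val.submatrix e e, u.inv.submatrix e e, by
    rw [submatrix_mul_equiv, u.val_inv, submatrix_one_equiv], by
    rw [submatrix_mul_equiv, u.inv_val, submatrix_one_equiv]⟩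

theorem ru_val {ι ι' : Type} [Fintype ι] [DecidableEq ι] [Fintype ι'] [DecidableEq ι']
    (e : ι' ≃ ι) (u : (Matrix ι ι A)ˣ) : (ru e u).val = u.val.submatrix e e := rfl

/-- The permutation matrix of `σ`. -/
def pm {n : ℕ} (σ : Fin n ≃ Fin n) : (Matrix (Fin n) (Fin n) A)ˣ :=
  ⟨(1 : Matrix (Fin n) (Fin n) A).submatrix σ (Equiv.refl _),
    (1 : Matrix (Fin n) (Fin n) A).submatrix (Equiv.refl _) σ, by
    rw [submatrix_mul_equiv, one_mul, submatrix_one_equiv], by
    rw [submatrix_mul_equiv, one_mul, submatrix_one_equiv]⟩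

theorem perm_val {n : ℕ} (σ : Fin n ≃ Fin n) (u : (Matrix (Fin n) (Fin n) A)ˣ) :
    (pm σ * u * (pm σ)⁻¹).val = u.val.submatrix σ σ := by
  show (1 : Matrix (Fin n) (Fin n) A).submatrix σ (Equiv.refl _) * u.val *
    (1 : Matrix (Fin n) (Fin n) A).submatrix (Equiv.refl _) σ = u.val.submatrix σ σ
  have h1 : u.val = u.val.submatrix (Equiv.refl _) (Equiv.refl _) := rfl
  conv_lhs => rw [h1]
  rw [submatrix_mul_equiv, submatrix_mul_equiv, one_mul, mul_one]

theorem ff_perm {n : ℕ} (σ : Fin n ≃ Fin n) (M : Matrix (Fin n) (Fin n) A) :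
    ff (M.submatrix σ σ) = ff M := by
  by_cases h : IsUnit M
  · obtain ⟨u, rfl⟩ := h
    rw [← perm_val, ff_val, ff_val, cl_conj]
  · have h' : ¬ IsUnit (M.submatrix σ σ) := by
      intro hu
      obtain ⟨v, hv⟩ := hu
      apply h
      have h2 : M = (M.submatrix σ σ).submatrix σ.symm σ.symm := by
        ext i j
        simp
      rw [h2, ← hv]
      exact (ru σ.symm v).isUnit
    rw [ff_not h, ff_not h']

/-- Two numberings of `ι` give the same class. -/
theorem ff_equiv {ι : Type} {n : ℕ} (e e' : ι ≃ Fin n) (M : Matrix ι ι A) :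
    ff (M.submatrix e.symm e.symm) = ff (M.submatrix e'.symm e'.symm) := by
  have h1 : M.submatrix e.symm e.symm =
      (M.submatrix e'.symm e'.symm).submatrix (e.symm.trans e') (e.symm.trans e') := by
    ext i j
    simp
  rw [h1, ff_perm]

/-- The class of a matrix. -/
noncomputable def kap (ι : Type) [Fintype ι] (M : Matrix ι ι A) : D1.Grp (D1.RelA A) :=
  ff (M.submatrix (Fintype.equivFin ι).symm (Fintype.equivFin ι).symm)

theorem kap_eq (ι : Type) [Fintype ι] (M : Matrix ι ι A) {n : ℕ} (e : ι ≃ Fin n) :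
    kap ι M = ff (M.submatrix e.symm e.symm) := by
  have hn : Fintype.card ι = n := by
    rw [Fintype.card_congr e, Fintype.card_fin]
  subst hn
  exact ff_equiv _ _ _

theorem kap_mul (ι : Type) [Fintype ι] [DecidableEq ι] (u v : (Matrix ι ι A)ˣ) :
    kap ι (u.val * v.val) = kap ι u.val + kap ι v.val := by
  unfold kap
  rw [← submatrix_mul_equiv u.val v.val _ (Fintype.equivFin ι).symm _, ← ru_val, ← ru_val,
    ← Units.val_mul, ff_val, ff_val, ff_val, cl_mul]

/-- Block triangular matrices are invertible. -/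
def ub {ι ι' : Type} [Fintype ι] [DecidableEq ι] [Fintype ι'] [DecidableEq ι']
    (a : (Matrix ι ι A)ˣ) (x : Matrix ι ι' A) (b : (Matrix ι' ι' A)ˣ) :
    (Matrix (ι ⊕ ι') (ι ⊕ ι') A)ˣ :=
  ⟨fromBlocks a.val x 0 b.val, fromBlocks a.inv (-(a.inv * x * b.inv)) 0 b.inv, by
    have h1 : a.val * -(a.inv * x * b.inv) = -(x * b.inv) := by
      rw [Matrix.mul_neg, ← Matrix.mul_assoc, ← Matrix.mul_assoc, a.val_inv, Matrix.one_mul]
    rw [fromBlocks_multiply, a.val_inv, b.val_inv, h1]
    simp, by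
    have h1 : -(a.inv * x * b.inv) * b.val = -(a.inv * x) := by
      rw [Matrix.neg_mul, Matrix.mul_assoc, b.inv_val, Matrix.mul_one]
    rw [fromBlocks_multiply, a.inv_val, b.inv_val, h1]
    simp⟩

/-- The lower triangular matrices. -/
def lo {ι ι' : Type} [Fintype ι] [DecidableEq ι] [Fintype ι'] [DecidableEq ι']
    (y : Matrix ι' ι A) : (Matrix (ι ⊕ ι') (ι ⊕ ι') A)ˣ :=
  ⟨fromBlocks 1 0 y 1, fromBlocks 1 0 (-y) 1, by
    rw [fromBlocks_multiply]
    simp, by
    rw [fromBlocks_multiply]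
    simp⟩

theorem kap_block {ι ι' : Type} [Fintype ι] [DecidableEq ι] [Fintype ι'] [DecidableEq ι']
    (a : (Matrix ι ι A)ˣ) (x : Matrix ι ι' A) (b : (Matrix ι' ι' A)ˣ) :
    kap (ι ⊕ ι') (fromBlocks a.val x 0 b.val) = kap ι a.val + kap ι' b.val := by
  have e := Fintype.equivFin ι
  have e' := Fintype.equivFin ι'
  rw [kap_eq ι _ e, kap_eq ι' _ e', kap_eq (ι ⊕ ι') _ ((Equiv.sumCongr e e').trans finSumFinEquiv),
    ← ru_val e.symm a, ← ru_val e'.symm b, ff_val, ff_val]
  have h1 : fromBlocks a.val x 0 b.val = (ub a x b).val := rfl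
  have h2 : (ru ((Equiv.sumCongr e e').trans finSumFinEquiv).symm (ub a x b)).val =
      D1.block (ru e.symm a).val (x.submatrix e.symm e'.symm) (ru e'.symm b).val := by
    rw [ru_val, ru_val, ru_val, ← h1]
    unfold D1.block
    ext i j
    simp only [submatrix_apply, Equiv.symm_trans_apply]
    rcases finSumFinEquiv.symm i with i | i <;> rcases finSumFinEquiv.symm j with j | j <;>
      simp
  rw [h1, ← ru_val, ff_val]
  exact cl_block _ _ _ _ h2

theorem kap_one (ι : Type) [Fintype ι] [DecidableEq ι] : kap ι (1 : Matrix ι ι A) = 0 := by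
  have h1 := kap_mul (A := A) ι 1 1
  rw [Units.val_one, mul_one] at h1
  exact (add_eq_left.1 h1.symm)

theorem kap_swap {ι ι' : Type} [Fintype ι] [DecidableEq ι] [Fintype ι'] [DecidableEq ι']
    (x : Matrix ι ι' A) (y : Matrix ι' ι A) (h : IsUnit (1 + x * y)) :
    kap ι (1 + x * y) = kap ι' (1 + y * x) := by
  obtain ⟨u, hu⟩ := h
  have h1 : (1 + x * y) * u.inv = 1 := by
    rw [← hu]
    exact u.val_inv
  have h2 : u.inv * (1 + x * y) = 1 := by
    rw [← hu]
    exact u.inv_val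
  have k1 : x * y * u.inv = 1 - u.inv := by
    rw [add_mul, one_mul] at h1
    exact eq_sub_of_add_eq' h1
  have k2 : u.inv * (x * y) = 1 - u.inv := by
    rw [mul_add, mul_one] at h2
    exact eq_sub_of_add_eq' h2
  have h3 : (1 + y * x) * (1 - y * u.inv * x) = 1 := by
    have h4 : y * x * (y * u.inv * x) = y * x - y * u.inv * x := by
      calc y * x * (y * u.inv * x) = y * (x * y * u.inv) * x := by
            simp only [Matrix.mul_assoc]
        _ = y * x - y * u.inv * x := by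
            rw [k1, Matrix.mul_sub, Matrix.mul_one, Matrix.sub_mul]
    rw [add_mul, one_mul, mul_sub, mul_one, h4]
    abel
  have h5 : (1 - y * u.inv * x) * (1 + y * x) = 1 := by
    have h4 : y * u.inv * x * (y * x) = y * x - y * u.inv * x := by
      calc y * u.inv * x * (y * x) = y * (u.inv * (x * y)) * x := by
            simp only [Matrix.mul_assoc]
        _ = y * x - y * u.inv * x := by
            rw [k2, Matrix.mul_sub, Matrix.mul_one, Matrix.sub_mul]
    rw [mul_add, mul_one, sub_mul, one_mul, h4]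
    abel
  let v : (Matrix ι' ι' A)ˣ := ⟨1 + y * x, 1 - y * u.inv * x, h3, h5⟩
  have hv : v.val = 1 + y * x := rfl
  have g1 : (lo y : (Matrix (ι ⊕ ι') (ι ⊕ ι') A)ˣ).val * (ub 1 (-x) v).val =
      (ub u (-x) 1).val * (lo y).val := by
    show fromBlocks 1 0 y 1 * fromBlocks (1 : Matrix ι ι A) (-x) 0 (1 + y * x) =
      fromBlocks u.val (-x) 0 1 * fromBlocks 1 0 y 1
    rw [fromBlocks_multiply, fromBlocks_multiply, hu]
    simp
  have g2 := congrArg (kap (ι ⊕ ι')) g1
  rw [kap_mul, kap_mul] at g2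
  have g3 : kap (ι ⊕ ι') (ub 1 (-x) v).val = kap ι' (1 + y * x) := by
    have := kap_block (1 : (Matrix ι ι A)ˣ) (-x) v
    rw [Units.val_one, kap_one, zero_add] at this
    exact this
  have g4 : kap (ι ⊕ ι') (ub u (-x) 1).val = kap ι (1 + x * y) := by
    have := kap_block u (-x) (1 : (Matrix ι' ι' A)ˣ)
    rw [Units.val_one, kap_one, add_zero, hu] at this
    rw [← this]
    show kap (ι ⊕ ι') (fromBlocks u.val (-x) 0 1) = _
    rw [hu]
  rw [g3, g4, add_comm (kap ι (1 + x * y))] at g2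
  exact (add_left_cancel g2).symm

end base

end KINM

open KINM in
theorem specKIN : SpecKIN := by
  intro A _
  refine ⟨fun ι _ M => kap ι M, ⟨?_, ?_⟩, ?_⟩
  · intro ι _ _ a b ha hb
    obtain ⟨u, rfl⟩ := ha
    obtain ⟨v, rfl⟩ := hb
    exact kap_mul ι u v
  · intro ι ι' _ _ _ _ x y h
    exact kap_swap x y h
  · intro n u
    show kap (Fin n) u.val = _
    rw [kap_eq (Fin n) u.val (Equiv.refl (Fin n))]
    exact ff_val u

end Pool.Agent.Lib.MPb6f35e.KN
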