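import Pool.Agent.Lib.MP_b6f35e_al.KN.Spec
import Pool.Agent.Lib.MP_8a3537_gt.UV.RES

/-! Module KNL (helper93): the condition for the homotopy. -/

namespace Pool.Agent.Lib.MPb6f35e.KN

open Matrix
open Pool.Agent.Lib.MP8a3537.UV (emb res lres SuppIn)
open Pool.Agent.Lib.MP8a3537.RO (Bi dc Kg cut)
open Pool.Agent.Lib.MP8a3537.ROK (TM)

namespace KNLM

variable {R G : Type} [Ring R] [Group G] (L : Subgroup G)

theorem er_vecMul {ι ι' : Type} [Fintype ι] (c : ι → MonoidAlgebra R L)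
    (M : Matrix ι ι' (MonoidAlgebra R L)) : er L (c ᵥ* M) = er L c ᵥ* em L M := by
  funext k
  show emb R L (∑ i, c i * M i k) = ∑ i, emb R L (c i) * emb R L (M i k)
  rw [map_sum]
  exact Finset.sum_congr rfl fun i _ => map_mul _ _ _

theorem er_add {ι : Type} (c d : ι → MonoidAlgebra R L) : er L (c + d) = er L c + er L d := by
  funext k
  exact map_add _ _ _

theorem rs_vecMul {ι ι' : Type} [Fintype ι] (t : G) (u : ι → MonoidAlgebra R G)
    (M : Matrix ι ι' (MonoidAlgebra R L)) : rs L t (u ᵥ* em L M) = rs L t u ᵥ* M := by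
  funext k
  show res L t (∑ i, u i * emb R L (M i k)) = ∑ i, res L t (u i) * M i k
  rw [Pool.Agent.Lib.MP8a3537.UV.RESAux.res_sum]
  exact Finset.sum_congr rfl fun i _ => Pool.Agent.Lib.MP8a3537.UV.RESAux.res_mul_emb L t _ _

theorem rs_add {ι : Type} (t : G) (u v : ι → MonoidAlgebra R G) :
    rs L t (u + v) = rs L t u + rs L t v := by
  funext k
  exact Pool.Agent.Lib.MP8a3537.UV.RESAux.res_add L t _ _

theorem mul_supp (a b : MonoidAlgebra R G) (g : G) (h : (a * b).coeff g ≠ 0) :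
    ∃ x y, a.coeff x ≠ 0 ∧ b.coeff y ≠ 0 ∧ g = x * y := by
  rw [MonoidAlgebra.coeff_mul_apply_left] at h
  obtain ⟨x, hx, h2⟩ := Finset.exists_ne_zero_of_sum_ne_zero h
  refine ⟨x, x⁻¹ * g, Finsupp.mem_support_iff.1 hx, fun h0 => h2 ?_, by group⟩
  show a.coeff x * b.coeff (x⁻¹ * g) = 0
  rw [h0, mul_zero]

end KNLM

open KNLM in
theorem specKNL (hWSJ : SpecWSJ) : SpecKNL := by
  intro R G _ _ L X Y hT ι _ _ ν hν j C μ b pi hst D rho f hf hrho i hi t
  -- the row `x = f i`
  have hfi : (Pi.single i (1 : MonoidAlgebra R L)) ᵥ* f = f i := by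
    funext k
    show ∑ m, (Pi.single i (1 : MonoidAlgebra R L) : D.I → MonoidAlgebra R L) m * f m k = f i k
    rw [Finset.sum_eq_single i]
    · rw [Pi.single_eq_same, one_mul]
    · intro m _ hm
      rw [Pi.single_eq_of_ne hm, zero_mul]
    · intro h
      exact absurd (Finset.mem_univ i) h
  have hxp : f i ᵥ* C.p = f i := by
    have := congrFun hf.fp i
    exact this
  have hx0 : ∀ k, f i k ≠ 0 → C.deg k = 0 := fun k hk => by
    rw [← hf.dg i k hk, hi]
  obtain ⟨c, hc⟩ := Submodule.Quotient.mk_surjective _ (pi (f i))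
  have hcK : c ∈ Kj L ν (j + 1) := by
    have h1 := hrho (Pi.single i 1)
    rw [hfi] at h1
    have h2 : th L ν j (pi (f i)) = 0 := by
      rw [h1]
      exact LinearMap.mem_ker.1 (rho (Pi.single i 1)).2
    rw [← hc] at h2
    exact (Submodule.Quotient.mk_eq_zero _).1 h2
  -- the element `y`
  obtain ⟨y, -, -, hye⟩ := hst.rs.ker (f i - c ᵥ* b) (by
      intro k hk
      by_contra hd
      apply hk
      have e1 : f i k = 0 := by
        by_contra h
        exact hd (hx0 k h)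
      have e2 : (c ᵥ* b) k = 0 := by
        show ∑ m, c m * b m k = 0
        refine Finset.sum_eq_zero fun m _ => ?_
        have e3 : b m k = 0 := by
          by_contra h
          exact hd (hst.dg m k h)
        rw [e3, mul_zero]
      show f i k - (c ᵥ* b) k = 0
      rw [e1, e2, sub_zero]) (by
      rw [sub_vecMul, hxp, vecMul_vecMul, hst.bp]) (by
      rw [map_sub, hst.bc, hc, sub_self])
  have hx : f i = c ᵥ* b + y ᵥ* C.e := by
    rw [hye]
    abel
  have hrow : (em L f * μ) i = (er L c ᵥ* ν) ᵥ* em L b + (er L y ᵥ* μ) ᵥ* em L C.e := by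
    have e0 : (em L f * μ) i = er L (f i) ᵥ* μ := rfl
    rw [e0, hx, er_add, er_vecMul, er_vecMul, add_vecMul, vecMul_vecMul, vecMul_vecMul,
      hst.bm, ← hst.ns.ch, vecMul_vecMul, vecMul_vecMul]
  rw [hrow, rs_add, rs_vecMul, rs_vecMul, map_add, hst.rs.zero, hst.bc, add_zero,
    Submodule.Quotient.mk_eq_zero]
  refine hWSJ R G L X Y hT ι ν hν j _ ?_ ?_ t
  · intro k g hg
    have hg' : (∑ m, emb R L (c m) * ν m k).coeff g ≠ 0 := hg
    obtain ⟨m, _, hm⟩ := Pool.Agent.Lib.MP8a3537.UV.RESAux.exists_of_coeff_sum_ne _ _ _ hg'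
    obtain ⟨l, x, hl, hx, rfl⟩ := mul_supp _ _ _ hm
    have hlL := Pool.Agent.Lib.MP8a3537.UV.RESAux.mem_of_emb_ne L _ _ hl
    have hlx : l * x ∈ X := hT.hz () () l hlL x (hν _ _ _ hx)
    have := hT.yz () () 1 (hT.one ()) (l * x) hlx
    rwa [one_mul] at this
  · rw [vecMul_vecMul, ← pow_succ']
    exact hcK

end Pool.Agent.Lib.MPb6f35e.KN
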