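import Pool.Agent.Lib.MP_b6f35e_al.KN.SpecC

/-!
# KN, module KPR: the group `K_0(S)` modulo the free modules
-/

namespace Pool.Agent.Lib.MPb6f35e.KN

namespace KPRM

/-! ### Stable isomorphism -/

section SI

variable (S : Type) [Ring S]

/-- `P` and `P'` become isomorphic after adding free modules. -/
def SI (P P' : Type) [AddCommGroup P] [Module S P] [AddCommGroup P'] [Module S P'] : Prop :=
  ∃ r s : ℕ, Nonempty ((P × (Fin r → S)) ≃ₗ[S] (P' × (Fin s → S)))

variable {S}

/-- `S^(r+t) = S^r × S^t`. -/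
noncomputable def pw (r t : ℕ) : ((Fin r → S) × (Fin t → S)) ≃ₗ[S] (Fin (r + t) → S) :=
  (LinearEquiv.sumArrowLequivProdArrow (Fin r) (Fin t) S S).symm ≪≫ₗ
    LinearEquiv.funCongrLeft S S finSumFinEquiv.symm

/-- `(P × Q) × F = (P × F) × Q`. -/
def sw (P Q F : Type) [AddCommGroup P] [Module S P] [AddCommGroup Q] [Module S Q]
    [AddCommGroup F] [Module S F] : ((P × Q) × F) ≃ₗ[S] ((P × F) × Q) where
  toFun x := ((x.1.1, x.2), x.1.2)
  invFun x := ((x.1.1, x.2), x.1.2)
  map_add' _ _ := rfl
  map_smul' _ _ := rfl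
  left_inv _ := rfl
  right_inv _ := rfl

/-- `(P × Q) × F = P × (Q × F)`. -/
def asc (P Q F : Type) [AddCommGroup P] [Module S P] [AddCommGroup Q] [Module S Q]
    [AddCommGroup F] [Module S F] : ((P × Q) × F) ≃ₗ[S] (P × (Q × F)) where
  toFun x := (x.1.1, (x.1.2, x.2))
  invFun x := ((x.1, x.2.1), x.2.2)
  map_add' _ _ := rfl
  map_smul' _ _ := rfl
  left_inv _ := rfl
  right_inv _ := rfl

/-- `(P × F) × S^r × S^t`. -/
noncomputable def ap (P : Type) [AddCommGroup P] [Module S P] (r t : ℕ) :
    (P × (Fin (r + t) → S)) ≃ₗ[S] ((P × (Fin r → S)) × (Fin t → S)) :=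
  (LinearEquiv.prodCongr (LinearEquiv.refl S P) (pw r t).symm) ≪≫ₗ (asc P _ _).symm

variable {P P' P'' Q Q' : Type} [AddCommGroup P] [Module S P] [AddCommGroup P'] [Module S P']
  [AddCommGroup P''] [Module S P''] [AddCommGroup Q] [Module S Q] [AddCommGroup Q'] [Module S Q']

theorem si_of_equiv (e : P ≃ₗ[S] P') : SI S P P' :=
  ⟨0, 0, ⟨LinearEquiv.prodCongr e (LinearEquiv.refl S _)⟩⟩

theorem si_symm (h : SI S P P') : SI S P' P := by
  obtain ⟨r, s, ⟨e⟩⟩ := h
  exact ⟨s, r, ⟨e.symm⟩⟩

theorem si_trans (h : SI S P P') (h' : SI S P' P'') : SI S P P'' := by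
  obtain ⟨r, s, ⟨e⟩⟩ := h
  obtain ⟨t, u, ⟨e'⟩⟩ := h'
  refine ⟨r + t, u + s, ⟨?_⟩⟩
  exact ap P r t ≪≫ₗ LinearEquiv.prodCongr e (LinearEquiv.refl S _) ≪≫ₗ sw P' _ _ ≪≫ₗ
    LinearEquiv.prodCongr e' (LinearEquiv.refl S _) ≪≫ₗ (ap P'' u s).symm

theorem si_left (h : SI S P P') : SI S (P × Q) (P' × Q) := by
  obtain ⟨r, s, ⟨e⟩⟩ := h
  exact ⟨r, s, ⟨sw P Q _ ≪≫ₗ LinearEquiv.prodCongr e (LinearEquiv.refl S _) ≪≫ₗ (sw P' Q _).symm⟩⟩

theorem si_prod (h : SI S P P') (h' : SI S Q Q') : SI S (P × Q) (P' × Q') := by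
  refine si_trans (si_left h) (si_trans (si_of_equiv (LinearEquiv.prodComm S P' Q)) ?_)
  exact si_trans (si_left h') (si_of_equiv (LinearEquiv.prodComm S Q' P'))

end SI

/-! ### Representatives -/

variable (S : Type) [Ring S]

/-- The finitely generated projective submodules of the modules `S^n`. -/
structure FP where
  n : ℕ
  Q : Submodule S (Fin n → S)
  fin : Module.Finite S Q
  proj : Module.Projective S Q

/-- The module of an element of `FP S`. -/
abbrev FP.M {S : Type} [Ring S] (a : FP S) : Type := ↥a.Q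

variable {S}

theorem split {P : Type} [AddCommGroup P] [Module S P] (h1 : Module.Finite S P)
    (h2 : Module.Projective S P) :
    ∃ (n : ℕ) (f : (Fin n → S) →ₗ[S] P) (g : P →ₗ[S] (Fin n → S)), ∀ x, f (g x) = x := by
  obtain ⟨n, f, hf⟩ := Module.Finite.exists_fin' S P
  obtain ⟨g, hg⟩ := Module.projective_lifting_property f LinearMap.id hf
  exact ⟨n, f, g, fun x => LinearMap.congr_fun hg x⟩

theorem exists_rep {P : Type} [AddCommGroup P] [Module S P] (h1 : Module.Finite S P)
    (h2 : Module.Projective S P) : ∃ a : FP S, Nonempty (a.M ≃ₗ[S] P) := by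
  obtain ⟨n, f, g, hfg⟩ := split h1 h2
  have hinj : Function.Injective g := fun x y h => by rw [← hfg x, ← hfg y, h]
  let e := LinearEquiv.ofInjective g hinj
  exact ⟨⟨n, LinearMap.range g, Module.Finite.equiv e, Module.Projective.of_equiv e⟩, ⟨e.symm⟩⟩

theorem exists_compl {P : Type} [AddCommGroup P] [Module S P] (h1 : Module.Finite S P)
    (h2 : Module.Projective S P) :
    ∃ (n : ℕ) (a : FP S), Nonempty ((P × a.M) ≃ₗ[S] (Fin n → S)) := by
  obtain ⟨n, f, g, hfg⟩ := split h1 h2
  let q : (Fin n → S) →ₗ[S] LinearMap.ker f :=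
    LinearMap.codRestrict (LinearMap.ker f) (LinearMap.id - g ∘ₗ f) (fun x => by
      simp [LinearMap.mem_ker, hfg])
  have hq : ∀ x : LinearMap.ker f, q x = x := by
    intro x
    apply Subtype.ext
    have hx : f x = 0 := x.2
    simp [q, hx]
  have hfin : Module.Finite S (LinearMap.ker f) :=
    Module.Finite.of_surjective q (fun x => ⟨x, hq x⟩)
  have hproj : Module.Projective S (LinearMap.ker f) :=
    Module.Projective.of_split (LinearMap.ker f).subtype q (LinearMap.ext hq)
  refine ⟨n, ⟨n, LinearMap.ker f, hfin, hproj⟩, ⟨?_⟩⟩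
  refine LinearEquiv.ofLinearMap
    (LinearMap.coprod g (LinearMap.ker f).subtype) (LinearMap.prod f q) ?_ ?_
  · ext x : 1
    simp [q]
  · refine LinearMap.ext fun x => ?_
    have hx : f x.2 = 0 := x.2.2
    refine Prod.ext ?_ (Subtype.ext ?_)
    · simp [hfg, hx]
    · simp [q, hfg, hx]

/-- A representative. -/
noncomputable def rep (P : Type) [AddCommGroup P] [Module S P] (h1 : Module.Finite S P)
    (h2 : Module.Projective S P) : FP S :=
  Classical.choose (exists_rep h1 h2)

/-- The isomorphism. -/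
noncomputable def repE (P : Type) [AddCommGroup P] [Module S P] (h1 : Module.Finite S P)
    (h2 : Module.Projective S P) : (rep P h1 h2).M ≃ₗ[S] P :=
  Classical.choice (Classical.choose_spec (exists_rep h1 h2))

/-- The sum of two elements. -/
noncomputable def FP.add (a b : FP S) : FP S :=
  haveI := a.fin
  haveI := a.proj
  haveI := b.fin
  haveI := b.proj
  rep (a.M × b.M) inferInstance inferInstance

/-- The module of the sum. -/
noncomputable def FP.addE (a b : FP S) : (a.add b).M ≃ₗ[S] (a.M × b.M) :=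
  haveI := a.fin
  haveI := a.proj
  haveI := b.fin
  haveI := b.proj
  repE (a.M × b.M) inferInstance inferInstance

/-- The zero module. -/
noncomputable def FP.zero : FP S := rep (Fin 0 → S) inferInstance inferInstance

variable (S)

/-- The stable isomorphism of the elements of `FP S`. -/
def fpSetoid : Setoid (FP S) where
  r a b := SI S a.M b.M
  iseqv := ⟨fun _ => si_of_equiv (LinearEquiv.refl S _), si_symm, si_trans⟩

/-- The group. -/
def K0 : Type := Quotient (fpSetoid S)

variable {S}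

/-- The class. -/
def mk (a : FP S) : K0 S := Quotient.mk (fpSetoid S) a

theorem mk_eq {a b : FP S} : mk a = mk b ↔ SI S a.M b.M :=
  ⟨fun h => Quotient.exact h, fun h => Quotient.sound (s := fpSetoid S) h⟩

/-- The addition. -/
noncomputable def kadd : K0 S → K0 S → K0 S :=
  Quotient.map₂ (sa := fpSetoid S) (sb := fpSetoid S) (sc := fpSetoid S) FP.add
    (fun a a' h b b' h' => show SI S (a.add b).M (a'.add b').M from
      si_trans (si_of_equiv (a.addE b))
        (si_trans (si_prod h h') (si_of_equiv (a'.addE b').symm)))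

theorem kadd_mk (a b : FP S) : kadd (mk a) (mk b) = mk (a.add b) := rfl

theorem kadd_comm (x y : K0 S) : kadd x y = kadd y x := by
  induction x using Quotient.inductionOn (s := fpSetoid S) with | _ a
  induction y using Quotient.inductionOn (s := fpSetoid S) with | _ b
  exact mk_eq.2 (si_of_equiv (a.addE b ≪≫ₗ LinearEquiv.prodComm S _ _ ≪≫ₗ (b.addE a).symm))

theorem kadd_assoc (x y z : K0 S) : kadd (kadd x y) z = kadd x (kadd y z) := by
  induction x using Quotient.inductionOn (s := fpSetoid S) with | _ a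
  induction y using Quotient.inductionOn (s := fpSetoid S) with | _ b
  induction z using Quotient.inductionOn (s := fpSetoid S) with | _ c
  exact mk_eq.2 (si_of_equiv ((a.add b).addE c ≪≫ₗ
    LinearEquiv.prodCongr (a.addE b) (LinearEquiv.refl S _) ≪≫ₗ asc _ _ _ ≪≫ₗ
    LinearEquiv.prodCongr (LinearEquiv.refl S _) (b.addE c).symm ≪≫ₗ (a.addE (b.add c)).symm))

theorem kadd_zero (x : K0 S) : kadd x (mk FP.zero) = x := by
  induction x using Quotient.inductionOn (s := fpSetoid S) with | _ a
  refine mk_eq.2 (si_of_equiv (a.addE FP.zero ≪≫ₗ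
    LinearEquiv.prodCongr (LinearEquiv.refl S _) (repE (Fin 0 → S) inferInstance inferInstance)
    ≪≫ₗ ?_))
  exact LinearEquiv.prodUnique

theorem si_free (n : ℕ) : SI S (Fin n → S) (Fin 0 → S) :=
  ⟨0, n, ⟨LinearEquiv.prodComm S _ _⟩⟩

theorem exists_neg (x : K0 S) : ∃ y, kadd y x = mk FP.zero := by
  induction x using Quotient.inductionOn (s := fpSetoid S) with | _ a
  obtain ⟨n, b, ⟨e⟩⟩ := exists_compl a.fin a.proj
  refine ⟨mk b, mk_eq.2 ?_⟩
  refine si_trans (si_of_equiv (b.addE a ≪≫ₗ LinearEquiv.prodComm S _ _ ≪≫ₗ e)) ?_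
  exact si_trans (si_free n)
    (si_of_equiv (repE (Fin 0 → S) inferInstance inferInstance).symm)

noncomputable instance : Add (K0 S) := ⟨kadd⟩

noncomputable instance : Zero (K0 S) := ⟨mk FP.zero⟩

noncomputable instance : Neg (K0 S) := ⟨fun x => Classical.choose (exists_neg x)⟩

noncomputable instance : AddCommGroup (K0 S) where
  add_assoc := kadd_assoc
  add_comm := kadd_comm
  add_zero := kadd_zero
  zero_add x := (kadd_comm _ x).trans (kadd_zero x)
  neg_add_cancel x := Classical.choose_spec (exists_neg x)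
  nsmul := nsmulRec
  zsmul := zsmulRec

theorem mk_add (a b : FP S) : mk a + mk b = mk (a.add b) := rfl

theorem zero_def : (0 : K0 S) = mk FP.zero := rfl

open Classical in
/-- The class of a module. -/
noncomputable def cl (P : Type) [AddCommGroup P] [Module S P] : K0 S :=
  if h : Module.Finite S P ∧ Module.Projective S P then mk (rep P h.1 h.2) else 0

theorem cl_eq {P : Type} [AddCommGroup P] [Module S P] (h1 : Module.Finite S P)
    (h2 : Module.Projective S P) : (cl P : K0 S) = mk (rep P h1 h2) := by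
  rw [cl, dif_pos ⟨h1, h2⟩]

end KPRM

open KPRM in
theorem specKPR : SpecKPR := by
  intro S _
  refine ⟨K0 S, inferInstance, fun P _ _ => cl P, ?_, ?_, ?_, ?_⟩
  · rintro P P' _ _ _ _ ⟨e⟩
    by_cases h : Module.Finite S P ∧ Module.Projective S P
    · have h1 := h.1
      have h2 := h.2
      have h1' : Module.Finite S P' := Module.Finite.equiv e
      have h2' : Module.Projective S P' := Module.Projective.of_equiv e
      show cl P = cl P'
      rw [cl_eq h1 h2, cl_eq h1' h2', mk_eq]
      exact si_of_equiv (repE P h1 h2 ≪≫ₗ e ≪≫ₗ (repE P' h1' h2').symm)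
    · have h' : ¬ (Module.Finite S P' ∧ Module.Projective S P') := by
        rintro ⟨h1', h2'⟩
        exact h ⟨Module.Finite.equiv e.symm, Module.Projective.of_equiv e.symm⟩
      show cl P = cl P'
      rw [cl, cl, dif_neg h, dif_neg h']
  · intro P P' _ _ _ _ h1 h2 h1' h2'
    show cl (P × P') = cl P + cl P'
    rw [cl_eq h1 h2, cl_eq h1' h2', cl_eq (P := P × P') inferInstance inferInstance, mk_add, mk_eq]
    refine si_of_equiv (repE (P × P') inferInstance inferInstance ≪≫ₗ
      LinearEquiv.prodCongr (repE P h1 h2).symm (repE P' h1' h2').symm ≪≫ₗ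
      ((rep P h1 h2).addE (rep P' h1' h2')).symm)
  · intro n
    show cl (Fin n → S) = 0
    rw [cl_eq (P := Fin n → S) inferInstance inferInstance, zero_def, mk_eq]
    refine si_trans (si_of_equiv (repE (Fin n → S) inferInstance inferInstance)) ?_
    exact si_trans (si_free n)
      (si_of_equiv (repE (Fin 0 → S) inferInstance inferInstance).symm)
  · intro P _ _ h1 h2 h
    change cl P = 0 at h
    rw [cl_eq h1 h2, zero_def, mk_eq] at h
    have h3 : SI S P (Fin 0 → S) := si_trans (si_of_equiv (repE P h1 h2).symm)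
      (si_trans h (si_of_equiv (repE (Fin 0 → S) inferInstance inferInstance)))
    obtain ⟨r, s, ⟨e⟩⟩ := h3
    exact ⟨r, s, ⟨e ≪≫ₗ LinearEquiv.uniqueProd⟩⟩

end Pool.Agent.Lib.MPb6f35e.KN
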