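import Pool.Agent.Lib.MP_b6f35e_al.KN.SpecC
import Pool.Agent.Lib.MP_8a3537_gt.UV.RES

/-!
# LA1: the quotients of the lattices (MP_b6f35e_al, folder KN)
-/

namespace Pool.Agent.Lib.MPb6f35e.KN

open Matrix
open Pool.Agent.Lib.MP8a3537.UV (emb res lres SuppIn)
open Pool.Agent.Lib.MP8a3537.UV.RESAux (lres_add lres_sum lres_emb_mul emb_coeff_not_mem)

namespace LA1M

variable {R Γ : Type} [Ring R] [Group Γ] (δ : Γ →* Multiplicative ℤ) (t : Γ)

theorem deg_zpow (ht : δ t = Multiplicative.ofAdd 1) (c : ℤ) : (δ (t ^ c)).toAdd = c := by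
  rw [map_zpow, ht, toAdd_zpow, toAdd_ofAdd, smul_eq_mul, mul_one]

theorem deg_mul (g h : Γ) : (δ (g * h)).toAdd = (δ g).toAdd + (δ h).toAdd := by
  rw [map_mul, toAdd_mul]

theorem mem_ker_iff (g : Γ) : g ∈ δ.ker ↔ (δ g).toAdd = 0 := by
  rw [MonoidHom.mem_ker]
  exact ⟨fun h => by rw [h]; rfl, fun h => Multiplicative.toAdd.injective h⟩

/-- The parts of a row in the degrees `a + k`, `k < m`. -/
noncomputable def F (ι : Type) (a : ℤ) (m : ℕ) :
    Rw R δ.ker ι →ₗ[MonoidAlgebra R δ.ker] (ι × Fin m → MonoidAlgebra R δ.ker) where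
  toFun x := fun p => lres δ.ker (t ^ (a + ((p.2 : ℕ) : ℤ))) (x p.1)
  map_add' x y := by
    funext p
    exact lres_add _ _ _ _
  map_smul' s x := by
    funext p
    exact lres_emb_mul _ _ _ _

theorem F_coeff (ι : Type) (a : ℤ) (m : ℕ) (x : Rw R δ.ker ι) (p : ι × Fin m) (h : δ.ker) :
    MonoidAlgebra.coeff (F δ t ι a m x p) h =
      MonoidAlgebra.coeff (x p.1) ((h : Γ) * t ^ (a + ((p.2 : ℕ) : ℤ))) := rfl

/-- The row with the given parts. -/
noncomputable def Sec (ι : Type) (a : ℤ) (m : ℕ) (s : ι × Fin m → MonoidAlgebra R δ.ker) :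
    Rw R δ.ker ι :=
  fun i => ∑ k : Fin m,
    emb R δ.ker (s (i, k)) * MonoidAlgebra.single (t ^ (a + ((k : ℕ) : ℤ))) 1

theorem lres_single (ht : δ t = Multiplicative.ofAdd 1) (c d : ℤ) :
    lres δ.ker (t ^ c) (MonoidAlgebra.single (t ^ d) (1 : R)) = if d = c then 1 else 0 := by
  classical
  ext h
  rw [Pool.Agent.Lib.MP8a3537.UV.lres_coeff, MonoidAlgebra.coeff_single_apply]
  by_cases hdc : d = c
  · subst hdc
    rw [if_pos rfl, MonoidAlgebra.one_def, MonoidAlgebra.coeff_single_apply]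
    refine if_congr ⟨fun hh => ?_, fun hh => ?_⟩ rfl rfl
    · exact Subtype.ext (by
        have := mul_right_cancel (a := (1 : Γ)) (b := t ^ d) (c := (h : Γ)) (by rw [one_mul]; exact hh)
        exact this)
    · rw [← hh]
      simp
  · rw [if_neg hdc, if_neg]
    · rfl
    · intro hh
      apply hdc
      have h1 := congrArg (fun g => (δ g).toAdd) hh
      simp only [deg_mul, deg_zpow δ t ht] at h1
      rw [(mem_ker_iff δ _).1 h.2, zero_add] at h1
      exact h1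

theorem Sec_mem (ht : δ t = Multiplicative.ofAdd 1) (ι : Type) (a : ℤ) (m : ℕ)
    (s : ι × Fin m → MonoidAlgebra R δ.ker) : Sec δ t ι a m s ∈ lat R δ ι a := by
  intro i g hg
  obtain ⟨k, _, hk⟩ :=
    Pool.Agent.Lib.MP8a3537.UV.RESAux.exists_of_coeff_sum_ne _ _ _ hg
  rw [MonoidAlgebra.coeff_mul_single_apply, mul_one] at hk
  have h1 := Pool.Agent.Lib.MP8a3537.UV.RESAux.mem_of_emb_ne _ _ _ hk
  rw [mem_ker_iff, deg_mul, map_inv, toAdd_inv, deg_zpow δ t ht] at h1
  omega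

theorem F_Sec (ht : δ t = Multiplicative.ofAdd 1) (ι : Type) (a : ℤ) (m : ℕ)
    (s : ι × Fin m → MonoidAlgebra R δ.ker) : F δ t ι a m (Sec δ t ι a m s) = s := by
  classical
  funext p
  show lres δ.ker (t ^ (a + ((p.2 : ℕ) : ℤ))) (∑ k : Fin m,
    emb R δ.ker (s (p.1, k)) * MonoidAlgebra.single (t ^ (a + ((k : ℕ) : ℤ))) 1) = s p
  rw [lres_sum, Finset.sum_eq_single p.2]
  · rw [lres_emb_mul, lres_single δ t ht, if_pos rfl, mul_one]
  · intro k _ hk
    rw [lres_emb_mul, lres_single δ t ht, if_neg, mul_zero]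
    intro h
    apply hk
    apply Fin.ext
    omega
  · intro h
    exact absurd (Finset.mem_univ _) h

/-- The elements without parts in the degrees between `a` and `b`. -/
theorem mem_iff (ht : δ t = Multiplicative.ofAdd 1) (ι : Type) (a b : ℤ) (m : ℕ)
    (hm : a + m = b) (x : Rw R δ.ker ι) (hx : x ∈ lat R δ ι a) :
    F δ t ι a m x = 0 ↔ x ∈ lat R δ ι b := by
  constructor
  · intro h i g hg
    by_contra hb
    have h1 := hx i g hg
    obtain ⟨k, hk⟩ : ∃ k : ℕ, (δ g).toAdd = a + k := ⟨((δ g).toAdd - a).toNat, by omega⟩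
    have hkm : k < m := by omega
    have h2 : g * (t ^ (a + (k : ℤ)))⁻¹ ∈ δ.ker := by
      rw [mem_ker_iff, deg_mul, map_inv, toAdd_inv, deg_zpow δ t ht]
      omega
    have h3 := congrArg (fun s : MonoidAlgebra R δ.ker => MonoidAlgebra.coeff s ⟨_, h2⟩)
      (congrFun h (i, ⟨k, hkm⟩))
    simp only [F_coeff] at h3
    apply hg
    rw [inv_mul_cancel_right] at h3
    exact h3
  · intro h
    funext p
    ext g
    rw [F_coeff]
    by_contra hc
    have h1 := h p.1 _ hc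
    rw [deg_mul, (mem_ker_iff δ _).1 g.2, deg_zpow δ t ht] at h1
    have h2 := p.2.2
    omega

end LA1M

open LA1M in
theorem specLA1 : SpecLA1 := by
  intro R Γ _ _ δ t ht ι _ a b hab
  classical
  obtain ⟨m, hm⟩ : ∃ m : ℕ, a + m = b := ⟨(b - a).toNat, by omega⟩
  let f : ↥(lat R δ ι a) →ₗ[MonoidAlgebra R δ.ker] (ι × Fin m → MonoidAlgebra R δ.ker) :=
    (F δ t ι a m).comp (lat R δ ι a).subtype
  have hf : Function.Surjective f := fun s =>
    ⟨⟨Sec δ t ι a m s, Sec_mem δ t ht ι a m s⟩, F_Sec δ t ht ι a m s⟩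
  have hk : (lat R δ ι b).submoduleOf (lat R δ ι a) = LinearMap.ker f := by
    ext x
    rw [LinearMap.mem_ker]
    exact (mem_iff δ t ht ι a b m hm x.1 x.2).symm
  refine ⟨Fintype.card (ι × Fin m), ⟨?_⟩⟩
  exact (Submodule.quotEquivOfEq _ _ hk).trans ((f.quotKerEquivOfSurjective hf).trans
    (LinearEquiv.funCongrLeft (MonoidAlgebra R δ.ker) (MonoidAlgebra R δ.ker)
      (Fintype.equivFin (ι × Fin m)).symm))

end Pool.Agent.Lib.MPb6f35e.KN
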