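import Pool.Agent.Lib.MP_b6f35e_al.KN.SpecC
import Pool.Agent.Lib.MP_8a3537_gt.UV.RES

/-!
# LA2: the quotients of the lattices for an invertible matrix
-/

namespace Pool.Agent.Lib.MPb6f35e.KN

open Matrix
open Pool.Agent.Lib.MP8a3537.UV (emb res lres SuppIn lres_coeff)
open Pool.Agent.Lib.MP8a3537.UV.RESAux
open Pool.Agent.Lib.MP8a3537.RO (Bi dc Kg cut cutM cut_coeff)

namespace LA2M

/-- Ranges of idempotent maps. -/
theorem idem_equiv {S M N : Type*} [Ring S] [AddCommGroup M] [Module S M] [AddCommGroup N]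
    [Module S N] (e : M →ₗ[S] M) (σ : N →ₗ[S] M) (π : M →ₗ[S] N)
    (he : ∀ x, e (e x) = e x) (h : ∀ x, e (σ (π x)) = e x) :
    Nonempty (LinearMap.range e ≃ₗ[S] LinearMap.range (π ∘ₗ e ∘ₗ σ)) := by
  refine ⟨LinearEquiv.ofLinearMap
    (LinearMap.codRestrict (LinearMap.range (π ∘ₗ e ∘ₗ σ)) (π ∘ₗ (LinearMap.range e).subtype) ?_)
    (LinearMap.codRestrict (LinearMap.range e) (e ∘ₗ σ ∘ₗ (LinearMap.range (π ∘ₗ e ∘ₗ σ)).subtype) ?_)
    ?_ ?_⟩
  · rintro ⟨y, x, rfl⟩
    refine ⟨π x, ?_⟩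
    simp only [LinearMap.comp_apply, Submodule.subtype_apply, h]
  · rintro ⟨y, x, rfl⟩
    exact ⟨_, rfl⟩
  · ext ⟨y, x, rfl⟩
    simp only [LinearMap.comp_apply, LinearMap.codRestrict_apply, Submodule.subtype_apply,
      LinearMap.id_coe, id_eq, h, he]
  · ext ⟨y, x, rfl⟩
    simp only [LinearMap.comp_apply, LinearMap.codRestrict_apply, Submodule.subtype_apply,
      LinearMap.id_coe, id_eq, h, he]

variable {R Γ : Type} [Ring R] [Group Γ]

theorem cut_add (W : Set Γ) (x y : MonoidAlgebra R Γ) : cut W (x + y) = cut W x + cut W y := by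
  ext g
  rw [cut_coeff, MonoidAlgebra.coeff_add, MonoidAlgebra.coeff_add, Finsupp.add_apply,
    Finsupp.add_apply, cut_coeff, cut_coeff]
  split_ifs <;> simp

theorem cut_emb_mul (δ : Γ →* Multiplicative ℤ) (N : ℤ) (s : MonoidAlgebra R δ.ker)
    (y : MonoidAlgebra R Γ) :
    cut {g : Γ | N ≤ (δ g).toAdd} (emb R δ.ker s * y) =
      emb R δ.ker s * cut {g : Γ | N ≤ (δ g).toAdd} y := by
  induction s using MonoidAlgebra.induction_linear with
  | zero =>
    rw [map_zero, zero_mul, zero_mul]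
    ext g
    rw [cut_coeff]
    simp
  | add a b ha hb => rw [map_add, add_mul, add_mul, cut_add, ha, hb]
  | single h r =>
    ext g
    rw [emb_single, cut_coeff, MonoidAlgebra.coeff_single_mul_apply,
      MonoidAlgebra.coeff_single_mul_apply, cut_coeff]
    have h1 : δ ((h : Γ)⁻¹ * g) = δ g := by
      have h4 : δ (h : Γ) = 1 := h.2
      rw [map_mul, map_inv, h4, inv_one, one_mul]
    simp only [Set.mem_ofPred_eq, h1]
    split_ifs
    · rfl
    · rw [mul_zero]

/-- The part in the degrees `≥ N`. -/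
noncomputable def cutL (δ : Γ →* Multiplicative ℤ) (ι : Type) (N : ℤ) :
    Rw R δ.ker ι →ₗ[MonoidAlgebra R δ.ker] Rw R δ.ker ι where
  toFun x := fun i => cut {g : Γ | N ≤ (δ g).toAdd} (x i)
  map_add' x y := by
    funext i
    exact cut_add _ _ _
  map_smul' s x := by
    funext i
    exact cut_emb_mul δ N s (x i)

theorem cutL_coeff (δ : Γ →* Multiplicative ℤ) (ι : Type) (N : ℤ) (x : Rw R δ.ker ι) (i : ι)
    (g : Γ) [Decidable (N ≤ (δ g).toAdd)] :
    MonoidAlgebra.coeff (cutL δ ι N x i) g =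
      if N ≤ (δ g).toAdd then MonoidAlgebra.coeff (x i) g else 0 := by
  classical
  show (cut {g : Γ | N ≤ (δ g).toAdd} (x i)).coeff g = _
  rw [cut_coeff]
  by_cases h : N ≤ (δ g).toAdd
  · rw [if_pos h]
    exact if_pos h
  · rw [if_neg h]
    exact if_neg h

theorem cutL_mem (δ : Γ →* Multiplicative ℤ) (ι : Type) (N : ℤ) (x : Rw R δ.ker ι) :
    cutL δ ι N x ∈ lat R δ ι N := by
  classical
  intro i g hg
  rw [cutL_coeff] at hg
  by_contra h
  rw [if_neg h] at hg
  exact hg rfl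

theorem cutL_of_mem (δ : Γ →* Multiplicative ℤ) (ι : Type) (N : ℤ) (x : Rw R δ.ker ι)
    (hx : x ∈ lat R δ ι N) : cutL δ ι N x = x := by
  classical
  funext i
  ext g
  rw [cutL_coeff]
  split_ifs with h
  · rfl
  · by_contra h1
    exact h (hx i g fun h2 => h1 h2.symm)

theorem rmul_rmul {Λ : Subgroup Γ} {ι ι' ι'' : Type} [Fintype ι] [Fintype ι']
    (M : Matrix ι ι' (MonoidAlgebra R Γ)) (M' : Matrix ι' ι'' (MonoidAlgebra R Γ))
    (x : Rw R Λ ι) : rmul R M' (rmul R M x) = rmul R (M * M') x := by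
  show (_ ᵥ* M) ᵥ* M' = _ ᵥ* (M * M')
  rw [Matrix.vecMul_vecMul]

theorem rmul_one {Λ : Subgroup Γ} {ι : Type} [Fintype ι] [DecidableEq ι]
    (x : Rw R Λ ι) : rmul R (1 : Matrix ι ι (MonoidAlgebra R Γ)) x = x :=
  Matrix.vecMul_one _

/-- The supports of the products. -/
theorem supp_mul (x y : MonoidAlgebra R Γ) (g : Γ) (h : (x * y).coeff g ≠ 0) :
    ∃ a b, x.coeff a ≠ 0 ∧ y.coeff b ≠ 0 ∧ g = a * b := by
  classical
  have h1 : g ∈ (x * y).coeff.support := Finsupp.mem_support_iff.2 h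
  have h2 := MonoidAlgebra.support_coeff_mul_subset x y h1
  obtain ⟨a, ha, b, hb, hab⟩ := Finset.mem_mul.1 h2
  exact ⟨a, b, Finsupp.mem_support_iff.1 ha, Finsupp.mem_support_iff.1 hb, hab.symm⟩

theorem rmul_supp {Λ : Subgroup Γ} {ι ι' : Type} [Fintype ι]
    (M : Matrix ι ι' (MonoidAlgebra R Γ)) (x : Rw R Λ ι) (j : ι') (g : Γ)
    (h : MonoidAlgebra.coeff (rmul R M x j) g ≠ 0) :
    ∃ i a b, MonoidAlgebra.coeff (x i) a ≠ 0 ∧ (M i j).coeff b ≠ 0 ∧ g = a * b := by
  have h1 : (∑ i, (show MonoidAlgebra R Γ from x i) * M i j).coeff g ≠ 0 := h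
  obtain ⟨i, _, hi⟩ := exists_of_coeff_sum_ne _ _ _ h1
  obtain ⟨a, b, ha, hb, hab⟩ := supp_mul _ _ _ hi
  exact ⟨i, a, b, ha, hb, hab⟩

/-- A lower bound for the degrees of the entries of a matrix. -/
theorem exists_bound (δ : Γ →* Multiplicative ℤ) {ι ι' : Type} [Fintype ι] [Fintype ι']
    (M : Matrix ι ι' (MonoidAlgebra R Γ)) :
    ∃ B : ℤ, ∀ i j g, (M i j).coeff g ≠ 0 → B ≤ (δ g).toAdd := by
  classical
  let F : Finset ℤ := Finset.univ.biUnion fun ij : ι × ι' =>
    (M ij.1 ij.2).coeff.support.image (fun g : Γ => (δ g).toAdd)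
  obtain ⟨B, hB⟩ := F.bddBelow
  refine ⟨B, fun i j g hg => hB ?_⟩
  show (δ g).toAdd ∈ F
  exact Finset.mem_biUnion.2 ⟨(i, j), Finset.mem_univ _,
    Finset.mem_image_of_mem _ (Finsupp.mem_support_iff.2 hg)⟩

/-- The value at the right coset of `τ`. -/
noncomputable def lresL (Λ : Subgroup Γ) {ι : Type} (τ : Γ) (i : ι) :
    Rw R Λ ι →ₗ[MonoidAlgebra R Λ] MonoidAlgebra R Λ where
  toFun x := lres Λ τ (x i)
  map_add' _ _ := lres_add Λ τ _ _
  map_smul' s x := lres_emb_mul Λ τ (x i) s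

/-- The basis vectors. -/
noncomputable def bv (Λ : Subgroup Γ) {ι : Type} [DecidableEq ι] (τ : Γ) (i : ι) : Rw R Λ ι :=
  fun j => if j = i then MonoidAlgebra.single τ 1 else 0

section Maps

variable (δ : Γ →* Multiplicative ℤ) (t : Γ) {ι : Type} [Fintype ι] [DecidableEq ι] (a : ℤ)
  {m n : ℕ} (w : Fin n ≃ ι × Fin m)

/-- `σ`. -/
noncomputable def sg : (Fin n → MonoidAlgebra R δ.ker) →ₗ[MonoidAlgebra R δ.ker] Rw R δ.ker ι :=
  Fintype.linearCombination (MonoidAlgebra R δ.ker)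
    fun k => bv δ.ker (t ^ (a + ((w k).2 : ℤ))) (w k).1

/-- `π`. -/
noncomputable def pr : Rw R δ.ker ι →ₗ[MonoidAlgebra R δ.ker] (Fin n → MonoidAlgebra R δ.ker) :=
  LinearMap.pi fun k => lresL δ.ker (t ^ (a + ((w k).2 : ℤ))) (w k).1

omit [Fintype ι] in
theorem sg_apply (s : Fin n → MonoidAlgebra R δ.ker) (i : ι) :
    sg δ t a w s i = ∑ k, if i = (w k).1 then
      emb R δ.ker (s k) * MonoidAlgebra.single (t ^ (a + ((w k).2 : ℤ))) 1 else 0 := by
  rw [sg, Fintype.linearCombination_apply]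
  have h1 : ∀ (f : Fin n → Rw R δ.ker ι) (i : ι), (∑ k, f k) i =
      ∑ k, (show MonoidAlgebra R Γ from f k i) := fun f i => Finset.sum_apply i _ f
  rw [h1]
  refine Finset.sum_congr rfl fun k _ => ?_
  show emb R δ.ker (s k) * (if i = (w k).1 then _ else 0) = _
  rw [mul_ite, mul_zero]

omit [Fintype ι] in
theorem sg_coeff (ht : δ t = Multiplicative.ofAdd 1) (x : Rw R δ.ker ι) (i : ι) (g : Γ) :
    MonoidAlgebra.coeff (sg δ t a w (pr δ t a w x) i) g =
      if a ≤ (δ g).toAdd ∧ (δ g).toAdd < a + m then MonoidAlgebra.coeff (x i) g else 0 := by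
  have hd : ∀ z : ℤ, δ (t ^ z) = Multiplicative.ofAdd z := by
    intro z
    rw [map_zpow, ht, ← ofAdd_zsmul, smul_eq_mul, mul_one]
  rw [sg_apply]
  have h2 : ∀ k : Fin n, MonoidAlgebra.coeff (if i = (w k).1 then
      emb R δ.ker (pr δ t a w x k) * MonoidAlgebra.single (t ^ (a + ((w k).2 : ℤ))) (1 : R) else 0) g =
      if i = (w k).1 ∧ (δ g).toAdd = a + ((w k).2 : ℤ) then MonoidAlgebra.coeff (x i) g else 0 := by
    intro k
    by_cases hi : i = (w k).1
    · rw [if_pos hi, MonoidAlgebra.coeff_mul_single_apply, mul_one]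
      by_cases hg : (δ g).toAdd = a + ((w k).2 : ℤ)
      · rw [if_pos ⟨hi, hg⟩]
        have hm : g * (t ^ (a + ((w k).2 : ℤ)))⁻¹ ∈ δ.ker := by
          rw [MonoidHom.mem_ker, map_mul, map_inv, hd, ← hg, ofAdd_toAdd, mul_inv_cancel]
        have h3 := emb_coeff_mem δ.ker (pr δ t a w x k) ⟨_, hm⟩
        rw [h3]
        show (lres δ.ker (t ^ (a + ((w k).2 : ℤ))) (x (w k).1)).coeff ⟨_, hm⟩ = _
        rw [lres_coeff, inv_mul_cancel_right, hi]
      · rw [if_neg fun h => hg h.2]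
        refine emb_coeff_not_mem δ.ker _ _ fun hm => hg ?_
        rw [MonoidHom.mem_ker, map_mul, map_inv, hd] at hm
        have h4 : δ g = Multiplicative.ofAdd (a + ((w k).2 : ℤ)) := by
          rwa [mul_inv_eq_one] at hm
        rw [h4, toAdd_ofAdd]
    · rw [if_neg hi, if_neg fun h => hi h.1]
      rfl
  have h5 : MonoidAlgebra.coeff (∑ k, if i = (w k).1 then
      emb R δ.ker (pr δ t a w x k) * MonoidAlgebra.single (t ^ (a + ((w k).2 : ℤ))) (1 : R) else 0) g =
      ∑ k : Fin n, if i = (w k).1 ∧ (δ g).toAdd = a + ((w k).2 : ℤ) then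
        MonoidAlgebra.coeff (x i) g else 0 := by
    rw [MonoidAlgebra.coeff_sum, Finsupp.finsetSum_apply]
    exact Finset.sum_congr rfl fun k _ => h2 k
  rw [h5]
  by_cases hr : a ≤ (δ g).toAdd ∧ (δ g).toAdd < a + m
  · rw [if_pos hr]
    have hlt : ((δ g).toAdd - a).toNat < m := by omega
    rw [Finset.sum_eq_single (w.symm (i, ⟨((δ g).toAdd - a).toNat, hlt⟩))]
    · rw [Equiv.apply_symm_apply, if_pos]
      refine ⟨rfl, ?_⟩
      simp only
      omega
    · intro k _ hk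
      rw [if_neg]
      rintro ⟨h6, h7⟩
      apply hk
      rw [Equiv.eq_symm_apply]
      refine Prod.ext h6.symm (Fin.ext ?_)
      simp only
      omega
    · intro h
      exact absurd (Finset.mem_univ _) h
  · rw [if_neg hr]
    refine Finset.sum_eq_zero fun k _ => ?_
    rw [if_neg]
    rintro ⟨h6, h7⟩
    apply hr
    have := (w k).2.2
    omega

end Maps

end LA2M

open LA2M in
/-- LA2. -/
theorem specLA2 : SpecLA2 := by
  intro R Γ _ _ δ t ht ι _ _ M M' hMM hMM' N a hX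
  classical
  set X : Submodule (MonoidAlgebra R δ.ker) (Rw R δ.ker ι) := (lat R δ ι N).map (rmul R M) with hXd
  -- the map `e`
  let e : Rw R δ.ker ι →ₗ[MonoidAlgebra R δ.ker] Rw R δ.ker ι :=
    LinearMap.id - (rmul R M) ∘ₗ (cutL δ ι N) ∘ₗ (rmul R M')
  have he : ∀ x, e x = x - rmul R M (cutL δ ι N (rmul R M' x)) := fun x => rfl
  have hMr : ∀ x : Rw R δ.ker ι, rmul R M' (rmul R M x) = x := by
    intro x
    rw [rmul_rmul, hMM, rmul_one]
  have hMr' : ∀ x : Rw R δ.ker ι, rmul R M (rmul R M' x) = x := by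
    intro x
    rw [rmul_rmul, hMM', rmul_one]
  have hea : ∀ x ∈ lat R δ ι a, e x ∈ lat R δ ι a := by
    intro x hx
    rw [he]
    exact Submodule.sub_mem _ hx (hX ⟨_, cutL_mem δ ι N _, rfl⟩)
  have heX : ∀ x ∈ X, e x = 0 := by
    rintro x ⟨z, hz, rfl⟩
    rw [he, hMr, cutL_of_mem δ ι N z hz, sub_self]
  have hXe : ∀ x, e x = 0 → x ∈ X := by
    intro x hx
    rw [he, sub_eq_zero] at hx
    rw [hx]
    exact ⟨_, cutL_mem δ ι N _, rfl⟩
  have hee : ∀ x, e (e x) = e x := by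
    intro x
    conv_lhs => rw [he x]
    rw [map_sub, heX (rmul R M (cutL δ ι N (rmul R M' x))) ⟨_, cutL_mem δ ι N _, rfl⟩, sub_zero]
  -- the bound
  obtain ⟨B, hB⟩ := exists_bound δ M'
  have hbig : ∀ b : ℤ, N - B ≤ b → ∀ x ∈ lat R δ ι b, e x = 0 := by
    intro b hb x hx
    have h1 : rmul R M' x ∈ lat R δ ι N := by
      intro j g hg
      obtain ⟨i, c, d, hc, hd, hcd⟩ := rmul_supp M' x j g hg
      have h2 := hx i c hc
      have h3 := hB i j d hd
      rw [hcd, map_mul, toAdd_mul]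
      omega
    rw [he, cutL_of_mem δ ι N _ h1, hMr', sub_self]
  let m : ℕ := (N - B - a).toNat
  let n : ℕ := Fintype.card (ι × Fin m)
  let w : Fin n ≃ ι × Fin m := (Fintype.equivFin (ι × Fin m)).symm
  -- maps on the lattice
  let eL : lat R δ ι a →ₗ[MonoidAlgebra R δ.ker] lat R δ ι a := e.restrict hea
  have hsg : ∀ s : Fin n → MonoidAlgebra R δ.ker, sg δ t a w s ∈ lat R δ ι a := by
    intro s i g hg
    have hd : ∀ z : ℤ, δ (t ^ z) = Multiplicative.ofAdd z := by
      intro z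
      rw [map_zpow, ht, ← ofAdd_zsmul, smul_eq_mul, mul_one]
    rw [sg_apply] at hg
    obtain ⟨k, _, hk⟩ := exists_of_coeff_sum_ne _ _ _ hg
    split_ifs at hk with hi
    · rw [MonoidAlgebra.coeff_mul_single_apply, mul_one] at hk
      have hm := mem_of_emb_ne δ.ker _ _ hk
      rw [MonoidHom.mem_ker, map_mul, map_inv, hd, mul_inv_eq_one] at hm
      rw [hm, toAdd_ofAdd]
      omega
    · exact absurd rfl hk
  let σ : (Fin n → MonoidAlgebra R δ.ker) →ₗ[MonoidAlgebra R δ.ker] lat R δ ι a :=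
    LinearMap.codRestrict _ (sg δ t a w) hsg
  let π : lat R δ ι a →ₗ[MonoidAlgebra R δ.ker] (Fin n → MonoidAlgebra R δ.ker) :=
    (pr δ t a w) ∘ₗ (lat R δ ι a).subtype
  have h1 : ∀ x, eL (eL x) = eL x := fun x => Subtype.ext (hee x.1)
  have h2 : ∀ x, eL (σ (π x)) = eL x := by
    intro x
    apply Subtype.ext
    show e (sg δ t a w (pr δ t a w x.1)) = e x.1
    rw [eq_comm, ← sub_eq_zero, ← map_sub]
    refine hbig (max a (N - B)) (le_max_right _ _) _ ?_
    intro i g hg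
    have h3 : MonoidAlgebra.coeff ((x.1 - sg δ t a w (pr δ t a w x.1)) i) g =
        MonoidAlgebra.coeff (x.1 i) g -
          MonoidAlgebra.coeff (sg δ t a w (pr δ t a w x.1) i) g := by
      show MonoidAlgebra.coeff ((x.1 i : MonoidAlgebra R Γ) -
        (sg δ t a w (pr δ t a w x.1) i : MonoidAlgebra R Γ)) g = _
      rw [MonoidAlgebra.coeff_sub]
      rfl
    rw [h3, sg_coeff δ t a w ht] at hg
    by_contra hlt
    apply hg
    by_cases h4 : a ≤ (δ g).toAdd
    · have h5 : (δ g).toAdd < a + m := by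
        have : (m : ℤ) = max (N - B - a) 0 := by
          show (((N - B - a).toNat : ℕ) : ℤ) = _
          exact Int.toNat_eq_max _
        omega
      rw [if_pos ⟨h4, h5⟩, sub_self]
    · have h6 : MonoidAlgebra.coeff (x.1 i) g = 0 := by
        by_contra h7
        exact h4 (x.2 i g h7)
      rw [if_neg fun h => h4 h.1, h6, sub_zero]
  obtain ⟨q⟩ := idem_equiv eL σ π h1 h2
  set f : (Fin n → MonoidAlgebra R δ.ker) →ₗ[MonoidAlgebra R δ.ker] (Fin n → MonoidAlgebra R δ.ker) :=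
    π ∘ₗ eL ∘ₗ σ with hf
  let E : Matrix (Fin n) (Fin n) (MonoidAlgebra R δ.ker) := LinearMap.toMatrixRight' f
  have hEf : Matrix.vecMulLinear E = f := LinearMap.toMatrixRight'.left_inv f
  refine ⟨n, E, ?_, ?_, ?_⟩
  · have h7 : f ∘ₗ f = f := by
      refine LinearMap.ext fun s => ?_
      show π (eL (σ (π (eL (σ s))))) = π (eL (σ s))
      rw [h2, h1]
    show LinearMap.toMatrixRight' f * LinearMap.toMatrixRight' f = LinearMap.toMatrixRight' f
    rw [← LinearMap.toMatrixRight'_comp, h7]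
  · rw [hEf]
    have hk : X.submoduleOf (lat R δ ι a) = LinearMap.ker eL := by
      ext x
      rw [LinearMap.mem_ker]
      constructor
      · intro hx
        exact Subtype.ext (heX x.1 hx)
      · intro hx
        exact hXe x.1 (congrArg Subtype.val hx)
    exact ⟨(Submodule.quotEquivOfEq _ _ hk).trans (eL.quotKerEquivRange.trans q)⟩
  · intro Γ0 ht0 hM0 hM0' i j h hh
    have h8 : E i j = pr δ t a w (e (sg δ t a w (Pi.single i 1))) j := rfl
    rw [h8] at hh
    have h9 : MonoidAlgebra.coeff (e (sg δ t a w (Pi.single i 1)) (w j).1)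
        ((h : Γ) * t ^ (a + ((w j).2 : ℤ))) ≠ 0 := hh
    have h10 : ∀ (i' : ι) (g : Γ), MonoidAlgebra.coeff (sg δ t a w
        (Pi.single i 1 : Fin n → MonoidAlgebra R δ.ker) i') g ≠ 0 → g ∈ Γ0 := by
      intro i' g hg
      rw [sg_apply] at hg
      obtain ⟨k, _, hk⟩ := exists_of_coeff_sum_ne _ _ _ hg
      split_ifs at hk with hi
      · by_cases hki : k = i
        · subst hki
          rw [Pi.single_eq_same, map_one, one_mul, MonoidAlgebra.coeff_single] at hk
          have : g = t ^ (a + ((w k).2 : ℤ)) := by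
            by_contra hne
            exact hk (Finsupp.single_eq_of_ne (fun h => hne h))
          rw [this]
          exact Γ0.zpow_mem ht0 _
        · rw [Pi.single_eq_of_ne hki, map_zero, zero_mul] at hk
          exact absurd rfl hk
      · exact absurd rfl hk
    have h11 : ∀ (y : Rw R δ.ker ι), (∀ i' g, MonoidAlgebra.coeff (y i') g ≠ 0 → g ∈ Γ0) →
        ∀ i' g, MonoidAlgebra.coeff (e y i') g ≠ 0 → g ∈ Γ0 := by
      intro y hy i' g hg
      have h12 : MonoidAlgebra.coeff (e y i') g = MonoidAlgebra.coeff (y i') g -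
          MonoidAlgebra.coeff (rmul R M (cutL δ ι N (rmul R M' y)) i') g := by
        show MonoidAlgebra.coeff ((y i' : MonoidAlgebra R Γ) -
          (rmul R M (cutL δ ι N (rmul R M' y)) i' : MonoidAlgebra R Γ)) g = _
        rw [MonoidAlgebra.coeff_sub]
        rfl
      by_cases h13 : MonoidAlgebra.coeff (y i') g = 0
      · rw [h12, h13, zero_sub, neg_ne_zero] at hg
        obtain ⟨i1, c, d, hc, hd, hcd⟩ := rmul_supp M _ i' g hg
        rw [cutL_coeff] at hc
        have hc' : MonoidAlgebra.coeff (rmul R M' y i1) c ≠ 0 := by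
          intro h0
          apply hc
          rw [h0]
          split_ifs <;> rfl
        obtain ⟨i2, c2, d2, hc2, hd2, hcd2⟩ := rmul_supp M' y i1 c hc'
        rw [hcd, hcd2]
        exact Γ0.mul_mem (Γ0.mul_mem (hy _ _ hc2) (hM0' _ _ _ hd2)) (hM0 _ _ _ hd)
      · exact hy i' g h13
    have h14 := h11 _ h10 _ _ h9
    have h15 := Γ0.mul_mem h14 (Γ0.inv_mem (Γ0.zpow_mem ht0 (a + ((w j).2 : ℤ))))
    rwa [mul_inv_cancel_right] at h15

/-- LA2, second name. -/
theorem la2 : SpecLA2 := specLA2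

end Pool.Agent.Lib.MPb6f35e.KN
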