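import Pool.Agent.Lib.MP_b6f35e_al.KN.Spec

/-!
# KN, module LFK: lifting a map to a chain map
-/

namespace Pool.Agent.Lib.MPb6f35e.KN

open Matrix

namespace LFKM

variable {S : Type} [Ring S]

theorem row_congr {I J K : Type} [Fintype J] (M : Matrix I J S) (g f : Matrix J K S) (i : I)
    (h : ∀ k, M i k ≠ 0 → g k = f k) : (M * g) i = (M * f) i := by
  funext j
  rw [Matrix.mul_apply, Matrix.mul_apply]
  apply Finset.sum_congr rfl
  intro k _
  by_cases hk : M i k = 0
  · rw [hk, zero_mul, zero_mul]
  · rw [h k hk]

theorem mul_row {I J K : Type} [Fintype J] (M : Matrix I J S) (g : Matrix J K S) (i : I) :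
    (M * g) i = M i ᵥ* g := rfl

theorem map_vm {J K N : Type} [Fintype J] [AddCommGroup N] [Module S N]
    (pi : (K → S) →ₗ[S] N) (x : J → S) (g : Matrix J K S) :
    pi (x ᵥ* g) = ∑ k, x k • pi (g k) := by
  rw [Matrix.vecMul_eq_sum, map_sum]
  apply Finset.sum_congr rfl
  intro k _
  rw [← map_smul]

theorem map_single {J N : Type} [Fintype J] [DecidableEq J] [AddCommGroup N] [Module S N]
    (rho : (J → S) →ₗ[S] N) (x : J → S) :
    rho x = ∑ k, x k • rho (Pi.single k 1) := by
  have hx : x = ∑ k, x k • (Pi.single k 1 : J → S) := by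
    funext j
    rw [Finset.sum_apply, Finset.sum_eq_single j]
    · simp
    · intro k _ hk
      simp [Pi.single_apply, hk.symm]
    · intro h
      exact absurd (Finset.mem_univ j) h
  conv_lhs => rw [hx]
  rw [map_sum]
  apply Finset.sum_congr rfl
  intro k _
  rw [map_smul]

/-- The statement of the induction. -/
def PP (C D : PC S) {N : Type} [AddCommGroup N] [Module S N]
    (pi : (C.I → S) →ₗ[S] N) (rho : (D.I → S) →ₗ[S] N) (m : ℕ) : Prop :=
  ∃ f : Matrix D.I C.I S, (∀ i j, f i j ≠ 0 → D.deg i = C.deg j) ∧ D.p * f = f ∧ f * C.p = f ∧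
    (∀ i, D.deg i < m → (D.e * f) i = (f * C.e) i) ∧
    (∀ i, D.deg i = 0 → 0 < m → pi (f i) = rho (Pi.single i 1))

/-- The choice of the new rows. -/
theorem choice (C D : PC S) {N : Type} [AddCommGroup N] [Module S N]
    (pi : (C.I → S) →ₗ[S] N) (rho : (D.I → S) →ₗ[S] N) (hC : Rs C pi)
    (he : ∀ x, rho (x ᵥ* D.e) = 0) (m : ℕ) (f : Matrix D.I C.I S)
    (dg : ∀ i j, f i j ≠ 0 → D.deg i = C.deg j) (fp : f * C.p = f)
    (ef : ∀ i, D.deg i < m → (D.e * f) i = (f * C.e) i)
    (h0 : ∀ i, D.deg i = 0 → 0 < m → pi (f i) = rho (Pi.single i 1))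
    (i : D.I) (hi : D.deg i = m) :
    ∃ c : C.I → S, (∀ j, c j ≠ 0 → C.deg j = m) ∧ c ᵥ* C.p = c ∧
      (m = 0 → pi c = rho (Pi.single i 1)) ∧ (1 ≤ m → c ᵥ* C.e = (D.e * f) i) := by
  rcases Nat.eq_zero_or_pos m with hm | hm
  · -- degree zero
    subst hm
    obtain ⟨x, hx⟩ := hC.surj (rho (Pi.single i 1))
    let x0 : C.I → S := fun j => if C.deg j = 0 then x j else 0
    have hx0 : pi x0 = pi x := by
      have h1 : pi (x - x0) = 0 := by
        apply hC.low
        intro j hj
        show x j - x0 j = 0
        simp [x0, hj]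
      rw [map_sub] at h1
      exact (sub_eq_zero.1 h1).symm
    refine ⟨x0 ᵥ* C.p, ?_, ?_, ?_, ?_⟩
    · intro j hj
      have : ∃ l, x0 l * C.p l j ≠ 0 := by
        by_contra hcon
        push Not at hcon
        apply hj
        show ∑ l, x0 l * C.p l j = 0
        exact Finset.sum_eq_zero fun l _ => hcon l
      obtain ⟨l, hl⟩ := this
      have h1 : x0 l ≠ 0 := fun h => hl (by rw [h, zero_mul])
      have h2 : C.p l j ≠ 0 := fun h => hl (by rw [h, mul_zero])
      have h3 : C.deg l = 0 := by
        by_contra hcon
        apply h1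
        simp [x0, hcon]
      rw [← C.hp l j h2, h3]
    · rw [Matrix.vecMul_vecMul, C.pp]
    · intro _
      rw [hC.pip, hx0, hx]
    · intro h
      exact absurd h (by norm_num)
  · -- positive degree
    set x : C.I → S := (D.e * f) i with hxdef
    have xdeg : ∀ j, x j ≠ 0 → C.deg j = m - 1 := by
      intro j hj
      have : ∃ l, D.e i l * f l j ≠ 0 := by
        by_contra hcon
        push Not at hcon
        apply hj
        show ∑ l, D.e i l * f l j = 0
        exact Finset.sum_eq_zero fun l _ => hcon l
      obtain ⟨l, hl⟩ := this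
      have h1 : D.e i l ≠ 0 := fun h => hl (by rw [h, zero_mul])
      have h2 : f l j ≠ 0 := fun h => hl (by rw [h, mul_zero])
      have h3 := D.he i l h1
      have h4 := dg l j h2
      omega
    have xp : x ᵥ* C.p = x := by
      rw [hxdef, ← mul_row, Matrix.mul_assoc, fp]
    rcases Nat.eq_or_lt_of_le (show 1 ≤ m from hm) with h1 | h1
    · -- `m = 1`
      subst h1
      have hpx : pi x = 0 := by
        rw [hxdef, mul_row, map_vm]
        have h2 : rho (D.e i) = 0 := by
          have := he (Pi.single i 1)
          rwa [Matrix.single_one_vecMul] at this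
        rw [map_single] at h2
        rw [← h2]
        apply Finset.sum_congr rfl
        intro k _
        by_cases hk : D.e i k = 0
        · rw [hk, zero_smul, zero_smul]
        · have := D.he i k hk
          rw [h0 k (by omega) (by norm_num)]
      obtain ⟨y, y1, y2, y3⟩ := hC.ker x (fun j hj => by simpa using xdeg j hj) xp hpx
      refine ⟨y, y1, y2, ?_, fun _ => y3⟩
      intro h
      exact absurd h (by norm_num)
    · -- `m ≥ 2`
      have hxe : x ᵥ* C.e = 0 := by
        have h2 : x ᵥ* C.e = (D.e * (f * C.e)) i := by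
          rw [hxdef, ← mul_row, Matrix.mul_assoc]
        have h3 : (D.e * (f * C.e)) i = (D.e * (D.e * f)) i := by
          apply row_congr
          intro k hk
          have := D.he i k hk
          exact (ef k (by omega)).symm
        rw [h2, h3, ← Matrix.mul_assoc, D.ee, Matrix.zero_mul]
        rfl
      obtain ⟨y, y1, y2, y3⟩ := hC.ex (m - 1) (by omega) x xdeg xp hxe
      refine ⟨y, ?_, y2, ?_, fun _ => y3⟩
      · intro j hj
        have := y1 j hj
        omega
      · intro h
        omega

/-- The induction step. -/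
theorem step (C D : PC S) {N : Type} [AddCommGroup N] [Module S N]
    (pi : (C.I → S) →ₗ[S] N) (rho : (D.I → S) →ₗ[S] N) (hC : Rs C pi)
    (hpp : ∀ x, rho (x ᵥ* D.p) = rho x)
    (he : ∀ x, rho (x ᵥ* D.e) = 0) (m : ℕ) (h : PP C D pi rho m) : PP C D pi rho (m + 1) := by
  obtain ⟨f, dg, pf, fp, ef, h0⟩ := h
  have hch := choice C D pi rho hC he m f dg fp ef h0
  have hch' : ∀ i, ∃ c : C.I → S, (D.deg i = m → (∀ j, c j ≠ 0 → C.deg j = m) ∧ c ᵥ* C.p = c ∧
      (m = 0 → pi c = rho (Pi.single i 1)) ∧ (1 ≤ m → c ᵥ* C.e = (D.e * f) i)) ∧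
      (D.deg i ≠ m → c = 0) := by
    intro i
    by_cases hi : D.deg i = m
    · obtain ⟨c, hc⟩ := hch i hi
      exact ⟨c, fun _ => hc, fun h => absurd hi h⟩
    · exact ⟨0, fun h => absurd h hi, fun _ => rfl⟩
  choose c hc hc0 using hch'
  let c' : Matrix D.I C.I S := c
  let g : Matrix D.I C.I S := fun i => if D.deg i = m then (D.p * c') i else f i
  have g1 : ∀ i, D.deg i = m → g i = (D.p * c') i := fun i hi => if_pos hi
  have g2 : ∀ i, D.deg i ≠ m → g i = f i := fun i hi => if_neg hi
  have cdeg : ∀ k j, c' k j ≠ 0 → D.deg k = m ∧ C.deg j = m := by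
    intro k j hkj
    by_cases hk : D.deg k = m
    · exact ⟨hk, (hc k hk).1 j hkj⟩
    · exact absurd (congrFun (hc0 k hk) j) hkj
  have cp : c' * C.p = c' := by
    apply Matrix.ext
    intro k j
    by_cases hk : D.deg k = m
    · exact congrFun (hc k hk).2.1 j
    · have h1 : c' k = 0 := hc0 k hk
      show (c' k ᵥ* C.p) j = c' k j
      rw [h1, Matrix.zero_vecMul]
  refine ⟨g, ?_, ?_, ?_, ?_, ?_⟩
  · intro i j hij
    by_cases hi : D.deg i = m
    · rw [g1 i hi] at hij
      have : ∃ l, D.p i l * c' l j ≠ 0 := by
        by_contra hcon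
        push Not at hcon
        apply hij
        show ∑ l, D.p i l * c' l j = 0
        exact Finset.sum_eq_zero fun l _ => hcon l
      obtain ⟨l, hl⟩ := this
      have h2 : c' l j ≠ 0 := fun h => hl (by rw [h, mul_zero])
      rw [hi, (cdeg l j h2).2]
    · rw [g2 i hi] at hij
      exact dg i j hij
  · apply funext
    intro i
    by_cases hi : D.deg i = m
    · rw [g1 i hi]
      have h1 : (D.p * g) i = (D.p * (D.p * c')) i := by
        apply row_congr
        intro k hk
        exact g1 k (by rw [← D.hp i k hk, hi])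
      rw [h1, ← Matrix.mul_assoc, D.pp]
    · rw [g2 i hi]
      have h1 : (D.p * g) i = (D.p * f) i := by
        apply row_congr
        intro k hk
        exact g2 k (by rw [← D.hp i k hk]; exact hi)
      rw [h1, pf]
  · apply funext
    intro i
    rw [mul_row]
    by_cases hi : D.deg i = m
    · rw [g1 i hi, ← mul_row, Matrix.mul_assoc, cp]
    · rw [g2 i hi, ← mul_row, fp]
  · intro i hi
    rw [mul_row g]
    by_cases him : D.deg i = m
    · have h1 : (D.e * g) i = (D.e * f) i := by
        apply row_congr
        intro k hk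
        have := D.he i k hk
        exact g2 k (by omega)
      rw [h1, g1 i him, ← mul_row, Matrix.mul_assoc]
      rcases Nat.eq_zero_or_pos m with hm | hm
      · -- both sides are zero
        have h2 : (D.e * f) i = 0 := by
          funext j
          show ∑ l, D.e i l * f l j = 0
          apply Finset.sum_eq_zero
          intro l _
          by_cases hl : D.e i l = 0
          · rw [hl, zero_mul]
          · have := D.he i l hl
            omega
        have h3 : (c' * C.e) = 0 := by
          apply Matrix.ext
          intro k j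
          show ∑ l, c' k l * C.e l j = 0
          apply Finset.sum_eq_zero
          intro l _
          by_cases hl : c' k l = 0
          · rw [hl, zero_mul]
          · by_cases hl2 : C.e l j = 0
            · rw [hl2, mul_zero]
            · have h4 := C.he l j hl2
              have h5 := (cdeg k l hl).2
              omega
        rw [h2, h3, Matrix.mul_zero]
        rfl
      · have h2 : (D.p * (c' * C.e)) i = (D.p * (D.e * f)) i := by
          apply row_congr
          intro k hk
          exact (hc k (by rw [← D.hp i k hk, him])).2.2.2 hm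
        rw [h2, ← Matrix.mul_assoc, D.pe]
    · have hlt : D.deg i < m := by omega
      have h1 : (D.e * g) i = (D.e * f) i := by
        apply row_congr
        intro k hk
        have := D.he i k hk
        exact g2 k (by omega)
      rw [h1, g2 i him, ← mul_row]
      exact ef i hlt
  · intro i hi _
    by_cases him : D.deg i = m
    · have hm : m = 0 := by omega
      rw [g1 i him, mul_row, map_vm]
      have h2 : rho (D.p i) = rho (Pi.single i 1) := by
        have := hpp (Pi.single i 1)
        rwa [Matrix.single_one_vecMul] at this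
      rw [← h2, map_single rho (D.p i)]
      apply Finset.sum_congr rfl
      intro k _
      by_cases hk : D.p i k = 0
      · rw [hk, zero_smul, zero_smul]
      · have h3 : D.deg k = m := by rw [← D.hp i k hk, him]
        rw [← (hc k h3).2.2.1 hm]
    · rw [g2 i him]
      exact h0 i hi (by omega)

end LFKM

open LFKM in
theorem specLFK : SpecLFK := by
  intro S _ C D N _ _ pi rho hC hlow hpp he
  have hall : ∀ m, PP C D pi rho m := by
    intro m
    induction m with
    | zero =>
      refine ⟨0, ?_, ?_, ?_, ?_, ?_⟩
      · intro i j h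
        exact absurd rfl h
      · rw [Matrix.mul_zero]
      · rw [Matrix.zero_mul]
      · intro i hi
        exact absurd hi (Nat.not_lt_zero _)
      · intro i _ h
        exact absurd h (lt_irrefl 0)
    | succ m ih => exact step C D pi rho hC hpp he m ih
  obtain ⟨f, dg, pf, fp, ef, h0⟩ := hall (Finset.univ.sup D.deg + 1)
  have hdeg : ∀ i, D.deg i < Finset.univ.sup D.deg + 1 := fun i =>
    Nat.lt_succ_of_le (Finset.le_sup (f := D.deg) (Finset.mem_univ i))
  refine ⟨f, ⟨dg, pf, fp, ?_⟩, ?_⟩
  · apply funext
    intro i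
    exact ef i (hdeg i)
  · intro x
    rw [map_vm, map_single rho x]
    apply Finset.sum_congr rfl
    intro i _
    by_cases hi : D.deg i = 0
    · rw [h0 i hi (Nat.succ_pos _)]
    · have h1 : pi (f i) = 0 := by
        apply hC.low
        intro j hj
        by_contra hcon
        exact hi ((dg i j hcon).trans hj)
      have h2 : rho (Pi.single i 1) = 0 := by
        apply hlow
        intro j hj
        rw [Pi.single_apply, if_neg]
        intro hji
        rw [hji] at hj
        exact hi hj
      rw [h1, h2]

end Pool.Agent.Lib.MPb6f35e.KN
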