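import Pool.Agent.Lib.MP_b6f35e_al.KN.SpecC

/-! Module PSB: `PrK` for a subgroup. -/

set_option linter.all false

namespace Pool.Agent.Lib.MPb6f35e.KN

open Matrix
open Pool.Agent.Lib.MP8a3537.UV (SuppIn)

namespace PSBM

variable {R A B : Type} [Ring R] [Group A] [Group B]

/-- The ring homomorphism of group rings. -/
noncomputable abbrev mp (R : Type) [Ring R] (f : A →* B) : MonoidAlgebra R A →+* MonoidAlgebra R B :=
  MonoidAlgebra.mapDomainRingHom R f

theorem mp_single (f : A →* B) (a : A) (r : R) :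
    mp R f (MonoidAlgebra.single a r) = MonoidAlgebra.single (f a) r := by
  simp [mp]

theorem mp_coeff (f : A →* B) (hf : Function.Injective f) (s : MonoidAlgebra R A) (a : A) :
    (mp R f s).coeff (f a) = s.coeff a := by
  change (Finsupp.mapDomain f s.coeff) (f a) = s.coeff a
  exact Finsupp.mapDomain_apply hf _ _

theorem mp_ne (f : A →* B) (s : MonoidAlgebra R A) (b : B) (h : (mp R f s).coeff b ≠ 0) :
    ∃ a, s.coeff a ≠ 0 ∧ f a = b := by
  classical
  have h1 : (mp R f s).coeff = Finsupp.mapDomain f s.coeff := rfl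
  rw [h1] at h
  have h2 := Finsupp.mapDomain_support (Finsupp.mem_support_iff.2 h)
  obtain ⟨a, ha, e⟩ := Finset.mem_image.1 h2
  exact ⟨a, Finsupp.mem_support_iff.1 ha, e⟩

/-- The restriction. -/
noncomputable def rst (f : A →* B) (hf : Function.Injective f) (y : MonoidAlgebra R B) :
    MonoidAlgebra R A := .ofCoeff (y.coeff.comapDomain f hf.injOn)

theorem rst_coeff (f : A →* B) (hf : Function.Injective f) (y : MonoidAlgebra R B) (a : A) :
    (rst f hf y).coeff a = y.coeff (f a) := rfl

theorem rst_add (f : A →* B) (hf : Function.Injective f) (y z : MonoidAlgebra R B) :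
    rst f hf (y + z) = rst f hf y + rst f hf z := by
  ext a
  simp [rst_coeff]

theorem rst_zero (f : A →* B) (hf : Function.Injective f) :
    rst f hf (0 : MonoidAlgebra R B) = 0 := by
  ext a
  simp [rst_coeff]

theorem rst_sum {ι : Type} (s : Finset ι) (f : A →* B) (hf : Function.Injective f)
    (g : ι → MonoidAlgebra R B) : rst f hf (∑ i ∈ s, g i) = ∑ i ∈ s, rst f hf (g i) := by
  classical
  induction s using Finset.induction_on with
  | empty => simp [rst_zero]
  | insert a s ha ih => rw [Finset.sum_insert ha, Finset.sum_insert ha, rst_add, ih]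

theorem rst_mp (f : A →* B) (hf : Function.Injective f) (s : MonoidAlgebra R A) :
    rst f hf (mp R f s) = s := by
  ext a
  rw [rst_coeff, mp_coeff f hf]

theorem mp_rst (f : A →* B) (hf : Function.Injective f) (y : MonoidAlgebra R B)
    (h : ∀ b, y.coeff b ≠ 0 → ∃ a, f a = b) : mp R f (rst f hf y) = y := by
  ext b
  by_cases hb : ∃ a, f a = b
  · obtain ⟨a, rfl⟩ := hb
    rw [mp_coeff f hf, rst_coeff]
  · have h1 : y.coeff b = 0 := by
      by_contra h2
      exact hb (h b h2)
    rw [h1]
    by_contra h2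
    obtain ⟨a, -, e⟩ := mp_ne f _ b h2
    exact hb ⟨a, e⟩

theorem rst_mp_mul (f : A →* B) (hf : Function.Injective f) (s : MonoidAlgebra R A)
    (y : MonoidAlgebra R B) : rst f hf (mp R f s * y) = s * rst f hf y := by
  induction s using MonoidAlgebra.induction_linear with
  | zero => rw [map_zero, zero_mul, zero_mul, rst_zero]
  | add a b ha hb => rw [map_add, add_mul, add_mul, rst_add, ha, hb]
  | single a r =>
    ext c
    rw [mp_single, rst_coeff, MonoidAlgebra.coeff_single_mul_apply,
      MonoidAlgebra.coeff_single_mul_apply, rst_coeff, map_mul f, map_inv f]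

theorem rst_mul_mp (f : A →* B) (hf : Function.Injective f) (s : MonoidAlgebra R A)
    (y : MonoidAlgebra R B) : rst f hf (y * mp R f s) = rst f hf y * s := by
  induction s using MonoidAlgebra.induction_linear with
  | zero => rw [map_zero, mul_zero, mul_zero, rst_zero]
  | add a b ha hb => rw [map_add, mul_add, mul_add, rst_add, ha, hb]
  | single a r =>
    ext c
    rw [mp_single, rst_coeff, MonoidAlgebra.coeff_mul_single_apply,
      MonoidAlgebra.coeff_mul_single_apply, rst_coeff, map_mul f, map_inv f]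

theorem rst_one (f : A →* B) (hf : Function.Injective f) :
    rst f hf (1 : MonoidAlgebra R B) = 1 := by
  have := rst_mp f hf (1 : MonoidAlgebra R A)
  rwa [map_one] at this

theorem map_rst_one {ι : Type} [DecidableEq ι] (f : A →* B) (hf : Function.Injective f) :
    (1 : Matrix ι ι (MonoidAlgebra R B)).map (rst f hf) = 1 := by
  ext1 i j
  rw [Matrix.map_apply]
  rcases eq_or_ne i j with rfl | hij
  · rw [Matrix.one_apply_eq, Matrix.one_apply_eq, rst_one]
  · rw [Matrix.one_apply_ne hij, Matrix.one_apply_ne hij, rst_zero]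

theorem map_mp_mul {ι κ l : Type} [Fintype κ] (f : A →* B) (hf : Function.Injective f)
    (M : Matrix ι κ (MonoidAlgebra R A)) (N : Matrix κ l (MonoidAlgebra R B)) :
    (M.map (mp R f) * N).map (rst f hf) = M * N.map (rst f hf) := by
  ext1 i j
  rw [Matrix.map_apply, Matrix.mul_apply, Matrix.mul_apply, rst_sum]
  refine Finset.sum_congr rfl fun k _ => ?_
  rw [Matrix.map_apply, Matrix.map_apply, rst_mp_mul]

theorem map_mul_mp {ι κ l : Type} [Fintype κ] (f : A →* B) (hf : Function.Injective f)
    (M : Matrix κ l (MonoidAlgebra R A)) (N : Matrix ι κ (MonoidAlgebra R B)) :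
    (N * M.map (mp R f)).map (rst f hf) = N.map (rst f hf) * M := by
  ext1 i j
  rw [Matrix.map_apply, Matrix.mul_apply, Matrix.mul_apply, rst_sum]
  refine Finset.sum_congr rfl fun k _ => ?_
  rw [Matrix.map_apply, Matrix.map_apply, rst_mul_mp]

/-- A unit with support in the range comes from a unit. -/
theorem unit_lift {ι : Type} [Fintype ι] [DecidableEq ι] (f : A →* B) (hf : Function.Injective f)
    (M : Matrix ι ι (MonoidAlgebra R B)) (hM : IsUnit M)
    (h : ∀ i j b, (M i j).coeff b ≠ 0 → ∃ a, f a = b) :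
    IsUnit (M.map (rst f hf)) ∧ (M.map (rst f hf)).map (mp R f) = M := by
  have e : (M.map (rst f hf)).map (mp R f) = M := by
    ext1 i j
    rw [Matrix.map_apply, Matrix.map_apply]
    exact mp_rst f hf _ fun b hb => h i j b hb
  refine ⟨?_, e⟩
  obtain ⟨u, rfl⟩ := hM
  have h1 : u.val * u.inv = 1 := u.val_inv
  have h2 : u.inv * u.val = 1 := u.inv_val
  refine ⟨⟨u.val.map (rst f hf), u.inv.map (rst f hf), ?_, ?_⟩, rfl⟩
  · rw [← map_mp_mul, e, h1, map_rst_one]
  · rw [← map_mul_mp, e, h2, map_rst_one]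

theorem isUnit_map {ι : Type} [Fintype ι] [DecidableEq ι] (f : A →* B)
    {M : Matrix ι ι (MonoidAlgebra R A)} (hM : IsUnit M) : IsUnit (M.map (mp R f)) := by
  obtain ⟨u, rfl⟩ := hM
  have h1 : u.val * u.inv = 1 := u.val_inv
  have h2 : u.inv * u.val = 1 := u.inv_val
  refine ⟨⟨u.val.map (mp R f), u.inv.map (mp R f), ?_, ?_⟩, rfl⟩
  · rw [← Matrix.map_mul, h1, Matrix.map_one _ (map_zero _) (map_one _)]
  · rw [← Matrix.map_mul, h2, Matrix.map_one _ (map_zero _) (map_one _)]

theorem map_one_add {ι κ : Type} [Fintype ι] [DecidableEq ι] [Fintype κ] (f : A →* B)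
    (x : Matrix ι κ (MonoidAlgebra R A)) (y : Matrix κ ι (MonoidAlgebra R A)) :
    (1 + x * y).map (mp R f) = 1 + x.map (mp R f) * y.map (mp R f) := by
  rw [Matrix.map_add _ (map_add _), Matrix.map_one _ (map_zero _) (map_one _), Matrix.map_mul]

theorem kf_map {K : Type} [AddCommGroup K] (f : A →* B)
    {κ : ∀ (ι : Type) [Fintype ι], Matrix ι ι (MonoidAlgebra R B) → K} (hκ : KF κ) :
    KF (fun (ι : Type) [Fintype ι] (M : Matrix ι ι (MonoidAlgebra R A)) =>
      κ ι (M.map (mp R f))) where
  mul := by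
    intro ι _ _ a b ha hb
    show κ ι ((a * b).map (mp R f)) = _
    rw [Matrix.map_mul]
    exact hκ.mul ι _ _ (isUnit_map f ha) (isUnit_map f hb)
  swap := by
    intro ι ι' _ _ _ _ x y h
    show κ ι ((1 + x * y).map (mp R f)) = κ ι' ((1 + y * x).map (mp R f))
    rw [map_one_add, map_one_add]
    apply hκ.swap
    rw [← map_one_add]
    exact isUnit_map f h

/-- The inclusion. -/
def inc {G : Type} [Group G] (P : Subgroup G) (m : ℕ) : P × Zm m →* G × Zm m :=
  P.subtype.prodMap (MonoidHom.id _)

theorem inc_inj {G : Type} [Group G] (P : Subgroup G) (m : ℕ) : Function.Injective (inc P m) := by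
  rintro ⟨a, z⟩ ⟨b, w⟩ h
  have h1 : (a : G) = b := congrArg Prod.fst h
  have h2 : z = w := congrArg Prod.snd h
  rw [Subtype.ext h1, h2]

end PSBM

open PSBM in
theorem specPSB : SpecPSB := by
  intro R G _ _ P hP m K _ κ hκ N h1 h2 ι _ _ M hM hs
  have hinj := inc_inj P m
  obtain ⟨hu, e⟩ := unit_lift (inc P m) hinj M hM (by
    intro i j b hb
    have := hs i j b hb
    exact ⟨(⟨b.1, this⟩, b.2), rfl⟩)
  have key := hP m K _ (kf_map (inc P m) hκ) N ?_ ?_ ι _ hu
  · rw [← e]
    exact key
  · intro ι _ _ M hM hs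
    apply h1 ι _ (isUnit_map _ hM)
    intro i j g hg
    rw [Matrix.map_apply] at hg
    obtain ⟨a, ha, e⟩ := mp_ne _ _ _ hg
    have h3 := hs i j a ha
    have h4 : a.1 = 1 := h3
    show g.1 = 1
    rw [← e]
    show ((a.1 : P) : G) = 1
    rw [h4]
    rfl
  · intro ι _ _ f
    have e2 : (Matrix.diagonal fun i => (MonoidAlgebra.single (f i) 1 :
        MonoidAlgebra R (P × Zm m))).map (mp R (inc P m)) =
        Matrix.diagonal fun i => MonoidAlgebra.single (inc P m (f i)) 1 := by
      ext1 i j
      rw [Matrix.map_apply]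
      rcases eq_or_ne i j with rfl | hij
      · rw [Matrix.diagonal_apply_eq, Matrix.diagonal_apply_eq, mp_single]
      · rw [Matrix.diagonal_apply_ne _ hij, Matrix.diagonal_apply_ne _ hij, map_zero]
    show κ ι ((Matrix.diagonal fun i => (MonoidAlgebra.single (f i) 1 :
        MonoidAlgebra R (P × Zm m))).map (mp R (inc P m))) ∈ N
    rw [e2]
    exact h2 ι _

end Pool.Agent.Lib.MPb6f35e.KN
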