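import Pool.Agent.Lib.MP_b6f35e_al.KN.SpecL
import Pool.Agent.Lib.MP_b6f35e_al.KN.PSB

/-!
# KN, module LIN: one coset of a line
-/

namespace Pool.Agent.Lib.MPb6f35e.KN

open Matrix
open Pool.Agent.Lib.MP8a3537.UV (SuppIn)
open Pool.Agent.Lib.MP8a3537.RO (cut cut_coeff)

namespace LINM

/-! ### `pmod` -/

section Pm

variable {R G : Type} [Ring R] [Group G] (deg : G →* Multiplicative ℤ) (n : ℕ)

theorem pmod_coeff (k : ZMod n) (b : MonoidAlgebra R G) (g : G) :
    (pmod deg n k b).coeff g = if (((deg g).toAdd : ℤ) : ZMod n) = k then b.coeff g else 0 := by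
  classical
  unfold pmod
  rw [cut_coeff]
  by_cases h : (((deg g).toAdd : ℤ) : ZMod n) = k
  · rw [if_pos h]
    exact if_pos h
  · rw [if_neg h]
    exact if_neg h

/-- If all degrees are `c`. -/
theorem pmod_of {b : MonoidAlgebra R G} {c : ZMod n}
    (h : ∀ g, b.coeff g ≠ 0 → (((deg g).toAdd : ℤ) : ZMod n) = c) (k : ZMod n) :
    pmod deg n k b = if c = k then b else 0 := by
  ext g
  rw [pmod_coeff]
  by_cases hg : b.coeff g = 0
  · rw [hg, ite_self]
    split_ifs
    · exact hg.symm
    · rfl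
  · rw [h g hg]
    split_ifs
    · rfl
    · rfl

theorem pmod_add (k : ZMod n) (a b : MonoidAlgebra R G) :
    pmod deg n k (a + b) = pmod deg n k a + pmod deg n k b := by
  ext g
  rw [MonoidAlgebra.coeff_add, Finsupp.add_apply, pmod_coeff, pmod_coeff, pmod_coeff,
    MonoidAlgebra.coeff_add, Finsupp.add_apply]
  split_ifs
  · rfl
  · rw [add_zero]

theorem Tm_add {ι ι' : Type} (M M' : Matrix ι ι' (MonoidAlgebra R G)) :
    Tm deg n (M + M') = Tm deg n M + Tm deg n M' := by
  ext1 x y
  exact pmod_add deg n _ _ _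

end Pm

/-! ### Permutation matrices -/

theorem perm_unit {A X : Type} [Ring A] [Fintype X] [DecidableEq X] (σ : Equiv.Perm X) :
    IsUnit (Matrix.of fun i j => if σ i = j then 1 else 0 : Matrix X X A) := by
  have h : (Matrix.of fun i j => if σ i = j then 1 else 0 : Matrix X X A) =
      (1 : Matrix X X A).submatrix σ id := by
    ext1 i j
    rw [Matrix.submatrix_apply, Matrix.one_apply]
    rfl
  rw [h]
  refine ⟨⟨(1 : Matrix X X A).submatrix σ id, (1 : Matrix X X A).submatrix id σ, ?_, ?_⟩, rfl⟩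
  · have := Matrix.submatrix_mul_equiv (1 : Matrix X X A) (1 : Matrix X X A) σ (Equiv.refl X) σ
    rw [Equiv.coe_refl] at this
    rw [this, one_mul, Matrix.submatrix_one_equiv]
  · rw [Matrix.submatrix_mul_equiv, one_mul, Matrix.submatrix_id_id]

/-! ### The vanishing of `λ` -/

section Lam

variable {R P K : Type} [Ring R] [Group P] [AddCommGroup K]

theorem lam_zero (hPMK : SpecPMK) (hBDK : SpecBDK) (hTWN : SpecTWN) (hP : PrK R P) (m : ℕ)
    (deg : P × Zm m →* Multiplicative ℤ) (hdeg : ∀ g, g.1 = 1 → deg g = 1)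
    (κ : ∀ (ι : Type) [Fintype ι], Matrix ι ι (MonoidAlgebra R (P × Zm m)) → K) (hκ : KF κ)
    (n : ℕ) [NeZero n] (hn : Odd n) (ι : Type) [Fintype ι] [DecidableEq ι]
    (M : Matrix ι ι (MonoidAlgebra R (P × Zm m))) (hM : IsUnit M) :
    κ (ι × ZMod n) (Tm deg n M) = n • κ ι M := by
  obtain ⟨-, -, -, hT⟩ := hTWN R (P × Zm m) K deg n
  have hT1 := hT κ hκ
  have hl : KF (fun (ι : Type) [Fintype ι] (M : Matrix ι ι (MonoidAlgebra R (P × Zm m))) =>
      κ (ι × ZMod n) (Tm deg n M) - n • κ ι M) := by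
    refine ⟨?_, ?_⟩
    · intro ι _ _ a b ha hb
      have h1 : κ (ι × ZMod n) (Tm deg n (a * b)) =
        κ (ι × ZMod n) (Tm deg n a) + κ (ι × ZMod n) (Tm deg n b) := hT1.mul ι a b ha hb
      have h2 := hκ.mul ι a b ha hb
      show κ (ι × ZMod n) (Tm deg n (a * b)) - n • κ ι (a * b) =
        (κ (ι × ZMod n) (Tm deg n a) - n • κ ι a) + (κ (ι × ZMod n) (Tm deg n b) - n • κ ι b)
      rw [h1, h2, smul_add]
      abel
    · intro ι ι' _ _ _ _ x y h
      have h1 : κ (ι × ZMod n) (Tm deg n (1 + x * y)) = κ (ι' × ZMod n) (Tm deg n (1 + y * x)) :=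
        hT1.swap ι ι' x y h
      have h2 := hκ.swap ι ι' x y h
      show κ (ι × ZMod n) (Tm deg n (1 + x * y)) - n • κ ι (1 + x * y) =
        κ (ι' × ZMod n) (Tm deg n (1 + y * x)) - n • κ ι' (1 + y * x)
      rw [h1, h2]
  have key := hP m K _ hl ⊥ ?_ ?_ ι M hM
  · exact sub_eq_zero.1 ((AddSubgroup.mem_bot).1 key)
  · intro ι _ _ M hM hs
    rw [AddSubgroup.mem_bot]
    show κ (ι × ZMod n) (Tm deg n M) - n • κ ι M = 0
    have h1 : Tm deg n M = Matrix.of fun x y => if x.2 = y.2 then M x.1 y.1 else 0 := by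
      ext1 x y
      show pmod deg n (y.2 - x.2) (M x.1 y.1) = if x.2 = y.2 then M x.1 y.1 else 0
      rw [pmod_of deg n (c := 0) (fun g hg => ?_)]
      · by_cases h : x.2 = y.2
        · rw [if_pos h, if_pos (sub_eq_zero.2 h.symm).symm]
        · rw [if_neg h, if_neg fun h' => h (sub_eq_zero.1 h'.symm).symm]
      · have h3 : g.1 = 1 := hs x.1 y.1 g hg
        rw [hdeg g h3]
        simp
    rw [h1, hBDK _ K κ hκ ι (ZMod n) M hM, ZMod.card, sub_self]
  · intro ι _ _ f
    rw [AddSubgroup.mem_bot]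
    show κ (ι × ZMod n) (Tm deg n (Matrix.diagonal fun i => MonoidAlgebra.single (f i) 1)) -
      n • κ ι (Matrix.diagonal fun i => MonoidAlgebra.single (f i) 1) = 0
    let dd : ι → ZMod n := fun i => (((deg (f i)).toAdd : ℤ) : ZMod n)
    -- the permutation
    let σ : Equiv.Perm (ι × ZMod n) :=
      { toFun := fun x => (x.1, x.2 + dd x.1)
        invFun := fun x => (x.1, x.2 - dd x.1)
        left_inv := fun x => Prod.ext rfl (add_sub_cancel_right _ _)
        right_inv := fun x => Prod.ext rfl (sub_add_cancel _ _) }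
    have hσ : ∀ k : ℕ, ∀ x, (σ ^ k) x = (x.1, x.2 + k • dd x.1) := by
      intro k
      induction k with
      | zero => intro x; simp
      | succ k ih =>
        intro x
        rw [pow_succ, Equiv.Perm.mul_apply, ih]
        refine Prod.ext rfl ?_
        show x.2 + dd x.1 + k • dd x.1 = x.2 + (k + 1) • dd x.1
        rw [add_smul, one_smul]
        abel
    have hσn : σ ^ n = 1 := by
      ext1 x
      rw [hσ n x]
      refine Prod.ext rfl ?_
      show x.2 + n • dd x.1 = x.2
      rw [nsmul_eq_mul, CharP.cast_eq_zero, zero_mul, add_zero]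
    let D : Matrix (ι × ZMod n) (ι × ZMod n) (MonoidAlgebra R (P × Zm m)) :=
      Matrix.diagonal fun x => MonoidAlgebra.single (f x.1) 1
    have hDu : IsUnit D := by
      refine ⟨⟨D, Matrix.diagonal fun x => MonoidAlgebra.single (f x.1)⁻¹ 1, ?_, ?_⟩, rfl⟩
      · show Matrix.diagonal _ * Matrix.diagonal _ = 1
        rw [Matrix.diagonal_mul_diagonal, ← Matrix.diagonal_one]
        congr 1
        funext x
        rw [MonoidAlgebra.single_mul_single, mul_inv_cancel, one_mul, MonoidAlgebra.one_def]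
      · show Matrix.diagonal _ * Matrix.diagonal _ = 1
        rw [Matrix.diagonal_mul_diagonal, ← Matrix.diagonal_one]
        congr 1
        funext x
        rw [MonoidAlgebra.single_mul_single, inv_mul_cancel, one_mul, MonoidAlgebra.one_def]
    have hMu : IsUnit (Matrix.diagonal fun i => (MonoidAlgebra.single (f i) 1 :
        MonoidAlgebra R (P × Zm m))) := by
      refine ⟨⟨Matrix.diagonal fun i => MonoidAlgebra.single (f i) 1,
        Matrix.diagonal fun i => MonoidAlgebra.single (f i)⁻¹ 1, ?_, ?_⟩, rfl⟩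
      · rw [Matrix.diagonal_mul_diagonal, ← Matrix.diagonal_one]
        congr 1
        funext x
        rw [MonoidAlgebra.single_mul_single, mul_inv_cancel, one_mul, MonoidAlgebra.one_def]
      · rw [Matrix.diagonal_mul_diagonal, ← Matrix.diagonal_one]
        congr 1
        funext x
        rw [MonoidAlgebra.single_mul_single, inv_mul_cancel, one_mul, MonoidAlgebra.one_def]
    have hTD : Tm deg n (Matrix.diagonal fun i => (MonoidAlgebra.single (f i) 1 :
        MonoidAlgebra R (P × Zm m))) =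
        D * Matrix.of fun i j => if σ i = j then 1 else 0 := by
      ext1 x y
      show pmod deg n (y.2 - x.2) ((Matrix.diagonal fun i => (MonoidAlgebra.single (f i) 1 :
        MonoidAlgebra R (P × Zm m))) x.1 y.1) =
        ((Matrix.diagonal (fun x : ι × ZMod n => (MonoidAlgebra.single (f x.1) 1 :
          MonoidAlgebra R (P × Zm m))) * (Matrix.of fun i j => if σ i = j then 1 else 0 :
          Matrix (ι × ZMod n) (ι × ZMod n) (MonoidAlgebra R (P × Zm m)))) :
          Matrix (ι × ZMod n) (ι × ZMod n) (MonoidAlgebra R (P × Zm m))) x y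
      rw [Matrix.diagonal_mul, Matrix.of_apply]
      by_cases h : x.1 = y.1
      · rw [← h, Matrix.diagonal_apply_eq, pmod_of deg n (c := dd x.1) (fun g hg => ?_)]
        · by_cases h2 : dd x.1 = y.2 - x.2
          · have h3 : σ x = y := Prod.ext h (by
              show x.2 + dd x.1 = y.2
              rw [h2]
              abel)
            rw [if_pos h2, if_pos h3, mul_one]
          · have h3 : ¬ σ x = y := by
              intro h4
              apply h2
              have h5 : x.2 + dd x.1 = y.2 := congrArg Prod.snd h4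
              rw [← h5]
              abel
            rw [if_neg h2, if_neg h3, mul_zero]
        · by_cases hgf : f x.1 = g
          · rw [← hgf]
          · refine absurd ?_ hg
            rw [MonoidAlgebra.coeff_single]
            exact Finsupp.single_eq_of_ne' hgf
      · rw [Matrix.diagonal_apply_ne _ h]
        have h3 : ¬ σ x = y := by
          intro h4
          have h5 : (σ x).1 = y.1 := congrArg Prod.fst h4
          exact h h5
        rw [if_neg h3, mul_zero, pmod_of deg n (c := 0) (fun g hg => absurd rfl hg)]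
        split_ifs <;> rfl
    have hBD : D = Matrix.of fun x y => if x.2 = y.2 then
        (Matrix.diagonal fun i => (MonoidAlgebra.single (f i) 1 :
          MonoidAlgebra R (P × Zm m))) x.1 y.1 else 0 := by
      ext1 x y
      rw [Matrix.of_apply]
      show Matrix.diagonal (fun x : ι × ZMod n => (MonoidAlgebra.single (f x.1) 1 :
          MonoidAlgebra R (P × Zm m))) x y = _
      rw [Matrix.diagonal_apply, Matrix.diagonal_apply]
      by_cases h1 : x.2 = y.2
      · by_cases h2 : x.1 = y.1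
        · rw [if_pos (Prod.ext h2 h1), if_pos h1, if_pos h2]
        · rw [if_neg fun h => h2 (congrArg Prod.fst h), if_pos h1, if_neg h2]
      · rw [if_neg fun h => h1 (congrArg Prod.snd h), if_neg h1]
    rw [hTD, hκ.mul _ _ _ hDu (perm_unit σ), hPMK _ K κ hκ _ σ n hn hσn, add_zero, hBD,
      hBDK _ K κ hκ ι (ZMod n) _ hMu, ZMod.card, sub_self]

end Lam

end LINM

open PSBM in
theorem specLIN (hPMK : SpecPMK) (hBDK : SpecBDK) (hCYK : SpecCYK) (hTWN : SpecTWN) :
    SpecLIN := by
  intro R G _ _ P deg hP m K _ κ hκ ι _ _ ν hν hnil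
  have hinj := inc_inj P m
  have hκ' := kf_map (inc P m) hκ
  let deg' : P × Zm m →* Multiplicative ℤ := deg.comp (MonoidHom.fst P (Zm m))
  let ν' : Matrix ι ι (MonoidAlgebra R (P × Zm m)) := ν.map (rst (inc P m) hinj)
  have e : ν'.map (mp R (inc P m)) = ν := by
    ext1 i j
    show mp R (inc P m) (rst (inc P m) hinj (ν i j)) = ν i j
    refine mp_rst _ hinj _ fun b hb => ?_
    obtain ⟨h, -, h2⟩ := hν i j b hb
    exact ⟨(h, b.2), Prod.ext h2.symm rfl⟩
  have hs : ∀ i j a, (ν' i j).coeff a ≠ 0 → deg' a = Multiplicative.ofAdd 1 := by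
    intro i j a ha
    have h1 : (ν i j).coeff (inc P m a) ≠ 0 := ha
    obtain ⟨h, h2, h3⟩ := hν i j _ h1
    have h4 : a.1 = h := Subtype.ext h3
    show deg a.1 = _
    rw [h4, h2]
  obtain ⟨N, hN⟩ := hnil
  have hN' : ν' ^ N = 0 := by
    have h1 : (ν' ^ N).map (mp R (inc P m)) = 0 := by
      have h2 : (ν' ^ N).map (mp R (inc P m)) = (ν'.map (mp R (inc P m))) ^ N :=
        map_pow (mp R (inc P m)).mapMatrix ν' N
      rw [h2, e, hN]
    ext1 i j
    have h3 : mp R (inc P m) ((ν' ^ N) i j) = 0 := congrFun (congrFun h1 i) j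
    have h4 := rst_mp (inc P m) hinj ((ν' ^ N) i j)
    rw [h3, rst_zero] at h4
    exact h4.symm
  have hu : IsUnit (1 + ν') := IsNilpotent.isUnit_one_add ⟨N, hN'⟩
  -- the value
  have hz : κ ι ((1 + ν').map (mp R (inc P m))) = κ ι (1 + ν) := by
    rw [Matrix.map_add _ (map_add _), Matrix.map_one _ (map_zero _) (map_one _), e]
  have hmul : ∀ n : ℕ, Odd n → N + 2 ≤ n → n • κ ι (1 + ν) = 0 := by
    intro n hn hNn
    have : NeZero n := ⟨by omega⟩
    have h1 := LINM.lam_zero hPMK hBDK hTWN hP m deg' (fun g hg => by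
      show deg g.1 = 1
      rw [hg, map_one]) _ hκ' n hn ι (1 + ν') hu
    have h2 : Tm deg' n (1 + ν') =
        1 + Matrix.of fun x y => if y.2 = x.2 + 1 then ν' x.1 y.1 else 0 := by
      rw [LINM.Tm_add, (hTWN R (P × Zm m) K deg' n).2.1 ι]
      congr 1
      ext1 x y
      show pmod deg' n (y.2 - x.2) (ν' x.1 y.1) = if y.2 = x.2 + 1 then ν' x.1 y.1 else 0
      rw [LINM.pmod_of deg' n (c := 1) (fun g hg => ?_)]
      · by_cases h : y.2 = x.2 + 1
        · rw [if_pos h, if_pos]
          rw [h]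
          abel
        · rw [if_neg h, if_neg]
          intro h'
          apply h
          rw [h']
          abel
      · rw [hs _ _ g hg]
        simp
    have h3 := hCYK (MonoidAlgebra R (P × Zm m)) K _ hκ' ι ν' n (by omega)
      (pow_eq_zero_of_le (by omega) hN')
    rw [h2] at h1
    have h4 := h1.symm.trans h3
    rw [← hz]
    exact h4
  have h1 := hmul (2 * N + 3) ⟨N + 1, by ring⟩ (by omega)
  have h2 := hmul (2 * N + 5) ⟨N + 2, by ring⟩ (by omega)
  have h3 : (2 : ℕ) • κ ι (1 + ν) = 0 := by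
    have : (2 * N + 5) • κ ι (1 + ν) = (2 * N + 3) • κ ι (1 + ν) + (2 : ℕ) • κ ι (1 + ν) := by
      rw [← add_smul]
    rw [h1, zero_add] at this
    rw [← this, h2]
  have h4 : (2 * N + 3) • κ ι (1 + ν) = (N + 1) • ((2 : ℕ) • κ ι (1 + ν)) + κ ι (1 + ν) := by
    rw [smul_smul]
    nth_rewrite 3 [← one_smul ℕ (κ ι (1 + ν))]
    rw [← add_smul]
    congr 1
    ring
  rw [h1, h3, smul_zero, zero_add] at h4
  exact h4.symm

end Pool.Agent.Lib.MPb6f35e.KN
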