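import Pool.Agent.Lib.MP_b6f35e_al.KN.SpecL
import Pool.Agent.Lib.MP_8a3537_gt.RO.JNT

set_option autoImplicit false

/-!
# MP_b6f35e_al, KN: module LZE (helper21), Lazard elimination of the stable letters
-/

namespace Pool.Agent.Lib.MPb6f35e.KN

open Matrix
open Pool.Agent.Lib.MP8a3537.UV (emb res lres SuppIn)
open Pool.Agent.Lib.MP8a3537.RO (Bi dc Kg cut cutM cut_coeff)
open Pool.Agent.Lib.MP8a3537.RO.JNTAux (supp_mul)

namespace LZEM

section Grp

variable {G : Type} [Group G] {L : Subgroup G}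

theorem stL_of_mem {h : G} (hh : h ∈ L) : h ∈ StL L := fun _ hk =>
  L.mul_mem (L.mul_mem (L.inv_mem hh) hk) hh

theorem stL_mul {g g' : G} (hg : g ∈ StL L) (hg' : g' ∈ StL L) : g * g' ∈ StL L := by
  intro k hk
  have h := hg' _ (hg k hk)
  have e : (g * g')⁻¹ * k * (g * g') = g'⁻¹ * (g⁻¹ * k * g) * g' := by group
  rw [e]
  exact h

theorem dc_lc {g : G} (hg : g ∈ StL L) {x : G} (hx : x ∈ dc L g) : x ∈ lc L g := by
  obtain ⟨a, ha, b, hb, rfl⟩ := hx
  exact ⟨g⁻¹ * a * g * b, L.mul_mem (hg a ha) hb, by group⟩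

theorem lc_mul {u w : G} (hw : w ∈ StL L) {x y : G} (hx : x ∈ lc L u) (hy : y ∈ lc L w) :
    x * y ∈ lc L (u * w) := by
  obtain ⟨a, ha, rfl⟩ := hx
  obtain ⟨b, hb, rfl⟩ := hy
  exact ⟨w⁻¹ * a * w * b, L.mul_mem (hw a ha) hb, by group⟩

theorem dc_self (g : G) : g ∈ dc L g := ⟨1, L.one_mem, 1, L.one_mem, by group⟩

theorem dc_bi (g : G) : Bi L (dc L g) := by
  constructor
  · rintro h hh x ⟨a, ha, b, hb, rfl⟩
    exact ⟨h * a, L.mul_mem hh ha, b, hb, by group⟩
  · rintro h hh x ⟨a, ha, b, hb, rfl⟩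
    exact ⟨a, ha, b * h, L.mul_mem hb hh, by group⟩

variable {X : Set G}

theorem xw_right (hX : ∀ h ∈ L, ∀ x ∈ X, x * h ∈ X) (i : ℕ) {u h : G} (hu : u ∈ Xw L X i)
    (hh : h ∈ L) : u * h ∈ Xw L X i := by
  cases i with
  | zero => exact L.mul_mem hu hh
  | succ i =>
    obtain ⟨w, hw, y, hy, rfl⟩ := hu
    exact ⟨w, hw, y * h, hX h hh y hy, mul_assoc _ _ _⟩

theorem xw_mul (hX : ∀ h ∈ L, ∀ x ∈ X, x * h ∈ X) (i j : ℕ) {u w : G} (hu : u ∈ Xw L X i)
    (hw : w ∈ Xw L X j) : u * w ∈ Xw L X (i + j) := by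
  induction j generalizing w with
  | zero => exact xw_right hX i hu hw
  | succ j ih =>
    obtain ⟨v, hv, y, hy, rfl⟩ := hw
    exact ⟨u * v, ih hv, y, hy, (mul_assoc _ _ _).symm⟩

theorem xw_stL (hX : ∀ x ∈ X, x ∈ StL L) (j : ℕ) {w : G} (hw : w ∈ Xw L X j) : w ∈ StL L := by
  induction j generalizing w with
  | zero => exact stL_of_mem hw
  | succ j ih =>
    obtain ⟨v, hv, y, hy, rfl⟩ := hw
    exact stL_mul (ih hv) (hX y hy)

end Grp

section Mat

variable {R G ι : Type} [Ring R] [Group G] [Fintype ι] [DecidableEq ι]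

/-- Products of `j` letters in one coset. -/
def El (L : Subgroup G) (X : Set G) (ν : Matrix ι ι (MonoidAlgebra R G)) (j : ℕ)
    (m : Matrix ι ι (MonoidAlgebra R G)) : Prop :=
  ∃ u ∈ Xw L X j, SuppIn (lc L u) m ∧ ∃ l : List (Set G), (∀ c ∈ l, Bi L c) ∧ l.length = j ∧
    (m = (l.map fun c => cutM c ν).prod ∨ m = -(l.map fun c => cutM c ν).prod)

variable {L : Subgroup G} {X : Set G} {ν : Matrix ι ι (MonoidAlgebra R G)}

theorem supp_mulM {A B C : Set G} {m m' : Matrix ι ι (MonoidAlgebra R G)} (hm : SuppIn A m)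
    (hm' : SuppIn B m') (h : ∀ x ∈ A, ∀ y ∈ B, x * y ∈ C) : SuppIn C (m * m') := by
  intro i j g hg
  rw [Matrix.mul_apply] at hg
  have h3 : ∃ q, ((m i q) * (m' q j)).coeff g ≠ 0 := by
    by_contra h4
    push Not at h4
    apply hg
    rw [MonoidAlgebra.coeff_sum, Finsupp.finsetSum_apply]
    exact Finset.sum_eq_zero fun q _ => h4 q
  obtain ⟨q, hq⟩ := h3
  obtain ⟨x, y, hx, hy, rfl⟩ := supp_mul _ _ _ hq
  exact h x (hm _ _ _ hx) y (hm' _ _ _ hy)

theorem supp_neg {A : Set G} {m : Matrix ι ι (MonoidAlgebra R G)} (hm : SuppIn A m) :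
    SuppIn A (-m) := by
  intro i j g hg
  refine hm i j g fun h => hg ?_
  rw [Matrix.neg_apply, MonoidAlgebra.coeff_neg, Finsupp.neg_apply, h, neg_zero]

theorem El_mul (hX : ∀ h ∈ L, ∀ x ∈ X, x * h ∈ X) (hS : ∀ x ∈ X, x ∈ StL L) {i j : ℕ}
    {m m' : Matrix ι ι (MonoidAlgebra R G)} (hm : El L X ν i m) (hm' : El L X ν j m') :
    El L X ν (i + j) (m * m') := by
  obtain ⟨u, hu, hs, l, hl, hlen, he⟩ := hm
  obtain ⟨u', hu', hs', l', hl', hlen', he'⟩ := hm'
  refine ⟨u * u', xw_mul hX i j hu hu', supp_mulM hs hs' fun x hx y hy =>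
    lc_mul (xw_stL hS j hu') hx hy, l ++ l', ?_, ?_, ?_⟩
  · intro c hc
    rcases List.mem_append.1 hc with hc | hc
    · exact hl c hc
    · exact hl' c hc
  · rw [List.length_append, hlen, hlen']
  · rw [List.map_append, List.prod_append]
    rcases he with he | he <;> rcases he' with he' | he'
    · left
      rw [he, he']
    · right
      rw [he, he', mul_neg]
    · right
      rw [he, he', neg_mul]
    · left
      rw [he, he', neg_mul_neg]

theorem El_neg {j : ℕ} {m : Matrix ι ι (MonoidAlgebra R G)} (hm : El L X ν j m) :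
    El L X ν j (-m) := by
  obtain ⟨u, hu, hs, l, hl, hlen, he⟩ := hm
  refine ⟨u, hu, supp_neg hs, l, hl, hlen, ?_⟩
  rcases he with he | he
  · right
    rw [he]
  · left
    rw [he, neg_neg]

theorem El_one : El L X ν 0 1 := by
  classical
  refine ⟨1, L.one_mem, ?_, [], ?_, rfl, Or.inl ?_⟩
  · intro i j g hg
    rw [Matrix.one_apply] at hg
    have h2 : g = 1 := by
      by_contra hg1
      apply hg
      split_ifs
      · rw [MonoidAlgebra.one_def, MonoidAlgebra.coeff_single_apply, if_neg (fun h => hg1 h.symm)]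
      · simp
    exact ⟨1, L.one_mem, by rw [h2, mul_one]⟩
  · intro c hc
    exact absurd hc List.not_mem_nil
  · rw [List.map_nil, List.prod_nil]

theorem El_pow (hX : ∀ h ∈ L, ∀ x ∈ X, x * h ∈ X) (hS : ∀ x ∈ X, x ∈ StL L) {j : ℕ}
    {m : Matrix ι ι (MonoidAlgebra R G)} (hm : El L X ν j m) (n : ℕ) :
    El L X ν (n * j) (m ^ n) := by
  induction n with
  | zero =>
    rw [pow_zero, Nat.zero_mul]
    exact El_one
  | succ n ih =>
    rw [pow_succ, Nat.succ_mul]
    exact El_mul hX hS ih hm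

theorem El_cut (hS : ∀ x ∈ X, x ∈ StL L) {g : G} (hg : g ∈ X) :
    El L X ν 1 (cutM (dc L g) ν) := by
  classical
  refine ⟨g, ⟨1, L.one_mem, g, hg, (one_mul g).symm⟩, ?_, [dc L g], ?_, rfl, Or.inl ?_⟩
  · intro i j x hx
    refine dc_lc (hS g hg) ?_
    by_contra h
    apply hx
    have e : (cutM (dc L g) ν i j).coeff x = (cut (dc L g) (ν i j)).coeff x := rfl
    rw [e, cut_coeff, if_neg h]
  · intro c hc
    rw [List.mem_singleton.1 hc]
    exact dc_bi g
  · rw [List.map_singleton, List.prod_singleton]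

/-- The additive subgroup generated by the products of at least `k` letters. -/
noncomputable def E (L : Subgroup G) (X : Set G) (ν : Matrix ι ι (MonoidAlgebra R G)) (k : ℕ) :
    AddSubgroup (Matrix ι ι (MonoidAlgebra R G)) :=
  AddSubgroup.closure {m | ∃ j, k ≤ j ∧ El L X ν j m}

theorem E_of {k j : ℕ} (h : k ≤ j) {m : Matrix ι ι (MonoidAlgebra R G)} (hm : El L X ν j m) :
    m ∈ E L X ν k := AddSubgroup.subset_closure ⟨j, h, hm⟩

theorem E_mul (hX : ∀ h ∈ L, ∀ x ∈ X, x * h ∈ X) (hS : ∀ x ∈ X, x ∈ StL L) {k l : ℕ}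
    {u v : Matrix ι ι (MonoidAlgebra R G)} (hu : u ∈ E L X ν k)
    (hv : v ∈ E L X ν l) : u * v ∈ E L X ν (k + l) := by
  unfold E at hu
  induction hu using AddSubgroup.closure_induction with
  | mem u hu =>
    obtain ⟨j1, h1, hk1⟩ := hu
    unfold E at hv
    induction hv using AddSubgroup.closure_induction with
    | mem v hv =>
      obtain ⟨j2, h2, hk2⟩ := hv
      exact E_of (Nat.add_le_add h1 h2) (El_mul hX hS hk1 hk2)
    | zero =>
      rw [mul_zero]
      exact AddSubgroup.zero_mem _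
    | add x y _ _ hx hy =>
      rw [mul_add]
      exact AddSubgroup.add_mem _ hx hy
    | neg x _ hx =>
      rw [mul_neg]
      exact AddSubgroup.neg_mem _ hx
  | zero =>
    rw [zero_mul]
    exact AddSubgroup.zero_mem _
  | add x y _ _ hx hy =>
    rw [add_mul]
    exact AddSubgroup.add_mem _ hx hy
  | neg x _ hx =>
    rw [neg_mul]
    exact AddSubgroup.neg_mem _ hx

theorem E_mono {k l : ℕ} (h : k ≤ l) {u : Matrix ι ι (MonoidAlgebra R G)}
    (hu : u ∈ E L X ν l) : u ∈ E L X ν k := by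
  refine AddSubgroup.closure_mono ?_ hu
  rintro P ⟨j, h1, h2⟩
  exact ⟨j, h.trans h1, h2⟩

theorem E_zero {N : ℕ} (hz : ∀ j m, El L X ν j m → N ≤ j → m = 0)
    {u : Matrix ι ι (MonoidAlgebra R G)} (hu : u ∈ E L X ν N) : u = 0 := by
  have h : E L X ν N ≤ ⊥ := by
    refine (AddSubgroup.closure_le _).2 ?_
    rintro P ⟨j, h1, h2⟩
    exact (AddSubgroup.mem_bot).2 (hz j P h2 h1)
  exact (AddSubgroup.mem_bot).1 (h hu)

theorem E_pow (hX : ∀ h ∈ L, ∀ x ∈ X, x * h ∈ X) (hS : ∀ x ∈ X, x ∈ StL L) {k : ℕ}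
    {u : Matrix ι ι (MonoidAlgebra R G)} (hu : u ∈ E L X ν k) :
    ∀ n, u ^ n ∈ E L X ν (n * k) := by
  intro n
  induction n with
  | zero =>
    rw [pow_zero, Nat.zero_mul]
    exact E_of le_rfl El_one
  | succ n ih =>
    rw [pow_succ, Nat.succ_mul]
    exact E_mul hX hS ih hu

/-- Elements of `E 1` are nilpotent. -/
theorem E_nil (hX : ∀ h ∈ L, ∀ x ∈ X, x * h ∈ X) (hS : ∀ x ∈ X, x ∈ StL L) {N : ℕ}
    (hz : ∀ j m, El L X ν j m → N ≤ j → m = 0) {k : ℕ} (hk : 1 ≤ k)
    {u : Matrix ι ι (MonoidAlgebra R G)} (hu : u ∈ E L X ν k) : u ^ N = 0 :=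
  E_zero hz (E_mono (Nat.le_mul_of_pos_right N hk) (E_pow hX hS hu N))

/-- The matrix `ν` is in `E 1`. -/
theorem mem_E (hS : ∀ x ∈ X, x ∈ StL L) (hν : SuppIn X ν) : ν ∈ E L X ν 1 := by
  classical
  have key : ∀ T : Finset G, (∀ g ∈ T, g ∈ X) →
      cutM {x | ∃ g ∈ T, x ∈ dc L g} ν ∈ E L X ν 1 := by
    intro T
    induction T using Finset.induction_on with
    | empty =>
      intro _
      have h0 : cutM {x | ∃ g ∈ (∅ : Finset G), x ∈ dc L g} ν = 0 := by
        refine Matrix.ext fun i j => ?_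
        ext x
        have e : (cutM {x | ∃ g ∈ (∅ : Finset G), x ∈ dc L g} ν i j).coeff x =
          (cut {x | ∃ g ∈ (∅ : Finset G), x ∈ dc L g} (ν i j)).coeff x := rfl
        rw [e, cut_coeff, if_neg]
        · rfl
        · rintro ⟨g, hg, _⟩
          exact absurd hg (Finset.notMem_empty g)
      rw [h0]
      exact AddSubgroup.zero_mem _
    | insert g T hg ih =>
      intro hT
      have ih' := ih fun a ha => hT a (Finset.mem_insert_of_mem ha)
      by_cases hgA : g ∈ {x | ∃ g ∈ T, x ∈ dc L g}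
      · have hset : {x | ∃ a ∈ insert g T, x ∈ dc L a} = {x | ∃ a ∈ T, x ∈ dc L a} := by
          ext x
          constructor
          · rintro ⟨a, ha, hx⟩
            rcases Finset.mem_insert.1 ha with rfl | ha
            · obtain ⟨b, hb, c, hc, d, hd, hcd⟩ := hgA
              obtain ⟨e, he, f, hf, rfl⟩ := hx
              refine ⟨b, hb, e * c, L.mul_mem he hc, d * f, L.mul_mem hd hf, ?_⟩
              rw [hcd]
              group
            · exact ⟨a, ha, hx⟩
          · rintro ⟨a, ha, hx⟩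
            exact ⟨a, Finset.mem_insert_of_mem ha, hx⟩
        rw [hset]
        exact ih'
      · have hsum : cutM {x | ∃ a ∈ insert g T, x ∈ dc L a} ν =
            cutM {x | ∃ a ∈ T, x ∈ dc L a} ν + cutM (dc L g) ν := by
          refine Matrix.ext fun i j => ?_
          ext x
          have e : (cutM {x | ∃ a ∈ insert g T, x ∈ dc L a} ν i j).coeff x =
            (cut {x | ∃ a ∈ insert g T, x ∈ dc L a} (ν i j)).coeff x := rfl
          have e1 : ((cutM {x | ∃ a ∈ T, x ∈ dc L a} ν + cutM (dc L g) ν) i j).coeff x =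
            (cut {x | ∃ a ∈ T, x ∈ dc L a} (ν i j)).coeff x +
              (cut (dc L g) (ν i j)).coeff x := rfl
          rw [e, e1, cut_coeff, cut_coeff, cut_coeff]
          by_cases hx : x ∈ dc L g
          · have hx1 : x ∉ {x | ∃ a ∈ T, x ∈ dc L a} := by
              rintro ⟨a, ha, b, hb, c, hc, hbc⟩
              obtain ⟨p, hp, q, hq, hpq⟩ := hx
              refine hgA ⟨a, ha, p⁻¹ * b, L.mul_mem (L.inv_mem hp) hb, c * q⁻¹,
                L.mul_mem hc (L.inv_mem hq), ?_⟩
              have e3 : g = p⁻¹ * x * q⁻¹ := by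
                rw [hpq]
                group
              rw [e3, hbc]
              group
            rw [if_neg hx1, if_pos hx, zero_add, if_pos]
            exact ⟨g, Finset.mem_insert_self g T, hx⟩
          · rw [if_neg hx, add_zero]
            by_cases hx1 : x ∈ {x | ∃ a ∈ T, x ∈ dc L a}
            · rw [if_pos hx1, if_pos]
              obtain ⟨a, ha, hxa⟩ := hx1
              exact ⟨a, Finset.mem_insert_of_mem ha, hxa⟩
            · rw [if_neg hx1, if_neg]
              rintro ⟨a, ha, hxa⟩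
              rcases Finset.mem_insert.1 ha with rfl | ha
              · exact hx hxa
              · exact hx1 ⟨a, ha, hxa⟩
        rw [hsum]
        exact AddSubgroup.add_mem _ ih' (E_of le_rfl
          (El_cut hS (hT g (Finset.mem_insert_self g T))))
  have hT := key (Finset.univ.biUnion fun i => Finset.univ.biUnion fun j => (ν i j).coeff.support)
    (by
      intro g hg
      obtain ⟨i, _, hg⟩ := Finset.mem_biUnion.1 hg
      obtain ⟨j, _, hg⟩ := Finset.mem_biUnion.1 hg
      exact hν i j g (Finsupp.mem_support_iff.1 hg))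
  have hcut : cutM {x | ∃ g ∈ (Finset.univ.biUnion fun i => Finset.univ.biUnion fun j =>
      (ν i j).coeff.support), x ∈ dc L g} ν = ν := by
    refine Matrix.ext fun i j => ?_
    ext x
    have e : (cutM {x | ∃ g ∈ (Finset.univ.biUnion fun i => Finset.univ.biUnion fun j =>
      (ν i j).coeff.support), x ∈ dc L g} ν i j).coeff x =
      (cut {x | ∃ g ∈ (Finset.univ.biUnion fun i => Finset.univ.biUnion fun j =>
      (ν i j).coeff.support), x ∈ dc L g} (ν i j)).coeff x := rfl
    rw [e, cut_coeff]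
    by_cases h : (ν i j).coeff x = 0
    · rw [h, ite_self]
    · rw [if_pos]
      exact ⟨x, Finset.mem_biUnion.2 ⟨i, Finset.mem_univ i, Finset.mem_biUnion.2
        ⟨j, Finset.mem_univ j, Finsupp.mem_support_iff.2 h⟩⟩, dc_self x⟩
  rw [hcut] at hT
  exact hT

end Mat

end LZEM

open LZEM in
theorem specLZE (hKCL : SpecKCL) (hJNK : SpecJNK) : SpecLZE := by
  classical
  intro R G K _ _ _ κ hκ L X Y hTD hvan ι _ _ ν hν hnil
  obtain ⟨N, hN⟩ := hnil
  have hone := (hKCL (MonoidAlgebra R G) K κ hκ).1 ι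
  have hS : ∀ x ∈ X ∩ StL L, x ∈ StL L := fun x hx => hx.2
  have hX : ∀ h ∈ L, ∀ x ∈ X ∩ StL L, x * h ∈ X ∩ StL L := fun h hh x hx =>
    ⟨hTD.zh () () h hh x hx.1, stL_mul hx.2 (stL_of_mem hh)⟩
  have hX' : ∀ h ∈ L, ∀ x ∈ X ∩ StL L, h * x ∈ X ∩ StL L := fun h hh x hx =>
    ⟨hTD.hz () () h hh x hx.1, stL_mul (stL_of_mem hh) hx.2⟩
  have hTD' : TD1 L (X ∩ StL L) Y :=
    { hz := fun _ _ => hX'
      zh := fun _ _ => hX
      yh := hTD.yh
      one := hTD.one
      yz := fun a b y hy x hx => hTD.yz a b y hy x hx.1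
      uq := fun a a' b y hy x hx y' hy' x' hx' h =>
        hTD.uq a a' b y hy x hx.1 y' hy' x' hx'.1 h }
  -- vanishing of the long words
  have hz : ∀ j m, El L (X ∩ StL L) ν j m → N + 1 ≤ j → m = 0 := by
    rintro j m ⟨u, hu, hs, l, hl, hlen, he⟩ hj
    have h := hJNK R G Unit L (fun _ _ => X ∩ StL L) (fun _ => Y) hTD' ι (fun _ => ()) ν
      (fun i j g hg => hν i j g hg) N hN (l.map fun c => fun _ _ => c) (by
        intro c hc a b
        obtain ⟨c', hc', rfl⟩ := List.mem_map.1 hc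
        exact hl c' hc') (by
        rw [List.length_map, hlen]
        omega)
    rw [List.map_map] at h
    have h2 : (l.map fun c => cutM c ν).prod = 0 := h
    rcases he with he | he
    · rw [he, h2]
    · rw [he, h2, neg_zero]
  -- single words
  have hsing : ∀ j m, 1 ≤ j → El L (X ∩ StL L) ν j m → m ^ (N + 1) = 0 ∧ κ ι (1 + m) = 0 := by
    intro j m hj hm
    have h1 : m ^ (N + 1) = 0 := E_nil hX hS hz hj (E_of le_rfl hm)
    obtain ⟨u, hu, hs, _⟩ := hm
    exact ⟨h1, hvan j hj u hu ι m hs ⟨N + 1, h1⟩⟩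
  -- the claim
  have claim : ∀ d k, k + d = N + 1 → 1 ≤ k → ∀ s ∈ E L (X ∩ StL L) ν k, κ ι (1 + s) = 0 := by
    intro d
    induction d with
    | zero =>
      intro k hk _ s hs
      have hk' : k = N + 1 := by omega
      rw [hk'] at hs
      rw [E_zero hz hs, add_zero]
      exact hone
    | succ d ih =>
      intro k hk hk1 s hs
      have ihk := ih (k + 1) (by omega) (by omega)
      -- one step
      have hstep : ∀ (j : ℕ) (m : Matrix ι ι (MonoidAlgebra R G)), k ≤ j →
          El L (X ∩ StL L) ν j m → ∀ s' ∈ E L (X ∩ StL L) ν k,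
          (∀ t ∈ E L (X ∩ StL L) ν (k + 1), κ ι (1 + (s' + t)) = 0) →
          ∀ t ∈ E L (X ∩ StL L) ν (k + 1), κ ι (1 + (m + s' + t)) = 0 := by
        intro j m hj hm s' hs' hQ t ht
        obtain ⟨hm0, hκm⟩ := hsing j m (hk1.trans hj) hm
        have hmE : m ∈ E L (X ∩ StL L) ν k := E_of hj hm
        have hst : s' + t ∈ E L (X ∩ StL L) ν k := AddSubgroup.add_mem _ hs' (E_mono (by omega) ht)
        set W := Wn (N + 1) m with hW
        have hW1 : (1 + m) * W = 1 := by
          have h := mul_neg_geom_sum (-m) (N + 1)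
          rw [neg_pow, hm0, mul_zero, sub_zero, sub_neg_eq_add] at h
          exact h
        have hW2 : W * (1 + m) = 1 := by
          have h := geom_sum_mul_neg (-m) (N + 1)
          rw [neg_pow, hm0, mul_zero, sub_zero, sub_neg_eq_add] at h
          exact h
        have hWE : W ∈ E L (X ∩ StL L) ν 0 := by
          refine AddSubgroup.sum_mem _ fun i _ => ?_
          exact E_mono (Nat.zero_le _) (E_pow hX hS (AddSubgroup.neg_mem _ hmE) i)
        have hWs : W * (s' + t) ∈ E L (X ∩ StL L) ν (0 + k) := E_mul hX hS hWE hst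
        have hu1 : IsUnit (1 + m) := ⟨⟨1 + m, W, hW1, hW2⟩, rfl⟩
        have hu2 : IsUnit (1 + W * (s' + t)) :=
          IsNilpotent.isUnit_one_add ⟨N + 1, E_nil hX hS hz (by omega) hWs⟩
        have e1 : 1 + (m + s' + t) = (1 + m) * (1 + W * (s' + t)) := by
          rw [mul_add, mul_one, ← mul_assoc, hW1, one_mul]
          abel
        have e2 : W * (s' + t) =
            s' + (t + ∑ i ∈ Finset.range N, (-m) ^ (i + 1) * (s' + t)) := by
          rw [hW]
          unfold Wn
          rw [Finset.sum_range_succ', pow_zero, add_mul, one_mul, Finset.sum_mul]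
          abel
        rw [e1, hκ.mul ι _ _ hu1 hu2, hκm, zero_add, e2]
        refine hQ _ (AddSubgroup.add_mem _ ht (AddSubgroup.sum_mem _ fun i _ => ?_))
        refine E_mono ?_ (E_mul hX hS (E_pow hX hS (AddSubgroup.neg_mem _ hmE) (i + 1)) hst)
        have h5 : k ≤ (i + 1) * k := Nat.le_mul_of_pos_left k (Nat.succ_pos i)
        omega
      have hmain : ∀ t ∈ E L (X ∩ StL L) ν (k + 1), κ ι (1 + (s + t)) = 0 := by
        have hs1 := hs
        unfold E at hs1
        induction hs1 using AddSubgroup.closure_induction_left with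
        | zero =>
          intro t ht
          rw [zero_add]
          exact ihk t ht
        | add_left x hx y hy hp =>
          obtain ⟨j, hj, hm⟩ := hx
          exact hstep j x hj hm y hy (hp hy)
        | neg_add_cancel x hx y hy hp =>
          obtain ⟨j, hj, hm⟩ := hx
          exact hstep j (-x) hj (El_neg hm) y hy (hp hy)
      have h0 := hmain 0 (AddSubgroup.zero_mem _)
      rw [add_zero] at h0
      exact h0
  exact claim N 1 (by omega) le_rfl ν (mem_E hS hν)

end Pool.Agent.Lib.MPb6f35e.KN
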