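import Pool.Agent.Lib.MP_b6f35e_al.KN.Spec

/-!
# NHT: null homotopies (MP_b6f35e_al, folder KN)
-/

namespace Pool.Agent.Lib.MPb6f35e.KN

open Matrix

namespace NHTM

variable {A : Type} [Ring A] {J K I : Type} [Fintype K]

theorem row_congr (M : Matrix J K A) (N N' : Matrix K I A) (i : J)
    (h : ∀ k, M i k ≠ 0 → N k = N' k) : (M * N) i = (M * N') i := by
  funext j
  rw [Matrix.mul_apply, Matrix.mul_apply]
  refine Finset.sum_congr rfl fun k _ => ?_
  by_cases hk : M i k = 0
  · rw [hk, zero_mul, zero_mul]
  · rw [h k hk]

theorem row_left (M M' : Matrix J K A) (N : Matrix K I A) (i : J)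
    (h : M i = M' i) : (M * N) i = (M' * N) i := by
  funext j
  rw [Matrix.mul_apply, Matrix.mul_apply, h]

theorem ex_ne (M : Matrix J K A) (N : Matrix K I A) (i : J) (j : I) (h : (M * N) i j ≠ 0) :
    ∃ k, M i k ≠ 0 ∧ N k j ≠ 0 := by
  rw [Matrix.mul_apply] at h
  obtain ⟨k, _, hk⟩ := Finset.exists_ne_zero_of_sum_ne_zero h
  exact ⟨k, fun h0 => hk (by rw [h0, zero_mul]), fun h0 => hk (by rw [h0, mul_zero])⟩

theorem mem_mul (Q : AddSubgroup A) (M : Matrix J K A) (N : Matrix K I A)
    (hM : ∀ i j, ∀ a ∈ Q, M i j * a ∈ Q) (hN : ∀ i j, N i j ∈ Q) (i : J) (j : I) :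
    (M * N) i j ∈ Q := by
  rw [Matrix.mul_apply]
  exact Q.sum_mem fun k _ => hM i k _ (hN k j)

end NHTM

open NHTM in
theorem specNHT : SpecNHT := by
  intro A _ Q J I _ _ _ _ dD pD eD d p e φ hpd hed hpp hpe hep hee hQ hφQ hφd hpφ hφp heφ hex hex0
  classical
  have key : ∀ m : ℕ, ∃ h : Matrix J I A, (∀ i j, h i j ∈ Q) ∧
      (∀ i j, h i j ≠ 0 → d j = dD i + 1) ∧ pD * h = h ∧ h * p = h ∧
      ∀ i, dD i < m → (h * e + eD * h) i = φ i := by
    intro m
    induction m with
    | zero =>
      refine ⟨0, fun _ _ => Q.zero_mem, fun _ _ h => absurd rfl h, Matrix.mul_zero _,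
        Matrix.zero_mul _, fun i hi => absurd hi (Nat.not_lt_zero _)⟩
    | succ m ih =>
      obtain ⟨h, h1, h2, h3, h4, h5⟩ := ih
      have hrow : ∀ i, ∃ y : I → A, (∀ j, y j ∈ Q) ∧ (∀ j, y j ≠ 0 → d j = m + 1) ∧ y ᵥ* p = y ∧
          (dD i = m → y ᵥ* e = (φ - eD * h) i) := by
        intro i
        by_cases hi : dD i = m
        · rcases Nat.eq_zero_or_pos m with hm | hm
          · obtain ⟨y, y1, y2, y3, y4⟩ := hex0 i (hi.trans hm)
            refine ⟨y, y1, fun j hj => by rw [y2 j hj, hm], y3, fun _ => ?_⟩
            have h0 : (eD * h) i = 0 := by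
              funext j
              by_contra hne
              obtain ⟨k, hk, _⟩ := ex_ne _ _ _ _ hne
              have := hed i k hk
              omega
            rw [y4]
            show φ i = φ i - (eD * h) i
            rw [h0, sub_zero]
          · have hz := hex m hm ((φ - eD * h) i) ?_ ?_ ?_ ?_
            · obtain ⟨y, y1, y2, y3, y4⟩ := hz
              exact ⟨y, y1, y2, y3, fun _ => y4⟩
            · intro j
              exact Q.sub_mem (hφQ i j) (mem_mul Q eD h (fun i j a ha => (hQ i j a ha).2) h1 i j)
            · intro j hj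
              by_cases hf : φ i j = 0
              · have hne : (eD * h) i j ≠ 0 := by
                  intro h0
                  apply hj
                  show φ i j - (eD * h) i j = 0
                  rw [hf, h0, sub_zero]
                obtain ⟨k, hk, hk'⟩ := ex_ne _ _ _ _ hne
                rw [h2 k j hk', ← hed i k hk, hi]
              · rw [← hφd i j hf, hi]
            · rw [← Matrix.mul_apply_eq_vecMul, Matrix.sub_mul, hφp, Matrix.mul_assoc, h4]
            · rw [← Matrix.mul_apply_eq_vecMul, Matrix.sub_mul, ← heφ, Matrix.mul_assoc]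
              have : (eD * (h * e)) i = (eD * (φ - eD * h)) i := by
                refine row_congr _ _ _ _ fun k hk => ?_
                have hk' := hed i k hk
                have := h5 k (by omega)
                show (h * e) k = φ k - (eD * h) k
                rw [← this]
                show (h * e) k = (h * e) k + (eD * h) k - (eD * h) k
                rw [add_sub_cancel_right]
              show (eD * φ) i - (eD * (h * e)) i = 0
              rw [this, Matrix.mul_sub, ← Matrix.mul_assoc, hee, Matrix.zero_mul, sub_zero,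
                sub_self]
        · exact ⟨0, fun _ => Q.zero_mem, fun j hj => absurd rfl hj, Matrix.zero_vecMul _,
            fun h => absurd h hi⟩
      choose Y y1 y2 y3 y4 using hrow
      let Ym : Matrix J I A := Y
      have hYp : Ym * p = Ym := by
        funext i
        rw [Matrix.mul_apply_eq_vecMul]
        exact y3 i
      let h' : Matrix J I A := fun i => if dD i = m then (pD * Ym) i else h i
      have e1 : ∀ i, dD i = m → h' i = (pD * Ym) i := fun i hi => if_pos hi
      have e2 : ∀ i, dD i ≠ m → h' i = h i := fun i hi => if_neg hi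
      have hpY : ∀ i j, (pD * Ym) i j ∈ Q :=
        fun i j => mem_mul Q pD Ym (fun i j a ha => (hQ i j a ha).1) y1 i j
      refine ⟨h', ?_, ?_, ?_, ?_, ?_⟩
      · intro i j
        by_cases hi : dD i = m
        · rw [e1 i hi]
          exact hpY i j
        · rw [e2 i hi]
          exact h1 i j
      · intro i j hj
        by_cases hi : dD i = m
        · rw [e1 i hi] at hj
          obtain ⟨k, _, hk⟩ := ex_ne _ _ _ _ hj
          rw [y2 k j hk, hi]
        · rw [e2 i hi] at hj
          exact h2 i j hj
      · funext i
        by_cases hi : dD i = m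
        · rw [e1 i hi, row_congr pD h' (pD * Ym) i fun k hk => e1 k (by rw [← hpd i k hk, hi]),
            ← Matrix.mul_assoc, hpp]
        · rw [e2 i hi, row_congr pD h' h i fun k hk => e2 k (by rw [← hpd i k hk]; exact hi), h3]
      · funext i
        by_cases hi : dD i = m
        · rw [row_left h' (pD * Ym) p i (e1 i hi), Matrix.mul_assoc, hYp, e1 i hi]
        · rw [row_left h' h p i (e2 i hi), h4, e2 i hi]
      · intro i hi
        have hE : (eD * h') i = (eD * h) i := by
          refine row_congr _ _ _ _ fun k hk => e2 k ?_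
          have := hed i k hk
          omega
        show (h' * e) i + (eD * h') i = φ i
        rw [hE]
        by_cases hm : dD i = m
        · rw [row_left h' (pD * Ym) e i (e1 i hm), Matrix.mul_assoc,
            row_congr pD (Ym * e) (φ - eD * h) i fun k hk => by
              rw [Matrix.mul_apply_eq_vecMul]
              exact y4 k (by rw [← hpd i k hk, hm]),
            Matrix.mul_sub, hpφ, ← Matrix.mul_assoc, hpe]
          show φ i - (eD * h) i + (eD * h) i = φ i
          rw [sub_add_cancel]
        · rw [row_left h' h e i (e2 i hm)]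
          exact h5 i (by omega)
  obtain ⟨h, h1, h2, h3, h4, h5⟩ := key ((∑ i, dD i) + 1)
  refine ⟨h, h1, h2, h3, h4, ?_⟩
  funext i
  refine h5 i (Nat.lt_succ_of_le ?_)
  exact Finset.single_le_sum (f := dD) (fun _ _ => Nat.zero_le _) (Finset.mem_univ i)

end Pool.Agent.Lib.MPb6f35e.KN
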