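import Pool.Agent.Lib.MP_b6f35e_al.KN.Spec

/-!
# NIK: the endomorphism of the cone (MP_b6f35e_al, folder KN)
-/

namespace Pool.Agent.Lib.MPb6f35e.KN

open Matrix
open Pool.Agent.Lib.MP8a3537.UV (emb res lres SuppIn)

namespace NIKM

/-- Powers of a block matrix with zero right column. -/
theorem pow_blocks {A I J : Type} [Ring A] [Fintype I] [DecidableEq I] [Fintype J] [DecidableEq J]
    (μ : Matrix I I A) (h : Matrix J I A) (m : ℕ) :
    (fromBlocks μ 0 h 0 : Matrix (I ⊕ J) (I ⊕ J) A) ^ (m + 1) =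
      fromBlocks (μ ^ (m + 1)) 0 (h * μ ^ m) 0 := by
  induction m with
  | zero => simp
  | succ m ih =>
    rw [pow_succ, ih, fromBlocks_multiply]
    simp [pow_succ, Matrix.mul_assoc]

/-- A diagonal matrix commutes with a matrix which preserves its values. -/
theorem diag_comm {A I : Type} [Ring A] [Fintype I] [DecidableEq I] (d : I → A)
    (hd : ∀ i (a : A), d i * a = a * d i) (μ : Matrix I I A)
    (h : ∀ i j, μ i j ≠ 0 → d i = d j) : Matrix.diagonal d * μ = μ * Matrix.diagonal d := by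
  ext i j
  rw [Matrix.diagonal_mul, Matrix.mul_diagonal]
  by_cases h0 : μ i j = 0
  · rw [h0, mul_zero, zero_mul]
  · rw [← h i j h0]
    exact hd i _

/-- `1 + E μ` is a unit. -/
theorem unit_of {A I : Type} [Ring A] [Fintype I] [DecidableEq I] (E μ : Matrix I I A)
    (hc : Commute E μ) (hn : IsNilpotent μ) : IsUnit (1 + E * μ) := by
  refine IsNilpotent.isUnit_one_add ?_
  obtain ⟨m, hm⟩ := hn
  exact ⟨m, by rw [hc.mul_pow, hm, mul_zero]⟩

/-- The value at the block matrix. -/
theorem val {A K : Type} [Ring A] [AddCommGroup K]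
    (κ : ∀ (ι : Type) [Fintype ι], Matrix ι ι A → K)
    (h1 : ∀ (ι : Type) [Fintype ι] [DecidableEq ι], κ ι (1 : Matrix ι ι A) = 0)
    (h3 : ∀ (ι ι' : Type) [Fintype ι] [DecidableEq ι] [Fintype ι'] [DecidableEq ι']
      (a : Matrix ι ι A) (c : Matrix ι' ι A) (d : Matrix ι' ι' A), IsUnit a → IsUnit d →
      κ (ι ⊕ ι') (fromBlocks a 0 c d) = κ ι a + κ ι' d)
    {I J : Type} [Fintype I] [DecidableEq I] [Fintype J] [DecidableEq J]
    (E : Matrix I I A) (E' : Matrix J J A) (μ : Matrix I I A) (h : Matrix J I A)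
    (hu : IsUnit (1 + E * μ)) :
    κ (I ⊕ J) (1 + fromBlocks E 0 0 E' * fromBlocks μ 0 h 0) = κ I (1 + E * μ) := by
  have e : (1 + fromBlocks E 0 0 E' * fromBlocks μ 0 h 0 : Matrix (I ⊕ J) (I ⊕ J) A) =
      fromBlocks (1 + E * μ) 0 (E' * h) 1 := by
    rw [← fromBlocks_one, fromBlocks_multiply, fromBlocks_add]
    simp
  rw [e, h3 I J _ _ _ hu isUnit_one, h1, add_zero]

end NIKM

theorem specNIK (hKCL : SpecKCL) : SpecNIK := by
  intro R G K _ _ _ κ hκ L X C D f hf μ h hμ hsX hdeg hp hq hh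
  obtain ⟨k1, -, k3, -⟩ := hKCL _ _ κ hκ
  refine ⟨?_, ?_⟩
  · refine ⟨?_, ?_, ?_, ?_, ?_, ?_⟩
    · rintro (i | i) (j | j) hne
      · exact hμ.dg i j hne
      · exact absurd rfl hne
      · exact (hdeg i j hne).symm
      · exact absurd rfl hne
    · rintro (i | i) (j | j) g hne
      · exact hμ.su i j g hne
      · exact absurd rfl hne
      · exact hsX i j g hne
      · exact absurd rfl hne
    · have a1 : C.p.map (emb R L) * μ = μ := hμ.pm
      have a2 : D.p.map (emb R L) * h = h := hp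
      have a3 : ((fromBlocks C.p 0 0 D.p).map (emb R L) * fromBlocks μ 0 h 0 :
          Matrix (C.I ⊕ D.I) (C.I ⊕ D.I) (MonoidAlgebra R G)) = fromBlocks μ 0 h 0 := by
        rw [fromBlocks_map, fromBlocks_multiply]
        simp [a1, a2]
      exact a3
    · have a1 : μ * C.p.map (emb R L) = μ := hμ.mp
      have a2 : h * C.p.map (emb R L) = h := hq
      have a3 : (fromBlocks μ 0 h 0 * (fromBlocks C.p 0 0 D.p).map (emb R L) :
          Matrix (C.I ⊕ D.I) (C.I ⊕ D.I) (MonoidAlgebra R G)) = fromBlocks μ 0 h 0 := by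
        rw [fromBlocks_map, fromBlocks_multiply]
        simp [a1, a2]
      exact a3
    · have a1 : μ * C.e.map (emb R L) = C.e.map (emb R L) * μ := hμ.ch
      have a2 : h * C.e.map (emb R L) + D.e.map (emb R L) * h = f.map (emb R L) * μ := hh
      have a3 : (-D.e).map (emb R L) = -(D.e.map (emb R L)) := by
        ext1 i j
        exact map_neg (emb R L) _
      have a4 : (fromBlocks μ 0 h 0 * (fromBlocks C.e 0 f (-D.e)).map (emb R L) :
          Matrix (C.I ⊕ D.I) (C.I ⊕ D.I) (MonoidAlgebra R G)) =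
          (fromBlocks C.e 0 f (-D.e)).map (emb R L) * fromBlocks μ 0 h 0 := by
        rw [fromBlocks_map, fromBlocks_multiply, fromBlocks_multiply, a3, ← a2]
        simp [a1]
      exact a4
    · obtain ⟨m, hm⟩ := hμ.nil
      have a1 : (fromBlocks μ 0 h 0 : Matrix (C.I ⊕ D.I) (C.I ⊕ D.I) (MonoidAlgebra R G)) ^
          (m + 1 + 1) = 0 := by
        rw [NIKM.pow_blocks, pow_succ, pow_succ, hm]
        simp
      exact ⟨m + 1 + 1, a1⟩
  · have hEc : Commute (Ev C (MonoidAlgebra R G)) μ := by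
      refine NIKM.diag_comm _ ?_ μ ?_
      · intro i a
        split_ifs
        · rw [one_mul, mul_one]
        · rw [zero_mul, mul_zero]
      · intro i j hne
        rw [hμ.dg i j hne]
    have hEc' : Commute (1 - Ev C (MonoidAlgebra R G)) μ := (Commute.one_left μ).sub_left hEc
    have hEv : Ev (cone D C f hf) (MonoidAlgebra R G) =
        (fromBlocks (Ev C (MonoidAlgebra R G)) 0 0
          (Matrix.diagonal fun i => if Even (D.deg i + 1) then 1 else 0) :
          Matrix (C.I ⊕ D.I) (C.I ⊕ D.I) (MonoidAlgebra R G)) := by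
      unfold Ev
      rw [fromBlocks_diagonal]
      refine congrArg (fun d => (Matrix.diagonal d :
        Matrix (C.I ⊕ D.I) (C.I ⊕ D.I) (MonoidAlgebra R G))) ?_
      funext i
      rcases i with i | i
      · rfl
      · rfl
    have hEv' : (1 - Ev (cone D C f hf) (MonoidAlgebra R G)) =
        (fromBlocks (1 - Ev C (MonoidAlgebra R G)) 0 0
          (1 - Matrix.diagonal fun i => if Even (D.deg i + 1) then 1 else 0) :
          Matrix (C.I ⊕ D.I) (C.I ⊕ D.I) (MonoidAlgebra R G)) := by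
      rw [hEv]
      have a1 : (1 : Matrix (C.I ⊕ D.I) (C.I ⊕ D.I) (MonoidAlgebra R G)) -
          fromBlocks (Ev C (MonoidAlgebra R G)) 0 0
            (Matrix.diagonal fun i => if Even (D.deg i + 1) then 1 else 0) =
          fromBlocks (1 - Ev C (MonoidAlgebra R G)) 0 0
            (1 - Matrix.diagonal fun i => if Even (D.deg i + 1) then 1 else 0) := by
        rw [← fromBlocks_one, sub_eq_add_neg, fromBlocks_neg, fromBlocks_add]
        simp [sub_eq_add_neg]
      exact a1
    have v1 := NIKM.val κ k1 k3 (Ev C (MonoidAlgebra R G))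
      (Matrix.diagonal fun i => if Even (D.deg i + 1) then 1 else 0) μ h
      (NIKM.unit_of _ _ hEc hμ.nil)
    have v2 := NIKM.val κ k1 k3 (1 - Ev C (MonoidAlgebra R G))
      (1 - Matrix.diagonal fun i => if Even (D.deg i + 1) then 1 else 0) μ h
      (NIKM.unit_of _ _ hEc' hμ.nil)
    rw [← hEv] at v1
    rw [← hEv'] at v2
    exact congrArg₂ (· - ·) v1 v2

end Pool.Agent.Lib.MPb6f35e.KN
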