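import Pool.Agent.Lib.MP_b6f35e_al.KN.Spec

/-!
# MP_b6f35e_al, KN, module RSV (helper77): resolutions as complexes of matrices
-/

set_option autoImplicit false

namespace Pool.Agent.Lib.MPb6f35e.KN

open Matrix

namespace RSVM

section base

variable {S : Type} [Ring S] {F : Type} [AddCommGroup F] [Module S F] {m : ℕ}

/-- the idempotent. -/
def pM (π : (Fin m → S) →ₗ[S] F) (s : F →ₗ[S] (Fin m → S)) : Matrix (Fin m) (Fin m) S :=
  fun i => s (π (Pi.single i 1))

theorem vecMul_pM (π : (Fin m → S) →ₗ[S] F) (s : F →ₗ[S] (Fin m → S)) (x : Fin m → S) :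
    x ᵥ* pM π s = s (π x) := by
  have h1 : x = ∑ i, x i • (Pi.single i 1 : Fin m → S) := by
    funext j
    rw [Finset.sum_apply]
    simp [Pi.single_apply]
  conv_rhs => rw [h1]
  rw [map_sum, map_sum, Matrix.vecMul_eq_sum]
  refine Finset.sum_congr rfl fun i _ => ?_
  rw [map_smul, map_smul]
  rfl

theorem pM_idem (π : (Fin m → S) →ₗ[S] F) (s : F →ₗ[S] (Fin m → S)) (h : ∀ x, π (s x) = x) :
    pM π s * pM π s = pM π s := by
  funext i
  have h1 : (pM π s * pM π s) i = pM π s i ᵥ* pM π s := rfl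
  rw [h1, vecMul_pM]
  show s (π (s (π (Pi.single i 1)))) = s (π (Pi.single i 1))
  rw [h]

/-- the complex. -/
def C0 (π : (Fin m → S) →ₗ[S] F) (s : F →ₗ[S] (Fin m → S)) (h : ∀ x, π (s x) = x) : PC S where
  I := Fin m
  fI := inferInstance
  dI := inferInstance
  deg _ := 0
  p := pM π s
  e := 0
  hp _ _ _ := rfl
  he _ _ h0 := absurd rfl h0
  pp := pM_idem π s h
  pe := mul_zero _
  ep := zero_mul _
  ee := mul_zero _

theorem rs0 (π : (Fin m → S) →ₗ[S] F) (s : F →ₗ[S] (Fin m → S)) (h : ∀ x, π (s x) = x) :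
    Rs (C0 π s h) (N := F) π where
  low x hx := by
    have h0 : x = 0 := funext fun i => hx i rfl
    rw [h0]
    exact map_zero π
  pip x := by
    have h1 : x ᵥ* (C0 π s h).p = s (π x) := vecMul_pM π s x
    rw [h1]
    exact h _
  surj := fun x => ⟨s x, h x⟩
  zero x := by
    have h1 : x ᵥ* (C0 π s h).e = 0 := Matrix.vecMul_zero x
    rw [h1]
    exact map_zero π
  ker x _ hxp hx := by
    have h1 : x ᵥ* (C0 π s h).p = s (π x) := vecMul_pM π s x
    have h2 : x = 0 := by
      rw [← hxp, h1]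
      have h3 : π x = 0 := hx
      rw [h3]
      exact map_zero s
    subst h2
    exact ⟨0, fun i hi => absurd rfl hi, Matrix.zero_vecMul _, Matrix.zero_vecMul _⟩
  ex q hq x hx hxp hxe := by
    have h2 : x = 0 := by
      funext i
      by_contra h0
      have h1 : (0 : ℕ) = q := hx i h0
      omega
    subst h2
    exact ⟨0, fun i hi => absurd rfl hi, Matrix.zero_vecMul _, Matrix.zero_vecMul _⟩

end base

theorem exists0 (S : Type) [Ring S] (F : Type) [AddCommGroup F] [Module S F] [Module.Finite S F]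
    [Module.Projective S F] : ∃ (C : PC S) (pi : (C.I → S) →ₗ[S] F), Rs C pi := by
  obtain ⟨m, π, hπ⟩ := Module.Finite.exists_fin' S F
  obtain ⟨s, hs⟩ := Module.projective_lifting_property π LinearMap.id hπ
  have h : ∀ x, π (s x) = x := fun x => LinearMap.congr_fun hs x
  exact ⟨C0 π s h, π, rs0 π s h⟩

end RSVM

open RSVM in
theorem specRSV (hLFK : SpecLFK) (hCNK : SpecCNK) : SpecRSV := by
  intro S _ n
  induction n with
  | zero =>
    intro M _ _ h
    obtain ⟨h1, h2⟩ := h
    exact exists0 S M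
  | succ n ih =>
    intro M _ _ h
    obtain ⟨F, iF, iM, f, h1, h2, hf, h3⟩ := h
    obtain ⟨C, pi, hC⟩ := exists0 S F
    obtain ⟨D, rho, hD⟩ := ih (LinearMap.ker f) h3
    obtain ⟨φ, hφ, hφ2⟩ := hLFK S C D F pi ((LinearMap.ker f).subtype ∘ₗ rho) hC
      (fun x hx => by rw [LinearMap.comp_apply, hD.low x hx, map_zero])
      (fun x => by rw [LinearMap.comp_apply, hD.pip, LinearMap.comp_apply])
      (fun x => by rw [LinearMap.comp_apply, hD.zero, map_zero])
    obtain ⟨pi', -, h5⟩ := hCNK S C D F M f pi rho φ hφ hf hC hD hφ2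
    exact ⟨cone D C φ hφ, pi', h5⟩

end Pool.Agent.Lib.MPb6f35e.KN
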