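import Pool.Agent.Lib.MP_b6f35e_al.KN.Spec
import Pool.Agent.Lib.MP_8a3537_gt.UV.RES

/-!
# ST0: the state after `0` steps
-/

namespace Pool.Agent.Lib.MPb6f35e.KN

open Matrix
open Pool.Agent.Lib.MP8a3537.UV (emb res lres SuppIn RESAux.emb_coeff_mem)

namespace ST0M

variable {R G : Type} [Ring R] [Group G]

theorem emb_inj (L : Subgroup G) (s : MonoidAlgebra R L) (h : emb R L s = 0) : s = 0 := by
  ext x
  rw [← RESAux.emb_coeff_mem L s x, h]
  simp

/-- The complex with `S^ι` in degree `0`. -/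
noncomputable def pc (L : Subgroup G) (ι : Type) [Fintype ι] [DecidableEq ι] : PC (MonoidAlgebra R L) where
  I := ι
  fI := inferInstance
  dI := inferInstance
  deg := fun _ => 0
  p := 1
  e := 0
  hp := fun _ _ _ => rfl
  he := fun _ _ h => absurd rfl h
  pp := by simp
  pe := by simp
  ep := by simp
  ee := by simp

theorem er_zero (L : Subgroup G) {ι : Type} [Fintype ι] [DecidableEq ι]
    (ν : Matrix ι ι (MonoidAlgebra R G)) (x : ι → MonoidAlgebra R L) (h : x ∈ Kj L ν 0) :
    x = 0 := by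
  rw [mem_Kj, pow_zero, vecMul_one] at h
  funext i
  exact emb_inj L (x i) (congrFun h i)

end ST0M

open ST0M in
theorem specST0 (hKCL : SpecKCL) : SpecST0 := by
  intro R G K _ _ _ κ hκ L X ι _ _ ν hX hν
  have h1 := (hKCL (MonoidAlgebra R G) K κ hκ).1
  let C : PC (MonoidAlgebra R L) := pc L ι
  have hem : (1 : Matrix ι ι (MonoidAlgebra R L)).map (emb R L) = 1 :=
    Matrix.map_one _ (map_zero _) (map_one _)
  have hem0 : (0 : Matrix ι ι (MonoidAlgebra R L)).map (emb R L) = 0 :=
    Matrix.map_zero _ (map_zero _)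
  refine ⟨C, ν, (1 : Matrix ι ι (MonoidAlgebra R L)), (Kj L ν 0).mkQ, ?_, ?_⟩
  · refine ⟨⟨fun _ _ _ => rfl, hX, ?_, ?_, ?_, hν⟩, ⟨?_, ?_, ?_, ?_, ?_, ?_⟩, ?_, ?_, ?_, ?_⟩
    · show (1 : Matrix ι ι (MonoidAlgebra R L)).map (emb R L) * ν = ν
      rw [hem, one_mul]
    · show ν * (1 : Matrix ι ι (MonoidAlgebra R L)).map (emb R L) = ν
      rw [hem, mul_one]
    · show ν * (0 : Matrix ι ι (MonoidAlgebra R L)).map (emb R L) =
        (0 : Matrix ι ι (MonoidAlgebra R L)).map (emb R L) * ν
      rw [hem0, mul_zero, zero_mul]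
    · intro x hx
      have : x = 0 := funext fun i => hx i rfl
      rw [this, map_zero]
    · intro (x : ι → MonoidAlgebra R L)
      exact congrArg (Kj L ν 0).mkQ (vecMul_one x)
    · exact Submodule.mkQ_surjective (Kj L ν 0)
    · intro (x : ι → MonoidAlgebra R L)
      exact (congrArg (Kj L ν 0).mkQ (vecMul_zero x)).trans (map_zero (Kj L ν 0).mkQ)
    · intro (x : ι → MonoidAlgebra R L) _ _ hx
      have hx' : x ∈ Kj L ν 0 := (Submodule.Quotient.mk_eq_zero (Kj L ν 0)).1 hx
      have hx0 : x = 0 := er_zero L ν x hx'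
      refine ⟨(0 : ι → MonoidAlgebra R L), fun i hi => absurd rfl hi, ?_, ?_⟩
      · exact zero_vecMul (1 : Matrix ι ι (MonoidAlgebra R L))
      · rw [hx0]; exact zero_vecMul (0 : Matrix ι ι (MonoidAlgebra R L))
    · intro q hq (x : ι → MonoidAlgebra R L) hx _ _
      have hx0 : x = 0 := by
        funext i
        by_contra h
        have := hx i h
        change 0 = q at this
        omega
      refine ⟨(0 : ι → MonoidAlgebra R L), fun i hi => absurd rfl hi,
        zero_vecMul (1 : Matrix ι ι (MonoidAlgebra R L)), ?_⟩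
      rw [hx0]; exact zero_vecMul (0 : Matrix ι ι (MonoidAlgebra R L))
    · intro i j _; rfl
    · exact one_mul (1 : Matrix ι ι (MonoidAlgebra R L))
    · show (1 : Matrix ι ι (MonoidAlgebra R L)).map (emb R L) * ν
        = ν * (1 : Matrix ι ι (MonoidAlgebra R L)).map (emb R L)
      rw [hem, one_mul, mul_one]
    · intro c
      exact congrArg (Kj L ν 0).mkQ (vecMul_one c)
  · have hE : Matrix.diagonal (fun _ : ι => if Even (0 : ℕ) then (1 : MonoidAlgebra R G) else 0) =
        (1 : Matrix ι ι (MonoidAlgebra R G)) := by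
      simp
    have hE2 : κ ι (1 + Matrix.diagonal (fun _ : ι => if Even (0 : ℕ) then
          (1 : MonoidAlgebra R G) else 0) * ν) -
        κ ι (1 + (1 - Matrix.diagonal (fun _ : ι => if Even (0 : ℕ) then
          (1 : MonoidAlgebra R G) else 0)) * ν) = κ ι (1 + ν) := by
      rw [hE, one_mul, sub_self, zero_mul, add_zero, h1 ι, sub_zero]
    exact hE2

end Pool.Agent.Lib.MPb6f35e.KN
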