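import Pool.Agent.Lib.MP_b6f35e_al.KN.Spec

/-! Module STP (helper23): one step. -/

namespace Pool.Agent.Lib.MPb6f35e.KN

open Matrix
open Pool.Agent.Lib.MP8a3537.UV (emb res lres SuppIn)
open Pool.Agent.Lib.MP8a3537.RO (Bi dc Kg cut)
open Pool.Agent.Lib.MP8a3537.ROK (TM)

theorem specSTP (hKFP : SpecKFP) (hRSV : SpecRSV) (hLFK : SpecLFK) (hKNL : SpecKNL)
    (hHTK : SpecHTK) (hCNK : SpecCNK) (hNIK : SpecNIK) : SpecSTP := by
  intro R G K _ _ _ κ hκ L X Y hTD hreg ι _ _ ν hν j ⟨C, μ, b, pi, hst, hts⟩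
  have hfp := hKFP R G L ι ν j hreg
  obtain ⟨m, hm⟩ := hreg _ hfp
  obtain ⟨D, rho, hD⟩ := hRSV _ m _ hm
  obtain ⟨f, hf, hfr⟩ := hLFK _ C D _ pi ((LinearMap.ker (th L ν j)).subtype ∘ₗ rho) hst.rs
    (fun x hx => by
      rw [LinearMap.comp_apply, hD.low x hx, map_zero])
    (fun x => by rw [LinearMap.comp_apply, LinearMap.comp_apply, hD.pip])
    (fun x => by rw [LinearMap.comp_apply, hD.zero, map_zero])
  have hfr' : ∀ x, pi (x ᵥ* f) = ((rho x : LinearMap.ker (th L ν j)) :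
      (ι → MonoidAlgebra R L) ⧸ Kj L ν j) := fun x => hfr x
  have hk := hKNL R G L X Y hTD ι ν hν j C μ b pi hst D rho f hf hfr'
  obtain ⟨h, h1, h2, h3, h4, h5⟩ := hHTK R G L X (hTD.hz () ()) (hTD.zh () ()) C D _ pi hst.rs f hf
    μ hst.ns hk
  obtain ⟨hns, hts'⟩ := hNIK R G K κ hκ L X C D f hf μ h hst.ns h1 h2 h3 h4 h5
  have hsurj : Function.Surjective (th L ν j) := by
    intro y
    obtain ⟨c, rfl⟩ := Submodule.Quotient.mk_surjective _ y
    exact ⟨Submodule.Quotient.mk c, Submodule.factor_mk (Kj_le L ν j) c⟩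
  obtain ⟨pi', hpi', hRs⟩ := hCNK _ C D _ _ (th L ν j) pi rho f hf hsurj hst.rs hD hfr'
  refine ⟨cone D C f hf, fromBlocks μ 0 h 0, fromCols b 0, pi', ⟨hns, hRs, ?_, ?_, ?_, ?_⟩, ?_⟩
  · rintro i (k | k) hk'
    · exact hst.dg i k hk'
    · exact absurd rfl hk'
  · show fromCols b (0 : Matrix ι D.I (MonoidAlgebra R L)) * fromBlocks C.p 0 0 D.p = fromCols b 0
    rw [fromCols_mul_fromBlocks]
    simp [hst.bp]
  · have e1 : em L (fromCols b (0 : Matrix ι D.I (MonoidAlgebra R L))) =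
        fromCols (em L b) (0 : Matrix ι D.I (MonoidAlgebra R G)) := by
      ext1 i k
      rcases k with k | k
      · rfl
      · exact map_zero (emb R L)
    show em L (fromCols b (0 : Matrix ι D.I (MonoidAlgebra R L))) *
      (fromBlocks μ 0 h 0 : Matrix (C.I ⊕ D.I) (C.I ⊕ D.I) (MonoidAlgebra R G)) =
      ν * em L (fromCols b (0 : Matrix ι D.I (MonoidAlgebra R L)))
    rw [e1, fromCols_mul_fromBlocks, mul_fromCols]
    simp [hst.bm]
  · intro c
    have e1 := hpi' (c ᵥ* fromCols b (0 : Matrix ι D.I (MonoidAlgebra R L)))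
    have e2 : (fun i => (c ᵥ* fromCols b (0 : Matrix ι D.I (MonoidAlgebra R L))) (Sum.inl i)) =
        c ᵥ* b := rfl
    rw [e2, hst.bc] at e1
    exact e1.trans (Submodule.factor_mk (Kj_le L ν j) c)
  · exact hts'.trans hts

end Pool.Agent.Lib.MPb6f35e.KN
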