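import Pool.Agent.Lib.MP_b6f35e_al.KN.Spec

/-!
# The support of the new block (module SUK)
-/

namespace Pool.Agent.Lib.MPb6f35e.KN

open Matrix
open Pool.Agent.Lib.MP8a3537.UV (emb res lres SuppIn)
open Pool.Agent.Lib.MP8a3537.RO (Bi dc Kg cut)

namespace SUKM

section Alg

variable {R G : Type} [Ring R] [Group G]

theorem coeff_mul_ne (x y : MonoidAlgebra R G) (g : G) (h : (x * y).coeff g ≠ 0) :
    ∃ u v, x.coeff u ≠ 0 ∧ y.coeff v ≠ 0 ∧ u * v = g := by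
  classical
  have := MonoidAlgebra.support_coeff_mul_subset x y (Finsupp.mem_support_iff.2 h)
  obtain ⟨u, hu, v, hv, e⟩ := Finset.mem_mul.1 this
  exact ⟨u, v, Finsupp.mem_support_iff.1 hu, Finsupp.mem_support_iff.1 hv, e⟩

theorem entry_mul_ne {l m n : Type} [Fintype m] (M : Matrix l m (MonoidAlgebra R G))
    (N : Matrix m n (MonoidAlgebra R G)) (i : l) (j : n) (g : G)
    (hg : ((M * N) i j).coeff g ≠ 0) :
    ∃ k u v, (M i k).coeff u ≠ 0 ∧ (N k j).coeff v ≠ 0 ∧ u * v = g := by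
  rw [Matrix.mul_apply, MonoidAlgebra.coeff_sum, Finsupp.finsetSum_apply] at hg
  obtain ⟨k, -, hk⟩ := Finset.exists_ne_zero_of_sum_ne_zero hg
  obtain ⟨u, v, hu, hv, e⟩ := coeff_mul_ne _ _ _ hk
  exact ⟨k, u, v, hu, hv, e⟩

theorem coeff_one_ne (g : G) (h : (1 : MonoidAlgebra R G).coeff g ≠ 0) : g = 1 := by
  classical
  by_contra hne
  apply h
  rw [MonoidAlgebra.one_def, MonoidAlgebra.coeff_single, Finsupp.single_apply,
    if_neg (Ne.symm hne)]

end Alg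

section Words

variable {G S : Type} [Group G] {H : Subgroup G} {Z : S → S → Set G} {Y : S → Set G}

theorem dc_left {g h x : G} (hh : h ∈ H) (hx : h * x ∈ dc H g) : x ∈ dc H g := by
  obtain ⟨a, ha, b, hb, e⟩ := hx
  exact ⟨h⁻¹ * a, H.mul_mem (H.inv_mem hh) ha, b, hb, by rw [mul_assoc, mul_assoc, ← mul_assoc a, ← e]; group⟩

theorem dc_right {g h x : G} (hh : h ∈ H) (hx : x * h ∈ dc H g) : x ∈ dc H g := by
  obtain ⟨a, ha, b, hb, e⟩ := hx
  exact ⟨a, ha, b * h⁻¹, H.mul_mem hb (H.inv_mem hh), by rw [← mul_assoc, ← e]; group⟩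

theorem Za_left (htd : TD H Z Y) (s t : S) (g : G) (a b : S) (h : G) (hh : h ∈ H) (x : G)
    (hx : x ∈ Za H Z s t g a b) : h * x ∈ Za H Z s t g a b :=
  ⟨htd.hz a b h hh x hx.1, fun hc => hx.2 ⟨hc.1, hc.2.1, dc_left hh hc.2.2⟩⟩

theorem Za_right (htd : TD H Z Y) (s t : S) (g : G) (a b : S) (h : G) (hh : h ∈ H) (x : G)
    (hx : x ∈ Za H Z s t g a b) : x * h ∈ Za H Z s t g a b :=
  ⟨htd.zh a b h hh x hx.1, fun hc => hx.2 ⟨hc.1, hc.2.1, dc_right hh hc.2.2⟩⟩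

theorem Wo_left {Z' : S → S → Set G} {a b : S} {w : G} (hw : Wo H Z' a b w) (h : G)
    (hh : h ∈ H) : Wo H Z' a b (h * w) := by
  induction hw with
  | base hw => exact Wo.base (H.mul_mem hh hw)
  | snoc _ hx ih =>
    rw [← mul_assoc]
    exact Wo.snoc ih hx

theorem Wo_right {Z' : S → S → Set G} (hz : ∀ a b, ∀ h ∈ H, ∀ x ∈ Z' a b, x * h ∈ Z' a b)
    {a b : S} {w : G} (hw : Wo H Z' a b w) (h : G) (hh : h ∈ H) : Wo H Z' a b (w * h) := by
  cases hw with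
  | base hw => exact Wo.base (H.mul_mem hw hh)
  | snoc hw hx =>
    rw [mul_assoc]
    exact Wo.snoc hw (hz _ _ h hh _ hx)

end Words

section Powers

variable {R G S : Type} [Ring R] [Group G] {H : Subgroup G} {Z' : S → S → Set G}
  {ι : Type} [Fintype ι] [DecidableEq ι] {τ : ι → S} {ν0 : Matrix ι ι (MonoidAlgebra R G)}

theorem pow_supp (hν : Ty Z' τ ν0) (k : ℕ) : ∀ i j g, (((-ν0) ^ k) i j).coeff g ≠ 0 →
    Wo H Z' (τ i) (τ j) g := by
  induction k with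
  | zero =>
    intro i j g hg
    rw [pow_zero, Matrix.one_apply] at hg
    by_cases hij : i = j
    · rw [if_pos hij] at hg
      rw [coeff_one_ne g hg, hij]
      exact Wo.base H.one_mem
    · rw [if_neg hij] at hg
      exact absurd (by simp) hg
  | succ k ih =>
    intro i j g hg
    rw [pow_succ] at hg
    obtain ⟨q, u, v, hu, hv, e⟩ := entry_mul_ne _ _ i j g hg
    rw [← e]
    refine Wo.snoc (ih i q u hu) (hν q j v ?_)
    intro h0
    apply hv
    rw [Matrix.neg_apply, MonoidAlgebra.coeff_neg, Finsupp.neg_apply, h0, neg_zero]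

theorem Wn_supp (hν : Ty Z' τ ν0) (N : ℕ) (i j : ι) (g : G) (hg : ((Wn N ν0) i j).coeff g ≠ 0) :
    Wo H Z' (τ i) (τ j) g := by
  unfold Wn at hg
  rw [Matrix.sum_apply, MonoidAlgebra.coeff_sum, Finsupp.finsetSum_apply] at hg
  obtain ⟨k, -, hk⟩ := Finset.exists_ne_zero_of_sum_ne_zero hg
  exact pow_supp hν k i j g hk

end Powers

end SUKM

open SUKM in
theorem specSUK : SpecSUK := by
  intro R G S _ _ H Z Y htd s t g ι ρ _ _ _ _ τ ν0 x y z N hν hx hy hz k l u hu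
  obtain ⟨i, u1, v, hu1, hv, e1⟩ := entry_mul_ne _ _ k l u hu
  obtain ⟨j, u2, w, hu2, hw, e2⟩ := entry_mul_ne _ _ k i u1 hu1
  obtain ⟨m, a, b, ha, hb, e3⟩ := entry_mul_ne _ _ k j u2 hu2
  have hag : a = g := hy k m a ha
  obtain ⟨hbH, htj⟩ := hz m j b hb
  obtain ⟨hvH, hsi⟩ := hx i l v hv
  have hW := Wn_supp (H := H) hν N j i w hw
  rw [htj, hsi] at hW
  refine ⟨b * w * v, ?_, ?_⟩
  · exact Wo_right (fun a' b' h hh x' hx' => Za_right htd s t g a' b' h hh x' hx')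
      (Wo_left hW b hbH) v hvH
  · rw [← e1, ← e2, ← e3, hag]
    simp only [mul_assoc]

end Pool.Agent.Lib.MPb6f35e.KN
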