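import Pool.Agent.Lib.MP_b6f35e_al.KN.Good
import Pool.Agent.Lib.MP_b6f35e_al.KN.KCL
import Pool.Agent.Lib.MP_b6f35e_al.KN.KIN
import Pool.Agent.Lib.MP_b6f35e_al.KN.JNK
import Pool.Agent.Lib.MP_b6f35e_al.KN.ELA
import Pool.Agent.Lib.MP_b6f35e_al.KN.FAK
import Pool.Agent.Lib.MP_b6f35e_al.KN.SUK
import Pool.Agent.Lib.MP_b6f35e_al.KN.BLT
import Pool.Agent.Lib.MP_b6f35e_al.KN.ELK
import Pool.Agent.Lib.MP_b6f35e_al.KN.BGE
import Pool.Agent.Lib.MP_b6f35e_al.KN.EGE
import Pool.Agent.Lib.MP_b6f35e_al.KN.ETD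
import Pool.Agent.Lib.MP_b6f35e_al.KN.COK
import Pool.Agent.Lib.MP_b6f35e_al.KN.LFK
import Pool.Agent.Lib.MP_b6f35e_al.KN.CNK
import Pool.Agent.Lib.MP_b6f35e_al.KN.RSV
import Pool.Agent.Lib.MP_b6f35e_al.KN.KFP
import Pool.Agent.Lib.MP_b6f35e_al.KN.FLX
import Pool.Agent.Lib.MP_b6f35e_al.KN.NHT
import Pool.Agent.Lib.MP_b6f35e_al.KN.HTK
import Pool.Agent.Lib.MP_b6f35e_al.KN.CTK
import Pool.Agent.Lib.MP_b6f35e_al.KN.NIK
import Pool.Agent.Lib.MP_b6f35e_al.KN.ACK
import Pool.Agent.Lib.MP_b6f35e_al.KN.WSJ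
import Pool.Agent.Lib.MP_b6f35e_al.KN.KNL
import Pool.Agent.Lib.MP_b6f35e_al.KN.ST0
import Pool.Agent.Lib.MP_b6f35e_al.KN.STP
import Pool.Agent.Lib.MP_b6f35e_al.KN.BAS

/-! The theorem without hypotheses. -/

namespace Pool.Agent.Lib.MPb6f35e.KN

theorem mELK : SpecELK := specELK specKCL specJNK specELA specFAK specSUK

theorem mST0 : SpecST0 := specST0 specKCL

theorem mSTP : SpecSTP :=
  specSTP (specKFP specCOK) (specRSV specLFK specCNK) specLFK (specKNL specWSJ)
    (specHTK specFLX specNHT) specCNK (specNIK specKCL)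

theorem mBAS : SpecBAS := specBAS mST0 mSTP (specCTK specNHT) (specACK specKCL)

theorem main : SpecMainG := mainG specKIN mELK specBLT specBGE specEGE specETD mBAS

/-- The version with long segments. -/
theorem main_long : SpecMain := by
  intro R G V _ _ _ T v w k hT hG hvw hinv hk
  have hTM : Pool.Agent.Lib.MP8a3537.ROK.TM G (V := V) T.dist :=
    Pool.Agent.Lib.MP8a3537.ROK.specFPT G V T hT hG
  have hd : T.dist v w = 1 := SimpleGraph.dist_eq_one_iff_adj.mpr hvw
  refine main R G V T v w hT hG hvw hinv fun s t g hg => ?_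
  have hgeo := specEGE G V T v w hT hG hvw hinv
  obtain ⟨-, h2, -⟩ := specBGE G V Bool T.dist hTM _ _ _ _ hgeo s t g hg
  let P : V → V → Prop := fun x y =>
    T.dist x y = T.dist x v + 1 + T.dist w y ∨ T.dist x y = T.dist x w + 1 + T.dist v y
  have hPe : ∀ x y z, P x y → Btw T.dist x y z → P x z := by
    intro x y z hP hB
    have hB' : T.dist x z = T.dist x y + T.dist y z := hB
    rcases hP with hP | hP
    · left
      have t1 := hTM.tri w y z
      have t2 := hTM.tri x v z
      have t3 := hTM.tri v w z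
      omega
    · right
      have t1 := hTM.tri v y z
      have t2 := hTM.tri x w z
      have t3 := hTM.tri w v z
      have t4 := hTM.cm w v
      omega
  refine GoodM.gd_of_long hTM (P := P) k hPe ?_ k _ _ (Nat.le_add_left _ _) (hPe _ _ _ ?_ h2)
  · intro x y hxy hP
    rcases hP with hP | hP
    · exact hk x y hxy hP
    · have h1 : T.dist y x = T.dist y v + 1 + T.dist w x := by
        rw [T.dist_comm (u := y) (v := x), T.dist_comm (u := y) (v := v),
          T.dist_comm (u := w) (v := x), hP]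
        omega
      have h3 := hk y x (by rw [T.dist_comm]; exact hxy) h1
      rw [inf_comm]
      exact h3
  · cases s
    · right
      show T.dist w v = T.dist w w + 1 + T.dist v v
      rw [SimpleGraph.dist_self, SimpleGraph.dist_self, T.dist_comm, hd]
    · left
      show T.dist v w = T.dist v v + 1 + T.dist w w
      rw [SimpleGraph.dist_self, SimpleGraph.dist_self, hd]

end Pool.Agent.Lib.MPb6f35e.KN
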