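import Pool.Agent.Lib.MP_b6f35e_al.KN.SpecC
import Pool.Agent.Lib.MP_b6f35e_al.KN.GlueMain

/-!
# KN part C, module PEQ (helper72): the two forms of the property
-/

set_option autoImplicit false

namespace Pool.Agent.Lib.MPb6f35e.KN

open Matrix
open Pool.Agent.Lib.MP8a3537.UV (emb res lres SuppIn)

namespace PEQM

section Base

variable {A K : Type} [Ring A] [AddCommGroup K]

/-- A function like `K_1` respects the relations of `K_1(A)`. -/
theorem lift_rel (hKCL : SpecKCL) {κ : ∀ (ι : Type) [Fintype ι], Matrix ι ι A → K} (hκ : KF κ)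
    (y : FreeAbelianGroup (D1.GenA A)) (hy : D1.RelA A y) :
    FreeAbelianGroup.lift (fun a : D1.GenA A => κ (Fin a.1) a.2.val) y = 0 := by
  obtain ⟨-, k2, -, -⟩ := hKCL A K κ hκ
  cases hy with
  | mul n a b =>
    rw [map_sub, map_sub, FreeAbelianGroup.lift_apply_of, FreeAbelianGroup.lift_apply_of,
      FreeAbelianGroup.lift_apply_of]
    show κ (Fin n) (a * b).val - κ (Fin n) a.val - κ (Fin n) b.val = 0
    rw [Units.val_mul, hκ.mul (Fin n) _ _ a.isUnit b.isUnit]
    abel
  | block m n a b x c h =>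
    rw [map_sub, map_sub, FreeAbelianGroup.lift_apply_of, FreeAbelianGroup.lift_apply_of,
      FreeAbelianGroup.lift_apply_of]
    show κ (Fin (m + n)) c.val - κ (Fin m) a.val - κ (Fin n) b.val = 0
    have h1 := GlueM.kf_reindex hκ (finSumFinEquiv : Fin m ⊕ Fin n ≃ Fin (m + n)) c.val c.isUnit
    have h2 : c.val.submatrix (finSumFinEquiv : Fin m ⊕ Fin n ≃ Fin (m + n))
        (finSumFinEquiv : Fin m ⊕ Fin n ≃ Fin (m + n)) = fromBlocks a.val x 0 b.val := by
      rw [h]
      unfold D1.block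
      ext i j
      simp
    rw [h1, h2, k2 (Fin m) (Fin n) _ x _ a.isUnit b.isUnit]
    abel

/-- The homomorphism given by a function like `K_1`. -/
theorem exists_hom (hKCL : SpecKCL) {κ : ∀ (ι : Type) [Fintype ι], Matrix ι ι A → K}
    (hκ : KF κ) : ∃ f : D1.Grp (D1.RelA A) →+ K, ∀ (n : ℕ) (u : (Matrix (Fin n) (Fin n) A)ˣ),
      f (D1.cls (D1.RelA A) ⟨n, u⟩) = κ (Fin n) u.val := by
  have h1 : AddSubgroup.closure {y | D1.RelA A y} ≤
      (FreeAbelianGroup.lift (fun a : D1.GenA A => κ (Fin a.1) a.2.val)).ker := by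
    rw [AddSubgroup.closure_le]
    intro y hy
    exact lift_rel hKCL hκ y hy
  refine ⟨QuotientAddGroup.lift _ (FreeAbelianGroup.lift
    (fun a : D1.GenA A => κ (Fin a.1) a.2.val)) h1, fun n u => ?_⟩
  show FreeAbelianGroup.lift (fun a : D1.GenA A => κ (Fin a.1) a.2.val)
    (FreeAbelianGroup.of ⟨n, u⟩) = _
  rw [FreeAbelianGroup.lift_apply_of]

end Base

variable {R G : Type} [Ring R] [Group G]

theorem isUnit_single (g : G) : IsUnit (MonoidAlgebra.single g 1 : MonoidAlgebra R G) := by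
  refine ⟨⟨MonoidAlgebra.single g 1, MonoidAlgebra.single g⁻¹ 1, ?_, ?_⟩, rfl⟩
  · rw [MonoidAlgebra.single_mul_single, mul_inv_cancel, mul_one]
    rfl
  · rw [MonoidAlgebra.single_mul_single, inv_mul_cancel, mul_one]
    rfl

theorem isUnit_diag {A : Type} [Ring A] {a : A} (ha : IsUnit a) :
    IsUnit (Matrix.diagonal fun _ : Fin 1 => a) := by
  obtain ⟨u, rfl⟩ := ha
  refine ⟨⟨Matrix.diagonal fun _ => u.val, Matrix.diagonal fun _ => u.inv, ?_, ?_⟩, rfl⟩
  · rw [Matrix.diagonal_mul_diagonal, ← Matrix.diagonal_one]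
    congr 1
    funext i
    exact u.val_inv
  · rw [Matrix.diagonal_mul_diagonal, ← Matrix.diagonal_one]
    congr 1
    funext i
    exact u.inv_val

end PEQM

open PEQM in
theorem specPEQ (hKCL : SpecKCL) (hKIN : SpecKIN) (hDGK : SpecDGK) : SpecPEQ := by
  intro R G _ _
  constructor
  · intro hW m K _ κ hκ N h1 h2 ι _ _ M hM
    obtain ⟨f, hf⟩ := exists_hom hKCL hκ
    have hle : N.comap f = ⊤ := by
      rw [eq_top_iff, ← hW m, AddSubgroup.closure_le]
      rintro x (⟨n, u, hu, rfl⟩ | ⟨u, g, hu, rfl⟩)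
      · show f _ ∈ N
        rw [hf]
        exact h1 (Fin n) u.val u.isUnit hu
      · show f _ ∈ N
        rw [hf]
        have h3 : u.val = Matrix.diagonal fun _ : Fin 1 =>
            (MonoidAlgebra.single g 1 : MonoidAlgebra R (G × Zm m)) := by
          ext i j : 2
          rw [Subsingleton.elim i 0, Subsingleton.elim j 0, hu, Matrix.diagonal_apply_eq]
        rw [h3]
        exact h2 (Fin 1) fun _ => g
    obtain ⟨u, hu⟩ := GlueM.isUnit_submatrix (Fintype.equivFin ι).symm M hM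
    rw [GlueM.kf_reindex hκ (Fintype.equivFin ι).symm M hM, ← hu, ← hf]
    have h4 : D1.cls (D1.RelA (MonoidAlgebra R (G × Zm m))) ⟨Fintype.card ι, u⟩ ∈ N.comap f := by
      rw [hle]
      exact AddSubgroup.mem_top _
    exact h4
  · intro hP m
    obtain ⟨κ, hκ, hκu⟩ := hKIN (MonoidAlgebra R (G × Zm m))
    refine GlueM.closure_cls _ _ fun a => ?_
    obtain ⟨n, u⟩ := a
    rw [← hκu n u]
    refine hP m _ κ hκ _ ?_ ?_ (Fin n) u.val u.isUnit
    · intro ι _ _ M hM hs
      rw [GlueM.kf_reindex hκ (Fintype.equivFin ι).symm M hM]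
      obtain ⟨b, hb⟩ := GlueM.isUnit_submatrix (Fintype.equivFin ι).symm M hM
      rw [← hb, hκu]
      refine AddSubgroup.subset_closure (Or.inl ⟨_, b, ?_, rfl⟩)
      intro i j g hg
      rw [hb] at hg
      exact hs _ _ g hg
    · intro ι _ _ f
      refine hDGK _ _ κ hκ _ {a | ∃ g : G × Zm m, a = MonoidAlgebra.single g 1} ?_ ?_ ι _
        (fun i => ⟨f i, rfl⟩)
      · rintro a ⟨g, rfl⟩
        exact isUnit_single g
      · rintro a ⟨g, rfl⟩
        obtain ⟨b, hb⟩ := isUnit_diag (isUnit_single (R := R) g)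
        rw [← hb, hκu]
        refine AddSubgroup.subset_closure (Or.inr ⟨b, g, ?_, rfl⟩)
        rw [hb, Matrix.diagonal_apply_eq]

end Pool.Agent.Lib.MPb6f35e.KN
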