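import Pool.Agent.Lib.MP_b6f35e_al.KN.SpecL

/-! # PMK: permutation matrices of odd order -/

namespace Pool.Agent.Lib.MPb6f35e.KN

open Matrix

namespace PMKM

section Basic

variable {X : Type} [Fintype X] [DecidableEq X]

/-- The permutation matrix. -/
def pm (A : Type) [Ring A] (σ : Equiv.Perm X) : Matrix X X A :=
  Matrix.of fun i j => if σ i = j then 1 else 0

variable {A : Type} [Ring A]

theorem pm_mul (σ τ : Equiv.Perm X) : pm A σ * pm A τ = pm A (τ * σ) := by
  ext i k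
  rw [Matrix.mul_apply, Finset.sum_eq_single (σ i)]
  · simp [pm]
  · intro x _ hx
    simp [pm, hx.symm]
  · intro h
    exact absurd (Finset.mem_univ _) h

omit [Fintype X] in
theorem pm_one : pm A (1 : Equiv.Perm X) = 1 := by
  ext i j
  simp [pm, Matrix.one_apply]

theorem pm_unit (σ : Equiv.Perm X) : IsUnit (pm A σ) :=
  ⟨⟨pm A σ, pm A σ⁻¹, by rw [pm_mul, inv_mul_cancel, pm_one],
    by rw [pm_mul, mul_inv_cancel, pm_one]⟩, rfl⟩

variable {K : Type} [AddCommGroup K] {κ : ∀ (ι : Type) [Fintype ι], Matrix ι ι A → K}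

theorem chi_mul (hκ : KF κ) (σ τ : Equiv.Perm X) :
    κ X (pm A (τ * σ)) = κ X (pm A σ) + κ X (pm A τ) := by
  rw [← pm_mul]
  exact hκ.mul X _ _ (pm_unit σ) (pm_unit τ)

theorem chi_one (hκ : KF κ) : κ X (pm A (1 : Equiv.Perm X)) = 0 := by
  have h := chi_mul hκ (1 : Equiv.Perm X) 1
  rw [mul_one] at h
  simpa using h

theorem chi_pow (hκ : KF κ) (σ : Equiv.Perm X) (n : ℕ) :
    κ X (pm A (σ ^ n)) = n • κ X (pm A σ) := by
  induction n with
  | zero => rw [pow_zero, zero_smul, chi_one hκ]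
  | succ n ih => rw [pow_succ, chi_mul hκ, ih, succ_nsmul, add_comm]

theorem chi_two (hκ : KF κ) (σ : Equiv.Perm X) : 2 • κ X (pm A σ) = 0 := by
  induction σ using Equiv.Perm.swap_induction_on with
  | one => rw [chi_one hκ, smul_zero]
  | swap_mul f x y hxy ih =>
    rw [chi_mul hκ, smul_add, ih, zero_add, ← chi_pow hκ, pow_two, Equiv.swap_mul_self,
      chi_one hκ]

end Basic

end PMKM

open PMKM in
/-- **PMK**. -/
theorem specPMK : SpecPMK := by
  intro A K _ _ κ hκ X _ _ σ n hn h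
  show κ X (pm A σ) = 0
  obtain ⟨k, rfl⟩ := hn
  have h1 : (2 * k + 1) • κ X (pm A σ) = 0 := by
    rw [← chi_pow hκ, h, chi_one hκ]
  rw [add_smul, one_smul, mul_comm, mul_smul, chi_two hκ, smul_zero, zero_add] at h1
  exact h1

end Pool.Agent.Lib.MPb6f35e.KN
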