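import Pool.Agent.Lib.MP_b6f35e_al.KN.SpecC

set_option autoImplicit false

/-!
# MP_b6f35e_al, KN part C: module QGR (helper49), the index of a group element
-/

namespace Pool.Agent.Lib.MPb6f35e.KN

open Matrix

namespace QGRM

variable {R Γ : Type} [Ring R] [Group Γ]

theorem single_mul_inv (g : Γ) :
    (MonoidAlgebra.single g 1 : MonoidAlgebra R Γ) * MonoidAlgebra.single g⁻¹ 1 = 1 := by
  rw [MonoidAlgebra.single_mul_single, mul_inv_cancel, one_mul]
  rfl

theorem inv_mul_single (g : Γ) :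
    (MonoidAlgebra.single g⁻¹ 1 : MonoidAlgebra R Γ) * MonoidAlgebra.single g 1 = 1 := by
  rw [MonoidAlgebra.single_mul_single, inv_mul_cancel, one_mul]
  rfl

theorem isUnit_dg (g : Γ) :
    IsUnit (Matrix.diagonal fun _ : Fin 1 => (MonoidAlgebra.single g 1 : MonoidAlgebra R Γ)) := by
  refine ⟨⟨Matrix.diagonal fun _ => MonoidAlgebra.single g 1,
    Matrix.diagonal fun _ => MonoidAlgebra.single g⁻¹ 1, ?_, ?_⟩, rfl⟩
  · rw [Matrix.diagonal_mul_diagonal, ← Matrix.diagonal_one]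
    congr 1
    funext i
    exact single_mul_inv g
  · rw [Matrix.diagonal_mul_diagonal, ← Matrix.diagonal_one]
    congr 1
    funext i
    exact inv_mul_single g

theorem rmul_dg {Λ : Subgroup Γ} (g : Γ) (x : Rw R Λ (Fin 1)) (j : Fin 1) :
    (rmul R (Λ := Λ) (Matrix.diagonal fun _ : Fin 1 =>
      (MonoidAlgebra.single g 1 : MonoidAlgebra R Γ)) x) j =
      (show Fin 1 → MonoidAlgebra R Γ from x) j * MonoidAlgebra.single g 1 := by
  change ((show Fin 1 → MonoidAlgebra R Γ from x) ᵥ* Matrix.diagonal fun _ : Fin 1 =>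
    (MonoidAlgebra.single g 1 : MonoidAlgebra R Γ)) j = _
  rw [Matrix.vecMul_diagonal]

theorem map_le (δ : Γ →* Multiplicative ℤ) (g : Γ) :
    (lat R δ (Fin 1) 0).map (rmul R (Matrix.diagonal fun _ : Fin 1 =>
      (MonoidAlgebra.single g 1 : MonoidAlgebra R Γ))) ≤ lat R δ (Fin 1) (δ g).toAdd := by
  rintro _ ⟨x, hx, rfl⟩ i h hh
  rw [rmul_dg, MonoidAlgebra.coeff_mul_single_apply] at hh
  have h1 : MonoidAlgebra.coeff ((show Fin 1 → MonoidAlgebra R Γ from x) i) (h * g⁻¹) ≠ 0 := by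
    intro h2
    exact hh (by rw [h2, zero_mul])
  have h2 := hx i _ h1
  rw [map_mul, map_inv, toAdd_mul, toAdd_inv] at h2
  omega

theorem le_map (δ : Γ →* Multiplicative ℤ) (g : Γ) :
    lat R δ (Fin 1) (δ g).toAdd ≤ (lat R δ (Fin 1) 0).map (rmul R (Matrix.diagonal fun _ : Fin 1 =>
      (MonoidAlgebra.single g 1 : MonoidAlgebra R Γ))) := by
  intro y hy
  refine ⟨fun i => (show Fin 1 → MonoidAlgebra R Γ from y) i * MonoidAlgebra.single g⁻¹ 1, ?_, ?_⟩
  · intro i h hh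
    change MonoidAlgebra.coeff ((show Fin 1 → MonoidAlgebra R Γ from y) i *
      MonoidAlgebra.single g⁻¹ 1) h ≠ 0 at hh
    rw [MonoidAlgebra.coeff_mul_single_apply] at hh
    have h1 : MonoidAlgebra.coeff ((show Fin 1 → MonoidAlgebra R Γ from y) i) (h * g⁻¹⁻¹) ≠ 0 := by
      intro h2
      exact hh (by rw [h2, zero_mul])
    have h2 := hy i _ h1
    rw [inv_inv, map_mul, toAdd_mul] at h2
    omega
  · funext j
    rw [rmul_dg]
    change (show Fin 1 → MonoidAlgebra R Γ from y) j * MonoidAlgebra.single g⁻¹ 1 *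
      MonoidAlgebra.single g 1 = (show Fin 1 → MonoidAlgebra R Γ from y) j
    rw [mul_assoc, inv_mul_single, mul_one]

end QGRM

open QGRM in
theorem specQGR : SpecQGR := by
  intro R Γ _ _ δ K _ cl hcl φ hφ g
  rw [hφ.2 (Fin 1) _ (isUnit_dg g) 0 (δ g).toAdd (map_le δ g)]
  have hs : Subsingleton (Qt (lat R δ (Fin 1) (δ g).toAdd)
      ((lat R δ (Fin 1) 0).map (rmul R (Matrix.diagonal fun _ : Fin 1 =>
        (MonoidAlgebra.single g 1 : MonoidAlgebra R Γ))))) := by
    rw [Submodule.Quotient.subsingleton_iff, eq_top_iff]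
    intro x _
    exact le_map δ g x.2
  rw [hcl.iso _ (Fin 0 → MonoidAlgebra R δ.ker) ⟨0⟩]
  exact hcl.free 0

end Pool.Agent.Lib.MPb6f35e.KN
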