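import Pool.Agent.Lib.MP_b6f35e_al.KN.SpecC
import Pool.Agent.Lib.MP_8a3537_gt.UV.RES

/-!
# QPP: the index of `1 - p + t p`
-/

namespace Pool.Agent.Lib.MPb6f35e.KN

open Matrix
open Pool.Agent.Lib.MP8a3537.UV (emb res lres SuppIn)

namespace QPPM

section Gen

variable {A : Type} [Ring A] {ι : Type} [Fintype ι]

theorem mul_csmul (τ : A) (hτ : ∀ a, τ * a = a * τ) (X Y : Matrix ι ι A) :
    X * (τ • Y) = τ • (X * Y) := by
  ext i j
  simp only [Matrix.mul_apply, Matrix.smul_apply, smul_eq_mul, Finset.mul_sum]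
  refine Finset.sum_congr rfl fun k _ => ?_
  rw [← mul_assoc, ← hτ, mul_assoc]

theorem csmul_mul (τ : A) (X Y : Matrix ι ι A) : (τ • X) * Y = τ • (X * Y) := by
  ext i j
  simp only [Matrix.mul_apply, Matrix.smul_apply, smul_eq_mul, Finset.mul_sum]
  exact Finset.sum_congr rfl fun k _ => mul_assoc _ _ _

theorem mul_one_of [DecidableEq ι] (τ τ' : A) (hτ' : ∀ a, τ' * a = a * τ') (h : τ * τ' = 1)
    (P : Matrix ι ι A) (hP : P * P = P) :
    (1 - P + τ • P) * (1 - P + τ' • P) = 1 := by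
  rw [add_mul, mul_add, mul_add, mul_csmul τ' hτ', csmul_mul, csmul_mul, mul_csmul τ' hτ']
  have h1 : (1 - P) * (1 - P) = 1 - P := by
    rw [sub_mul, one_mul, mul_sub, mul_one, hP, sub_self, sub_zero]
  have h2 : (1 - P) * P = 0 := by rw [sub_mul, hP, one_mul, sub_self]
  have h3 : P * (1 - P) = 0 := by rw [mul_sub, hP, mul_one, sub_self]
  rw [h1, h2, h3, hP, smul_zero, smul_zero, smul_smul, h, one_smul]
  abel

end Gen

section Lat

variable {R Γ : Type} [Ring R] [Group Γ] (δ : Γ →* Multiplicative ℤ) {ι : Type}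

theorem lat_mul_emb [Fintype ι] {N : ℤ} (x : ι → MonoidAlgebra R Γ)
    (hx : ∀ (i : ι) (g : Γ), (x i).coeff g ≠ 0 → N ≤ (δ g).toAdd)
    (p : Matrix ι ι (MonoidAlgebra R δ.ker)) (j : ι) (g : Γ)
    (hg : ((x ᵥ* em δ.ker p) j).coeff g ≠ 0) : N ≤ (δ g).toAdd := by
  have h1 : (x ᵥ* em δ.ker p) j = ∑ i, x i * emb R δ.ker (p i j) := rfl
  rw [h1] at hg
  have h2 : ∃ i ∈ (Finset.univ : Finset ι), (x i * emb R δ.ker (p i j)).coeff g ≠ 0 := by
    by_contra hc
    push Not at hc
    apply hg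
    rw [MonoidAlgebra.coeff_sum, Finsupp.finsetSum_apply]
    exact Finset.sum_eq_zero hc
  obtain ⟨i, _, hi⟩ := h2
  by_contra hN
  apply hi
  clear hi hg h1
  generalize p i j = s
  induction s using MonoidAlgebra.induction_linear with
  | zero => rw [map_zero, mul_zero]; rfl
  | add a b ha hb => rw [map_add, mul_add, MonoidAlgebra.coeff_add, Finsupp.add_apply, ha, hb, add_zero]
  | single h r =>
    rw [Pool.Agent.Lib.MP8a3537.UV.RESAux.emb_single, MonoidAlgebra.coeff_mul_single_apply]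
    have h1 : (x i).coeff (g * (h : Γ)⁻¹) = 0 := by
      by_contra h2
      apply hN
      have h3 := hx i _ h2
      have h4 : δ (h : Γ) = 1 := h.2
      rwa [map_mul, map_inv, h4, inv_one, mul_one] at h3
    rw [h1, zero_mul]

theorem lres_one (y : MonoidAlgebra R Γ) (H : Subgroup Γ) : lres H 1 y = res H 1 y := by
  ext h
  rw [Pool.Agent.Lib.MP8a3537.UV.lres_coeff, Pool.Agent.Lib.MP8a3537.UV.res_coeff, one_mul, mul_one]

/-- The part in degree `0`. -/
noncomputable def L0 (x : ι → MonoidAlgebra R Γ) : ι → MonoidAlgebra R δ.ker :=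
  fun i => lres δ.ker 1 (x i)

theorem L0_vecMul [Fintype ι] (x : ι → MonoidAlgebra R Γ) (p : Matrix ι ι (MonoidAlgebra R δ.ker)) :
    L0 δ (x ᵥ* em δ.ker p) = L0 δ x ᵥ* p := by
  funext j
  show lres δ.ker 1 (∑ i, x i * emb R δ.ker (p i j)) = ∑ i, lres δ.ker 1 (x i) * p i j
  rw [lres_one, Pool.Agent.Lib.MP8a3537.UV.RESAux.res_sum]
  refine Finset.sum_congr rfl fun i _ => ?_
  rw [Pool.Agent.Lib.MP8a3537.UV.RESAux.res_mul_emb, lres_one]

theorem L0_add (x y : ι → MonoidAlgebra R Γ) : L0 δ (x + y) = L0 δ x + L0 δ y := by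
  funext j
  exact Pool.Agent.Lib.MP8a3537.UV.RESAux.lres_add _ _ _ _

end Lat

end QPPM

theorem specQPP : SpecQPP := by
  intro R Γ _ _ δ t ht hc K _ cl hcl φ hφ ι _ _ p hp
  have hcen : ∀ a : MonoidAlgebra R Γ,
      MonoidAlgebra.single t 1 * a = a * MonoidAlgebra.single t 1 := by
    intro a
    ext g
    rw [MonoidAlgebra.coeff_single_mul_apply, MonoidAlgebra.coeff_mul_single_apply, one_mul, mul_one]
    congr 1
    rw [eq_mul_inv_iff_mul_eq, mul_assoc, ← hc g, inv_mul_cancel_left]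
  have hc' : ∀ g : Γ, t⁻¹ * g = g * t⁻¹ := by
    intro g
    rw [eq_mul_inv_iff_mul_eq, mul_assoc, ← hc g, inv_mul_cancel_left]
  have hcen' : ∀ a : MonoidAlgebra R Γ,
      MonoidAlgebra.single t⁻¹ 1 * a = a * MonoidAlgebra.single t⁻¹ 1 := by
    intro a
    ext g
    rw [MonoidAlgebra.coeff_single_mul_apply, MonoidAlgebra.coeff_mul_single_apply, one_mul, mul_one,
      inv_inv, hc g]
  have hTT' : (MonoidAlgebra.single t 1 : MonoidAlgebra R Γ) * MonoidAlgebra.single t⁻¹ 1 = 1 := by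
    rw [MonoidAlgebra.single_mul_single, mul_inv_cancel, one_mul, MonoidAlgebra.one_def]
  have hT'T : (MonoidAlgebra.single t⁻¹ 1 : MonoidAlgebra R Γ) * MonoidAlgebra.single t 1 = 1 := by
    rw [MonoidAlgebra.single_mul_single, inv_mul_cancel, one_mul, MonoidAlgebra.one_def]
  have hE : em δ.ker p * em δ.ker p = em δ.ker p := by
    rw [← Matrix.map_mul, hp]
  have hMM' := QPPM.mul_one_of _ _ hcen' hTT' (em δ.ker p) hE
  have hM'M := QPPM.mul_one_of _ _ hcen hT'T (em δ.ker p) hE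
  set M : Matrix ι ι (MonoidAlgebra R Γ) :=
    1 - em δ.ker p + (MonoidAlgebra.single t 1 : MonoidAlgebra R Γ) • em δ.ker p with hM
  set M' : Matrix ι ι (MonoidAlgebra R Γ) :=
    1 - em δ.ker p + (MonoidAlgebra.single t⁻¹ 1 : MonoidAlgebra R Γ) • em δ.ker p with hM'
  have hU : IsUnit M := ⟨⟨M, M', hMM', hM'M⟩, rfl⟩
  refine ⟨hU, ?_⟩
  -- the rows `x M`, `x M'`
  have hxM : ∀ (x : ι → MonoidAlgebra R Γ) (j : ι), (x ᵥ* M) j =
      x j - (x ᵥ* em δ.ker p) j + MonoidAlgebra.single t 1 * (x ᵥ* em δ.ker p) j := by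
    intro x j
    have h1 : x ᵥ* M = x ᵥ* 1 - x ᵥ* em δ.ker p +
        x ᵥ* ((MonoidAlgebra.single t 1 : MonoidAlgebra R Γ) • em δ.ker p) := by
      rw [hM, Matrix.vecMul_add, Matrix.vecMul_sub]
    rw [h1, Matrix.vecMul_one]
    simp only [Pi.add_apply, Pi.sub_apply]
    congr 1
    show ∑ i, x i * (MonoidAlgebra.single t 1 * em δ.ker p i j) =
      MonoidAlgebra.single t 1 * ∑ i, x i * em δ.ker p i j
    rw [Finset.mul_sum]
    refine Finset.sum_congr rfl fun i _ => ?_
    rw [← mul_assoc, ← hcen, mul_assoc]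
  have hxM' : ∀ (x : ι → MonoidAlgebra R Γ) (j : ι), (x ᵥ* M') j =
      x j - (x ᵥ* em δ.ker p) j + MonoidAlgebra.single t⁻¹ 1 * (x ᵥ* em δ.ker p) j := by
    intro x j
    have h1 : x ᵥ* M' = x ᵥ* 1 - x ᵥ* em δ.ker p +
        x ᵥ* ((MonoidAlgebra.single t⁻¹ 1 : MonoidAlgebra R Γ) • em δ.ker p) := by
      rw [hM', Matrix.vecMul_add, Matrix.vecMul_sub]
    rw [h1, Matrix.vecMul_one]
    simp only [Pi.add_apply, Pi.sub_apply]
    congr 1
    show ∑ i, x i * (MonoidAlgebra.single t⁻¹ 1 * em δ.ker p i j) =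
      MonoidAlgebra.single t⁻¹ 1 * ∑ i, x i * em δ.ker p i j
    rw [Finset.mul_sum]
    refine Finset.sum_congr rfl fun i _ => ?_
    rw [← mul_assoc, ← hcen', mul_assoc]
  -- `x M` is in the lattice
  have hin : ∀ (x : ι → MonoidAlgebra R Γ),
      (∀ (i : ι) (g : Γ), (x i).coeff g ≠ 0 → (0 : ℤ) ≤ (δ g).toAdd) →
      ∀ (j : ι) (g : Γ), ((x ᵥ* M) j).coeff g ≠ 0 → (0 : ℤ) ≤ (δ g).toAdd := by
    intro x hx j g hg
    by_contra hN
    apply hg
    rw [hxM, MonoidAlgebra.coeff_add, MonoidAlgebra.coeff_sub, Finsupp.add_apply, Finsupp.sub_apply,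
      MonoidAlgebra.coeff_single_mul_apply]
    have h1 : (x j).coeff g = 0 := by
      by_contra h
      exact hN (hx j g h)
    have h2 : ((x ᵥ* em δ.ker p) j).coeff g = 0 := by
      by_contra h
      exact hN (QPPM.lat_mul_emb δ x hx p j g h)
    have h3 : ((x ᵥ* em δ.ker p) j).coeff (t⁻¹ * g) = 0 := by
      by_contra h
      have h4 := QPPM.lat_mul_emb δ x hx p j _ h
      rw [map_mul, map_inv, ht, toAdd_mul, toAdd_inv, toAdd_ofAdd] at h4
      omega
    rw [h1, h2, h3]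
    simp
  have hle : (lat R δ ι 0).map (rmul R M) ≤ lat R δ ι 0 := by
    rintro _ ⟨x, hx, rfl⟩
    intro j g hg
    exact hin x hx j g hg
  rw [hφ.2 ι M hU 0 0 hle]
  refine hcl.iso _ _ ?_
  -- the linear map
  let L : ↥(lat R δ ι 0) →ₗ[MonoidAlgebra R δ.ker] (ι → MonoidAlgebra R δ.ker) :=
    { toFun := fun x => QPPM.L0 δ (show ι → MonoidAlgebra R Γ from x.1)
      map_add' := fun x y => QPPM.L0_add δ _ _
      map_smul' := by
        intro s x
        funext i
        exact Pool.Agent.Lib.MP8a3537.UV.RESAux.lres_emb_mul δ.ker 1 _ s }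
  let ψ : ↥(lat R δ ι 0) →ₗ[MonoidAlgebra R δ.ker] (ι → MonoidAlgebra R δ.ker) :=
    (Matrix.vecMulLinear p).comp L
  have hL : Function.Surjective L := by
    intro s
    refine ⟨⟨fun i => emb R δ.ker (s i), ?_⟩, ?_⟩
    · intro i g hg
      have h1 : g ∈ δ.ker := Pool.Agent.Lib.MP8a3537.UV.RESAux.mem_of_emb_ne δ.ker _ g hg
      rw [MonoidHom.mem_ker] at h1
      rw [h1]
      exact le_refl _
    · funext i
      show lres δ.ker 1 (emb R δ.ker (s i)) = s i
      ext h
      rw [Pool.Agent.Lib.MP8a3537.UV.lres_coeff, mul_one,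
        Pool.Agent.Lib.MP8a3537.UV.RESAux.emb_coeff_mem]
  have hrange : LinearMap.range ψ = LinearMap.range (Matrix.vecMulLinear p) :=
    LinearMap.range_comp_of_range_eq_top _ (LinearMap.range_eq_top.2 hL)
  have hψ : ∀ x : ↥(lat R δ ι 0), ψ x = QPPM.L0 δ (show ι → MonoidAlgebra R Γ from x.1) ᵥ* p :=
    fun x => rfl
  have hker : ((lat R δ ι 0).map (rmul R M)).submoduleOf (lat R δ ι 0) = LinearMap.ker ψ := by
    ext x
    rw [LinearMap.mem_ker, hψ]
    constructor
    · rintro ⟨z, hz, hzx⟩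
      have h1 : (show ι → MonoidAlgebra R Γ from x.1) =
          (show ι → MonoidAlgebra R Γ from z) ᵥ* M := hzx.symm
      have h2 : QPPM.L0 δ ((show ι → MonoidAlgebra R Γ from z) ᵥ* M) =
          QPPM.L0 δ (show ι → MonoidAlgebra R Γ from z) -
            QPPM.L0 δ (show ι → MonoidAlgebra R Γ from z) ᵥ* p := by
        rw [← QPPM.L0_vecMul]
        funext j
        show lres δ.ker 1 (((show ι → MonoidAlgebra R Γ from z) ᵥ* M) j) =
          lres δ.ker 1 ((show ι → MonoidAlgebra R Γ from z) j) -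
            lres δ.ker 1 (((show ι → MonoidAlgebra R Γ from z) ᵥ* em δ.ker p) j)
        ext k
        rw [hxM, MonoidAlgebra.coeff_sub, Finsupp.sub_apply]
        simp only [Pool.Agent.Lib.MP8a3537.UV.lres_coeff, mul_one]
        rw [MonoidAlgebra.coeff_add, MonoidAlgebra.coeff_sub, Finsupp.add_apply,
          Finsupp.sub_apply, MonoidAlgebra.coeff_single_mul_apply]
        have h3 : (((show ι → MonoidAlgebra R Γ from z) ᵥ* em δ.ker p) j).coeff
            (t⁻¹ * (k : Γ)) = 0 := by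
          by_contra hne
          have h4 := QPPM.lat_mul_emb δ _ hz p j _ hne
          have h5 : δ (k : Γ) = 1 := k.2
          rw [map_mul, map_inv, ht, h5, mul_one, toAdd_inv, toAdd_ofAdd] at h4
          omega
        rw [h3]
        simp
      rw [h1, h2, Matrix.sub_vecMul, Matrix.vecMul_vecMul, hp, sub_self]
    · intro hx0
      refine ⟨(show ι → MonoidAlgebra R Γ from x.1) ᵥ* M', ?_, ?_⟩
      · intro j g hg
        by_contra hN
        apply hg
        have hx := x.2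
        rw [hxM', MonoidAlgebra.coeff_add, MonoidAlgebra.coeff_sub, Finsupp.add_apply,
          Finsupp.sub_apply, MonoidAlgebra.coeff_single_mul_apply, inv_inv]
        have h1 : ((show ι → MonoidAlgebra R Γ from x.1) j).coeff g = 0 := by
          by_contra h
          exact hN (hx j g h)
        have h2 : (((show ι → MonoidAlgebra R Γ from x.1) ᵥ* em δ.ker p) j).coeff g = 0 := by
          by_contra h
          exact hN (QPPM.lat_mul_emb δ _ hx p j g h)
        have h3 : (((show ι → MonoidAlgebra R Γ from x.1) ᵥ* em δ.ker p) j).coeff (t * g) = 0 := by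
          by_contra h
          have h4 := QPPM.lat_mul_emb δ _ hx p j _ h
          rw [map_mul, ht, toAdd_mul, toAdd_ofAdd] at h4
          have h5 : (δ g).toAdd = -1 := by omega
          have h6 : t * g ∈ δ.ker := by
            rw [MonoidHom.mem_ker, map_mul, ht]
            apply Multiplicative.toAdd.injective
            rw [toAdd_mul, toAdd_ofAdd, h5, toAdd_one]
            norm_num
          apply h
          have h7 := congrArg (fun v => (v j).coeff ⟨t * g, h6⟩)
            ((QPPM.L0_vecMul δ (show ι → MonoidAlgebra R Γ from x.1) p).trans hx0)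
          have h8 : (QPPM.L0 δ ((show ι → MonoidAlgebra R Γ from x.1) ᵥ* em δ.ker p) j).coeff
              ⟨t * g, h6⟩ = 0 := h7
          rw [QPPM.L0, Pool.Agent.Lib.MP8a3537.UV.lres_coeff, mul_one] at h8
          exact h8
        rw [h1, h2, h3]
        simp
      · show ((show ι → MonoidAlgebra R Γ from x.1) ᵥ* M') ᵥ* M = _
        rw [Matrix.vecMul_vecMul, hM'M, Matrix.vecMul_one]
        rfl
  have e1 : Qt (lat R δ ι 0) ((lat R δ ι 0).map (rmul R M)) ≃ₗ[MonoidAlgebra R δ.ker]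
      (↥(lat R δ ι 0) ⧸ LinearMap.ker ψ) := Submodule.quotEquivOfEq _ _ hker
  have e2 := ψ.quotKerEquivRange
  have e3 : LinearMap.range ψ ≃ₗ[MonoidAlgebra R δ.ker] LinearMap.range (Matrix.vecMulLinear p) :=
    LinearEquiv.ofEq _ _ hrange
  exact ⟨e1.trans (e2.trans e3)⟩

end Pool.Agent.Lib.MPb6f35e.KN
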