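import Pool.Agent.Lib.MP_b6f35e_al.KN.SpecC
import Pool.Agent.Lib.MP_b6f35e_al.KN.PSB
import Pool.Agent.Lib.MP_b6f35e_al.KN.IND

/-! # QUN: the index of a matrix over a subgroup -/

namespace Pool.Agent.Lib.MPb6f35e.KN

open Matrix
open Pool.Agent.Lib.MP8a3537.UV (emb res lres SuppIn)

namespace QUNM

/-- The inverse of a unit over the group ring of a subgroup. -/
theorem inv_supp {R Γ : Type} [Ring R] [Group Γ] (Γ0 : Subgroup Γ) {ι : Type} [Fintype ι]
    [DecidableEq ι] {M : Matrix ι ι (MonoidAlgebra R Γ)} (hM : IsUnit M)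
    (hs : SuppIn (Γ0 : Set Γ) M) :
    ∃ M' : Matrix ι ι (MonoidAlgebra R Γ), M * M' = 1 ∧ M' * M = 1 ∧
      SuppIn (Γ0 : Set Γ) M' := by
  have hinj : Function.Injective Γ0.subtype := Subtype.val_injective
  obtain ⟨⟨v, hv⟩, e⟩ := PSBM.unit_lift Γ0.subtype hinj M hM fun i j b hb =>
    ⟨⟨b, hs i j b hb⟩, rfl⟩
  have h1 : v.val * v.inv = 1 := v.val_inv
  have h2 : v.inv * v.val = 1 := v.inv_val
  refine ⟨v.inv.map (PSBM.mp R Γ0.subtype), ?_, ?_, ?_⟩
  · rw [← e, ← hv, ← Matrix.map_mul, h1, Matrix.map_one _ (map_zero _) (map_one _)]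
  · rw [← e, ← hv, ← Matrix.map_mul, h2, Matrix.map_one _ (map_zero _) (map_one _)]
  · intro i j g hg
    rw [Matrix.map_apply] at hg
    obtain ⟨a, -, rfl⟩ := PSBM.mp_ne _ _ _ hg
    exact a.2

section Lin

variable {S : Type} [Ring S]

/-- The range of a stably free idempotent matrix is stably free. -/
theorem stf_equiv {n : ℕ} {E : Matrix (Fin n) (Fin n) S} (hE : E * E = E) {r s : ℕ}
    {x : Matrix (Fin n ⊕ Fin r) (Fin s) S} {y : Matrix (Fin s) (Fin n ⊕ Fin r) S}
    (hxy : x * y = fromBlocks E 0 0 1) (hyx : y * x = 1) :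
    Nonempty ((LinearMap.range (Matrix.vecMulLinear E) × (Fin r → S)) ≃ₗ[S] (Fin s → S)) := by
  have key : ∀ v : Fin s → S, (fun i => (v ᵥ* y) (Sum.inl i)) ∈
      LinearMap.range (Matrix.vecMulLinear E) := by
    intro v
    refine ⟨fun i => (v ᵥ* y) (Sum.inl i), ?_⟩
    have h1 : v ᵥ* y = (v ᵥ* y) ᵥ* fromBlocks E 0 0 1 := by
      rw [← hxy, Matrix.vecMul_vecMul, ← Matrix.mul_assoc, hyx, Matrix.one_mul]
    have h2 : v ᵥ* y = Sum.elim (fun i => (v ᵥ* y) (Sum.inl i)) (fun i => (v ᵥ* y) (Sum.inr i)) := by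
      funext k
      rcases k with k | k <;> rfl
    rw [h2, Matrix.vecMul_fromBlocks] at h1
    have h3 := fun i => congrFun h1 (Sum.inl i)
    funext i
    have h4 := h3 i
    simp only [Sum.elim_inl, Sum.elim_comp_inl, Sum.elim_comp_inr, Matrix.vecMul_zero, add_zero]
      at h4
    exact h4.symm
  have hr : ∀ z ∈ LinearMap.range (Matrix.vecMulLinear E), z ᵥ* E = z := by
    rintro _ ⟨z, rfl⟩
    show (z ᵥ* E) ᵥ* E = z ᵥ* E
    rw [Matrix.vecMul_vecMul, hE]
  let f : (LinearMap.range (Matrix.vecMulLinear E) × (Fin r → S)) →ₗ[S] (Fin s → S) :=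
    { toFun := fun p => Sum.elim (p.1 : Fin n → S) p.2 ᵥ* x
      map_add' := by
        intro p q
        rw [← Matrix.add_vecMul]
        congr 1
        funext k
        rcases k with k | k <;> rfl
      map_smul' := by
        intro c p
        rw [RingHom.id_apply, ← Matrix.smul_vecMul]
        congr 1
        funext k
        rcases k with k | k <;> rfl }
  let g : (Fin s → S) →ₗ[S] (LinearMap.range (Matrix.vecMulLinear E) × (Fin r → S)) :=
    { toFun := fun v => (⟨fun i => (v ᵥ* y) (Sum.inl i), key v⟩, fun i => (v ᵥ* y) (Sum.inr i))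
      map_add' := by
        intro v w
        refine Prod.ext (Subtype.ext ?_) ?_
        · funext i
          show ((v + w) ᵥ* y) (Sum.inl i) = (v ᵥ* y) (Sum.inl i) + (w ᵥ* y) (Sum.inl i)
          rw [Matrix.add_vecMul]; rfl
        · funext i
          show ((v + w) ᵥ* y) (Sum.inr i) = (v ᵥ* y) (Sum.inr i) + (w ᵥ* y) (Sum.inr i)
          rw [Matrix.add_vecMul]; rfl
      map_smul' := by
        intro c v
        refine Prod.ext (Subtype.ext ?_) ?_
        · funext i
          show ((c • v) ᵥ* y) (Sum.inl i) = c • (v ᵥ* y) (Sum.inl i)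
          rw [Matrix.smul_vecMul]; rfl
        · funext i
          show ((c • v) ᵥ* y) (Sum.inr i) = c • (v ᵥ* y) (Sum.inr i)
          rw [Matrix.smul_vecMul]; rfl }
  refine ⟨LinearEquiv.ofLinearMap f g ?_ ?_⟩
  · refine LinearMap.ext fun v => ?_
    show Sum.elim (fun i => (v ᵥ* y) (Sum.inl i)) (fun i => (v ᵥ* y) (Sum.inr i)) ᵥ* x = v
    have h2 : Sum.elim (fun i => (v ᵥ* y) (Sum.inl i)) (fun i => (v ᵥ* y) (Sum.inr i)) =
        v ᵥ* y := by
      funext k
      rcases k with k | k <;> rfl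
    rw [h2, Matrix.vecMul_vecMul, hyx, Matrix.vecMul_one]
  · refine LinearMap.ext fun p => ?_
    have h2 : (Sum.elim (p.1 : Fin n → S) p.2 ᵥ* x) ᵥ* y = Sum.elim (p.1 : Fin n → S) p.2 := by
      rw [Matrix.vecMul_vecMul, hxy, Matrix.vecMul_fromBlocks]
      funext k
      rcases k with k | k
      · simp only [Sum.elim_inl, Sum.elim_comp_inl, Sum.elim_comp_inr, Matrix.vecMul_zero,
          add_zero]
        exact congrFun (hr _ p.1.2) k
      · simp only [Sum.elim_inr, Sum.elim_comp_inl, Sum.elim_comp_inr, Matrix.vecMul_zero,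
          zero_add, Matrix.vecMul_one]
    refine Prod.ext (Subtype.ext ?_) ?_
    · funext i
      exact congrFun h2 (Sum.inl i)
    · funext i
      exact congrFun h2 (Sum.inr i)

theorem range_proj {n : ℕ} {E : Matrix (Fin n) (Fin n) S} (hE : E * E = E) :
    Module.Projective S (LinearMap.range (Matrix.vecMulLinear E)) := by
  refine Module.Projective.of_split (LinearMap.range (Matrix.vecMulLinear E)).subtype
    (LinearMap.rangeRestrict (Matrix.vecMulLinear E)) ?_
  refine LinearMap.ext ?_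
  rintro ⟨_, z, rfl⟩
  refine Subtype.ext ?_
  show (z ᵥ* E) ᵥ* E = z ᵥ* E
  rw [Matrix.vecMul_vecMul, hE]

end Lin

end QUNM

open QUNM in
/-- **QUN**. -/
theorem specQUN (hLA2 : SpecLA2) : SpecQUN := by
  intro R Γ _ _ δ t ht K _ cl hcl φ hφ Γ0 ht0 hst ι _ _ M hM hs
  obtain ⟨M', h1, h2, hs'⟩ := inv_supp Γ0 hM hs
  obtain ⟨a, ha⟩ := INDM.exists_low δ M 0
  obtain ⟨n, E, hE, ⟨e⟩, hsupp⟩ := hLA2 R Γ δ t ht ι M M' h1 h2 0 a ha
  obtain ⟨r, s, x, y, hxy, hyx⟩ := hst n E (hsupp Γ0 ht0 hs hs') hE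
  have hf : Module.Finite (MonoidAlgebra R δ.ker) (LinearMap.range (Matrix.vecMulLinear E)) :=
    Module.Finite.range _
  have h3 := hcl.add (LinearMap.range (Matrix.vecMulLinear E))
    (Fin r → MonoidAlgebra R δ.ker) hf (range_proj hE) inferInstance inferInstance
  rw [hcl.iso _ _ (stf_equiv hE hxy hyx), hcl.free, hcl.free, add_zero] at h3
  rw [hφ.2 ι M hM 0 a ha, hcl.iso _ _ ⟨e⟩, ← h3]

end Pool.Agent.Lib.MPb6f35e.KN
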