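import Pool.Agent.Lib.MP_b6f35e_al.KN.SpecC

/-! # Module RCX: regular coherence is invariant under isomorphisms of rings -/

namespace Pool.Agent.Lib.MPb6f35e.KN

namespace RCXM

variable {S S' : Type} [Ring S] [Ring S']

attribute [local instance] RingHomInvPair.of_ringEquiv

/-- the semilinear equivalence. -/
def sl (e : S ≃+* S') {M M' : Type} [AddCommGroup M] [Module S M] [AddCommGroup M'] [Module S' M']
    (f : M ≃+ M') (hf : ∀ (s : S) (x : M), f (s • x) = e s • f x) :
    M ≃ₛₗ[(e : S →+* S')] M' :=
  { f with
    map_smul' := hf }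

theorem finite_tr (e : S ≃+* S') {M M' : Type} [AddCommGroup M] [Module S M] [AddCommGroup M']
    [Module S' M'] (f : M ≃+ M') (hf : ∀ (s : S) (x : M), f (s • x) = e s • f x)
    [Module.Finite S M] : Module.Finite S' M' :=
  Module.Finite.of_surjective (sl e f hf).toLinearMap (sl e f hf).surjective

theorem projective_tr (e : S ≃+* S') {M M' : Type} [AddCommGroup M] [Module S M] [AddCommGroup M']
    [Module S' M'] (f : M ≃+ M') (hf : ∀ (s : S) (x : M), f (s • x) = e s • f x)
    [Module.Projective S M] : Module.Projective S' M' :=
  Module.Projective.of_equiv (sl e f hf)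

theorem fpres_tr (e : S ≃+* S') : ∀ (n : ℕ) (M M' : Type) [AddCommGroup M] [Module S M]
    [AddCommGroup M'] [Module S' M'] (f : M ≃+ M') (_ : ∀ (s : S) (x : M), f (s • x) = e s • f x),
    FPres S n M → FPres S' n M' := by
  intro n
  induction n with
  | zero =>
    intro M M' _ _ _ _ f hf h
    obtain ⟨h1, h2⟩ := h
    exact ⟨finite_tr e f hf, projective_tr e f hf⟩
  | succ n ih =>
    intro M M' _ _ _ _ f hf h
    obtain ⟨F, i1, i2, g, h1, h2, h3, h4⟩ := h
    letI i3 : Module S' F := Module.compHom F (e.symm : S' →+* S)
    have hs : ∀ (s : S') (x : F), s • x = e.symm s • x := fun s x => rfl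
    have hs' : ∀ (s : S) (x : F), (AddEquiv.refl F) (s • x) = e s • (AddEquiv.refl F) x := by
      intro s x
      rw [hs, e.symm_apply_apply]
      rfl
    let g' : F →ₗ[S'] M' :=
      { toFun := fun x => f (g x)
        map_add' := fun x y => by rw [map_add, map_add]
        map_smul' := fun s x => by
          rw [hs, map_smul, hf, e.apply_symm_apply, RingHom.id_apply] }
    have hg' : ∀ x, g' x = f (g x) := fun x => rfl
    refine ⟨F, i1, i3, g', finite_tr e (AddEquiv.refl F) hs', projective_tr e (AddEquiv.refl F) hs',
      f.surjective.comp h3, ?_⟩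
    have hk : ∀ x : F, x ∈ LinearMap.ker g ↔ x ∈ LinearMap.ker g' := by
      intro x
      rw [LinearMap.mem_ker, LinearMap.mem_ker, hg', map_eq_zero_iff f f.injective]
    let k : LinearMap.ker g ≃+ LinearMap.ker g' :=
      { toFun := fun x => ⟨x.1, (hk x.1).1 x.2⟩
        invFun := fun x => ⟨x.1, (hk x.1).2 x.2⟩
        left_inv := fun x => rfl
        right_inv := fun x => rfl
        map_add' := fun x y => rfl }
    refine ih _ _ k ?_ h4
    intro s x
    apply Subtype.ext
    show s • x.1 = e s • x.1
    rw [hs, e.symm_apply_apply]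

theorem fp_tr (e : S ≃+* S') (M : Type) [AddCommGroup M] [Module S M] [Module S' M]
    (hM : ∀ (s : S) (x : M), s • x = e s • x) (h : Module.FinitePresentation S' M) :
    Module.FinitePresentation S M := by
  obtain ⟨n, K, q, hK⟩ := Module.FinitePresentation.exists_fin S' M
  let p : (Fin n → S') →ₗ[S'] M := q.symm.toLinearMap ∘ₗ K.mkQ
  have hp : Function.Surjective p := q.symm.surjective.comp K.mkQ_surjective
  have hker : LinearMap.ker p = K := by
    ext x
    rw [LinearMap.mem_ker]
    show q.symm (K.mkQ x) = 0 ↔ _
    rw [map_eq_zero_iff q.symm q.symm.injective]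
    exact Submodule.Quotient.mk_eq_zero K
  let c : (Fin n → S') ≃+ (Fin n → S) :=
    { toFun := fun x i => e.symm (x i)
      invFun := fun x i => e (x i)
      left_inv := fun x => by
        funext i
        exact e.apply_symm_apply _
      right_inv := fun x => by
        funext i
        exact e.symm_apply_apply _
      map_add' := fun x y => by
        funext i
        exact map_add e.symm _ _ }
  have hc : ∀ (s : S') (x : Fin n → S'), c (s • x) = e.symm s • c x := by
    intro s x
    funext i
    exact map_mul e.symm _ _
  let p' : (Fin n → S) →ₗ[S] M :=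
    { toFun := fun x => p (fun i => e (x i))
      map_add' := fun x y => by
        rw [← map_add]
        congr 1
        funext i
        exact map_add e _ _
      map_smul' := fun s x => by
        rw [RingHom.id_apply, hM, ← map_smul]
        congr 1
        funext i
        exact map_mul e _ _ }
  have hp' : Function.Surjective p' := by
    intro y
    obtain ⟨x, hx⟩ := hp y
    refine ⟨c x, ?_⟩
    show p (fun i => e (e.symm (x i))) = y
    rw [← hx]
    congr 1
    funext i
    exact e.apply_symm_apply _
  refine Module.finitePresentation_of_free_of_surjective p' hp' ?_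
  have h1 : LinearMap.ker p' = K.map (sl e.symm c hc).toLinearMap := by
    ext x
    rw [LinearMap.mem_ker, Submodule.mem_map]
    constructor
    · intro hx
      refine ⟨fun i => e (x i), ?_, ?_⟩
      · rw [← hker, LinearMap.mem_ker]
        exact hx
      · show c (fun i => e (x i)) = x
        exact c.apply_symm_apply x
    · rintro ⟨y, hy, rfl⟩
      rw [← hker, LinearMap.mem_ker] at hy
      show p (fun i => e (e.symm (y i))) = 0
      have h2 : (fun i => e (e.symm (y i))) = y := by
        funext i
        exact e.apply_symm_apply _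
      rw [h2, hy]
  rw [h1]
  exact hK.map _

end RCXM

open RCXM in
theorem specRCX : SpecRCX := by
  intro S S' _ _ e hS M _ _ hM
  letI i1 : Module S M := Module.compHom M (e : S →+* S')
  have h1 : ∀ (s : S) (x : M), s • x = e s • x := fun s x => rfl
  obtain ⟨n, hn⟩ := hS M (fp_tr e M h1 hM)
  exact ⟨n, fpres_tr e n M M (AddEquiv.refl M) (fun s x => h1 s x) hn⟩

end Pool.Agent.Lib.MPb6f35e.KN
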