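import Pool.Agent.Lib.MP_b6f35e_al.KN.SpecC

/-! Module RKF: classes of rectangular invertible matrices. -/

set_option linter.all false

namespace Pool.Agent.Lib.MPb6f35e.KN

open Matrix
open Pool.Agent.Lib.MP8a3537.UV (SuppIn)

namespace RKFM

/-- `x'` is a two-sided inverse of `x`. -/
structure Iv {A ι ι' : Type} [Ring A] [Fintype ι] [Fintype ι'] (x : Matrix ι ι' A)
    (x' : Matrix ι' ι A) : Prop where
  out : ∀ (_ : DecidableEq ι) (_ : DecidableEq ι'), x * x' = 1 ∧ x' * x = 1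

theorem iv_mk {A ι ι' : Type} [Ring A] [Fintype ι] [Fintype ι'] [i1 : DecidableEq ι]
    [i2 : DecidableEq ι'] {x : Matrix ι ι' A} {x' : Matrix ι' ι A} (h : x * x' = 1)
    (h' : x' * x = 1) : Iv x x' := by
  constructor
  intro j1 j2
  have e1 : j1 = i1 := Subsingleton.elim _ _
  have e2 : j2 = i2 := Subsingleton.elim _ _
  subst e1
  subst e2
  exact ⟨h, h'⟩

theorem iv_unique {A ι ι' : Type} [Ring A] [Fintype ι] [Fintype ι'] {x : Matrix ι ι' A}
    {x' x'' : Matrix ι' ι A} (h : Iv x x') (h' : Iv x x'') : x' = x'' := by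
  classical
  obtain ⟨_, h1⟩ := h.out inferInstance inferInstance
  obtain ⟨h2, _⟩ := h'.out inferInstance inferInstance
  calc x' = x' * (x * x'') := by rw [h2, Matrix.mul_one]
    _ = x' * x * x'' := by rw [Matrix.mul_assoc]
    _ = x'' := by rw [h1, Matrix.one_mul]

variable {R G K : Type} [Ring R] [Group G] [AddCommGroup K]

/-- The augmentation with values in `R[1] ⊆ R[G]`. -/
noncomputable def E (R G : Type) [Ring R] [Group G] : MonoidAlgebra R G →+* MonoidAlgebra R G :=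
  MonoidAlgebra.mapDomainRingHom R (1 : G →* G)

theorem E_supp (a : MonoidAlgebra R G) (g : G) (h : (E R G a).coeff g ≠ 0) : g = 1 := by
  classical
  by_contra hg
  apply h
  have h1 : (E R G a).coeff = Finsupp.mapDomain (fun _ => (1 : G)) a.coeff := rfl
  rw [h1]
  apply Finsupp.mapDomain_notin_range
  rintro ⟨y, hy⟩
  exact hg hy.symm

theorem E_suppIn {m n : Type} (M : Matrix m n (MonoidAlgebra R G)) {X : Set G} (hX : 1 ∈ X) :
    SuppIn X (M.map (E R G)) := by
  intro i j g hg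
  rw [Matrix.map_apply] at hg
  rw [E_supp _ g hg]
  exact hX

theorem map_mul' {l m n : Type} [Fintype m] (x : Matrix l m (MonoidAlgebra R G))
    (y : Matrix m n (MonoidAlgebra R G)) :
    (x * y).map (E R G) = x.map (E R G) * y.map (E R G) := Matrix.map_mul

theorem map_one' {m : Type} [DecidableEq m] :
    (1 : Matrix m m (MonoidAlgebra R G)).map (E R G) = 1 :=
  Matrix.map_one _ (map_zero _) (map_one _)

open Classical in
/-- The class of a rectangular invertible matrix. -/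
noncomputable def rkf (κ : ∀ (ι : Type) [Fintype ι], Matrix ι ι (MonoidAlgebra R G) → K)
    (N : AddSubgroup K) (ι ι' : Type) [Fintype ι] [Fintype ι']
    (x : Matrix ι ι' (MonoidAlgebra R G)) : K ⧸ N :=
  if h : ∃ x' : Matrix ι' ι (MonoidAlgebra R G), Iv x x' then
    QuotientAddGroup.mk (κ ι (x * (Classical.choose h).map (E R G))) else 0

theorem rkf_eq (κ : ∀ (ι : Type) [Fintype ι], Matrix ι ι (MonoidAlgebra R G) → K)
    (N : AddSubgroup K) {ι ι' : Type} [Fintype ι] [Fintype ι']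
    {x : Matrix ι ι' (MonoidAlgebra R G)} {x' : Matrix ι' ι (MonoidAlgebra R G)} (h : Iv x x') :
    rkf κ N ι ι' x = QuotientAddGroup.mk (κ ι (x * x'.map (E R G))) := by
  have hex : ∃ x' : Matrix ι' ι (MonoidAlgebra R G), Iv x x' := ⟨x', h⟩
  unfold rkf
  rw [dif_pos hex, iv_unique (Classical.choose_spec hex) h]

theorem coeff_mul_ne (x y : MonoidAlgebra R G) (g : G) (h : (x * y).coeff g ≠ 0) :
    ∃ u v, x.coeff u ≠ 0 ∧ y.coeff v ≠ 0 ∧ u * v = g := by
  classical
  have := MonoidAlgebra.support_coeff_mul_subset x y (Finsupp.mem_support_iff.2 h)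
  obtain ⟨u, hu, v, hv, e⟩ := Finset.mem_mul.1 this
  exact ⟨u, v, Finsupp.mem_support_iff.1 hu, Finsupp.mem_support_iff.1 hv, e⟩

theorem supp_mul {l m n : Type} [Fintype m] {X Y Z : Set G}
    {M : Matrix l m (MonoidAlgebra R G)} {N : Matrix m n (MonoidAlgebra R G)}
    (hM : SuppIn X M) (hN : SuppIn Y N) (h : ∀ x ∈ X, ∀ y ∈ Y, x * y ∈ Z) :
    SuppIn Z (M * N) := by
  intro i j g hg
  rw [Matrix.mul_apply, MonoidAlgebra.coeff_sum, Finsupp.finsetSum_apply] at hg
  obtain ⟨k, -, hk⟩ := Finset.exists_ne_zero_of_sum_ne_zero hg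
  obtain ⟨u, v, hu, hv, e⟩ := coeff_mul_ne _ _ _ hk
  rw [← e]
  exact h _ (hM _ _ _ hu) _ (hN _ _ _ hv)

section units

variable {ι ι' : Type} [Fintype ι] [DecidableEq ι] [Fintype ι'] [DecidableEq ι']
  {x : Matrix ι ι' (MonoidAlgebra R G)} {x' : Matrix ι' ι (MonoidAlgebra R G)}

theorem e1 (h : x * x' = 1) : x.map (E R G) * x'.map (E R G) = 1 := by
  rw [← map_mul', h, map_one']

theorem u1 (h : x * x' = 1) (h' : x' * x = 1) : IsUnit (x * x'.map (E R G)) := by
  refine ⟨⟨x * x'.map (E R G), x.map (E R G) * x', ?_, ?_⟩, rfl⟩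
  · rw [Matrix.mul_assoc x, ← Matrix.mul_assoc (x'.map (E R G)), e1 h', Matrix.one_mul, h]
  · rw [Matrix.mul_assoc (x.map (E R G)), ← Matrix.mul_assoc x', h', Matrix.one_mul, e1 h]

theorem u2 (h : x * x' = 1) (h' : x' * x = 1) {Z : Matrix ι' ι' (MonoidAlgebra R G)}
    (hZ : IsUnit Z) : IsUnit (x * Z * x') := by
  obtain ⟨u, rfl⟩ := hZ
  have h1 : u.val * u.inv = 1 := u.val_inv
  have h2 : u.inv * u.val = 1 := u.inv_val
  refine ⟨⟨x * u.val * x', x * u.inv * x', ?_, ?_⟩, rfl⟩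
  · calc x * u.val * x' * (x * u.inv * x') = x * u.val * (x' * x) * u.inv * x' := by
          simp only [Matrix.mul_assoc]
      _ = x * (u.val * u.inv) * x' := by rw [h', Matrix.mul_one, Matrix.mul_assoc x]
      _ = 1 := by rw [h1, Matrix.mul_one, h]
  · calc x * u.inv * x' * (x * u.val * x') = x * u.inv * (x' * x) * u.val * x' := by
          simp only [Matrix.mul_assoc]
      _ = x * (u.inv * u.val) * x' := by rw [h', Matrix.mul_one, Matrix.mul_assoc x]
      _ = 1 := by rw [h2, Matrix.mul_one, h]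

theorem k_conj {κ : ∀ (ι : Type) [Fintype ι], Matrix ι ι (MonoidAlgebra R G) → K} (hκ : KF κ)
    (h : x * x' = 1) (h' : x' * x = 1) {Z : Matrix ι' ι' (MonoidAlgebra R G)}
    (hZ : IsUnit Z) : κ ι (x * Z * x') = κ ι' Z := by
  have a1 : 1 + (x * (Z - 1)) * x' = x * Z * x' := by
    rw [Matrix.mul_sub, Matrix.mul_one, Matrix.sub_mul, h]
    abel
  have a2 : 1 + x' * (x * (Z - 1)) = Z := by
    rw [← Matrix.mul_assoc, h', Matrix.one_mul]
    abel
  have hu : IsUnit (1 + (x * (Z - 1)) * x') := by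
    rw [a1]
    exact u2 h h' hZ
  have := hκ.swap ι ι' (x * (Z - 1)) x' hu
  rwa [a1, a2] at this

end units

end RKFM

open RKFM in
theorem specRKF (hKCL : SpecKCL) : SpecRKF := by
  intro R G K _ _ _ κ hκ N hN
  obtain ⟨_, k2, _, _⟩ := hKCL (MonoidAlgebra R G) K κ hκ
  refine ⟨rkf κ N, ?_, ?_, ?_, ?_⟩
  · intro ι ι' ι'' _ _ _ _ _ _ x x' y y' hx hx' hy hy'
    have hxy : (x * y) * (y' * x') = 1 := by
      rw [Matrix.mul_assoc, ← Matrix.mul_assoc y, hy, Matrix.one_mul, hx]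
    have hxy' : (y' * x') * (x * y) = 1 := by
      rw [Matrix.mul_assoc, ← Matrix.mul_assoc x', hx', Matrix.one_mul, hy']
    rw [rkf_eq κ N (iv_mk hxy hxy'), rkf_eq κ N (iv_mk hx hx'), rkf_eq κ N (iv_mk hy hy'),
      ← QuotientAddGroup.mk_add]
    congr 1
    have e : x * y * (y' * x').map (E R G) =
        (x * x'.map (E R G)) * (x.map (E R G) * (y * y'.map (E R G)) * x'.map (E R G)) := by
      rw [map_mul']
      calc x * y * (y'.map (E R G) * x'.map (E R G))
          = x * (1 : Matrix ι' ι' (MonoidAlgebra R G)) * (y * y'.map (E R G)) * x'.map (E R G) := by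
            rw [Matrix.mul_one]
            simp only [Matrix.mul_assoc]
        _ = x * (x'.map (E R G) * x.map (E R G)) * (y * y'.map (E R G)) * x'.map (E R G) := by
            rw [e1 hx']
        _ = _ := by simp only [Matrix.mul_assoc]
    rw [e, hκ.mul ι _ _ (u1 hx hx') (u2 (e1 hx) (e1 hx') (u1 hy hy')),
      k_conj hκ (e1 hx) (e1 hx') (u1 hy hy')]
  · intro ι _ _ M hM
    obtain ⟨u, rfl⟩ := hM
    have h1 : u.val * u.inv = 1 := u.val_inv
    have h2 : u.inv * u.val = 1 := u.inv_val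
    rw [rkf_eq κ N (iv_mk h1 h2)]
    have hE : IsUnit (u.inv.map (E R G)) :=
      ⟨⟨u.inv.map (E R G), u.val.map (E R G), e1 h2, e1 h1⟩, rfl⟩
    rw [hκ.mul ι _ _ u.isUnit hE, QuotientAddGroup.mk_add]
    have hz : (QuotientAddGroup.mk (κ ι (u.inv.map (E R G))) : K ⧸ N) = 0 :=
      (QuotientAddGroup.eq_zero_iff _).mpr (hN ι _ hE (E_suppIn _ rfl))
    rw [hz, add_zero]
  · intro P hP ι ι' _ _ _ _ x x' hx hx' hs
    rw [rkf_eq κ N (iv_mk hx hx')]
    apply (QuotientAddGroup.eq_zero_iff _).mpr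
    apply hP ι _ (u1 hx hx')
    exact supp_mul hs (E_suppIn x' (X := (P : Set G)) P.one_mem) fun a ha b hb => P.mul_mem ha hb
  · intro ι ι' ρ ρ' _ _ _ _ _ _ _ _ x x' y y' hx hx' hy hy'
    have hb : fromBlocks x 0 0 y * fromBlocks x' 0 0 y' = 1 := by
      rw [fromBlocks_multiply, hx, hy]
      simp
    have hb' : fromBlocks x' 0 0 y' * fromBlocks x 0 0 y = 1 := by
      rw [fromBlocks_multiply, hx', hy']
      simp
    rw [rkf_eq κ N (iv_mk hb hb'), rkf_eq κ N (iv_mk hx hx'), rkf_eq κ N (iv_mk hy hy'),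
      ← QuotientAddGroup.mk_add]
    congr 1
    have e : fromBlocks x 0 0 y * (fromBlocks x' 0 0 y').map (E R G) =
        fromBlocks (x * x'.map (E R G)) 0 0 (y * y'.map (E R G)) := by
      rw [fromBlocks_map, fromBlocks_multiply]
      simp
    rw [e]
    exact k2 ι ρ _ 0 _ (u1 hx hx') (u1 hy hy')

end Pool.Agent.Lib.MPb6f35e.KN
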