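import Pool.Agent.Lib.MP_b6f35e_al.KN.SpecC

/-!
# SSB: `StR` for a subgroup (MP_b6f35e_al, folder KN, part C)
-/

namespace Pool.Agent.Lib.MPb6f35e.KN

open Matrix
open Pool.Agent.Lib.MP8a3537.UV (emb res lres SuppIn)

namespace SsbM

variable {R G : Type} [Ring R] [Group G]

/-- the inclusion `P × Z^m → G × Z^m` -/
def jm (P : Subgroup G) (m : ℕ) : P × Zm m →* G × Zm m :=
  MonoidHom.prodMap P.subtype (MonoidHom.id (Zm m))

theorem jm_apply (P : Subgroup G) (m : ℕ) (x : P × Zm m) : jm P m x = ((x.1 : G), x.2) := rfl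

theorem jm_inj (P : Subgroup G) (m : ℕ) : Function.Injective (jm P m) := by
  intro x y h
  rw [jm_apply, jm_apply, Prod.mk.injEq] at h
  exact Prod.ext (Subtype.ext h.1) h.2

/-- `R[P × Z^m] → R[G × Z^m]` -/
noncomputable def ph (R : Type) {G : Type} [Ring R] [Group G] (P : Subgroup G) (m : ℕ) :
    MonoidAlgebra R (P × Zm m) →+* MonoidAlgebra R (G × Zm m) :=
  MonoidAlgebra.mapDomainRingHom R (jm P m)

theorem ph_apply (P : Subgroup G) (m : ℕ) (x : MonoidAlgebra R (P × Zm m)) :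
    ph R P m x = MonoidAlgebra.mapDomain (jm P m) x := rfl

theorem ph_inj (P : Subgroup G) (m : ℕ) : Function.Injective (ph R P m) :=
  MonoidAlgebra.mapDomain_injective (jm_inj P m)

theorem ph_supp (P : Subgroup G) (m : ℕ) (x : MonoidAlgebra R (P × Zm m)) (g : G × Zm m)
    (h : (ph R P m x).coeff g ≠ 0) : g.1 ∈ P := by
  by_contra hg
  apply h
  rw [ph_apply]
  show (Finsupp.mapDomain (jm P m) x.coeff) g = 0
  apply Finsupp.mapDomain_of_notMem_range
  rintro ⟨a, rfl⟩
  exact hg a.1.2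

theorem ph_lift (P : Subgroup G) (m : ℕ) (x : MonoidAlgebra R (G × Zm m))
    (h : ∀ g, x.coeff g ≠ 0 → g.1 ∈ P) : ∃ x', ph R P m x' = x := by
  refine ⟨MonoidAlgebra.comapDomain (jm P m) (jm_inj P m) x, ?_⟩
  rw [ph_apply]
  apply MonoidAlgebra.mapDomain_comapDomain
  intro g hg
  exact ⟨(⟨g.1, h g (Finsupp.mem_support_iff.1 (Finset.mem_coe.1 hg))⟩, g.2), rfl⟩

end SsbM

open SsbM in
theorem specSSB : SpecSSB := by
  intro R G _ _ P hP m ι _ _ p hp hpp
  have hl : ∀ i j, ∃ x', ph R P m x' = p i j := fun i j => ph_lift P m _ fun g hg => hp i j g hg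
  choose p' hp' using hl
  have e1 : (Matrix.of p').map (ph R P m) = p := by
    ext1 i j
    exact hp' i j
  have e2 : Matrix.of p' * Matrix.of p' = Matrix.of p' := by
    apply Matrix.map_injective (ph_inj (R := R) P m)
    show (Matrix.of p' * Matrix.of p').map (ph R P m) = (Matrix.of p').map (ph R P m)
    rw [Matrix.map_mul, e1, hpp]
  obtain ⟨r, s, x, y, hxy, hyx⟩ := hP m ι (Matrix.of p') e2
  refine ⟨r, s, x.map (ph R P m), y.map (ph R P m), ?_, ?_, ?_, ?_⟩
  · intro i j g hg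
    exact ph_supp P m _ g hg
  · intro i j g hg
    exact ph_supp P m _ g hg
  · rw [← Matrix.map_mul, hxy, Matrix.fromBlocks_map, e1, Matrix.map_zero _ (map_zero _),
      Matrix.map_zero _ (map_zero _), Matrix.map_one _ (map_zero _) (map_one _)]
  · rw [← Matrix.map_mul, hyx, Matrix.map_one _ (map_zero _) (map_one _)]

end Pool.Agent.Lib.MPb6f35e.KN
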