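import Pool.Agent.Lib.MP_b6f35e_al.KN.SpecC

/-! Module STG: glued matrices with stably free parts. -/

set_option linter.all false

namespace Pool.Agent.Lib.MPb6f35e.KN

open Matrix
open Pool.Agent.Lib.MP8a3537.UV (SuppIn)

namespace STGM

variable {R G V Q : Type} [Ring R] [Group G] [MulAction G V] [AddCommGroup Q]

/-- Properties of the classes of rectangular matrices. -/
structure Rk (v w : V)
    (rk : ∀ (ι ι' : Type) [Fintype ι] [Fintype ι'], Matrix ι ι' (MonoidAlgebra R G) → Q) :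
    Prop where
  mul : ∀ (ι ι' ι'' : Type) [Fintype ι] [DecidableEq ι] [Fintype ι'] [DecidableEq ι'] [Fintype ι'']
    [DecidableEq ι''] (x : Matrix ι ι' (MonoidAlgebra R G)) (x' : Matrix ι' ι (MonoidAlgebra R G))
    (y : Matrix ι' ι'' (MonoidAlgebra R G)) (y' : Matrix ι'' ι' (MonoidAlgebra R G)),
    x * x' = 1 → x' * x = 1 → y * y' = 1 → y' * y = 1 →
    rk ι ι'' (x * y) = rk ι ι' x + rk ι' ι'' y
  sv : ∀ (ι ι' : Type) [Fintype ι] [DecidableEq ι] [Fintype ι'] [DecidableEq ι']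
    (x : Matrix ι ι' (MonoidAlgebra R G)) (x' : Matrix ι' ι (MonoidAlgebra R G)),
    x * x' = 1 → x' * x = 1 → (∀ i j g, (x i j).coeff g ≠ 0 → g • v = v) → rk ι ι' x = 0
  sw : ∀ (ι ι' : Type) [Fintype ι] [DecidableEq ι] [Fintype ι'] [DecidableEq ι']
    (x : Matrix ι ι' (MonoidAlgebra R G)) (x' : Matrix ι' ι (MonoidAlgebra R G)),
    x * x' = 1 → x' * x = 1 → (∀ i j g, (x i j).coeff g ≠ 0 → g • w = w) → rk ι ι' x = 0
  blk : ∀ (ι ι' ρ ρ' : Type) [Fintype ι] [DecidableEq ι] [Fintype ι'] [DecidableEq ι'] [Fintype ρ]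
    [DecidableEq ρ] [Fintype ρ'] [DecidableEq ρ'] (x : Matrix ι ι' (MonoidAlgebra R G))
    (x' : Matrix ι' ι (MonoidAlgebra R G)) (y : Matrix ρ ρ' (MonoidAlgebra R G))
    (y' : Matrix ρ' ρ (MonoidAlgebra R G)),
    x * x' = 1 → x' * x = 1 → y * y' = 1 → y' * y = 1 →
    rk (ι ⊕ ρ) (ι' ⊕ ρ') (fromBlocks x 0 0 y) = rk ι ι' x + rk ρ ρ' y
  dia : ∀ (ι : Type) [Fintype ι] [DecidableEq ι] (f : ι → G),
    rk ι ι (Matrix.diagonal fun i => MonoidAlgebra.single (f i) 1) = 0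

theorem one_ne (g : G) (h : (1 : MonoidAlgebra R G).coeff g ≠ 0) : g = 1 := by
  classical
  by_contra hg
  apply h
  rw [MonoidAlgebra.one_def, MonoidAlgebra.coeff_single, Finsupp.single_apply, if_neg]
  exact fun e => hg e.symm

theorem one_mat_ne {ι : Type} [DecidableEq ι] (i j : ι) (g : G)
    (h : ((1 : Matrix ι ι (MonoidAlgebra R G)) i j).coeff g ≠ 0) : g = 1 := by
  rcases eq_or_ne i j with rfl | hij
  · rw [Matrix.one_apply_eq] at h
    exact one_ne g h
  · rw [Matrix.one_apply_ne hij] at h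
    exact absurd rfl h

theorem zero_ne (g : G) (h : (0 : MonoidAlgebra R G).coeff g ≠ 0) : False := h rfl

theorem coeff_mul_ne (x y : MonoidAlgebra R G) (g : G) (h : (x * y).coeff g ≠ 0) :
    ∃ u v, x.coeff u ≠ 0 ∧ y.coeff v ≠ 0 ∧ u * v = g := by
  classical
  have := MonoidAlgebra.support_coeff_mul_subset x y (Finsupp.mem_support_iff.2 h)
  obtain ⟨u, hu, v, hv, e⟩ := Finset.mem_mul.1 this
  exact ⟨u, v, Finsupp.mem_support_iff.1 hu, Finsupp.mem_support_iff.1 hv, e⟩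

theorem mul_ne {l m n : Type} [Fintype m] (M : Matrix l m (MonoidAlgebra R G))
    (N : Matrix m n (MonoidAlgebra R G)) (i : l) (j : n) (g : G) (hg : ((M * N) i j).coeff g ≠ 0) :
    ∃ k a b, (M i k).coeff a ≠ 0 ∧ (N k j).coeff b ≠ 0 ∧ a * b = g := by
  rw [Matrix.mul_apply, MonoidAlgebra.coeff_sum, Finsupp.finsetSum_apply] at hg
  obtain ⟨k, -, hk⟩ := Finset.exists_ne_zero_of_sum_ne_zero hg
  obtain ⟨u, v, hu, hv, e⟩ := coeff_mul_ne _ _ _ hk
  exact ⟨k, u, v, hu, hv, e⟩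

variable {v w : V}
  {rk : ∀ (ι ι' : Type) [Fintype ι] [Fintype ι'], Matrix ι ι' (MonoidAlgebra R G) → Q}

/-- The case without `g v = w`. -/
theorem caseA (h : Rk v w rk) (hno : ∀ g : G, g • v ≠ w) {σ1 σ2 ι : Type} [Fintype σ1]
    [DecidableEq σ1] [Fintype σ2] [DecidableEq σ2] [Fintype ι] [DecidableEq ι]
    (B : Matrix (σ1 ⊕ σ2) ι (MonoidAlgebra R G)) (D : Matrix ι (σ1 ⊕ σ2) (MonoidAlgebra R G))
    (hBD : B * D = 1) (hDB : D * B = 1) (c : ι → V) (hc : ∀ j, c j = v ∨ c j = w)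
    (h1 : ∀ i j g, (B (Sum.inl i) j).coeff g ≠ 0 → g • c j = v)
    (h2 : ∀ i j g, (B (Sum.inr i) j).coeff g ≠ 0 → g • c j = w) : rk (σ1 ⊕ σ2) ι B = 0 := by
  classical
  obtain ⟨J1, J2, e, he1, he2, f1, f2⟩ : ∃ (J1 J2 : Type) (e : J1 ⊕ J2 ≃ ι),
      (∀ j, c (e (Sum.inl j)) = v) ∧ (∀ j, c (e (Sum.inr j)) = w) ∧
      Nonempty (Fintype J1) ∧ Nonempty (Fintype J2) := by
    refine ⟨{j // c j = v}, {j // ¬ c j = v}, Equiv.sumCompl fun j => c j = v, ?_, ?_,
      ⟨inferInstance⟩, ⟨inferInstance⟩⟩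
    · rintro ⟨j, hj⟩
      exact hj
    · rintro ⟨j, hj⟩
      exact (hc j).resolve_left hj
  obtain ⟨f1⟩ := f1
  obtain ⟨f2⟩ := f2
  -- the entries outside of the blocks
  have z1 : ∀ i j, B (Sum.inl i) (e (Sum.inr j)) = 0 := by
    intro i j
    ext g
    by_contra hg
    have h3 := h1 i _ g hg
    rw [he2] at h3
    exact hno g⁻¹ (by rw [← h3, inv_smul_smul])
  have z2 : ∀ i j, B (Sum.inr i) (e (Sum.inl j)) = 0 := by
    intro i j
    ext g
    by_contra hg
    have h3 := h2 i _ g hg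
    rw [he1] at h3
    exact hno g h3
  have hB : B.submatrix id e = fromBlocks (B.submatrix Sum.inl fun j => e (Sum.inl j)) 0 0
      (B.submatrix Sum.inr fun j => e (Sum.inr j)) := by
    ext1 i j
    rcases i with i | i <;> rcases j with j | j
    · rfl
    · exact z1 i j
    · exact z2 i j
    · rfl
  have hD : D.submatrix e id = fromBlocks (D.submatrix (fun j => e (Sum.inl j)) Sum.inl)
      (D.submatrix (fun j => e (Sum.inl j)) Sum.inr) (D.submatrix (fun j => e (Sum.inr j)) Sum.inl)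
      (D.submatrix (fun j => e (Sum.inr j)) Sum.inr) := by
    ext1 i j
    rcases i with i | i <;> rcases j with j | j <;> rfl
  have e1 : B.submatrix id e * D.submatrix e id = 1 := by
    rw [Matrix.submatrix_mul_equiv, hBD, Matrix.submatrix_id_id]
  have e2 : D.submatrix e id * B.submatrix id e = 1 := by
    have := Matrix.submatrix_mul_equiv D B e (Equiv.refl _) e
    rw [hDB, Matrix.submatrix_one_equiv] at this
    exact this
  rw [hB, hD, fromBlocks_multiply, ← fromBlocks_one, fromBlocks_inj] at e1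
  rw [hB, hD, fromBlocks_multiply, ← fromBlocks_one, fromBlocks_inj] at e2
  simp only [Matrix.zero_mul, Matrix.mul_zero, add_zero, zero_add] at e1 e2
  have k1 := h.blk _ _ _ _ _ _ _ _ e1.1 e2.1 e1.2.2.2 e2.2.2.2
  have s1 := h.sv _ _ _ _ e1.1 e2.1 (by
    intro i j g hg
    have := h1 i _ g hg
    rwa [he1] at this)
  have s2 := h.sw _ _ _ _ e1.2.2.2 e2.2.2.2 (by
    intro i j g hg
    have := h2 i _ g hg
    rwa [he2] at this)
  rw [s1, s2, add_zero, ← hB] at k1
  -- the permutation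
  have p1 : (1 : Matrix ι ι (MonoidAlgebra R G)).submatrix id e *
      (1 : Matrix ι ι (MonoidAlgebra R G)).submatrix e id = 1 := by
    rw [Matrix.submatrix_mul_equiv, Matrix.one_mul, Matrix.submatrix_id_id]
  have p2 : (1 : Matrix ι ι (MonoidAlgebra R G)).submatrix e id *
      (1 : Matrix ι ι (MonoidAlgebra R G)).submatrix id e = 1 := by
    have := Matrix.submatrix_mul_equiv (1 : Matrix ι ι (MonoidAlgebra R G))
      (1 : Matrix ι ι (MonoidAlgebra R G)) e (Equiv.refl _) e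
    rw [Matrix.one_mul, Matrix.submatrix_one_equiv] at this
    exact this
  have s3 := h.sv _ _ _ _ p1 p2 (by
    intro i j g hg
    rw [one_mat_ne _ _ g hg, one_smul])
  have k2 := h.mul _ _ _ _ _ _ _ hBD hDB p1 p2
  have e3 : B * (1 : Matrix ι ι (MonoidAlgebra R G)).submatrix id e = B.submatrix id e := by
    have := Matrix.submatrix_mul_equiv B (1 : Matrix ι ι (MonoidAlgebra R G)) id (Equiv.refl _) e
    rw [Matrix.mul_one] at this
    exact this
  rw [s3, add_zero, e3, k1] at k2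
  exact k2.symm

/-- The case `t v = w`. -/
theorem caseB (h : Rk v w rk) (t : G) (ht : t • v = w) {σ1 σ2 ι : Type} [Fintype σ1]
    [DecidableEq σ1] [Fintype σ2] [DecidableEq σ2] [Fintype ι] [DecidableEq ι]
    (B : Matrix (σ1 ⊕ σ2) ι (MonoidAlgebra R G)) (D : Matrix ι (σ1 ⊕ σ2) (MonoidAlgebra R G))
    (hBD : B * D = 1) (hDB : D * B = 1) (c : ι → V) (hc : ∀ j, c j = v ∨ c j = w)
    (h1 : ∀ i j g, (B (Sum.inl i) j).coeff g ≠ 0 → g • c j = v)
    (h2 : ∀ i j g, (B (Sum.inr i) j).coeff g ≠ 0 → g • c j = w) : rk (σ1 ⊕ σ2) ι B = 0 := by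
  classical
  obtain ⟨f, hf⟩ : ∃ f : σ1 ⊕ σ2 → G, f = Sum.elim (fun _ => 1) (fun _ => t⁻¹) := ⟨_, rfl⟩
  obtain ⟨f', hf'⟩ : ∃ f' : ι → G, f' = fun j => if c j = v then 1 else t := ⟨_, rfl⟩
  have hf1 : ∀ i, f (Sum.inl i) = 1 := by
    intro i
    rw [hf]
    rfl
  have hf2 : ∀ i, f (Sum.inr i) = t⁻¹ := by
    intro i
    rw [hf]
    rfl
  have hf3 : ∀ j, f' j • v = c j := by
    intro j
    rw [hf']
    beta_reduce
    by_cases hj : c j = v
    · rw [if_pos hj, one_smul, hj]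
    · rw [if_neg hj, ht]
      exact ((hc j).resolve_left hj).symm
  have hdd : ∀ (κ : Type) [Fintype κ] [DecidableEq κ] (a b : κ → G), (∀ i, a i * b i = 1) →
      (Matrix.diagonal fun i => (MonoidAlgebra.single (a i) 1 : MonoidAlgebra R G)) *
        (Matrix.diagonal fun i => (MonoidAlgebra.single (b i) 1 : MonoidAlgebra R G)) = 1 := by
    intro κ _ _ a b hab
    rw [Matrix.diagonal_mul_diagonal, ← Matrix.diagonal_one]
    congr 1
    funext i
    rw [MonoidAlgebra.single_mul_single, hab, mul_one]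
    rfl
  have a1 := hdd _ f (fun i => (f i)⁻¹) (fun i => mul_inv_cancel _)
  have a2 := hdd _ (fun i => (f i)⁻¹) f (fun i => inv_mul_cancel _)
  have b1 := hdd _ f' (fun i => (f' i)⁻¹) (fun i => mul_inv_cancel _)
  have b2 := hdd _ (fun i => (f' i)⁻¹) f' (fun i => inv_mul_cancel _)
  have m1 := h.mul _ _ _ _ _ _ _ hBD hDB b1 b2
  have c1 : (B * Matrix.diagonal fun i => (MonoidAlgebra.single (f' i) 1 : MonoidAlgebra R G)) *
      ((Matrix.diagonal fun i => (MonoidAlgebra.single (f' i)⁻¹ 1 : MonoidAlgebra R G)) * D) =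
      1 := by
    rw [Matrix.mul_assoc B, ← Matrix.mul_assoc (Matrix.diagonal _), b1, Matrix.one_mul, hBD]
  have c2 : ((Matrix.diagonal fun i => (MonoidAlgebra.single (f' i)⁻¹ 1 : MonoidAlgebra R G)) *
      D) * (B * Matrix.diagonal fun i => (MonoidAlgebra.single (f' i) 1 : MonoidAlgebra R G)) =
      1 := by
    rw [Matrix.mul_assoc (Matrix.diagonal _), ← Matrix.mul_assoc D, hDB, Matrix.one_mul, b2]
  have m2 := h.mul _ _ _ _ _ _ _ a1 a2 c1 c2
  rw [m1, h.dia, h.dia, zero_add, add_zero] at m2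
  rw [← m2]
  refine h.sv _ _ _ (((Matrix.diagonal fun i =>
    (MonoidAlgebra.single (f' i)⁻¹ 1 : MonoidAlgebra R G)) * D) *
      Matrix.diagonal fun i => (MonoidAlgebra.single (f i)⁻¹ 1 : MonoidAlgebra R G)) ?_ ?_ ?_
  · rw [Matrix.mul_assoc (Matrix.diagonal _), ← Matrix.mul_assoc (B * _), c1, Matrix.one_mul, a1]
  · rw [Matrix.mul_assoc (_ * D), ← Matrix.mul_assoc (Matrix.diagonal _) (Matrix.diagonal _), a2,
      Matrix.one_mul, c2]
  · intro i j g hg
    rw [← Matrix.mul_assoc, Matrix.mul_diagonal, Matrix.diagonal_mul] at hg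
    obtain ⟨b1, b', hb1, hb', rfl⟩ := coeff_mul_ne _ _ _ hg
    obtain ⟨a, b, ha, hb, rfl⟩ := coeff_mul_ne _ _ _ hb1
    have ea : a = f i := by
      by_contra hne
      apply ha
      rw [MonoidAlgebra.coeff_single, Finsupp.single_apply, if_neg]
      exact fun e => hne e.symm
    have eb : b' = f' j := by
      by_contra hne
      apply hb'
      rw [MonoidAlgebra.coeff_single, Finsupp.single_apply, if_neg]
      exact fun e => hne e.symm
    rw [ea, eb, mul_smul, mul_smul, hf3]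
    rcases i with i | i
    · rw [h1 i j b hb, hf1, one_smul]
    · rw [h2 i j b hb, hf2, ← ht, inv_smul_smul]

/-- Both cases. -/
theorem rk_zero (h : Rk v w rk) {σ1 σ2 ι : Type} [Fintype σ1]
    [DecidableEq σ1] [Fintype σ2] [DecidableEq σ2] [Fintype ι] [DecidableEq ι]
    (B : Matrix (σ1 ⊕ σ2) ι (MonoidAlgebra R G)) (D : Matrix ι (σ1 ⊕ σ2) (MonoidAlgebra R G))
    (hBD : B * D = 1) (hDB : D * B = 1) (c : ι → V) (hc : ∀ j, c j = v ∨ c j = w)
    (h1 : ∀ i j g, (B (Sum.inl i) j).coeff g ≠ 0 → g • c j = v)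
    (h2 : ∀ i j g, (B (Sum.inr i) j).coeff g ≠ 0 → g • c j = w) : rk (σ1 ⊕ σ2) ι B = 0 := by
  by_cases ht : ∃ t : G, t • v = w
  · obtain ⟨t, ht⟩ := ht
    exact caseB h t ht B D hBD hDB c hc h1 h2
  · exact caseA h (fun g hg => ht ⟨g, hg⟩) B D hBD hDB c hc h1 h2

/-- The parts of the matrices of a stably free idempotent matrix. -/
theorem parts {ι : Type} [Fintype ι] [DecidableEq ι] {p : Matrix ι ι (MonoidAlgebra R G)}
    {X : Set G} (h : StFin X p) :
    ∃ (r s : ℕ) (a : Matrix ι (Fin s) (MonoidAlgebra R G))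
      (b : Matrix (Fin r) (Fin s) (MonoidAlgebra R G))
      (d : Matrix (Fin s) ι (MonoidAlgebra R G)) (e : Matrix (Fin s) (Fin r) (MonoidAlgebra R G)),
      SuppIn X d ∧ SuppIn X e ∧ a * d = p ∧ a * e = 0 ∧ b * d = 0 ∧ b * e = 1 ∧
      d * a + e * b = 1 := by
  obtain ⟨r, s, x, y, hx, hy, hxy, hyx⟩ := h
  obtain ⟨a, b, rfl⟩ : ∃ (a : Matrix ι (Fin s) (MonoidAlgebra R G))
      (b : Matrix (Fin r) (Fin s) (MonoidAlgebra R G)), x = fromRows a b :=
    ⟨x.toRows₁, x.toRows₂, (fromRows_toRows x).symm⟩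
  obtain ⟨d, e, rfl⟩ : ∃ (d : Matrix (Fin s) ι (MonoidAlgebra R G))
      (e : Matrix (Fin s) (Fin r) (MonoidAlgebra R G)), y = fromCols d e :=
    ⟨y.toCols₁, y.toCols₂, (fromCols_toCols y).symm⟩
  rw [fromRows_mul_fromCols, fromBlocks_inj] at hxy
  rw [fromCols_mul_fromRows] at hyx
  exact ⟨r, s, a, b, d, e, fun i j g hg => hy i (Sum.inl j) g hg,
    fun i j g hg => hy i (Sum.inr j) g hg, hxy.1, hxy.2.1, hxy.2.2.1, hxy.2.2.2, hyx⟩

end STGM

open STGM in
theorem specSTG (hKCL : SpecKCL) (hRKF : SpecRKF) : SpecSTG := by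
  intro R G V K _ _ _ _ κ hκ v w N hvw hv hw hd hs ι _ _ B hB hgl
  obtain ⟨rk, rmul, rsq, rsub, rblk⟩ := hRKF R G K κ hκ N (by
    intro ι _ _ M hM hM1
    apply hv ι M hM
    intro i j g hg
    have : g = 1 := hM1 i j g hg
    show g • v = v
    rw [this, one_smul])
  obtain ⟨kone, k2, _, _⟩ := hKCL (MonoidAlgebra R G) K κ hκ
  have hrk : Rk v w rk := by
    refine ⟨rmul, ?_, ?_, rblk, ?_⟩
    · intro ι ι' _ _ _ _ x x' hx hx' hxs
      refine rsub (MulAction.stabilizer G v) ?_ ι ι' x x' hx hx' ?_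
      · intro ι _ _ M hM hM1
        exact hv ι M hM fun i j g hg => MulAction.mem_stabilizer_iff.1 (hM1 i j g hg)
      · intro i j g hg
        exact MulAction.mem_stabilizer_iff.2 (hxs i j g hg)
    · intro ι ι' _ _ _ _ x x' hx hx' hxs
      refine rsub (MulAction.stabilizer G w) ?_ ι ι' x x' hx hx' ?_
      · intro ι _ _ M hM hM1
        exact hw ι M hM fun i j g hg => MulAction.mem_stabilizer_iff.1 (hM1 i j g hg)
      · intro i j g hg
        exact MulAction.mem_stabilizer_iff.2 (hxs i j g hg)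
    · intro ι _ _ f
      rw [rsq]
      · exact (QuotientAddGroup.eq_zero_iff _).mpr (hd ι f)
      · have hdd : ∀ (a b : ι → G), (∀ i, a i * b i = 1) →
          (Matrix.diagonal fun i => (MonoidAlgebra.single (a i) 1 : MonoidAlgebra R G)) *
            (Matrix.diagonal fun i => (MonoidAlgebra.single (b i) 1 : MonoidAlgebra R G)) = 1 := by
          intro a b hab
          rw [Matrix.diagonal_mul_diagonal, ← Matrix.diagonal_one]
          congr 1
          funext i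
          rw [MonoidAlgebra.single_mul_single, hab, mul_one]
          rfl
        exact ⟨⟨_, _, hdd f (fun i => (f i)⁻¹) (fun i => mul_inv_cancel _),
          hdd (fun i => (f i)⁻¹) f (fun i => inv_mul_cancel _)⟩, rfl⟩
  obtain ⟨π, c, hπ, hππ, hc, g1, g2⟩ := hgl
  have hπ' : SuppIn (Hv G v w) (1 - π) := by
    intro i j g hg
    rw [Matrix.sub_apply, MonoidAlgebra.coeff_sub, Finsupp.sub_apply] at hg
    by_cases h1 : (π i j).coeff g = 0
    · rw [h1, sub_zero] at hg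
      rw [one_mat_ne i j g hg]
      exact ⟨one_smul _ _, one_smul _ _⟩
    · exact hπ i j g h1
  have hππ' : (1 - π) * (1 - π) = 1 - π := by
    rw [Matrix.sub_mul, Matrix.mul_sub, Matrix.mul_sub, Matrix.one_mul, Matrix.one_mul,
      Matrix.mul_one, hππ, sub_self, sub_zero]
  obtain ⟨r1, s1, a1, b1, d1, e1, sd1, se1, ad1, ae1, bd1, be1, da1⟩ :=
    parts (hs ι π (fun i j g hg => hπ i j g hg) hππ)
  obtain ⟨r2, s2, a2, b2, d2, e2, sd2, se2, ad2, ae2, bd2, be2, da2⟩ := parts (hs ι _ hπ' hππ')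
  -- identities
  have q1 : d1 * π = d1 := by
    calc d1 * π = (d1 * a1 + e1 * b1) * d1 := by
          rw [Matrix.add_mul, Matrix.mul_assoc, Matrix.mul_assoc, ad1, bd1, Matrix.mul_zero,
            add_zero]
      _ = d1 := by rw [da1, Matrix.one_mul]
  have q2 : π * a1 = a1 := by
    calc π * a1 = a1 * (d1 * a1 + e1 * b1) := by
          rw [Matrix.mul_add, ← Matrix.mul_assoc, ← Matrix.mul_assoc, ad1, ae1, Matrix.zero_mul,
            add_zero]
      _ = a1 := by rw [da1, Matrix.mul_one]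
  have q3 : d2 * (1 - π) = d2 := by
    calc d2 * (1 - π) = (d2 * a2 + e2 * b2) * d2 := by
          rw [Matrix.add_mul, Matrix.mul_assoc, Matrix.mul_assoc, ad2, bd2, Matrix.mul_zero,
            add_zero]
      _ = d2 := by rw [da2, Matrix.one_mul]
  have q4 : (1 - π) * a2 = a2 := by
    calc (1 - π) * a2 = a2 * (d2 * a2 + e2 * b2) := by
          rw [Matrix.mul_add, ← Matrix.mul_assoc, ← Matrix.mul_assoc, ad2, ae2, Matrix.zero_mul,
            add_zero]
      _ = a2 := by rw [da2, Matrix.mul_one]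
  have hz1 : π * (1 - π) = 0 := by rw [Matrix.mul_sub, Matrix.mul_one, hππ, sub_self]
  have hz2 : (1 - π) * π = 0 := by rw [Matrix.sub_mul, Matrix.one_mul, hππ, sub_self]
  have q5 : d1 * a2 = 0 := by
    rw [← q1, ← q4, Matrix.mul_assoc, ← Matrix.mul_assoc π, hz1, Matrix.zero_mul, Matrix.mul_zero]
  have q6 : d2 * a1 = 0 := by
    rw [← q3, ← q2, Matrix.mul_assoc, ← Matrix.mul_assoc (1 - π), hz2, Matrix.zero_mul,
      Matrix.mul_zero]
  have q7 : a1 * d1 + a2 * d2 = 1 := by rw [ad1, ad2, add_sub_cancel]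
  -- the matrices
  obtain ⟨y, hy⟩ : ∃ y : Matrix (Fin s1 ⊕ Fin s2) (ι ⊕ (Fin r1 ⊕ Fin r2)) (MonoidAlgebra R G),
      y = fromBlocks d1 (fromCols e1 0) d2 (fromCols 0 e2) := ⟨_, rfl⟩
  obtain ⟨x, hx⟩ : ∃ x : Matrix (ι ⊕ (Fin r1 ⊕ Fin r2)) (Fin s1 ⊕ Fin s2) (MonoidAlgebra R G),
      x = fromBlocks a1 a2 (fromRows b1 0) (fromRows 0 b2) := ⟨_, rfl⟩
  have hxy : x * y = 1 := by
    have l2 : a1 * fromCols e1 (0 : Matrix (Fin s1) (Fin r2) (MonoidAlgebra R G)) +
        a2 * fromCols (0 : Matrix (Fin s2) (Fin r1) (MonoidAlgebra R G)) e2 = 0 := by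
      rw [mul_fromCols, mul_fromCols, ae1, ae2, Matrix.mul_zero, Matrix.mul_zero, fromCols_zero,
        add_zero]
    have l3 : fromRows b1 (0 : Matrix (Fin r2) (Fin s1) (MonoidAlgebra R G)) * d1 +
        fromRows (0 : Matrix (Fin r1) (Fin s2) (MonoidAlgebra R G)) b2 * d2 = 0 := by
      rw [fromRows_mul, fromRows_mul, bd1, bd2, Matrix.zero_mul, Matrix.zero_mul, fromRows_zero,
        add_zero]
    have l4 : fromRows b1 (0 : Matrix (Fin r2) (Fin s1) (MonoidAlgebra R G)) *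
        fromCols e1 (0 : Matrix (Fin s1) (Fin r2) (MonoidAlgebra R G)) +
        fromRows (0 : Matrix (Fin r1) (Fin s2) (MonoidAlgebra R G)) b2 *
        fromCols (0 : Matrix (Fin s2) (Fin r1) (MonoidAlgebra R G)) e2 = 1 := by
      rw [fromRows_mul_fromCols, fromRows_mul_fromCols, fromBlocks_add, be1, be2,
        Matrix.zero_mul, Matrix.zero_mul, Matrix.zero_mul, Matrix.zero_mul, Matrix.mul_zero,
        Matrix.mul_zero, add_zero, add_zero, zero_add, zero_add, fromBlocks_one]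
    rw [hx, hy, fromBlocks_multiply, q7, l2, l3, l4, fromBlocks_one]
  have hyx : y * x = 1 := by
    rw [hx, hy, fromBlocks_multiply]
    simp only [fromCols_mul_fromRows, Matrix.zero_mul, Matrix.mul_zero, q5, q6, da1, da2,
      add_zero, zero_add]
    exact fromBlocks_one
  have hb : IsUnit (fromBlocks B 0 0 (1 : Matrix (Fin r1 ⊕ Fin r2) (Fin r1 ⊕ Fin r2)
      (MonoidAlgebra R G))) := by
    obtain ⟨u, rfl⟩ := hB
    have h1 : u.val * u.inv = 1 := u.val_inv
    have h2 : u.inv * u.val = 1 := u.inv_val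
    refine ⟨⟨fromBlocks u.val 0 0 1, fromBlocks u.inv 0 0 1, ?_, ?_⟩, rfl⟩
    · rw [fromBlocks_multiply, h1]
      simp
    · rw [fromBlocks_multiply, h2]
      simp
  have kB : κ (ι ⊕ (Fin r1 ⊕ Fin r2)) (fromBlocks B 0 0 1) = κ ι B := by
    rw [k2 _ _ _ _ _ hB isUnit_one, kone, add_zero]
  rw [← kB, ← QuotientAddGroup.eq_zero_iff, ← rsq _ _ hb]
  obtain ⟨u, hu⟩ := hb
  have u1 : u.val * u.inv = 1 := u.val_inv
  have u2 : u.inv * u.val = 1 := u.inv_val
  have ry : rk _ _ y = 0 := by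
    refine hrk.sv _ _ y x hyx hxy ?_
    intro i j g hg
    rw [hy] at hg
    rcases i with i | i <;> rcases j with j | j | j
    · exact (sd1 i j g hg).1
    · exact (se1 i j g hg).1
    · exact absurd rfl hg
    · exact (sd2 i j g hg).1
    · exact absurd rfl hg
    · exact (se2 i j g hg).1
  have m := hrk.mul _ _ _ y x u.val u.inv hyx hxy u1 u2
  rw [ry, zero_add] at m
  have e0 : y * u.val = fromBlocks (d1 * B) (fromCols e1 0) (d2 * B) (fromCols 0 e2) := by
    rw [hu, hy, fromBlocks_multiply]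
    simp only [Matrix.mul_zero, Matrix.mul_one, add_zero, zero_add]
  rw [← hu, ← m]
  refine rk_zero hrk (y * u.val) (u.inv * x) ?_ ?_
    (Sum.elim c (Sum.elim (fun _ => v) (fun _ => w))) ?_ ?_ ?_
  · rw [Matrix.mul_assoc, ← Matrix.mul_assoc u.val, u1, Matrix.one_mul, hyx]
  · rw [Matrix.mul_assoc, ← Matrix.mul_assoc x, hxy, Matrix.one_mul, u2]
  · rintro (j | j | j)
    · exact hc j
    · exact Or.inl rfl
    · exact Or.inr rfl
  · intro i j g hg
    rw [e0] at hg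
    rcases j with j | j | j
    · have hg' : ((d1 * B) i j).coeff g ≠ 0 := hg
      rw [← q1, Matrix.mul_assoc] at hg'
      obtain ⟨k, a, b, ha, hb, rfl⟩ := mul_ne _ _ _ _ _ hg'
      show (a * b) • c j = v
      rw [mul_smul, g1 k j b hb]
      exact (sd1 i k a ha).1
    · exact (se1 i j g hg).1
    · exact absurd rfl hg
  · intro i j g hg
    rw [e0] at hg
    rcases j with j | j | j
    · have hg' : ((d2 * B) i j).coeff g ≠ 0 := hg
      rw [← q3, Matrix.mul_assoc] at hg'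
      obtain ⟨k, a, b, ha, hb, rfl⟩ := mul_ne _ _ _ _ _ hg'
      show (a * b) • c j = w
      rw [mul_smul, g2 k j b hb]
      exact (sd2 i k a ha).2
    · exact absurd rfl hg
    · exact (se2 i j g hg).2

end Pool.Agent.Lib.MPb6f35e.KN
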