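import Pool.Agent.Lib.MP_b6f35e_al.KN.SpecL
import Pool.Agent.Lib.MP_8a3537_gt.RO.JNT

/-! # Module TWN of KN, part L: the homomorphisms `T` -/

namespace Pool.Agent.Lib.MPb6f35e.KN

open Matrix
open Pool.Agent.Lib.MP8a3537.UV (emb res lres SuppIn)
open Pool.Agent.Lib.MP8a3537.RO (Bi dc Kg cut cutM cut_coeff)
open Pool.Agent.Lib.MP8a3537.ROK (TM)

namespace TWNM

open Pool.Agent.Lib.MP8a3537.RO.JNTAux (cut_add cut_zero cut_sum mul_coeff_of supp_cut)

variable {R G : Type} [Ring R] [Group G] (deg : G →* Multiplicative ℤ) (n : ℕ)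

theorem pmod_coeff (k : ZMod n) (b : MonoidAlgebra R G) (g : G) :
    (pmod deg n k b).coeff g = if (((deg g).toAdd : ℤ) : ZMod n) = k then b.coeff g else 0 := by
  classical
  unfold pmod
  rw [cut_coeff]
  by_cases h : (((deg g).toAdd : ℤ) : ZMod n) = k
  · rw [if_pos h, if_pos (show g ∈ {p | (((deg p).toAdd : ℤ) : ZMod n) = k} from h)]
  · rw [if_neg h, if_neg (show g ∉ {p | (((deg p).toAdd : ℤ) : ZMod n) = k} from h)]

theorem pmod_zero (k : ZMod n) : pmod deg n k (0 : MonoidAlgebra R G) = 0 := cut_zero _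

theorem pmod_add (k : ZMod n) (b b' : MonoidAlgebra R G) :
    pmod deg n k (b + b') = pmod deg n k b + pmod deg n k b' := cut_add _ _ _

theorem pmod_sum {α : Type*} (k : ZMod n) (s : Finset α) (f : α → MonoidAlgebra R G) :
    pmod deg n k (∑ i ∈ s, f i) = ∑ i ∈ s, pmod deg n k (f i) := cut_sum _ _ _

theorem pmod_one (k : ZMod n) :
    pmod deg n k (1 : MonoidAlgebra R G) = if k = 0 then 1 else 0 := by
  classical
  ext g
  rw [pmod_coeff]
  by_cases hg : g = 1
  · subst hg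
    rw [map_one, toAdd_one, Int.cast_zero]
    by_cases hk : k = 0
    · rw [if_pos hk.symm, if_pos hk]
    · rw [if_neg (Ne.symm hk), if_neg hk]
      rfl
  · have h1 : (1 : MonoidAlgebra R G).coeff g = 0 := by
      rw [MonoidAlgebra.one_def]
      show (Finsupp.single (1 : G) (1 : R)) g = 0
      exact Finsupp.single_eq_of_ne hg
    rw [h1, ite_self]
    split_ifs
    · exact h1.symm
    · rfl

theorem pmod_mul [NeZero n] (k : ZMod n) (b b' : MonoidAlgebra R G) :
    pmod deg n k (b * b') = ∑ j : ZMod n, pmod deg n j b * pmod deg n (k - j) b' := by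
  classical
  ext z
  rw [pmod_coeff, MonoidAlgebra.coeff_sum, Finsupp.finset_sum_apply,
    mul_coeff_of b b' _ _ (Finset.Subset.refl _) (Finset.Subset.refl _)]
  have h1 : ∀ j : ZMod n, (pmod deg n j b * pmod deg n (k - j) b').coeff z =
      ∑ x ∈ b.coeff.support, ∑ y ∈ b'.coeff.support, if x * y = z then
        (pmod deg n j b).coeff x * (pmod deg n (k - j) b').coeff y else 0 := fun j =>
    mul_coeff_of _ _ _ _ (supp_cut _ _) (supp_cut _ _) z
  rw [Finset.sum_congr rfl fun j _ => h1 j]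
  refine Eq.trans ?_ Finset.sum_comm
  have h2 : ∀ x ∈ b.coeff.support, (∑ j : ZMod n, ∑ y ∈ b'.coeff.support, if x * y = z then
        (pmod deg n j b).coeff x * (pmod deg n (k - j) b').coeff y else 0) =
      ∑ y ∈ b'.coeff.support, if x * y = z then
        (if (((deg z).toAdd : ℤ) : ZMod n) = k then b.coeff x * b'.coeff y else 0) else 0 := by
    intro x _
    rw [Finset.sum_comm]
    refine Finset.sum_congr rfl fun y _ => ?_
    by_cases hz : x * y = z
    · simp only [if_pos hz]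
      rw [Finset.sum_eq_single (((deg x).toAdd : ℤ) : ZMod n)]
      · rw [pmod_coeff, pmod_coeff, if_pos rfl]
        have h3 : (((deg z).toAdd : ℤ) : ZMod n) =
            (((deg x).toAdd : ℤ) : ZMod n) + (((deg y).toAdd : ℤ) : ZMod n) := by
          rw [← hz, map_mul, toAdd_mul, Int.cast_add]
        rw [h3]
        by_cases h4 : (((deg y).toAdd : ℤ) : ZMod n) = k - (((deg x).toAdd : ℤ) : ZMod n)
        · rw [if_pos h4, if_pos (by rw [h4]; ring)]
        · rw [if_neg h4, if_neg (fun h5 => h4 (by rw [← h5]; ring)), mul_zero]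
      · intro j _ hj
        rw [pmod_coeff, if_neg (Ne.symm hj), zero_mul]
      · intro h
        exact absurd (Finset.mem_univ _) h
    · simp only [if_neg hz, Finset.sum_const_zero]
  rw [Finset.sum_congr rfl h2]
  by_cases hz : (((deg z).toAdd : ℤ) : ZMod n) = k
  · simp only [if_pos hz]
  · simp only [if_neg hz, ite_self, Finset.sum_const_zero]

theorem Tm_mul [NeZero n] {ι ι' ι'' : Type} [Fintype ι'] (M : Matrix ι ι' (MonoidAlgebra R G))
    (M' : Matrix ι' ι'' (MonoidAlgebra R G)) : Tm deg n (M * M') = Tm deg n M * Tm deg n M' := by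
  ext1 ⟨i, a⟩ ⟨l, c⟩
  show pmod deg n (c - a) ((M * M') i l) = _
  rw [Matrix.mul_apply, pmod_sum, Matrix.mul_apply, Fintype.sum_prod_type]
  refine Finset.sum_congr rfl fun j _ => ?_
  rw [pmod_mul]
  show _ = ∑ b : ZMod n, pmod deg n (b - a) (M i j) * pmod deg n (c - b) (M' j l)
  rw [← Equiv.sum_comp (Equiv.subRight a)
    (fun k => pmod deg n k (M i j) * pmod deg n (c - a - k) (M' j l))]
  refine Finset.sum_congr rfl fun b _ => ?_
  show pmod deg n (b - a) (M i j) * pmod deg n (c - a - (b - a)) (M' j l) = _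
  rw [show c - a - (b - a) = c - b by ring]

theorem Tm_one {ι : Type} [DecidableEq ι] :
    Tm deg n (1 : Matrix ι ι (MonoidAlgebra R G)) = 1 := by
  ext1 ⟨i, a⟩ ⟨j, b⟩
  show pmod deg n (b - a) ((1 : Matrix ι ι (MonoidAlgebra R G)) i j) = _
  by_cases hij : i = j
  · subst hij
    rw [Matrix.one_apply_eq, pmod_one]
    by_cases hab : a = b
    · subst hab
      rw [sub_self, if_pos rfl, Matrix.one_apply_eq]
    · rw [if_neg (fun h => hab (sub_eq_zero.1 h).symm), Matrix.one_apply_ne]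
      intro h
      exact hab (congrArg Prod.snd h)
  · rw [Matrix.one_apply_ne hij, pmod_zero, Matrix.one_apply_ne]
    intro h
    exact hij (congrArg Prod.fst h)

theorem Tm_add {ι ι' : Type} (M N : Matrix ι ι' (MonoidAlgebra R G)) :
    Tm deg n (M + N) = Tm deg n M + Tm deg n N := by
  ext1 ⟨i, a⟩ ⟨j, b⟩
  exact pmod_add deg n _ _ _

theorem Tm_unit [NeZero n] {ι : Type} [Fintype ι] [DecidableEq ι]
    (M : Matrix ι ι (MonoidAlgebra R G)) (h : IsUnit M) : IsUnit (Tm deg n M) := by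
  obtain ⟨u, rfl⟩ := h
  refine ⟨⟨Tm deg n u.val, Tm deg n u.inv, ?_, ?_⟩, rfl⟩
  · rw [← Tm_mul, u.val_inv, Tm_one]
  · rw [← Tm_mul, u.inv_val, Tm_one]

end TWNM

open TWNM

theorem specTWN : SpecTWN := by
  intro R G K _ _ _ deg n _
  refine ⟨fun ι ι' ι'' _ M M' => Tm_mul deg n M M', fun ι _ => Tm_one deg n,
    fun ι _ _ M hM => Tm_unit deg n M hM, fun κ hκ => ⟨?_, ?_⟩⟩
  · intro ι _ _ a b ha hb
    show κ (ι × ZMod n) (Tm deg n (a * b)) = κ (ι × ZMod n) (Tm deg n a) +
      κ (ι × ZMod n) (Tm deg n b)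
    rw [Tm_mul]
    exact hκ.mul _ _ _ (Tm_unit deg n a ha) (Tm_unit deg n b hb)
  · intro ι ι' _ _ _ _ x y h
    show κ (ι × ZMod n) (Tm deg n (1 + x * y)) = κ (ι' × ZMod n) (Tm deg n (1 + y * x))
    have h1 := Tm_unit deg n _ h
    rw [Tm_add, Tm_one, Tm_mul] at h1
    rw [Tm_add, Tm_one, Tm_mul, Tm_add, Tm_one, Tm_mul]
    exact hκ.swap _ _ _ _ h1

end Pool.Agent.Lib.MPb6f35e.KN
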