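import Pool.Agent.Lib.MP_b6f35e_al.KN.MainW
import Pool.Agent.Lib.MP_b6f35e_al.KN.CLM
import Pool.Agent.Lib.MP_b6f35e_al.KN.RKF
import Pool.Agent.Lib.MP_b6f35e_al.KN.STG
import Pool.Agent.Lib.MP_b6f35e_al.KN.PSB
import Pool.Agent.Lib.MP_b6f35e_al.KN.SSB
import Pool.Agent.Lib.MP_b6f35e_al.KN.RCX
import Pool.Agent.Lib.MP_b6f35e_al.KN.KFI
import Pool.Agent.Lib.MP_b6f35e_al.KN.DGK
import Pool.Agent.Lib.MP_b6f35e_al.KN.KPR
import Pool.Agent.Lib.MP_b6f35e_al.KN.EXA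
import Pool.Agent.Lib.MP_b6f35e_al.KN.LA1
import Pool.Agent.Lib.MP_b6f35e_al.KN.LA2
import Pool.Agent.Lib.MP_b6f35e_al.KN.IND
import Pool.Agent.Lib.MP_b6f35e_al.KN.QUN
import Pool.Agent.Lib.MP_b6f35e_al.KN.QGR
import Pool.Agent.Lib.MP_b6f35e_al.KN.QPP
import Pool.Agent.Lib.MP_b6f35e_al.KN.BHS
import Pool.Agent.Lib.MP_b6f35e_al.KN.PEQ
import Pool.Agent.Lib.MP_b6f35e_al.KN.ELU
import Pool.Agent.Lib.MP_b6f35e_al.KN.LZE
import Pool.Agent.Lib.MP_b6f35e_al.KN.WRD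
import Pool.Agent.Lib.MP_b6f35e_al.KN.PMK
import Pool.Agent.Lib.MP_b6f35e_al.KN.BDK
import Pool.Agent.Lib.MP_b6f35e_al.KN.CYH
import Pool.Agent.Lib.MP_b6f35e_al.KN.TWN
import Pool.Agent.Lib.MP_b6f35e_al.KN.LIN
import Pool.Agent.Lib.MP_b6f35e_al.KN.DGR

/-! Theorem L and Theorem C without hypotheses (helper23). -/

namespace Pool.Agent.Lib.MPb6f35e.KN

theorem mPEQ : SpecPEQ := specPEQ specKCL specKIN (specDGK specKCL)

theorem mBHS : SpecBHS :=
  specBHS specKPR (specIND specEXA specLA1 specLA2 kfi) (specQUN specLA2) specQGR specQPP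
    (specDGK specKCL)

theorem mSTG : SpecSTG := specSTG specKCL (specRKF specKCL)

theorem mELU : SpecELU := specELU specKCL specJNK specELA specFAK specSUK

theorem mLIN : SpecLIN := specLIN specPMK (specBDK specKCL) (specCYH specKCL) specTWN

/-- THEOREM C. -/
theorem main_closure : SpecCLO :=
  specCLO mELK specBLT specBGE specEGE specETD mBAS mFNW mPEQ specPSB specSSB mBHS mSTG specRCX

/-- THEOREM L. -/
theorem main_lines : SpecCLM :=
  specCLM mELK specBLT specBGE specEGE specETD mBAS mFNW mPEQ specPSB specSSB mBHS mSTG specRCX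
    mELU (specLZE specKCL specJNK) specWRD mLIN specDGR

end Pool.Agent.Lib.MPb6f35e.KN
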