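import Pool.Agent.Lib.MP_b6f35e_al.KN.SpecW
import Pool.Agent.Lib.MP_8a3537_gt.RO.JNT

/-!
# MP_b6f35e_al, KN: module NUE (helper54), the nilpotent matrix
-/

namespace Pool.Agent.Lib.MPb6f35e.KN

open Matrix
open Pool.Agent.Lib.MP8a3537.UV (emb res lres SuppIn)
open Pool.Agent.Lib.MP8a3537.UV.TREAux (Br)
open Pool.Agent.Lib.MP8a3537.RO (Bi dc Kg cut cutM cut_coeff)
open Pool.Agent.Lib.MP8a3537.RO.JNTAux (cut_zero cut_sum supp_mul cut_mul)
open Pool.Agent.Lib.MP8a3537.ROK (TM)

namespace NUEM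

variable {R G V I J : Type} [Ring R] [Group G] [MulAction G V]

theorem TrH_symm {T : SimpleGraph V} {v w : V} (h : TrH G T v w) : TrH G T w v where
  tree := h.tree
  act := h.act
  adj := h.adj.symm
  inv := fun g hg => h.inv g ⟨hg.2, hg.1⟩
  one := fun x y hxy => by
    obtain ⟨g, hg⟩ := h.one x y hxy
    exact ⟨g, by tauto⟩

theorem TMx_symm [Fintype I] [DecidableEq I] [Fintype J] [DecidableEq J] {v w : V} {c : J → V}
    {d : Matrix I J (MonoidAlgebra R G)} {D : Matrix J I (MonoidAlgebra R G)}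
    (h : TMx v w c d D) : TMx w v c d D :=
  ⟨fun i j g hg => (h.loc i j g hg).symm, h.dD, h.Dd⟩

theorem Hv_symm (v w : V) : Hv G w v = Hv G v w := Set.ext fun _ => and_comm

theorem nuM_symm [Fintype J] (T : SimpleGraph V) (v w : V) (c : J → V)
    (d : Matrix I J (MonoidAlgebra R G)) (D : Matrix J I (MonoidAlgebra R G)) :
    nuM T w v c d D = nuM T v w c d D := add_comm _ _

theorem cut_idem (U : Set G) (x : MonoidAlgebra R G) : cut U (cut U x) = cut U x := by
  classical
  ext g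
  rw [cut_coeff, cut_coeff]
  split_ifs <;> rfl

theorem cr_vecMul [Fintype I] (H W : Set G) (hW : ∀ h ∈ H, ∀ g : G, h * g ∈ W ↔ g ∈ W)
    (y : I → MonoidAlgebra R G) (M : Matrix I I (MonoidAlgebra R G)) :
    cr H y ᵥ* cutM W M = cr W (cr H y ᵥ* M) := by
  classical
  funext j
  show ∑ i, cut H (y i) * cut W (M i j) = cut W (∑ i, cut H (y i) * M i j)
  rw [cut_sum]
  refine Finset.sum_congr rfl fun i _ => ?_
  have h1 := (cut_mul H W W (cut H (y i)) (M i j) True (by
    intro a b ha hb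
    have haH : a ∈ H := by
      by_contra hn
      rw [cut_coeff, if_neg hn] at ha
      exact ha rfl
    constructor
    · intro h
      exact ⟨trivial, haH, (hW a haH b).1 h⟩
    · rintro ⟨-, -, h⟩
      exact (hW a haH b).2 h)).1 trivial
  rw [h1, cut_idem]

theorem sum_vecMul' {ι K : Type} [Fintype I] (s : Finset ι) (f : ι → I → MonoidAlgebra R G)
    (M : Matrix I K (MonoidAlgebra R G)) : (∑ q ∈ s, f q) ᵥ* M = ∑ q ∈ s, f q ᵥ* M := by
  classical
  induction s using Finset.induction_on with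
  | empty => simp
  | insert a s ha ih => rw [Finset.sum_insert ha, Finset.sum_insert ha, add_vecMul, ih]

theorem supp_single (H : Set G) (q g : G) (a : MonoidAlgebra R G)
    (h : ((MonoidAlgebra.single q 1 : MonoidAlgebra R G) * cut H a).coeff g ≠ 0) :
    ∃ y ∈ H, g = q * y := by
  classical
  obtain ⟨x, y, hx, hy, rfl⟩ := supp_mul _ _ _ h
  have hq : x = q := by
    by_contra hne
    apply hx
    rw [MonoidAlgebra.coeff_single, Finsupp.single_apply, if_neg (fun h => hne h.symm)]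
  subst hq
  refine ⟨y, ?_, rfl⟩
  by_contra hy'
  rw [cut_coeff, if_neg hy'] at hy
  exact hy rfl

/-- One half of the claims. -/
structure Half [Fintype I] [DecidableEq I] [Fintype J] [DecidableEq J] (T : SimpleGraph V)
    (v w : V) (c : J → V) (d : Matrix I J (MonoidAlgebra R G))
    (D : Matrix J I (MonoidAlgebra R G)) : Prop where
  pp : Pm v w c d D * Pm v w c d D = Pm v w c d D
  pq : Pm v w c d D * Pm w v c d D = 0
  pN : Pm v w c d D * (Nm T v w c d D + Nm T w v c d D) = Nm T v w c d D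
  N1 : Nm T v w c d D = Pm v w c d D +
    cutM (LB G v w) (Nm T v w c d D) * (Nm T v w c d D + Nm T w v c d D)
  nu : ∀ y ∈ KK T v w c d, cr (Hv G v w) y ᵥ* nuM T v w c d D = cr (LB G v w) y
  s1 : SuppIn {x | x • v = w ∧ x • w ≠ v} (Pm v w c d D * nuM T v w c d D * Pm v w c d D)
  s2 : SuppIn {x | x • w = w ∧ x • v ≠ v} (Pm v w c d D * nuM T v w c d D * Pm w v c d D)

theorem half (hTRW : SpecTRW) (hSPL : SpecSPL) (hBRD : SpecBRD) [Fintype I] [DecidableEq I]
    [Fintype J] [DecidableEq J] (T : SimpleGraph V) (v w : V) (hT : TrH G T v w) (c : J → V)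
    (d : Matrix I J (MonoidAlgebra R G)) (D : Matrix J I (MonoidAlgebra R G))
    (hd : TMx v w c d D) : Half T v w c d D := by
  classical
  obtain ⟨-, hrow, hsp, hcut⟩ := hSPL R G V T v w hT I J c d D hd
  obtain ⟨-, -, hsp', -⟩ := hSPL R G V T w v (TrH_symm hT) I J c d D (TMx_symm hd)
  rw [Hv_symm] at hsp'
  have hP : ∀ i, Pm v w c d D i = cr (Hv G v w) (Nm T v w c d D i) := by
    intro i
    rw [← hcut]
    rfl
  have hne : v ≠ w := hT.adj.ne
  obtain ⟨-, -, h3, -⟩ := hTRW G V T v w hT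
  obtain ⟨-, -, h3', -⟩ := hTRW G V T w v (TrH_symm hT)
  rw [Hv_symm] at h3'
  have hinv : ∀ h ∈ Hv G v w, h⁻¹ ∈ Hv G v w := by
    rintro h ⟨h1, h2⟩
    exact ⟨by rw [inv_smul_eq_iff, h1], by rw [inv_smul_eq_iff, h2]⟩
  have hL : ∀ h ∈ Hv G v w, ∀ g : G, h * g ∈ LB G v w ↔ g ∈ LB G v w := by
    intro h hh g
    refine ⟨fun hg => ?_, fun hg => ((h3 h hh g).2 hg).1⟩
    have := ((h3 h⁻¹ (hinv h hh) (h * g)).2 hg).1
    rwa [inv_mul_cancel_left] at this
  have hL' : ∀ h ∈ Hv G v w, ∀ g : G, h * g ∈ LB G w v ↔ g ∈ LB G w v := by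
    intro h hh g
    refine ⟨fun hg => ?_, fun hg => ((h3' h hh g).2 hg).1⟩
    have := ((h3' h⁻¹ (hinv h hh) (h * g)).2 hg).1
    rwa [inv_mul_cancel_left] at this
  -- rows of the products
  have hη : ∀ η : G → I → MonoidAlgebra R G, ∀ q : G, (q • w = w → η q ∈ KK T w v c d) →
      (q • w ≠ w → η q ∈ KK T v w c d) →
      cr (Hv G v w) (η q) ᵥ* (Nm T v w c d D + Nm T w v c d D) = η q := by
    intro η q ha hb
    rw [vecMul_add]
    by_cases hq : q • w = w
    · obtain ⟨e1, e2, -, -⟩ := hsp' _ (ha hq)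
      rw [e1, e2, zero_add]
    · obtain ⟨e1, e2, -, -⟩ := hsp _ (hb hq)
      rw [e1, e2, add_zero]
  have hnu : ∀ y ∈ KK T v w c d, cr (Hv G v w) y ᵥ* nuM T v w c d D = cr (LB G v w) y := by
    intro y hy
    obtain ⟨e1, e2, -, -⟩ := hsp y hy
    unfold nuM
    rw [vecMul_add, cr_vecMul _ _ hL, cr_vecMul _ _ hL', e1, e2]
    funext i
    show cut (LB G v w) (y i) + cut (LB G w v) (0 : MonoidAlgebra R G) = cut (LB G v w) (y i)
    rw [cut_zero, add_zero]
  have hrows : ∀ (P : Matrix I I (MonoidAlgebra R G)) (i : I),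
      (Pm v w c d D * nuM T v w c d D * P) i =
        cr (LB G v w) (Nm T v w c d D i) ᵥ* P := by
    intro P i
    rw [Matrix.mul_apply_eq_vecMul, Matrix.mul_apply_eq_vecMul, hP, hnu _ (hrow i)]
  refine ⟨?_, ?_, ?_, ?_, hnu, ?_, ?_⟩
  · funext i
    rw [Matrix.mul_apply_eq_vecMul, hP]
    exact (hsp _ (hrow i)).2.2.1
  · funext i
    rw [Matrix.mul_apply_eq_vecMul, hP]
    exact (hsp _ (hrow i)).2.2.2
  · funext i
    rw [Matrix.mul_apply_eq_vecMul, hP, vecMul_add, (hsp _ (hrow i)).1, (hsp _ (hrow i)).2.1,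
      add_zero]
  · funext i
    obtain ⟨Q, η, hQ, hy, hL1⟩ := hBRD R G V T v w hT I J c d D hd _ (hrow i)
    show Nm T v w c d D i = Pm v w c d D i + _
    rw [hP]
    refine hy.trans ?_
    congr 1
    show _ = (cutM (LB G v w) (Nm T v w c d D) * (Nm T v w c d D + Nm T w v c d D)) i
    rw [Matrix.mul_apply_eq_vecMul]
    show _ = cr (LB G v w) (Nm T v w c d D i) ᵥ* _
    rw [hL1, sum_vecMul']
    refine Finset.sum_congr rfl fun q hq => ?_
    rw [smul_vecMul, hη η q (hQ q hq).2.1 (hQ q hq).2.2.1]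
  · intro i j g hg
    obtain ⟨Q, η, hQ, hy, hL1⟩ := hBRD R G V T v w hT I J c d D hd _ (hrow i)
    rw [hrows, hL1, sum_vecMul', Finset.sum_apply, MonoidAlgebra.coeff_sum,
      Finsupp.finsetSum_apply] at hg
    obtain ⟨q, hq, hqg⟩ := Finset.exists_ne_zero_of_sum_ne_zero hg
    rw [smul_vecMul] at hqg
    by_cases hw : q • w = w
    · rw [(hsp' _ ((hQ q hq).2.1 hw)).2.2.2, smul_zero] at hqg
      exact absurd rfl hqg
    · rw [(hsp _ ((hQ q hq).2.2.1 hw)).2.2.1] at hqg
      obtain ⟨y, hyH, rfl⟩ := supp_single _ _ _ _ hqg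
      rcases (hQ q hq).1 with h | h
      · exact absurd h.1 hw
      · refine ⟨?_, ?_⟩
        · rw [mul_smul, hyH.1, h.1]
        · rw [mul_smul, hyH.2]
          exact h.2
  · intro i j g hg
    obtain ⟨Q, η, hQ, hy, hL1⟩ := hBRD R G V T v w hT I J c d D hd _ (hrow i)
    rw [hrows, hL1, sum_vecMul', Finset.sum_apply, MonoidAlgebra.coeff_sum,
      Finsupp.finsetSum_apply] at hg
    obtain ⟨q, hq, hqg⟩ := Finset.exists_ne_zero_of_sum_ne_zero hg
    rw [smul_vecMul] at hqg
    by_cases hw : q • w = w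
    · rw [(hsp' _ ((hQ q hq).2.1 hw)).2.2.1] at hqg
      obtain ⟨y, hyH, rfl⟩ := supp_single _ _ _ _ hqg
      refine ⟨?_, ?_⟩
      · rw [mul_smul, hyH.2, hw]
      · rw [mul_smul, hyH.1]
        rcases (hQ q hq).1 with h | h
        · exact h.2
        · exfalso
          apply hne
          have : q • v = q • w := by rw [h.1, hw]
          exact smul_left_cancel q this
    · rw [(hsp _ ((hQ q hq).2.2.1 hw)).2.2.2, smul_zero] at hqg
      exact absurd rfl hqg

end NUEM

open NUEM in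
theorem specNUE (hTRW : SpecTRW) (hSPL : SpecSPL) (hBRD : SpecBRD) : SpecNUE := by
  classical
  intro R G V _ _ _ T v w hT I J _ _ _ _ c d D hd
  have A := half hTRW hSPL hBRD T v w hT c d D hd
  have B := half hTRW hSPL hBRD T w v (TrH_symm hT) c d D (TMx_symm hd)
  have hsum : Pm v w c d D + Pm w v c d D = 1 := (hSPL R G V T v w hT I J c d D hd).1
  have hnuB := B.nu
  have hs1B := B.s1
  have hs2B := B.s2
  rw [nuM_symm] at hs1B hs2B
  rw [nuM_symm, Hv_symm] at hnuB
  have hN : Nm T v w c d D + Nm T w v c d D =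
      1 + nuM T v w c d D * (Nm T v w c d D + Nm T w v c d D) := by
    have h1 := A.N1
    have h2 := B.N1
    rw [add_comm (Nm T w v c d D) (Nm T v w c d D)] at h2
    refine (congrArg₂ (· + ·) h1 h2).trans ?_
    show (Pm v w c d D + cutM (LB G v w) (Nm T v w c d D) * (Nm T v w c d D + Nm T w v c d D)) +
      (Pm w v c d D + cutM (LB G w v) (Nm T w v c d D) * (Nm T v w c d D + Nm T w v c d D)) =
      1 + (cutM (LB G v w) (Nm T v w c d D) + cutM (LB G w v) (Nm T w v c d D)) *
        (Nm T v w c d D + Nm T w v c d D)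
    rw [← hsum, Matrix.add_mul]
    abel
  refine ⟨⟨A.pp, B.pp, A.pq, B.pq⟩, ⟨A.pN, ?_⟩, hN, ?_, A.s1, A.s2, hs2B, hs1B⟩
  · have := B.pN
    rwa [add_comm (Nm T w v c d D) (Nm T v w c d D)] at this
  · -- nilpotency
    have key : ∀ n : ℕ, ∀ y : I → MonoidAlgebra R G, (y ∈ KK T v w c d ∨ y ∈ KK T w v c d) →
        sz y < n → cr (Hv G v w) y ᵥ* nuM T v w c d D ^ n = 0 := by
      intro n
      induction n with
      | zero => intro y _ h; exact absurd h (Nat.not_lt_zero _)
      | succ n ih =>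
        intro y hy hsz
        rw [pow_succ', ← vecMul_vecMul]
        rcases hy with hy | hy
        · obtain ⟨Q, η, hQ, -, hL1⟩ := hBRD R G V T v w hT I J c d D hd y hy
          rw [A.nu y hy, hL1, sum_vecMul']
          refine Finset.sum_eq_zero fun q hq => ?_
          rw [smul_vecMul, ih (η q) ?_ ?_, smul_zero]
          · by_cases hw : q • w = w
            · exact Or.inr ((hQ q hq).2.1 hw)
            · exact Or.inl ((hQ q hq).2.2.1 hw)
          · have := (hQ q hq).2.2.2
            omega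
        · obtain ⟨Q, η, hQ, -, hL1⟩ :=
            hBRD R G V T w v (TrH_symm hT) I J c d D (TMx_symm hd) y hy
          rw [hnuB y hy, hL1, sum_vecMul']
          refine Finset.sum_eq_zero fun q hq => ?_
          rw [Hv_symm, smul_vecMul, ih (η q) ?_ ?_, smul_zero]
          · by_cases hw : q • v = v
            · exact Or.inl ((hQ q hq).2.1 hw)
            · exact Or.inr ((hQ q hq).2.2.1 hw)
          · have := (hQ q hq).2.2.2
            omega
    obtain ⟨-, hrow, -, hcut⟩ := hSPL R G V T v w hT I J c d D hd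
    obtain ⟨-, hrow', -, hcut'⟩ := hSPL R G V T w v (TrH_symm hT) I J c d D (TMx_symm hd)
    rw [Hv_symm] at hcut'
    let m : ℕ := (∑ i, sz (Nm T v w c d D i)) + (∑ i, sz (Nm T w v c d D i)) + 1
    refine ⟨m, ?_⟩
    have e1 : Pm v w c d D * nuM T v w c d D ^ m = 0 := by
      funext i
      rw [Matrix.mul_apply_eq_vecMul, ← hcut]
      refine key m (Nm T v w c d D i) (Or.inl (hrow i)) ?_
      have : sz (Nm T v w c d D i) ≤ ∑ i, sz (Nm T v w c d D i) :=
        Finset.single_le_sum (f := fun i => sz (Nm T v w c d D i)) (fun _ _ => Nat.zero_le _)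
          (Finset.mem_univ i)
      show _ < _ + _ + 1
      omega
    have e2 : Pm w v c d D * nuM T v w c d D ^ m = 0 := by
      funext i
      rw [Matrix.mul_apply_eq_vecMul, ← hcut']
      refine key m (Nm T w v c d D i) (Or.inr (hrow' i)) ?_
      have : sz (Nm T w v c d D i) ≤ ∑ i, sz (Nm T w v c d D i) :=
        Finset.single_le_sum (f := fun i => sz (Nm T w v c d D i)) (fun _ _ => Nat.zero_le _)
          (Finset.mem_univ i)
      show _ < _ + _ + 1
      omega
    calc nuM T v w c d D ^ m = (Pm v w c d D + Pm w v c d D) * nuM T v w c d D ^ m := by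
          rw [hsum, Matrix.one_mul]
      _ = 0 := by rw [Matrix.add_mul, e1, e2, add_zero]

end Pool.Agent.Lib.MPb6f35e.KN
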