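import Pool.Agent.Lib.MP_b6f35e_al.KN.SpecW

/-! Module SPL (helper21): the splitting. -/

namespace Pool.Agent.Lib.MPb6f35e.KN

open Matrix
open Pool.Agent.Lib.MP8a3537.UV.TREAux (Br mem_Br mem_self not_mem br_or)
open Pool.Agent.Lib.MP8a3537.RO (cut cutM cut_coeff)

namespace SPLM

section Cut

variable {R G I J V : Type} [Ring R]

theorem cut_add (W : Set G) (x y : MonoidAlgebra R G) : cut W (x + y) = cut W x + cut W y := by
  ext g
  rw [cut_coeff, MonoidAlgebra.coeff_add, Finsupp.add_apply, MonoidAlgebra.coeff_add,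
    Finsupp.add_apply, cut_coeff, cut_coeff]
  split_ifs <;> simp

theorem cut_zero (W : Set G) : cut W (0 : MonoidAlgebra R G) = 0 := by
  ext g
  rw [cut_coeff]
  split_ifs <;> simp

theorem cut_neg (W : Set G) (x : MonoidAlgebra R G) : cut W (-x) = - cut W x := by
  ext g
  rw [cut_coeff, MonoidAlgebra.coeff_neg, Finsupp.neg_apply, MonoidAlgebra.coeff_neg,
    Finsupp.neg_apply, cut_coeff]
  split_ifs <;> simp

theorem cut_sum {ι : Type*} (W : Set G) (s : Finset ι) (f : ι → MonoidAlgebra R G) :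
    cut W (∑ i ∈ s, f i) = ∑ i ∈ s, cut W (f i) := by
  classical
  induction s using Finset.induction_on with
  | empty => simp [cut_zero]
  | insert i s hi ih => rw [Finset.sum_insert hi, Finset.sum_insert hi, cut_add, ih]

theorem cut_self {U : Set G} {x : MonoidAlgebra R G} (h : ∀ g, x.coeff g ≠ 0 → g ∈ U) :
    cut U x = x := by
  ext g
  rw [cut_coeff]
  by_cases hg : g ∈ U
  · rw [if_pos hg]
  · rw [if_neg hg]
    by_contra hne
    exact hg (h g fun h0 => hne h0.symm)

theorem cut_none {U : Set G} {x : MonoidAlgebra R G} (h : ∀ g, x.coeff g ≠ 0 → g ∉ U) :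
    cut U x = 0 := by
  ext g
  rw [cut_coeff]
  by_cases hg : g ∈ U
  · rw [if_pos hg]
    by_contra hne
    exact h g (by simpa using hne) hg
  · rw [if_neg hg]
    simp

theorem cut_ne {U : Set G} {x : MonoidAlgebra R G} {g : G} (h : (cut U x).coeff g ≠ 0) :
    g ∈ U ∧ x.coeff g ≠ 0 := by
  rw [cut_coeff] at h
  by_cases hg : g ∈ U
  · rw [if_pos hg] at h
    exact ⟨hg, h⟩
  · rw [if_neg hg] at h
    exact absurd rfl h

theorem cut_cut {U W : Set G} (h : U ⊆ W) (x : MonoidAlgebra R G) : cut U (cut W x) = cut U x := by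
  ext g
  rw [cut_coeff, cut_coeff, cut_coeff]
  by_cases hg : g ∈ U
  · rw [if_pos hg, if_pos (h hg), if_pos hg]
  · rw [if_neg hg, if_neg hg]

theorem cr_add (U : Set G) (x y : I → MonoidAlgebra R G) : cr U (x + y) = cr U x + cr U y :=
  funext fun i => cut_add U (x i) (y i)

theorem cr_neg (U : Set G) (x : I → MonoidAlgebra R G) : cr U (-x) = -cr U x :=
  funext fun i => cut_neg U (x i)

theorem cr_sub (U : Set G) (x y : I → MonoidAlgebra R G) : cr U (x - y) = cr U x - cr U y := by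
  rw [sub_eq_add_neg, cr_add, cr_neg, sub_eq_add_neg]

theorem cr_zero (U : Set G) : cr U (0 : I → MonoidAlgebra R G) = 0 :=
  funext fun _ => cut_zero U

theorem lcE_cr (U : Set G) (x : I → MonoidAlgebra R G) : lcE U (cr U x) :=
  fun _ _ hg => (cut_ne hg).1

theorem lcE_cr_of {U W : Set G} {x : I → MonoidAlgebra R G} (h : lcE W x) : lcE W (cr U x) :=
  fun i g hg => h i g (cut_ne hg).2

theorem lcE_mono {U W : Set G} (h : U ⊆ W) {x : I → MonoidAlgebra R G} (hx : lcE U x) :
    lcE W x := fun i g hg => h (hx i g hg)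

theorem cr_self {U : Set G} {x : I → MonoidAlgebra R G} (h : lcE U x) : cr U x = x :=
  funext fun i => cut_self (h i)

theorem cr_none {U W : Set G} {x : I → MonoidAlgebra R G} (h : lcE W x)
    (hd : ∀ g ∈ W, g ∉ U) : cr U x = 0 :=
  funext fun i => cut_none fun g hg => hd g (h i g hg)

theorem lcE_add {U : Set G} {x y : I → MonoidAlgebra R G} (hx : lcE U x) (hy : lcE U y) :
    lcE U (x + y) := by
  intro i g hg
  rw [Pi.add_apply, MonoidAlgebra.coeff_add, Finsupp.add_apply] at hg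
  by_cases h : (x i).coeff g = 0
  · rw [h, zero_add] at hg
    exact hy _ _ hg
  · exact hx _ _ h

theorem lcE_neg {U : Set G} {x : I → MonoidAlgebra R G} (hx : lcE U x) :
    lcE U (-x) := by
  intro i g hg
  rw [Pi.neg_apply, MonoidAlgebra.coeff_neg, Finsupp.neg_apply] at hg
  exact hx i g fun h => hg (by rw [h, neg_zero])

theorem lcE_sub {U : Set G} {x y : I → MonoidAlgebra R G} (hx : lcE U x) (hy : lcE U y) :
    lcE U (x - y) := by
  rw [sub_eq_add_neg]
  exact lcE_add hx (lcE_neg hy)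

/-- decomposition along two disjoint sets -/
theorem cr_parts {U W : Set G} (hd : ∀ g ∈ U, g ∉ W) {x : I → MonoidAlgebra R G}
    (hx : lcE (U ∪ W) x) : x = cr U x + cr W x := by
  funext i
  ext g
  show (x i).coeff g = (cut U (x i) + cut W (x i)).coeff g
  rw [MonoidAlgebra.coeff_add, Finsupp.add_apply, cut_coeff, cut_coeff]
  by_cases h1 : g ∈ U
  · rw [if_pos h1, if_neg (hd g h1), add_zero]
  · by_cases h2 : g ∈ W
    · rw [if_neg h1, if_pos h2, zero_add]
    · rw [if_neg h1, if_neg h2, add_zero]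
      by_contra hne
      rcases hx i g hne with h | h
      · exact h1 h
      · exact h2 h

end Cut

section Mul

variable {R G I J V : Type} [Ring R] [Group G]

theorem coeff_mul_ne (x y : MonoidAlgebra R G) (g : G) (h : (x * y).coeff g ≠ 0) :
    ∃ a b, x.coeff a ≠ 0 ∧ y.coeff b ≠ 0 ∧ a * b = g := by
  classical
  have := MonoidAlgebra.support_coeff_mul_subset x y (Finsupp.mem_support_iff.2 h)
  obtain ⟨u, hu, v, hv, e⟩ := Finset.mem_mul.1 this
  exact ⟨u, v, Finsupp.mem_support_iff.1 hu, Finsupp.mem_support_iff.1 hv, e⟩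

theorem vm_ne [Fintype I] {x : I → MonoidAlgebra R G} {M : Matrix I J (MonoidAlgebra R G)} {j : J}
    {g : G} (h : ((x ᵥ* M) j).coeff g ≠ 0) :
    ∃ i a b, (x i).coeff a ≠ 0 ∧ (M i j).coeff b ≠ 0 ∧ a * b = g := by
  have e : (x ᵥ* M) j = ∑ i, x i * M i j := rfl
  rw [e, MonoidAlgebra.coeff_sum, Finsupp.finsetSum_apply] at h
  obtain ⟨i, -, hi⟩ := Finset.exists_ne_zero_of_sum_ne_zero h
  obtain ⟨a, b, ha, hb, e⟩ := coeff_mul_ne _ _ _ hi
  exact ⟨i, a, b, ha, hb, e⟩

open Classical in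
/-- cutting a product whose left factor is supported in the stabilizer of the set -/
theorem cut_mul_left {H U : Set G} (hU : ∀ h ∈ H, ∀ g, h * g ∈ U ↔ g ∈ U)
    {x : MonoidAlgebra R G} (hx : ∀ g, x.coeff g ≠ 0 → g ∈ H) (y : MonoidAlgebra R G) :
    cut U (x * y) = x * cut U y := by
  have e : y = cut U y + cut Uᶜ y := by
    ext g
    rw [MonoidAlgebra.coeff_add, Finsupp.add_apply, cut_coeff, cut_coeff]
    by_cases hg : g ∈ U
    · rw [if_pos hg, if_neg (show g ∉ Uᶜ from fun h => h hg), add_zero]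
    · rw [if_neg hg, if_pos (show g ∈ Uᶜ from hg), zero_add]
  have e1 : cut U (x * cut U y) = x * cut U y := by
    refine cut_self fun g hg => ?_
    obtain ⟨a, b, ha, hb, rfl⟩ := coeff_mul_ne _ _ _ hg
    exact (hU a (hx a ha) b).2 (cut_ne hb).1
  have e2 : cut U (x * cut Uᶜ y) = 0 := by
    refine cut_none fun g hg => ?_
    obtain ⟨a, b, ha, hb, rfl⟩ := coeff_mul_ne _ _ _ hg
    intro h
    exact (cut_ne hb).1 ((hU a (hx a ha) b).1 h)
  conv_lhs => rw [e]
  rw [mul_add, cut_add, e1, e2, add_zero]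

theorem cr_vecMul [Fintype I] {H U : Set G} (hU : ∀ h ∈ H, ∀ g, h * g ∈ U ↔ g ∈ U)
    {x : I → MonoidAlgebra R G} (hx : lcE H x) (M : Matrix I J (MonoidAlgebra R G)) :
    cr U (x ᵥ* M) = x ᵥ* cutM U M := by
  funext j
  show cut U (∑ i, x i * M i j) = ∑ i, x i * cut U (M i j)
  rw [cut_sum]
  exact Finset.sum_congr rfl fun i _ => cut_mul_left hU (hx i) _

variable [MulAction G V]

/-- the row `z` vanishes on the vertices in `W` -/
def van (c : J → V) (W : Set V) (z : J → MonoidAlgebra R G) : Prop :=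
  ∀ j g, g • c j ∈ W → (z j).coeff g = 0

theorem lcV_van {c : J → V} {W W' : Set V} {z : J → MonoidAlgebra R G} (h : lcV c W z)
    (hd : ∀ u ∈ W', u ∉ W) : van c W' z := by
  intro j g hg
  by_contra hne
  exact hd _ hg (h j g hne)

theorem van_add {c : J → V} {W : Set V} {z z' : J → MonoidAlgebra R G} (h : van c W z)
    (h' : van c W z') : van c W (z + z') := by
  intro j g hg
  rw [Pi.add_apply, MonoidAlgebra.coeff_add, Finsupp.add_apply, h j g hg, h' j g hg, add_zero]

theorem van_neg {c : J → V} {W : Set V} {z : J → MonoidAlgebra R G} (h : van c W z) :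
    van c W (-z) := by
  intro j g hg
  rw [Pi.neg_apply, MonoidAlgebra.coeff_neg, Finsupp.neg_apply, h j g hg, neg_zero]

theorem van_sub {c : J → V} {W : Set V} {z z' : J → MonoidAlgebra R G} (h : van c W z)
    (h' : van c W z') : van c W (z - z') := by
  rw [sub_eq_add_neg]
  exact van_add h (van_neg h')

theorem lcV_add {c : J → V} {W : Set V} {z z' : J → MonoidAlgebra R G} (h : lcV c W z)
    (h' : lcV c W z') : lcV c W (z + z') := by
  intro j g hg
  rw [Pi.add_apply, MonoidAlgebra.coeff_add, Finsupp.add_apply] at hg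
  by_cases h0 : (z j).coeff g = 0
  · rw [h0, zero_add] at hg
    exact h' _ _ hg
  · exact h _ _ h0

theorem lcV_neg {c : J → V} {W : Set V} {z : J → MonoidAlgebra R G} (h : lcV c W z) :
    lcV c W (-z) := by
  intro j g hg
  rw [Pi.neg_apply, MonoidAlgebra.coeff_neg, Finsupp.neg_apply] at hg
  exact h j g fun h => hg (by rw [h, neg_zero])

theorem vm_lcV [Fintype I] {v w : V} {c : J → V} {d : Matrix I J (MonoidAlgebra R G)}
    (hloc : ∀ i j g, (d i j).coeff g ≠ 0 → g • c j = v ∨ g • c j = w) {U : Set G} {W : Set V}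
    {x : I → MonoidAlgebra R G} (hx : lcE U x) (hU : ∀ a ∈ U, a • v ∈ W ∧ a • w ∈ W) :
    lcV c W (x ᵥ* d) := by
  intro j g hg
  obtain ⟨i, a, b, ha, hb, rfl⟩ := vm_ne hg
  rw [mul_smul]
  rcases hloc i j b hb with h | h
  · rw [h]
    exact (hU a (hx i a ha)).1
  · rw [h]
    exact (hU a (hx i a ha)).2

end Mul

section Geo

variable {R G V I J : Type} [Ring R] [Group G] [MulAction G V]

/-- the geometric facts which are used -/
structure Sp (G : Type) {V : Type} [Group G] [MulAction G V] (T : SimpleGraph V) (v w : V) :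
    Prop where
  ne : v ≠ w
  cov : ∀ g : G, g ∈ Hv G v w ∨ g ∈ EB G T v w ∨ g ∈ EB G T w v
  d1 : ∀ g ∈ EB G T v w, g ∉ Hv G v w ∧ g ∉ EB G T w v
  d2 : ∀ g ∈ EB G T w v, g ∉ Hv G v w ∧ g ∉ EB G T v w
  l1 : ∀ h ∈ Hv G v w, ∀ g ∈ EB G T v w, h * g ∈ EB G T v w
  l2 : ∀ h ∈ Hv G v w, ∀ g ∈ EB G T w v, h * g ∈ EB G T w v
  bv : v ∉ Br T v w
  mw : w ∈ Br T v w
  mv : v ∈ Br T w v
  bw : w ∉ Br T w v
  dj : ∀ u ∈ Br T v w, u ∉ Br T w v
  br : ∀ u, u ∈ Br T v w ∨ u ∈ Br T w v

theorem Hv_comm (v w : V) : Hv G w v = Hv G v w := by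
  ext g
  exact ⟨fun h => ⟨h.2, h.1⟩, fun h => ⟨h.2, h.1⟩⟩

theorem Sp.symm {T : SimpleGraph V} {v w : V} (s : Sp G T v w) : Sp G T w v where
  ne := s.ne.symm
  cov g := by
    rw [Hv_comm]
    rcases s.cov g with h | h | h
    · exact Or.inl h
    · exact Or.inr (Or.inr h)
    · exact Or.inr (Or.inl h)
  d1 g h := by
    rw [Hv_comm]
    exact s.d2 g h
  d2 g h := by
    rw [Hv_comm]
    exact s.d1 g h
  l1 g h := by
    rw [Hv_comm] at h
    exact s.l2 g h
  l2 g h := by
    rw [Hv_comm] at h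
    exact s.l1 g h
  bv := s.bw
  mw := s.mv
  mv := s.mw
  bw := s.bv
  dj u h h' := s.dj u h' h
  br u := (s.br u).symm

theorem TMx.symm [Fintype I] [DecidableEq I] [Fintype J] [DecidableEq J] {v w : V} {c : J → V}
    {d : Matrix I J (MonoidAlgebra R G)} {D : Matrix J I (MonoidAlgebra R G)}
    (h : TMx v w c d D) : TMx w v c d D where
  loc i j g hg := (h.loc i j g hg).symm
  dD := h.dD
  Dd := h.Dd

theorem trH_symm {T : SimpleGraph V} {v w : V} (h : TrH G T v w) : TrH G T w v where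
  tree := h.tree
  act := h.act
  adj := h.adj.symm
  inv g hg := h.inv g ⟨hg.2, hg.1⟩
  one x y hxy := by
    obtain ⟨g, hg⟩ := h.one x y hxy
    refine ⟨g, ?_⟩
    rcases hg with hg | hg
    · exact Or.inr ⟨hg.2, hg.1⟩
    · exact Or.inl ⟨hg.2, hg.1⟩

theorem sp_of (hTRW : SpecTRW) {T : SimpleGraph V} {v w : V} (h : TrH G T v w) : Sp G T v w := by
  obtain ⟨a1, a2, a3, -⟩ := hTRW G V T v w h
  obtain ⟨b1, b2, b3, -⟩ := hTRW G V T w v (trH_symm h)
  refine ⟨h.adj.ne, a1, a2, ?_, fun g hg y hy => ((a3 g hg y).1 hy).1, ?_, not_mem v w,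
    mem_self h.adj, mem_self h.adj.symm, not_mem w v, ?_, br_or h.tree h.adj⟩
  · intro g hg
    have := b2 g hg
    rw [Hv_comm] at this
    exact this
  · intro g hg y hy
    rw [Hv_comm] at b3
    exact ((b3 g hg y).1 hy).1
  · intro u hu hu'
    rw [mem_Br] at hu hu'
    omega

variable [Fintype I] [DecidableEq I] [Fintype J] [DecidableEq J]
variable {T : SimpleGraph V} {v w : V} {c : J → V} {d : Matrix I J (MonoidAlgebra R G)}
  {D : Matrix J I (MonoidAlgebra R G)}

theorem dat_add (s : Sp G T v w) (t : TMx v w c d D) : dat v c d + dat w c d = d := by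
  ext i j g
  show (cut {g | g • c j = v} (d i j) + cut {g | g • c j = w} (d i j)).coeff g = (d i j).coeff g
  rw [MonoidAlgebra.coeff_add, Finsupp.add_apply, cut_coeff, cut_coeff]
  by_cases h1 : g • c j = v
  · have h2 : ¬ g • c j = w := fun h => s.ne (h1.symm.trans h)
    rw [if_pos (show g ∈ {g | g • c j = v} from h1), if_neg (show g ∉ {g | g • c j = w} from h2),
      add_zero]
  · by_cases h2 : g • c j = w
    · rw [if_neg (show g ∉ {g | g • c j = v} from h1), if_pos (show g ∈ {g | g • c j = w} from h2),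
        zero_add]
    · rw [if_neg (show g ∉ {g | g • c j = v} from h1), if_neg (show g ∉ {g | g • c j = w} from h2),
        add_zero]
      by_contra hne
      rcases t.loc i j g (fun h => hne h.symm) with h | h
      · exact h1 h
      · exact h2 h

theorem Hv_one : (1 : G) ∈ Hv G v w := ⟨one_smul _ _, one_smul _ _⟩

theorem Pm_add (s : Sp G T v w) (t : TMx v w c d D) : Pm v w c d D + Pm w v c d D = 1 := by
  have e : dat v c d * D + dat w c d * D = 1 := by
    rw [← Matrix.add_mul, dat_add s t, t.dD]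
  ext1 i j
  show cut (Hv G v w) ((dat v c d * D) i j) + cut (Hv G w v) ((dat w c d * D) i j) =
    (1 : Matrix I I (MonoidAlgebra R G)) i j
  rw [Hv_comm v w, ← cut_add, ← Matrix.add_apply, e]
  refine cut_self fun g hg => ?_
  by_cases hij : i = j
  · subst hij
    rw [Matrix.one_apply_eq] at hg
    have : g = 1 := by
      by_contra h1
      apply hg
      rw [MonoidAlgebra.one_def, MonoidAlgebra.coeff_single]
      exact Finsupp.single_eq_of_ne h1
    rw [this]
    exact Hv_one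
  · rw [Matrix.one_apply_ne hij] at hg
    exact absurd (by simp) hg

/-- lives on `{v, w}` -/
theorem lcV_H (t : TMx v w c d D) {x : I → MonoidAlgebra R G} (hx : lcE (Hv G v w) x) :
    lcV c {v, w} (x ᵥ* d) :=
  vm_lcV t.loc hx fun a ha => ⟨Or.inl ha.1, Or.inr ha.2⟩

theorem lcV_E1 (t : TMx v w c d D) {x : I → MonoidAlgebra R G} (hx : lcE (EB G T v w) x) :
    lcV c (Br T v w) (x ᵥ* d) :=
  vm_lcV t.loc hx fun _ ha => ha

theorem lcV_E2 (t : TMx v w c d D) {x : I → MonoidAlgebra R G} (hx : lcE (EB G T w v) x) :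
    lcV c (Br T w v) (x ᵥ* d) :=
  vm_lcV t.loc hx fun _ ha => ⟨ha.2, ha.1⟩

theorem eq_zero_of_van (s : Sp G T v w) {z : J → MonoidAlgebra R G} (h1 : van c (Br T v w) z)
    (h2 : van c (Br T w v) z) : z = 0 := by
  funext j
  ext g
  rcases s.br (g • c j) with h | h
  · rw [h1 j g h]
    simp
  · rw [h2 j g h]
    simp

theorem row_vm (i : I) : (dat v c d * D) i ᵥ* d = (dat v c d * D * d) i := rfl

theorem Nm_mem (s : Sp G T v w) (t : TMx v w c d D) (i : I) : Nm T v w c d D i ∈ KK T v w c d := by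
  have hN : Nm T v w c d D i = cr (Hv G v w ∪ EB G T v w) ((dat v c d * D) i) := rfl
  refine ⟨?_, ?_⟩
  · rw [hN]
    exact lcE_cr _ _
  have hP : (dat v c d * D) i ᵥ* d = dat v c d i := by
    rw [row_vm, Matrix.mul_assoc, t.Dd, Matrix.mul_one]
  have hPv : lcV c {v} ((dat v c d * D) i ᵥ* d) := by
    rw [hP]
    intro j g hg
    exact (cut_ne hg).1
  have e : (dat v c d * D) i = cr (Hv G v w ∪ EB G T v w) ((dat v c d * D) i) +
      cr (EB G T w v) ((dat v c d * D) i) := by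
    refine cr_parts ?_ ?_
    · intro g hg hg'
      rcases hg with hg | hg
      · exact (s.d2 g hg').1 hg
      · exact (s.d1 g hg).2 hg'
    · intro j g _
      rcases s.cov g with h | h | h
      · exact Or.inl (Or.inl h)
      · exact Or.inl (Or.inr h)
      · exact Or.inr h
  set a := cr (Hv G v w ∪ EB G T v w) ((dat v c d * D) i) with ha
  set b := cr (EB G T w v) ((dat v c d * D) i) with hb
  have hbl : lcV c (Br T w v) (b ᵥ* d) := lcV_E2 t (lcE_cr _ _)
  have hea : a ᵥ* d = (dat v c d * D) i ᵥ* d - b ᵥ* d := by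
    rw [← Matrix.sub_vecMul]
    congr 1
    rw [eq_sub_iff_add_eq]
    exact e.symm
  have hvan : van c (Br T v w) (a ᵥ* d) := by
    rw [hea]
    refine van_sub (lcV_van hPv ?_) (lcV_van hbl ?_)
    · intro u hu hu'
      rw [Set.mem_singleton_iff] at hu'
      rw [hu'] at hu
      exact s.bv hu
    · intro u hu hu'
      exact s.dj u hu hu'
  have haE : lcE (Hv G v w ∪ EB G T v w) a := lcE_cr _ _
  have e2 : a = cr (Hv G v w) a + cr (EB G T v w) a :=
    cr_parts (fun g hg hg' => (s.d1 g hg').1 hg) haE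
  rw [hN]
  intro j g hg
  rcases s.br (g • c j) with h | h
  · exact absurd (hvan j g h) hg
  · rw [e2, Matrix.add_vecMul, Pi.add_apply, MonoidAlgebra.coeff_add, Finsupp.add_apply] at hg
    have h1 : ((cr (EB G T v w) a ᵥ* d) j).coeff g = 0 := by
      refine lcV_van (lcV_E1 (T := T) t (lcE_cr _ _)) (W' := Br T w v) ?_ j g h
      intro u hu hu'
      exact s.dj u hu' hu
    rw [h1, add_zero] at hg
    have h2 := lcV_H t (lcE_cr _ _) j g hg
    rcases h2 with h2 | h2
    · exact h2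
    · rw [Set.mem_singleton_iff] at h2
      rw [h2] at h
      exact absurd h s.bw

/-- uniqueness -/
theorem uniq (s : Sp G T v w) (t : TMx v w c d D) {y z : I → MonoidAlgebra R G}
    (hy : y ∈ KK T v w c d) (hz : z ∈ KK T w v c d)
    (h0 : cr (Hv G v w) y + cr (Hv G v w) z = 0) : y = 0 ∧ z = 0 := by
  obtain ⟨hy1, hy2⟩ := hy
  obtain ⟨hz1, hz2⟩ := hz
  rw [Hv_comm] at hz1
  have ey : y = cr (Hv G v w) y + cr (EB G T v w) y :=
    cr_parts (fun g hg hg' => (s.d1 g hg').1 hg) hy1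
  have ez : z = cr (Hv G v w) z + cr (EB G T w v) z :=
    cr_parts (fun g hg hg' => (s.d2 g hg').1 hg) hz1
  have hE2 : lcV c (Br T w v) (cr (EB G T w v) z ᵥ* d) := lcV_E2 t (lcE_cr _ _)
  have hE1 : lcV c (Br T v w) (cr (EB G T v w) y ᵥ* d) := lcV_E1 t (lcE_cr _ _)
  have hu : (y - cr (EB G T w v) z) ᵥ* d = 0 := by
    refine eq_zero_of_van (c := c) s ?_ ?_
    · rw [Matrix.sub_vecMul]
      refine van_sub (lcV_van hy2 ?_) (lcV_van hE2 fun u hu hu' => s.dj u hu hu')
      intro u hu hu'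
      rw [Set.mem_singleton_iff] at hu'
      rw [hu'] at hu
      exact s.bv hu
    · have e : y - cr (EB G T w v) z = cr (EB G T v w) y - z := by
        rw [sub_eq_sub_iff_add_eq_add]
        conv_lhs => rw [ey, ez]
        calc cr (Hv G v w) y + cr (EB G T v w) y + (cr (Hv G v w) z + cr (EB G T w v) z)
            = (cr (Hv G v w) y + cr (Hv G v w) z) +
              (cr (EB G T v w) y + cr (EB G T w v) z) := by abel
          _ = cr (EB G T v w) y + cr (EB G T w v) z := by rw [h0, zero_add]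
      rw [e, Matrix.sub_vecMul]
      refine van_sub (lcV_van hE1 fun u hu hu' => s.dj u hu' hu) (lcV_van hz2 ?_)
      intro u hu hu'
      rw [Set.mem_singleton_iff] at hu'
      rw [hu'] at hu
      exact s.bw hu
  have hu0 : y - cr (EB G T w v) z = 0 := by
    have := congrArg (fun r => r ᵥ* D) hu
    simp only [Matrix.vecMul_vecMul, t.dD, Matrix.vecMul_one, Matrix.zero_vecMul] at this
    exact this
  have c1 : cr (Hv G v w) y = 0 := by
    have := congrArg (cr (Hv G v w)) hu0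
    rw [cr_sub, cr_zero, cr_none (lcE_cr (EB G T w v) z) fun g hg => (s.d2 g hg).1, sub_zero] at this
    exact this
  have c2 : cr (EB G T v w) y = 0 := by
    have := congrArg (cr (EB G T v w)) hu0
    rw [cr_sub, cr_zero, cr_none (lcE_cr (EB G T w v) z) fun g hg => (s.d2 g hg).2, sub_zero] at this
    exact this
  have c3 : cr (Hv G v w) z = 0 := by
    rw [c1, zero_add] at h0
    exact h0
  have hy0 : y = 0 := by rw [ey, c1, c2, add_zero]
  have c4 : cr (EB G T w v) z = 0 := by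
    rw [hy0, zero_sub, neg_eq_zero] at hu0
    exact hu0
  exact ⟨hy0, by rw [ez, c3, c4, add_zero]⟩

theorem Hv_mul {h : G} (hh : h ∈ Hv G v w) (g : G) : h * g ∈ Hv G v w ↔ g ∈ Hv G v w := by
  have hi1 : h⁻¹ • v = v := by rw [inv_smul_eq_iff, hh.1]
  have hi2 : h⁻¹ • w = w := by rw [inv_smul_eq_iff, hh.2]
  constructor
  · rintro ⟨h1, h2⟩
    rw [mul_smul] at h1 h2
    refine ⟨?_, ?_⟩
    · have := congrArg (fun u => h⁻¹ • u) h1
      simpa [hi1] using this
    · have := congrArg (fun u => h⁻¹ • u) h2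
      simpa [hi2] using this
  · rintro ⟨h1, h2⟩
    exact ⟨by rw [mul_smul, h1, hh.1], by rw [mul_smul, h2, hh.2]⟩

theorem cutM_Nm : cutM (Hv G v w) (Nm T v w c d D) = Pm v w c d D := by
  ext1 i j
  exact cut_cut (fun g hg => Or.inl hg) _

theorem comb_mem (s : Sp G T v w) (t : TMx v w c d D) {x : I → MonoidAlgebra R G}
    (hx : lcE (Hv G v w) x) : x ᵥ* Nm T v w c d D ∈ KK T v w c d := by
  refine ⟨?_, ?_⟩
  · intro j g hg
    obtain ⟨i, a, b, ha, hb, rfl⟩ := vm_ne hg
    have h1 := hx i a ha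
    rcases (Nm_mem s t i).1 j b hb with h2 | h2
    · exact Or.inl ((Hv_mul h1 b).2 h2)
    · exact Or.inr (s.l1 a h1 b h2)
  · intro j g hg
    rw [Matrix.vecMul_vecMul] at hg
    obtain ⟨i, a, b, ha, hb, rfl⟩ := vm_ne hg
    have h2 : b • c j = v := (Nm_mem s t i).2 j b hb
    show (a * b) • c j = v
    rw [mul_smul, h2]
    exact (hx i a ha).1

theorem cr_comb {x : I → MonoidAlgebra R G}
    (hx : lcE (Hv G v w) x) : cr (Hv G v w) (x ᵥ* Nm T v w c d D) = x ᵥ* Pm v w c d D := by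
  rw [cr_vecMul (fun h hh g => Hv_mul hh g) hx, cutM_Nm]

theorem main3 (s : Sp G T v w) (t : TMx v w c d D) {y : I → MonoidAlgebra R G}
    (hy : y ∈ KK T v w c d) : cr (Hv G v w) y ᵥ* Nm T v w c d D = y ∧
      cr (Hv G v w) y ᵥ* Nm T w v c d D = 0 ∧
      cr (Hv G v w) y ᵥ* Pm v w c d D = cr (Hv G v w) y ∧
      cr (Hv G v w) y ᵥ* Pm w v c d D = 0 := by
  set x := cr (Hv G v w) y with hx
  have hxE : lcE (Hv G v w) x := lcE_cr _ _
  have hxE' : lcE (Hv G w v) x := by rw [Hv_comm]; exact hxE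
  have m1 := comb_mem s t hxE
  have m2 : x ᵥ* Nm T w v c d D ∈ KK T w v c d := comb_mem s.symm (TMx.symm t) hxE'
  have c1 : cr (Hv G v w) (x ᵥ* Nm T v w c d D) = x ᵥ* Pm v w c d D := cr_comb hxE
  have c2 : cr (Hv G v w) (x ᵥ* Nm T w v c d D) = x ᵥ* Pm w v c d D := by
    have := cr_comb (T := T) (c := c) (d := d) (D := D) hxE'
    rw [Hv_comm v w] at this
    exact this
  have hsum : x ᵥ* Pm v w c d D + x ᵥ* Pm w v c d D = x := by
    rw [← Matrix.vecMul_add, Pm_add s t, Matrix.vecMul_one]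
  have k1 : y - x ᵥ* Nm T v w c d D ∈ KK T v w c d := by
    refine ⟨lcE_sub hy.1 m1.1, ?_⟩
    rw [Matrix.sub_vecMul, sub_eq_add_neg]
    exact lcV_add hy.2 (lcV_neg m1.2)
  have k2 : -(x ᵥ* Nm T w v c d D) ∈ KK T w v c d := by
    refine ⟨lcE_neg m2.1, ?_⟩
    rw [Matrix.neg_vecMul]
    exact lcV_neg m2.2
  have h0 : cr (Hv G v w) (y - x ᵥ* Nm T v w c d D) +
      cr (Hv G v w) (-(x ᵥ* Nm T w v c d D)) = 0 := by
    rw [cr_sub, cr_neg, c1, c2, ← hx]
    calc x - x ᵥ* Pm v w c d D + -(x ᵥ* Pm w v c d D)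
        = x - (x ᵥ* Pm v w c d D + x ᵥ* Pm w v c d D) := by abel
      _ = 0 := by rw [hsum, sub_self]
  obtain ⟨r1, r2⟩ := uniq s t k1 k2 h0
  have r1' : y = x ᵥ* Nm T v w c d D := sub_eq_zero.1 r1
  have r2' : x ᵥ* Nm T w v c d D = 0 := neg_eq_zero.1 r2
  refine ⟨r1'.symm, r2', ?_, ?_⟩
  · rw [← c1, ← r1', hx]
  · rw [← c2, r2', cr_zero]

end Geo

end SPLM

open SPLM in
theorem specSPL (hTRW : SpecTRW) : SpecSPL := by
  intro R G V _ _ _ T v w hT I J _ _ _ _ c d D t
  have s := sp_of hTRW hT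
  exact ⟨Pm_add s t, Nm_mem s t, fun y hy => main3 s t hy, cutM_Nm⟩

end Pool.Agent.Lib.MPb6f35e.KN
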