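import Pool.Agent.Lib.MP_b6f35e_al.KN.SpecW
import Pool.Agent.Lib.MP_8a3537_gt.ROK.FPT

/-! Module TRW: the geometry of the edges. -/

set_option linter.all false

namespace Pool.Agent.Lib.MPb6f35e.KN

open Pool.Agent.Lib.MP8a3537.UV.TREAux
open Pool.Agent.Lib.MP8a3537.ROK.FPTAux (exists_next across)

namespace TRWM

variable {G V : Type} [Group G] [MulAction G V] {T : SimpleGraph V} {v w : V}

theorem disj {x y u : V} (h : u ∈ Br T x y) (h' : u ∈ Br T y x) : False := by
  rw [mem_Br] at h h'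
  omega

/-- (0): the only edge between the two parts is `{v, w}`. -/
theorem cross (hT : T.IsTree) (ha : T.Adj v w) {x y : V} (hx : x ∈ Br T w v) (hy : y ∈ Br T v w)
    (hxy : T.Adj x y) : x = v ∧ y = w := by
  have h1 : T.dist y x = T.dist y v + T.dist v x := across hT ha hy _ x rfl hx
  have h2 : T.dist x y = T.dist x w + T.dist w y := across hT ha.symm hx _ y rfl hy
  have e1 : T.dist x y = 1 := SimpleGraph.dist_eq_one_iff_adj.mpr hxy
  have e2 : T.dist y x = 1 := SimpleGraph.dist_eq_one_iff_adj.mpr hxy.symm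
  have n1 : T.dist y v ≠ 0 := by
    intro h0
    have := hT.connected.dist_eq_zero_iff.mp h0
    rw [this] at hy
    exact not_mem v w hy
  have n2 : T.dist x w ≠ 0 := by
    intro h0
    have := hT.connected.dist_eq_zero_iff.mp h0
    rw [this] at hx
    exact not_mem w v hx
  have z1 : T.dist v x = 0 := by omega
  have z2 : T.dist w y = 0 := by omega
  exact ⟨(hT.connected.dist_eq_zero_iff.mp z1).symm, (hT.connected.dist_eq_zero_iff.mp z2).symm⟩

theorem part1 (H : TrH G T v w) (g : G) : g ∈ Hv G v w ∨ g ∈ EB G T v w ∨ g ∈ EB G T w v := by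
  have hadj : T.Adj (g • v) (g • w) := H.act g v w H.adj
  rcases br_or H.tree H.adj (g • v) with h1 | h1 <;> rcases br_or H.tree H.adj (g • w) with h2 | h2
  · exact Or.inr (Or.inl ⟨h1, h2⟩)
  · exfalso
    obtain ⟨e1, e2⟩ := cross H.tree H.adj h2 h1 hadj.symm
    exact H.inv g ⟨e2, e1⟩
  · obtain ⟨e1, e2⟩ := cross H.tree H.adj h1 h2 hadj
    exact Or.inl ⟨e1, e2⟩
  · exact Or.inr (Or.inr ⟨h2, h1⟩)

theorem part2 {g : G} (hg : g ∈ EB G T v w) : g ∉ Hv G v w ∧ g ∉ EB G T w v := by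
  obtain ⟨h1, h2⟩ := hg
  constructor
  · rintro ⟨e1, e2⟩
    rw [e1] at h1
    exact not_mem v w h1
  · rintro ⟨e1, e2⟩
    exact disj h1 e2

theorem ne_vw (H : TrH G T v w) : v ≠ w := H.adj.ne

/-- Elements of `LB` fixing `w`. -/
theorem lb_fix (H : TrH G T v w) {k : G} (hk : k ∈ LB G v w) (h : k • w = w) : k • v ≠ v := by
  rcases hk with hk | hk
  · exact hk.2
  · exfalso
    apply ne_vw H
    apply smul_left_cancel k
    rw [hk.1, h]

/-- Elements of `LB` not fixing `w`. -/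
theorem lb_mov (H : TrH G T v w) {k : G} (hk : k ∈ LB G v w) (h : k • w ≠ w) :
    k • v = w ∧ k • w ≠ v := by
  rcases hk with hk | hk
  · exact absurd hk.1 h
  · exact hk

theorem adj_fix (H : TrH G T v w) {k : G} (h : k • w = w) : T.Adj w (k • v) := by
  have := H.act k w v H.adj.symm
  rwa [h] at this

theorem adj_mov (H : TrH G T v w) {k : G} (h : k • v = w) : T.Adj w (k • w) := by
  have := H.act k v w H.adj
  rwa [h] at this

theorem sub_fix (H : TrH G T v w) {k : G} (hk : k ∈ LB G v w) (h : k • w = w) :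
    Br T w (k • v) ⊆ Br T v w :=
  br_sub H.tree H.adj.symm (adj_fix H h) (lb_fix H hk h)

theorem sub_mov (H : TrH G T v w) {k : G} (hk : k ∈ LB G v w) (h : k • w ≠ w) :
    Br T w (k • w) ⊆ Br T v w :=
  br_sub H.tree H.adj.symm (adj_mov H (lb_mov H hk h).1) (lb_mov H hk h).2

theorem mv_fix (H : TrH G T v w) {k : G} (h : k • w = w) {u : V} (hu : u ∈ Br T w v) :
    k • u ∈ Br T w (k • v) := by
  have := smul_Br H.tree H.act k hu
  rwa [h] at this

theorem mv_mov (H : TrH G T v w) {k : G} (h : k • v = w) {u : V} (hu : u ∈ Br T v w) :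
    k • u ∈ Br T w (k • w) := by
  have := smul_Br H.tree H.act k hu
  rwa [h] at this

theorem part7 (H : TrH G T v w) {k : G} (hk : k ∈ LB G v w) :
    (k • w = w → ∀ u ∈ Br T w v, k • u ∈ Br T v w) ∧
      (k • w ≠ w → k • v = w ∧ ∀ u ∈ Br T v w, k • u ∈ Br T v w) := by
  constructor
  · intro h u hu
    exact sub_fix H hk h (mv_fix H h hu)
  · intro h
    obtain ⟨h1, h2⟩ := lb_mov H hk h
    exact ⟨h1, fun u hu => sub_mov H hk h (mv_mov H h1 hu)⟩

theorem part5 (H : TrH G T v w) {k : G} (hk : k ∈ LB G v w) (g : G) :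
    (k • w = w → g ∈ Hv G v w ∪ EB G T w v → k * g ∈ EB G T v w) ∧
      (k • w ≠ w → g ∈ Hv G v w ∪ EB G T v w → k * g ∈ EB G T v w) := by
  constructor
  · intro h hg
    rcases hg with ⟨e1, e2⟩ | ⟨e1, e2⟩
    · refine ⟨?_, ?_⟩
      · rw [mul_smul, e1]
        exact sub_fix H hk h (mem_self (adj_fix H h))
      · rw [mul_smul, e2, h]
        exact mem_self H.adj
    · refine ⟨?_, ?_⟩
      · rw [mul_smul]
        exact (part7 H hk).1 h _ e2
      · rw [mul_smul]
        exact (part7 H hk).1 h _ e1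
  · intro h hg
    obtain ⟨h1, h2⟩ := lb_mov H hk h
    rcases hg with ⟨e1, e2⟩ | ⟨e1, e2⟩
    · refine ⟨?_, ?_⟩
      · rw [mul_smul, e1, h1]
        exact mem_self H.adj
      · rw [mul_smul, e2]
        exact sub_mov H hk h (mem_self (adj_mov H h1))
    · refine ⟨?_, ?_⟩
      · rw [mul_smul]
        exact ((part7 H hk).2 h).2 _ e1
      · rw [mul_smul]
        exact ((part7 H hk).2 h).2 _ e2

theorem part3 (H : TrH G T v w) {h : G} (hh : h ∈ Hv G v w) (g : G) :
    (g ∈ EB G T v w → h * g ∈ EB G T v w ∧ g * h ∈ EB G T v w) ∧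
      (g ∈ LB G v w → h * g ∈ LB G v w ∧ g * h ∈ LB G v w) := by
  obtain ⟨hv, hw⟩ := hh
  constructor
  · rintro ⟨e1, e2⟩
    refine ⟨⟨?_, ?_⟩, ⟨?_, ?_⟩⟩
    · have := smul_Br H.tree H.act h e1
      rwa [hv, hw, smul_smul] at this
    · have := smul_Br H.tree H.act h e2
      rwa [hv, hw, smul_smul] at this
    · rwa [mul_smul, hv]
    · rwa [mul_smul, hw]
  · intro hg
    constructor
    · rcases hg with ⟨e1, e2⟩ | ⟨e1, e2⟩
      · left
        refine ⟨by rw [mul_smul, e1, hw], ?_⟩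
        intro e
        apply e2
        apply smul_left_cancel h
        rw [← mul_smul, e, hv]
      · right
        refine ⟨by rw [mul_smul, e1, hw], ?_⟩
        intro e
        apply e2
        apply smul_left_cancel h
        rw [← mul_smul, e, hv]
    · rcases hg with ⟨e1, e2⟩ | ⟨e1, e2⟩
      · left
        exact ⟨by rw [mul_smul, hw, e1], by rw [mul_smul, hv]; exact e2⟩
      · right
        exact ⟨by rw [mul_smul, hv, e1], by rw [mul_smul, hw]; exact e2⟩

theorem inv_smul_Br (H : TrH G T v w) (k : G) {x y u : V} (hu : u ∈ Br T x y) {x' y' : V}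
    (hx : k • x' = x) (hy : k • y' = y) : k⁻¹ • u ∈ Br T x' y' := by
  have := smul_Br H.tree H.act k⁻¹ hu
  rwa [← hx, ← hy, inv_smul_smul, inv_smul_smul] at this

theorem part4 (H : TrH G T v w) {g : G} (hg : g ∈ EB G T v w) : ∃ k ∈ LB G v w,
      (k • w = w → k⁻¹ * g ∈ Hv G v w ∪ EB G T w v) ∧
      (k • w ≠ w → k⁻¹ * g ∈ Hv G v w ∪ EB G T v w) := by
  have hadj : T.Adj (g • v) (g • w) := H.act g v w H.adj
  obtain ⟨u, hu, hun, hub⟩ : ∃ u, (u = g • v ∨ u = g • w) ∧ u ≠ w ∧ u ∈ Br T v w := by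
    by_cases h : g • v = w
    · refine ⟨g • w, Or.inr rfl, ?_, hg.2⟩
      intro e
      exact hadj.ne (h.trans e.symm)
    · exact ⟨g • v, Or.inl rfl, h, hg.1⟩
  obtain ⟨x', hx', hd⟩ := exists_next H.tree (x := w) (y := u) (Ne.symm hun)
  have hux : u ∈ Br T w x' := by
    rw [mem_Br, SimpleGraph.dist_comm (u := u) (v := x'), SimpleGraph.dist_comm (u := u) (v := w)]
    omega
  have hx'v : x' ≠ v := by
    intro e
    rw [e] at hux
    exact disj hux hub
  obtain ⟨k, hk⟩ := H.one w x' hx'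
  rcases hk with ⟨k1, k2⟩ | ⟨k1, k2⟩
  · have kw : k • w ≠ w := by rw [k2]; exact hx'.ne'
    refine ⟨k, Or.inr ⟨k1, by rw [k2]; exact hx'v⟩, fun h => absurd h kw, fun _ => ?_⟩
    have hm : k⁻¹ • u ∈ Br T v w := inv_smul_Br H k hux k1 k2
    rcases part1 H (k⁻¹ * g) with h | h | h
    · exact Or.inl h
    · exact Or.inr h
    · exfalso
      rcases hu with hu | hu
      · have := h.2
        rw [mul_smul, ← hu] at this
        exact disj hm this
      · have := h.1
        rw [mul_smul, ← hu] at this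
        exact disj hm this
  · refine ⟨k, Or.inl ⟨k2, by rw [k1]; exact hx'v⟩, fun _ => ?_, fun h => absurd k2 h⟩
    have hm : k⁻¹ • u ∈ Br T w v := inv_smul_Br H k hux k2 k1
    rcases part1 H (k⁻¹ * g) with h | h | h
    · exact Or.inl h
    · exfalso
      rcases hu with hu | hu
      · have := h.1
        rw [mul_smul, ← hu] at this
        exact disj hm this
      · have := h.2
        rw [mul_smul, ← hu] at this
        exact disj hm this
    · exact Or.inr h

/-- The ends of the edge `g {v, w}` relative to the branch at `w` through `x`. -/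
theorem ends (H : TrH G T v w) {k : G} (hk : k ∈ LB G v w) {g : G}
    (h : (k • w = w ∧ k⁻¹ * g ∈ Hv G v w ∪ EB G T w v) ∨
        (k • w ≠ w ∧ k⁻¹ * g ∈ Hv G v w ∪ EB G T v w)) :
    ∃ x : V, T.Adj w x ∧ ((k • w = w ∧ k • v = x) ∨ (k • v = w ∧ k • w = x)) ∧
      (g • v ∈ Br T w x ∨ g • w ∈ Br T w x) ∧ (g • v = w ∨ g • v ∈ Br T w x) ∧
      (g • w = w ∨ g • w ∈ Br T w x) := by
  have hg : ∀ u : V, g • u = k • ((k⁻¹ * g) • u) := by
    intro u
    rw [smul_smul, mul_inv_cancel_left]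
  rcases h with ⟨h1, h2⟩ | ⟨h1, h2⟩
  · refine ⟨k • v, adj_fix H h1, Or.inl ⟨h1, rfl⟩, ?_⟩
    rcases h2 with ⟨e1, e2⟩ | ⟨e1, e2⟩
    · have f1 : g • v ∈ Br T w (k • v) := by
        rw [hg v, e1]
        exact mem_self (adj_fix H h1)
      have f2 : g • w = w := by rw [hg w, e2, h1]
      exact ⟨Or.inl f1, Or.inr f1, Or.inl f2⟩
    · have f1 : g • v ∈ Br T w (k • v) := by
        rw [hg v]
        exact mv_fix H h1 e2
      have f2 : g • w ∈ Br T w (k • v) := by
        rw [hg w]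
        exact mv_fix H h1 e1
      exact ⟨Or.inl f1, Or.inr f1, Or.inr f2⟩
  · obtain ⟨k1, k2⟩ := lb_mov H hk h1
    refine ⟨k • w, adj_mov H k1, Or.inr ⟨k1, rfl⟩, ?_⟩
    rcases h2 with ⟨e1, e2⟩ | ⟨e1, e2⟩
    · have f1 : g • v = w := by rw [hg v, e1, k1]
      have f2 : g • w ∈ Br T w (k • w) := by
        rw [hg w, e2]
        exact mem_self (adj_mov H k1)
      exact ⟨Or.inr f2, Or.inl f1, Or.inr f2⟩
    · have f1 : g • v ∈ Br T w (k • w) := by
        rw [hg v]
        exact mv_mov H k1 e1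
      have f2 : g • w ∈ Br T w (k • w) := by
        rw [hg w]
        exact mv_mov H k1 e2
      exact ⟨Or.inl f1, Or.inr f1, Or.inr f2⟩

theorem part6 (H : TrH G T v w) {k : G} (hk : k ∈ LB G v w) {k' : G} (hk' : k' ∈ LB G v w) (g : G)
    (h : (k • w = w ∧ k⁻¹ * g ∈ Hv G v w ∪ EB G T w v) ∨
        (k • w ≠ w ∧ k⁻¹ * g ∈ Hv G v w ∪ EB G T v w))
    (h' : (k' • w = w ∧ k'⁻¹ * g ∈ Hv G v w ∪ EB G T w v) ∨
        (k' • w ≠ w ∧ k'⁻¹ * g ∈ Hv G v w ∪ EB G T v w)) : k⁻¹ * k' ∈ Hv G v w := by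
  obtain ⟨x, ax, cx, sx, vx, wx⟩ := ends H hk h
  obtain ⟨y, ay, cy, sy, vy, wy⟩ := ends H hk' h'
  have hxy : x = y := by
    rcases sx with s | s
    · rcases vy with e | e
      · rw [e] at s
        exact absurd s (not_mem w x)
      · exact br_unique H.tree ax ay s e
    · rcases wy with e | e
      · rw [e] at s
        exact absurd s (not_mem w x)
      · exact br_unique H.tree ax ay s e
  subst hxy
  rcases cx with ⟨a1, a2⟩ | ⟨a1, a2⟩ <;> rcases cy with ⟨b1, b2⟩ | ⟨b1, b2⟩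
  · refine ⟨?_, ?_⟩
    · rw [mul_smul, b2, ← a2, inv_smul_smul]
    · rw [mul_smul, b1, inv_smul_eq_iff, a1]
  · exfalso
    apply H.inv (k⁻¹ * k')
    refine ⟨?_, ?_⟩
    · rw [mul_smul, b1, inv_smul_eq_iff, a1]
    · rw [mul_smul, b2, ← a2, inv_smul_smul]
  · exfalso
    apply H.inv (k⁻¹ * k')
    refine ⟨?_, ?_⟩
    · rw [mul_smul, b2, ← a2, inv_smul_smul]
    · rw [mul_smul, b1, inv_smul_eq_iff, a1]
  · refine ⟨?_, ?_⟩
    · rw [mul_smul, b1, inv_smul_eq_iff, a1]
    · rw [mul_smul, b2, ← a2, inv_smul_smul]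

end TRWM

open TRWM in
theorem specTRW : SpecTRW := by
  intro G V _ _ T v w H
  refine ⟨fun g => part1 H g, fun g hg => part2 hg, fun h hh g => part3 H hh g,
    fun g hg => part4 H hg, fun k hk g => part5 H hk g, ?_, fun k hk => part7 H hk⟩
  intro k hk k' hk' g h h'
  exact part6 H hk hk' g h h'

end Pool.Agent.Lib.MPb6f35e.KN
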