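import Pool.Agent.Lib.MP_b6f35e_al.KN.Main
import Pool.Agent.Lib.MP_b6f35e_al.KN.GlueMain
import Pool.Agent.Lib.MP_b6f35e_al.KN.FNW
import Pool.Agent.Lib.MP_b6f35e_al.KN.TRW
import Pool.Agent.Lib.MP_b6f35e_al.KN.SPL
import Pool.Agent.Lib.MP_b6f35e_al.KN.BRD
import Pool.Agent.Lib.MP_b6f35e_al.KN.NUE
import Pool.Agent.Lib.MP_b6f35e_al.KN.DEC
import Pool.Agent.Lib.MP_b6f35e_al.KN.HIG
import Pool.Agent.Lib.MP_b6f35e_al.KN.GEN
import Pool.Agent.Lib.MP_b6f35e_al.KN.TMX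

/-! Glued matrices generate, without hypotheses (helper23). -/

namespace Pool.Agent.Lib.MPb6f35e.KN

theorem mSPL : SpecSPL := specSPL specTRW

theorem mBRD : SpecBRD := specBRD specTRW mSPL

theorem mNUE : SpecNUE := specNUE specTRW mSPL mBRD

theorem mFNW : SpecFNW := specFNW (specDEC mSPL mNUE) (specHIG specKCL) specGEN (specTMX specKCL)

theorem main_glue : SpecMainW := mainW specKIN mELK specBLT specBGE specEGE specETD mBAS mFNW

end Pool.Agent.Lib.MPb6f35e.KN
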