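import Pool.Agent.Lib.MP_b6f35e_al.KN.Defs

/-!
# Vanishing of Waldhausen's Nil classes over arbitrary edge groups: Specs

Paper: `/team-store/MP_b6f35e_KN_h23.md`. Every module `XXX` is a file
`Pool/Agent/Lib/MP_b6f35e_al/KN/XXX.lean` which imports this file and proves
`theorem specXXX (hypotheses in the order of the deps) : SpecXXX` (exactly this name) in the namespace
`Pool.Agent.Lib.MPb6f35e.KN`, with its auxiliary declarations in the namespace `XXXM` inside it. The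
landed files `Pool/Agent/Lib/MP_8a3537_gt/UV/RES.lean` (`RESAux`: `res`, `lres`, decompositions over
cosets), `UV/TRE.lean` (`TREAux`: branches of a tree), `RO/JNT.lean`, `ROK/TFA.lean`, `ROK/FPT.lean`,
`ROK/TRG.lean` may be imported.

Conventions: `S = R[L]`, `A = R[G]`, rows `x ᵥ* M`. A letter of type `(a, b)` leads from `a` to `b`.
-/

namespace Pool.Agent.Lib.MPb6f35e.KN

open Matrix
open Pool.Agent.Lib.MP8a3537.UV (emb res lres SuppIn)
open Pool.Agent.Lib.MP8a3537.RO (Bi dc Kg cut)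
open Pool.Agent.Lib.MP8a3537.ROK (TM)

/-! ### Part 1: functions like `K_1` -/

/-- **KCL** (size 150): consequences of the axioms.

PROOF. (1) `mul` with `a = b = 1`. (2) `fromBlocks a b 0 d = fromBlocks 1 b 0 d * fromBlocks a 0 0 1`, both
are units (write down the inverses). `fromBlocks a 0 0 1 = 1 + fromRows (a - 1) 0 * fromCols 1 0`, so `swap`
gives `κ ι a`; `fromBlocks 1 b 0 d = 1 + fromRows b (d - 1) * fromCols 0 1`: `swap` gives `κ ι' d`.
(3) `fromBlocks a 0 c d = fromBlocks a 0 0 1 * fromBlocks 1 0 c d`; `fromBlocks 1 0 c d = 1 +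
fromRows 0 1 * fromCols c (d - 1)`. (4) `x = fromCols π π'`, `y = fromRows π π'`: `x y = π + π'`, so
`1 + ν = 1 + x (y ν)`, and `y ν x = fromBlocks (π ν π) (π ν π') (π' ν π) (π' ν π')` with `π' ν π = 0`:
`swap` and (2). Units: `ν π = (π + π') ν π = π ν π`, so `(π ν π)^(m+1) = (ν π)^(m+1) = ν^(m+1) π`, nilpotent;
`π' ν π' = π' ν (π + π') = π' ν`, `(π' ν)^(m+1) = π' ν^(m+1)`; `IsNilpotent.isUnit_one_add`. -/
def SpecKCL : Prop :=
  ∀ (A K : Type) [Ring A] [AddCommGroup K] (κ : ∀ (ι : Type) [Fintype ι], Matrix ι ι A → K), KF κ →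
    (∀ (ι : Type) [Fintype ι] [DecidableEq ι], κ ι (1 : Matrix ι ι A) = 0) ∧
    (∀ (ι ι' : Type) [Fintype ι] [DecidableEq ι] [Fintype ι'] [DecidableEq ι'] (a : Matrix ι ι A)
      (b : Matrix ι ι' A) (d : Matrix ι' ι' A), IsUnit a → IsUnit d →
      κ (ι ⊕ ι') (fromBlocks a b 0 d) = κ ι a + κ ι' d) ∧
    (∀ (ι ι' : Type) [Fintype ι] [DecidableEq ι] [Fintype ι'] [DecidableEq ι'] (a : Matrix ι ι A)
      (c : Matrix ι' ι A) (d : Matrix ι' ι' A), IsUnit a → IsUnit d →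
      κ (ι ⊕ ι') (fromBlocks a 0 c d) = κ ι a + κ ι' d) ∧
    (∀ (ι : Type) [Fintype ι] [DecidableEq ι] (π π' ν : Matrix ι ι A), π * π = π → π' * π' = π' →
      π * π' = 0 → π' * π = 0 → (π + π') * ν = ν → ν * (π + π') = ν → π' * ν * π = 0 →
      IsNilpotent ν → κ ι (1 + ν) = κ ι (1 + π * ν * π) + κ ι (1 + π' * ν * π'))

/-- **KIN** (size 250): `K_1` is such a function.

PROOF. For `e : ι ≃ Fin n` and a unit `M` let `c e M` be the class of the unit `reindex e e M`. `c` does not depend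
on `e` (also `n = card ι`): for two `e`, `e'` with the same `n` the matrices differ by the conjugation with
the permutation matrix of `e⁻¹ e'`, and `cls` is additive (relation `mul`; `cls ⟨n, 1⟩ = 0`) in a commutative group.
`κ ι M := if IsUnit M then c (Fintype.equivFin ι) M else 0`. The last clause: `e = Fintype.equivFin (Fin n)`
(here `card (Fin n) = n` propositionally: prove the independence for all `n`, `e : ι ≃ Fin n`, by `subst` after
`n = Fintype.card ι`). `mul`: relation `mul` (`reindex` is multiplicative). Block triangular matrices: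
`c` of `fromBlocks a x 0 b` (index `ι ⊕ ι'`, equivalence `(Equiv.sumCongr e e').trans finSumFinEquiv`) is `c a + c b` by the relation
`block`. `swap`: `M = fromBlocks 1 (-x) y 1 = fromBlocks 1 0 y 1 * fromBlocks 1 (-x) 0 (1 + y x) =
fromBlocks (1 + x y) (-x) 0 1 * fromBlocks 1 0 y 1`, all units (`1 + y x` has the inverse
`1 - y (1 + x y)⁻¹ x`), so `[lower] + [1 + y x] + [1] = [1 + x y] + [1] + [lower]`. -/
def SpecKIN : Prop :=
  ∀ (A : Type) [Ring A], ∃ κ : ∀ (ι : Type) [Fintype ι], Matrix ι ι A → D1.Grp (D1.RelA A),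
    KF κ ∧ ∀ (n : ℕ) (u : (Matrix (Fin n) (Fin n) A)ˣ), κ (Fin n) u.val = D1.cls (D1.RelA A) ⟨n, u⟩

/-! ### Part 2: elimination of the letters -/

/-- **JNK** (size 250; cf. `RO/JNT.lean`): joint nilpotency.

PROOF. For a list `l` define `W l : S → S → Set G` by `W [] a b = {h | a = b ∧ h ∈ H}` and
`W (l ++ [c]) a b' = {w x | ∃ b, w ∈ W l a b, x ∈ c b b', x ∈ Z b b'}` (`List.reverseRecOn`, or use reversed lists).
(i) `w ∈ W l a b`, `h ∈ H` ⟹ `w h ∈ W l a b` (`c`, `Z` right invariant). (ii) `W l a b ⊆ Y b` (`one`, `yh`, `yz`).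
(iii) `supp (ν^k i j) ⊆ Y (τ j)` (induction, `one`, `yz`). CLAIM: `(l.map ..).prod i j = cut (W l (τ i) (τ j)) (ν^(length l) i j)`.
`l = []`: `1 ∈ H`. Step: for each `q`, with `u = ν^k i q`, `v = ν q j`: `cut W' (u v) = cut W u * cut c v`, because for
`y ∈ supp u ⊆ Y (τ q)`, `x ∈ supp v ⊆ Z (τ q) (τ j)`: `y x ∈ W'` iff `y ∈ W` and `x ∈ c`. Indeed if `y x = w x'` with `w ∈ W l (τ i) b`,
`x' ∈ c b (τ j)`, `x' ∈ Z b (τ j)`, then `uq` gives `τ q = b`, `x' x⁻¹ ∈ H`, so `x = (x' x⁻¹)⁻¹ x' ∈ c` and `y = w (x' x⁻¹) ∈ W` by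
(i). If `N ≤ length l` then `ν^(length l) = 0`. -/
def SpecJNK : Prop :=
  ∀ (R G S : Type) [Ring R] [Group G] (H : Subgroup G) (Z : S → S → Set G) (Y : S → Set G),
    TD H Z Y → ∀ (ι : Type) [Fintype ι] [DecidableEq ι] (τ : ι → S)
    (ν : Matrix ι ι (MonoidAlgebra R G)), Ty Z τ ν → ∀ N : ℕ, ν ^ N = 0 →
    ∀ l : List (S → S → Set G), (∀ c ∈ l, ∀ a b, Bi H (c a b)) → N ≤ l.length →
      (l.map fun c => pt τ c ν).prod = 0

/-- **ELA** (size 150): elimination, for any ring.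

PROOF. `ν0^N = 0` (`List.replicate`). `W = Wn N ν0` is the inverse of `1 + ν0` (geometric sum). Let `E k` be the
additive subgroup generated by the products of `≥ k` factors from `{ν0, νc}`; `E k * E l ⊆ E (k + l)`
(`AddSubgroup.closure_induction` twice), `E (k + 1) ⊆ E k`, `E N = 0`. `W ∈ E 0`, `νc W`, `W νc ∈ E 1`, so `(νc W)^N = 0`,
`(W νc)^N = 0`. With `νc = x y z`: `(y z W x)^(N+1) = y z W (νc W)^N x = 0` (`mul_assoc`, induction:
`(y z W x)^(k+1) = y z W (νc W)^k x`). `1 + (ν0 + νc) = (1 + ν0) (1 + W νc)`, `mul`; `W νc = (W x) (y z)`, `swap`. -/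
def SpecELA : Prop :=
  ∀ (A K : Type) [Ring A] [AddCommGroup K] (κ : ∀ (ι : Type) [Fintype ι], Matrix ι ι A → K), KF κ →
    ∀ (ι ρ : Type) [Fintype ι] [DecidableEq ι] [Fintype ρ] [DecidableEq ρ] (ν0 νc : Matrix ι ι A)
    (x : Matrix ι ρ A) (y : Matrix ρ ρ A) (z : Matrix ρ ι A) (N : ℕ), νc = x * y * z →
    (∀ l : List (Matrix ι ι A), (∀ m ∈ l, m = ν0 ∨ m = νc) → N ≤ l.length → l.prod = 0) →
    IsNilpotent ν0 ∧ IsNilpotent (y * z * Wn N ν0 * x) ∧
    κ ι (1 + (ν0 + νc)) = κ ι (1 + ν0) + κ ρ (1 + y * z * Wn N ν0 * x)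

/-- **FAK** (size 150; cf. `RO/FAC.lean`): factorization of the part in `H g H`.

PROOF. `νc = pt τ (cs H s t g) ν`. `ρ` = the (finite) type of the triples `(i, j, u)` with `u` in the support of `νc i j`, e.g.
`ρ = Σ i, Σ j, {u // u ∈ (νc i j).coeff.support}` or `Fin` of its cardinality. For such a triple `τ i = s`, `τ j = t`,
`u = h g h'` with `h, h' ∈ H` (choose them). `x i k = single h r` if `k = (i, j, u)` for some `j`, `u` (where `r` is the
coefficient), `0` otherwise; `y` = diagonal matrix with entries `single g 1`; `z k j = single h' 1` if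
`k = (i, j, u)`. Then `(x y z) i j = ∑_u single (h g h') r = νc i j`. -/
def SpecFAK : Prop :=
  ∀ (R G S : Type) [Ring R] [Group G] (H : Subgroup G) (s t : S) (g : G) (ι : Type) [Fintype ι]
    [DecidableEq ι] (τ : ι → S) (ν : Matrix ι ι (MonoidAlgebra R G)),
    ∃ (ρ : Type) (_ : Fintype ρ) (_ : DecidableEq ρ) (x : Matrix ι ρ (MonoidAlgebra R G))
      (y : Matrix ρ ρ (MonoidAlgebra R G)) (z : Matrix ρ ι (MonoidAlgebra R G)),
      pt τ (cs H s t g) ν = x * y * z ∧ (∀ i k u, (x i k).coeff u ≠ 0 → u ∈ H ∧ τ i = s) ∧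
      SuppIn {g} y ∧ (∀ k j u, (z k j).coeff u ≠ 0 → u ∈ H ∧ τ j = t)

/-- **SUK** (size 150): the support of the new block.

PROOF. Write `Z' = Za H Z s t g`; it is biinvariant under `H` (`dc H g` is biinvariant). `Wo H Z' a b` is closed under
left and right multiplication by `H` (induction; right: the last letter). `Ty Z' τ ν0`: the support of
`((-ν0)^k) i j` is in `{w | Wo H Z' (τ i) (τ j) w}` (induction on `k`, `pow_succ`; `k = 0`: `1 ∈ H`), so the same for `Wn N ν0`.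
An element of the support of `(y z W x) k l` is `g h w h'` with `h, h' ∈ H`, `w ∈ Wo H Z' t s` (indices `i`, `j` with
`τ i = t`, `τ j = s`), that is `g (h w h')`. -/
def SpecSUK : Prop :=
  ∀ (R G S : Type) [Ring R] [Group G] (H : Subgroup G) (Z : S → S → Set G) (Y : S → Set G),
    TD H Z Y → ∀ (s t : S) (g : G) (ι ρ : Type) [Fintype ι] [DecidableEq ι] [Fintype ρ]
    [DecidableEq ρ] (τ : ι → S) (ν0 : Matrix ι ι (MonoidAlgebra R G))
    (x : Matrix ι ρ (MonoidAlgebra R G)) (y : Matrix ρ ρ (MonoidAlgebra R G))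
    (z : Matrix ρ ι (MonoidAlgebra R G)) (N : ℕ), Ty (Za H Z s t g) τ ν0 →
    (∀ i k u, (x i k).coeff u ≠ 0 → u ∈ H ∧ τ i = s) → SuppIn {g} y →
    (∀ k j u, (z k j).coeff u ≠ 0 → u ∈ H ∧ τ j = t) →
    SuppIn (BL H Z s t g) (y * z * Wn N ν0 * x)

/-- **BLT** (size 220): the block is again data.

PROOF. `Z' = Za H Z s t g ⊆ Z`, biinvariant; words are closed under left and right multiplication by `H`.
`hz`: `h (g w) = g ((g⁻¹ h g) w)` for `h ∈ Kg H g`. `zh`: `g (w h)`. `yh`, `one`: clear (`Kg H g ≤ H`). (W) `y ∈ Y a`,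
`Wo H Z' a b w` ⟹ `y w ∈ Y b` (`yh`, `yz`). `yz`: `y g ∈ Y t`, `(y g) w ∈ Y s` by (W). `uq`: let `y (g w) = y' (g w')`, `y, y' ∈ Y s`,
`w, w'` words (of `Z'`) from `t` to `s`; to show `(g w') (g w)⁻¹ = g (w' w⁻¹) g⁻¹ ∈ Kg H g`, that is `w' w⁻¹ ∈ H` and
`g (w' w⁻¹) g⁻¹ ∈ H`. More generally for words `w`, `w'` from `t` to any `b`, by induction on `w` (for all `w'`):
(a) `w = w1 x`, `w' = w1' x'` (`x ∈ Z' c b`, `x' ∈ Z' c' b`): `(y g w1) x = (y' g w1') x'`, `y g w1 ∈ Y c`, `y' g w1' ∈ Y c'`; `uq`: `c = c'`,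
`h = x' x⁻¹ ∈ H`, so `y (g w1) = y' (g (w1' h))`, `w1' h` a word from `t` to `c`; `w' w⁻¹ = (w1' h) w1⁻¹`: induction.
(b) `w = h ∈ H` (so `b = t`), `w' = w1' x'`, `x' ∈ Z' c' t`: `y (g h) = (y' g w1') x'`, `g h ∈ Z s t`, `y ∈ Y s`, `uq`: `s = c'`,
`x' (g h)⁻¹ ∈ H`, so `x' ∈ H g H` at `(s, t)`: contradiction to `x' ∈ Z'`. (c) `w = w1 x`, `w' ∈ H`: the same.
(d) `w = h`, `w' = h'`: `y (g h) = y' (g h')`, `uq` for `g h, g h' ∈ Z s t`: `g h' h⁻¹ g⁻¹ ∈ H`. -/
def SpecBLT : Prop :=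
  ∀ (G S : Type) [Group G] (H : Subgroup G) (Z : S → S → Set G) (Y : S → Set G), TD H Z Y →
    ∀ s t, ∀ g ∈ Z s t, TD1 (Kg H g) (BL H Z s t g) (Y s)

/-- **ELK** (size 200, deps `SpecKCL`, `SpecJNK`, `SpecELA`, `SpecFAK`, `SpecSUK`): all letters are removed.

PROOF. Induction on `m(ν) = ∑_{i,j} card (supp (ν i j))`. `ν = 0`: `κ 1 = 0` (KCL (1)). Otherwise choose `i0`, `j0`, `g` with
`(ν i0 j0).coeff g ≠ 0`, `s = τ i0`, `t = τ j0`, `ν0 = pt τ (cc H s t g) ν`, `νc = pt τ (cs H s t g) ν`; `ν = ν0 + νc` (`cut_coeff`).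
`cs`, `cc` are biinvariant. JNK: for a list of matrices from `{ν0, νc}` of length `≥ N` the product is `0` (write
it as `l.map (pt τ · ν)`). FAK, ELA, SUK (`Ty (Za H Z s t g) τ ν0`): `κ (1 + ν) = κ (1 + ν0) + κ (1 + y z W x)`, the last
is `0` by the hypothesis `Van`; `m(ν0) < m(ν)` (`g ∈ H g H`), `Ty Z τ ν0`, `ν0` nilpotent. -/
def SpecELK : Prop :=
  ∀ (R G K S : Type) [Ring R] [Group G] [AddCommGroup K]
    (κ : ∀ (ι : Type) [Fintype ι], Matrix ι ι (MonoidAlgebra R G) → K), KF κ →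
    ∀ (H : Subgroup G) (Z : S → S → Set G) (Y : S → Set G), TD H Z Y →
    (∀ s t, ∀ g ∈ Z s t, Van κ (BL H Z s t g)) →
    ∀ (ι : Type) [Fintype ι] [DecidableEq ι] (τ : ι → S) (ν : Matrix ι ι (MonoidAlgebra R G)),
      Ty Z τ ν → IsNilpotent ν → κ ι (1 + ν) = 0

/-! ### Part 3: geometry -/

/-- **BGE** (size 250; imports `ROK/TFA.lean`, `specTFA`): the geometry of the block.

PROOF. TFA: (1) `Btw p q r`, `g p = p`, `g r = r` ⟹ `g q = q`. (2) `x1 ≠ x2`, `Btw x1 x2 u`, `Btw x2 x1 u'` ⟹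
`d u u' = d u x2 + d x2 x1 + d x1 u'`. (3) `Btw x1 x2 y`, `Btw x1 y u` ⟹ `Btw x1 x2 u`. Write `D+ a = {r | Btw (p a) (q a) r}`,
`D- a = {r | Btw (q a) (p a) r}`; `q a ∈ D+ a`, `p a ∈ D- a`. (W) a word `w` from `a` to `b` satisfies `w (D+ b) ⊆ D+ a` and
`w⁻¹ (D- a) ⊆ D- b` (induction; `h ∈ H` fixes the ends, `iso`). (NF) for `x ∈ Z a c` and a word `w` from `c` to `b` not
(`x w p_b = p_a` and `x w q_b = q_a`): otherwise `w p_b = x⁻¹ p_a ∈ D- c`, `w q_b ∈ D+ c`, so by (2)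
`d (w q_b) (w p_b) = d (w q_b) q_c + d q_c p_c + d p_c (w p_b)`, and the left side is `d q_b p_b = d q_c p_c` (`len`); so
`w q_b = q_c`, `w p_b = p_c`, and `x` maps `p_c`, `q_c` to `p_a`, `q_a`: contradiction to `nf`.
Let `g ∈ Z s t`, `p' = p s`, `q' = g q_t`. (*) `q' ∈ D+ s`: `Btw p' (q s) q'`. (**) `g⁻¹ p' ∈ D- t`:
`d q_t (g⁻¹ p') = d q_t p_t + d p_t (g⁻¹ p')`, so `d q' p' = d q' (g p_t) + d (g p_t) p'`. Strict: if `d p' q' = d p' (q s)` then
`q' = q s` by (*), and by (**) and `len` `g p_t = p s`: contradiction to `nf`. `st` for `Kg H g`: `x ∈ Kg H g` iff `x ∈ H` and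
`g⁻¹ x g ∈ H` iff `x` fixes `p s`, `q s`, `g p_t`, `g q_t`, iff (TFA (1), (*), (**)) `x` fixes `p'`, `q'`. `ne`: the distance is `> 0`.
`dp`: `x = g w`, `Btw p' q' r`. By (3) `r ∈ D+ s`, `w r ∈ D+ t` by (W). (2) with `g⁻¹ p' ∈ D- t`:
`d (w r) (g⁻¹ p') = d (w r) q_t + d q_t p_t + d p_t (g⁻¹ p') = d (w r) q_t + d q_t (g⁻¹ p')`; apply `g`: `Btw p' q' (g w r)`.
`dm`: `x⁻¹ = w⁻¹ g⁻¹`, `Btw q' p' r`, so `Btw q_t (g⁻¹ p') (g⁻¹ r)` and (3) `g⁻¹ r ∈ D- t`, `r' = w⁻¹ g⁻¹ r ∈ D- s` by (W). (2) with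
`q' ∈ D+ s`: `d q' r' = d q' (q s) + d (q s) p' + d p' r' = d q' p' + d p' r'`. `nf`: `x = g w`: if `x p' = p'` and `x q' = q'` then `x ∈ Kg H g ⊆ H`,
so `x q_s = q_s`, `x p_s = p_s`: contradiction to (NF) (`a = b = s`, `c = t`). `len`: clear. -/
def SpecBGE : Prop :=
  ∀ (G V S : Type) [Group G] [MulAction G V] (d : V → V → ℕ), TM G d →
    ∀ (H : Subgroup G) (Z : S → S → Set G) (p q : S → V), GeoK d H Z p q →
    ∀ s t, ∀ g ∈ Z s t, Geo1 d (Kg H g) (BL H Z s t g) (p s) (g • q t) ∧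
      Btw d (p s) (q s) (g • q t) ∧ d (p s) (q s) < d (p s) (g • q t)

/-- **EGE** (size 150; imports `ROK/TRG.lean`, `UV/TRE.lean`): the geometry of an edge.

PROOF. `Let G v w true true = {x | x v = w, x w ≠ v}`, `Let true false = {x | x w = w, x v ≠ v}`,
`Let false true = {x | x v = v, x w ≠ w}`, `Let false false = {x | x w = v, x v ≠ w}`. With `TRGAux.br_iff`:
`Btw T.dist v w r` iff `r ∈ Br T v w`. `dp`: `TRGAux.move1`, `move3` (as in `specTRG`). `dm`: `x ∈ Let a b` ⟹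
`x⁻¹ ∈ Let (!b) (!a)`, and `(en (!a)).1 = (en a).2` etc., so `dm` follows from `dp`. `len`: `1 = 1` (`dist_comm`). `st`, `ne`: clear.
`nf`: `x p_b = q_a ≠ p_a`. -/
def SpecEGE : Prop :=
  ∀ (G V : Type) [Group G] [MulAction G V] (T : SimpleGraph V) (v w : V), T.IsTree →
    (∀ (g : G) (x y : V), T.Adj x y → T.Adj (g • x) (g • y)) → T.Adj v w →
    (∀ g : G, ¬ (g • v = w ∧ g • w = v)) →
    GeoK T.dist (MulAction.stabilizer G v ⊓ MulAction.stabilizer G w) (Let G v w)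
      (fun a => (en v w a).1) (fun a => (en v w a).2)

/-- **ETD** (size 220; imports `UV/TRE.lean`): the typed data of an edge.

PROOF. `Yp = TREAux.YY G T v w = {y | y w ∈ Br v w, y v ∈ Br v w ∪ {v}}`, `Ym = YY G T w v`; put
`Y true = {y | y⁻¹ ∈ Ym}`, `Y false = {y | y⁻¹ ∈ Yp}`. `x ∈ Let a b` ⟹ `x⁻¹ ∈ Let (!b) (!a)`. `yz`: `(y x)⁻¹ = x⁻¹ y⁻¹`; the four cases
are `TREAux.F_Y`, `TREAux.M_Y` (for `(v, w)` and `(w, v)`): e.g. `a = b = true`: `x v = w`, so `x⁻¹ w = v`, `x⁻¹ v ≠ w`,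
`y⁻¹ ∈ YY w v`, `M_Y` for `(w, v)`: `x⁻¹ y⁻¹ ∈ YY w v`. `one`, `yh`: `YY_one`, `YY_mul` (inverses). `uq`: `y x = y' x'` gives
`x⁻¹ y⁻¹ = x'⁻¹ y'⁻¹`; `a ≠ a'`: `TREAux.d_ne` (for `(v, w)` or `(w, v)`) is a contradiction; `a = a'`: `TREAux.u_F`:
`x x'⁻¹` fixes both vertices, so `x' x⁻¹ ∈ H`. `hz`, `zh`: as in `specTRE`. -/
def SpecETD : Prop :=
  ∀ (G V : Type) [Group G] [MulAction G V] (T : SimpleGraph V) (v w : V), T.IsTree →
    (∀ (g : G) (x y : V), T.Adj x y → T.Adj (g • x) (g • y)) → T.Adj v w →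
    (∀ g : G, ¬ (g • v = w ∧ g • w = v)) →
    ∃ Y : Bool → Set G,
      TD (MulAction.stabilizer G v ⊓ MulAction.stabilizer G w) (Let G v w) Y

/-- **INK** (size 150, deps `SpecELK`, `SpecBLT`, `SpecBGE`): induction on the distance.

PROOF. Induction on `k - d p q` (for all `L`, `X`, `Y`, `p`, `q`). `k ≤ d p q`: hypothesis. Otherwise let `ν` be nilpotent with
support in `X`; ELK with `S = Unit`, `τ = fun _ => ()`: it suffices that `Van κ (BL L (fun _ _ => X) () () g)` for `g ∈ X`. BLT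
and BGE: the block is data with the ends `p`, `g q`, `d p (g q) > d p q`, and `P p (g q)` by the closure of `P`. -/
def SpecINK : Prop :=
  ∀ (R G K V : Type) [Ring R] [Group G] [AddCommGroup K] [MulAction G V]
    (κ : ∀ (ι : Type) [Fintype ι], Matrix ι ι (MonoidAlgebra R G) → K) (d : V → V → ℕ), KF κ →
    TM G d → ∀ (P : V → V → Prop) (k : ℕ), (∀ x y z, P x y → Btw d x y z → P x z) →
    (∀ (L : Subgroup G) (X Y : Set G) (p q : V), TD1 L X Y → Geo1 d L X p q → k ≤ d p q → P p q →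
      Van κ X) →
    ∀ (L : Subgroup G) (X Y : Set G) (p q : V), TD1 L X Y → Geo1 d L X p q → P p q → Van κ X

/-! ### Part 4: regular coherent rings and resolutions -/

/-- **COK** (size 250): kernels of maps of finitely presented modules are finitely presented.

PROOF. (A) `FPres S n M` ⟹ `M` finitely presented: induction (`Module.finitePresentation_of_projective`,
`Module.finitePresentation_of_surjective`: the kernel is finitely generated). (B) `f : F → Q` surjective, `F` finitely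
generated projective, `FPres S n Q` ⟹ `ker f` finitely presented. `n = 0`: `Q` is projective, `f` has a section, `ker f` is a
direct summand of `F`, so projective and finitely generated. `n + 1`: `f' : F' → Q` surjective with
`FPres S n (ker f')`, so `ker f'` is finitely presented. `P = {(x, y) ∈ F × F' | f x = f' y}` (a submodule). `P → F` is
surjective with kernel `≅ ker f'`, so `P` is finitely presented (`Module.finitePresentation_of_ker`). `P → F'` is surjective with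
kernel `≅ ker f`, and it has a section `σ` (`F'` projective), so `z ↦ z - σ (pr z)` is a surjection `P → ker f`
with kernel `≅ F'` (the image of `σ`), finitely generated: `ker f` is finitely presented
(`Module.finitePresentation_of_surjective`). (C) `g : M → Q` surjective, both finitely presented ⟹ `ker g` finitely presented:
choose `π : S^m → M` surjective (`RegCoh`: `FPres` for `M` and `Q`); `ker (g π)` and `ker π` are finitely presented
by (B), and `π : ker (g π) → ker g` is surjective with kernel `≅ ker π`. (D) General `f : M → N`: `N / im f` is finitely presented (`im f` is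
finitely generated), so `im f = ker (N → N / im f)` is finitely presented by (C), and `ker f` by (C) for `M → im f`. -/
def SpecCOK : Prop :=
  ∀ (S : Type) [Ring S], RegCoh S → ∀ (M N : Type) [AddCommGroup M] [Module S M] [AddCommGroup N]
    [Module S N] (f : M →ₗ[S] N), Module.FinitePresentation S M → Module.FinitePresentation S N →
    Module.FinitePresentation S (LinearMap.ker f)

/-- **LFK** (size 250): lifting a map to a chain map.

PROOF. Let `P m`: there is `f` with the degree condition, `D.p f = f`, `f C.p = f`, `(D.e f) i = (f C.e) i` for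
`deg i < m`, and `pi (f i) = rho (Pi.single i 1)` for all `i` with `deg i = 0` (if `0 < m`). `P 0`: `f = 0`. Step: rows `i` of degree `m` are
replaced by `(D.p c) i` with the following rows `c i` of degree `m`, `c i C.p = c i`. `m = 0`: `pi (c i) = rho (Pi.single i 1)` (surj; take
the degree `0` part (low) and multiply by `C.p` (pip)); then `pi ((D.p c) i) = ∑_k D.p i k • rho (Pi.single k 1) =
rho (Pi.single i 1 ᵥ* D.p) = rho (Pi.single i 1)`. `m = 1`: `x = (D.e f) i` has degree `0`, `pi x = rho (Pi.single i 1 ᵥ* D.e) = 0`, so by `Rs.ker`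
`x = c i C.e`. `m ≥ 2`: `x = (D.e f) i` has degree `m - 1`, `x C.e = (D.e (D.e f)) i = 0`, so by `Rs.ex` `x = c i C.e`. Then
`(D.p c C.e) i = (D.p D.e f) i = (D.e f) i`. At the end `m` is larger than all degrees. For all `x`:
`pi (x ᵥ* f) = ∑ x i • pi (f i)`, and for `deg i > 0` both `pi (f i)` and `rho (Pi.single i 1)` are `0` (low). -/
def SpecLFK : Prop :=
  ∀ (S : Type) [Ring S] (C D : PC S) (N : Type) [AddCommGroup N] [Module S N]
    (pi : (C.I → S) →ₗ[S] N) (rho : (D.I → S) →ₗ[S] N), Rs C pi →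
    (∀ x : D.I → S, (∀ i, D.deg i = 0 → x i = 0) → rho x = 0) → (∀ x, rho (x ᵥ* D.p) = rho x) →
    (∀ x, rho (x ᵥ* D.e) = 0) →
    ∃ f : Matrix D.I C.I S, CM D C f ∧ ∀ x, pi (x ᵥ* f) = rho x

/-- **CNK** (size 280): the cone resolves the quotient.

PROOF. `pi' x = θ (pi x1)` where `x = (x1, x2)` (`x1 = x ∘ inl`, `x2 = x ∘ inr`); `x p' = (x1 p, x2 pD)`, `x e' = (x1 e + x2 f, - x2 eD)`
(`vecMul` of `fromBlocks`: `Matrix.vecMul_fromBlocks`; it may be convenient to prove these two formulas first). `low`, `pip`,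
`surj` (take `(x1, 0)`): clear. `zero`: `pi (x1 e) = 0`, `θ (pi (x2 f)) = θ (rho x2) = 0`. `ker`: `x2 = 0`, `x1` of degree `0`, `θ (pi x1) = 0`, so
`pi x1 = rho y2`; replace `y2` by (its part of degree `0`) `ᵥ* pD` (low, pip); `y2 eD = 0` (`he`: rows of degree `0` vanish).
`pi (x1 - y2 f) = 0`, degree `0`, so `x1 - y2 f = y1 e` (`C.ker`), `(y1, y2) e' = (x1, 0)`. `ex`, `q = 1`: `x2` of degree `0`,
`x2 pD = x2`, `rho x2 = pi (x2 f) = - pi (x1 e) = 0`, so `x2 = - y2 eD` with `y2` of degree `1` (`D.ker`). `q ≥ 2`: `x2` of degree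
`q - 1`, `x2 eD = 0`: `x2 = - y2 eD`, `y2` of degree `q` (`D.ex`). In both cases `x1 - y2 f` has degree `q`, and
`(x1 - y2 f) e = x1 e - y2 eD f = x1 e + x2 f = 0`, so `x1 - y2 f = y1 e` (`C.ex`), and `(y1, y2) e' = (x1, x2)`. The solutions
have the right degree and are fixed by `p'`. -/
def SpecCNK : Prop :=
  ∀ (S : Type) [Ring S] (C D : PC S) (N Q : Type) [AddCommGroup N] [Module S N] [AddCommGroup Q]
    [Module S Q] (θ : N →ₗ[S] Q) (pi : (C.I → S) →ₗ[S] N)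
    (rho : (D.I → S) →ₗ[S] LinearMap.ker θ) (f : Matrix D.I C.I S) (hf : CM D C f),
    Function.Surjective θ → Rs C pi → Rs D rho → (∀ x, pi (x ᵥ* f) = (rho x : N)) →
    ∃ pi' : ((cone D C f hf).I → S) →ₗ[S] Q,
      (∀ x : C.I ⊕ D.I → S, pi' x = θ (pi fun i => x (Sum.inl i))) ∧ Rs (cone D C f hf) pi'

/-- **RSV** (size 180, deps `SpecLFK`, `SpecCNK`): resolutions as complexes of matrices.

PROOF. (0) `F` finitely generated projective: a surjection `π : (Fin m → S) → F` with a section `s`; `C.I = Fin m`, `deg = 0`,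
`e = 0`, `p i = s (π (Pi.single i 1))` (so `x ᵥ* p = s (π x)`), `pi = π`. `ker`: `x = x p = s (π x) = 0`, `y = 0`. Induction on `n`.
`n = 0`: (0). `n + 1`: `f : F → M`, `C`, `pi` for `F` by (0), `D`, `rho` for `ker f` by induction; LFK for
`(LinearMap.ker f).subtype ∘ rho` gives `φ`, CNK with `θ = f` gives the cone. -/
def SpecRSV : Prop :=
  ∀ (S : Type) [Ring S] (n : ℕ) (M : Type) [AddCommGroup M] [Module S M], FPres S n M →
    ∃ (C : PC S) (pi : (C.I → S) →ₗ[S] M), Rs C pi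

/-- **KFP** (size 200, dep `SpecCOK`; imports `UV/RES.lean`): the kernel of `S^ι/K_j → S^ι/K_(j+1)`.

PROOF. `Kj L ν j` is the kernel of an `S`-linear map `S^ι → S^m`: let `M = ν^j` and `Q` a finite set of right cosets of `L` which
contains the supports of all entries of `M` (`RESAux.exists_lcosets`), `t_q = (q.out)⁻¹`;
`(er c ᵥ* M) j` has its support in the same cosets, `lres L t ((er c ᵥ* M) j) = (c ᵥ* M.map (lres L t)) j` (`RESAux.lres_emb_mul`,
`lres_sum`), and an element is `0` if all its `lres L t_q`, `q ∈ Q`, are `0` (`RESAux.ldecomp`). So `c ∈ Kj` iff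
`c ᵥ* M.map (lres L t_q) = 0` for all `q ∈ Q`; the map is `c ↦ fun (q, j) => (c ᵥ* M.map (lres L t_q)) j`. By COK `Kj` is finitely
presented, so finitely generated, so `S^ι / Kj` is finitely presented (`Module.finitePresentation_of_surjective` for
`mkQ`). The same for `j + 1`; COK for `th L ν j`. -/
def SpecKFP : Prop :=
  ∀ (R G : Type) [Ring R] [Group G] (L : Subgroup G) (ι : Type) [Fintype ι] [DecidableEq ι]
    (ν : Matrix ι ι (MonoidAlgebra R G)) (j : ℕ), RegCoh (MonoidAlgebra R L) →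
    Module.FinitePresentation (MonoidAlgebra R L) (LinearMap.ker (th L ν j))

/-! ### Part 5: homotopies -/

/-- **FLX** (size 200; imports `UV/RES.lean`): exactness over `R[G]` with supports.

PROOF. `RESAux.decomp`: `z i = ∑_{q ∈ Q} single t_q 1 * emb (res L t_q (z i))`, `Q` a finite set of left cosets, `t_q = q.out`. Put
`z_q = rs L t_q z`. `rs L t (z ᵥ* em L M) = (rs L t z) ᵥ* M` (`RESAux.res_mul_emb`, `res_sum`), so `z_q p = z_q`, `z_q` has the same
degree, and `z_q e = 0` (or `pi z_q = 0`). By `Rs.ex` (`Rs.ker`) `z_q = y_q e`; take `y_q = 0` if `z_q = 0`. Put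
`y i = ∑_{q ∈ Q} single t_q 1 * emb (y_q i)`. Support: if `y_q ≠ 0` then `z_q ≠ 0`, so `t_q h ∈ X` for some `h ∈ L`, so `t_q L ⊆ X`.
`y ᵥ* em M = ∑ single t_q 1 • er (y_q ᵥ* M)`. -/
def SpecFLX : Prop :=
  ∀ (R G : Type) [Ring R] [Group G] (L : Subgroup G) (X : Set G),
    (∀ h ∈ L, ∀ x ∈ X, x * h ∈ X) → ∀ (C : PC (MonoidAlgebra R L)) (N : Type) [AddCommGroup N]
    [Module (MonoidAlgebra R L) N] (pi : (C.I → MonoidAlgebra R L) →ₗ[MonoidAlgebra R L] N),
    Rs C pi →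
    (∀ q, 1 ≤ q → ∀ z : C.I → MonoidAlgebra R G,
      (∀ i g, (z i).coeff g ≠ 0 → g ∈ X ∧ C.deg i = q) → z ᵥ* em L C.p = z →
      z ᵥ* em L C.e = 0 → ∃ y : C.I → MonoidAlgebra R G,
        (∀ i g, (y i).coeff g ≠ 0 → g ∈ X ∧ C.deg i = q + 1) ∧ y ᵥ* em L C.p = y ∧
        y ᵥ* em L C.e = z) ∧
    (∀ z : C.I → MonoidAlgebra R G,
      (∀ i g, (z i).coeff g ≠ 0 → g ∈ X ∧ C.deg i = 0) → z ᵥ* em L C.p = z →
      (∀ t, pi (rs L t z) = 0) → ∃ y : C.I → MonoidAlgebra R G,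
        (∀ i g, (y i).coeff g ≠ 0 → g ∈ X ∧ C.deg i = 1) ∧ y ᵥ* em L C.p = y ∧
        y ᵥ* em L C.e = z)

/-- **NHT** (size 220): null homotopies, for any ring.

PROOF. Let `P m`: there is `h` with entries in `Q`, the degree condition, `pD h = h`, `h p = h`, and
`(h e + eD h) i = φ i` for all `i` with `dD i < m`. `P 0`: `h = 0`. Step: let `h` be as in `P m`. For `dD i = m` the row
`z = (φ - eD h) i` has degree `m`, entries in `Q`, `z p = z`. If `m = 0` then `(eD h) i = 0` (rows of degree `0` of `eD` vanish) and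
`hex0` gives `y i` with `y i e = z`. If `m ≥ 1`: `z e = (eD φ) i - (eD (h e)) i`, and `(eD (h e)) i = ∑_k eD i k (h e) k` where
`dD k = m - 1 < m`, so it is `(eD φ) i - (eD eD h) i = (eD φ) i`, so `z e = 0` and `hex` gives `y i`. The new `h'` has the rows
`h' i = (pD y) i` if `dD i = m` (with `y k = 0` for the other `k`), `h' i = h i` otherwise. `(h' e) i = (pD (φ - eD h)) i = (φ - eD h) i` for
`dD i = m` (`pD i k ≠ 0` only if `dD k = m`), `(eD h') i = (eD h) i` for `dD i ≤ m`. `pD h' = h'`: `pD` preserves the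
degree. At the end `m` is larger than all degrees. -/
def SpecNHT : Prop :=
  ∀ (A : Type) [Ring A] (Q : AddSubgroup A) (J I : Type) [Fintype J] [DecidableEq J] [Fintype I]
    [DecidableEq I] (dD : J → ℕ) (pD eD : Matrix J J A) (d : I → ℕ) (p e : Matrix I I A)
    (φ : Matrix J I A), (∀ i j, pD i j ≠ 0 → dD i = dD j) → (∀ i j, eD i j ≠ 0 → dD i = dD j + 1) →
    pD * pD = pD → pD * eD = eD → eD * pD = eD → eD * eD = 0 →
    (∀ i j, ∀ a ∈ Q, pD i j * a ∈ Q ∧ eD i j * a ∈ Q) → (∀ i j, φ i j ∈ Q) →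
    (∀ i j, φ i j ≠ 0 → dD i = d j) → pD * φ = φ → φ * p = φ → eD * φ = φ * e →
    (∀ q, 1 ≤ q → ∀ z : I → A, (∀ i, z i ∈ Q) → (∀ i, z i ≠ 0 → d i = q) → z ᵥ* p = z →
      z ᵥ* e = 0 → ∃ y : I → A, (∀ i, y i ∈ Q) ∧ (∀ i, y i ≠ 0 → d i = q + 1) ∧ y ᵥ* p = y ∧
        y ᵥ* e = z) →
    (∀ i, dD i = 0 → ∃ y : I → A, (∀ j, y j ∈ Q) ∧ (∀ j, y j ≠ 0 → d j = 1) ∧ y ᵥ* p = y ∧
      y ᵥ* e = φ i) →
    ∃ h : Matrix J I A, (∀ i j, h i j ∈ Q) ∧ (∀ i j, h i j ≠ 0 → d j = dD i + 1) ∧ pD * h = h ∧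
      h * p = h ∧ h * e + eD * h = φ

/-- **HTK** (size 120, deps `SpecFLX`, `SpecNHT`): the homotopy with support.

PROOF. NHT with `A = R[G]`, `Q = {a | supp a ⊆ X}`, `pD = em L D.p`, `eD = em L D.e`, `p = em L C.p`, `e = em L C.e`, `φ = em L f * μ`. The
entries of `φ` are in `Q` (`L X ⊆ X`); `eD φ = em (D.e f) μ = em (f C.e) μ = em f (em C.e μ) = em f μ em C.e`; `hex`, `hex0`:
FLX (1), (2). (`em` is multiplicative: `Matrix.map_mul`.) -/
def SpecHTK : Prop :=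
  ∀ (R G : Type) [Ring R] [Group G] (L : Subgroup G) (X : Set G),
    (∀ h ∈ L, ∀ x ∈ X, h * x ∈ X) → (∀ h ∈ L, ∀ x ∈ X, x * h ∈ X) →
    ∀ (C D : PC (MonoidAlgebra R L)) (N : Type) [AddCommGroup N] [Module (MonoidAlgebra R L) N]
    (pi : (C.I → MonoidAlgebra R L) →ₗ[MonoidAlgebra R L] N), Rs C pi →
    ∀ f : Matrix D.I C.I (MonoidAlgebra R L), CM D C f →
    ∀ μ : Matrix C.I C.I (MonoidAlgebra R G), NS L X C μ →
    (∀ i, D.deg i = 0 → ∀ t, pi (rs L t ((em L f * μ) i)) = 0) →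
    ∃ h : Matrix D.I C.I (MonoidAlgebra R G), SuppIn X h ∧
      (∀ i j, h i j ≠ 0 → C.deg j = D.deg i + 1) ∧ em L D.p * h = h ∧ h * em L C.p = h ∧
      h * em L C.e + em L D.e * h = em L f * μ

/-- **CTK** (size 60, dep `SpecNHT`): a contraction.

PROOF. NHT with `A = S`, `Q = ⊤`, `J = I = C.I`, `φ = C.p`; `hex` is `Rs.ex`, `hex0`: `Rs.ker` for the row `C.p i` (`pi = 0` since `N` has one
element; `C.p i ᵥ* C.p = C.p i`). -/
def SpecCTK : Prop :=
  ∀ (S : Type) [Ring S] (C : PC S) (N : Type) [AddCommGroup N] [Module S N]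
    (pi : (C.I → S) →ₗ[S] N), Subsingleton N → Rs C pi →
    ∃ Γ : Matrix C.I C.I S, (∀ i j, Γ i j ≠ 0 → C.deg j = C.deg i + 1) ∧ C.p * Γ = Γ ∧
      Γ * C.p = Γ ∧ Γ * C.e + C.e * Γ = C.p

/-- **NIK** (size 180, dep `SpecKCL`): the endomorphism of the cone.

PROOF. `μ' = fromBlocks μ 0 h 0`. `em L (fromBlocks ..) = fromBlocks (em ..) ..` (`fromBlocks_map`). `pm`, `mp`: `fromBlocks_multiply`. `ch`:
`μ' em e' = fromBlocks (μ em e) 0 (h em e) 0` and `em e' μ' = fromBlocks (em e μ) 0 (em f μ - em eD h) 0`. `nil`: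
`μ'^(m+1) = fromBlocks (μ^(m+1)) 0 (h μ^m) 0`. `ts`: `Ev (cone ..) A = fromBlocks (Ev C A) 0 0 E'` with a diagonal matrix `E'`, so
`1 + Ev μ' = fromBlocks (1 + Ev C A * μ) 0 (E' h) 1`: KCL (3), (1); the same for `1 - Ev`. Units: `Ev C A` is idempotent and commutes
with `μ` (`dg`), so `(Ev μ)^m = Ev μ^m` is nilpotent; the same for `1 - Ev`. -/
def SpecNIK : Prop :=
  ∀ (R G K : Type) [Ring R] [Group G] [AddCommGroup K]
    (κ : ∀ (ι : Type) [Fintype ι], Matrix ι ι (MonoidAlgebra R G) → K), KF κ →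
    ∀ (L : Subgroup G) (X : Set G) (C D : PC (MonoidAlgebra R L))
    (f : Matrix D.I C.I (MonoidAlgebra R L)) (hf : CM D C f)
    (μ : Matrix C.I C.I (MonoidAlgebra R G)) (h : Matrix D.I C.I (MonoidAlgebra R G)),
    NS L X C μ → SuppIn X h → (∀ i j, h i j ≠ 0 → C.deg j = D.deg i + 1) → em L D.p * h = h →
    h * em L C.p = h → h * em L C.e + em L D.e * h = em L f * μ →
    NS L X (cone D C f hf)
      (fromBlocks μ 0 h 0 : Matrix (C.I ⊕ D.I) (C.I ⊕ D.I) (MonoidAlgebra R G)) ∧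
    ts κ (cone D C f hf)
      (fromBlocks μ 0 h 0 : Matrix (C.I ⊕ D.I) (C.I ⊕ D.I) (MonoidAlgebra R G)) = ts κ C μ

/-- **ACK** (size 200, dep `SpecKCL`): acyclic complexes contribute nothing.

PROOF. Write `p`, `e`, `Γ` also for the matrices over `A`, `E = Ev C A`, `E' = 1 - E`. `π = e Γ`, `π' = Γ e`: `π + π' = p`,
`π π = e (Γ e) Γ = e (p - e Γ) Γ = e Γ`, `π' π' = Γ (e Γ) e = Γ (p - Γ e) e = Γ e` (note `Γ Γ e = Γ (p - e Γ)..` is not needed:
`Γ (p - Γ e) e = Γ p e - Γ Γ (e e) = Γ e`), so `π π' = π (p - π) = 0`, `π' π = 0`. `π' μ π = Γ e μ e Γ = Γ μ e e Γ = 0`. `E` is a diagonal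
idempotent which commutes with `p`, `μ`, `π`, `π'`; `E Γ = Γ E'`, `E' Γ = Γ E`, `E e = e E'`, `E' e = e E`.
KCL (4) for `E μ` and `π`, `π'` (hypotheses: `(π + π') E μ = E p μ = E μ` etc., `π' E μ π = E π' μ π = 0`, `E μ` nilpotent):
`κ (1 + E μ) = κ (1 + π E μ π) + κ (1 + π' E μ π')`. The same with `E'`. Now `π E μ π = E π μ π = (E π μ e) Γ` and
`swap`: `κ (1 + (E π μ e) Γ) = κ (1 + Γ (E π μ e))`, `Γ E π μ e = E' Γ (e Γ) μ e = E' (Γ e) Γ e μ = E' π' π' μ = E' π' μ` and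
`π' μ = π' μ (π + π') = π' μ π'`, so it is `E' π' μ π' = π' E' μ π'`. So `κ (1 + π E μ π) = κ (1 + π' E' μ π')`, and with `E`, `E'`
exchanged `κ (1 + π E' μ π) = κ (1 + π' E μ π')`. Sum: `κ (1 + E μ) = κ (1 + E' μ)`. Unit for `swap`: `π E μ π` is nilpotent
(`μ π = p μ π = π μ π`, so `(π E μ π)^m = (E μ π)^m = E μ^m π`, `m ≥ 1`). -/
def SpecACK : Prop :=
  ∀ (R G K : Type) [Ring R] [Group G] [AddCommGroup K]
    (κ : ∀ (ι : Type) [Fintype ι], Matrix ι ι (MonoidAlgebra R G) → K), KF κ →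
    ∀ (L : Subgroup G) (X : Set G) (C : PC (MonoidAlgebra R L))
    (μ : Matrix C.I C.I (MonoidAlgebra R G)) (Γ : Matrix C.I C.I (MonoidAlgebra R L)),
    NS L X C μ → (∀ i j, Γ i j ≠ 0 → C.deg j = C.deg i + 1) → C.p * Γ = Γ → Γ * C.p = Γ →
    Γ * C.e + C.e * Γ = C.p → ts κ C μ = 0

/-! ### Part 6: the base theorem -/

/-- **WSJ** (size 220; imports `UV/RES.lean`): components of the kernel of `ν^j`.

PROOF. `Xw L X j` is closed under left and right multiplication by `L` (`hz`, `zh`), `y ∈ Y`, `w ∈ Xw j` ⟹ `y w ∈ Y`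
(`yh`, `yz`), and `supp (ν^j) ⊆ Xw j`. (D) `y, y' ∈ Y`, `w, w' ∈ Xw j`, `y w = y' w'` ⟹ `y⁻¹ y' ∈ L`: `j = 0` clear; `w = w1 x`, `w' = w1' x'`:
`(y w1) x = (y' w1') x'`, `uq`: `h = x' x⁻¹ ∈ L`, `y w1 = y' (w1' h)`, induction. So `Disj L Y (Xw L X j)`, and the statement is
(DJ) of `UV.SpecRES` (there for matrices with indices in `Fin`; reindex, or directly): `z = ∑_q t_q er (z_q)` over
the left cosets `q` which meet the support of `z` (`t_q ∈ Y`: `Y L ⊆ Y`), `z ν^j = ∑_q t_q (er z_q ᵥ* ν^j)`, the support of the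
summand `q` is in `t_q Xw j`, these sets are pairwise disjoint by (D), so every summand is `0`. For `t = t_q l`: `rs L t z = l⁻¹ z_q`
(`Kj` is a submodule); if `t L` does not meet the support of `z` then `rs L t z = 0`. -/
def SpecWSJ : Prop :=
  ∀ (R G : Type) [Ring R] [Group G] (L : Subgroup G) (X Y : Set G), TD1 L X Y →
    ∀ (ι : Type) [Fintype ι] [DecidableEq ι] (ν : Matrix ι ι (MonoidAlgebra R G)), SuppIn X ν →
    ∀ (j : ℕ) (z : ι → MonoidAlgebra R G), (∀ i g, (z i).coeff g ≠ 0 → g ∈ Y) →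
    z ᵥ* ν ^ j = 0 → ∀ t, rs L t z ∈ Kj L ν j

/-- **KNL** (size 150, dep `SpecWSJ`; imports `UV/RES.lean`): the condition for the homotopy.

PROOF. Let `x = f i` (a row of degree `0`, `x p = x`). `pi x = pi (Pi.single i 1 ᵥ* f) = rho (Pi.single i 1) ∈ ker θ`; `pi x = mk c` for some `c`,
and `θ (mk c) = mk c = 0` in `S^ι / K_(j+1)`, so `c ∈ K_(j+1)`. `x - c b` has degree `0`, is fixed by `p` and `pi (x - c b) = 0`, so
`x = c b + y e`. `(em f * μ) i = er x ᵥ* μ = er c ᵥ* ν ᵥ* em b + er y ᵥ* μ ᵥ* em e` (`bm`, `ch`). `rs L t (u ᵥ* em M) = (rs L t u) ᵥ* M`, so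
`pi (rs L t (..)) = pi ((rs L t z) ᵥ* b) + pi ((rs L t (er y ᵥ* μ)) ᵥ* e) = mk (rs L t z) + 0` with `z = er c ᵥ* ν`. The support of `z`
is in `L X ⊆ X ⊆ Y` (`x = 1 x`), `z ν^j = er c ν^(j+1) = 0`, so WSJ: `rs L t z ∈ K_j`, `mk (..) = 0`. -/
def SpecKNL : Prop :=
  ∀ (R G : Type) [Ring R] [Group G] (L : Subgroup G) (X Y : Set G), TD1 L X Y →
    ∀ (ι : Type) [Fintype ι] [DecidableEq ι] (ν : Matrix ι ι (MonoidAlgebra R G)), SuppIn X ν →
    ∀ (j : ℕ) (C : PC (MonoidAlgebra R L)) (μ : Matrix C.I C.I (MonoidAlgebra R G))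
    (b : Matrix ι C.I (MonoidAlgebra R L))
    (pi : (C.I → MonoidAlgebra R L) →ₗ[MonoidAlgebra R L] ((ι → MonoidAlgebra R L) ⧸ Kj L ν j)),
    IsSt L X ν j C μ b pi → ∀ (D : PC (MonoidAlgebra R L))
    (rho : (D.I → MonoidAlgebra R L) →ₗ[MonoidAlgebra R L] LinearMap.ker (th L ν j))
    (f : Matrix D.I C.I (MonoidAlgebra R L)), CM D C f →
    (∀ x, pi (x ᵥ* f) = ((rho x : LinearMap.ker (th L ν j)) :
      (ι → MonoidAlgebra R L) ⧸ Kj L ν j)) →
    ∀ i, D.deg i = 0 → ∀ t, pi (rs L t ((em L f * μ) i)) = 0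

/-- **ST0** (size 100, dep `SpecKCL`): the state after `0` steps.

PROOF. `C.I = ι`, `deg = 0`, `p = 1`, `e = 0`, `μ = ν`, `b = 1`, `pi = mkQ`. `Rs.ker`: `pi x = 0` means `x ∈ Kj L ν 0`, `er x = 0`, `x = 0` (`emb` is
injective: `UV/RES.lean`, `emb_coeff_mem`), `y = 0`. `Rs.ex`: `x = 0`. `ts`: `Ev C A = 1`, so `κ (1 + ν) - κ (1 + 0)`, KCL (1). -/
def SpecST0 : Prop :=
  ∀ (R G K : Type) [Ring R] [Group G] [AddCommGroup K]
    (κ : ∀ (ι : Type) [Fintype ι], Matrix ι ι (MonoidAlgebra R G) → K), KF κ →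
    ∀ (L : Subgroup G) (X : Set G) (ι : Type) [Fintype ι] [DecidableEq ι]
    (ν : Matrix ι ι (MonoidAlgebra R G)), SuppIn X ν → IsNilpotent ν → HasSt κ L X ν 0

/-- **STP** (size 200, deps `SpecKFP`, `SpecRSV`, `SpecLFK`, `SpecKNL`, `SpecHTK`, `SpecCNK`, `SpecNIK`): one step.

PROOF. Let `C`, `μ`, `b`, `pi` be a state. KFP, `RegCoh`, RSV: `D`, `rho : (D.I → S) → ker (th L ν j)` with `Rs D rho`. LFK for
`subtype ∘ rho`: `f`. KNL and HTK: `h`. `C' = cone D C f hf`, `μ' = fromBlocks μ 0 h 0` (NIK), `pi'` from CNK with `θ = th L ν j` (surjective),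
`b' = fromCols b 0` (columns `C.I ⊕ D.I`). `bp`: `b' p' = fromCols (b p) 0`. `bm`: `em b' μ' = fromCols (em b μ) 0 = ν em b'`. `bc`:
`(c ᵥ* b') ∘ inl = c ᵥ* b`, so `pi' (c ᵥ* b') = θ (pi (c ᵥ* b)) = θ (mk c) = mk c`. `ts`: NIK. -/
def SpecSTP : Prop :=
  ∀ (R G K : Type) [Ring R] [Group G] [AddCommGroup K]
    (κ : ∀ (ι : Type) [Fintype ι], Matrix ι ι (MonoidAlgebra R G) → K), KF κ →
    ∀ (L : Subgroup G) (X Y : Set G), TD1 L X Y → RegCoh (MonoidAlgebra R L) →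
    ∀ (ι : Type) [Fintype ι] [DecidableEq ι] (ν : Matrix ι ι (MonoidAlgebra R G)), SuppIn X ν →
    ∀ j, HasSt κ L X ν j → HasSt κ L X ν (j + 1)

/-- **BAS** (size 80, deps `SpecST0`, `SpecSTP`, `SpecCTK`, `SpecACK`): the base theorem.

PROOF. `ν^N = 0`. ST0 and `N` times STP: a state with `j = N`. `Kj L ν N = ⊤`, so the quotient has one element; CTK gives
`Γ`, ACK gives `ts κ C μ = 0`, so `κ (1 + ν) = 0`. -/
def SpecBAS : Prop :=
  ∀ (R G K : Type) [Ring R] [Group G] [AddCommGroup K]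
    (κ : ∀ (ι : Type) [Fintype ι], Matrix ι ι (MonoidAlgebra R G) → K), KF κ →
    ∀ (L : Subgroup G) (X Y : Set G), TD1 L X Y → RegCoh (MonoidAlgebra R L) → Van κ X

/-- **FIN** (size 150, deps `SpecKIN`, `SpecELK`, `SpecBLT`, `SpecBGE`, `SpecEGE`, `SpecETD`, `SpecINK`, `SpecBAS`; imports
`ROK/FPT.lean`): `SpecMain` (in `Stmt.lean`).

PROOF. `κ` from KIN for `A = R[G]`, `d = T.dist` (`specFPT`: `TM`). `P x y := d x y = d x v + 1 + d w y ∨ d x y = d x w + 1 + d v y`; it is closed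
under extension (triangle inequality, `d v w = 1`). INK: base: `Geo1 d L X p q` gives `L = stabilizer p ⊓ stabilizer q` (`st`), in the
second case of `P` use `x = q`, `y = p` and `inf_comm`; then BAS. ETD, EGE: the typed data of the edge; ELK with `S = Bool`: for `g ∈ Let s t`
the block is data (BLT), with ends `p s`, `g q_t` (BGE), `P (p s) (q s)` holds for the two oriented edges, and so
`P (p s) (g q_t)`; INK: `Van`. So `κ (1 + ν) = 0`, and `κ (Fin n) u.val = cls ⟨n, u⟩`. -/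
def SpecFIN : Prop := SpecMain

end Pool.Agent.Lib.MPb6f35e.KN
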