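import Pool.Agent.Lib.MP_b6f35e_al.KN.SpecC

/-!
# Vanishing of Whitehead groups and lines in trees: Specs (MP_b6f35e_al, folder KN, part L)

THEOREM L. As Theorem C (`SpecCLO`), but without regular coherence: for a segment `[x, y]` with stabilizer
`K = G_x ∩ G_y` and an element `g` which moves it along a line, `x, y, g x, g y` on the line, and
`g⁻¹ K g ⊆ K`, the group `⟨K, g⟩` should satisfy `WhR` (or the rings `R[K × Z^m]` are regular coherent), and
every strictly decreasing sequence of the stabilizers of `[x, y_0] ⊂ [x, y_1] ⊂ ..` contains one with regular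
coherent `R[K × Z^m]`. So the Farrell-Jones conjecture in the degrees `≤ 1` is reduced to the stabilizers of
vertices, of edges and of lines.

A letter `g` over `L` is stable if `g⁻¹ L g ⊆ L`; then `L g L = g L`. Unstable letters are eliminated as in `ELK`,
their blocks live over the smaller group `L ∩ g L g⁻¹ ≠ L`. The stable letters are eliminated by Lazard's
method (`LZE`), what remains are the classes `[1 + ν]` with `ν` supported in one coset `u L`, and these vanish by a
trick with the ring homomorphisms `R[P] → M_n(R[P])`, `p ↦ p C^(deg p)`, `C` the cyclic permutation (`LIN`).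

Form of the modules: as in `Spec.lean`; files `KN/XXX.lean` import `KN/SpecL.lean` (and landed files).
-/

namespace Pool.Agent.Lib.MPb6f35e.KN

open Matrix
open Pool.Agent.Lib.MP8a3537.UV (emb res lres SuppIn)
open Pool.Agent.Lib.MP8a3537.RO (Bi dc Kg cut cutM)
open Pool.Agent.Lib.MP8a3537.ROK (TM)

/-! ### Definitions -/

section Defs

variable {G : Type} [Group G]

/-- The elements `g` with `g⁻¹ L g ⊆ L`. -/
def StL (L : Subgroup G) : Set G := {g | ∀ h ∈ L, g⁻¹ * h * g ∈ L}

/-- The left coset `g L`. -/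
def lc (L : Subgroup G) (g : G) : Set G := {x | ∃ h ∈ L, x = g * h}

/-- The subgroup generated by `L` and `g`. -/
def lnG (L : Subgroup G) (g : G) : Subgroup G := Subgroup.closure ((L : Set G) ∪ {g})

/-- `κ (1 + ν) = 0` for all functions `κ` like `K_1` and all nilpotent matrices with support in `g L`. -/
def LnV (R : Type) [Ring R] (L : Subgroup G) (g : G) : Prop :=
  ∀ (K : Type) [AddCommGroup K] (κ : ∀ (ι : Type) [Fintype ι], Matrix ι ι (MonoidAlgebra R G) → K),
    KF κ → Van κ (lc L g)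

/-- Good segments. -/
inductive GdL (R G : Type) {V : Type} [Ring R] [Group G] [MulAction G V] (d : V → V → ℕ) :
    V → V → Prop
  | reg {x y : V} :
      RegCoh (MonoidAlgebra R ↥(MulAction.stabilizer G x ⊓ MulAction.stabilizer G y)) →
      GdL R G d x y
  | step {x y : V} :
      (∀ g : G, g • x ≠ x → Btw d x y (g • y) → Btw d x (g • x) (g • y) →
        g ∈ StL (MulAction.stabilizer G x ⊓ MulAction.stabilizer G y) →
        LnV R (MulAction.stabilizer G x ⊓ MulAction.stabilizer G y) g) →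
      (∀ g : G, g • x ≠ x → Btw d x y (g • y) → Btw d x (g • x) (g • y) →
        g ∉ StL (MulAction.stabilizer G x ⊓ MulAction.stabilizer G y) → GdL R G d x (g • y)) →
      GdL R G d x y

/-- The part of the degree `k` modulo `n`. -/
noncomputable def pmod {R : Type} [Ring R] (deg : G →* Multiplicative ℤ) (n : ℕ) (k : ZMod n)
    (b : MonoidAlgebra R G) : MonoidAlgebra R G := cut {p | (((deg p).toAdd : ℤ) : ZMod n) = k} b

/-- The matrix `T M`: the entry at `((i, a), (j, b))` is the part of `M i j` of the degree `b - a`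
modulo `n`. -/
noncomputable def Tm {R : Type} [Ring R] (deg : G →* Multiplicative ℤ) (n : ℕ) {ι ι' : Type}
    (M : Matrix ι ι' (MonoidAlgebra R G)) :
    Matrix (ι × ZMod n) (ι' × ZMod n) (MonoidAlgebra R G) :=
  Matrix.of fun x y => pmod deg n (y.2 - x.2) (M x.1 y.1)

end Defs

/-! ### Part 1: elimination -/

/-- **ELU** (size 180, deps `SpecKCL`, `SpecJNK`, `SpecELA`, `SpecFAK`, `SpecSUK`): elimination of the unstable
letters.

PROOF. As `KN/ELK.lean` (with `S = Unit`, `τ = fun _ => ()`; its lemmas `ELKM` may be imported): induction on the number of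
the nonzero coefficients of the nilpotent matrix `ν` with support in `X`. If all elements of the supports are in `StL L`, then the support
is in `X ∩ StL L`. Otherwise choose `g ∉ StL L` in the support of an entry and eliminate `L g L`: `κ (1 + ν) = κ (1 + ν0) + κ (1 + ..)`
with a nilpotent matrix over the block `BL L (fun _ _ => X) () () g`, whose class is `0`, and `ν0` (support in `X`) has fewer
coefficients. -/
def SpecELU : Prop :=
  ∀ (R G K : Type) [Ring R] [Group G] [AddCommGroup K]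
    (κ : ∀ (ι : Type) [Fintype ι], Matrix ι ι (MonoidAlgebra R G) → K), KF κ →
    ∀ (L : Subgroup G) (X Y : Set G), TD1 L X Y →
    (∀ g ∈ X, g ∉ StL L → Van κ (BL L (fun _ _ : Unit => X) () () g)) →
    Van κ (X ∩ StL L) → Van κ X

/-- **LZE** (size 300, deps `SpecKCL`, `SpecJNK`): Lazard elimination of the stable letters.

PROOF. `X' = X ∩ StL L`. `StL L` is a submonoid and contains `L`; `X'` is biinvariant under `L`, `TD1 L X' Y`. For `g ∈ StL L`: `dc L g = lc L g`
(`h g h' = g (g⁻¹ h g) h'`), and for `u, w ∈ StL L`: `lc L u * lc L w ⊆ lc L (u w)`. (1) `u ∈ Xw L X' i`, `w ∈ Xw L X' j` ⟹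
`u w ∈ Xw L X' (i + j)` (induction on `j`; `Xw L X' i` is invariant under right multiplication by `L`); all words are in `StL L`.
Let `ν^N = 0`, support in `X'`. `El j m`: there are `u ∈ Xw L X' j` with `SuppIn (lc L u) m` and a list `l` of length `j` of
biinvariant sets with `m = ± (l.map fun c => cutM c ν).prod`. (2) `El i m`, `El j m'` ⟹ `El (i + j) (m * m')`, `El i (-m)`;
`El 1 (cutM (dc L g) ν)` for `g ∈ X'`; (3) `El j m`, `N ≤ j` ⟹ `m = 0` (JNK with `S = Unit`). (4) `El j m`, `1 ≤ j` ⟹ `m^N = 0` ((2), (3)), so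
`κ (1 + m) = 0` by hypothesis. (5) Let `E k` be the additive subgroup generated by all `m` with `El j m` for some `j ≥ k`:
`E k * E l ⊆ E (k + l)`, `E N = 0` (as in `KN/ELA.lean`), so elements of `E 1` are nilpotent. (6) CLAIM `(k)`, `k ≥ 1`: for every list `F` of matrices `m`
with `El j m` for some `j ≥ k`: `κ (1 + F.sum) = 0`. `k ≥ N`: the sum is `0`, `κ 1 = 0` (KCL (1)). Downwards: from `(k + 1)` to `(k)`: write `F` as
`F1 ++ F2`, `F1` with `El k`, `F2` with `El j`, `j ≥ k + 1`; induction on `F1.length`. `F1 = []`: `(k + 1)`. `F1 = m :: F1'`: `1 + (m + s) =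
(1 + m) (1 + W s)`, `s = F1'.sum + F2.sum`, `W = Wn N m = ∑_{i < N} (-m)^i` the inverse of `1 + m`; both factors are units (`m + s ∈ E 1`), so `κ` of the
product is `0 + κ (1 + W s)`, and `W s = F1'.sum + F2''.sum`, where `F2''` consists of `F2` and the products `(-m)^i n`, `1 ≤ i < N`,
`n ∈ F1' ++ F2`, which are in `El j`, `j ≥ k + 1`. (7) `ν = ∑ cutM (dc L g) ν` over representatives `g` of the finitely many double cosets which
meet the supports (induction on the number of coefficients, or a `Finset` of cosets): claim `(1)`. -/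
def SpecLZE : Prop :=
  ∀ (R G K : Type) [Ring R] [Group G] [AddCommGroup K]
    (κ : ∀ (ι : Type) [Fintype ι], Matrix ι ι (MonoidAlgebra R G) → K), KF κ →
    ∀ (L : Subgroup G) (X Y : Set G), TD1 L X Y →
    (∀ j, 1 ≤ j → ∀ u ∈ Xw L (X ∩ StL L) j, Van κ (lc L u)) → Van κ (X ∩ StL L)

/-- **WRD** (size 150; imports `ROK/TFA.lean`, `specTFA`): the geometry of words.

PROOF. `D+ = {r | Btw p q r} ∋ q`, `D- = {r | Btw q p r} ∋ p`. (W) `u ∈ Xw L X j` ⟹ `u D+ ⊆ D+`, `u⁻¹ D- ⊆ D-` (induction, `dp`, `dm`;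
elements of `L` fix `p` and `q`). So `Btw p q (u q)`, and `d q (u⁻¹ p) = d q p + d p (u⁻¹ p)`, apply `u`: `d (u q) p = d (u q) (u p) + d (u p) p`.
If `u p = p` then `d p (u q) = d p q`, so `u q = q` (first statement). `u = w x`, `w ∈ Xw L X (j - 1)`, `x ∈ X`: `x p = w⁻¹ p ∈ D-`,
`x q ∈ D+`, TFA (2): `d (x q) (x p) = d (x q) q + d q p + d p (x p)`, and `d (x q) (x p) = d q p`, so `x q = q`, `x p = p`: contradiction to `nf`. -/
def SpecWRD : Prop :=
  ∀ (G V : Type) [Group G] [MulAction G V] (d : V → V → ℕ), TM G d →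
    ∀ (L : Subgroup G) (X : Set G) (p q : V), Geo1 d L X p q →
    ∀ j, 1 ≤ j → ∀ u ∈ Xw L X j, u • p ≠ p ∧ Btw d p q (u • q) ∧ Btw d p (u • p) (u • q)

/-! ### Part 2: one coset -/

/-- **PMK** (size 120): permutation matrices of odd order.

PROOF. `χ σ = κ X (σ-matrix)`. The matrix of a product is the product of the matrices (in one of the two orders), they are units, so
`χ (σ τ) = χ σ + χ τ`, `χ 1 = 0`. `2 χ (swap a b) = χ 1 = 0`, so `2 χ σ = 0` for all `σ` (`Equiv.Perm.swap_induction_on`). `n χ σ = χ (σ^n) = 0`. -/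
def SpecPMK : Prop :=
  ∀ (A K : Type) [Ring A] [AddCommGroup K] (κ : ∀ (ι : Type) [Fintype ι], Matrix ι ι A → K), KF κ →
    ∀ (X : Type) [Fintype X] [DecidableEq X] (σ : Equiv.Perm X) (n : ℕ), Odd n → σ ^ n = 1 →
      κ X (Matrix.of fun i j => if σ i = j then 1 else 0) = 0

/-- **BDK** (size 120, dep `SpecKCL`): block diagonal matrices.

PROOF. Induction on the finite type `Z` (`Fintype.induction_empty_option`, or on its cardinality): for `Option Z` reindex
`ι × Option Z ≃ (ι × Z) ⊕ ι` (`GlueM.kf_reindex` in `KN/GlueMain.lean`), KCL (2) with `b = 0`. `Z` empty: KCL (1). -/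
def SpecBDK : Prop :=
  ∀ (A K : Type) [Ring A] [AddCommGroup K] (κ : ∀ (ι : Type) [Fintype ι], Matrix ι ι A → K), KF κ →
    ∀ (ι Z : Type) [Fintype ι] [DecidableEq ι] [Fintype Z] [DecidableEq Z] (M : Matrix ι ι A),
      IsUnit M → κ (ι × Z) (Matrix.of fun x y => if x.2 = y.2 then M x.1 y.1 else 0) =
        Fintype.card Z • κ ι M

/-- **CYK** (size 220, dep `SpecKCL`): cyclic matrices.

PROOF. (U) Let `r : J → ℕ` and `U : Matrix J J A` with `U i j ≠ 0 → r i < r j`. Then `1 + U` is a unit and `κ J (1 + U) = 0`: induction on a bound `b`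
(`U i j ≠ 0 → r i < r j < b`): KCL (4) with `π`, `π'` the diagonal matrices which indicate `r i < b - 1` and not; `π' U = 0`, so
`κ (1 + U) = κ (1 + π U π) + κ 1`. (C) `J = ι × ZMod n`, `r (i, a) = a.val`. Let `U` be the part of the matrix in the rows `(i, a)` with
`a ≠ -1` (there `(a + 1).val = a.val + 1`), `C` the part in the rows with `a = -1` (so `b = 0`). `1 + U + C = (1 + U) (1 + (1 + U)⁻¹ C)`, all units
(`U + C` is nilpotent: its `n`-th power is `0` because `ν^n = 0`). `(1 + U)⁻¹ C = x y`, `y : ι × J` the projection to the block `0`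
(`y i (j, b) = 1` if `i = j`, `b = 0`), `x = (1 + U)⁻¹ C y'`, `y'` the transposed matrix (`C = C y' y`), `swap`: `κ (1 + x y) = κ (1 + y x)`, and
`y x = ∑_{i < n} y (-U)^i C y'`, where only `i = n - 1` contributes: `± ν^n = 0`. `κ 1 = 0`. -/
def SpecCYK : Prop :=
  ∀ (A K : Type) [Ring A] [AddCommGroup K] (κ : ∀ (ι : Type) [Fintype ι], Matrix ι ι A → K), KF κ →
    ∀ (ι : Type) [Fintype ι] [DecidableEq ι] (ν : Matrix ι ι A) (n : ℕ) [NeZero n], 2 ≤ n →
      ν ^ n = 0 →
      κ (ι × ZMod n) (1 + Matrix.of fun x y => if y.2 = x.2 + 1 then ν x.1 y.1 else 0) = 0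

/-- **TWN** (size 200): the homomorphisms `T`.

PROOF. `pmod` is additive; `b = ∑_k pmod k b` (sum over `ZMod n`); `pmod k (b b') = ∑_j pmod j b * pmod (k - j) b'` (coefficients, or
`MonoidAlgebra.induction_linear` for both: for `single p r`, `pmod k` is the element or `0`). So `T 1 = 1` and `T (M M')
((i, a), (l, c)) = ∑_j ∑_b pmod (b - a) (M i j) pmod (c - b) (M' j l)`. Hence `T` maps units to units, `T (1 + x y) = 1 + T x T y`:
the composition is a `KF` (for `mul` and `swap`: `κ` of the `T`-matrices; the index types are `ι × ZMod n`). -/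
def SpecTWN : Prop :=
  ∀ (R G K : Type) [Ring R] [Group G] [AddCommGroup K] (deg : G →* Multiplicative ℤ) (n : ℕ)
    [NeZero n],
    (∀ (ι ι' ι'' : Type) [Fintype ι'] (M : Matrix ι ι' (MonoidAlgebra R G))
      (M' : Matrix ι' ι'' (MonoidAlgebra R G)), Tm deg n (M * M') = Tm deg n M * Tm deg n M') ∧
    (∀ (ι : Type) [DecidableEq ι], Tm deg n (1 : Matrix ι ι (MonoidAlgebra R G)) = 1) ∧
    (∀ (ι : Type) [Fintype ι] [DecidableEq ι] (M : Matrix ι ι (MonoidAlgebra R G)), IsUnit M →
      IsUnit (Tm deg n M)) ∧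
    ∀ (κ : ∀ (ι : Type) [Fintype ι], Matrix ι ι (MonoidAlgebra R G) → K), KF κ →
      KF (fun (ι : Type) [Fintype ι] (M : Matrix ι ι (MonoidAlgebra R G)) =>
        κ (ι × ZMod n) (Tm deg n M))

/-- **LIN** (size 280, deps `SpecPMK`, `SpecBDK`, `SpecCYK`, `SpecTWN`): one coset of a line.

PROOF. Let `ν^N = 0`, `n` odd, `n ≥ N + 3`. `B = R[P × Z^m]`, `φ : B → R[G × Z^m]` (`KN/PSB.lean`: `PSBM`), `deg' = deg ∘ fst`.
`κ' ι M = κ ι (M.map φ)` is a `KF` on `B`, `λ ι M = κ' (ι × ZMod n) (Tm deg' n M) - n • κ' ι M` is a `KF` (TWN; a difference of two `KF`). (a) `M` a unit with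
support in `{g | g.1 = 1}`: all degrees are `0`, `Tm M` is the block diagonal matrix: `λ M = 0` (BDK, card `(ZMod n) = n`). (b) `M = diagonal (single (f i) 1)`:
`Tm M` is the product of the block diagonal matrix of `M` and the matrix of the permutation `(i, a) ↦ (i, a + deg (f i))`, whose `n`-th power is `1`:
`λ M = 0` (BDK, PMK). So `λ = 0` on all units (`PrK R P`, `N = ⊥`). (c) `ν = ν'.map φ` (`ν'` with the coefficients of `ν`; all degrees are `1`), `ν'` is nilpotent (`φ` injective);
`Tm ν' ((i, a), (j, b)) = ν' i j` if `b - a = 1`, otherwise `0`; CYK: `κ' (1 + Tm ν') = 0`. So `n • κ (1 + ν) = 0`. The same for `n + 2`: `2 • κ (1 + ν) = 0`,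
and `n` is odd: `κ (1 + ν) = 0`. -/
def SpecLIN : Prop :=
  ∀ (R G : Type) [Ring R] [Group G] (P : Subgroup G) (deg : ↥P →* Multiplicative ℤ), PrK R P →
    ∀ (m : ℕ) (K : Type) [AddCommGroup K]
    (κ : ∀ (ι : Type) [Fintype ι], Matrix ι ι (MonoidAlgebra R (G × Zm m)) → K), KF κ →
    ∀ (ι : Type) [Fintype ι] [DecidableEq ι] (ν : Matrix ι ι (MonoidAlgebra R (G × Zm m))),
    (∀ i j g, (ν i j).coeff g ≠ 0 → ∃ h : ↥P, deg h = Multiplicative.ofAdd 1 ∧ g.1 = (h : G)) →
    IsNilpotent ν → κ ι (1 + ν) = 0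

/-- **DGR** (size 200; imports `ROK/TFA.lean`, `specTFA`): the degree.

PROOF. `K = G_x ∩ G_y`. (1) If `Btw x y r` then `d x (g r) = d x (g x) + d x r` and `Btw x y (g r)`: `Btw (g y) (g x) x` and `Btw (g x) (g y) (g r)`, so
TFA (2) gives `d x (g r) = d x (g x) + d (g x) (g y) + d (g y) (g r) = d x (g x) + d x r`, also `Btw x (g y) (g r)`; with `Btw x y (g y)` TFA (3):
`Btw x y (g r)`. So `d x (g^n y) = n d (x, g x) + d x y`, the vertices `g^n y`, `n ∈ ℕ`, are pairwise different. (2) For `h ∈ K` and `n ∈ ℕ`: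
`g^(-n) h g^n ∈ K`, so `h g^n y = g^n y`. (3) `E p c` (`p ∈ G`, `c ∈ ℤ`): `p g^n y = g^(n + c) y` for all large `n`. `c` is unique
by (1) (also for integer exponents: multiply by a power of `g`). `E p c`, `E p' c'` ⟹ `E (p p') (c + c')`, `E p⁻¹ (-c)`; `E h 0` for `h ∈ K`, `E g 1`. So every
`p` in the closure has a `c` (`Subgroup.closure_induction`); `deg p = c`. -/
def SpecDGR : Prop :=
  ∀ (G V : Type) [Group G] [MulAction G V] (d : V → V → ℕ), TM G d → ∀ (x y : V) (g : G), x ≠ y →
    g • x ≠ x → Btw d x y (g • y) → Btw d x (g • x) (g • y) →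
    g ∈ StL (MulAction.stabilizer G x ⊓ MulAction.stabilizer G y) →
    ∃ deg : ↥(lnG (MulAction.stabilizer G x ⊓ MulAction.stabilizer G y) g) →* Multiplicative ℤ,
      (∀ h : ↥(lnG (MulAction.stabilizer G x ⊓ MulAction.stabilizer G y) g),
        (h : G) ∈ MulAction.stabilizer G x ⊓ MulAction.stabilizer G y → deg h = 1) ∧
      ∀ h : ↥(lnG (MulAction.stabilizer G x ⊓ MulAction.stabilizer G y) g),
        (h : G) = g → deg h = Multiplicative.ofAdd 1

/-- THEOREM L. -/
def SpecCLL : Prop :=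
  ∀ (R G V : Type) [Ring R] [Group G] [MulAction G V] (T : SimpleGraph V) (v w : V),
    TrH G T v w → SFR R → WhR R ↥(MulAction.stabilizer G v) → WhR R ↥(MulAction.stabilizer G w) →
    WhR R ↥(MulAction.stabilizer G v ⊓ MulAction.stabilizer G w) →
    (∀ (x y : V) (g : G), x ≠ y → g • x ≠ x → T.dist x (g • y) = T.dist x y + T.dist y (g • y) →
      T.dist x (g • y) = T.dist x (g • x) + T.dist (g • x) (g • y) →
      (∀ h ∈ MulAction.stabilizer G x ⊓ MulAction.stabilizer G y,
        g⁻¹ * h * g ∈ MulAction.stabilizer G x ⊓ MulAction.stabilizer G y) →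
      WhR R ↥(lnG (MulAction.stabilizer G x ⊓ MulAction.stabilizer G y) g) ∨
      ∀ m : ℕ, RegCoh (MonoidAlgebra R
        (↥(MulAction.stabilizer G x ⊓ MulAction.stabilizer G y) × Zm m))) →
    (∀ (m : ℕ) (x : V) (y : ℕ → V),
      (∀ i, T.dist x (y (i + 1)) = T.dist x (y i) + T.dist (y i) (y (i + 1))) →
      (∀ i, MulAction.stabilizer G x ⊓ MulAction.stabilizer G (y (i + 1)) <
        MulAction.stabilizer G x ⊓ MulAction.stabilizer G (y i)) →
      ∃ i, RegCoh (MonoidAlgebra R
        (↥(MulAction.stabilizer G x ⊓ MulAction.stabilizer G (y i)) × Zm m))) →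
    WhR R G ∧ StR R G

end Pool.Agent.Lib.MPb6f35e.KN
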