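import Pool.Agent.Lib.MP_b6f35e_al.D1.Defs

/-!
# Vanishing of Waldhausen's Nil classes over arbitrary edge groups: definitions of the statement

Folder KN of MP_b6f35e_al. Paper: `/team-store/MP_b6f35e_KN_h23.md`.
-/

namespace Pool.Agent.Lib.MPb6f35e.KN

/-- `M` has a resolution of length `n` by finitely generated projective modules. -/
def FPres (S : Type) [Ring S] : ℕ → ∀ (M : Type) [AddCommGroup M] [Module S M], Prop
  | 0, M, _, _ => Module.Finite S M ∧ Module.Projective S M
  | n + 1, M, _, _ => ∃ (F : Type) (_ : AddCommGroup F) (_ : Module S F) (f : F →ₗ[S] M),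
      Module.Finite S F ∧ Module.Projective S F ∧ Function.Surjective f ∧
      FPres S n (LinearMap.ker f)

/-- `S` is regular coherent: every finitely presented `S`-module has a finite resolution by
finitely generated projective modules. -/
def RegCoh (S : Type) [Ring S] : Prop :=
  ∀ (M : Type) [AddCommGroup M] [Module S M], Module.FinitePresentation S M → ∃ n, FPres S n M

/-- The oriented edges `(v, w)` and `(w, v)`. -/
def en {V : Type} (v w : V) : Bool → V × V
  | true => (v, w)
  | false => (w, v)

/-- The letters `x` of type `(a, b)`: `x` maps the first vertex of the oriented edge `b` to the last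
vertex of `a`, and the last vertex of `b` not to the first vertex of `a`. -/
def Let (G : Type) {V : Type} [Group G] [MulAction G V] (v w : V) (a b : Bool) : Set G :=
  {x | x • (en v w b).1 = (en v w a).2 ∧ x • (en v w b).2 ≠ (en v w a).1}

/-- The matrix `1 + ν` is trivial in `K_1(R[G])` for every nilpotent matrix `ν` over `R[G]` whose
entry `(i, j)` is supported in the letters of type `(τ i, τ j)`. -/
def NilTrivial (R G : Type) {V : Type} [Ring R] [Group G] [MulAction G V] (v w : V) : Prop :=
  ∀ (n : ℕ) (τ : Fin n → Bool) (ν : Matrix (Fin n) (Fin n) (MonoidAlgebra R G)),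
    (∀ i j g, (ν i j).coeff g ≠ 0 → g ∈ Let G v w (τ i) (τ j)) → IsNilpotent ν →
    ∀ u : (Matrix (Fin n) (Fin n) (MonoidAlgebra R G))ˣ, u.val = 1 + ν →
      D1.cls (D1.RelA (MonoidAlgebra R G)) ⟨n, u⟩ = 0

/-- THEOREM K. `R[G_x ∩ G_y]` is regular coherent if the segment from `x` to `y` has length `≥ k` and
passes through `v` and then `w`; then `NilTrivial`. -/
def SpecMain : Prop :=
  ∀ (R G V : Type) [Ring R] [Group G] [MulAction G V] (T : SimpleGraph V) (v w : V) (k : ℕ),
    T.IsTree → (∀ (g : G) (x y : V), T.Adj x y → T.Adj (g • x) (g • y)) → T.Adj v w →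
    (∀ g : G, ¬ (g • v = w ∧ g • w = v)) →
    (∀ x y : V, k ≤ T.dist x y → T.dist x y = T.dist x v + 1 + T.dist w y →
      RegCoh (MonoidAlgebra R ↥(MulAction.stabilizer G x ⊓ MulAction.stabilizer G y))) →
    NilTrivial R G v w

end Pool.Agent.Lib.MPb6f35e.KN
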