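import Pool.Agent.Lib.MP_b6f35e_al.KN.SpecW

/-!
# Project KN (MP_b6f35e_al), module TMX: tree matrices
-/

set_option autoImplicit false

namespace Pool.Agent.Lib.MPb6f35e.KN

open Matrix
open Pool.Agent.Lib.MP8a3537.UV (emb res lres SuppIn)
open Pool.Agent.Lib.MP8a3537.RO (cut cutM cut_coeff)

namespace TMXM

variable {R G : Type} [Ring R] [Group G]

theorem coeff_zero_ne (g : G) (h : (0 : MonoidAlgebra R G).coeff g ≠ 0) : False := by
  apply h
  rw [MonoidAlgebra.coeff_zero, Finsupp.zero_apply]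

theorem coeff_one_ne (g : G) (h : (1 : MonoidAlgebra R G).coeff g ≠ 0) : g = 1 := by
  classical
  by_contra hc
  apply h
  rw [MonoidAlgebra.one_def, MonoidAlgebra.coeff_single, Finsupp.single_apply,
    if_neg (fun e => hc e.symm)]

omit [Group G] in
theorem coeff_neg_ne (x : MonoidAlgebra R G) (g : G) (h : (-x).coeff g ≠ 0) : x.coeff g ≠ 0 := by
  intro h0
  apply h
  rw [MonoidAlgebra.coeff_neg, Finsupp.neg_apply, h0, neg_zero]

theorem one_ne {ι : Type} [DecidableEq ι] (i j : ι) (g : G)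
    (h : ((1 : Matrix ι ι (MonoidAlgebra R G)) i j).coeff g ≠ 0) : g = 1 := by
  by_cases hij : i = j
  · subst hij
    rw [Matrix.one_apply_eq] at h
    exact coeff_one_ne g h
  · rw [Matrix.one_apply_ne hij] at h
    exact (coeff_zero_ne g h).elim

/-- the part supported in `W` -/
theorem cutM_ne {m n : Type} (W : Set G) (M : Matrix m n (MonoidAlgebra R G)) (i : m) (j : n)
    (g : G) (h : (cutM W M i j).coeff g ≠ 0) : g ∈ W := by
  by_contra hc
  apply h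
  unfold cutM
  rw [Matrix.map_apply, cut_coeff, if_neg hc]

/-- the remaining part -/
theorem sub_cutM_ne {m n : Type} (W : Set G) (M : Matrix m n (MonoidAlgebra R G)) (i : m) (j : n)
    (g : G) (h : ((M - cutM W M) i j).coeff g ≠ 0) : g ∉ W ∧ (M i j).coeff g ≠ 0 := by
  have e : ((M - cutM W M) i j).coeff g = (M i j).coeff g - (cut W (M i j)).coeff g := by
    rw [Matrix.sub_apply]
    unfold cutM
    rw [Matrix.map_apply, MonoidAlgebra.coeff_sub, Finsupp.sub_apply]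
  rw [e, cut_coeff] at h
  by_cases hg : g ∈ W
  · rw [if_pos hg, sub_self] at h
    exact absurd rfl h
  · rw [if_neg hg, sub_zero] at h
    exact ⟨hg, h⟩

end TMXM

open TMXM in
theorem specTMX (hKCL : SpecKCL) : SpecTMX := by
  intro R G V K _ _ _ _ κ hκ v w ι _ _ M hM hS
  obtain ⟨k1, k2, k3, -⟩ := hKCL (MonoidAlgebra R G) K κ hκ
  obtain ⟨u, rfl⟩ := hM
  obtain ⟨W, hW⟩ : ∃ W : Set G, W = {g | g • v = v ∨ g • v = w} := ⟨_, rfl⟩
  obtain ⟨M1, hM1⟩ : ∃ M1 : Matrix ι ι (MonoidAlgebra R G), M1 = cutM W u.val := ⟨_, rfl⟩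
  obtain ⟨M2, hM2⟩ : ∃ M2 : Matrix ι ι (MonoidAlgebra R G), M2 = u.val - M1 := ⟨_, rfl⟩
  have hadd : M1 + M2 = u.val := by rw [hM2]; abel
  obtain ⟨N, hN⟩ : ∃ N : Matrix ι ι (MonoidAlgebra R G), N = (u⁻¹).val := ⟨_, rfl⟩
  have huN : u.val * N = 1 := by rw [hN]; exact u.mul_inv
  have hNu : N * u.val = 1 := by rw [hN]; exact u.inv_mul
  -- the matrices
  obtain ⟨d, hd⟩ : ∃ d : Matrix (ι ⊕ ι) (ι ⊕ ι) (MonoidAlgebra R G),
    d = fromBlocks M1 M2 (-1) 1 := ⟨_, rfl⟩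
  obtain ⟨E, hE⟩ : ∃ E : Matrix (ι ⊕ ι) (ι ⊕ ι) (MonoidAlgebra R G),
    E = fromBlocks 1 0 1 1 := ⟨_, rfl⟩
  obtain ⟨E', hE'⟩ : ∃ E' : Matrix (ι ⊕ ι) (ι ⊕ ι) (MonoidAlgebra R G),
    E' = fromBlocks 1 0 (-1) 1 := ⟨_, rfl⟩
  obtain ⟨U, hU⟩ : ∃ U : Matrix (ι ⊕ ι) (ι ⊕ ι) (MonoidAlgebra R G),
    U = fromBlocks u.val M2 0 1 := ⟨_, rfl⟩
  obtain ⟨U', hU'⟩ : ∃ U' : Matrix (ι ⊕ ι) (ι ⊕ ι) (MonoidAlgebra R G),
    U' = fromBlocks N (-(N * M2)) 0 1 := ⟨_, rfl⟩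
  have hdE : d * E = U := by
    rw [hd, hE, hU, fromBlocks_multiply, ← hadd]
    simp
  have hEE' : E * E' = 1 := by
    rw [hE, hE', fromBlocks_multiply, ← fromBlocks_one]
    simp
  have hE'E : E' * E = 1 := by
    rw [hE, hE', fromBlocks_multiply, ← fromBlocks_one]
    simp
  have hUU' : U * U' = 1 := by
    rw [hU, hU', fromBlocks_multiply, ← fromBlocks_one]
    have e1 : u.val * -(N * M2) + M2 * 1 = 0 := by
      rw [mul_neg, ← mul_assoc, huN, one_mul, mul_one, neg_add_cancel]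
    rw [e1, huN]
    simp
  have hU'U : U' * U = 1 := by
    rw [hU, hU', fromBlocks_multiply, ← fromBlocks_one]
    rw [hNu]
    simp
  have hdU : d = U * E' := by
    rw [← hdE, mul_assoc, hEE', mul_one]
  have hdD : d * (E * U') = 1 := by
    rw [← mul_assoc, hdE, hUU']
  have hDd : E * U' * d = 1 := by
    rw [hdU, mul_assoc, ← mul_assoc U' U E', hU'U, one_mul, hEE']
  have hdu : IsUnit d := ⟨⟨d, E * U', hdD, hDd⟩, rfl⟩
  have hEu : IsUnit E := ⟨⟨E, E', hEE', hE'E⟩, rfl⟩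
  have c1 : κ (ι ⊕ ι) U = κ ι u.val := by
    rw [hU, k2 ι ι u.val M2 1 u.isUnit isUnit_one, k1 ι, add_zero]
  have c2 : κ (ι ⊕ ι) E = 0 := by
    rw [hE, k3 ι ι 1 1 1 isUnit_one isUnit_one, k1 ι, add_zero]
  have c3 : κ (ι ⊕ ι) U = κ (ι ⊕ ι) d + κ (ι ⊕ ι) E := by
    rw [← hdE]
    exact hκ.mul (ι ⊕ ι) d E hdu hEu
  refine ⟨Sum.elim (fun _ => v) (fun _ => w), d, E * U', ?_, ⟨?_, hdD, hDd⟩, ?_⟩
  · rintro (j | j)
    · exact Or.inl rfl
    · exact Or.inr rfl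
  · rintro (i | i) (j | j) g hg
    · rw [hd, fromBlocks_apply₁₁, hM1] at hg
      have h1 := cutM_ne W _ i j g hg
      rw [hW] at h1
      exact h1
    · rw [hd, fromBlocks_apply₁₂, hM2, hM1] at hg
      have h0 := sub_cutM_ne W u.val i j g hg
      obtain ⟨h1, h2⟩ := h0
      rw [hW] at h1
      rcases hS i j g h2 with h3 | h3
      · exact absurd h3 h1
      · exact h3
    · rw [hd, fromBlocks_apply₂₁, Matrix.neg_apply] at hg
      have h1 := one_ne i j g (coeff_neg_ne _ g hg)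
      left
      rw [h1]
      exact one_smul G v
    · rw [hd, fromBlocks_apply₂₂] at hg
      have h1 := one_ne i j g hg
      right
      rw [h1]
      exact one_smul G w
  · rw [← c1, c3, c2, add_zero]

end Pool.Agent.Lib.MPb6f35e.KN
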