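import Pool.Agent.Lib.MP_b6f35e_al.KN.SpecL
import Pool.Agent.Lib.MP_8a3537_gt.ROK.FPT

/-! Module VGL (helper23): the induction over the good segments, with lines. -/

namespace Pool.Agent.Lib.MPb6f35e.KN

open Matrix
open Pool.Agent.Lib.MP8a3537.UV (emb res lres SuppIn)
open Pool.Agent.Lib.MP8a3537.RO (Bi dc Kg cut)
open Pool.Agent.Lib.MP8a3537.ROK (TM)

namespace VGLM

theorem stL_of_mem {G : Type} [Group G] {L : Subgroup G} {h : G} (hh : h ∈ L) : h ∈ StL L :=
  fun _ ha => L.mul_mem (L.mul_mem (L.inv_mem hh) ha) hh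

theorem stL_mul {G : Type} [Group G] {L : Subgroup G} {a b : G} (ha : a ∈ StL L)
    (hb : b ∈ StL L) : a * b ∈ StL L := by
  intro h hh
  have := hb _ (ha h hh)
  rwa [show b⁻¹ * (a⁻¹ * h * a) * b = (a * b)⁻¹ * h * (a * b) by group] at this

theorem xw_mono {G : Type} [Group G] {L : Subgroup G} {X X' : Set G} (h : X ⊆ X') :
    ∀ (j : ℕ) (u : G), u ∈ Xw L X j → u ∈ Xw L X' j
  | 0, _, hu => hu
  | j + 1, _, ⟨w, hw, y, hy, e⟩ => ⟨w, xw_mono h j w hw, y, h hy, e⟩

theorem xw_stL {G : Type} [Group G] {L : Subgroup G} {X : Set G} :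
    ∀ (j : ℕ) (u : G), u ∈ Xw L (X ∩ StL L) j → u ∈ StL L
  | 0, _, hu => stL_of_mem hu
  | j + 1, _, ⟨w, hw, y, hy, e⟩ => by
    rw [e]
    exact stL_mul (xw_stL j w hw) hy.2

/-- The induction over the good segments. -/
theorem van_of_gdL (hELU : SpecELU) (hLZE : SpecLZE) (hWRD : SpecWRD) (hBLT : SpecBLT)
    (hBGE : SpecBGE) (hBAS : SpecBAS) {R G K V : Type} [Ring R] [Group G] [AddCommGroup K]
    [MulAction G V] {κ : ∀ (ι : Type) [Fintype ι], Matrix ι ι (MonoidAlgebra R G) → K}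
    {d : V → V → ℕ} (hκ : KF κ) (hTM : TM G d) {p q : V} (h : GdL R G d p q) :
    ∀ (L : Subgroup G) (X Y : Set G), TD1 L X Y → Geo1 d L X p q → Van κ X := by
  induction h with
  | @reg y hreg =>
    intro L X Y hTD hg
    have hL : L = MulAction.stabilizer G p ⊓ MulAction.stabilizer G y := by
      ext g
      rw [Subgroup.mem_inf, MulAction.mem_stabilizer_iff, MulAction.mem_stabilizer_iff]
      exact hg.st () g
    subst hL
    exact hBAS R G K κ hκ _ X Y hTD hreg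
  | @step y hl hs ih =>
    intro L X Y hTD hg
    have hL : L = MulAction.stabilizer G p ⊓ MulAction.stabilizer G y := by
      ext g
      rw [Subgroup.mem_inf, MulAction.mem_stabilizer_iff, MulAction.mem_stabilizer_iff]
      exact hg.st () g
    subst hL
    have hW := hWRD G V d hTM _ X p y hg
    refine hELU R G K κ hκ _ X Y hTD ?_ ?_
    · intro g hgX hgS
      have hw : g ∈ Xw (MulAction.stabilizer G p ⊓ MulAction.stabilizer G y) X 1 :=
        ⟨1, (MulAction.stabilizer G p ⊓ MulAction.stabilizer G y).one_mem, g, hgX,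
          (one_mul g).symm⟩
      obtain ⟨c1, c2, c3⟩ := hW 1 le_rfl g hw
      obtain ⟨h1, -, -⟩ := hBGE G V Unit d hTM _ (fun _ _ => X) (fun _ => p) (fun _ => y) hg () () g
        hgX
      exact ih g c1 c2 c3 hgS _ _ _ (hBLT G Unit _ (fun _ _ => X) (fun _ => Y) hTD () () g hgX) h1
    · refine hLZE R G K κ hκ _ X Y hTD ?_
      intro j hj u hu
      obtain ⟨c1, c2, c3⟩ := hW j hj u (xw_mono Set.inter_subset_left j u hu)
      exact hl u c1 c2 c3 (xw_stL j u hu) K κ hκ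

/-- The classes of the nilpotent matrices vanish, for all functions like `K_1`. -/
theorem nil_of_gdL (hELK : SpecELK) (hELU : SpecELU) (hLZE : SpecLZE) (hWRD : SpecWRD)
    (hBLT : SpecBLT) (hBGE : SpecBGE) (hEGE : SpecEGE) (hETD : SpecETD) (hBAS : SpecBAS)
    {R G V K : Type} [Ring R] [Group G] [MulAction G V]
    [AddCommGroup K] {κ : ∀ (ι : Type) [Fintype ι], Matrix ι ι (MonoidAlgebra R G) → K}
    (hκ : KF κ) {T : SimpleGraph V} {v w : V} (hT : TrH G T v w)
    (hgd : ∀ x y : V, x ≠ y → GdL R G T.dist x y) :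
    ∀ (ι : Type) [Fintype ι] [DecidableEq ι] (τ : ι → Bool)
      (ν : Matrix ι ι (MonoidAlgebra R G)), Ty (Let G v w) τ ν → IsNilpotent ν →
      κ ι (1 + ν) = 0 := by
  intro ι _ _ τ ν h1 h2
  have hTM : TM G (V := V) T.dist :=
    Pool.Agent.Lib.MP8a3537.ROK.specFPT G V T hT.tree hT.act
  obtain ⟨Y, hY⟩ := hETD G V T v w hT.tree hT.act hT.adj hT.inv
  have hgeo := hEGE G V T v w hT.tree hT.act hT.adj hT.inv
  have hvan : ∀ s t, ∀ g ∈ Let G v w s t, Van κ (BL (MulAction.stabilizer G v ⊓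
      MulAction.stabilizer G w) (Let G v w) s t g) := by
    intro s t g hg
    obtain ⟨h1, -, -⟩ := hBGE G V Bool T.dist hTM _ _ _ _ hgeo s t g hg
    exact van_of_gdL hELU hLZE hWRD hBLT hBGE hBAS hκ hTM (hgd _ _ (h1.ne ())) _ _ _
      (hBLT G Bool _ _ Y hY s t g hg) h1
  exact hELK R G K Bool κ hκ _ _ Y hY hvan ι τ ν h1 h2

end VGLM

end Pool.Agent.Lib.MPb6f35e.KN
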