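import Pool.Agent.Lib.MP_b6f35e_al.KN.SpecL
import Pool.Agent.Lib.MP_8a3537_gt.ROK.TFA

/-!
# Lines in trees: the geometry of words (MP_b6f35e_al, folder KN, part L, module WRD)
-/

set_option autoImplicit false

namespace Pool.Agent.Lib.MPb6f35e.KN

open Pool.Agent.Lib.MP8a3537.ROK (TM)

namespace WRDM

variable {G V : Type} [Group G] [MulAction G V]

/-- Words move the two halves into themselves. -/
theorem half {d : V → V → ℕ} (hd : TM G d) {L : Subgroup G} {X : Set G} {p q : V}
    (h : Geo1 d L X p q) (j : ℕ) : ∀ u ∈ Xw L X j,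
      (∀ r, Btw d p q r → Btw d p q (u • r)) ∧ (∀ r, Btw d q p r → Btw d q p (u⁻¹ • r)) := by
  induction j with
  | zero =>
    intro u hu
    obtain ⟨hp, hq⟩ := (h.st () u).1 hu
    have hp' : u⁻¹ • p = p := by
      rw [inv_smul_eq_iff]
      exact hp.symm
    have hq' : u⁻¹ • q = q := by
      rw [inv_smul_eq_iff]
      exact hq.symm
    constructor
    · intro r hr
      have h1 : d p (u • r) = d p r := by
        conv_lhs => rw [← hp]
        exact hd.iso u p r
      have h2 : d q (u • r) = d q r := by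
        conv_lhs => rw [← hq]
        exact hd.iso u q r
      unfold Btw at hr ⊢
      rw [h1, h2, hr]
    · intro r hr
      have h1 : d p (u⁻¹ • r) = d p r := by
        conv_lhs => rw [← hp']
        exact hd.iso u⁻¹ p r
      have h2 : d q (u⁻¹ • r) = d q r := by
        conv_lhs => rw [← hq']
        exact hd.iso u⁻¹ q r
      unfold Btw at hr ⊢
      rw [h1, h2, hr]
  | succ j ih =>
    rintro u ⟨w, hw, y, hy, rfl⟩
    obtain ⟨h1, h2⟩ := ih w hw
    constructor
    · intro r hr
      rw [mul_smul]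
      exact h1 _ (h.dp () () y hy r hr)
    · intro r hr
      rw [mul_inv_rev, mul_smul]
      exact h.dm () () y hy _ (h2 r hr)

end WRDM

open WRDM in
theorem specWRD : SpecWRD := by
  intro G V _ _ d hd L X p q h j hj u hu
  have hpq : p ≠ q := h.ne ()
  obtain ⟨h1, h2⟩ := half hd h j u hu
  have hqq : d q q = 0 := (hd.d0 q q).2 rfl
  have hpp : d p p = 0 := (hd.d0 p p).2 rfl
  have hb1 : Btw d p q (u • q) := h1 q (by unfold Btw; omega)
  have hb2 : Btw d p (u • p) (u • q) := by
    have h3 : Btw d q p (u⁻¹ • p) := h2 p (by unfold Btw; omega)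
    unfold Btw at h3 ⊢
    have h4 : d (u • q) p = d q (u⁻¹ • p) := by
      rw [← hd.iso u q (u⁻¹ • p), smul_inv_smul]
    have h5 : d (u • p) p = d p (u⁻¹ • p) := by
      rw [← hd.iso u p (u⁻¹ • p), smul_inv_smul]
    have h6 : d (u • p) (u • q) = d p q := hd.iso u p q
    have h7 := hd.cm (u • q) p
    have h8 := hd.cm (u • p) p
    have h9 := hd.cm q p
    omega
  refine ⟨?_, hb1, hb2⟩
  intro hup
  have huq : u • q = q := by
    have h3 : d p (u • q) = d p q := by
      conv_lhs => rw [← hup]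
      exact hd.iso u p q
    unfold Btw at hb1
    have h4 : d q (u • q) = 0 := by omega
    exact ((hd.d0 _ _).1 h4).symm
  obtain ⟨i, rfl⟩ : ∃ i, j = i + 1 := ⟨j - 1, by omega⟩
  obtain ⟨w, hw, x, hx, rfl⟩ := hu
  obtain ⟨-, h4⟩ := half hd h i w hw
  have hxp : x • p = w⁻¹ • p := by
    rw [eq_inv_smul_iff, ← mul_smul, hup]
  have h5 : Btw d q p (x • p) := by
    rw [hxp]
    exact h4 p (by unfold Btw; omega)
  have h6 : Btw d p q (x • q) := h.dp () () x hx q (by unfold Btw; omega)
  have h7 := (Pool.Agent.Lib.MP8a3537.ROK.specTFA G V d hd).2.1 p q (x • q) (x • p) hpq h6 h5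
  have h8 : d (x • q) (x • p) = d q p := hd.iso x q p
  have h9 : d (x • q) q = 0 := by omega
  have h10 : d p (x • p) = 0 := by omega
  exact h.nf () () x hx ⟨((hd.d0 _ _).1 h10).symm, (hd.d0 _ _).1 h9⟩

end Pool.Agent.Lib.MPb6f35e.KN
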