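import Pool.Agent.Lib.MP_b6f35e_al.KN.Spec
import Pool.Agent.Lib.MP_8a3537_gt.UV.RES

/-!
# WSJ: components of the kernel of `ν^j` (MP_b6f35e_al, folder KN)
-/

namespace Pool.Agent.Lib.MPb6f35e.KN

open Matrix
open Pool.Agent.Lib.MP8a3537.UV (emb res lres SuppIn Disj)

namespace WSJM

section Words

variable {G : Type} [Group G] {L : Subgroup G} {X Y : Set G}

theorem xw_zh (hT : TD1 L X Y) (j : ℕ) (l : G) (hl : l ∈ L) (w : G) (hw : w ∈ Xw L X j) :
    w * l ∈ Xw L X j := by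
  cases j with
  | zero => exact L.mul_mem hw hl
  | succ j =>
    obtain ⟨w', hw', y, hy, rfl⟩ := hw
    exact ⟨w', hw', y * l, hT.zh () () l hl y hy, mul_assoc _ _ _⟩

theorem xw_hz (j : ℕ) (l : G) (hl : l ∈ L) : ∀ w ∈ Xw L X j, l * w ∈ Xw L X j := by
  induction j with
  | zero => exact fun w hw => L.mul_mem hl hw
  | succ j ih =>
    rintro w ⟨w', hw', y, hy, rfl⟩
    exact ⟨l * w', ih w' hw', y, hy, (mul_assoc _ _ _).symm⟩

theorem yw (hT : TD1 L X Y) (j : ℕ) (y : G) (hy : y ∈ Y) : ∀ w ∈ Xw L X j, y * w ∈ Y := by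
  induction j with
  | zero => exact fun w hw => hT.yh () w hw y hy
  | succ j ih =>
    rintro w ⟨w', hw', x, hx, rfl⟩
    rw [← mul_assoc]
    exact hT.yz () () _ (ih w' hw') x hx

theorem disj (hT : TD1 L X Y) (j : ℕ) : Disj L Y (Xw L X j) := by
  induction j with
  | zero =>
    intro y _ y' _ w hw w' hw' h
    have h1 : y⁻¹ * y' = w * w'⁻¹ := by
      rw [eq_mul_inv_iff_mul_eq, mul_assoc, ← h]
      group
    rw [h1]
    exact L.mul_mem hw (L.inv_mem hw')
  | succ j ih =>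
    rintro y hy y' hy' w ⟨w1, hw1, x, hx, rfl⟩ w' ⟨w1', hw1', x', hx', rfl⟩ h
    rw [← mul_assoc, ← mul_assoc] at h
    have hh := (hT.uq () () () _ (yw hT j y hy w1 hw1) x hx _ (yw hT j y' hy' w1' hw1') x' hx' h).2
    refine ih y hy y' hy' w1 hw1 (w1' * (x' * x⁻¹)) (xw_zh hT j _ hh _ hw1') ?_
    calc y * w1 = y * w1 * x * x⁻¹ := by group
      _ = y' * w1' * x' * x⁻¹ := by rw [h]
      _ = y' * (w1' * (x' * x⁻¹)) := by group

end Words

section Supp

variable {R G : Type} [Ring R] [Group G]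

theorem mul_supp (a b : MonoidAlgebra R G) (g : G) (h : (a * b).coeff g ≠ 0) :
    ∃ x y, a.coeff x ≠ 0 ∧ b.coeff y ≠ 0 ∧ g = x * y := by
  rw [MonoidAlgebra.coeff_mul_apply_left] at h
  obtain ⟨x, hx, h2⟩ := Finset.exists_ne_zero_of_sum_ne_zero h
  refine ⟨x, x⁻¹ * g, Finsupp.mem_support_iff.1 hx, fun h0 => h2 ?_, by group⟩
  show a.coeff x * b.coeff (x⁻¹ * g) = 0
  rw [h0, mul_zero]

theorem supp_pow {L : Subgroup G} {X : Set G} {ι : Type} [Fintype ι] [DecidableEq ι]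
    (ν : Matrix ι ι (MonoidAlgebra R G)) (hν : SuppIn X ν) (j : ℕ) :
    SuppIn (Xw L X j) (ν ^ j) := by
  classical
  induction j with
  | zero =>
    intro i k g hg
    rw [pow_zero, Matrix.one_apply] at hg
    split_ifs at hg with hik
    · rw [MonoidAlgebra.one_def, MonoidAlgebra.coeff_single, Finsupp.single_apply] at hg
      split_ifs at hg with h1
      · rw [← h1]
        exact L.one_mem
      · exact absurd rfl hg
    · exact absurd rfl hg
  | succ j ih =>
    intro i k g hg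
    rw [pow_succ, Matrix.mul_apply] at hg
    obtain ⟨m, _, hm⟩ := Pool.Agent.Lib.MP8a3537.UV.RESAux.exists_of_coeff_sum_ne _ _ _ hg
    obtain ⟨x, y, hx, hy, rfl⟩ := mul_supp _ _ _ hm
    exact ⟨x, ih _ _ _ hx, y, hν _ _ _ hy, rfl⟩

end Supp

end WSJM

theorem specWSJ : SpecWSJ := by
  intro R G _ _ L X Y hT ι _ _ ν hν j z hz h0 t
  rw [mem_Kj]
  let e : Fin (Fintype.card ι) ≃ ι := (Fintype.equivFin ι).symm
  let θ : Matrix (Fin 1) (Fin (Fintype.card ι)) (MonoidAlgebra R G) := fun _ k => z (e k)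
  let Z : Matrix (Fin (Fintype.card ι)) ι (MonoidAlgebra R G) := fun k c => (ν ^ j) (e k) c
  have hD := Pool.Agent.Lib.MP8a3537.UV.RESAux.DJ L θ Z Y (Xw L X j)
    (fun l hl y hy => hT.yh () l hl y hy) (fun l hl w hw => WSJM.xw_hz j l hl w hw)
    (WSJM.disj hT j) (fun _ k g hg => hz (e k) g hg)
    (fun k c g hg => WSJM.supp_pow ν hν j (e k) c g hg) (by
      ext1 i c
      have := congrFun h0 c
      rw [Matrix.vecMul, dotProduct, ← Equiv.sum_comp e] at this
      rw [Matrix.mul_apply]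
      exact this) t
  funext c
  have h1 := congrFun (congrFun hD 0) c
  rw [Matrix.mul_apply] at h1
  rw [Matrix.vecMul, dotProduct, ← Equiv.sum_comp e]
  exact h1

end Pool.Agent.Lib.MPb6f35e.KN
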